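import Pool.Agent.Lib.MP_5e7226_co.C8.Frame

/-!
# From bodies with a normalised frame to the separation theorem
-/

set_option autoImplicit false

open Set Filter Topology
open scoped InnerProductSpace

namespace Pool.Agent.Lib.MP_5e7226_co.C8

open GB

/-- the illumination theorem, from the bodies in which the simplex has maximal volume -/
theorem illum_of_frame {N : ℕ} (H : ∀ L : Set E, SimMax L → Illum L N)
    {W : Type*} [NormedAddCommGroup W] [NormedSpace ℝ W] [FiniteDimensional ℝ W]
    (hdim : Module.finrank ℝ W = 3) {L : Set W} (hc : Convex ℝ L) (hk : IsCompact L)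
    (hi : (interior L).Nonempty) : Illum L N :=
  illum_of_coord (fun _ h1 h2 h3 => illum_of_sim H h1 h2 h3) hdim hc hk hi

/-- the separation form, for a body containing the origin in its interior -/
theorem sep_of_frame {N : ℕ} (H : ∀ L : Set E, SimMax L → Illum L N)
    {V : Type*} [NormedAddCommGroup V] [NormedSpace ℝ V]
    [FiniteDimensional ℝ V] (hdim : Module.finrank ℝ V = 3) {K : Set V}
    (hK : IsCompact K) (h0 : (0 : V) ∈ interior K) : Sep K N := by
  apply Sep.of_illum_polar hK h0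
  have hdual : Module.finrank ℝ (V →L[ℝ] ℝ) = 3 := by
    rw [← hdim, ← Subspace.dual_finrank_eq (K := ℝ) (V := V)]
    exact (LinearMap.toContinuousLinearMap (𝕜 := ℝ) (E := V) (F' := ℝ)).symm.finrank_eq
  exact illum_of_frame H hdual (polarBody_convex K)
    (Metric.isCompact_of_isClosed_isBounded (polarBody_closed K) (polarBody_bounded h0))
    ⟨0, polarBody_zero_mem_interior hK⟩

/-- the separation theorem in the three-dimensional Euclidean space -/
theorem final_separation {N : ℕ} (H : ∀ L : Set E, SimMax L → Illum L N)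
    (K : Set (EuclideanSpace ℝ (Fin 3))) (hK : IsCompact K)
    (o : EuclideanSpace ℝ (Fin 3)) (ho : o ∈ interior K) :
    ∃ w : Fin N → EuclideanSpace ℝ (Fin 3), ∃ b : Fin N → ℝ,
      ∀ u x₀ : EuclideanSpace ℝ (Fin 3), u ≠ 0 → x₀ ∈ K →
        (∀ y ∈ K, ⟪u, y⟫_ℝ ≤ ⟪u, x₀⟫_ℝ) →
          ∃ i, ⟪w i, o⟫_ℝ < b i ∧
            ∀ x ∈ K, ⟪u, x⟫_ℝ = ⟪u, x₀⟫_ℝ → b i < ⟪w i, x⟫_ℝ := by
  refine sep_to_hyperplanes hK o ?_
  have hdim : Module.finrank ℝ (EuclideanSpace ℝ (Fin 3)) = 3 := by simp
  refine sep_of_frame H hdim (hK.image (continuous_id.sub continuous_const)) ?_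
  exact (Homeomorph.subRight o).isOpenMap.image_interior_subset K ⟨o, ho, by simp⟩

end Pool.Agent.Lib.MP_5e7226_co.C8
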