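import Pool.Agent.Lib.MP_5e7226_co.C8.Geo

/-!
# Eight directions: states and rules

A state consists of points `K` of the body, points `F` outside of the body, and facts `(C, w)`:
some point of `L ∩ conv C` is not lit by the direction `w`.
-/

set_option autoImplicit false

open Set Filter Topology

namespace Pool.Agent.Lib.MP_5e7226_co.C8

open GB

/-- a state -/
structure St where
  K : Set E
  F : Set E
  U : Set (Set E × E)

/-- the body is in the state -/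
structure St.Holds (σ : St) (L : Set E) : Prop where
  pts : σ.K ⊆ L
  out : ∀ n ∈ σ.F, n ∉ L
  unlit : ∀ f ∈ σ.U, ∃ x ∈ L, x ∈ convexHull ℝ f.1 ∧ ¬Serve L x (-f.2)

/-- all bodies of the class in the state are illuminated by `N` directions -/
def Good (N : ℕ) (C : Set (Set E)) (σ : St) : Prop := ∀ L ∈ C, σ.Holds L → Illum L N

variable {N : ℕ}

/-- stronger facts -/
lemma Good.mono {C : Set (Set E)} {σ τ : St} (h : Good N C σ) (hK : σ.K ⊆ τ.K) (hF : σ.F ⊆ τ.F)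
    (hU : σ.U ⊆ τ.U) : Good N C τ := fun L hL hs =>
  h L hL ⟨hK.trans hs.pts, fun n hn => hs.out n (hF hn), fun f hf => hs.unlit f (hU hf)⟩

/-- query -/
theorem rule_query {C : Set (Set E)} {K F : Set E} {U : Set (Set E × E)} (y : E)
    (h1 : Good N C ⟨insert y K, F, U⟩) (h2 : Good N C ⟨K, insert y F, U⟩) : Good N C ⟨K, F, U⟩ := by
  intro L hL hs
  by_cases hy : y ∈ L
  · exact h1 L hL ⟨insert_subset hy hs.pts, hs.out, hs.unlit⟩
  · refine h2 L hL ⟨hs.pts, ?_, hs.unlit⟩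
    intro n hn
    rcases hn with rfl | hn
    · exact hy
    · exact hs.out n hn

lemma serve_interior {L : Set E} {x : E} (hx : x ∈ interior L) (w : E) : Serve L x w := by
  have h1 : ∀ᶠ t in 𝓝 (0 : ℝ), x + t • w ∈ interior L := by
    have hc : ContinuousAt (fun t : ℝ => x + t • w) 0 := by fun_prop
    apply hc
    simpa using isOpen_interior.mem_nhds hx
  have h2 : ∀ᶠ t in 𝓝[>] (0 : ℝ), x + t • w ∈ interior L := h1.filter_mono nhdsWithin_le_nhds
  obtain ⟨t, h3, h4⟩ := (h2.and self_mem_nhdsWithin).exists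
  exact ⟨t, h4, h3⟩

/-- the point `x` is lit or belongs to one of the children `J` -/
def Phi {N : ℕ} (W : Fin N → E) (J : Set (E × Set E)) (L : Set E) (x : E) : Prop :=
  (x ∈ interior L ∨ ∃ i, Serve L x (-(W i))) ∨ ∃ k ∈ J, k.1 ∈ L ∧ x ∈ convexHull ℝ k.2

/-- the state of a child -/
def kidSt {N : ℕ} (σ : St) (W : Fin N → E) (k : E × Set E) : St :=
  ⟨insert k.1 σ.K, σ.F, σ.U ∪ {f | f = (k.2, 0) ∨ ∃ i, f = (k.2, W i)}⟩

/-- cover -/
theorem rule_cover (hN : 0 < N) {C : Set (Set E)} {σ : St} (W : Fin N → E) (J : Set (E × Set E))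
    (hc : ∀ L ∈ C, σ.Holds L → ∀ x ∈ L, Phi W J L x)
    (hJ : ∀ k ∈ J, Good N C (kidSt σ W k)) : Good N C σ := by
  intro L hL hs
  by_cases h : ∀ x ∈ L, ∃ i, Serve L x (-(W i))
  · refine ⟨fun i => -(W i), fun y hy => ?_⟩
    obtain ⟨i, t, ht, hi⟩ := h y hy
    exact ⟨i, t, ht, hi⟩
  · push Not at h
    obtain ⟨x, hx, hun⟩ := h
    rcases hc L hL hs x hx with (hi | ⟨i, hi⟩) | ⟨k, hk, hkL, hkx⟩
    · exact absurd (serve_interior hi _) (hun ⟨0, hN⟩)
    · exact absurd hi (hun i)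
    · refine hJ k hk L hL ⟨insert_subset hkL hs.pts, hs.out, ?_⟩
      rintro f (hf | rfl | ⟨i, rfl⟩)
      · exact hs.unlit f hf
      · refine ⟨x, hx, hkx, fun h0 => hun ⟨0, hN⟩ (serve_interior ?_ _)⟩
        obtain ⟨t, _, h1⟩ := h0
        simpa using h1
      · exact ⟨x, hx, hkx, hun i⟩

/-- the linear map `g` is a symmetry of the class -/
def IsSym (C : Set (Set E)) (g : E ≃L[ℝ] E) : Prop := ∀ L ∈ C, g '' L ∈ C

lemma serve_image {L : Set E} {x w : E} (g : E ≃L[ℝ] E) (h : Serve L x w) :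
    Serve (g '' L) (g x) (g w) := by
  obtain ⟨t, ht, hi⟩ := h
  refine ⟨t, ht, ?_⟩
  rw [← map_smul, ← map_add]
  exact g.toHomeomorph.isOpenMap.image_interior_subset L ⟨_, hi, rfl⟩

/-- query at a symmetric state -/
theorem rule_query_sym {C : Set (Set E)} {K F : Set E} (G : Set (E ≃L[ℝ] E))
    (hG : ∀ g ∈ G, IsSym C g.symm) (hK : ∀ g ∈ G, ∀ k ∈ K, g k ∈ K)
    (hF : ∀ g ∈ G, ∀ n ∈ F, g n ∈ F) (y : E) (O : Set E) (hO : ∀ z ∈ O, ∃ g ∈ G, z = g y)
    (h1 : Good N C ⟨insert y K, F, ∅⟩) (h2 : Good N C ⟨K, F ∪ O, ∅⟩) : Good N C ⟨K, F, ∅⟩ := by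
  intro L hL hs
  by_cases hy : ∃ g ∈ G, g y ∈ L
  · obtain ⟨g, hg, hgy⟩ := hy
    have h := h1 (g.symm '' L) (hG g hg L hL) ⟨?_, ?_, ?_⟩
    · exact h.of_image g.symm
    · rintro k (rfl | hk)
      · exact ⟨_, hgy, by simp⟩
      · exact ⟨_, hs.pts (hK g hg k hk), by simp⟩
    · rintro n hn ⟨m, hm, hmn⟩
      apply hs.out _ (hF g hg n hn)
      rw [← hmn]
      simpa using hm
    · intro f hf
      simp at hf
  · push Not at hy
    refine h2 L hL ⟨hs.pts, ?_, ?_⟩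
    · rintro n (hn | hn)
      · exact hs.out n hn
      · obtain ⟨g, hg, rfl⟩ := hO n hn
        exact hy g hg
    · intro f hf
      simp at hf

/-- cover of a fundamental domain `D` at a symmetric state -/
theorem rule_cover_sym (hN : 0 < N) {C : Set (Set E)} {K F : Set E} (G : Set (E ≃L[ℝ] E))
    (hG : ∀ g ∈ G, IsSym C g) (hK : ∀ g ∈ G, ∀ k ∈ K, g.symm k ∈ K)
    (hF : ∀ g ∈ G, ∀ n ∈ F, g.symm n ∈ F)
    (D : Set E) (hD : ∀ x, ∃ g ∈ G, g x ∈ D) (W : Fin N → E)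
    (hW : ∀ g ∈ G, ∀ i, ∃ j, g.symm (W i) = W j) (J : Set (E × Set E))
    (hc : ∀ L ∈ C, (⟨K, F, ∅⟩ : St).Holds L → ∀ x ∈ L, x ∈ D → Phi W J L x)
    (hJ : ∀ k ∈ J, Good N C (kidSt ⟨K, F, ∅⟩ W k)) : Good N C ⟨K, F, ∅⟩ := by
  intro L hL hs
  by_cases h : ∀ x ∈ L, ∃ i, Serve L x (-(W i))
  · refine ⟨fun i => -(W i), fun y hy => ?_⟩
    obtain ⟨i, t, ht, hi⟩ := h y hy
    exact ⟨i, t, ht, hi⟩
  · push Not at h
    obtain ⟨x, hx, hun⟩ := h
    obtain ⟨g, hg, hgx⟩ := hD x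
    have hL' : g '' L ∈ C := hG g hg L hL
    have hs' : (⟨K, F, ∅⟩ : St).Holds (g '' L) := by
      refine ⟨?_, ?_, ?_⟩
      · intro k hk
        exact ⟨g.symm k, hs.pts (hK g hg k hk), by simp⟩
      · rintro n hn ⟨m, hm, hmn⟩
        apply hs.out _ (hF g hg n hn)
        rw [← hmn]
        simpa using hm
      · intro f hf
        simp at hf
    have hun' : ∀ i, ¬Serve (g '' L) (g x) (-(W i)) := by
      intro i hi
      obtain ⟨j, hj⟩ := hW g hg i
      apply hun j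
      have h3 := serve_image g.symm hi
      have h4 : g.symm '' (g '' L) = L := by
        rw [← image_comp]
        simp
      rw [h4, map_neg, hj] at h3
      simpa using h3
    have hill : Illum (g '' L) N := by
      rcases hc _ hL' hs' _ ⟨x, hx, rfl⟩ hgx with (hi | ⟨i, hi⟩) | ⟨k, hk, hkL, hkx⟩
      · exact absurd (serve_interior hi _) (hun' ⟨0, hN⟩)
      · exact absurd hi (hun' i)
      · refine hJ k hk _ hL' ⟨insert_subset hkL hs'.pts, hs'.out, ?_⟩
        rintro f (hf | rfl | ⟨i, rfl⟩)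
        · simp at hf
        · refine ⟨_, ⟨x, hx, rfl⟩, hkx, fun h0 => hun' ⟨0, hN⟩ (serve_interior ?_ _)⟩
          obtain ⟨t, _, h1⟩ := h0
          simpa using h1
        · exact ⟨_, ⟨x, hx, rfl⟩, hkx, hun' i⟩
    exact hill.of_image g

end Pool.Agent.Lib.MP_5e7226_co.C8
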