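import Pool.Agent.Lib.MP_5e7226_co.C8.Grp
import Pool.Agent.Lib.MP_5e7226_co.C8.State
import Pool.Agent.Lib.MP_5e7226_co.C8.Final

/-!
# Eight directions: the chain of root queries

At the root the set of the known points is the simplex `K0`, and the set of the excluded points is
a union of orbits of the group of the simplex. `RootOk F ys`: the states
`(K0 + y_j, F + orbits of y_1, .., y_(j-1))` and `(K0, F + all orbits)` are good.
-/

set_option autoImplicit false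

open Set Filter Topology

namespace Pool.Agent.Lib.MP_5e7226_co.C8

open GB

/-- the point of a triple of integers -/
def ptZ (t : ℤ × ℤ × ℤ) : E := rl t.1 t.2.1 t.2.2

/-- the points of a list of triples -/
def ptsZ (F : List (ℤ × ℤ × ℤ)) : Set E := {x | ∃ t ∈ F, x = ptZ t}

/-- the orbit of a triple -/
def orbZ (t : ℤ × ℤ × ℤ) : List (ℤ × ℤ × ℤ) := orb24 t.1 t.2.1 t.2.2

/-- the vertices of the simplex -/
def simR (N : ℤ) : List (ℤ × ℤ × ℤ) := [(N, N, N), (N, -N, -N), (-N, N, -N), (-N, -N, N)]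

lemma ptsZ_cons (t : ℤ × ℤ × ℤ) (F : List (ℤ × ℤ × ℤ)) :
    ptsZ (t :: F) = insert (ptZ t) (ptsZ F) := by
  ext x
  simp only [ptsZ, List.mem_cons, mem_ofPred_eq, mem_insert_iff]
  constructor
  · rintro ⟨s, rfl | hs, rfl⟩
    · exact Or.inl rfl
    · exact Or.inr ⟨s, hs, rfl⟩
  · rintro (rfl | ⟨s, hs, rfl⟩)
    · exact ⟨t, Or.inl rfl, rfl⟩
    · exact ⟨s, Or.inr hs, rfl⟩

lemma ptsZ_nil : ptsZ [] = ∅ := by
  ext x
  simp [ptsZ]

lemma ptsZ_append (F H : List (ℤ × ℤ × ℤ)) : ptsZ (F ++ H) = ptsZ F ∪ ptsZ H := by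
  ext x
  simp only [ptsZ, List.mem_append, mem_ofPred_eq, mem_union]
  constructor
  · rintro ⟨s, hs | hs, rfl⟩
    · exact Or.inl ⟨s, hs, rfl⟩
    · exact Or.inr ⟨s, hs, rfl⟩
  · rintro (⟨s, hs, rfl⟩ | ⟨s, hs, rfl⟩)
    · exact ⟨s, Or.inl hs, rfl⟩
    · exact ⟨s, Or.inr hs, rfl⟩

/-- the product of two elements -/
def mulG (g h : G48) : G48 := (g.1.trans h.1, fun i => g.2 i * h.2 (g.1 i))

lemma act_mulG (g h : G48) (x : E) : act (mulG g h) x = act g (act h x) := by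
  funext i
  simp only [act, mulG, Equiv.trans_apply]
  push_cast
  ring

lemma ev_mulG {g h : G48} (hg : Ev g) (hh : Ev h) : Ev (mulG g h) := by
  show ∏ j, g.2 j * h.2 (g.1 j) = 1
  rw [Finset.prod_mul_distrib, Equiv.prod_comp g.1 h.2]
  have h1 : ∏ j, g.2 j = 1 := hg
  have h2 : ∏ j, h.2 j = 1 := hh
  rw [h1, h2, one_mul]

lemma G24.comp {S T : E ≃L[ℝ] E} (hS : S ∈ G24) (hT : T ∈ G24) :
    ∃ U ∈ G24, ∀ x, S (T x) = U x := by
  obtain ⟨g, hg, rfl⟩ := hS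
  obtain ⟨h, hh, rfl⟩ := hT
  refine ⟨actL (mulG g h), ⟨mulG g h, ev_mulG hg hh, rfl⟩, fun x => ?_⟩
  rw [actL_apply, actL_apply, actL_apply, act_mulG]

/-- invariance under the group of the simplex -/
def Inv24 (S : Set E) : Prop := ∀ g ∈ G24, ∀ x ∈ S, g x ∈ S

lemma inv24_nil : Inv24 (ptsZ []) := by
  intro g _ x hx
  rw [ptsZ_nil] at hx
  exact absurd hx (by simp)

lemma inv24_orb (t : ℤ × ℤ × ℤ) : Inv24 (ptsZ (orbZ t)) := by
  rintro g hg _ ⟨s, hs, rfl⟩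
  obtain ⟨T, hT, hTs⟩ := orb24_exists hs
  obtain ⟨U, hU, hUx⟩ := G24.comp hg hT
  obtain ⟨r, hr, hrx⟩ := orb24_mem hU t.1 t.2.1 t.2.2
  refine ⟨r, hr, ?_⟩
  show g (rl s.1 s.2.1 s.2.2) = _
  rw [hTs, hUx, hrx]
  rfl

lemma inv24_append {F H : List (ℤ × ℤ × ℤ)} (hF : Inv24 (ptsZ F)) (hH : Inv24 (ptsZ H)) :
    Inv24 (ptsZ (F ++ H)) := by
  intro g hg x hx
  rw [ptsZ_append] at hx ⊢
  rcases hx with hx | hx
  · exact Or.inl (hF g hg x hx)
  · exact Or.inr (hH g hg x hx)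

lemma simR_pts (N : ℕ) : ptsZ (simR N) = {x | ∃ j, x = (N : ℝ) • simV j} := by
  ext x
  simp only [ptsZ, simR, mem_ofPred_eq, List.mem_cons, List.not_mem_nil, or_false]
  have e0 : ptZ ((N : ℤ), (N : ℤ), (N : ℤ)) = (N : ℝ) • simV 0 := by
    funext i; fin_cases i <;> simp [ptZ, rl, simV]
  have e1 : ptZ ((N : ℤ), -(N : ℤ), -(N : ℤ)) = (N : ℝ) • simV 1 := by
    funext i; fin_cases i <;> simp [ptZ, rl, simV]
  have e2 : ptZ (-(N : ℤ), (N : ℤ), -(N : ℤ)) = (N : ℝ) • simV 2 := by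
    funext i; fin_cases i <;> simp [ptZ, rl, simV]
  have e3 : ptZ (-(N : ℤ), -(N : ℤ), (N : ℤ)) = (N : ℝ) • simV 3 := by
    funext i; fin_cases i <;> simp [ptZ, rl, simV]
  constructor
  · rintro ⟨t, rfl | rfl | rfl | rfl, rfl⟩
    · exact ⟨0, e0⟩
    · exact ⟨1, e1⟩
    · exact ⟨2, e2⟩
    · exact ⟨3, e3⟩
  · rintro ⟨j, rfl⟩
    fin_cases j
    · exact ⟨_, Or.inl rfl, e0.symm⟩
    · exact ⟨_, Or.inr (Or.inl rfl), e1.symm⟩
    · exact ⟨_, Or.inr (Or.inr (Or.inl rfl)), e2.symm⟩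
    · exact ⟨_, Or.inr (Or.inr (Or.inr rfl)), e3.symm⟩

lemma inv24_sim (N : ℕ) : Inv24 (ptsZ (simR N)) := by
  rintro T ⟨g, hg, rfl⟩ x hx
  rw [simR_pts] at hx ⊢
  obtain ⟨j, rfl⟩ := hx
  obtain ⟨k, hk⟩ := act_simV hg j
  refine ⟨k, ?_⟩
  rw [map_smul, actL_apply, hk]

/-- one query at the root -/
theorem root_step {n N : ℕ} {F : List (ℤ × ℤ × ℤ)} (hF : Inv24 (ptsZ F)) (y : ℤ × ℤ × ℤ)
    (h1 : Good n (simCls N) ⟨ptsZ (y :: simR N), ptsZ F, ∅⟩)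
    (h2 : Good n (simCls N) ⟨ptsZ (simR N), ptsZ (orbZ y ++ F), ∅⟩) :
    Good n (simCls N) ⟨ptsZ (simR N), ptsZ F, ∅⟩ := by
  refine rule_query_sym G24 (fun g hg => ?_) (inv24_sim N) hF (ptZ y) (ptsZ (orbZ y)) ?_ ?_ ?_
  · exact simCls_sym (G24.symm hg)
  · rintro _ ⟨t, ht, rfl⟩
    exact orb24_exists ht
  · rwa [ptsZ_cons] at h1
  · rwa [ptsZ_append, union_comm] at h2

/-- the states of the chain of root queries are good -/
def RootOk (n N : ℕ) : List (ℤ × ℤ × ℤ) → List (ℤ × ℤ × ℤ) → Prop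
  | F, [] => Good n (simCls N) ⟨ptsZ (simR N), ptsZ F, ∅⟩
  | F, y :: ys => Good n (simCls N) ⟨ptsZ (y :: simR N), ptsZ F, ∅⟩ ∧
    RootOk n N (orbZ y ++ F) ys

theorem RootOk.good {n N : ℕ} (ys : List (ℤ × ℤ × ℤ)) : ∀ F : List (ℤ × ℤ × ℤ), Inv24 (ptsZ F) →
    RootOk n N F ys → Good n (simCls N) ⟨ptsZ (simR N), ptsZ F, ∅⟩ := by
  induction ys with
  | nil => intro F _ h; exact h
  | cons y ys ih =>
    intro F hF h
    exact root_step hF y h.1 (ih _ (inv24_append (inv24_orb y) hF) h.2)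

/-- all bodies of the class are illuminated -/
theorem root_good {n N : ℕ} (h : Good n (simCls N) ⟨ptsZ (simR N), ptsZ [], ∅⟩) :
    ∀ L ∈ simCls N, Illum L n := by
  intro L hL
  refine h L hL ⟨?_, ?_, ?_⟩
  · intro x hx
    have hx' : x ∈ ptsZ (simR N) := hx
    rw [simR_pts] at hx'
    obtain ⟨j, rfl⟩ := hx'
    exact (simCls_facts hL).2.2.1 j
  · intro m hm
    have hm' : m ∈ ptsZ [] := hm
    rw [ptsZ_nil] at hm'
    exact absurd hm' (by simp)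
  · intro f hf
    simp at hf

/-- the final statement from the chain of root queries -/
theorem root_final {n N : ℕ} (hN : 0 < N) {ys : List (ℤ × ℤ × ℤ)} (h : RootOk n N [] ys) :
    ∀ L, SimMax L → Illum L n :=
  illum_of_simCls hN (root_good (h.good ys [] inv24_nil))

end Pool.Agent.Lib.MP_5e7226_co.C8
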