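import Pool.Agent.Lib.MP_5e7226_co.C8.Chk

/-!
# Eight directions: packed numbers
-/

set_option autoImplicit false

namespace Pool.Agent.Lib.MP_5e7226_co.C8

lemma nadd (a b : ℕ) : Nat.add a b = a + b := rfl
lemma nmul (a b : ℕ) : Nat.mul a b = a * b := rfl
lemma nsub (a b : ℕ) : Nat.sub a b = a - b := rfl
lemma nland (a b : ℕ) : Nat.land a b = a &&& b := rfl
lemma nlor (a b : ℕ) : Nat.lor a b = a ||| b := rfl
lemma nshr (a b : ℕ) : Nat.shiftRight a b = a / 2 ^ b := Nat.shiftRight_eq_div_pow a b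
lemma nshl (a b : ℕ) : Nat.shiftLeft a b = a * 2 ^ b := Nat.shiftLeft_eq a b
lemma nsucc (a : ℕ) : Nat.succ a = a + 1 := rfl

lemma len_eq {α : Type} (l : List α) : len l = l.length := by
  induction l with
  | nil => rfl
  | cons a l ih => rw [len, ih]; rfl

lemma app_eq {α : Type} (l m : List α) : app l m = l ++ m := by
  induction l with
  | nil => rfl
  | cons a l ih => rw [app, ih]; rfl

/-- packed value of an integer function -/
def PK (v : FD → ℤ) : List FD → ℤ
  | [] => 0
  | h :: t => v h + 2 ^ 96 * PK v t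

lemma PK_add (v w : FD → ℤ) (l : List FD) : PK (fun h => v h + w h) l = PK v l + PK w l := by
  induction l with
  | nil => simp [PK]
  | cons a l ih => simp only [PK, ih]; ring

lemma PK_smul (c : ℤ) (v : FD → ℤ) (l : List FD) : PK (fun h => c * v h) l = c * PK v l := by
  induction l with
  | nil => simp [PK]
  | cons a l ih => simp only [PK, ih]; ring

lemma PK_append (v : FD → ℤ) (l m : List FD) :
    PK v (l ++ m) = PK v l + 2 ^ (96 * l.length) * PK v m := by
  induction l with
  | nil => simp [PK]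
  | cons a l ih =>
    simp only [List.cons_append, PK, ih, List.length_cons]
    rw [show 96 * (l.length + 1) = 96 + 96 * l.length by ring, pow_add]
    ring

lemma pk_nil (f : FD → ℕ) : pk f [] = 0 := rfl

lemma pk_cons (f : FD → ℕ) (h : FD) (t : List FD) : pk f (h :: t) = pk f t * 2 ^ 96 + f h := by
  have : pk f (h :: t) = Nat.add (Nat.shiftLeft (pk f t) (nat_lit 96)) (f h) := rfl
  rw [this, nadd, nshl]

lemma pk_cast (f : FD → ℕ) (l : List FD) : ((pk f l : ℕ) : ℤ) = PK (fun h => (f h : ℤ)) l := by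
  induction l with
  | nil => simp [pk_nil, PK]
  | cons a l ih =>
    rw [pk_cons, PK, ← ih]
    push_cast
    ring

lemma pk_lt (f : FD → ℕ) (l : List FD) (h : ∀ a ∈ l, f a < 2 ^ 96) :
    pk f l < 2 ^ (96 * l.length) := by
  induction l with
  | nil => simp [pk_nil]
  | cons a l ih =>
    rw [pk_cons, List.length_cons, show 96 * (l.length + 1) = 96 * l.length + 96 by ring,
      pow_add]
    have h1 := h a (by simp)
    have h2 := ih (fun b hb => h b (by simp [hb]))
    have h3 : pk f l + 1 ≤ 2 ^ (96 * l.length) := h2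
    have h4 : (pk f l + 1) * 2 ^ 96 ≤ 2 ^ (96 * l.length) * 2 ^ 96 := Nat.mul_le_mul_right _ h3
    omega

/-- `X` represents the values `v` -/
def Rp (hs : List FD) (X : ℕ) (v : FD → ℤ) : Prop :=
  (X : ℤ) ≡ PK v hs [ZMOD 2 ^ (96 * hs.length)]

lemma Rp.add {hs : List FD} {X Y : ℕ} {v w : FD → ℤ} (h : Rp hs X v) (h' : Rp hs Y w) :
    Rp hs (X + Y) (fun f => v f + w f) := by
  unfold Rp at *
  rw [PK_add]
  push_cast
  exact h.add h'

lemma Rp.mul {hs : List FD} {X : ℕ} {v : FD → ℤ} (c : ℕ) (h : Rp hs X v) :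
    Rp hs (c * X) (fun f => (c : ℤ) * v f) := by
  unfold Rp at *
  rw [PK_smul]
  push_cast
  exact h.mul_left _

lemma Rp.congr {hs : List FD} {X : ℕ} {v w : FD → ℤ} (h : Rp hs X v) (e : ∀ f ∈ hs, v f = w f) :
    Rp hs X w := by
  have : PK v hs = PK w hs := by
    clear h
    induction hs with
    | nil => rfl
    | cons a l ih =>
      rw [PK, PK, e a (by simp), ih (fun f hf => e f (by simp [hf]))]
  unfold Rp at *
  rwa [← this]

lemma Rp.of_pk {hs : List FD} (f : FD → ℕ) : Rp hs (pk f hs) (fun h => (f h : ℤ)) := by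
  unfold Rp
  rw [pk_cast]

lemma Rp.mod {hs : List FD} {X : ℕ} {v : FD → ℤ} (h : Rp hs X v) :
    Rp hs (X % 2 ^ (96 * hs.length)) v := by
  unfold Rp at *
  push_cast
  exact (Int.mod_modEq _ _).trans h

/-- subtraction of a packed number from the modulus -/
lemma Rp.neg {hs : List FD} {X Y : ℕ} {v : FD → ℤ} (h : Rp hs X v) (hY : Y = 2 ^ (96 * hs.length))
    (hle : X ≤ Y) : Rp hs (Y - X) (fun f => -v f) := by
  unfold Rp at *
  have e : PK (fun f => -v f) hs = - PK v hs := by
    have := PK_smul (-1) v hs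
    simpa using this
  rw [e, hY, Nat.cast_sub (by rw [← hY]; exact hle)]
  push_cast
  have h1 : ((2 : ℤ) ^ (96 * hs.length)) ≡ 0 [ZMOD 2 ^ (96 * hs.length)] := by
    rw [Int.modEq_zero_iff_dvd]
  have h2 := h1.sub h
  simpa using h2

/-- restriction to a prefix -/
lemma Rp.pre {l m : List FD} {X : ℕ} {v : FD → ℤ} (h : Rp (l ++ m) X v) : Rp l X v := by
  unfold Rp at *
  rw [PK_append] at h
  have h1 : (X : ℤ) ≡ PK v l + 2 ^ (96 * l.length) * PK v m [ZMOD 2 ^ (96 * l.length)] := by
    apply h.of_dvd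
    rw [List.length_append, mul_add, pow_add]
    exact dvd_mul_right _ _
  refine h1.trans ?_
  have h2 : (2 : ℤ) ^ (96 * l.length) * PK v m ≡ 0 [ZMOD 2 ^ (96 * l.length)] := by
    rw [Int.modEq_zero_iff_dvd]
    exact dvd_mul_right _ _
  simpa using (Int.ModEq.refl (PK v l)).add h2

lemma bit95 {a : ℕ} (h : a < 2 ^ 96) : a.testBit 95 = decide (2 ^ 95 ≤ a) := by
  rw [Nat.testBit_eq_decide_div_mod_eq]
  congr 1
  rw [eq_iff_iff]
  omega

/-- the sign bits -/
lemma bit_of_rp : ∀ (hs : List FD) (X : ℕ) (v : FD → ℤ), Rp hs X (fun h => 2 ^ 95 + v h) →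
    (∀ f ∈ hs, -2 ^ 95 ≤ v f ∧ v f < 2 ^ 95) → ∀ (g : ℕ) (hg : g < hs.length),
    X.testBit (96 * g + 95) = decide (0 ≤ v hs[g]) := by
  intro hs
  induction hs with
  | nil => intro X v _ _ g hg; simp at hg
  | cons a l ih =>
    intro X v hX hb g hg
    obtain ⟨ha1, ha2⟩ := hb a (by simp)
    -- the lowest field
    have hpos : (0 : ℤ) ≤ 2 ^ 95 + v a := by linarith
    obtain ⟨n, hn⟩ : ∃ n : ℕ, (n : ℤ) = 2 ^ 95 + v a := ⟨(2 ^ 95 + v a).toNat, by
      rw [Int.toNat_of_nonneg hpos]⟩
    have hn96 : n < 2 ^ 96 := by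
      have : (n : ℤ) < 2 ^ 96 := by rw [hn]; norm_num at ha2 ⊢; linarith
      exact_mod_cast this
    have hX' : (X : ℤ) ≡ (n : ℤ) + 2 ^ 96 * PK (fun h => 2 ^ 95 + v h) l
        [ZMOD 2 ^ 96 * 2 ^ (96 * l.length)] := by
      have := hX
      unfold Rp at this
      rw [PK, List.length_cons, show 96 * (l.length + 1) = 96 + 96 * l.length by ring,
        pow_add, ← hn] at this
      exact this
    have hmod : X % 2 ^ 96 = n := by
      have h1 : (X : ℤ) ≡ (n : ℤ) + 2 ^ 96 * PK (fun h => 2 ^ 95 + v h) l [ZMOD 2 ^ 96] :=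
        hX'.of_dvd (dvd_mul_right _ _)
      have h2 : (2 : ℤ) ^ 96 * PK (fun h => 2 ^ 95 + v h) l ≡ 0 [ZMOD 2 ^ 96] := by
        rw [Int.modEq_zero_iff_dvd]; exact dvd_mul_right _ _
      have h3 : (X : ℤ) ≡ (n : ℤ) [ZMOD 2 ^ 96] := by
        simpa using h1.trans ((Int.ModEq.refl (n : ℤ)).add h2)
      have h4 : X ≡ n [MOD 2 ^ 96] := by
        have : (X : ℤ) ≡ (n : ℤ) [ZMOD ((2 ^ 96 : ℕ) : ℤ)] := by
          push_cast; exact h3
        exact (Int.natCast_modEq_iff).1 this
      rw [h4, Nat.mod_eq_of_lt hn96]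
    have hdiv : Rp l (X / 2 ^ 96) (fun h => 2 ^ 95 + v h) := by
      unfold Rp
      have h5 : (X : ℤ) = n + 2 ^ 96 * ((X / 2 ^ 96 : ℕ) : ℤ) := by
        have := Nat.mod_add_div X (2 ^ 96)
        rw [hmod] at this
        exact_mod_cast this.symm
      rw [h5] at hX'
      have h6 : (2 : ℤ) ^ 96 * ((X / 2 ^ 96 : ℕ) : ℤ) ≡ 2 ^ 96 * PK (fun h => 2 ^ 95 + v h) l
          [ZMOD 2 ^ 96 * 2 ^ (96 * l.length)] := Int.ModEq.add_left_cancel' _ hX'
      exact Int.ModEq.mul_left_cancel' (by norm_num) h6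
    cases g with
    | zero =>
      have h7 : X.testBit (96 * 0 + 95) = (X % 2 ^ 96).testBit 95 := by
        rw [Nat.testBit_mod_two_pow]; simp
      rw [h7, hmod, bit95 hn96]
      simp only [List.getElem_cons_zero]
      congr 1
      rw [eq_iff_iff]
      constructor
      · intro h
        have : (2 : ℤ) ^ 95 ≤ n := by exact_mod_cast h
        linarith
      · intro h
        have : (2 : ℤ) ^ 95 ≤ n := by linarith
        exact_mod_cast this
    | succ g =>
      have h8 : X.testBit (96 * (g + 1) + 95) = (X / 2 ^ 96).testBit (96 * g + 95) := by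
        rw [Nat.testBit_div_two_pow]
        congr 1
      rw [h8, ih _ v hdiv (fun f hf => hb f (by simp [hf])) g (by simpa using hg)]
      rfl

lemma mask_bit (fs : List FD) (g : ℕ) (hg : g < fs.length) :
    (pk (fun _ => 39614081257132168796771975168) fs).testBit (96 * g + 95) = true := by
  have h := bit_of_rp fs (pk (fun _ => 39614081257132168796771975168) fs) (fun _ => 0) ?_
    (by intro f _; norm_num) g hg
  · rw [h]; simp
  have := Rp.of_pk (hs := fs) (fun _ => 39614081257132168796771975168)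
  exact this.congr (fun f _ => by norm_num)

/-- all sign bits are set -/
lemma sign_set {fs : List FD} {X : ℕ} {v : FD → ℤ} (hX : Rp fs X (fun h => 2 ^ 95 + v h))
    (hb : ∀ f ∈ fs, -2 ^ 95 ≤ v f ∧ v f < 2 ^ 95)
    (hm : ∀ g, g < fs.length → X.testBit (96 * g + 95) = true) : ∀ f ∈ fs, 0 ≤ v f := by
  intro f hf
  obtain ⟨g, hg, rfl⟩ := List.getElem_of_mem hf
  have h1 := bit_of_rp fs X v hX hb g hg
  rw [hm g hg] at h1
  simpa using h1.symm

/-- all sign bits are clear -/
lemma sign_clear {fs : List FD} {X : ℕ} {v : FD → ℤ} (hX : Rp fs X (fun h => 2 ^ 95 + v h))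
    (hb : ∀ f ∈ fs, -2 ^ 95 ≤ v f ∧ v f < 2 ^ 95)
    (hm : ∀ g, g < fs.length → X.testBit (96 * g + 95) = false) : ∀ f ∈ fs, v f < 0 := by
  intro f hf
  obtain ⟨g, hg, rfl⟩ := List.getElem_of_mem hf
  have h1 := bit_of_rp fs X v hX hb g hg
  rw [hm g hg] at h1
  have h2 := h1.symm
  rw [decide_eq_false_iff_not] at h2
  omega

lemma land_mask {X Y : ℕ} {i : ℕ} (h : X &&& Y = Y) (hi : Y.testBit i = true) :
    X.testBit i = true := by
  have := congrArg (fun n => n.testBit i) h
  simp only [Nat.testBit_and, hi, Bool.and_true] at this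
  exact this

lemma land_zero {X Y : ℕ} {i : ℕ} (h : X &&& Y = 0) (hi : Y.testBit i = true) :
    X.testBit i = false := by
  have := congrArg (fun n => n.testBit i) h
  simpa [Nat.testBit_and, hi] using this

/-! ### tables -/

lemma land_full (a w : ℕ) : Nat.land a (2 ^ w - 1) = a % 2 ^ w := by
  rw [nland]; exact Nat.and_two_pow_sub_one_eq_mod a w

lemma ent_tabm (g : ℕ → ℕ) (w : ℕ) (l : List ℕ) (i : ℕ) :
    ent (tabm g w (2 ^ w - 1) l) w (2 ^ w - 1) i =
      if h : i < l.length then g l[i] % 2 ^ w else 0 := by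
  induction l generalizing i with
  | nil =>
    simp only [ent, tabm, land_full, nshr, nmul]
    simp
  | cons a l ih =>
    have h1 : tabm g w (2 ^ w - 1) (a :: l) = g a % 2 ^ w + tabm g w (2 ^ w - 1) l * 2 ^ w := by
      have : tabm g w (2 ^ w - 1) (a :: l) = Nat.add (Nat.shiftLeft (tabm g w (2 ^ w - 1) l) w)
        (Nat.land (g a) (2 ^ w - 1)) := rfl
      rw [this, land_full, nadd, nshl, add_comm]
    cases i with
    | zero =>
      simp only [ent, land_full, nshr, nmul, h1]
      simp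
    | succ i =>
      have h2 := ih i
      simp only [ent, land_full, nshr, nmul] at h2 ⊢
      rw [h1]
      have h3 : (g a % 2 ^ w + tabm g w (2 ^ w - 1) l * 2 ^ w) / 2 ^ ((i + 1) * w)
          = tabm g w (2 ^ w - 1) l / 2 ^ (i * w) := by
        rw [show (i + 1) * w = w + i * w by ring, pow_add, ← Nat.div_div_eq_div_mul,
          Nat.add_mul_div_right _ _ (by positivity), Nat.div_eq_of_lt (Nat.mod_lt _ (by positivity)),
          zero_add]
      rw [h3, h2]
      simp

lemma ent_tabK (g : ℕ → ℕ) (w : ℕ) (l : List Kd) (i : ℕ) :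
    ent (tabK g w (2 ^ w - 1) l) w (2 ^ w - 1) i =
      if h : i < l.length then g (l[i]).y % 2 ^ w else 0 := by
  induction l generalizing i with
  | nil =>
    simp only [ent, tabK, land_full, nshr, nmul]
    simp
  | cons a l ih =>
    have h1 : tabK g w (2 ^ w - 1) (a :: l) = g a.y % 2 ^ w + tabK g w (2 ^ w - 1) l * 2 ^ w := by
      have : tabK g w (2 ^ w - 1) (a :: l) = Nat.add (Nat.shiftLeft (tabK g w (2 ^ w - 1) l) w)
        (Nat.land (g a.y) (2 ^ w - 1)) := rfl
      rw [this, land_full, nadd, nshl, add_comm]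
    cases i with
    | zero =>
      simp only [ent, land_full, nshr, nmul, h1]
      simp
    | succ i =>
      have h2 := ih i
      simp only [ent, land_full, nshr, nmul] at h2 ⊢
      rw [h1]
      have h3 : (g a.y % 2 ^ w + tabK g w (2 ^ w - 1) l * 2 ^ w) / 2 ^ ((i + 1) * w)
          = tabK g w (2 ^ w - 1) l / 2 ^ (i * w) := by
        rw [show (i + 1) * w = w + i * w by ring, pow_add, ← Nat.div_div_eq_div_mul,
          Nat.add_mul_div_right _ _ (by positivity), Nat.div_eq_of_lt (Nat.mod_lt _ (by positivity)),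
          zero_add]
      rw [h3, h2]
      simp

end Pool.Agent.Lib.MP_5e7226_co.C8
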