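import Mathlib

/-!
# MP_5e7226, TREE8, L2: the hull lemma

A finite family of triples `P i`, `Q i`, `R i` (the facets of a polytope around the origin) with functionals
`z ↦ n i ⬝ᵥ z` equal to `c i > 0` on the triple. If every edge of every facet has a neighbour (a facet `j` which
contains the edge and has the third vertex strictly inside) then every `z` with `n i ⬝ᵥ z ≤ c i` for all `i`
is a combination with nonnegative coefficients of sum at most one of one of the triples.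
-/

set_option autoImplicit false

open Set

namespace Pool.Agent.Lib.MP_5e7226_co.C8

/-- Facets with neighbours. -/
structure FacetNet {ι : Type} (n : ι → Fin 3 → ℝ) (c : ι → ℝ) (P Q R : ι → Fin 3 → ℝ) : Prop where
  pos : ∀ i, 0 < c i
  hP : ∀ i, n i ⬝ᵥ P i = c i
  hQ : ∀ i, n i ⬝ᵥ Q i = c i
  hR : ∀ i, n i ⬝ᵥ R i = c i
  nR : ∀ i, ∃ j, n j ⬝ᵥ P i = c j ∧ n j ⬝ᵥ Q i = c j ∧ n j ⬝ᵥ R i < c j
  nP : ∀ i, ∃ j, n j ⬝ᵥ Q i = c j ∧ n j ⬝ᵥ R i = c j ∧ n j ⬝ᵥ P i < c j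
  nQ : ∀ i, ∃ j, n j ⬝ᵥ R i = c j ∧ n j ⬝ᵥ P i = c j ∧ n j ⬝ᵥ Q i < c j

/-- The functional `n j / c j - n i / c i`. -/
private noncomputable def Hull_phi {ι : Type} (n : ι → Fin 3 → ℝ) (c : ι → ℝ) (i j : ι) (z : Fin 3 → ℝ) : ℝ :=
  n j ⬝ᵥ z / c j - n i ⬝ᵥ z / c i

private theorem Hull_phi_add {ι : Type} (n : ι → Fin 3 → ℝ) (c : ι → ℝ) (i j : ι) (α β γ : ℝ) (x y z : Fin 3 → ℝ) :
    Hull_phi n c i j (α • x + β • y + γ • z) =
      α * Hull_phi n c i j x + β * Hull_phi n c i j y + γ * Hull_phi n c i j z := by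
  unfold Hull_phi
  simp only [dotProduct_add, dotProduct_smul, smul_eq_mul]
  ring

theorem FacetNet.exists_combo {ι : Type} [Finite ι] [Nonempty ι] {n : ι → Fin 3 → ℝ} {c : ι → ℝ} {P Q R : ι → Fin 3 → ℝ}
    (h : FacetNet n c P Q R) (z : Fin 3 → ℝ) :
    ∃ i, ∃ α β γ : ℝ, 0 ≤ α ∧ 0 ≤ β ∧ 0 ≤ γ ∧ z = α • P i + β • Q i + γ • R i ∧ n i ⬝ᵥ z = c i * (α + β + γ) := by
  obtain ⟨i, hi⟩ := Finite.exists_max (fun i => n i ⬝ᵥ z / c i)
  obtain ⟨jR, a1, a2, a3⟩ := h.nR i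
  obtain ⟨jP, b1, b2, b3⟩ := h.nP i
  obtain ⟨jQ, d1, d2, d3⟩ := h.nQ i
  have hc := h.pos
  have hPi : n i ⬝ᵥ P i / c i = 1 := by rw [h.hP, div_self (hc i).ne']
  have hQi : n i ⬝ᵥ Q i / c i = 1 := by rw [h.hQ, div_self (hc i).ne']
  have hRi : n i ⬝ᵥ R i / c i = 1 := by rw [h.hR, div_self (hc i).ne']
  have RP : Hull_phi n c i jR (P i) = 0 := by
    unfold Hull_phi; rw [hPi, a1, div_self (hc jR).ne', sub_self]
  have RQ : Hull_phi n c i jR (Q i) = 0 := by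
    unfold Hull_phi; rw [hQi, a2, div_self (hc jR).ne', sub_self]
  have RR : Hull_phi n c i jR (R i) < 0 := by
    unfold Hull_phi; rw [hRi]
    have := (div_lt_one (hc jR)).mpr a3
    linarith
  have PQ : Hull_phi n c i jP (Q i) = 0 := by
    unfold Hull_phi; rw [hQi, b1, div_self (hc jP).ne', sub_self]
  have PR : Hull_phi n c i jP (R i) = 0 := by
    unfold Hull_phi; rw [hRi, b2, div_self (hc jP).ne', sub_self]
  have PP : Hull_phi n c i jP (P i) < 0 := by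
    unfold Hull_phi; rw [hPi]
    have := (div_lt_one (hc jP)).mpr b3
    linarith
  have QR : Hull_phi n c i jQ (R i) = 0 := by
    unfold Hull_phi; rw [hRi, d1, div_self (hc jQ).ne', sub_self]
  have QP : Hull_phi n c i jQ (P i) = 0 := by
    unfold Hull_phi; rw [hPi, d2, div_self (hc jQ).ne', sub_self]
  have QQ : Hull_phi n c i jQ (Q i) < 0 := by
    unfold Hull_phi; rw [hQi]
    have := (div_lt_one (hc jQ)).mpr d3
    linarith
  have hle : ∀ j, Hull_phi n c i j z ≤ 0 := by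
    intro j
    unfold Hull_phi
    have := hi j
    linarith
  -- independence
  have hind : LinearIndependent ℝ ![P i, Q i, R i] := by
    rw [Fintype.linearIndependent_iff]
    intro g hg
    have hg' : g 0 • P i + g 1 • Q i + g 2 • R i = 0 := by
      simpa [Fin.sum_univ_three] using hg
    have z0 : ∀ j, Hull_phi n c i j 0 = 0 := by
      intro j; unfold Hull_phi; simp
    have e1 := Hull_phi_add n c i jP (g 0) (g 1) (g 2) (P i) (Q i) (R i)
    have e2 := Hull_phi_add n c i jQ (g 0) (g 1) (g 2) (P i) (Q i) (R i)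
    have e3 := Hull_phi_add n c i jR (g 0) (g 1) (g 2) (P i) (Q i) (R i)
    rw [hg', z0, PQ, PR] at e1
    rw [hg', z0, QP, QR] at e2
    rw [hg', z0, RP, RQ] at e3
    have f0 : g 0 = 0 := by
      have : g 0 * Hull_phi n c i jP (P i) = 0 := by linarith
      exact (mul_eq_zero.mp this).resolve_right PP.ne
    have f1 : g 1 = 0 := by
      have : g 1 * Hull_phi n c i jQ (Q i) = 0 := by linarith
      exact (mul_eq_zero.mp this).resolve_right QQ.ne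
    have f2 : g 2 = 0 := by
      have : g 2 * Hull_phi n c i jR (R i) = 0 := by linarith
      exact (mul_eq_zero.mp this).resolve_right RR.ne
    intro k
    fin_cases k
    · exact f0
    · exact f1
    · exact f2
  let b := basisOfLinearIndependentOfCardEqFinrank hind (by simp)
  have hb : ∀ k, b k = ![P i, Q i, R i] k := fun k => by
    simp [b]
  have hz : z = b.repr z 0 • P i + b.repr z 1 • Q i + b.repr z 2 • R i := by
    have := b.sum_repr z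
    rw [Fin.sum_univ_three, hb, hb, hb] at this
    exact this.symm
  obtain ⟨α, β, γ, hz'⟩ : ∃ α β γ : ℝ, z = α • P i + β • Q i + γ • R i := ⟨_, _, _, hz⟩
  have g1 := hle jP
  have g2 := hle jQ
  have g3 := hle jR
  rw [hz', Hull_phi_add, PQ, PR] at g1
  rw [hz', Hull_phi_add, QP, QR] at g2
  rw [hz', Hull_phi_add, RP, RQ] at g3
  refine ⟨i, α, β, γ, ?_, ?_, ?_, hz', ?_⟩
  · by_contra hneg
    have : 0 < α * Hull_phi n c i jP (P i) := mul_pos_of_neg_of_neg (not_le.mp hneg) PP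
    linarith
  · by_contra hneg
    have : 0 < β * Hull_phi n c i jQ (Q i) := mul_pos_of_neg_of_neg (not_le.mp hneg) QQ
    linarith
  · by_contra hneg
    have : 0 < γ * Hull_phi n c i jR (R i) := mul_pos_of_neg_of_neg (not_le.mp hneg) RR
    linarith
  · rw [hz']
    simp only [dotProduct_add, dotProduct_smul, smul_eq_mul, h.hP, h.hQ, h.hR]
    ring

/-- LEMMA H: the solutions of the facet inequalities lie in the hull of the origin and the vertices. -/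
theorem FacetNet.subset {ι : Type} [Finite ι] [Nonempty ι] {n : ι → Fin 3 → ℝ} {c : ι → ℝ} {P Q R : ι → Fin 3 → ℝ}
    (h : FacetNet n c P Q R) {K : Set (Fin 3 → ℝ)} (hK : Convex ℝ K) (h0 : (0 : Fin 3 → ℝ) ∈ K)
    (hP : ∀ i, P i ∈ K) (hQ : ∀ i, Q i ∈ K) (hR : ∀ i, R i ∈ K) :
    {z | ∀ i, n i ⬝ᵥ z ≤ c i} ⊆ K := by
  intro z hz
  obtain ⟨i, α, β, γ, h1, h2, h3, h4, h5⟩ := h.exists_combo z
  have hs : α + β + γ ≤ 1 := by
    have h6 : n i ⬝ᵥ z ≤ c i := hz i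
    rw [h5] at h6
    have h7 := h.pos i
    by_contra hc
    have : c i * 1 < c i * (α + β + γ) := mul_lt_mul_of_pos_left (not_le.mp hc) h7
    linarith
  have key : (1 - (α + β + γ)) • (0 : Fin 3 → ℝ) + α • P i + β • Q i + γ • R i ∈ K := by
    have hsum := hK.sum_mem (t := Finset.univ) (w := ![1 - (α + β + γ), α, β, γ])
      (z := ![(0 : Fin 3 → ℝ), P i, Q i, R i])
      (by
        intro k _
        fin_cases k
        · simpa using hs
        · exact h1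
        · exact h2
        · exact h3)
      (by simp [Fin.sum_univ_four]; ring)
      (by
        intro k _
        fin_cases k
        · exact h0
        · exact hP i
        · exact hQ i
        · exact hR i)
    simpa [Fin.sum_univ_four] using hsum
  rw [h4]
  simpa using key

theorem FacetNet.strict_subset_interior {ι : Type} [Finite ι] [Nonempty ι] {n : ι → Fin 3 → ℝ} {c : ι → ℝ}
    {P Q R : ι → Fin 3 → ℝ} (h : FacetNet n c P Q R) {K : Set (Fin 3 → ℝ)} (hK : Convex ℝ K)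
    (h0 : (0 : Fin 3 → ℝ) ∈ K) (hP : ∀ i, P i ∈ K) (hQ : ∀ i, Q i ∈ K) (hR : ∀ i, R i ∈ K) :
    {z | ∀ i, n i ⬝ᵥ z < c i} ⊆ interior K := by
  have ho : IsOpen {z : Fin 3 → ℝ | ∀ i, n i ⬝ᵥ z < c i} := by
    have : {z : Fin 3 → ℝ | ∀ i, n i ⬝ᵥ z < c i} = ⋂ i, {z : Fin 3 → ℝ | n i ⬝ᵥ z < c i} := by
      ext z; simp
    rw [this]
    refine isOpen_iInter_of_finite fun i => ?_
    refine isOpen_lt ?_ continuous_const
    unfold dotProduct
    fun_prop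
  exact interior_maximal (fun z hz => h.subset hK h0 hP hQ hR (fun i => (hz i).le)) ho

/-- A facet: functional, value, three vertices. -/
structure Fct where
  /-- the normal -/
  n : Fin 3 → ℝ
  /-- the value on the facet -/
  c : ℝ
  /-- first vertex -/
  p : Fin 3 → ℝ
  /-- second vertex -/
  q : Fin 3 → ℝ
  /-- third vertex -/
  r : Fin 3 → ℝ

/-- Facet lists with neighbours. -/
structure FctOk (fs : List Fct) : Prop where
  ne : fs ≠ []
  pos : ∀ f ∈ fs, 0 < f.c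
  hp : ∀ f ∈ fs, f.n ⬝ᵥ f.p = f.c
  hq : ∀ f ∈ fs, f.n ⬝ᵥ f.q = f.c
  hr : ∀ f ∈ fs, f.n ⬝ᵥ f.r = f.c
  nr : ∀ f ∈ fs, ∃ g ∈ fs, g.n ⬝ᵥ f.p = g.c ∧ g.n ⬝ᵥ f.q = g.c ∧ g.n ⬝ᵥ f.r < g.c
  np : ∀ f ∈ fs, ∃ g ∈ fs, g.n ⬝ᵥ f.q = g.c ∧ g.n ⬝ᵥ f.r = g.c ∧ g.n ⬝ᵥ f.p < g.c
  nq : ∀ f ∈ fs, ∃ g ∈ fs, g.n ⬝ᵥ f.r = g.c ∧ g.n ⬝ᵥ f.p = g.c ∧ g.n ⬝ᵥ f.q < g.c

theorem FctOk.net {fs : List Fct} (h : FctOk fs) :
    FacetNet (ι := {f : Fct // f ∈ fs}) (fun f => f.1.n) (fun f => f.1.c) (fun f => f.1.p) (fun f => f.1.q)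
      (fun f => f.1.r) where
  pos := fun f => h.pos f.1 f.2
  hP := fun f => h.hp f.1 f.2
  hQ := fun f => h.hq f.1 f.2
  hR := fun f => h.hr f.1 f.2
  nR := fun f => by
    obtain ⟨g, hg, hg'⟩ := h.nr f.1 f.2
    exact ⟨⟨g, hg⟩, hg'⟩
  nP := fun f => by
    obtain ⟨g, hg, hg'⟩ := h.np f.1 f.2
    exact ⟨⟨g, hg⟩, hg'⟩
  nQ := fun f => by
    obtain ⟨g, hg, hg'⟩ := h.nq f.1 f.2
    exact ⟨⟨g, hg⟩, hg'⟩

private theorem Hull_inst {fs : List Fct} (h : FctOk fs) :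
    Finite {f : Fct // f ∈ fs} ∧ Nonempty {f : Fct // f ∈ fs} := by
  refine ⟨(List.finite_toSet fs).to_subtype, ?_⟩
  obtain ⟨f, hf⟩ := List.exists_mem_of_ne_nil fs h.ne
  exact ⟨⟨f, hf⟩⟩

/-- LEMMA H for lists. -/
theorem FctOk.mem {fs : List Fct} (h : FctOk fs) {K : Set (Fin 3 → ℝ)} (hK : Convex ℝ K)
    (h0 : (0 : Fin 3 → ℝ) ∈ K) (hv : ∀ f ∈ fs, f.p ∈ K ∧ f.q ∈ K ∧ f.r ∈ K) {z : Fin 3 → ℝ}
    (hz : ∀ f ∈ fs, f.n ⬝ᵥ z ≤ f.c) : z ∈ K := by
  obtain ⟨i1, i2⟩ := Hull_inst h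
  exact h.net.subset hK h0 (fun f => (hv f.1 f.2).1) (fun f => (hv f.1 f.2).2.1) (fun f => (hv f.1 f.2).2.2)
    (fun f => hz f.1 f.2)

/-- LEMMA H for lists, strict inequalities. -/
theorem FctOk.mem_interior {fs : List Fct} (h : FctOk fs) {K : Set (Fin 3 → ℝ)} (hK : Convex ℝ K)
    (h0 : (0 : Fin 3 → ℝ) ∈ K) (hv : ∀ f ∈ fs, f.p ∈ K ∧ f.q ∈ K ∧ f.r ∈ K) {z : Fin 3 → ℝ}
    (hz : ∀ f ∈ fs, f.n ⬝ᵥ z < f.c) : z ∈ interior K := by
  obtain ⟨i1, i2⟩ := Hull_inst h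
  exact h.net.strict_subset_interior hK h0 (fun f => (hv f.1 f.2).1) (fun f => (hv f.1 f.2).2.1)
    (fun f => (hv f.1 f.2).2.2) (fun f => hz f.1 f.2)

/-- The origin itself: if all facet values are positive it is in the interior. -/
theorem FctOk.zero_interior {fs : List Fct} (h : FctOk fs) {K : Set (Fin 3 → ℝ)} (hK : Convex ℝ K)
    (h0 : (0 : Fin 3 → ℝ) ∈ K) (hv : ∀ f ∈ fs, f.p ∈ K ∧ f.q ∈ K ∧ f.r ∈ K) : (0 : Fin 3 → ℝ) ∈ interior K :=
  h.mem_interior hK h0 hv (fun f hf => by rw [dotProduct_zero]; exact h.pos f hf)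

end Pool.Agent.Lib.MP_5e7226_co.C8
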