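import Pool.Agent.Lib.MP_5e7226_co.C8.DQ0
import Pool.Agent.Lib.MP_5e7226_co.C8.State
import Pool.Agent.Lib.MP_5e7226_co.C8.Hull

/-!
# Eight directions: the certificate checker

Points are integer vectors, packed with the offset `2^15` in fields of 16 bits. The values of all
facet functionals at a point are packed in one natural number, in fields of 96 bits, modulo
`2 ^ TW` (`TW` = 96 times the number of functionals). The functions are written for the evaluation
by the kernel.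
-/

set_option autoImplicit false

namespace Pool.Agent.Lib.MP_5e7226_co.C8

/-- the point `p` is a vertex of `f` -/
def FD.vtx (f : FD) (x : ℕ) : Bool := Nat.beq f.p x || (Nat.beq f.q x || Nat.beq f.r x)

/-- `n · x < c` -/
def FD.lt (f : FD) (x : ℕ) : Bool :=
  Nat.ble (Nat.succ (dps f.A1 f.A2 f.A3 f.B1 f.B2 f.B3 x))
    (Nat.add f.c (dps f.B1 f.B2 f.B3 f.A1 f.A2 f.A3 x))

/-- element of a list, with default `0` -/
def nth : List ℕ → ℕ → ℕ
  | [], _ => nat_lit 0
  | a :: l, n => bif Nat.beq n (nat_lit 0) then a else nth l (Nat.sub n (nat_lit 1))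

def dflFD : FD := ⟨nat_lit 0, nat_lit 0, nat_lit 0, nat_lit 0, nat_lit 0, nat_lit 0, nat_lit 0,
  nat_lit 0, nat_lit 0, nat_lit 0⟩

def nthFD : List FD → ℕ → FD
  | [], _ => dflFD
  | a :: l, n => bif Nat.beq n (nat_lit 0) then a else nthFD l (Nat.sub n (nat_lit 1))

/-- length -/
def len {α : Type} : List α → ℕ
  | [] => nat_lit 0
  | _ :: l => Nat.succ (len l)

/-- 6 bits -/
def b6 (d s : ℕ) : ℕ := Nat.land (Nat.shiftRight d s) (nat_lit 63)

/-- element of a list, with default `a` -/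
def nthd (a : ℕ) : List ℕ → ℕ → ℕ
  | [], _ => a
  | b :: l, n => bif Nat.beq n (nat_lit 0) then b else nthd a l (Nat.sub n (nat_lit 1))

/-- the functional of three points with packed indices -/
def mkF (K : List ℕ) (k d : ℕ) : FD :=
  (fun a => mkFD k (nthd a K (b6 d (nat_lit 0))) (nthd a K (b6 d (nat_lit 6)))
    (nthd a K (b6 d (nat_lit 12)))) (nth K (nat_lit 0))

/-- the list of functionals -/
def mkL (K : List ℕ) (k : ℕ) : List ℕ → List FD
  | [] => []
  | d :: l => mkF K k d :: mkL K k l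

/-- the neighbour across the edge `p q`, `r` being the third vertex -/
def nbr (fs : List FD) (g p q r : ℕ) : Bool :=
  (fun f => FD.vtx f p && (FD.vtx f q && FD.lt f r)) (nthFD fs g)

/-- all facets have their neighbours, given by the indices in the packed data -/
def nbrs (fs : List FD) : List FD → List ℕ → Bool
  | [], _ => true
  | f :: t, ds => (fun d => (Nat.blt (nat_lit 0) f.c && nbr fs (b6 d (nat_lit 18)) f.p f.q f.r) &&
      (nbr fs (b6 d (nat_lit 24)) f.q f.r f.p && nbr fs (b6 d (nat_lit 30)) f.r f.p f.q))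
      (nth ds (nat_lit 0)) && nbrs fs t ds.tail

/-- packing of a function of the functionals -/
def pk (f : FD → ℕ) : List FD → ℕ
  | [] => nat_lit 0
  | h :: t => Nat.add (Nat.shiftLeft (pk f t) (nat_lit 96)) (f h)

/-- table of the values of `g` -/
def tabm (g : ℕ → ℕ) (w m : ℕ) : List ℕ → ℕ
  | [] => nat_lit 0
  | a :: l => Nat.add (Nat.shiftLeft (tabm g w m l) w) (Nat.land (g a) m)

/-- entry of a table -/
def ent (T w m i : ℕ) : ℕ := Nat.land (Nat.shiftRight T (Nat.mul i w)) m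

/-- packed values at the point with the coordinates `x y z`, minus an offset; `K1` is the packed
value at the offset vector with the opposite sign -/
def lin (C1 C2 C3 K1 x y z : ℕ) : ℕ :=
  Nat.add (Nat.add (Nat.add (Nat.mul x C1) (Nat.mul y C2)) (Nat.mul z C3)) K1

/-- coordinates of 24 bits, for the corners of cells -/
def qx (p : ℕ) : ℕ := Nat.land p (nat_lit 16777215)
def qy (p : ℕ) : ℕ := Nat.land (Nat.shiftRight p (nat_lit 24)) (nat_lit 16777215)
def qz (p : ℕ) : ℕ := Nat.land (Nat.shiftRight p (nat_lit 48)) (nat_lit 16777215)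

/-- membership -/
def memb (x : ℕ) : List ℕ → Bool
  | [] => false
  | a :: l => Nat.beq a x || memb x l

/-- a child: the point and the corners of the cell -/
structure Kd where
  y : ℕ
  cell : List ℕ

/-- a fact: some point of `L` in the cell is not lit by any of the directions -/
structure UF where
  cell : List ℕ
  W : List ℕ

def nthK : List Kd → ℕ → Kd
  | [], _ => ⟨nat_lit 0, []⟩
  | a :: l, n => bif Nat.beq n (nat_lit 0) then a else nthK l (Nat.sub n (nat_lit 1))

def nthL : List (List ℕ) → ℕ → List ℕ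
  | [], _ => []
  | a :: l, n => bif Nat.beq n (nat_lit 0) then a else nthL l (Nat.sub n (nat_lit 1))

/-- the data for the checks at the terminal cones -/
structure Cx where
  R : ℕ
  TW : ℕ
  FM : ℕ
  M1 : ℕ
  nF : ℕ
  nH : ℕ
  C0 : ℕ
  CL : ℕ
  CS : ℕ
  CB : ℕ
  WT : ℕ
  NT : ℕ
  nN : ℕ
  YT : ℕ
  nK : ℕ
  kd : List Kd
  ut : List (List ℕ)
  uw : List ℕ

def f16 (d s : ℕ) : ℕ := Nat.land (Nat.shiftRight d s) (nat_lit 65535)
def f10 (d s : ℕ) : ℕ := Nat.land (Nat.shiftRight d s) (nat_lit 1023)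
def f8 (d s : ℕ) : ℕ := Nat.land (Nat.shiftRight d s) (nat_lit 255)
/-- the packed value for the test of a lit corner: the sign bits have to be clear -/
def litX (CL W r s E : ℕ) : ℕ := Nat.add (Nat.add CL (Nat.mul r E)) (Nat.mul s W)

/-- the packed value for the test of a shadow: the sign bits have to be set -/
def shX (CS N r s E : ℕ) : ℕ :=
  Nat.add (Nat.add CS (Nat.mul (Nat.add (nat_lit 256) s) N)) (Nat.mul (Nat.mul s r) E)

/-- the packed value for the test of a fact: the sign bits have to be set -/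
def upX (R C0 CB Cc W r s t E : ℕ) : ℕ :=
  Nat.add (Nat.add (Nat.add CB (Nat.mul (Nat.mul R (Nat.sub (nat_lit 256) t)) C0))
    (Nat.add (Nat.mul (nat_lit 256) Cc) (Nat.mul (Nat.mul (nat_lit 256) s) W)))
    (Nat.mul (Nat.mul t r) E)

/-- three lit corners -/
def lit3 (c : Cx) (W E1 E2 E3 r1 r2 r3 s1 s2 s3 : ℕ) : Bool :=
  Nat.beq (Nat.land (Nat.lor (Nat.lor (litX c.CL W r1 s1 E1) (litX c.CL W r2 s2 E2))
    (litX c.CL W r3 s3 E3)) c.M1) (nat_lit 0)

/-- three corners in a shadow -/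
def sh3 (c : Cx) (N E1 E2 E3 r1 r2 r3 s1 s2 s3 : ℕ) : Bool :=
  Nat.beq (Nat.land (Nat.land (Nat.land (shX c.CS N r1 s1 E1) (shX c.CS N r2 s2 E2))
    (shX c.CS N r3 s3 E3)) c.M1) c.M1

/-- three corners beyond the functional `g` -/
def dt3 (c : Cx) (g E1 E2 E3 r1 r2 r3 : ℕ) : Bool :=
  (fun m => Nat.beq (Nat.land (Nat.land (Nat.land (Nat.add c.CL (Nat.mul r1 E1))
    (Nat.add c.CL (Nat.mul r2 E2))) (Nat.add c.CL (Nat.mul r3 E3))) m) m)
    (Nat.shiftLeft (nat_lit 39614081257132168796771975168) (Nat.mul g (nat_lit 96)))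

/-- three corners lift the corner of the cell with the packed value `Cc`; `d` contains the three
pairs `s`, `t` -/
def up3 (c : Cx) (Cc W E1 E2 E3 r1 r2 r3 d : ℕ) : Bool :=
  Nat.beq (Nat.land (Nat.land (Nat.land
    (upX c.R c.C0 c.CB Cc W r1 (f24 d (nat_lit 0)) (f8 d (nat_lit 24)) E1)
    (upX c.R c.C0 c.CB Cc W r2 (f24 d (nat_lit 32)) (f8 d (nat_lit 56)) E2))
    (upX c.R c.C0 c.CB Cc W r3 (f24 d (nat_lit 64)) (f8 d (nat_lit 88)) E3)) c.M1) c.M1

/-- all corners of a cell -/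
def upA (c : Cx) (W E1 E2 E3 r1 r2 r3 : ℕ) : List ℕ → List ℕ → Bool
  | [], _ => true
  | a :: l, ds => up3 c a W E1 E2 E3 r1 r2 r3 (nth ds (nat_lit 0)) &&
      upA c W E1 E2 E3 r1 r2 r3 l ds.tail

def isNil : List ℕ → Bool
  | [] => true
  | _ :: _ => false

/-- the corner `r U` of a cell as a packed point with the offset `2^23`; the coordinates of `U`
are in fields of 24 bits, modulo `2^72` -/
def crn (U r : ℕ) : ℕ :=
  Nat.land (Nat.add (nat_lit 2361183382172319350784) (Nat.mul r U))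
    (nat_lit 4722366482869645213695)

/-- the six corners of the cell are corners of the cell of the child -/
def cel6 (cell : List ℕ) (U1 U2 U3 r1 r2 r3 t1 t2 t3 : ℕ) : Bool :=
  (memb (crn U1 r1) cell && (memb (crn U2 r2) cell && memb (crn U3 r3) cell)) &&
  (memb (crn U1 t1) cell && (memb (crn U2 t2) cell && memb (crn U3 t3) cell))

/-- the layers of a terminal cone; the current radii are arguments of the check:
`wN`: shadow of a point of `F`, `wD`: functional of the frame, `wU`: fact, `kI`: everything beyond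
belongs to a child, `lit`: lit cell, `kid`: cell of a child -/
inductive Lay
  | wN (d : ℕ)
  | wD (d : ℕ)
  | wU (d : ℕ) (l : List ℕ)
  | kI (d : ℕ)
  | lit (d e : ℕ) (k : Lay)
  | kid (d : ℕ) (k : Lay)

/-- check of the layers: `bd` bounds the coordinates of the three vectors `U` -/
def chkL (c : Cx) (bd U1 U2 U3 E1 E2 E3 : ℕ) : Lay → ℕ → ℕ → ℕ → Bool
  | .wN d, r1, r2, r3 => Nat.blt (f10 d (nat_lit 0)) c.nN &&
      sh3 c (ent c.NT c.TW c.FM (f10 d (nat_lit 0))) E1 E2 E3 r1 r2 r3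
        (f16 d (nat_lit 10)) (f16 d (nat_lit 26)) (f16 d (nat_lit 42))
  | .wD d, r1, r2, r3 => (Nat.ble c.nF d && Nat.blt d c.nH) && dt3 c d E1 E2 E3 r1 r2 r3
  | .wU d l, r1, r2, r3 =>
      upA c (ent (nth c.uw (f10 d (nat_lit 4))) c.TW c.FM (f4 d (nat_lit 0))) E1 E2 E3 r1 r2 r3
        (nthL c.ut (f10 d (nat_lit 4))) l &&
        Nat.blt (f10 d (nat_lit 4)) (len c.ut)
  | .kI d, r1, r2, r3 =>
      (Nat.blt (f10 d (nat_lit 0)) c.nK && isNil (nthK c.kd (f10 d (nat_lit 0))).cell) &&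
      sh3 c (ent c.YT c.TW c.FM (f10 d (nat_lit 0))) E1 E2 E3 r1 r2 r3
        (f16 d (nat_lit 10)) (f16 d (nat_lit 26)) (f16 d (nat_lit 42))
  | .lit d e k, r1, r2, r3 =>
      ((Nat.ble r1 (f24 e (nat_lit 0)) && (Nat.ble r2 (f24 e (nat_lit 24)) &&
        Nat.ble r3 (f24 e (nat_lit 48)))) &&
      (lit3 c (ent c.WT c.TW c.FM (f4 d (nat_lit 0))) E1 E2 E3 r1 r2 r3
        (f24 d (nat_lit 4)) (f24 d (nat_lit 28)) (f24 d (nat_lit 52)) &&
      lit3 c (ent c.WT c.TW c.FM (f4 d (nat_lit 0))) E1 E2 E3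
        (f24 e (nat_lit 0)) (f24 e (nat_lit 24)) (f24 e (nat_lit 48))
        (f24 e (nat_lit 72)) (f24 e (nat_lit 96)) (f24 e (nat_lit 120)))) &&
      chkL c bd U1 U2 U3 E1 E2 E3 k
        (f24 e (nat_lit 0)) (f24 e (nat_lit 24)) (f24 e (nat_lit 48))
  | .kid d k, r1, r2, r3 =>
      ((Nat.ble r1 (f24 d (nat_lit 58)) && (Nat.ble r2 (f24 d (nat_lit 82)) &&
        Nat.ble r3 (f24 d (nat_lit 106)))) &&
      (((Nat.blt (Nat.mul (f24 d (nat_lit 58)) bd) (nat_lit 8388608) &&
        (Nat.blt (Nat.mul (f24 d (nat_lit 82)) bd) (nat_lit 8388608) &&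
        Nat.blt (Nat.mul (f24 d (nat_lit 106)) bd) (nat_lit 8388608))) &&
        cel6 (nthK c.kd (f10 d (nat_lit 0))).cell U1 U2 U3 r1 r2 r3
          (f24 d (nat_lit 58)) (f24 d (nat_lit 82)) (f24 d (nat_lit 106))) &&
      (Nat.blt (f10 d (nat_lit 0)) c.nK &&
      sh3 c (ent c.YT c.TW c.FM (f10 d (nat_lit 0))) E1 E2 E3 r1 r2 r3
        (f16 d (nat_lit 10)) (f16 d (nat_lit 26)) (f16 d (nat_lit 42))))) &&
      chkL c bd U1 U2 U3 E1 E2 E3 k
        (f24 d (nat_lit 58)) (f24 d (nat_lit 82)) (f24 d (nat_lit 106))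

/-- cone tree: `s4` subdivision into four triangles, `s2` subdivision of an edge, `t` terminal -/
inductive Cone
  | s4 (a b c d : Cone)
  | s2 (e al be : ℕ) (a b : Cone)
  | t (d : ℕ) (k : Lay)

/-- maximum -/
def mx3 (a b c : ℕ) : ℕ :=
  (fun m => bif Nat.ble m c then c else m) (bif Nat.ble a b then b else a)

/-- check of a cone tree; `b1`, `b2`, `b3` bound the coordinates of the three vectors -/
def chkC (c : Cx) : Cone → ℕ → ℕ → ℕ → ℕ → ℕ → ℕ → ℕ → ℕ → ℕ → Bool
  | .s4 a1 a2 a3 a4, b1, b2, b3, U1, U2, U3, E1, E2, E3 =>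
      (chkC c a1 (Nat.mul (nat_lit 2) b1) (Nat.add b1 b2) (Nat.add b1 b3)
          (Nat.mul (nat_lit 2) U1) (Nat.add U1 U2)
          (Nat.add U1 U3) (Nat.mul (nat_lit 2) E1) (Nat.add E1 E2) (Nat.add E1 E3) &&
        chkC c a2 (Nat.add b1 b2) (Nat.mul (nat_lit 2) b2) (Nat.add b2 b3)
          (Nat.add U1 U2) (Nat.mul (nat_lit 2) U2)
          (Nat.add U2 U3) (Nat.add E1 E2) (Nat.mul (nat_lit 2) E2) (Nat.add E2 E3)) &&
      (chkC c a3 (Nat.add b1 b3) (Nat.add b2 b3) (Nat.mul (nat_lit 2) b3)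
          (Nat.add U1 U3) (Nat.add U2 U3)
          (Nat.mul (nat_lit 2) U3) (Nat.add E1 E3) (Nat.add E2 E3) (Nat.mul (nat_lit 2) E3) &&
        chkC c a4 (Nat.add b1 b2) (Nat.add b2 b3) (Nat.add b1 b3)
          (Nat.add U1 U2) (Nat.add U2 U3) (Nat.add U1 U3)
          (Nat.add E1 E2) (Nat.add E2 E3) (Nat.add E1 E3))
  | .s2 e al be a b, b1, b2, b3, U1, U2, U3, E1, E2, E3 =>
      (Nat.blt (nat_lit 0) al && Nat.blt (nat_lit 0) be) &&
      bif Nat.beq e (nat_lit 0) then
        chkC c a b1 (Nat.add (Nat.mul al b1) (Nat.mul be b2)) b3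
          U1 (Nat.add (Nat.mul al U1) (Nat.mul be U2)) U3
          E1 (Nat.add (Nat.mul al E1) (Nat.mul be E2)) E3 &&
        chkC c b (Nat.add (Nat.mul al b1) (Nat.mul be b2)) b2 b3
          (Nat.add (Nat.mul al U1) (Nat.mul be U2)) U2 U3
          (Nat.add (Nat.mul al E1) (Nat.mul be E2)) E2 E3
      else bif Nat.beq e (nat_lit 1) then
        chkC c a b1 b2 (Nat.add (Nat.mul al b2) (Nat.mul be b3))
          U1 U2 (Nat.add (Nat.mul al U2) (Nat.mul be U3))
          E1 E2 (Nat.add (Nat.mul al E2) (Nat.mul be E3)) &&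
        chkC c b b1 (Nat.add (Nat.mul al b2) (Nat.mul be b3)) b3
          U1 (Nat.add (Nat.mul al U2) (Nat.mul be U3)) U3
          E1 (Nat.add (Nat.mul al E2) (Nat.mul be E3)) E3
      else
        chkC c a b1 b2 (Nat.add (Nat.mul al b3) (Nat.mul be b1))
          U1 U2 (Nat.add (Nat.mul al U3) (Nat.mul be U1))
          E1 E2 (Nat.add (Nat.mul al E3) (Nat.mul be E1)) &&
        chkC c b (Nat.add (Nat.mul al b3) (Nat.mul be b1)) b2 b3
          (Nat.add (Nat.mul al U3) (Nat.mul be U1)) U2 U3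
          (Nat.add (Nat.mul al E3) (Nat.mul be E1)) E2 E3
  | .t d k, b1, b2, b3, U1, U2, U3, E1, E2, E3 =>
      (((Nat.ble (mx3 b1 b2 b3) (nat_lit 65536) && Nat.blt (nat_lit 0) (f24 d (nat_lit 4))) &&
        (Nat.blt (nat_lit 0) (f24 d (nat_lit 28)) && Nat.blt (nat_lit 0) (f24 d (nat_lit 52)))) &&
      lit3 c (ent c.WT c.TW c.FM (f4 d (nat_lit 0))) E1 E2 E3
        (f24 d (nat_lit 4)) (f24 d (nat_lit 28)) (f24 d (nat_lit 52))
        (f24 d (nat_lit 76)) (f24 d (nat_lit 100)) (f24 d (nat_lit 124))) &&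
      chkL c (mx3 b1 b2 b3) U1 U2 U3 E1 E2 E3 k
        (f24 d (nat_lit 4)) (f24 d (nat_lit 28)) (f24 d (nat_lit 52))

/-- numbers which do not depend on the octant: packed normals, with both signs -/
structure Nm where
  TW : ℕ
  MM : ℕ
  C1 : ℕ
  C2 : ℕ
  C3 : ℕ
  D1 : ℕ
  D2 : ℕ
  D3 : ℕ
  C0 : ℕ
  BI : ℕ
  CB : ℕ

def mkNm2 (TW MM A1 A2 A3 B1 B2 B3 C0 BI CB : ℕ) : Nm where
  TW := TW
  MM := MM
  C1 := Nat.add A1 (Nat.sub MM B1)
  C2 := Nat.add A2 (Nat.sub MM B2)
  C3 := Nat.add A3 (Nat.sub MM B3)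
  D1 := Nat.add B1 (Nat.sub MM A1)
  D2 := Nat.add B2 (Nat.sub MM A2)
  D3 := Nat.add B3 (Nat.sub MM A3)
  C0 := C0
  BI := BI
  CB := CB

def mkNm (hs : List FD) : Nm :=
  mkNm2 (Nat.mul (nat_lit 96) (len hs))
    (Nat.shiftLeft (nat_lit 1) (Nat.mul (nat_lit 96) (len hs)))
    (pk FD.A1 hs) (pk FD.A2 hs) (pk FD.A3 hs) (pk FD.B1 hs) (pk FD.B2 hs) (pk FD.B3 hs)
    (pk FD.c hs)
    (pk (fun _ => nat_lit 39614081257132168796771975168) hs)
    (pk (fun _ => nat_lit 39614081257132168796771975167) hs)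

/-- values at a packed point, with the opposite sign -/
def vneg (n : Nm) (p : ℕ) : ℕ :=
  lin n.D1 n.D2 n.D3 (Nat.mul (nat_lit 32768) (Nat.add (Nat.add n.C1 n.C2) n.C3))
    (ox p) (oy p) (oz p)

/-- values at a packed point -/
def vpos (n : Nm) (p : ℕ) : ℕ :=
  lin n.C1 n.C2 n.C3 (Nat.mul (nat_lit 32768) (Nat.add (Nat.add n.D1 n.D2) n.D3))
    (ox p) (oy p) (oz p)

/-- values at the corner of a cell, with the opposite sign -/
def vcel (n : Nm) (p : ℕ) : ℕ :=
  lin n.D1 n.D2 n.D3 (Nat.mul (nat_lit 8388608) (Nat.add (Nat.add n.C1 n.C2) n.C3))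
    (qx p) (qy p) (qz p)

def mapN (g : ℕ → ℕ) : List ℕ → List ℕ
  | [] => []
  | a :: l => g a :: mapN g l

def mapUc (g : ℕ → ℕ) : List UF → List (List ℕ)
  | [] => []
  | a :: l => mapN g a.cell :: mapUc g l

def mapUw (g : ℕ → ℕ) (w m : ℕ) : List UF → List ℕ
  | [] => []
  | a :: l => tabm g w m a.W :: mapUw g w m l

def tabK (g : ℕ → ℕ) (w m : ℕ) : List Kd → ℕ
  | [] => nat_lit 0
  | a :: l => Nat.add (Nat.shiftLeft (tabK g w m l) w) (Nat.land (g a.y) m)

def app {α : Type} : List α → List α → List α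
  | [], m => m
  | a :: l, m => a :: app l m

/-- the context -/
def mkCx (R : ℕ) (n : Nm) (fs hs : List FD) (F : List ℕ) (U : List UF) (W : List ℕ)
    (kd : List Kd) : Cx where
  R := R
  TW := n.TW
  FM := Nat.sub n.MM (nat_lit 1)
  M1 := pk (fun _ => nat_lit 39614081257132168796771975168) fs
  nF := len fs
  nH := len hs
  C0 := n.C0
  CL := Nat.add n.BI (Nat.mul R (Nat.sub n.MM n.C0))
  CS := Nat.add n.BI (Nat.mul (Nat.mul (nat_lit 256) R) n.C0)
  CB := n.CB
  WT := tabm (vneg n) n.TW (Nat.sub n.MM (nat_lit 1)) W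
  NT := tabm (fun p => Nat.mul R (vneg n p)) n.TW (Nat.sub n.MM (nat_lit 1)) F
  nN := len F
  YT := tabK (fun p => Nat.mul R (vneg n p)) n.TW (Nat.sub n.MM (nat_lit 1)) kd
  nK := len kd
  kd := kd
  ut := mapUc (vcel n) U
  uw := mapUw (vpos n) n.TW (Nat.sub n.MM (nat_lit 1)) U

/-- eight octants -/
structure Oct where
  c0 : Cone
  c1 : Cone
  c2 : Cone
  c3 : Cone
  c4 : Cone
  c5 : Cone
  c6 : Cone
  c7 : Cone

/-- one octant: the packed unit vectors with signs, the packed normals with the signs -/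
def chkO (c : Cx) (U1 U2 U3 C1 C2 C3 : ℕ) (k : Cone) : Bool :=
  chkC c k (nat_lit 1) (nat_lit 1) (nat_lit 1) U1 U2 U3 C1 C2 C3

/-- all octants -/
def chk8 (c : Cx) (n : Nm) (k : Oct) : Bool :=
  (((chkO c (nat_lit 1) (nat_lit 16777216) (nat_lit 281474976710656) n.C1 n.C2 n.C3 k.c0 &&
    chkO c (nat_lit 4722366482869645213695) (nat_lit 16777216) (nat_lit 281474976710656)
      n.D1 n.C2 n.C3 k.c1) &&
   (chkO c (nat_lit 1) (nat_lit 4722366482869628436480) (nat_lit 281474976710656)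
      n.C1 n.D2 n.C3 k.c2 &&
    chkO c (nat_lit 4722366482869645213695) (nat_lit 4722366482869628436480)
      (nat_lit 281474976710656) n.D1 n.D2 n.C3 k.c3)) &&
  ((chkO c (nat_lit 1) (nat_lit 16777216) (nat_lit 4722366201394668503040)
      n.C1 n.C2 n.D3 k.c4 &&
    chkO c (nat_lit 4722366482869645213695) (nat_lit 16777216)
      (nat_lit 4722366201394668503040) n.D1 n.C2 n.D3 k.c5) &&
   (chkO c (nat_lit 1) (nat_lit 4722366482869628436480)
      (nat_lit 4722366201394668503040) n.C1 n.D2 n.D3 k.c6 &&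
    chkO c (nat_lit 4722366482869645213695) (nat_lit 4722366482869628436480)
      (nat_lit 4722366201394668503040) n.D1 n.D2 n.D3 k.c7)))

/-- a state -/
structure SN where
  K : List ℕ
  F : List ℕ
  U : List UF

/-- the tree -/
inductive Tr
  | nil
  | kid (y : ℕ) (cell : List ℕ) (sub rest : Tr)
  | qry (y : ℕ) (a b : Tr)
  | cov (fc dt W : List ℕ) (k : Oct) (kids : Tr)
  | ref (i : ℕ)

/-- the children of a cover node -/
def Tr.kids : Tr → List Kd
  | .kid y cell _ rest => ⟨y, cell⟩ :: rest.kids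
  | _ => []

/-- the facet list is complete -/
def fok (K fc : List ℕ) : Bool :=
  (fun fs => (Nat.blt (nat_lit 0) (len fc) && Nat.blt (nat_lit 0) (len K)) && nbrs fs fs fc)
    (mkL K (nat_lit 0) fc)

/-- the values of all functionals are positive -/
def posL : List FD → Bool
  | [] => true
  | f :: l => Nat.blt (nat_lit 0) f.c && posL l

/-- check of a cover node -/
def cov (R D0 : ℕ) (s : SN) (fc dt W : List ℕ) (k : Oct) (kd : List Kd) : Bool :=
  (fok s.K fc && posL (mkL s.K D0 dt)) &&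
  (fun fs hs => (fun n => chk8 (mkCx R n fs hs s.F s.U W kd) n k) (mkNm hs))
    (mkL s.K (nat_lit 0) fc) (app (mkL s.K (nat_lit 0) fc) (mkL s.K D0 dt))

/-- equality of lists -/
def eqN : List ℕ → List ℕ → Bool
  | [], [] => true
  | a :: l, b :: m => Nat.beq a b && eqN l m
  | _, _ => false

def eqU : List UF → List UF → Bool
  | [], [] => true
  | a :: l, b :: m => (eqN a.cell b.cell && eqN a.W b.W) && eqU l m
  | _, _ => false

def eqS (s t : SN) : Bool := eqN s.K t.K && (eqN s.F t.F && eqU s.U t.U)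

def nthS : List SN → ℕ → SN
  | [], _ => ⟨[], [], []⟩
  | a :: l, n => bif Nat.beq n (nat_lit 0) then a else nthS l (Nat.sub n (nat_lit 1))

/-- the state of a child -/
def kidS (s : SN) (W : List ℕ) (y : ℕ) (cell : List ℕ) : SN where
  K := y :: s.K
  F := s.F
  U := bif isNil cell then s.U else ⟨cell, W⟩ :: s.U

/-- check of a tree; `m = none`: the state is good; `m = some W`: the states of all children in
the chain are good. `rs` are states already known to be good. -/
def chk (n R D0 : ℕ) (rs : List SN) : Tr → Option (List ℕ) → SN → Bool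
  | .nil, m, _ => match m with
    | none => false
    | some _ => true
  | .kid y cell sub rest, m, s => match m with
    | none => false
    | some W => chk n R D0 rs sub none (kidS s W y cell) && chk n R D0 rs rest (some W) s
  | .qry y a b, m, s => match m with
    | none => chk n R D0 rs a none ⟨y :: s.K, s.F, s.U⟩ && chk n R D0 rs b none ⟨s.K, y :: s.F, s.U⟩
    | some _ => false
  | .cov fc dt W k kids, m, s => match m with
    | none => (Nat.ble (len W) n && cov R D0 s fc dt W k kids.kids) && chk n R D0 rs kids (some W) s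
    | some _ => false
  | .ref i, m, s => match m with
    | none => Nat.blt i (len rs) && eqS (nthS rs i) s
    | some _ => false

end Pool.Agent.Lib.MP_5e7226_co.C8
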