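/-!
# The evaluated functions of the certificates

This file does not import Mathlib, so that the files with the certificates need not import it.
-/

set_option autoImplicit false

section

namespace Pool.Agent.Lib.MP_5e7226_co.C8

/-- coordinates with the offset `32768` -/
def ox (p : Nat) : Nat := Nat.land p (nat_lit 65535)

def oy (p : Nat) : Nat := Nat.land (Nat.shiftRight p (nat_lit 16)) (nat_lit 65535)

def oz (p : Nat) : Nat := Nat.land (Nat.shiftRight p (nat_lit 32)) (nat_lit 65535)

/-- a functional: the normal is `A - B`, the value is `c` -/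
structure FD where
  p : Nat
  q : Nat
  r : Nat
  A1 : Nat
  A2 : Nat
  A3 : Nat
  B1 : Nat
  B2 : Nat
  B3 : Nat
  c : Nat

/-- positive and negative part of a component of `q × r + r × p + p × q`; the arguments are the
coordinates `a = p_1, b = q_1, c = r_1` and `a' = p_2, ...` -/
def crs (a b c a' b' c' : Nat) : Nat :=
  Nat.add (Nat.add (Nat.mul b c') (Nat.mul c a')) (Nat.mul a b')

/-- `A · p + 32768 (B1 + B2 + B3)` -/
def dps (A1 A2 A3 B1 B2 B3 p : Nat) : Nat :=
  Nat.add (Nat.add (Nat.add (Nat.mul A1 (ox p)) (Nat.mul A2 (oy p))) (Nat.mul A3 (oz p)))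
    (Nat.mul (nat_lit 32768) (Nat.add (Nat.add B1 B2) B3))

/-- the functional of three points; the value is increased by `k` -/
def mkFD (k p q r : Nat) : FD where
  p := p
  q := q
  r := r
  A1 := crs (oy p) (oy q) (oy r) (oz p) (oz q) (oz r)
  A2 := crs (oz p) (oz q) (oz r) (ox p) (ox q) (ox r)
  A3 := crs (ox p) (ox q) (ox r) (oy p) (oy q) (oy r)
  B1 := crs (oz p) (oz q) (oz r) (oy p) (oy q) (oy r)
  B2 := crs (ox p) (ox q) (ox r) (oz p) (oz q) (oz r)
  B3 := crs (oy p) (oy q) (oy r) (ox p) (ox q) (ox r)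
  c := Nat.sub
    (Nat.add k (dps (crs (oy p) (oy q) (oy r) (oz p) (oz q) (oz r))
      (crs (oz p) (oz q) (oz r) (ox p) (ox q) (ox r))
      (crs (ox p) (ox q) (ox r) (oy p) (oy q) (oy r))
      (crs (oz p) (oz q) (oz r) (oy p) (oy q) (oy r))
      (crs (ox p) (ox q) (ox r) (oz p) (oz q) (oz r))
      (crs (oy p) (oy q) (oy r) (ox p) (ox q) (ox r)) p))
    (dps (crs (oz p) (oz q) (oz r) (oy p) (oy q) (oy r))
      (crs (ox p) (ox q) (ox r) (oz p) (oz q) (oz r))
      (crs (oy p) (oy q) (oy r) (ox p) (ox q) (ox r))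
      (crs (oy p) (oy q) (oy r) (oz p) (oz q) (oz r))
      (crs (oz p) (oz q) (oz r) (ox p) (ox q) (ox r))
      (crs (ox p) (ox q) (ox r) (oy p) (oy q) (oy r)) p)

/-- fields of 24, 16, 10, 8 and 4 bits -/
def f24 (d s : Nat) : Nat := Nat.land (Nat.shiftRight d s) (nat_lit 16777215)

def f4 (d s : Nat) : Nat := Nat.land (Nat.shiftRight d s) (nat_lit 15)

end Pool.Agent.Lib.MP_5e7226_co.C8

end

section

namespace Pool.Agent.Lib.MP_5e7226_co.C8

/-- the packed vertices of the simplex, `N = 1024` -/
def rt4 : List Nat := [145137749492736, 136341522252800, 136341656468480, 145137615272960]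

/-- the four vertices are in the list -/
def has4 (K : List Nat) : Bool := rt4.all fun p => K.any fun q => Nat.beq p q

end Pool.Agent.Lib.MP_5e7226_co.C8

end

section

namespace Pool.Agent.Lib.MP_5e7226_co.C8.TF

/-- table of the points, 48 bits each -/
noncomputable def tk (l : List Nat) : Nat :=
  @List.rec Nat (fun _ => Nat) (nat_lit 0)
    (fun a _ ih => Nat.add (Nat.shiftLeft ih (nat_lit 48)) (Nat.land a (nat_lit 281474976710655))) l

/-- length -/
noncomputable def ln (l : List Nat) : Nat :=
  @List.rec Nat (fun _ => Nat) (nat_lit 0) (fun _ _ ih => Nat.succ ih) l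

/-- entry of a table of points -/
noncomputable def pt (T i : Nat) : Nat :=
  Nat.land (Nat.shiftRight T (Nat.mul (nat_lit 48) i)) (nat_lit 281474976710655)

/-- 7 bits -/
noncomputable def i7 (S s : Nat) : Nat := Nat.land (Nat.shiftRight S s) (nat_lit 127)

/-- 8 bits -/
noncomputable def i8 (S s : Nat) : Nat := Nat.land (Nat.shiftRight S s) (nat_lit 255)

/-- list of functionals from the stream `S`, `w` bits each -/
noncomputable def fl (T k w n : Nat) : Nat → List FD :=
  @Nat.rec (fun _ => Nat → List FD) (fun _ => [])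
    (fun _ ih S => mkFD k (pt T (i7 S (nat_lit 0))) (pt T (i7 S (nat_lit 7)))
      (pt T (i7 S (nat_lit 14))) :: ih (Nat.shiftRight S w)) n

/-- append -/
noncomputable def ap (l m : List FD) : List FD :=
  @List.rec FD (fun _ => List FD) m (fun a _ ih => a :: ih) l

/-- packing -/
noncomputable def pf (f : FD → Nat) (l : List FD) : Nat :=
  @List.rec FD (fun _ => Nat) (nat_lit 0)
    (fun h _ ih => Nat.add (Nat.shiftLeft ih (nat_lit 96)) (f h)) l

/-- `1` in all of the `n` fields -/
noncomputable def on (n : Nat) : Nat :=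
  Nat.div (Nat.sub (Nat.shiftLeft (nat_lit 1) (Nat.mul (nat_lit 96) n)) (nat_lit 1))
    (nat_lit 79228162514264337593543950335)

/-- membership in the three indices of a facet -/
noncomputable def mm (i G : Nat) : Bool :=
  @Bool.rec (fun _ => Bool)
    (@Bool.rec (fun _ => Bool) (Nat.beq i (i7 G (nat_lit 14))) true
      (Nat.beq i (i7 G (nat_lit 7)))) true (Nat.beq i (i7 G (nat_lit 0)))

/-- the facet `g` contains the points `i` and `j`, the point `k` is inside; `V k` are the packed
values at the point `k` -/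
noncomputable def nb (FC nf : Nat) (V : Nat → Nat) (g i j k : Nat) : Bool :=
  (@Bool.rec (fun _ => Bool) false (@Bool.rec (fun _ => Bool) false (@Bool.rec (fun _ => Bool) false (Nat.beq (Nat.land (Nat.shiftRight (V k)
      (Nat.add (Nat.mul (nat_lit 96) g) (nat_lit 95))) (nat_lit 1)) (nat_lit 1))
    (mm j (Nat.shiftRight FC (Nat.mul (nat_lit 45) g))))
    (mm i (Nat.shiftRight FC (Nat.mul (nat_lit 45) g))))
    (Nat.ble (Nat.succ g) nf))

/-- three indices are smaller than `n` -/
noncomputable def i3 (n S : Nat) : Bool :=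
  (@Bool.rec (fun _ => Bool) false (@Bool.rec (fun _ => Bool) false (Nat.ble (Nat.succ (i7 S (nat_lit 14))) n)
    (Nat.ble (Nat.succ (i7 S (nat_lit 7))) n))
    (Nat.ble (Nat.succ (i7 S (nat_lit 0))) n))

/-- check of the facets -/
noncomputable def fc (FC nf nK : Nat) (V : Nat → Nat) (n : Nat) : Nat → Bool :=
  @Nat.rec (fun _ => Nat → Bool) (fun _ => true)
    (fun _ ih S =>
      (@Bool.rec (fun _ => Bool) false (@Bool.rec (fun _ => Bool) false (@Bool.rec (fun _ => Bool) false (@Bool.rec (fun _ => Bool) false (ih (Nat.shiftRight S (nat_lit 45)))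
        (nb FC nf V (i8 S (nat_lit 37)) (i7 S (nat_lit 14)) (i7 S (nat_lit 0)) (i7 S (nat_lit 7))))
        (nb FC nf V (i8 S (nat_lit 29)) (i7 S (nat_lit 7)) (i7 S (nat_lit 14)) (i7 S (nat_lit 0))))
        (nb FC nf V (i8 S (nat_lit 21)) (i7 S (nat_lit 0)) (i7 S (nat_lit 7)) (i7 S (nat_lit 14))))
        (i3 nK S))) n

/-- check of the indices of the triples -/
noncomputable def dc (nK : Nat) (n : Nat) : Nat → Bool :=
  @Nat.rec (fun _ => Nat → Bool) (fun _ => true)
    (fun _ ih S => (@Bool.rec (fun _ => Bool) false (ih (Nat.shiftRight S (nat_lit 21))) (i3 nK S))) n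

/-- packed values at a point; the coefficients have the opposite sign, `K0` is the offset -/
noncomputable def vn (D1 D2 D3 K0 p : Nat) : Nat :=
  Nat.add (Nat.add (Nat.add (Nat.mul (Nat.land p (nat_lit 65535)) D1)
    (Nat.mul (Nat.land (Nat.shiftRight p (nat_lit 16)) (nat_lit 65535)) D2))
    (Nat.mul (Nat.land (Nat.shiftRight p (nat_lit 32)) (nat_lit 65535)) D3)) K0

/-- the radius of a corner beyond the functional in the field `H`; `Rc` is the value minus one -/
noncomputable def rd (BI H Rc X : Nat) : Nat :=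
  (fun d => Nat.succ (Nat.div Rc d))
    (Nat.sub (Nat.land (Nat.shiftRight (Nat.add BI X) H)
      (nat_lit 79228162514264337593543950335)) (nat_lit 39614081257132168796771975168))

/-- one corner of a terminal cone with a shadow, shadow part -/
noncomputable def xh (Q CS N r t E : Nat) : Nat :=
  Nat.add (Nat.add CS (Nat.mul (Nat.add Q t) N)) (Nat.mul (Nat.mul t r) E)

/-- the coefficients of a subdivision -/
noncomputable def cs (S s : Nat) (m : Nat) : Nat := Nat.succ (Nat.land (Nat.shiftRight S s) m)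

end Pool.Agent.Lib.MP_5e7226_co.C8.TF

end

section

namespace Pool.Agent.Lib.MP_5e7226_co.C8.TF

/-- a fact: number of points, points of the cell, directions -/
structure UG where
  m : Nat
  C : Nat
  W : Nat

/-- a child: point, number of points, points of the cell -/
structure KG where
  y : Nat
  m : Nat
  C : Nat

/-- the fact with an index -/
noncomputable def gG (k : Nat → Nat → Nat → Bool) (l : List UG) : Nat → Bool :=
  @List.rec UG (fun _ => Nat → Bool) (fun _ => false)
    (fun g _ ih i => @Nat.rec (fun _ => Bool) (@UG.rec (fun _ => Bool) k g)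
      (fun j _ => ih j) i) l

/-- the child with an index -/
noncomputable def gK (k : Nat → Nat → Nat → Bool) (l : List KG) : Nat → Bool :=
  @List.rec KG (fun _ => Nat → Bool) (fun _ => false)
    (fun g _ ih i => @Nat.rec (fun _ => Bool) (@KG.rec (fun _ => Bool) k g)
      (fun j _ => ih j) i) l

/-- 12 bits -/
noncomputable def f12 (S s : Nat) : Nat := Nat.land (Nat.shiftRight S s) (nat_lit 4095)

/-- 6 bits -/
noncomputable def f6 (S s : Nat) : Nat := Nat.land (Nat.shiftRight S s) (nat_lit 63)

/-- packed values at a point of a cell, opposite sign -/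
noncomputable def vc (D1 D2 D3 K1 p : Nat) : Nat :=
  Nat.add (Nat.add (Nat.add (Nat.mul (Nat.land p (nat_lit 67108863)) D1)
    (Nat.mul (Nat.land (Nat.shiftRight p (nat_lit 26)) (nat_lit 67108863)) D2))
    (Nat.mul (Nat.land (Nat.shiftRight p (nat_lit 52)) (nat_lit 67108863)) D3)) K1

/-- everything beyond the corners is dead by a triple: 6 bits -/
noncomputable def wD (nf nd CL r1 r2 r3 E1 E2 E3 S : Nat) (k : Nat → Bool) : Bool :=
  (@Bool.rec (fun _ => Bool) false (@Bool.rec (fun _ => Bool) false (k (Nat.shiftRight S (nat_lit 6)))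
    ((fun q => Nat.beq (Nat.land (Nat.land (Nat.land (Nat.add CL (Nat.mul r1 E1))
      (Nat.add CL (Nat.mul r2 E2))) (Nat.add CL (Nat.mul r3 E3))) q) q)
      (Nat.shiftLeft (nat_lit 39614081257132168796771975168)
        (Nat.mul (nat_lit 96) (Nat.add nf (f6 S (nat_lit 0)))))))
    (Nat.ble (Nat.succ (f6 S (nat_lit 0))) nd))

/-- 20 bits -/
noncomputable def f20 (S s : Nat) : Nat := Nat.land (Nat.shiftRight S s) (nat_lit 1048575)

/-- the corner with the radius `r` is the point `i` of the cell -/
noncomputable def crn (m C b U r i : Nat) : Bool :=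
  (@Bool.rec (fun _ => Bool) false (@Bool.rec (fun _ => Bool) false (Nat.beq (Nat.land (Nat.add (nat_lit 151115729703628494077952) (Nat.mul r U))
      (nat_lit 302231454903657293676543))
      (Nat.land (Nat.shiftRight C (Nat.mul (nat_lit 78) i)) (nat_lit 302231454903657293676543)))
    (Nat.ble (Nat.succ i) m))
    (Nat.ble (Nat.mul r b) (nat_lit 33554431)))

/-- the type of the check of a cone -/
abbrev CT : Type := Nat → Nat → Nat → Nat → Nat → Nat → Nat → Nat → Nat → Nat → (Nat → Bool) → Bool

/-- a state with facts -/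
structure SG where
  K : List Nat
  F : List Nat
  G : List UG

end Pool.Agent.Lib.MP_5e7226_co.C8.TF

end

section

namespace Pool.Agent.Lib.MP_5e7226_co.C8.TR

open TF

/-- the corners are not too far away -/
noncomputable def rb (b1 b2 b3 r1 r2 r3 : Nat) : Bool :=
  Nat.ble (Nat.lor (Nat.lor (Nat.mul r1 b1) (Nat.mul r2 b2)) (Nat.mul r3 b3)) (nat_lit 4294967295)

/-- a terminal cone, triple: 4 bits direction, 6 bits triple, three shifts with the mask `m` at the
positions `10`, `o2`, `o3`; `oe` is the end -/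
noncomputable def tD (n nf nd M1 BI R C0 CL : Nat) (WV : Nat → Nat) (m o2 o3 oe b1 b2 b3 E1 E2 E3 S : Nat)
    (k : Nat → Bool) : Bool :=
  (fun a g => (fun H => (fun Rc => (fun r1 r2 r3 => (fun X1 X2 X3 W =>
    (@Bool.rec (fun _ => Bool) false (@Bool.rec (fun _ => Bool) false (@Bool.rec (fun _ => Bool) false (@Bool.rec (fun _ => Bool) false (@Bool.rec (fun _ => Bool) false (k (Nat.shiftRight S oe))
      (Nat.beq (Nat.land (Nat.lor (Nat.lor
        (Nat.add X1 (Nat.mul (Nat.land (Nat.shiftRight S (nat_lit 10)) m) W))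
        (Nat.add X2 (Nat.mul (Nat.land (Nat.shiftRight S o2) m) W)))
        (Nat.add X3 (Nat.mul (Nat.land (Nat.shiftRight S o3) m) W)))
        M1) (nat_lit 0)))
      ((fun q => Nat.beq (Nat.land (Nat.land (Nat.land X1 X2) X3) q) q)
        (Nat.shiftLeft (nat_lit 39614081257132168796771975168) H)))
      (rb b1 b2 b3 r1 r2 r3))
      (Nat.ble (Nat.succ g) nd))
      (Nat.ble (Nat.succ a) n)))
    (Nat.add CL (Nat.mul r1 E1)) (Nat.add CL (Nat.mul r2 E2)) (Nat.add CL (Nat.mul r3 E3)) (WV a))
    (rd BI H Rc E1) (rd BI H Rc E2) (rd BI H Rc E3))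
    (Nat.sub (Nat.mul R (Nat.land (Nat.shiftRight C0 H)
      (nat_lit 79228162514264337593543950335))) (nat_lit 1)))
    (Nat.mul (nat_lit 96) (Nat.add nf g)))
    (Nat.land S (nat_lit 15)) (Nat.land (Nat.shiftRight S (nat_lit 4)) (nat_lit 63))

/-- one corner of a terminal cone with a shadow, lit part: 30 bits radius, 18 bits shift -/
noncomputable def xl (CL W r E S : Nat) : Nat :=
  Nat.add (Nat.add CL (Nat.mul r E))
    (Nat.mul (Nat.land (Nat.shiftRight S (nat_lit 30)) (nat_lit 262143)) W)

/-- radius -/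
noncomputable def xr (S : Nat) : Nat := Nat.land S (nat_lit 1073741823)

/-- shift of a shadow, 20 bits at the position 48 -/
noncomputable def xt (S : Nat) : Nat := Nat.land (Nat.shiftRight S (nat_lit 48)) (nat_lit 1048575)

/-- a terminal cone, shadow: 4 bits direction, 9 bits point, and for each corner 30 bits radius,
18 bits shift, 20 bits shift for the shadow -/
noncomputable def tN (n nF M1 CL CS : Nat) (WV FV : Nat → Nat) (b1 b2 b3 E1 E2 E3 S : Nat) (k : Nat → Bool) :
    Bool :=
  (fun a f S1 S2 S3 => (fun W N r1 r2 r3 t1 t2 t3 =>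
    (@Bool.rec (fun _ => Bool) false (@Bool.rec (fun _ => Bool) false (@Bool.rec (fun _ => Bool) false (@Bool.rec (fun _ => Bool) false (@Bool.rec (fun _ => Bool) false (@Bool.rec (fun _ => Bool) false (@Bool.rec (fun _ => Bool) false (@Bool.rec (fun _ => Bool) false (k (Nat.shiftRight S (nat_lit 217)))
      (Nat.beq (Nat.land (Nat.lor (Nat.lor (xl CL W r1 E1 S1) (xl CL W r2 E2 S2))
        (xl CL W r3 E3 S3)) M1) (nat_lit 0)))
      (Nat.beq (Nat.land (Nat.land (Nat.land (xh (nat_lit 4096) CS N r1 t1 E1)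
        (xh (nat_lit 4096) CS N r2 t2 E2)) (xh (nat_lit 4096) CS N r3 t3 E3)) M1) M1))
      (rb b1 b2 b3 r1 r2 r3))
      (Nat.ble (nat_lit 1) r1))
      (Nat.ble (nat_lit 1) r2))
      (Nat.ble (nat_lit 1) r3))
      (Nat.ble (Nat.succ f) nF))
      (Nat.ble (Nat.succ a) n)))
    (WV a) (FV f) (xr S1) (xr S2) (xr S3) (xt S1) (xt S2) (xt S3))
    (Nat.land S (nat_lit 15)) (Nat.land (Nat.shiftRight S (nat_lit 4)) (nat_lit 511))
    (Nat.shiftRight S (nat_lit 13)) (Nat.shiftRight S (nat_lit 81)) (Nat.shiftRight S (nat_lit 149))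

/-- the type of the check of a cone without second vectors -/
abbrev DT : Type := Nat → Nat → Nat → Nat → Nat → Nat → Nat → (Nat → Bool) → Bool

/-- the power of two of the scale: at most `128` -/
noncomputable def pw (H : Nat) : Nat :=
  Nat.shiftLeft (nat_lit 1) (Nat.mod (Nat.shiftRight H (nat_lit 15)) (nat_lit 8))

/-- the corner lifts the point with the packed value `Cc` -/
noncomputable def uX (R CB C0 Cc W r s t E : Nat) : Nat :=
  Nat.add (Nat.add (Nat.add CB (Nat.mul (Nat.mul R (Nat.sub (nat_lit 4096) t)) C0))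
    (Nat.mul R (Nat.add Cc (Nat.mul s W)))) (Nat.mul (Nat.mul t r) E)

/-- three corners lift all points of the cell; for each point three pairs: 24 bits shift, 12 bits
weight -/
noncomputable def uL (M1 R CB C0 : Nat) (VC : Nat → Nat) (W r1 r2 r3 E1 E2 E3 : Nat) (k : Nat → Bool)
    (m : Nat) : Nat → Nat → Bool :=
  @Nat.rec (fun _ => Nat → Nat → Bool) (fun _ S => k S)
    (fun _ ih C S =>
      (@Bool.rec (fun _ => Bool) false (ih (Nat.shiftRight C (nat_lit 78)) (Nat.shiftRight S (nat_lit 108)))
      ((fun Cc => Nat.beq (Nat.land (Nat.land (Nat.land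
        (uX R CB C0 Cc W r1 (f24 S (nat_lit 0)) (f12 S (nat_lit 24)) E1)
        (uX R CB C0 Cc W r2 (f24 S (nat_lit 36)) (f12 S (nat_lit 60)) E2))
        (uX R CB C0 Cc W r3 (f24 S (nat_lit 72)) (f12 S (nat_lit 96)) E3)) M1) M1) (VC C)))) m

/-- everything beyond the corners is dead by a fact: 6 bits fact, 4 bits direction, shifts and
weights -/
noncomputable def wU (n M1 R CB C0 : Nat) (VC VP : Nat → Nat) (G : List UG) (r1 r2 r3 E1 E2 E3 S : Nat)
    (k : Nat → Bool) : Bool :=
  gG (fun m C W =>
    (@Bool.rec (fun _ => Bool) false (uL M1 R CB C0 VC (VP (pt W (f4 S (nat_lit 6)))) r1 r2 r3 E1 E2 E3 k m C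
      (Nat.shiftRight S (nat_lit 10)))
    (Nat.ble (Nat.succ (f4 S (nat_lit 6))) n))) G (f6 S (nat_lit 0))

/-- three corners are in a shadow -/
noncomputable def shd (M1 CS N r1 r2 r3 t1 t2 t3 E1 E2 E3 : Nat) (k : Bool) : Bool :=
  (@Bool.rec (fun _ => Bool) false k
    (Nat.beq (Nat.land (Nat.land (Nat.land (xh (nat_lit 4096) CS N r1 t1 E1)
      (xh (nat_lit 4096) CS N r2 t2 E2)) (xh (nat_lit 4096) CS N r3 t3 E3)) M1) M1))

/-- everything beyond the corners is dead by a shadow: 9 bits, three shifts -/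
noncomputable def wN (nF M1 CS : Nat) (FV : Nat → Nat) (r1 r2 r3 E1 E2 E3 S : Nat) (k : Nat → Bool) :
    Bool :=
  (@Bool.rec (fun _ => Bool) false (shd M1 CS (FV (Nat.land S (nat_lit 511))) r1 r2 r3 (f20 S (nat_lit 9))
      (f20 S (nat_lit 29)) (f20 S (nat_lit 49)) E1 E2 E3 (k (Nat.shiftRight S (nat_lit 69))))
    (Nat.ble (Nat.succ (Nat.land S (nat_lit 511))) nF))

/-- the hull of the origin and the corners is lit; 48 bits for a corner -/
noncomputable def ltr (M1 CL W b1 b2 b3 r1 r2 r3 E1 E2 E3 S1 S2 S3 : Nat) (k : Bool) : Bool :=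
  (@Bool.rec (fun _ => Bool) false (@Bool.rec (fun _ => Bool) false (@Bool.rec (fun _ => Bool) false (@Bool.rec (fun _ => Bool) false (@Bool.rec (fun _ => Bool) false k
    (Nat.beq (Nat.land (Nat.lor (Nat.lor (xl CL W r1 E1 S1) (xl CL W r2 E2 S2))
      (xl CL W r3 E3 S3)) M1) (nat_lit 0)))
    (rb b1 b2 b3 r1 r2 r3))
    (Nat.ble (nat_lit 1) r1))
    (Nat.ble (nat_lit 1) r2))
    (Nat.ble (nat_lit 1) r3))

/-- a layer which belongs to a child (only with the scale `R = 4096`): 6 bits child, three corners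
of 50 bits (shift of the shadow 20, outer radius 24, index 6) -/
noncomputable def ly (R M1 CS : Nat) (VV : Nat → Nat) (J : List KG) (b1 b2 b3 U1 U2 U3 E1 E2 E3 : Nat)
    (r1 r2 r3 S : Nat) (k : Nat → Nat → Nat → Nat → Bool) : Bool :=
  gK (fun y m C => (fun R1 R2 R3 =>
    (@Bool.rec (fun _ => Bool) false (@Bool.rec (fun _ => Bool) false (@Bool.rec (fun _ => Bool) false (@Bool.rec (fun _ => Bool) false (@Bool.rec (fun _ => Bool) false (@Bool.rec (fun _ => Bool) false (@Bool.rec (fun _ => Bool) false (shd M1 CS (Nat.mul R (VV y)) r1 r2 r3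
          (f20 S (nat_lit 6)) (f20 S (nat_lit 56)) (f20 S (nat_lit 106)) E1 E2 E3
          (k R1 R2 R3 (Nat.shiftRight S (nat_lit 156))))
        (TF.crn m C b1 U1 R1 (f6 S (nat_lit 50)))) (TF.crn m C b2 U2 R2 (f6 S (nat_lit 100))))
        (TF.crn m C b3 U3 R3 (f6 S (nat_lit 150))))
        (Nat.ble r1 R1)) (Nat.ble r2 R2)) (Nat.ble r3 R3)) (Nat.beq R (nat_lit 4096))))
    (f24 S (nat_lit 26)) (f24 S (nat_lit 76)) (f24 S (nat_lit 126))) J (f6 S (nat_lit 0))

/-- everything beyond the corners is dead or belongs to children: 2 bits kind (triple, shadow, fact,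
layer of a child) -/
noncomputable def wk (n nf nd nF M1 R CL CS CB C0 : Nat) (VV VC VP FV : Nat → Nat) (G : List UG)
    (J : List KG) (b1 b2 b3 U1 U2 U3 E1 E2 E3 : Nat) (k : Nat → Bool) (m : Nat) :
    Nat → Nat → Nat → Nat → Bool :=
  @Nat.rec (fun _ => Nat → Nat → Nat → Nat → Bool) (fun _ _ _ _ => false)
    (fun _ ih r1 r2 r3 S => @Nat.rec (fun _ => Bool)
      (wD nf nd CL r1 r2 r3 E1 E2 E3 (Nat.shiftRight S (nat_lit 2)) k)
      (fun t _ => @Nat.rec (fun _ => Bool)
        (wN nF M1 CS FV r1 r2 r3 E1 E2 E3 (Nat.shiftRight S (nat_lit 2)) k)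
        (fun t _ => @Nat.rec (fun _ => Bool)
          (wU n M1 R CB C0 VC VP G r1 r2 r3 E1 E2 E3 (Nat.shiftRight S (nat_lit 2)) k)
          (fun _ _ => ly R M1 CS VV J b1 b2 b3 U1 U2 U3 E1 E2 E3 r1 r2 r3
            (Nat.shiftRight S (nat_lit 2)) ih) t) t)
      (Nat.land S (nat_lit 3))) m

/-- a general terminal cone: 4 bits direction, three corners of 48 bits (radius 30, shift 18),
layers and witness -/
noncomputable def tG (n nf nd nF M1 R CL CS CB C0 : Nat) (VV VC VP : Nat → Nat) (WV FV : Nat → Nat)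
    (G : List UG) (J : List KG) (b1 b2 b3 U1 U2 U3 E1 E2 E3 S : Nat) (k : Nat → Bool) : Bool :=
  (fun a S1 S2 S3 => (fun r1 r2 r3 =>
    (@Bool.rec (fun _ => Bool) false (ltr M1 CL (WV a) b1 b2 b3 r1 r2 r3 E1 E2 E3 S1 S2 S3
      (wk n nf nd nF M1 R CL CS CB C0 VV VC VP FV G J b1 b2 b3 U1 U2 U3 E1 E2 E3 k (nat_lit 8)
        r1 r2 r3 (Nat.shiftRight S (nat_lit 148))))
      (Nat.ble (Nat.succ a) n)))
    (xr S1) (xr S2) (xr S3))
    (f4 S (nat_lit 0)) (Nat.shiftRight S (nat_lit 4)) (Nat.shiftRight S (nat_lit 52))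
    (Nat.shiftRight S (nat_lit 100))

/-- subdivision of an edge -/
noncomputable def spu (b1 b2 U1 U2 E1 E2 al be : Nat) (k : Nat → Nat → Nat → Bool) : Bool :=
  k (Nat.add (Nat.mul al b1) (Nat.mul be b2)) (Nat.add (Nat.mul al U1) (Nat.mul be U2))
    (Nat.add (Nat.mul al E1) (Nat.mul be E2))

/-- subdivision of the edge `e` (`0`, `1`, `2`), `x` otherwise -/
noncomputable def squ (ih : CT) (x : Nat → Bool) (e : Nat)
    (b1 b2 b3 U1 U2 U3 E1 E2 E3 al be S : Nat) (k : Nat → Bool) : Bool :=
  @Nat.rec (fun _ => Bool)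
    (spu b1 b2 U1 U2 E1 E2 al be (fun b U m => ih b1 b b3 U1 U U3 E1 m E3 S
      (fun S' => ih b b2 b3 U U2 U3 m E2 E3 S' k)))
    (fun t _ => @Nat.rec (fun _ => Bool)
      (spu b2 b3 U2 U3 E2 E3 al be (fun b U m => ih b1 b2 b U1 U2 U E1 E2 m S
        (fun S' => ih b1 b b3 U1 U U3 E1 m E3 S' k)))
      (fun t _ => @Nat.rec (fun _ => Bool)
        (spu b3 b1 U3 U1 E3 E1 al be (fun b U m => ih b1 b2 b U1 U2 U E1 E2 m S
          (fun S' => ih b b2 b3 U U2 U3 m E2 E3 S' k)))
        (fun t _ => x t) t) t) e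

/-- the tree of cones -/
noncomputable def gu (TD TX TN : DT) (TK : CT) (n : Nat) : CT :=
  @Nat.rec (fun _ => CT)
    (fun _ _ _ _ _ _ _ _ _ _ _ => false)
    (fun _ ih b1 b2 b3 U1 U2 U3 E1 E2 E3 S k =>
      @Nat.rec (fun _ => Bool)
        (TD b1 b2 b3 E1 E2 E3 (Nat.shiftRight S (nat_lit 3)) k)
        (fun t _ => @Nat.rec (fun _ => Bool)
          (TN b1 b2 b3 E1 E2 E3 (Nat.shiftRight S (nat_lit 3)) k)
          (fun t _ => @Nat.rec (fun _ => Bool)
            (@Nat.rec (fun _ => Bool)
              (TX b1 b2 b3 E1 E2 E3 (Nat.shiftRight S (nat_lit 5)) k)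
              (fun e _ => squ ih (fun _ => false) e b1 b2 b3 U1 U2 U3 E1 E2 E3
                (cs S (nat_lit 5) (nat_lit 2047))
                (cs S (nat_lit 16) (nat_lit 2047)) (Nat.shiftRight S (nat_lit 27)) k)
              (Nat.land (Nat.shiftRight S (nat_lit 3)) (nat_lit 3)))
            (fun e _ => squ ih
              (fun _ => TK b1 b2 b3 U1 U2 U3 E1 E2 E3 (Nat.shiftRight S (nat_lit 3)) k)
              e b1 b2 b3 U1 U2 U3 E1 E2 E3 (cs S (nat_lit 3) (nat_lit 15))
                (cs S (nat_lit 7) (nat_lit 15)) (Nat.shiftRight S (nat_lit 11)) k)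
            t) t)
        (Nat.land S (nat_lit 7)))
    n

/-- one octant -/
noncomputable def ou (TD TX TN : DT) (TK : CT) (U1 U2 U3 E1 E2 E3 S : Nat) : Bool :=
  gu TD TX TN TK (nat_lit 64) (nat_lit 1) (nat_lit 1) (nat_lit 1) U1 U2 U3 E1 E2 E3 S
    (fun _ => true)

/-- eight octants; the second vectors are the unit vectors in fields of 26 bits, modulo `2^78` -/
noncomputable def u8 (TD TX TN : DT) (TK : CT)
    (C1 C2 C3 D1 D2 D3 S0 S1 S2 S3 S4 S5 S6 S7 : Nat) : Bool :=
  (fun P1 P2 P3 M1 M2 M3 =>
    (@Bool.rec (fun _ => Bool) false (@Bool.rec (fun _ => Bool) false (@Bool.rec (fun _ => Bool) false (@Bool.rec (fun _ => Bool) false (@Bool.rec (fun _ => Bool) false (@Bool.rec (fun _ => Bool) false (@Bool.rec (fun _ => Bool) false (ou TD TX TN TK M1 M2 M3 D1 D2 D3 S7)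
    (ou TD TX TN TK P1 M2 M3 C1 D2 D3 S6))
    (ou TD TX TN TK M1 P2 M3 D1 C2 D3 S5))
    (ou TD TX TN TK P1 P2 M3 C1 C2 D3 S4))
    (ou TD TX TN TK M1 M2 P3 D1 D2 C3 S3))
    (ou TD TX TN TK P1 M2 P3 C1 D2 C3 S2))
    (ou TD TX TN TK M1 P2 P3 D1 C2 C3 S1))
    (ou TD TX TN TK P1 P2 P3 C1 C2 C3 S0)))
    (nat_lit 1) (nat_lit 67108864) (nat_lit 4503599627370496)
    (nat_lit 302231454903657293676543) (nat_lit 302231454903657226567680)
    (nat_lit 302231450400057666306048)

/-- the checks of a cover with the packed numbers -/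
noncomputable def k3 (n P nK nF nf nd FC DC TK TF W : Nat) (G : List UG) (J : List KG)
    (M1 BI C0 C1 C2 C3 D1 D2 D3 S0 S1 S2 S3 S4 S5 S6 S7 : Nat) : Bool :=
  (fun K0 KP K1 CC R CB => (fun VV CL CS =>
    (@Bool.rec (fun _ => Bool) false (@Bool.rec (fun _ => Bool) false (@Bool.rec (fun _ => Bool) false (@Bool.rec (fun _ => Bool) false (@Bool.rec (fun _ => Bool) false
      (u8 (fun b1 b2 b3 E1 E2 E3 => tD n nf nd M1 BI R C0 CL (fun a => Nat.mul P (VV (pt W a)))
          (nat_lit 32767) (nat_lit 25) (nat_lit 40) (nat_lit 55) b1 b2 b3 E1 E2 E3)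
        (fun b1 b2 b3 E1 E2 E3 => tD n nf nd M1 BI R C0 CL (fun a => Nat.mul P (VV (pt W a)))
          (nat_lit 262143) (nat_lit 28) (nat_lit 46) (nat_lit 64) b1 b2 b3 E1 E2 E3)
        (fun b1 b2 b3 E1 E2 E3 => tN n nF M1 CL CS (fun a => Nat.mul P (VV (pt W a)))
          (fun f => Nat.mul R (VV (pt TF f))) b1 b2 b3 E1 E2 E3)
        (fun b1 b2 b3 U1 U2 U3 E1 E2 E3 => tG n nf nd nF M1 R CL CS CB C0 VV
          (fun p => vc D1 D2 D3 K1 p) (fun p => vn C1 C2 C3 KP p)
          (fun a => Nat.mul P (VV (pt W a)))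
          (fun f => Nat.mul R (VV (pt TF f))) G J b1 b2 b3 U1 U2 U3 E1 E2 E3)
        C1 C2 C3 D1 D2 D3 S0 S1 S2 S3 S4 S5 S6 S7)
      (Nat.beq (Nat.land CC BI) BI))
      (fc FC nf nK (fun i => Nat.add CC (VV (pt TK i))) nf FC))
      (dc nK nd DC))
      (Nat.ble (nat_lit 1) nf))
      (Nat.ble (nat_lit 1) nK)))
    (fun p => vn D1 D2 D3 K0 p)
    (Nat.add BI (Nat.mul R
      (Nat.sub (Nat.shiftLeft (nat_lit 1) (Nat.mul (nat_lit 96) (Nat.add nf nd))) C0)))
    (Nat.add BI (Nat.mul (Nat.mul (nat_lit 4096) R) C0)))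
    (Nat.mul (nat_lit 32768) (Nat.add (Nat.add C1 C2) C3))
    (Nat.mul (nat_lit 32768) (Nat.add (Nat.add D1 D2) D3))
    (Nat.mul (nat_lit 33554432) (Nat.add (Nat.add C1 C2) C3))
    (Nat.add C0 (Nat.mul (nat_lit 39614081257132168796771975167) (on (Nat.add nf nd))))
    (Nat.mul (nat_lit 4096) P)
    (Nat.mul (nat_lit 39614081257132168796771975167) (on (Nat.add nf nd)))

/-- the packed numbers of a list of functionals -/
noncomputable def k2 (n P nK nF nf nd FC DC TK TF W : Nat) (G : List UG) (J : List KG)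
    (hs : List FD) (S0 S1 S2 S3 S4 S5 S6 S7 : Nat) : Bool :=
  (fun MM A1 A2 A3 B1 B2 B3 =>
    k3 n P nK nF nf nd FC DC TK TF W G J
      (Nat.mul (nat_lit 39614081257132168796771975168) (on nf))
      (Nat.mul (nat_lit 39614081257132168796771975168) (on (Nat.add nf nd))) (pf FD.c hs)
      (Nat.add A1 (Nat.sub MM B1)) (Nat.add A2 (Nat.sub MM B2)) (Nat.add A3 (Nat.sub MM B3))
      (Nat.add B1 (Nat.sub MM A1)) (Nat.add B2 (Nat.sub MM A2)) (Nat.add B3 (Nat.sub MM A3))
      S0 S1 S2 S3 S4 S5 S6 S7)
    (Nat.shiftLeft (nat_lit 1) (Nat.mul (nat_lit 96) (Nat.add nf nd)))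
    (pf FD.A1 hs) (pf FD.A2 hs) (pf FD.A3 hs) (pf FD.B1 hs) (pf FD.B2 hs) (pf FD.B3 hs)

/-- a cover with children `J` in a state with facts `G` -/
noncomputable def cu (n : Nat) (K F : List Nat) (G : List UG) (J : List KG)
    (H W S0 S1 S2 S3 S4 S5 S6 S7 : Nat) : Bool :=
  (fun nf nd TK => (fun FC DC =>
    k2 n (pw H) (ln K) (ln F) nf nd FC DC TK (tk F) W G J
      (ap (fl TK (nat_lit 0) (nat_lit 45) nf FC)
        (fl TK (nat_lit 17179869184) (nat_lit 21) nd DC)) S0 S1 S2 S3 S4 S5 S6 S7)
    (Nat.shiftRight H (nat_lit 18))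
    (Nat.shiftRight H (Nat.add (nat_lit 18) (Nat.mul (nat_lit 45) nf))))
    (Nat.land H (nat_lit 255)) (Nat.land (Nat.shiftRight H (nat_lit 8)) (nat_lit 127)) (tk K)

/-- the second list is a sublist of the first list -/
noncomputable def sb (m : List Nat) : List Nat → Bool :=
  @List.rec Nat (fun _ => List Nat → Bool)
    (fun l => @List.rec Nat (fun _ => Bool) true (fun _ _ _ => false) l)
    (fun b _ ih l => @List.rec Nat (fun _ => Bool) true
      (fun a l' _ => @Bool.rec (fun _ => Bool) (ih l) (ih l') (Nat.beq a b)) l) m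

end Pool.Agent.Lib.MP_5e7226_co.C8.TR

end

section

namespace Pool.Agent.Lib.MP_5e7226_co.C8.TP

open TF

/-- the type of the check of a cone: packed values of the three corners, data, the union for the
other cones -/
abbrev DT : Type := Nat → Nat → Nat → Nat → (Nat → Nat) → Nat

/-- the corner beyond the functional at the position `H` -/
noncomputable def rx (RC CL H E : Nat) : Nat :=
  Nat.add CL (Nat.mul (Nat.succ (Nat.div
    (Nat.land (Nat.shiftRight RC H) (nat_lit 79228162514264337593543950335))
    (Nat.land (Nat.shiftRight E H) (nat_lit 79228162514264337593543950335)))) E)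

/-- the union for a cone with a triple: the corners `X1`, `X2`, `X3` are lit and beyond the
functional at the position `H` -/
noncomputable def d2 (X1 X2 X3 W H s1 s2 s3 k : Nat) : Nat :=
  Nat.lor (Nat.lor (Nat.lor (Nat.lor (Nat.add X1 (Nat.mul s1 W)) (Nat.add X2 (Nat.mul s2 W)))
      (Nat.add X3 (Nat.mul s3 W)))
    (Nat.xor (Nat.land (Nat.shiftRight (Nat.land (Nat.land X1 X2) X3) H)
        (nat_lit 39614081257132168796771975168)) (nat_lit 39614081257132168796771975168))) k

/-- a cone with a triple -/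
noncomputable def d1 (RC CL W H E1 E2 E3 s1 s2 s3 k : Nat) : Nat :=
  d2 (rx RC CL H E1) (rx RC CL H E2) (rx RC CL H E3) W H s1 s2 s3 k

/-- a terminal cone, triple: 2 bits kind, 5 bits triple, three shifts of 9 bits (times 8), 4 bits
direction -/
noncomputable def tD (HF GM RC CL WT MK E1 E2 E3 S : Nat) (k : Nat → Nat) : Nat :=
  d1 RC CL (Nat.land (Nat.shiftRight WT (Nat.land (Nat.shiftRight S (nat_lit 22)) (nat_lit 61440)))
      MK)
    (Nat.add HF (Nat.mul (nat_lit 96) (Nat.land (Nat.shiftRight S (nat_lit 2)) GM)))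
    E1 E2 E3 (Nat.land (Nat.shiftRight S (nat_lit 4)) (nat_lit 4088))
    (Nat.land (Nat.shiftRight S (nat_lit 13)) (nat_lit 4088))
    (Nat.land (Nat.shiftRight S (nat_lit 22)) (nat_lit 4088)) (k (Nat.shiftRight S (nat_lit 38)))

/-- a terminal cone, triple, long: 6 bits kind, 7 bits triple, three times radius minus one
(30 bits) and shift (18 bits), 4 bits direction -/
noncomputable def tE (HF GM CL WT MK E1 E2 E3 S : Nat) (k : Nat → Nat) : Nat :=
  d2 (Nat.add CL (Nat.mul (Nat.succ (Nat.land (Nat.shiftRight S (nat_lit 13))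
      (nat_lit 1073741823))) E1))
    (Nat.add CL (Nat.mul (Nat.succ (Nat.land (Nat.shiftRight S (nat_lit 61))
      (nat_lit 1073741823))) E2))
    (Nat.add CL (Nat.mul (Nat.succ (Nat.land (Nat.shiftRight S (nat_lit 109))
      (nat_lit 1073741823))) E3))
    (Nat.land (Nat.shiftRight WT (Nat.land (Nat.shiftRight S (nat_lit 145)) (nat_lit 61440))) MK)
    (Nat.add HF (Nat.mul (nat_lit 96) (Nat.land (Nat.shiftRight S (nat_lit 6)) GM)))
    (Nat.land (Nat.shiftRight S (nat_lit 43)) (nat_lit 262143))
    (Nat.land (Nat.shiftRight S (nat_lit 91)) (nat_lit 262143))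
    (Nat.land (Nat.shiftRight S (nat_lit 139)) (nat_lit 262143)) (k (Nat.shiftRight S (nat_lit 161)))

/-- the union for a cone with a shadow: `A` are the values for the outer point, `P1`, `P2`, `P3` are
the corners -/
noncomputable def n2 (M1 CL NC W A P1 P2 P3 l1 l2 l3 s1 s2 s3 k : Nat) : Nat :=
  Nat.lor (Nat.lor (Nat.lor (Nat.lor (Nat.add (Nat.add CL P1) (Nat.mul s1 W))
      (Nat.add (Nat.add CL P2) (Nat.mul s2 W))) (Nat.add (Nat.add CL P3) (Nat.mul s3 W)))
    (Nat.xor (Nat.land (Nat.land (Nat.land (Nat.add A (Nat.mul l1 (Nat.add NC P1)))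
      (Nat.add A (Nat.mul l2 (Nat.add NC P2)))) (Nat.add A (Nat.mul l3 (Nat.add NC P3)))) M1)
      M1)) k

/-- a terminal cone, shadow: 2 bits kind; weight (10 bits), outer point (6 bits), radius (19 bits,
times 16), shift (9 bits, times 8); weight, radius, shift; weight, radius, shift; 4 bits
direction -/
noncomputable def tN (NM M1 CL NC A0 WT FT MK E1 E2 E3 S : Nat) (k : Nat → Nat) : Nat :=
  n2 M1 CL NC (Nat.land (Nat.shiftRight WT (Nat.land (Nat.shiftRight S (nat_lit 110))
      (nat_lit 61440))) MK)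
    (Nat.add A0 (Nat.land (Nat.shiftRight FT (Nat.land S NM)) MK))
    (Nat.mul (Nat.land (Nat.shiftRight S (nat_lit 14)) (nat_lit 8388592)) E1)
    (Nat.mul (Nat.land (Nat.shiftRight S (nat_lit 52)) (nat_lit 8388592)) E2)
    (Nat.mul (Nat.land (Nat.shiftRight S (nat_lit 90)) (nat_lit 8388592)) E3)
    (Nat.land (Nat.shiftRight S (nat_lit 2)) (nat_lit 1023))
    (Nat.land (Nat.shiftRight S (nat_lit 46)) (nat_lit 1023))
    (Nat.land (Nat.shiftRight S (nat_lit 84)) (nat_lit 1023))
    (Nat.land (Nat.shiftRight S (nat_lit 34)) (nat_lit 4088))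
    (Nat.land (Nat.shiftRight S (nat_lit 72)) (nat_lit 4088))
    (Nat.land (Nat.shiftRight S (nat_lit 110)) (nat_lit 4088))
    (k (Nat.shiftRight S (nat_lit 126)))

/-- a terminal cone, shadow, long: 6 bits kind; weight (18 bits), outer point (6 bits), radius
(30 bits), shift (18 bits); weight, radius, shift; weight, radius, shift; 4 bits
direction -/
noncomputable def tM (NM M1 CL NC A1 WT FT MK E1 E2 E3 S : Nat) (k : Nat → Nat) : Nat :=
  n2 M1 CL NC (Nat.land (Nat.shiftRight WT (Nat.land (Nat.shiftRight S (nat_lit 198))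
      (nat_lit 61440))) MK)
    (Nat.add A1 (Nat.mul (nat_lit 256)
      (Nat.land (Nat.shiftRight FT (Nat.land (Nat.shiftRight S (nat_lit 12)) NM)) MK)))
    (Nat.mul (Nat.land (Nat.shiftRight S (nat_lit 30)) (nat_lit 1073741823)) E1)
    (Nat.mul (Nat.land (Nat.shiftRight S (nat_lit 96)) (nat_lit 1073741823)) E2)
    (Nat.mul (Nat.land (Nat.shiftRight S (nat_lit 162)) (nat_lit 1073741823)) E3)
    (Nat.land (Nat.shiftRight S (nat_lit 6)) (nat_lit 262143))
    (Nat.land (Nat.shiftRight S (nat_lit 78)) (nat_lit 262143))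
    (Nat.land (Nat.shiftRight S (nat_lit 144)) (nat_lit 262143))
    (Nat.land (Nat.shiftRight S (nat_lit 60)) (nat_lit 262143))
    (Nat.land (Nat.shiftRight S (nat_lit 126)) (nat_lit 262143))
    (Nat.land (Nat.shiftRight S (nat_lit 192)) (nat_lit 262143))
    (k (Nat.shiftRight S (nat_lit 214)))

/-- a terminal cone: kind in bit 1 -/
noncomputable def te (TD TN : DT) (E1 E2 E3 S : Nat) (k : Nat → Nat) : Nat :=
  @Nat.rec (fun _ => Nat) (TD E1 E2 E3 S k) (fun _ _ => TN E1 E2 E3 S k)
    (Nat.land S (nat_lit 2))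

/-- a long terminal cone: kind in bit 5 -/
noncomputable def tl (TE TM : DT) (E1 E2 E3 S : Nat) (k : Nat → Nat) : Nat :=
  @Nat.rec (fun _ => Nat) (TE E1 E2 E3 S k) (fun _ _ => TM E1 E2 E3 S k)
    (Nat.land S (nat_lit 32))

/-- the new corner, 3 bits for each coefficient -/
noncomputable def mm (A B S : Nat) : Nat :=
  Nat.add (Nat.mul (Nat.succ (Nat.land (Nat.shiftRight S (nat_lit 3)) (nat_lit 7))) A)
    (Nat.mul (Nat.succ (Nat.land (Nat.shiftRight S (nat_lit 6)) (nat_lit 7))) B)

/-- the new corner, 11 bits for each coefficient -/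
noncomputable def mw (A B S : Nat) : Nat :=
  Nat.add (Nat.mul (Nat.succ (Nat.land (Nat.shiftRight S (nat_lit 5)) (nat_lit 2047))) A)
    (Nat.mul (Nat.succ (Nat.land (Nat.shiftRight S (nat_lit 16)) (nat_lit 2047))) B)

/-- a cone: terminal or subdivision -/
noncomputable def nd (X ih : DT) (E1 E2 E3 S : Nat) (k : Nat → Nat) : Nat :=
  @Nat.rec (fun _ => Nat) (X E1 E2 E3 S k) (fun _ _ => ih E1 E2 E3 S k) (Nat.land S (nat_lit 1))

/-- the two parts, first edge -/
noncomputable def qa (N : DT) (E1 E2 E3 m S : Nat) (k : Nat → Nat) : Nat :=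
  N E1 m E3 S (fun S' => N m E2 E3 S' k)

/-- the two parts, second edge -/
noncomputable def qb (N : DT) (E1 E2 E3 m S : Nat) (k : Nat → Nat) : Nat :=
  N E1 E2 m S (fun S' => N E1 m E3 S' k)

/-- the two parts, third edge -/
noncomputable def qc (N : DT) (E1 E2 E3 m S : Nat) (k : Nat → Nat) : Nat :=
  N E1 E2 m S (fun S' => N m E2 E3 S' k)

/-- long subdivision or long terminal cone: 2 bits edge (3: terminal), 11 bits for each
coefficient -/
noncomputable def sw (Y N : DT) (E1 E2 E3 S : Nat) (k : Nat → Nat) : Nat :=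
  @Nat.rec (fun _ => Nat) (qa N E1 E2 E3 (mw E1 E2 S) (Nat.shiftRight S (nat_lit 27)) k)
    (fun t _ => @Nat.rec (fun _ => Nat)
      (qb N E1 E2 E3 (mw E2 E3 S) (Nat.shiftRight S (nat_lit 27)) k)
      (fun t _ => @Nat.rec (fun _ => Nat)
        (qc N E1 E2 E3 (mw E3 E1 S) (Nat.shiftRight S (nat_lit 27)) k)
        (fun _ _ => Y E1 E2 E3 S k) t) t)
    (Nat.land (Nat.shiftRight S (nat_lit 3)) (nat_lit 3))

/-- subdivision: 2 bits edge (3: long), 3 bits for each coefficient -/
noncomputable def sp (Y N : DT) (E1 E2 E3 S : Nat) (k : Nat → Nat) : Nat :=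
  @Nat.rec (fun _ => Nat) (qa N E1 E2 E3 (mm E1 E2 S) (Nat.shiftRight S (nat_lit 9)) k)
    (fun t _ => @Nat.rec (fun _ => Nat)
      (qb N E1 E2 E3 (mm E2 E3 S) (Nat.shiftRight S (nat_lit 9)) k)
      (fun t _ => @Nat.rec (fun _ => Nat)
        (qc N E1 E2 E3 (mm E3 E1 S) (Nat.shiftRight S (nat_lit 9)) k)
        (fun _ _ => sw Y N E1 E2 E3 S k) t) t)
    (Nat.land (Nat.shiftRight S (nat_lit 1)) (nat_lit 3))

/-- the tree of cones; the value `BA` is for the end of the recursion -/
noncomputable def gc (X Y : DT) (BA n : Nat) : DT :=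
  @Nat.rec (fun _ => DT) (fun _ _ _ _ _ => BA) (fun _ ih => sp Y (nd X ih)) n

/-- one octant -/
noncomputable def oc (X Y : DT) (BA E1 E2 E3 S : Nat) : Nat :=
  nd X (gc X Y BA (nat_lit 64)) E1 E2 E3 S (fun _ => (nat_lit 0))

/-- eight octants -/
noncomputable def o8 (O : Nat → Nat → Nat → Nat → Nat) (C1 C2 C3 D1 D2 D3 S0 S1 S2 S3 S4 S5 S6 S7 : Nat) : Nat :=
  Nat.lor (Nat.lor (Nat.lor (Nat.lor (Nat.lor (Nat.lor (Nat.lor (O C1 C2 C3 S0)
    (O D1 C2 C3 S1)) (O C1 D2 C3 S2)) (O D1 D2 C3 S3)) (O C1 C2 D3 S4)) (O D1 C2 D3 S5))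
    (O C1 D2 D3 S6)) (O D1 D2 D3 S7)

/-- the mask and the bound of the union -/
noncomputable def fin (M1 BA L : Nat) : Bool :=
  (@Bool.rec (fun _ => Bool) false (Nat.beq (Nat.land L M1) (nat_lit 0)) (Nat.ble (Nat.succ L) BA))

/-- table of the values `VV` of the points, 4096 bits for an entry; `f` gives the next point -/
noncomputable def tb (VV f : Nat → Nat) (w MK n : Nat) : Nat → Nat :=
  @Nat.rec (fun _ => Nat → Nat) (fun _ => (nat_lit 0))
    (fun _ ih S => Nat.add (Nat.shiftLeft (ih (Nat.shiftRight S w)) (nat_lit 4096))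
      (Nat.land (VV (f S)) MK)) n

/-- the indices of the outer points are smaller than `nF` -/
noncomputable def uc (nF n : Nat) : Nat → Bool :=
  @Nat.rec (fun _ => Nat → Bool) (fun _ => true)
    (fun _ ih S => (@Bool.rec (fun _ => Bool) false (ih (Nat.shiftRight S (nat_lit 9)))
      (Nat.ble (Nat.succ (Nat.land S (nat_lit 511))) nF))) n

/-- the checks of a leaf with all numbers -/
noncomputable def l4 (nK nF nf nd' nu FC DC UF TK M1 BI CC BA HF GM RC CL NC A0 A1 NM WT FT MK
    C1 C2 C3 D1 D2 D3 S0 S1 S2 S3 S4 S5 S6 S7 : Nat) (VV : Nat → Nat) : Bool :=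
  (@Bool.rec (fun _ => Bool) false (@Bool.rec (fun _ => Bool) false (@Bool.rec (fun _ => Bool) false (@Bool.rec (fun _ => Bool) false (@Bool.rec (fun _ => Bool) false (@Bool.rec (fun _ => Bool) false (@Bool.rec (fun _ => Bool) false (@Bool.rec (fun _ => Bool) false (@Bool.rec (fun _ => Bool) false
    (fin M1 BA (o8 (oc (te (tD HF GM RC CL WT MK) (tN NM M1 CL NC A0 WT FT MK))
        (tl (tE HF GM CL WT MK) (tM NM M1 CL NC A1 WT FT MK)) BA)
      C1 C2 C3 D1 D2 D3 S0 S1 S2 S3 S4 S5 S6 S7))
    (uc nF nu UF))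
    (Nat.beq (Nat.land CC BI) BI))
    (fc FC nf nK (fun i => Nat.add CC (VV (pt TK i))) nf FC))
    (dc nK nd' DC))
    (Nat.ble (nat_lit 1) nu))
    (Nat.ble (nat_lit 1) nd'))
    (Nat.ble nf (nat_lit 42)))
    (Nat.ble (nat_lit 1) nf))
    (Nat.ble (nat_lit 1) nK))

/-- the checks of a leaf with the packed numbers -/
noncomputable def l3 (n P nK nF nf nd' nu FC DC UF TK TF W M1 BI MM C0 C1 C2 C3 D1 D2 D3
    S0 S1 S2 S3 S4 S5 S6 S7 : Nat) : Bool :=
  (fun K0 R => (fun MK TT => l4 nK nF nf nd' nu FC DC UF TK M1 BI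
      (Nat.add C0 (Nat.mul (nat_lit 39614081257132168796771975167) (on (Nat.add nf nd'))))
      (Nat.shiftLeft TT (nat_lit 32)) (Nat.mul (nat_lit 96) nf)
      (Nat.sub nd' (nat_lit 1)) (Nat.mul R C0)
      (Nat.add BI (Nat.mul R (Nat.sub MM C0))) (Nat.mul R (Nat.sub MM C0))
      (Nat.add BI (Nat.mul (Nat.mul (nat_lit 1024) R) C0))
      (Nat.add BI (Nat.mul (Nat.mul (nat_lit 262144) R) C0))
      (Nat.shiftLeft (Nat.sub nu (nat_lit 1)) (nat_lit 12))
      (tb (fun p => Nat.mul P (vn D1 D2 D3 K0 p)) (fun S => Nat.land S (nat_lit 281474976710655))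
        (nat_lit 48) MK n W)
      (tb (fun p => Nat.mul (Nat.mul (nat_lit 1024) R) (vn D1 D2 D3 K0 p))
        (fun S => pt TF (Nat.land S (nat_lit 511))) (nat_lit 9) MK nu UF)
      MK (Nat.add TT C1) (Nat.add TT C2) (Nat.add TT C3) (Nat.add TT D1) (Nat.add TT D2)
      (Nat.add TT D3) S0 S1 S2 S3 S4 S5 S6 S7 (vn D1 D2 D3 K0))
    (Nat.sub (Nat.shiftLeft (nat_lit 1) (Nat.mul (nat_lit 96) nf)) (nat_lit 1))
    (Nat.shiftLeft MM (nat_lit 32)))
    (Nat.mul (nat_lit 32768) (Nat.add (Nat.add C1 C2) C3))
    (Nat.mul (nat_lit 4096) P)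

/-- the packed numbers of a list of functionals -/
noncomputable def l2 (n P nK nF nf nd' nu FC DC UF TK TF W : Nat) (hs : List FD)
    (S0 S1 S2 S3 S4 S5 S6 S7 : Nat) : Bool :=
  (fun MM A1 A2 A3 B1 B2 B3 =>
    l3 n P nK nF nf nd' nu FC DC UF TK TF W
      (Nat.mul (nat_lit 39614081257132168796771975168) (on nf))
      (Nat.mul (nat_lit 39614081257132168796771975168) (on (Nat.add nf nd'))) MM (pf FD.c hs)
      (Nat.add A1 (Nat.sub MM B1)) (Nat.add A2 (Nat.sub MM B2)) (Nat.add A3 (Nat.sub MM B3))
      (Nat.add B1 (Nat.sub MM A1)) (Nat.add B2 (Nat.sub MM A2)) (Nat.add B3 (Nat.sub MM A3))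
      S0 S1 S2 S3 S4 S5 S6 S7)
    (Nat.shiftLeft (nat_lit 1) (Nat.mul (nat_lit 96) (Nat.add nf nd')))
    (pf FD.A1 hs) (pf FD.A2 hs) (pf FD.A3 hs) (pf FD.B1 hs) (pf FD.B2 hs) (pf FD.B3 hs)

/-- a leaf: `H` has the number of facets (8 bits), the number of triples (7 bits), the scale
(3 bits), the number of outer points (7 bits), the facets, the triples and the indices of the outer
points (9 bits each) -/
noncomputable def lf (n : Nat) (K F : List Nat) (H W S0 S1 S2 S3 S4 S5 S6 S7 : Nat) : Bool :=
  (fun nf nd' nu TK => (fun FC DC UF =>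
    l2 n (TR.pw H) (ln K) (ln F) nf nd' nu FC DC UF TK (tk F) W
      (ap (fl TK (nat_lit 0) (nat_lit 45) nf FC)
        (fl TK (nat_lit 17179869184) (nat_lit 21) nd' DC)) S0 S1 S2 S3 S4 S5 S6 S7)
    (Nat.shiftRight H (nat_lit 25))
    (Nat.shiftRight H (Nat.add (nat_lit 25) (Nat.mul (nat_lit 45) nf)))
    (Nat.shiftRight H (Nat.add (Nat.add (nat_lit 25) (Nat.mul (nat_lit 45) nf))
      (Nat.mul (nat_lit 21) nd'))))
    (Nat.land H (nat_lit 255)) (Nat.land (Nat.shiftRight H (nat_lit 8)) (nat_lit 127))
    (Nat.land (Nat.shiftRight H (nat_lit 18)) (nat_lit 127)) (tk K)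

end Pool.Agent.Lib.MP_5e7226_co.C8.TP

end

section

namespace Pool.Agent.Lib.MP_5e7226_co.C8.TM

open TF TP

/-- a list of vertices with four numbers -/
inductive Fr
  | e
  | c (R A B D : Nat) (t : Fr)

/-- the type of the test of a triangle: numbers of the three vertices, state, rest -/
abbrev RT (U : Type) : Type := Nat → Nat → Nat → Nat → Nat → Nat → Nat → Nat → Nat → Nat → Nat → Nat → U → (U → Bool) → Bool

/-- the type of the front: left part, focus, right part, vertices, steps, state -/
abbrev FT (U : Type) : Type := Fr → Nat → Nat → Nat → Nat → Fr → Fr → Nat → U → Bool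

/-- close: the triangle of the focus and its neighbours -/
noncomputable def o0 (U : Type) (tr : RT U) (ih : FT U) (l : Fr) (R A B D : Nat) (r Q : Fr) (S : Nat)
    (u : U) : Bool :=
  @Fr.rec (fun _ => Bool) false
    (fun R1 A1 B1 D1 l' _ => @Fr.rec (fun _ => Bool) false
      (fun R2 A2 B2 D2 _ _ => tr R1 A1 B1 D1 R A B D R2 A2 B2 D2 u (ih l' R1 A1 B1 D1 r Q S)) r) l

/-- the triangle of the focus, its right neighbour and a new vertex -/
noncomputable def o1 (U : Type) (tr : RT U) (ih : FT U) (l : Fr) (R A B D : Nat) (r Q : Fr) (S : Nat)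
    (u : U) : Bool :=
  @Fr.rec (fun _ => Bool) false
    (fun R2 A2 B2 D2 _ _ => @Fr.rec (fun _ => Bool) false
      (fun R3 A3 B3 D3 Q' _ => tr R A B D R2 A2 B2 D2 R3 A3 B3 D3 u
        (ih l R A B D (Fr.c R3 A3 B3 D3 r) Q' S)) Q) r

/-- the focus moves to the right -/
noncomputable def o2 (U : Type) (ih : FT U) (l : Fr) (R A B D : Nat) (r Q : Fr) (S : Nat) (u : U) :
    Bool :=
  @Fr.rec (fun _ => Bool) false
    (fun R1 A1 B1 D1 t _ => ih (Fr.c R A B D l) R1 A1 B1 D1 t Q S u) r

/-- the focus moves to the left -/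
noncomputable def o3 (U : Type) (ih : FT U) (l : Fr) (R A B D : Nat) (r Q : Fr) (S : Nat) (u : U) :
    Bool :=
  @Fr.rec (fun _ => Bool) false
    (fun R1 A1 B1 D1 t _ => ih t R1 A1 B1 D1 (Fr.c R A B D r) Q S u) l

/-- the choice of the step -/
noncomputable def ds (U : Type) (tr : RT U) (x : Nat) : FT U → FT U :=
  @Nat.rec (fun _ => FT U → FT U) (o0 U tr) (fun x _ => @Nat.rec (fun _ => FT U → FT U) (o1 U tr)
    (fun x _ => @Nat.rec (fun _ => FT U → FT U) (o2 U) (fun _ _ => o3 U) x) x) x

/-- the end: the front has two vertices -/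
noncomputable def oe (U : Type) (k : U → Bool) (l : Fr) (_ _ _ _ : Nat) (r _ : Fr) (_ : Nat) (u : U) :
    Bool :=
  @Fr.rec (fun _ => Bool) (@Fr.rec (fun _ => Bool) false
    (fun _ _ _ _ t _ => @Fr.rec (fun _ => Bool) (k u) (fun _ _ _ _ _ _ => false) t) r)
    (fun _ _ _ _ _ _ => false) l

/-- the steps of the front, 2 bits each; `k` is the rest -/
noncomputable def fr (U : Type) (tr : RT U) (k : U → Bool) (n : Nat) : FT U :=
  @Nat.rec (fun _ => FT U) (oe U k) (fun _ ih l R A B D r Q S u =>
    ds U tr (Nat.land S (nat_lit 3)) ih l R A B D r Q (Nat.shiftRight S (nat_lit 2)) u) n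

/-- the first triangle and the front, `n` steps -/
noncomputable def f0 (U : Type) (tr : RT U) (k : U → Bool) (n S : Nat) (Q : Fr) (u : U) : Bool :=
  @Fr.rec (fun _ => Bool) false (fun R1 A1 B1 D1 Q _ =>
    @Fr.rec (fun _ => Bool) false (fun R2 A2 B2 D2 Q _ =>
      @Fr.rec (fun _ => Bool) false (fun R3 A3 B3 D3 Q _ =>
        tr R1 A1 B1 D1 R2 A2 B2 D2 R3 A3 B3 D3 u
          (fr U tr k n (Fr.c R3 A3 B3 D3 Fr.e) R2 A2 B2 D2 (Fr.c R1 A1 B1 D1 Fr.e) Q S)) Q) Q) Q

/-- the state of the functionals: number, packed offsets, packed coefficients (increased by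
`2^63`) -/
inductive Ac
  | mk (n C0 C1 C2 C3 : Nat)

/-- first form of a point -/
noncomputable def fA (p : Nat) : Nat :=
  Nat.add (ox p) (Nat.add (Nat.shiftLeft (oy p) (nat_lit 64)) (Nat.shiftLeft (oz p) (nat_lit 128)))

/-- second form of a point -/
noncomputable def fB (p : Nat) : Nat :=
  Nat.add (Nat.mul (ox p) (nat_lit 2135987035920910082395021706169552114602704522356652769947041607822219725780640550022962086936575))
    (Nat.add (Nat.mul (oy p) (nat_lit 247330401473104534060502521019647190035131349101211839914063056092897225106531867170316401061243044989597671426016139339351365034306750869685179234163429722988743414090039296))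
      (Nat.mul (oz p) (nat_lit 247330401473104534060502521019647190034404510376916233023513732285009220572178225809629083000961554790417032137902747693126909370273751480196206841162043092338516634554597376)))

/-- third form of a point -/
noncomputable def fD (p : Nat) : Nat :=
  Nat.add (Nat.add (Nat.shiftLeft (oy p) (nat_lit 64)) (Nat.shiftLeft (ox p) (nat_lit 256)))
    (Nat.add (Nat.shiftLeft (oz p) (nat_lit 448)) (nat_lit 247330401473104534060502521019647166218080031382765250393820519218764643406411760168278201753577923058281101434553413749958329881166284057377528158526224066173675859074875392))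

/-- digit at the position `s` -/
noncomputable def dg (X s : Nat) : Nat := Nat.land (Nat.shiftRight (Nat.add X (nat_lit 123665200736552267036955164474794893567716106411856646466065573863787008748911742500930773837742836359323028663637210768190467196168531262328877407334845256874104247751278592)) s)
  (nat_lit 18446744073709551615)

/-- a new functional with the offset `c` -/
noncomputable def f2 (X c : Nat) (u : Ac) (K : Ac → Bool) : Bool :=
  @Nat.rec (fun _ => Bool) false (fun _ _ => @Ac.rec (fun _ => Bool)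
    (fun n C0 C1 C2 C3 => K (Ac.mk (Nat.succ n) (Nat.add (Nat.shiftLeft C0 (nat_lit 96)) c)
      (Nat.add (Nat.shiftLeft C1 (nat_lit 96)) (dg X (nat_lit 256)))
      (Nat.add (Nat.shiftLeft C2 (nat_lit 96)) (dg X (nat_lit 448)))
      (Nat.add (Nat.shiftLeft C3 (nat_lit 96)) (dg X (nat_lit 64))))) u) c

/-- the functional of three points given by forms, the offset is increased by `k` -/
noncomputable def fn (k A1 B1 D1 A2 B3 : Nat) (u : Ac) (K : Ac → Bool) : Bool :=
  (fun X => f2 X (Nat.sub (Nat.add k (dg (Nat.mul X D1) (nat_lit 512)))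
      (nat_lit 9223372036854775808)) u K)
    (Nat.mul (Nat.add A2 (Nat.sub (nat_lit 247330401473104534060502521019647190035131349101211839914063056092897225106531867170316401061243044989597671426016139339351365034306751209967546155101893167916606772148699136) A1)) (Nat.add B3 (Nat.sub (nat_lit 4149515568880992958512407863691161151012446232242436899995657329690652811412908146399707048947103794288197886611300789182395151075411775307886874834113963687061181803401509523685376) B1)))

/-- the test of a triangle of the hull -/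
noncomputable def ht (_ A1 B1 D1 _ A2 _ _ _ _ B3 _ : Nat) (u : Ac) (K : Ac → Bool) : Bool :=
  fn (nat_lit 0) A1 B1 D1 A2 B3 u K

/-- the functional of a triple of points, the offset is increased -/
noncomputable def d3 (p q r : Nat) (u : Ac) (K : Ac → Bool) : Bool :=
  @Nat.rec (fun _ => Bool) false
    (fun _ _ => fn (nat_lit 17179869184) (fA p) (fB p) (fD p) (fA q) (fB r) u K)
    (Nat.mul (Nat.mul p q) r)

/-- the triples, 21 bits each -/
noncomputable def dl (TK n : Nat) : Nat → Ac → (Ac → Bool) → Bool :=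
  @Nat.rec (fun _ => Nat → Ac → (Ac → Bool) → Bool) (fun _ u K => K u)
    (fun _ ih S u K => d3 (pt TK (i7 S (nat_lit 0))) (pt TK (i7 S (nat_lit 7)))
      (pt TK (i7 S (nat_lit 14))) u (fun u => ih (Nat.shiftRight S (nat_lit 21)) u K)) n

/-- the vertices of the hull, 7 bits each -/
noncomputable def hv (TK n : Nat) : Nat → Fr → (Fr → Bool) → Bool :=
  @Nat.rec (fun _ => Nat → Fr → (Fr → Bool) → Bool) (fun _ Q K => K Q)
    (fun _ ih S Q K => (fun p => @Nat.rec (fun _ => Bool) false
      (fun _ _ => ih (Nat.shiftRight S (nat_lit 7)) (Fr.c p (fA p) (fB p) (fD p) Q) K) p)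
      (pt TK (i7 S (nat_lit 0)))) n

/-- the test of the labels -/
noncomputable def lb (M : Nat) : Nat :=
  Nat.mul (Nat.land M (nat_lit 255)) (Nat.shiftRight M (nat_lit 8))

/-- the test of a triangle of the surface: common labels; the bit 575 of the union stays clear for
a positive orientation -/
noncomputable def mt (R1 A1 _ _ R2 _ B2 _ R3 _ _ D3 u : Nat) (K : Nat → Bool) : Bool :=
  @Nat.rec (fun _ => Bool) false
    (fun _ _ => K (Nat.lor u (Nat.add (Nat.mul (Nat.mul A1 B2) D3) (nat_lit 247330401473104534053798617054675891485707755964256720295617736089643227924454114642367210338290811877319990078478377010176117855135420816458896602073845270885973984819544064))))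
    (lb (Nat.land (Nat.land R1 R2) R3))

/-- the type of the reader of vertices: union, stream, vertices, rest -/
abbrev VT : Type := Nat → Nat → Fr → (Nat → Fr → Bool) → Bool

/-- the type of the reader of labels -/
abbrev LT : Type := Nat → Nat → Nat → Nat → Nat → Nat → Fr → VT → (Nat → Fr → Bool) → Bool

/-- a table as a function: `n` entries `f S` with the shift `w` and a last one -/
noncomputable def ch (f : Nat → Nat) (w n : Nat) : Nat → ((Nat → Nat) → Bool) → Bool :=
  @Nat.rec (fun _ => Nat → ((Nat → Nat) → Bool) → Bool) (fun S K => K (fun _ => f S))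
    (fun _ ih S K => ih (Nat.shiftRight S w)
      (fun g => K (fun a => @Nat.rec (fun _ => Nat) (f S) (fun b _ => g b) a))) n

/-- the indices of the outer points belong to points -/
noncomputable def ux (TF n : Nat) : Nat → Bool :=
  @Nat.rec (fun _ => Nat → Bool) (fun _ => true)
    (fun _ ih S => @Nat.rec (fun _ => Bool) false (fun _ _ => ih (Nat.shiftRight S (nat_lit 9)))
      (pt TF (Nat.land S (nat_lit 511)))) n

/-- the dead labels of a vertex: 5 bits outer point, weight with the mask `m` -/
noncomputable def ni (FV : Nat → Nat) (M1 m w5 n : Nat) : LT :=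
  @Nat.rec (fun _ => LT) (fun _ _ Y R U V Q ih k => ih U V (Fr.c R
      (Nat.land Y (nat_lit 4562440617622195218641171605700291324893228507248559930579192517899275167208677386505912811317371399778642309573594407310688704721375437998252661319722214188251994674360264950082874192246603775)) (Nat.land (Nat.shiftRight Y (nat_lit 640)) (nat_lit 4562440617622195218641171605700291324893228507248559930579192517899275167208677386505912811317371399778642309573594407310688704721375437998252661319722214188251994674360264950082874192246603775))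
      (Nat.shiftRight Y (nat_lit 1280)) Q) k)
    (fun _ ni X Z Y R U V Q ih k => ni X Z Y
      (Nat.lor R (Nat.shiftLeft (nat_lit 256) (Nat.land V (nat_lit 31))))
      (Nat.lor U (Nat.xor (Nat.land (Nat.add (FV (Nat.land V (nat_lit 31)))
        (Nat.mul (Nat.land (Nat.shiftRight V (nat_lit 5)) m) Z)) M1) M1))
      (Nat.shiftRight V w5) Q ih k) n

/-- the lit labels of a vertex: 3 bits direction, shift with the mask `m`; then the number of dead
labels (3 bits) -/
noncomputable def li (NI : Nat → LT) (WV : Nat → Nat) (m w3 n : Nat) : LT :=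
  @Nat.rec (fun _ => LT) (fun X Z Y R U V Q ih k =>
      NI (Nat.land V (nat_lit 7)) X Z Y R U (Nat.shiftRight V (nat_lit 3)) Q ih k)
    (fun _ li X Z Y R U V Q ih k => li X Z Y
      (Nat.lor R (Nat.shiftLeft (nat_lit 1) (Nat.land V (nat_lit 7))))
      (Nat.lor U (Nat.add X (Nat.mul (Nat.land (Nat.shiftRight V (nat_lit 3)) m)
        (WV (Nat.land V (nat_lit 7))))))
      (Nat.shiftRight V w3) Q ih k) n

/-- a combination -/
noncomputable def cb (G0 G1 G2 G3 x y z : Nat) : Nat :=
  Nat.add (Nat.add (Nat.add G0 (Nat.mul x G1)) (Nat.mul y G2)) (Nat.mul z G3)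

/-- a vertex with the values `Y` -/
noncomputable def v2 (LI : Nat → LT) (MK HF DM BI Y F n U V : Nat) (Q : Fr) (ih : VT)
    (k : Nat → Fr → Bool) : Bool :=
  LI n (Nat.land (Nat.add BI Y) MK) (Nat.land Y MK) F
    (Nat.land (Nat.shiftRight (Nat.add BI Y) HF) DM) U V Q ih k

/-- a vertex with the coordinates `x`, `y`, `z` -/
noncomputable def v1 (LI : Nat → LT) (MK HF DM BI G0 G1 G2 G3 F0 x y z n U V : Nat) (Q : Fr) (ih : VT)
    (k : Nat → Fr → Bool) : Bool :=
  v2 LI MK HF DM BI (cb G0 G1 G2 G3 x y z)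
    (cb F0 (nat_lit 5148396096422391593693210985222689424575005282213296071655104164476572739631099228161281473378140200867014462091313623896471647770169205880543939042148696815209998759548209600514344487499673960289996350615186526947049573136915791280795360098101364005756748117893319615217446321397464085278907326797546027183637928885300216316649720914764708707449009493819953272390506624046949177083590099150297907997837536438233600846912049605431713435082926603157893751207164978964306795707521391103163764149247422696512731453327789280313596247298850157395987457858634514433)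
      (nat_lit 820186817651640487320479808367534510238779540102526006236474836166734016865198916599229854163595010108025318803836632852754125866544858043735096856439846006454978819598259642397085528696701555051856161739182647743468597210005966331382729356402325458150733960459981729036345322414555007628320445039838977906965768055963000486016154784451344531074019670008413478294798457380255788072360537234482565722954324227241174588951987799234916129852384378862113423942597907121465468838877256506330981731267510272)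
      (nat_lit 5148396096422391593693210985222689424559875505895445975835011653087223472640850971847942935436341680327200515892108411609132047835397240711177878418048171027201063756236028647658420595634788935851417141860331706828497501488611626096979764216414760364613191715595435562615258056288069018893568176829707091226798639370854331474173195405993561317487119046614061242892273782562645046090020037377663408515543935277064621009614679375749011635899914139032468415271071888014891040838580767580573198805233096445544864581683568157641574597210216157268178745242343702528) x y z) n U V Q ih k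

/-- the vertices: `x`, `y`, `z`, number of lit labels (3 bits), labels -/
noncomputable def vs (LI : Nat → LT) (w w2 w3 w6 m MK HF DM BI G0 G1 G2 G3 F0 n : Nat) : VT :=
  @Nat.rec (fun _ => VT) (fun U _ Q k => k U Q)
    (fun _ ih U V Q k => v1 LI MK HF DM BI G0 G1 G2 G3 F0 (Nat.land V m)
      (Nat.land (Nat.shiftRight V w) m) (Nat.land (Nat.shiftRight V w2) m)
      (Nat.land (Nat.shiftRight V w3) (nat_lit 7)) U (Nat.shiftRight V w6) Q ih k) n

/-- the surface: the vertices, the test of their labels, the front; `V` starts with the number of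
vertices (8 bits), `S` with the number of steps (10 bits) -/
noncomputable def sf (LI : Nat → LT) (w m MK HF DM BI G0 G1 G2 G3 F0 M1 V S : Nat) : Bool :=
  vs LI w (Nat.mul (nat_lit 2) w) (Nat.mul (nat_lit 3) w) (Nat.add (Nat.mul (nat_lit 3) w)
    (nat_lit 3)) m MK HF DM BI G0 G1 G2 G3 F0 (Nat.land V (nat_lit 255)) (nat_lit 0)
    (Nat.shiftRight V (nat_lit 8)) Fr.e
    (fun U Q => @Bool.rec (fun _ => Bool) false
      (f0 Nat mt (fun u => Nat.beq (Nat.land u (nat_lit 123665200736552267030251260509823595017565674550605919957031528046448612553265933585158200530621522494798835713008069669675682517153375604983773077550946583958303386074349568)) (nat_lit 0))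
        (Nat.land S (nat_lit 1023)) (Nat.shiftRight S (nat_lit 10)) Q (nat_lit 0))
      (Nat.beq (Nat.land U M1) (nat_lit 0)))

/-- the checks of a leaf with the packed numbers; `P` is the power of two of the scale; `nf` is the
number of facets, `nd'` of the triples -/
noncomputable def m3 (n P e nf nd' nu UF TF W V S M1 BI MM C0 C1 C2 C3 D1 D2 D3 : Nat) : Bool :=
  (fun DS K0 DR NC MK =>
    (@Bool.rec (fun _ => Bool) false
      (ch (fun S => Nat.land (vn D1 D2 D3 K0 (Nat.land S (nat_lit 281474976710655))) MK)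
        (nat_lit 48) (Nat.sub n (nat_lit 1)) W (fun WV =>
        ch (fun S => Nat.land (Nat.add (Nat.add BI (Nat.mul DR C0)) (Nat.mul DR (vn D1 D2 D3 K0
            (pt TF (Nat.land S (nat_lit 511)))))) MK) (nat_lit 9) nu UF (fun FV =>
          sf (li (ni FV M1 (Nat.sub (Nat.mul (nat_lit 1024) P) (nat_lit 1))
              (Nat.add e (nat_lit 15))) WV (Nat.sub (Nat.mul (nat_lit 4096) P) (nat_lit 1))
              (Nat.add e (nat_lit 15)))
            (Nat.add (nat_lit 14) e) (Nat.sub (Nat.mul (nat_lit 16384) P) (nat_lit 1)) MK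
            (Nat.mul (nat_lit 96) nf) (Nat.mul (nat_lit 39614081257132168796771975168) (on nd')) BI
            (Nat.add NC (Nat.mul (Nat.mul (nat_lit 2048) DS) (Nat.add (Nat.add D1 D2) D3)))
            (Nat.mul (nat_lit 2048) C1) (Nat.mul (nat_lit 2048) C2) (Nat.mul (nat_lit 2048) C3)
            (Nat.mul DS (nat_lit 15129776317850095819272324571697626502927776504971003431559740999711420192968998777769829577124329729835674319858990410296955095807970386681061193967927281452375648075600104164278909904329953814850599592770590980758069220374690637827807629662352672380846434752022160216314530570959875962014528226386163127205385323615395223498354252437284493313818396117421013705448505016828976188883743734392145285326261049574016963451835089164893014262154169181289151113656914990275436268339144943845594405340739440328626546546743181311))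
            M1 V S)))
      (ux TF (Nat.succ nu) UF)))
    (Nat.mul (nat_lit 8192) P)
    (Nat.mul (nat_lit 32768) (Nat.add (Nat.add C1 C2) C3))
    (Nat.mul (nat_lit 4194304) (Nat.mul P P))
    (Nat.mul (Nat.mul (nat_lit 4096) P) (Nat.sub MM C0))
    (Nat.sub (Nat.shiftLeft (nat_lit 1) (Nat.mul (nat_lit 96) nf)) (nat_lit 1))

/-- the checks after the functionals -/
noncomputable def m2 (n e nd' nu UF TF W V S : Nat) (u : Ac) : Bool :=
  @Ac.rec (fun _ => Bool) (fun N C0 X1 X2 X3 => (fun nf MM ON =>
      m3 n (Nat.shiftLeft (nat_lit 1) e) e nf nd' nu UF TF W V S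
        (Nat.mul (nat_lit 39614081257132168796771975168) (on nf))
        (Nat.mul (nat_lit 39614081257132168796771975168) (on N)) MM C0
        (Nat.add X1 (Nat.sub MM ON)) (Nat.add X2 (Nat.sub MM ON)) (Nat.add X3 (Nat.sub MM ON))
        (Nat.add ON (Nat.sub MM X1)) (Nat.add ON (Nat.sub MM X2)) (Nat.add ON (Nat.sub MM X3)))
    (Nat.sub N nd') (Nat.shiftLeft (nat_lit 1) (Nat.mul (nat_lit 96) N))
    (Nat.mul (nat_lit 9223372036854775808) (on N))) u

/-- the triples, the vertices of the hull, the facets -/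
noncomputable def m1 (n e nd' nu nh no TK TF SO SH SD SU W V S : Nat) : Bool :=
  dl TK nd' SD (Ac.mk (nat_lit 0) (nat_lit 0) (nat_lit 0) (nat_lit 0) (nat_lit 0)) (fun u =>
    hv TK nh SH Fr.e (fun Q => f0 Ac ht (m2 n e nd' nu SU TF W V S) no SO Q u))

/-- a leaf: `H` has the scale (3 bits), the number of triples (6 bits), the number of outer points
minus one (6 bits), the number of vertices of the hull (8 bits), the number of steps (9 bits), the
steps (2 bits each), the vertices (7 bits each), the triples (21 bits each), the outer points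
(9 bits each) -/
noncomputable def lm (n : Nat) (K F : List Nat) (H W V S : Nat) : Bool :=
  (fun nd' nh no => (fun SH => (fun SD =>
      m1 n (Nat.land H (nat_lit 7)) nd' (Nat.land (Nat.shiftRight H (nat_lit 9)) (nat_lit 63)) nh no
        (tk K) (tk F) (Nat.shiftRight H (nat_lit 32)) SH SD
        (Nat.shiftRight SD (Nat.mul (nat_lit 21) nd')) W V S)
    (Nat.shiftRight SH (Nat.mul (nat_lit 7) nh)))
    (Nat.shiftRight H (Nat.add (nat_lit 32) (Nat.mul (nat_lit 2) no))))
    (Nat.land (Nat.shiftRight H (nat_lit 3)) (nat_lit 63))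
    (Nat.land (Nat.shiftRight H (nat_lit 15)) (nat_lit 255))
    (Nat.land (Nat.shiftRight H (nat_lit 23)) (nat_lit 511))

end Pool.Agent.Lib.MP_5e7226_co.C8.TM

end

section

namespace Pool.Agent.Lib.MP_5e7226_co.C8.TM

open TF TP

/-- the state has no facts -/
noncomputable def ng (G : List UG) : Bool :=
  @List.rec UG (fun _ => Bool) true (fun _ _ _ => false) G

/-- the state `s` is weaker -/
noncomputable def rb (K F : List Nat) (s : SG) : Bool :=
  @Bool.rec (fun _ => Bool) false (@Bool.rec (fun _ => Bool) false (ng s.G) (TR.sb F s.F))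
    (TR.sb K s.K)

/-- the state has the four vertices and no facts -/
noncomputable def h4 (s : SG) : Bool :=
  @Bool.rec (fun _ => Bool) false (ng s.G) (has4 s.K)

end Pool.Agent.Lib.MP_5e7226_co.C8.TM

end

section

namespace Pool.Agent.Lib.MP_5e7226_co.C8.TX

open TF TP TM

/-- the test of the labels -/
noncomputable def lb (M : Nat) : Nat :=
  Nat.mul (Nat.land M (nat_lit 65535)) (Nat.shiftRight M (nat_lit 16))

/-- the test of a triangle of the surface: common labels; the bit 575 of the union stays clear for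
a positive orientation -/
noncomputable def mt (R1 A1 _ _ R2 _ B2 _ R3 _ _ D3 u : Nat) (K : Nat → Bool) : Bool :=
  @Nat.rec (fun _ => Bool) false
    (fun _ _ => K (Nat.lor u (Nat.add (Nat.mul (Nat.mul A1 B2) D3) (nat_lit 247330401473104534053798617054675891485707755964256720295617736089643227924454114642367210338290811877319990078478377010176117855135420816458896602073845270885973984819544064))))
    (lb (Nat.land (Nat.land R1 R2) R3))

/-- the dead labels of a vertex: 5 bits outer point, weight with the mask `m` -/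
noncomputable def ni (FV : Nat → Nat) (M1 m w5 n : Nat) : LT :=
  @Nat.rec (fun _ => LT) (fun _ _ Y R U V Q ih k => ih U V (Fr.c R
      (Nat.land Y (nat_lit 4562440617622195218641171605700291324893228507248559930579192517899275167208677386505912811317371399778642309573594407310688704721375437998252661319722214188251994674360264950082874192246603775)) (Nat.land (Nat.shiftRight Y (nat_lit 640)) (nat_lit 4562440617622195218641171605700291324893228507248559930579192517899275167208677386505912811317371399778642309573594407310688704721375437998252661319722214188251994674360264950082874192246603775))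
      (Nat.shiftRight Y (nat_lit 1280)) Q) k)
    (fun _ ni X Z Y R U V Q ih k => ni X Z Y
      (Nat.lor R (Nat.shiftLeft (nat_lit 65536) (Nat.land V (nat_lit 31))))
      (Nat.lor U (Nat.xor (Nat.land (Nat.add (FV (Nat.land V (nat_lit 31)))
        (Nat.mul (Nat.land (Nat.shiftRight V (nat_lit 5)) m) Z)) M1) M1))
      (Nat.shiftRight V w5) Q ih k) n

/-- the lit labels of a vertex: 4 bits direction, shift with the mask `m`; then the number of dead
labels (3 bits) -/
noncomputable def li (NI : Nat → LT) (WV : Nat → Nat) (m w3 n : Nat) : LT :=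
  @Nat.rec (fun _ => LT) (fun X Z Y R U V Q ih k =>
      NI (Nat.land V (nat_lit 7)) X Z Y R U (Nat.shiftRight V (nat_lit 3)) Q ih k)
    (fun _ li X Z Y R U V Q ih k => li X Z Y
      (Nat.lor R (Nat.shiftLeft (nat_lit 1) (Nat.land V (nat_lit 15))))
      (Nat.lor U (Nat.add X (Nat.mul (Nat.land (Nat.shiftRight V (nat_lit 4)) m)
        (WV (Nat.land V (nat_lit 15))))))
      (Nat.shiftRight V w3) Q ih k) n

/-- the surface: the vertices, the test of their labels, the front; `V` starts with the number of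
vertices (8 bits), `S` with the number of steps (10 bits) -/
noncomputable def sf (LI : Nat → LT) (w m MK HF DM BI G0 G1 G2 G3 F0 M1 V S : Nat) : Bool :=
  vs LI w (Nat.mul (nat_lit 2) w) (Nat.mul (nat_lit 3) w) (Nat.add (Nat.mul (nat_lit 3) w)
    (nat_lit 3)) m MK HF DM BI G0 G1 G2 G3 F0 (Nat.land V (nat_lit 255)) (nat_lit 0)
    (Nat.shiftRight V (nat_lit 8)) Fr.e
    (fun U Q => @Bool.rec (fun _ => Bool) false
      (f0 Nat mt (fun u => Nat.beq (Nat.land u (nat_lit 123665200736552267030251260509823595017565674550605919957031528046448612553265933585158200530621522494798835713008069669675682517153375604983773077550946583958303386074349568)) (nat_lit 0))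
        (Nat.land S (nat_lit 1023)) (Nat.shiftRight S (nat_lit 10)) Q (nat_lit 0))
      (Nat.beq (Nat.land U M1) (nat_lit 0)))

/-- the checks of a leaf with the packed numbers; `P` is the power of two of the scale; `nf` is the
number of facets, `nd'` of the triples -/
noncomputable def m3 (n P e nf nd' nu UF TF W V S M1 BI MM C0 C1 C2 C3 D1 D2 D3 : Nat) : Bool :=
  (fun DS K0 DR NC MK =>
    (@Bool.rec (fun _ => Bool) false
      (ch (fun S => Nat.land (vn D1 D2 D3 K0 (Nat.land S (nat_lit 281474976710655))) MK)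
        (nat_lit 48) (Nat.sub n (nat_lit 1)) W (fun WV =>
        ch (fun S => Nat.land (Nat.add (Nat.add BI (Nat.mul DR C0)) (Nat.mul DR (vn D1 D2 D3 K0
            (pt TF (Nat.land S (nat_lit 511)))))) MK) (nat_lit 9) nu UF (fun FV =>
          sf (li (ni FV M1 (Nat.sub (Nat.mul (nat_lit 1024) P) (nat_lit 1))
              (Nat.add e (nat_lit 15))) WV (Nat.sub (Nat.mul (nat_lit 4096) P) (nat_lit 1))
              (Nat.add e (nat_lit 16)))
            (Nat.add (nat_lit 14) e) (Nat.sub (Nat.mul (nat_lit 16384) P) (nat_lit 1)) MK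
            (Nat.mul (nat_lit 96) nf) (Nat.mul (nat_lit 39614081257132168796771975168) (on nd')) BI
            (Nat.add NC (Nat.mul (Nat.mul (nat_lit 2048) DS) (Nat.add (Nat.add D1 D2) D3)))
            (Nat.mul (nat_lit 2048) C1) (Nat.mul (nat_lit 2048) C2) (Nat.mul (nat_lit 2048) C3)
            (Nat.mul DS (nat_lit 15129776317850095819272324571697626502927776504971003431559740999711420192968998777769829577124329729835674319858990410296955095807970386681061193967927281452375648075600104164278909904329953814850599592770590980758069220374690637827807629662352672380846434752022160216314530570959875962014528226386163127205385323615395223498354252437284493313818396117421013705448505016828976188883743734392145285326261049574016963451835089164893014262154169181289151113656914990275436268339144943845594405340739440328626546546743181311))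
            M1 V S)))
      (ux TF (Nat.succ nu) UF)))
    (Nat.mul (nat_lit 8192) P)
    (Nat.mul (nat_lit 32768) (Nat.add (Nat.add C1 C2) C3))
    (Nat.mul (nat_lit 4194304) (Nat.mul P P))
    (Nat.mul (Nat.mul (nat_lit 4096) P) (Nat.sub MM C0))
    (Nat.sub (Nat.shiftLeft (nat_lit 1) (Nat.mul (nat_lit 96) nf)) (nat_lit 1))

/-- the checks after the functionals -/
noncomputable def m2 (n e nd' nu UF TF W V S : Nat) (u : Ac) : Bool :=
  @Ac.rec (fun _ => Bool) (fun N C0 X1 X2 X3 => (fun nf MM ON =>
      m3 n (Nat.shiftLeft (nat_lit 1) e) e nf nd' nu UF TF W V S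
        (Nat.mul (nat_lit 39614081257132168796771975168) (on nf))
        (Nat.mul (nat_lit 39614081257132168796771975168) (on N)) MM C0
        (Nat.add X1 (Nat.sub MM ON)) (Nat.add X2 (Nat.sub MM ON)) (Nat.add X3 (Nat.sub MM ON))
        (Nat.add ON (Nat.sub MM X1)) (Nat.add ON (Nat.sub MM X2)) (Nat.add ON (Nat.sub MM X3)))
    (Nat.sub N nd') (Nat.shiftLeft (nat_lit 1) (Nat.mul (nat_lit 96) N))
    (Nat.mul (nat_lit 9223372036854775808) (on N))) u

/-- the triples, the vertices of the hull, the facets -/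
noncomputable def m1 (n e nd' nu nh no TK TF SO SH SD SU W V S : Nat) : Bool :=
  dl TK nd' SD (Ac.mk (nat_lit 0) (nat_lit 0) (nat_lit 0) (nat_lit 0) (nat_lit 0)) (fun u =>
    hv TK nh SH Fr.e (fun Q => f0 Ac ht (m2 n e nd' nu SU TF W V S) no SO Q u))

/-- a leaf: `H` has the scale (3 bits), the number of triples (6 bits), the number of outer points
minus one (6 bits), the number of vertices of the hull (8 bits), the number of steps (9 bits), the
steps (2 bits each), the vertices (7 bits each), the triples (21 bits each), the outer points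
(9 bits each) -/
noncomputable def lm (n : Nat) (K F : List Nat) (H W V S : Nat) : Bool :=
  (fun nd' nh no => (fun SH => (fun SD =>
      m1 n (Nat.land H (nat_lit 7)) nd' (Nat.land (Nat.shiftRight H (nat_lit 9)) (nat_lit 63)) nh no
        (tk K) (tk F) (Nat.shiftRight H (nat_lit 32)) SH SD
        (Nat.shiftRight SD (Nat.mul (nat_lit 21) nd')) W V S)
    (Nat.shiftRight SH (Nat.mul (nat_lit 7) nh)))
    (Nat.shiftRight H (Nat.add (nat_lit 32) (Nat.mul (nat_lit 2) no))))
    (Nat.land (Nat.shiftRight H (nat_lit 3)) (nat_lit 63))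
    (Nat.land (Nat.shiftRight H (nat_lit 15)) (nat_lit 255))
    (Nat.land (Nat.shiftRight H (nat_lit 23)) (nat_lit 511))

end Pool.Agent.Lib.MP_5e7226_co.C8.TX

end

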