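import Pool.Agent.Lib.MP_5e7226_co.C8.TY

/-!
# Trees of certificates as terms, without Mathlib

`Cq n K F` says that there is a tree of queries below the state with the points `K` in the body and the
points `F` outside of it, all leaves of which have an accepted certificate for `n` directions. The files
with the certificates import only this file.
-/

set_option autoImplicit false

namespace Pool.Agent.Lib.MP_5e7226_co.C8.DQ

open TF

/-- the state has a tree of accepted certificates -/
inductive Cq (n : Nat) : List Nat → List Nat → Prop
  /-- a query -/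
  | nd {K F : List Nat} (y : Nat) (a : Cq n (y :: K) F) (b : Cq n K (y :: F)) : Cq n K F
  /-- a leaf with a surface, up to eight directions -/
  | lm {K F : List Nat} (H W V S : Nat) (h : TM.lm n K F H W V S = true) : Cq n K F
  /-- a leaf with a surface, up to sixteen directions -/
  | lx {K F : List Nat} (H W V S : Nat) (h : TX.lm n K F H W V S = true) : Cq n K F
  /-- a leaf with a surface, short form -/
  | ly {K F : List Nat} (a H : Nat) (h : TY.lm n a K F H = true) : Cq n K F
  /-- a leaf with cones -/
  | lc {K F : List Nat} (H W S0 S1 S2 S3 S4 S5 S6 S7 : Nat)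
      (h : TP.lf n K F H W S0 S1 S2 S3 S4 S5 S6 S7 = true) : Cq n K F
  /-- a leaf with cones, general format -/
  | lu {K F : List Nat} (H W S0 S1 S2 S3 S4 S5 S6 S7 : Nat)
      (h : TR.cu n K F [] [] H W S0 S1 S2 S3 S4 S5 S6 S7 = true) : Cq n K F
  /-- a stronger state which is done -/
  | rs {K F : List Nat} (s : SG) (t : Cq n s.K s.F) (h4 : TM.h4 s = true)
      (h : TM.rb K F s = true) : Cq n K F

/-- the state `s` is done -/
def Dq (n : Nat) (s : SG) : Prop := Cq n s.K s.F ∧ TM.h4 s = true

/-- the end -/
theorem fin {n : Nat} {s : SG} (t : Cq n s.K s.F) (h : TM.h4 s = true) : Dq n s := ⟨t, h⟩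

/-- a state which is done -/
theorem rf {n : Nat} {K F : List Nat} {s : SG} (g : Dq n s) (h : TM.rb K F s = true) : Cq n K F :=
  Cq.rs s g.1 g.2 h

end Pool.Agent.Lib.MP_5e7226_co.C8.DQ
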