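import Pool.Agent.Lib.MP_5e7226_co.C8.Asm
import Pool.Agent.Lib.MP_5e7226_co.L7.Main

/-!
# The rules of the tree for a general target

`Q` is a property of bodies which is implied by the illumination by `n` directions and is invariant
under affine isomorphisms. For the case of equality `n = 7` and `Q L` says that `L` is illuminated
by seven directions or is a parallelepiped.
-/

set_option autoImplicit false

open Set Filter Topology
open scoped InnerProductSpace Pointwise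

namespace Pool.Agent.Lib.MP_5e7226_co.C8

open GB

namespace T7

/-- the target -/
structure Tgt (n : ℕ) (Q : Set E → Prop) : Prop where
  ill : ∀ L, Illum L n → Q L
  img : ∀ (T : E ≃L[ℝ] E) (L : Set E), Q (T '' L) → Q L
  tr : ∀ (a : E) (L : Set E), Q ((fun x => x + a) '' L) → Q L

/-- the target for the case of equality -/
def Q7 (L : Set E) : Prop := Illum L 7 ∨ L7.IsPar L

lemma illum_tr {L : Set E} {N : ℕ} (a : E) (h : Illum ((fun x => x + a) '' L) N) :
    Illum L N := by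
  obtain ⟨d, hd⟩ := h
  refine ⟨d, fun y hy => ?_⟩
  obtain ⟨i, t, ht, hi⟩ := hd (y + a) ⟨y, hy, rfl⟩
  refine ⟨i, t, ht, ?_⟩
  have h1 : (fun x => x + a) '' interior L = interior ((fun x => x + a) '' L) :=
    (Homeomorph.addRight a).image_interior L
  rw [← h1] at hi
  obtain ⟨z, hz, hze⟩ := hi
  have : z = y + t • d i := by
    simp only at hze
    have h2 : z + a = (y + t • d i) + a := by rw [hze]; abel
    exact add_right_cancel h2
  rwa [← this]

lemma isPar_img {L : Set E} (T : E ≃L[ℝ] E) (h : L7.IsPar (T '' L)) : L7.IsPar L := by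
  have h1 : L7.IsParW (T '' L) := h
  have h2 := h1.image T.symm.toLinearEquiv 0
  have h3 : (fun y => (0 : E) + T.symm.toLinearEquiv y) '' (T '' L) = L := by
    rw [← image_comp]
    ext x
    constructor
    · rintro ⟨y, hy, rfl⟩
      simpa using hy
    · intro hx
      exact ⟨x, hx, by simp⟩
  rw [h3] at h2
  exact h2

lemma isPar_tr {L : Set E} (a : E) (h : L7.IsPar ((fun x => x + a) '' L)) : L7.IsPar L := by
  have h1 : L7.IsParW ((fun x => x + a) '' L) := h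
  have h2 := h1.image (LinearEquiv.refl ℝ E) (-a)
  have h3 : (fun y => (-a : E) + (LinearEquiv.refl ℝ E) y) '' ((fun x => x + a) '' L) = L := by
    rw [← image_comp]
    ext x
    constructor
    · rintro ⟨y, hy, rfl⟩
      simpa using hy
    · intro hx
      exact ⟨x, hx, by simp⟩
  rw [h3] at h2
  exact h2

lemma tgt7 : Tgt 7 Q7 where
  ill _ h := Or.inl h
  img T L h := by
    rcases h with h | h
    · exact Or.inl (h.of_image T)
    · exact Or.inr (isPar_img T h)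
  tr a L h := by
    rcases h with h | h
    · exact Or.inl (illum_tr a h)
    · exact Or.inr (isPar_tr a h)

/-- all bodies of the class in the state have the property `Q` -/
def GoodQ (Q : Set E → Prop) (C : Set (Set E)) (σ : St) : Prop := ∀ L ∈ C, σ.Holds L → Q L

variable {N : ℕ} {Q : Set E → Prop}

lemma GoodQ.mono {C : Set (Set E)} {σ τ : St} (h : GoodQ Q C σ) (hK : σ.K ⊆ τ.K) (hF : σ.F ⊆ τ.F)
    (hU : σ.U ⊆ τ.U) : GoodQ Q C τ := fun L hL hs =>
  h L hL ⟨hK.trans hs.pts, fun n hn => hs.out n (hF hn), fun f hf => hs.unlit f (hU hf)⟩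

/-- query -/
theorem query {C : Set (Set E)} {K F : Set E} {U : Set (Set E × E)} (y : E)
    (h1 : GoodQ Q C ⟨insert y K, F, U⟩) (h2 : GoodQ Q C ⟨K, insert y F, U⟩) :
    GoodQ Q C ⟨K, F, U⟩ := by
  intro L hL hs
  by_cases hy : y ∈ L
  · exact h1 L hL ⟨insert_subset hy hs.pts, hs.out, hs.unlit⟩
  · refine h2 L hL ⟨hs.pts, ?_, hs.unlit⟩
    intro n hn
    rcases hn with rfl | hn
    · exact hy
    · exact hs.out n hn

/-- cover -/
theorem cover (hQ : ∀ L, Illum L N → Q L) (hN : 0 < N) {C : Set (Set E)} {σ : St} (W : Fin N → E)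
    (J : Set (E × Set E)) (hc : ∀ L ∈ C, σ.Holds L → ∀ x ∈ L, Phi W J L x)
    (hJ : ∀ k ∈ J, GoodQ Q C (kidSt σ W k)) : GoodQ Q C σ := by
  intro L hL hs
  by_cases h : ∀ x ∈ L, ∃ i, Serve L x (-(W i))
  · refine hQ L ⟨fun i => -(W i), fun y hy => ?_⟩
    obtain ⟨i, t, ht, hi⟩ := h y hy
    exact ⟨i, t, ht, hi⟩
  · push Not at h
    obtain ⟨x, hx, hun⟩ := h
    rcases hc L hL hs x hx with (hi | ⟨i, hi⟩) | ⟨k, hk, hkL, hkx⟩
    · exact absurd (serve_interior hi _) (hun ⟨0, hN⟩)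
    · exact absurd hi (hun i)
    · refine hJ k hk L hL ⟨insert_subset hkL hs.pts, hs.out, ?_⟩
      rintro f (hf | rfl | ⟨i, rfl⟩)
      · exact hs.unlit f hf
      · refine ⟨x, hx, hkx, fun h0 => hun ⟨0, hN⟩ (serve_interior ?_ _)⟩
        obtain ⟨t, _, h1⟩ := h0
        simpa using h1
      · exact ⟨x, hx, hkx, hun i⟩

/-- query at a symmetric state -/
theorem query_sym (hQ : Tgt N Q) {C : Set (Set E)} {K F : Set E} (G : Set (E ≃L[ℝ] E))
    (hG : ∀ g ∈ G, IsSym C g.symm) (hK : ∀ g ∈ G, ∀ k ∈ K, g k ∈ K)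
    (hF : ∀ g ∈ G, ∀ n ∈ F, g n ∈ F) (y : E) (O : Set E) (hO : ∀ z ∈ O, ∃ g ∈ G, z = g y)
    (h1 : GoodQ Q C ⟨insert y K, F, ∅⟩) (h2 : GoodQ Q C ⟨K, F ∪ O, ∅⟩) :
    GoodQ Q C ⟨K, F, ∅⟩ := by
  intro L hL hs
  by_cases hy : ∃ g ∈ G, g y ∈ L
  · obtain ⟨g, hg, hgy⟩ := hy
    have h := h1 (g.symm '' L) (hG g hg L hL) ⟨?_, ?_, ?_⟩
    · exact hQ.img g.symm L h
    · rintro k (rfl | hk)
      · exact ⟨_, hgy, by simp⟩
      · exact ⟨_, hs.pts (hK g hg k hk), by simp⟩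
    · rintro n hn ⟨m, hm, hmn⟩
      apply hs.out _ (hF g hg n hn)
      rw [← hmn]
      simpa using hm
    · intro f hf
      simp at hf
  · push Not at hy
    refine h2 L hL ⟨hs.pts, ?_, ?_⟩
    · rintro n (hn | hn)
      · exact hs.out n hn
      · obtain ⟨g, hg, rfl⟩ := hO n hn
        exact hy g hg
    · intro f hf
      simp at hf

/-! ### the root -/

/-- one query at the root -/
theorem root_step {n M : ℕ} (hQ : Tgt n Q) {F : List (ℤ × ℤ × ℤ)} (hF : Inv24 (ptsZ F))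
    (y : ℤ × ℤ × ℤ)
    (h1 : GoodQ Q (simCls M) ⟨ptsZ (y :: simR M), ptsZ F, ∅⟩)
    (h2 : GoodQ Q (simCls M) ⟨ptsZ (simR M), ptsZ (orbZ y ++ F), ∅⟩) :
    GoodQ Q (simCls M) ⟨ptsZ (simR M), ptsZ F, ∅⟩ := by
  refine query_sym hQ G24 (fun g hg => ?_) (inv24_sim M) hF (ptZ y) (ptsZ (orbZ y)) ?_ ?_ ?_
  · exact simCls_sym (G24.symm hg)
  · rintro _ ⟨t, ht, rfl⟩
    exact orb24_exists ht
  · rwa [ptsZ_cons] at h1
  · rwa [ptsZ_append, union_comm] at h2

/-- the states of the chain of root queries are good -/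
def RootQ (Q : Set E → Prop) (M : ℕ) : List (ℤ × ℤ × ℤ) → List (ℤ × ℤ × ℤ) → Prop
  | F, [] => GoodQ Q (simCls M) ⟨ptsZ (simR M), ptsZ F, ∅⟩
  | F, y :: ys => GoodQ Q (simCls M) ⟨ptsZ (y :: simR M), ptsZ F, ∅⟩ ∧
    RootQ Q M (orbZ y ++ F) ys

theorem RootQ.good {n M : ℕ} (hQ : Tgt n Q) (ys : List (ℤ × ℤ × ℤ)) :
    ∀ F : List (ℤ × ℤ × ℤ), Inv24 (ptsZ F) →
    RootQ Q M F ys → GoodQ Q (simCls M) ⟨ptsZ (simR M), ptsZ F, ∅⟩ := by
  induction ys with
  | nil => intro F _ h; exact h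
  | cons y ys ih =>
    intro F hF h
    exact root_step hQ hF y h.1 (ih _ (inv24_append (inv24_orb y) hF) h.2)

/-- all bodies of the class have the property -/
theorem root_good {M : ℕ} (h : GoodQ Q (simCls M) ⟨ptsZ (simR M), ptsZ [], ∅⟩) :
    ∀ L ∈ simCls M, Q L := by
  intro L hL
  refine h L hL ⟨?_, ?_, ?_⟩
  · intro x hx
    have hx' : x ∈ ptsZ (simR M) := hx
    rw [simR_pts] at hx'
    obtain ⟨j, rfl⟩ := hx'
    exact (simCls_facts hL).2.2.1 j
  · intro m hm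
    have hm' : m ∈ ptsZ [] := hm
    rw [ptsZ_nil] at hm'
    exact absurd hm' (by simp)
  · intro f hf
    simp at hf

/-- the property is invariant under scaling -/
lemma of_smul {n M : ℕ} (hQ : Tgt n Q) (hM : 0 < M) {L : Set E} (h : Q ((M : ℝ) • L)) : Q L := by
  have hM' : (M : ℝ) ≠ 0 := by exact_mod_cast hM.ne'
  let T : E ≃L[ℝ] E := ContinuousLinearEquiv.smulLeft (Units.mk0 (M : ℝ) hM')
  have h1 : T '' L = (M : ℝ) • L := rfl
  rw [← h1] at h
  exact hQ.img T L h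

/-- the standard simplex has the maximal volume in an affine image of the body -/
theorem exists_norm {ι : Type} [Fintype ι] {s : ι → E} {lam : ℝ} (h : Design s lam)
    {S : Set E} (hc : Convex ℝ S) (hk : IsCompact S) (hi : (interior S).Nonempty) :
    ∃ (a : E) (T : E ≃L[ℝ] E), ShMax s (T '' ((fun x => x + a) '' S)) := by
  obtain ⟨p, hp, hdt, hmax⟩ := h.exists_max hk hi
  have hA : IsUnit (Matrix.of p.2).det := isUnit_iff_ne_zero.2 hdt
  set A := Matrix.of p.2 with hAdef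
  set T := nrm A hA with hT
  refine ⟨-p.1, T, ?_, ?_, ?_, ?_⟩
  · exact (hk.image (by fun_prop)).image T.continuous
  · have h1 : Convex ℝ ((fun x => x + -p.1) '' S) := by
      have h2 := hc.translate (-p.1)
      have h3 : (fun x => -p.1 + x) '' S = (fun x => x + -p.1) '' S := by
        congr 1
        funext x
        rw [add_comm]
      rwa [h3] at h2
    exact h1.linear_image T.toLinearEquiv.toLinearMap
  · intro j
    refine ⟨img p.1 p.2 (s j) + -p.1, ⟨_, hp j, rfl⟩, ?_⟩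
    rw [img_eq, hT, nrm_apply, add_neg_cancel_comm, Matrix.vecMul_vecMul,
      Matrix.mul_nonsing_inv A hA, Matrix.vecMul_one]
  · intro c G hG
    have hG' : (T.symm c + p.1, fun i => T.symm (G i)) ∈ Fam s S := by
      intro j
      obtain ⟨_, ⟨x, hx, rfl⟩, hxe⟩ := hG j
      have h2 : img (T.symm c + p.1) (fun i => T.symm (G i)) (s j) = x := by
        have h3 : T.symm (img c G (s j)) = x + -p.1 := by
          rw [← hxe, T.symm_apply_apply]
        have h4 : T.symm (img c G (s j)) = T.symm c + ∑ i, s j i • T.symm (G i) := by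
          simp only [img, map_add, map_sum, map_smul]
        rw [h4] at h3
        have h5 : x = (T.symm c + ∑ i, s j i • T.symm (G i)) + p.1 := by
          rw [h3]
          abel
        rw [h5, img]
        abel
      show img (T.symm c + p.1) (fun i => T.symm (G i)) (s j) ∈ S
      rw [h2]
      exact hx
    have h1 := hmax _ hG'
    have h2 : dt (fun i => T.symm (G i)) = dt G * A.det := by
      rw [dt, dt, ← Matrix.det_mul]
      rfl
    simp only at h1
    rw [h2, abs_mul] at h1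
    have h3 : 0 < |A.det| := abs_pos.2 hdt
    have h4 : |dt G| * |A.det| ≤ 1 * |A.det| := by rw [one_mul]; exact h1
    exact le_of_mul_le_mul_right h4 h3

/-- every convex body has the property -/
theorem body_of_sim {n : ℕ} (hQ : Tgt n Q) (H : ∀ L, SimMax L → Q L) {S : Set E}
    (hc : Convex ℝ S) (hk : IsCompact S) (hi : (interior S).Nonempty) : Q S := by
  obtain ⟨a, T, hS⟩ := exists_norm design_sim hc hk hi
  exact hQ.tr a S (hQ.img T _ (H _ (sim_iff.2 hS)))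

/-- every convex body has the property, from the chain of root queries -/
theorem body_of_root {n M : ℕ} (hQ : Tgt n Q) (hM : 0 < M) {ys : List (ℤ × ℤ × ℤ)}
    (h : RootQ Q M [] ys) (S : Set E) (hc : Convex ℝ S) (hk : IsCompact S)
    (hi : (interior S).Nonempty) : Q S :=
  body_of_sim hQ (fun L hL => of_smul hQ hM
    (root_good (h.good hQ ys [] inv24_nil) _ ⟨L, hL, rfl⟩)) hc hk hi

/-- **Q1 for `d = 3`, from the chain of root queries** -/
theorem q1_of_root {M : ℕ} (hM : 0 < M) {ys : List (ℤ × ℤ × ℤ)} (h : RootQ Q7 M [] ys)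
    (K : Set (EuclideanSpace ℝ (Fin 3))) (hconv : Convex ℝ K) (hK : IsCompact K)
    (o : EuclideanSpace ℝ (Fin 3)) (ho : o ∈ interior K) :
    (∃ w : Fin (2 ^ 3) → EuclideanSpace ℝ (Fin 3), ∃ b : Fin (2 ^ 3) → ℝ,
      ∀ u x₀ : EuclideanSpace ℝ (Fin 3), u ≠ 0 → x₀ ∈ K →
        (∀ y ∈ K, ⟪u, y⟫_ℝ ≤ ⟪u, x₀⟫_ℝ) →
          ∃ i, ⟪w i, o⟫_ℝ < b i ∧
            ∀ x ∈ K, ⟪u, x⟫_ℝ = ⟪u, x₀⟫_ℝ → b i < ⟪w i, x⟫_ℝ) ∧
    ((¬ ∃ w : Fin (2 ^ 3 - 1) → EuclideanSpace ℝ (Fin 3), ∃ b : Fin (2 ^ 3 - 1) → ℝ,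
      ∀ u x₀ : EuclideanSpace ℝ (Fin 3), u ≠ 0 → x₀ ∈ K →
        (∀ y ∈ K, ⟪u, y⟫_ℝ ≤ ⟪u, x₀⟫_ℝ) →
          ∃ i, ⟪w i, o⟫_ℝ < b i ∧
            ∀ x ∈ K, ⟪u, x⟫_ℝ = ⟪u, x₀⟫_ℝ → b i < ⟪w i, x⟫_ℝ) →
      ∃ v : Fin 3 → EuclideanSpace ℝ (Fin 3), ∃ t : Fin 3 → ℝ,
        LinearIndependent ℝ v ∧ (∀ i, 0 < t i) ∧
          K = convexHull ℝ (⋃ i, ({o + v i, o - t i • v i} : Set (EuclideanSpace ℝ (Fin 3))))) :=
  L7.q1_dim3 (body_of_root tgt7 hM h) K hconv hK o ho

end T7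

end Pool.Agent.Lib.MP_5e7226_co.C8
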