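import Pool.Agent.Lib.MP_5e7226_co.C8.Snd5

/-!
# Eight directions: soundness of the tree
-/

set_option autoImplicit false

open Set

namespace Pool.Agent.Lib.MP_5e7226_co.C8

open GB

/-- the class of bodies of a frame -/
structure Frm (C : Set (Set E)) (D0 : ℕ) : Prop where
  conv : ∀ L ∈ C, Convex ℝ L
  dead : ∀ L ∈ C, ∀ p q r : ℕ, rp p ∈ L → rp q ∈ L → rp r ∈ L → 0 < (mkFD D0 p q r).c →
    Dead L {z | ((mkFD D0 p q r).c : ℝ) ≤ nr (mkFD D0 p q r) ⬝ᵥ z}

/-- the state -/
def toSt (R : ℕ) (s : SN) : St :=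
  ⟨KS s.K, KS s.F, {f | ∃ u ∈ s.U, ∃ a : ℕ, f = (CS R u.cell, rvt (wv u.W a))}⟩

lemma posL_sound {l : List FD} (h : posL l = true) : ∀ f ∈ l, 0 < f.c := by
  induction l with
  | nil => intro f hf; simp at hf
  | cons a l ih =>
    rw [posL, Bool.and_eq_true, blt_iff] at h
    intro f hf
    rcases List.mem_cons.1 hf with rfl | hf
    · exact h.1
    · exact ih h.2 f hf

lemma bdy_of {C : Set (Set E)} {D0 R : ℕ} (hC : Frm C D0) {L : Set E} (hL : L ∈ C) {s : SN}
    (hs : (toSt R s).Holds L) (hK : 0 < s.K.length) {dt : List ℕ}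
    (hp : posL (mkL s.K D0 dt) = true) : Bdy R L s.K s.F s.U (mkL s.K D0 dt) := by
  have hin : ∀ p ∈ s.K, rp p ∈ L := fun p hp => hs.pts ⟨p, hp, rfl⟩
  refine ⟨hC.conv L hL, hs.pts, fun p hp => hs.out _ ⟨p, hp, rfl⟩, ?_, ?_⟩
  · intro h hh
    have hpos := posL_sound hp h hh
    obtain ⟨p, h1, q, h2, r, h3, rfl⟩ := mkL_pts hK hh
    exact hC.dead L hL p q r (hin p h1) (hin q h2) (hin r h3) hpos
  · intro u hu a
    exact hs.unlit _ ⟨u, hu, a, rfl⟩

section cover

variable {N R : ℕ} {c : Cx} {K F : List ℕ} {U : List UF} {W : List ℕ} {kd : List Kd}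
  {fs ds : List FD} {L : Set E}

lemma vx_unit {hs : List FD} {U' E' : ℕ} {x y z : ℤ} (hE : Rp hs E' (fun h => dz h x y z))
    (hx : |x| ≤ 1) (hy : |y| ≤ 1) (hz : |z| ≤ 1)
    (hU : (U' : ℤ) ≡ x + y * 2 ^ 24 + z * 2 ^ 48 [ZMOD 2 ^ 72]) : Vx hs 1 U' E' x y z :=
  ⟨hE, by simpa using hx, by simpa using hy, by simpa using hz, hU⟩

theorem chk8_sound (h : CxOK R c K F U W kd fs ds) (hB : Bdy R L K F U ds) (hW : W.length ≤ N)
    {n : Nm} (hn : NmOK n (fs ++ ds)) {k : Oct} (hk : chk8 c n k = true) :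
    ∀ x ∈ L, Phi (Wf N W) (JS R kd) L x := by
  simp only [chk8, chkO, Bool.and_eq_true] at hk
  obtain ⟨⟨⟨k0, k1⟩, k2, k3⟩, ⟨k4, k5⟩, k6, k7⟩ := hk
  have p1 : Vx (fs ++ ds) 1 1 n.C1 1 0 0 := vx_unit (hn.C1.congr (fun f _ => by simp [dz]))
    (by norm_num) (by norm_num) (by norm_num) (by norm_num [Int.ModEq])
  have p2 : Vx (fs ++ ds) 1 16777216 n.C2 0 1 0 := vx_unit
    (hn.C2.congr (fun f _ => by simp [dz]))
    (by norm_num) (by norm_num) (by norm_num) (by norm_num [Int.ModEq])
  have p3 : Vx (fs ++ ds) 1 281474976710656 n.C3 0 0 1 := vx_unit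
    (hn.C3.congr (fun f _ => by simp [dz]))
    (by norm_num) (by norm_num) (by norm_num) (by norm_num [Int.ModEq])
  have m1 : Vx (fs ++ ds) 1 4722366482869645213695 n.D1 (-1) 0 0 := vx_unit
    (hn.D1.congr (fun f _ => by simp [dz]))
    (by norm_num) (by norm_num) (by norm_num) (by norm_num [Int.ModEq])
  have m2 : Vx (fs ++ ds) 1 4722366482869628436480 n.D2 0 (-1) 0 := vx_unit
    (hn.D2.congr (fun f _ => by simp [dz]))
    (by norm_num) (by norm_num) (by norm_num) (by norm_num [Int.ModEq])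
  have m3 : Vx (fs ++ ds) 1 4722366201394668503040 n.D3 0 0 (-1) := vx_unit
    (hn.D3.congr (fun f _ => by simp [dz]))
    (by norm_num) (by norm_num) (by norm_num) (by norm_num [Int.ModEq])
  have c0 := chkC_sound h hB hW _ p1 p2 p3 k0
  have c1 := chkC_sound h hB hW _ m1 p2 p3 k1
  have c2 := chkC_sound h hB hW _ p1 m2 p3 k2
  have c3 := chkC_sound h hB hW _ m1 m2 p3 k3
  have c4 := chkC_sound h hB hW _ p1 p2 m3 k4
  have c5 := chkC_sound h hB hW _ m1 p2 m3 k5
  have c6 := chkC_sound h hB hW _ p1 m2 m3 k6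
  have c7 := chkC_sound h hB hW _ m1 m2 m3 k7
  intro x hx
  have dec : ∀ a b c : ℝ, ∀ e1 e2 e3 : ℤ, x 0 = a * e1 → x 1 = b * e2 → x 2 = c * e3 →
      x = a • rv e1 0 0 + b • rv 0 e2 0 + c • rv 0 0 e3 := by
    intro a b c e1 e2 e3 h1 h2 h3
    funext i
    fin_cases i
    · simpa [rv] using h1
    · simpa [rv] using h2
    · simpa [rv] using h3
  have use : ∀ e1 e2 e3 : ℤ, ∀ a b c : ℝ, 0 ≤ a → 0 ≤ b → 0 ≤ c → x 0 = a * e1 → x 1 = b * e2 →
      x 2 = c * e3 → Cn L (Phi (Wf N W) (JS R kd) L) (rv e1 0 0) (rv 0 e2 0) (rv 0 0 e3) →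
      Phi (Wf N W) (JS R kd) L x := by
    intro e1 e2 e3 a b c ha hb hc h1 h2 h3 hcn
    have e := dec a b c e1 e2 e3 h1 h2 h3
    have hx' := hx
    rw [e] at hx' ⊢
    exact hcn a b c ha hb hc hx'
  rcases le_total 0 (x 0) with hx0 | hx0 <;> rcases le_total 0 (x 1) with hx1 | hx1 <;>
    rcases le_total 0 (x 2) with hx2 | hx2
  · exact use 1 1 1 (x 0) (x 1) (x 2) hx0 hx1 hx2 (by simp) (by simp) (by simp) c0
  · exact use 1 1 (-1) (x 0) (x 1) (-x 2) hx0 hx1 (by linarith) (by simp) (by simp) (by simp) c4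
  · exact use 1 (-1) 1 (x 0) (-x 1) (x 2) hx0 (by linarith) hx2 (by simp) (by simp) (by simp) c2
  · exact use 1 (-1) (-1) (x 0) (-x 1) (-x 2) hx0 (by linarith) (by linarith) (by simp) (by simp)
      (by simp) c6
  · exact use (-1) 1 1 (-x 0) (x 1) (x 2) (by linarith) hx1 hx2 (by simp) (by simp) (by simp) c1
  · exact use (-1) 1 (-1) (-x 0) (x 1) (-x 2) (by linarith) hx1 (by linarith) (by simp) (by simp)
      (by simp) c5
  · exact use (-1) (-1) 1 (-x 0) (-x 1) (x 2) (by linarith) (by linarith) hx2 (by simp) (by simp)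
      (by simp) c3
  · exact use (-1) (-1) (-1) (-x 0) (-x 1) (-x 2) (by linarith) (by linarith) (by linarith)
      (by simp) (by simp) (by simp) c7

end cover

/-- soundness of a cover node -/
theorem cov_sound {C : Set (Set E)} {N R D0 : ℕ} (hC : Frm C D0) (hR : 0 < R) (hR' : R ≤ 4096)
    (hD0 : D0 < 2 ^ 55) {s : SN} {fc dt W : List ℕ} {k : Oct} {kd : List Kd}
    (hW : W.length ≤ N) (h0 : (0 : E) ∈ convexHull ℝ (KS s.K))
    (h : cov R D0 s fc dt W k kd = true) :
    ∀ L ∈ C, (toSt R s).Holds L → ∀ x ∈ L, Phi (Wf N W) (JS R kd) L x := by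
  intro L hL hs
  simp only [cov, Bool.and_eq_true] at h
  obtain ⟨⟨hf, hp⟩, h8⟩ := h
  have hcx := cxOK hR hR' hD0 h0 hf s.F s.U W kd (dt := dt)
  have hK : 0 < s.K.length := (fok_sound hf).2
  have hn : NmOK (mkNm (app (mkL s.K 0 fc) (mkL s.K D0 dt))) (mkL s.K 0 fc ++ mkL s.K D0 dt) := by
    rw [app_eq]
    exact nmOK hcx.bd
  exact chk8_sound hcx (bdy_of hC hL hs hK hp) hW hn h8

lemma eqN_iff {l m : List ℕ} (h : eqN l m = true) : l = m := by
  induction l generalizing m with
  | nil =>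
    cases m with
    | nil => rfl
    | cons b m => simp [eqN] at h
  | cons a l ih =>
    cases m with
    | nil => simp [eqN] at h
    | cons b m =>
      rw [eqN, Bool.and_eq_true, beq_iff] at h
      rw [h.1, ih h.2]

lemma eqU_iff {l m : List UF} (h : eqU l m = true) : l = m := by
  induction l generalizing m with
  | nil =>
    cases m with
    | nil => rfl
    | cons b m => simp [eqU] at h
  | cons a l ih =>
    cases m with
    | nil => simp [eqU] at h
    | cons b m =>
      rw [eqU, Bool.and_eq_true, Bool.and_eq_true] at h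
      obtain ⟨⟨h1, h2⟩, h3⟩ := h
      rw [ih h3]
      have e1 := eqN_iff h1
      have e2 := eqN_iff h2
      cases a; cases b
      simp only at e1 e2
      rw [e1, e2]

lemma eqS_iff {s t : SN} (h : eqS s t = true) : s = t := by
  rw [eqS, Bool.and_eq_true, Bool.and_eq_true] at h
  obtain ⟨h1, h2, h3⟩ := h
  have e1 := eqN_iff h1
  have e2 := eqN_iff h2
  have e3 := eqU_iff h3
  cases s; cases t
  simp only at e1 e2 e3
  rw [e1, e2, e3]

lemma nthS_mem (l : List SN) (i : ℕ) (h : i < l.length) : nthS l i ∈ l := by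
  induction l generalizing i with
  | nil => simp at h
  | cons a l ih =>
    rw [nthS]
    cases i with
    | zero => simp
    | succ i =>
      have : Nat.beq (i + 1) 0 = false := rfl
      rw [this, cond_false]
      exact List.mem_cons_of_mem _ (ih i (by simpa using h))

lemma KS_cons (y : ℕ) (K : List ℕ) : KS (y :: K) = insert (rp y) (KS K) := by
  ext x
  constructor
  · rintro ⟨p, hp, rfl⟩
    rcases List.mem_cons.1 hp with rfl | hp
    · exact mem_insert _ _
    · exact mem_insert_of_mem _ ⟨p, hp, rfl⟩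
  · rintro (rfl | ⟨p, hp, rfl⟩)
    · exact ⟨y, by simp, rfl⟩
    · exact ⟨p, List.mem_cons_of_mem _ hp, rfl⟩

lemma zero_cons {K : List ℕ} (h0 : (0 : E) ∈ convexHull ℝ (KS K)) (y : ℕ) :
    (0 : E) ∈ convexHull ℝ (KS (y :: K)) := by
  rw [KS_cons]
  exact convexHull_mono (subset_insert _ _) h0

lemma kid_mono {C : Set (Set E)} {N R : ℕ} {s : SN} {W : List ℕ} {y : ℕ} {cell : List ℕ}
    (hW : W.length ≤ N) (h : Good N C (toSt R (kidS s W y cell))) :
    Good N C (kidSt (toSt R s) (Wf N W) (rp y, kset R cell)) := by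
  refine h.mono ?_ subset_rfl ?_
  · show KS (y :: s.K) ⊆ insert (rp y) (KS s.K)
    rw [KS_cons]
  · rintro f ⟨u, hu, a, rfl⟩
    simp only [kidS] at hu
    cases hc : isNil cell
    · rw [hc, cond_false] at hu
      rcases List.mem_cons.1 hu with rfl | hu
      · right
        have hk : kset R cell = CS R cell := by
          rw [kset, if_neg]
          rw [hc]; simp
        by_cases ha : a < N
        · right
          exact ⟨⟨a, ha⟩, by simp [hk, Wf]⟩
        · left
          have h0 : wv W a = (0, 0, 0) := by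
            unfold wv
            rw [dif_neg]
            omega
          show (CS R cell, rvt (wv W a)) = (kset R cell, 0)
          rw [hk, h0, rvt_zero]
      · left; exact ⟨u, hu, a, rfl⟩
    · rw [hc, cond_true] at hu
      left; exact ⟨u, hu, a, rfl⟩

/-- soundness of the tree -/
theorem chk_sound {C : Set (Set E)} {N R D0 : ℕ} (hN : 0 < N) (hC : Frm C D0) (hR : 0 < R)
    (hR' : R ≤ 4096) (hD0 : D0 < 2 ^ 55) {rs : List SN} (hrs : ∀ s ∈ rs, Good N C (toSt R s)) :
    ∀ (t : Tr) (m : Option (List ℕ)) (s : SN), chk N R D0 rs t m s = true →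
      (0 : E) ∈ convexHull ℝ (KS s.K) → (m = none → Good N C (toSt R s)) ∧
      (∀ W, m = some W → ∀ k ∈ t.kids, Good N C (toSt R (kidS s W k.y k.cell))) := by
  intro t
  induction t with
  | nil =>
    intro m s h h0
    refine ⟨fun hm => ?_, fun W hm k hk => by simp [Tr.kids] at hk⟩
    subst hm
    simp [chk] at h
  | kid y cell sub rest ih1 ih2 =>
    intro m s h h0
    cases m with
    | none => simp [chk] at h
    | some W =>
      simp only [chk, Bool.and_eq_true] at h
      refine ⟨fun hm => by simp at hm, fun W' hm k hk => ?_⟩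
      simp only [Option.some.injEq] at hm
      subst hm
      simp only [Tr.kids] at hk
      rcases List.mem_cons.1 hk with rfl | hk
      · exact (ih1 none _ h.1 (zero_cons h0 y)).1 rfl
      · exact (ih2 (some W) s h.2 h0).2 W rfl k hk
  | qry y a b ih1 ih2 =>
    intro m s h h0
    cases m with
    | some W =>
      simp [chk] at h
    | none =>
      simp only [chk, Bool.and_eq_true] at h
      refine ⟨fun _ => ?_, fun W hm => by simp at hm⟩
      have h1 := (ih1 none _ h.1 (zero_cons h0 y)).1 rfl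
      have h2 := (ih2 none _ h.2 h0).1 rfl
      refine rule_query (rp y) ?_ ?_
      · have := h1
        simp only [toSt, KS_cons] at this
        exact this
      · have := h2
        simp only [toSt, KS_cons] at this
        exact this
  | cov fc dt W k kids ih =>
    intro m s h h0
    cases m with
    | some W =>
      simp [chk] at h
    | none =>
      simp only [chk, Bool.and_eq_true, ble_iff, len_eq] at h
      obtain ⟨⟨hW, hc⟩, hk⟩ := h
      refine ⟨fun _ => ?_, fun W hm => by simp at hm⟩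
      refine rule_cover hN (Wf N W) (JS R kids.kids) (cov_sound hC hR hR' hD0 hW h0 hc) ?_
      rintro _ ⟨a, ha, rfl⟩
      exact kid_mono hW ((ih (some W) s hk h0).2 W rfl a ha)
  | ref i =>
    intro m s h h0
    cases m with
    | some W => simp [chk] at h
    | none =>
      simp only [chk, Bool.and_eq_true, blt_iff, len_eq] at h
      refine ⟨fun _ => ?_, fun W hm => by simp at hm⟩
      rw [← eqS_iff h.2]
      exact hrs _ (nthS_mem rs i h.1)

end Pool.Agent.Lib.MP_5e7226_co.C8
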