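import Pool.Agent.Lib.MP_5e7226_co.C8.T7State

/-!
# The local theorem in the form of the checker
-/

set_option autoImplicit false

open Set Filter Topology

namespace Pool.Agent.Lib.MP_5e7226_co.C8

open GB

namespace T7

/-- the determinant -/
def D3 (u b c : E) : ℝ :=
  u 0 * (b 1 * c 2 - b 2 * c 1) + u 1 * (b 2 * c 0 - b 0 * c 2) + u 2 * (b 0 * c 1 - b 1 * c 0)


/-- the parallelepiped is contained in the body if its vertices are -/
theorem box_mem {L : Set E} (hc : Convex ℝ L) {c a b d : E}
    (h : ∀ s t r : ℝ, (s = 1 ∨ s = -1) → (t = 1 ∨ t = -1) → (r = 1 ∨ r = -1) →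
      c + s • a + t • b + r • d ∈ L) {s t r : ℝ} (hs : |s| ≤ 1) (ht : |t| ≤ 1) (hr : |r| ≤ 1) :
    c + s • a + t • b + r • d ∈ L := by
  have step : ∀ (x v : E) (q : ℝ), |q| ≤ 1 → x + v ∈ L → x - v ∈ L → x + q • v ∈ L := by
    intro x v q hq h1 h2
    rw [abs_le] at hq
    have := hc h1 h2 (a := (1 + q) / 2) (b := (1 - q) / 2) (by linarith [hq.1]) (by linarith [hq.2])
      (by ring)
    convert this using 1
    module
  have h1 : ∀ s t : ℝ, (s = 1 ∨ s = -1) → (t = 1 ∨ t = -1) → c + s • a + t • b + r • d ∈ L := by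
    intro s t hs ht
    apply step _ _ _ hr
    · have := h s t 1 hs ht (Or.inl rfl)
      rwa [one_smul] at this
    · have := h s t (-1) hs ht (Or.inr rfl)
      rwa [neg_smul, one_smul, ← sub_eq_add_neg] at this
  have h2 : ∀ s : ℝ, (s = 1 ∨ s = -1) → c + s • a + t • b + r • d ∈ L := by
    intro s hs
    have e : c + s • a + t • b + r • d = (c + s • a + r • d) + t • b := by abel
    rw [e]
    apply step _ _ _ ht
    · have := h1 s 1 hs (Or.inl rfl)
      rw [one_smul] at this
      convert this using 1; abel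
    · have := h1 s (-1) hs (Or.inr rfl)
      rw [neg_smul, one_smul] at this
      convert this using 1; abel
  have e : c + s • a + t • b + r • d = (c + t • b + r • d) + s • a := by abel
  rw [e]
  apply step _ _ _ hs
  · have := h2 1 (Or.inl rfl)
    rw [one_smul] at this
    convert this using 1; abel
  · have := h2 (-1) (Or.inr rfl)
    rw [neg_smul, one_smul] at this
    convert this using 1; abel


lemma D3_sub (x y b c : E) : D3 (x - y) b c = D3 x b c - D3 y b c := by
  simp only [D3, Pi.sub_apply]; ring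

lemma D3_smul (t : ℝ) (x b c : E) : D3 (t • x) b c = t * D3 x b c := by
  simp only [D3, Pi.smul_apply, smul_eq_mul]; ring

lemma D3_add (x y b c : E) : D3 (x + y) b c = D3 x b c + D3 y b c := by
  simp only [D3, Pi.add_apply]; ring

lemma D3_zero (b c : E) : D3 0 b c = 0 := by
  simp [D3]

/-- the homothetic copy -/
def Bx (y a b c : E) : Set E :=
  {x | 10 * |D3 x b c - D3 y b c| ≤ 13 * |D3 a b c| ∧
    10 * |D3 x c a - D3 y c a| ≤ 13 * |D3 a b c| ∧ 10 * |D3 x a b - D3 y a b| ≤ 13 * |D3 a b c|}

lemma convex_slab (b c : E) (m T : ℝ) : Convex ℝ {x : E | 10 * |D3 x b c - m| ≤ T} := by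
  intro x hx z hz s t hs ht hst
  have e : D3 (s • x + t • z) b c - m = s * (D3 x b c - m) + t * (D3 z b c - m) := by
    rw [D3_add, D3_smul, D3_smul]
    linear_combination m * hst
  show 10 * |D3 (s • x + t • z) b c - m| ≤ T
  rw [e]
  have h1 : 10 * |D3 x b c - m| ≤ T := hx
  have h2 : 10 * |D3 z b c - m| ≤ T := hz
  have h3 := abs_add_le (s * (D3 x b c - m)) (t * (D3 z b c - m))
  rw [abs_mul, abs_mul, abs_of_nonneg hs, abs_of_nonneg ht] at h3
  have h4 : s * (10 * |D3 x b c - m|) ≤ s * T := mul_le_mul_of_nonneg_left h1 hs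
  have h5 : t * (10 * |D3 z b c - m|) ≤ t * T := mul_le_mul_of_nonneg_left h2 ht
  have h6 : s * T + t * T = T := by rw [← add_mul, hst, one_mul]
  linarith

lemma convex_Bx (y a b c : E) : Convex ℝ (Bx y a b c) :=
  (convex_slab b c _ _).inter ((convex_slab c a _ _).inter (convex_slab a b _ _))

/-- **the local theorem in the form of the checker** -/
theorem near_box {L : Set E} (hc : Convex ℝ L) (hk : IsCompact L) {y a b c : E}
    (hd : D3 a b c ≠ 0)
    (h : ∀ s t r : ℝ, (s = 1 ∨ s = -1) → (t = 1 ∨ t = -1) → (r = 1 ∨ r = -1) →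
      y + s • a + t • b + r • c ∈ L) (hL : ∀ x ∈ L, x ∈ Bx y a b c) : Q7 L := by
  have hexp : ∀ x : E, x = y + (D3 (x - y) b c / D3 a b c) • a + (D3 (x - y) c a / D3 a b c) • b +
      (D3 (x - y) a b / D3 a b c) • c := by
    intro x
    have key : ∀ i : Fin 3, D3 a b c * (x i - y i) = D3 (x - y) b c * a i + D3 (x - y) c a * b i +
        D3 (x - y) a b * c i := by
      intro i
      simp only [D3, Pi.sub_apply]
      fin_cases i <;> simp <;> ring
    funext i
    have := key i
    simp only [Pi.add_apply, Pi.smul_apply, smul_eq_mul]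
    field_simp
    linarith
  have hli : LinearIndependent ℝ ![a, b, c] := by
    rw [Fintype.linearIndependent_iff]
    intro g hg
    rw [Fin.sum_univ_three] at hg
    simp only [Matrix.cons_val_zero, Matrix.cons_val_one, Matrix.cons_val] at hg
    have h0 : g 0 * D3 a b c = 0 := by
      have := congrArg (fun v => D3 v b c) hg
      simp only [D3_add, D3_smul, D3_zero] at this
      have e1 : D3 b b c = 0 := by simp only [D3]; ring
      have e2 : D3 c b c = 0 := by simp only [D3]; ring
      rw [e1, e2] at this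
      linarith
    have h1 : g 1 * D3 a b c = 0 := by
      have := congrArg (fun v => D3 v c a) hg
      simp only [D3_add, D3_smul, D3_zero] at this
      have e1 : D3 a c a = 0 := by simp only [D3]; ring
      have e2 : D3 c c a = 0 := by simp only [D3]; ring
      have e3 : D3 b c a = D3 a b c := by simp only [D3]; ring
      rw [e1, e2, e3] at this
      linarith
    have h2 : g 2 * D3 a b c = 0 := by
      have := congrArg (fun v => D3 v a b) hg
      simp only [D3_add, D3_smul, D3_zero] at this
      have e1 : D3 a a b = 0 := by simp only [D3]; ring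
      have e2 : D3 b a b = 0 := by simp only [D3]; ring
      have e3 : D3 c a b = D3 a b c := by simp only [D3]; ring
      rw [e1, e2, e3] at this
      linarith
    intro i
    fin_cases i
    · exact (mul_eq_zero.1 h0).resolve_right hd
    · exact (mul_eq_zero.1 h1).resolve_right hd
    · exact (mul_eq_zero.1 h2).resolve_right hd
  have hpos : 0 < |D3 a b c| := abs_pos.2 hd
  refine L7.near_par hc hk y ![a, b, c] hli ?_ ?_
  · intro t ht
    rw [Fin.sum_univ_three]
    simp only [Matrix.cons_val_zero, Matrix.cons_val_one, Matrix.cons_val]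
    have := box_mem hc h (ht 0) (ht 1) (ht 2)
    rw [← add_assoc, ← add_assoc]
    exact this
  · intro x hx
    obtain ⟨h1, h2, h3⟩ := hL x hx
    refine ⟨![D3 (x - y) b c / D3 a b c, D3 (x - y) c a / D3 a b c, D3 (x - y) a b / D3 a b c],
      ?_, ?_⟩
    · have key : ∀ q : ℝ, 10 * |q| ≤ 13 * |D3 a b c| → |q / D3 a b c| ≤ 13 / 10 := by
        intro q hq
        rw [abs_div, div_le_iff₀ hpos]
        linarith
      intro i
      fin_cases i
      · exact key _ (by rw [D3_sub]; exact h1)
      · exact key _ (by rw [D3_sub]; exact h2)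
      · exact key _ (by rw [D3_sub]; exact h3)
    · rw [Fin.sum_univ_three]
      simp only [Matrix.cons_val_zero, Matrix.cons_val_one, Matrix.cons_val]
      rw [← add_assoc, ← add_assoc]
      exact hexp x

end T7

end Pool.Agent.Lib.MP_5e7226_co.C8
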