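import Pool.Agent.Lib.MP_5e7226_co.C8.T7Chk
import Pool.Agent.Lib.MP_5e7226_co.C8.T7Box
import Pool.Agent.Lib.MP_5e7226_co.C8.Snd6

/-!
# Soundness of the leaves near parallelepipeds in the frame of the simplex
-/

set_option autoImplicit false

open Set

namespace Pool.Agent.Lib.MP_5e7226_co.C8

open GB

namespace T7

/-! ### functionals -/

lemma dif_cast (P Q : ℕ) : ((dif P Q : ℕ) : ℝ) = |(P : ℝ) - Q| := by
  unfold dif
  rw [nadd, nsub, nsub]
  rcases le_total P Q with h | h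
  · rw [Nat.sub_eq_zero_of_le h, zero_add, Nat.cast_sub h, abs_of_nonpos]
    · ring
    · have : (P : ℝ) ≤ Q := by exact_mod_cast h
      linarith
  · rw [Nat.sub_eq_zero_of_le h, add_zero, Nat.cast_sub h, abs_of_nonneg]
    have : (Q : ℝ) ≤ P := by exact_mod_cast h
    linarith

lemma vp_sub (f : FD) (p : ℕ) : ((vp f p : ℕ) : ℝ) - ((vm f p : ℕ) : ℝ) = nr f ⬝ᵥ rp p := by
  have h := dps_sub f.A1 f.A2 f.A3 f.B1 f.B2 f.B3 p
  rw [nr_rp, dz]
  have h2 : (((vp f p : ℕ) : ℤ) - ((vm f p : ℕ) : ℤ)) = ((f.A1 : ℤ) - f.B1) * ix p +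
      ((f.A2 : ℤ) - f.B2) * iy p + ((f.A3 : ℤ) - f.B3) * iz p := h
  exact_mod_cast h2

lemma inF_sound {y e1 e2 e3 : ℕ} {f : FD} (h : inF y e1 e2 e3 f = true) {s t r : ℝ}
    (hs : s = 1 ∨ s = -1) (ht : t = 1 ∨ t = -1) (hr : r = 1 ∨ r = -1) :
    nr f ⬝ᵥ (rp y + s • rp e1 + t • rp e2 + r • rp e3) ≤ (f.c : ℝ) := by
  unfold inF at h
  rw [ble_iff] at h
  simp only [nadd] at h
  have h1 : ((vp f y : ℕ) : ℝ) + (((dif (vp f e1) (vm f e1) : ℕ) : ℝ) +
      (((dif (vp f e2) (vm f e2) : ℕ) : ℝ) + ((dif (vp f e3) (vm f e3) : ℕ) : ℝ))) ≤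
      (f.c : ℝ) + ((vm f y : ℕ) : ℝ) := by exact_mod_cast h
  rw [dif_cast, dif_cast, dif_cast, vp_sub, vp_sub, vp_sub] at h1
  have h2 := vp_sub f y
  have key : ∀ (x v : ℝ), (x = 1 ∨ x = -1) → x * v ≤ |v| := by
    intro x v hx
    rcases hx with rfl | rfl
    · rw [one_mul]; exact le_abs_self _
    · rw [neg_one_mul]; exact neg_le_abs _
  have k1 := key s (nr f ⬝ᵥ rp e1) hs
  have k2 := key t (nr f ⬝ᵥ rp e2) ht
  have k3 := key r (nr f ⬝ᵥ rp e3) hr
  rw [dotProduct_add, dotProduct_add, dotProduct_add, dotProduct_smul, dotProduct_smul,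
    dotProduct_smul, smul_eq_mul, smul_eq_mul, smul_eq_mul]
  linarith

lemma inL_sound {y e1 e2 e3 : ℕ} {l : List FD} (h : inL y e1 e2 e3 l = true) :
    ∀ f ∈ l, inF y e1 e2 e3 f = true := by
  induction l with
  | nil => intro f hf; simp at hf
  | cons a l ih =>
    rw [inL, Bool.and_eq_true] at h
    intro f hf
    rcases List.mem_cons.1 hf with rfl | hf
    · exact h.1
    · exact ih h.2 f hf

/-! ### the functionals of the box -/

lemma org_c : ix org = 0 ∧ iy org = 0 ∧ iz org = 0 := by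
  have h1 : ox org = 32768 := by rfl
  have h2 : oy org = 32768 := by rfl
  have h3 : oz org = 32768 := by rfl
  unfold ix iy iz
  rw [h1, h2, h3]
  norm_num

lemma mk_nr (k q r : ℕ) (x : E) : nr (mkFD k org q r) ⬝ᵥ x = D3 x (rp q) (rp r) := by
  obtain ⟨o1, o2, o3⟩ := org_c
  have n1 : (((mkFD k org q r).A1 : ℤ) : ℝ) - (((mkFD k org q r).B1 : ℤ) : ℝ) =
      (iy q : ℝ) * iz r - iz q * iy r := by
    have := mkFD_n k org q r 1 0 0
    simp only [dz, mul_one, mul_zero, add_zero, o1, o2, o3, zero_mul, sub_zero] at this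
    exact_mod_cast this
  have n2 : (((mkFD k org q r).A2 : ℤ) : ℝ) - (((mkFD k org q r).B2 : ℤ) : ℝ) =
      (iz q : ℝ) * ix r - ix q * iz r := by
    have := mkFD_n k org q r 0 1 0
    simp only [dz, mul_one, mul_zero, add_zero, zero_add, o1, o2, o3, zero_mul, sub_zero] at this
    exact_mod_cast this
  have n3 : (((mkFD k org q r).A3 : ℤ) : ℝ) - (((mkFD k org q r).B3 : ℤ) : ℝ) =
      (ix q : ℝ) * iy r - iy q * ix r := by
    have := mkFD_n k org q r 0 0 1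
    simp only [dz, mul_one, mul_zero, zero_add, add_zero, o1, o2, o3, zero_mul, sub_zero] at this
    exact_mod_cast this
  have hn : nr (mkFD k org q r) = ![(((mkFD k org q r).A1 : ℤ) : ℝ) -
      (((mkFD k org q r).B1 : ℤ) : ℝ), (((mkFD k org q r).A2 : ℤ) : ℝ) -
      (((mkFD k org q r).B2 : ℤ) : ℝ), (((mkFD k org q r).A3 : ℤ) : ℝ) -
      (((mkFD k org q r).B3 : ℤ) : ℝ)] := by
    simp [nr, rv]
  rw [hn, n1, n2, n3]
  simp only [D3, rp, rv, dotProduct, Fin.sum_univ_three, Matrix.cons_val_zero,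
    Matrix.cons_val_one, Matrix.cons_val]
  ring

lemma bxf_nr (T y q r : ℕ) (x : E) : nr (bxf T y q r) ⬝ᵥ x = D3 x (rp q) (rp r) := mk_nr 0 q r x

lemma bxf_c {T y q r : ℕ} (h : 0 < (bxf T y q r).c) :
    10 * ((bxf T y q r).c : ℝ) ≤ 13 * (T : ℝ) + 10 * D3 (rp y) (rp q) (rp r) := by
  have e : (bxf T y q r).c = (13 * T + 10 * vp (mkFD 0 org q r) y -
      10 * vm (mkFD 0 org q r) y) / 10 := rfl
  have h2 := vp_sub (mkFD 0 org q r) y
  rw [mk_nr] at h2
  have h3 : 10 * (bxf T y q r).c ≤ 13 * T + 10 * vp (mkFD 0 org q r) y -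
      10 * vm (mkFD 0 org q r) y := by
    rw [e]
    exact Nat.mul_div_le _ _
  have h4 : 10 * (bxf T y q r).c + 10 * vm (mkFD 0 org q r) y ≤
      13 * T + 10 * vp (mkFD 0 org q r) y := by omega
  have h5 : 10 * ((bxf T y q r).c : ℝ) + 10 * ((vm (mkFD 0 org q r) y : ℕ) : ℝ) ≤
      13 * (T : ℝ) + 10 * ((vp (mkFD 0 org q r) y : ℕ) : ℝ) := by exact_mod_cast h4
  linarith

lemma dtm_eq (e1 e2 e3 : ℕ) : ((dtm e1 e2 e3 : ℕ) : ℝ) = |D3 (rp e1) (rp e2) (rp e3)| := by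
  have : dtm e1 e2 e3 = dif (vp (mkFD 0 org e2 e3) e1) (vm (mkFD 0 org e2 e3) e1) := rfl
  rw [this, dif_cast, vp_sub, mk_nr]

lemma okB_sound {l : List FD} (h : okB l = true) : ∀ f ∈ l, 0 < f.c ∧ f.c < 2 ^ 56 := by
  induction l with
  | nil => intro f hf; simp at hf
  | cons a l ih =>
    simp only [okB, Bool.and_eq_true, blt_iff] at h
    intro f hf
    rcases List.mem_cons.1 hf with rfl | hf
    · exact ⟨h.1.1, lt_of_lt_of_eq h.1.2 (by norm_num)⟩
    · exact ih h.2 f hf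

lemma boxL_fb {T y e1 e2 e3 : ℕ} (h : okB (boxL T y e1 e2 e3) = true) :
    ∀ f ∈ boxL T y e1 e2 e3, FB f := by
  intro f hf
  have hc := (okB_sound h f hf).2
  have key : ∀ q r, f = bxf T y q r → FB f := by
    rintro q r rfl
    have hb := mkFD_bd (k := 0) (p := org) (q := q) (r := r) (by norm_num)
    exact ⟨hb.a1, hb.a2, hb.a3, hb.b1, hb.b2, hb.b3, hc⟩
  simp only [boxL, List.mem_cons, List.not_mem_nil, or_false] at hf
  rcases hf with h | h | h | h | h | h <;> exact key _ _ h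

/-- a point satisfying the inequalities of the box -/
lemma mem_Bx {y e1 e2 e3 : ℕ} (hok : okB (boxL (dtm e1 e2 e3) y e1 e2 e3) = true) {x : E}
    (h : ∀ f ∈ boxL (dtm e1 e2 e3) y e1 e2 e3, nr f ⬝ᵥ x ≤ (f.c : ℝ)) :
    x ∈ Bx (rp y) (rp e1) (rp e2) (rp e3) := by
  have hT := dtm_eq e1 e2 e3
  have key : ∀ q r, bxf (dtm e1 e2 e3) y q r ∈ boxL (dtm e1 e2 e3) y e1 e2 e3 →
      10 * (D3 x (rp q) (rp r) - D3 (rp y) (rp q) (rp r)) ≤ 13 * |D3 (rp e1) (rp e2) (rp e3)| := by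
    intro q r hm
    have h1 := h _ hm
    have h2 := bxf_c (okB_sound hok _ hm).1
    rw [bxf_nr] at h1
    rw [hT] at h2
    linarith
  have sw : ∀ u a b : E, D3 u a b = -D3 u b a := by
    intro u a b
    simp only [D3]
    ring
  have k1 := key e2 e3 (by simp [boxL])
  have k2 := key e3 e2 (by simp [boxL])
  have k3 := key e3 e1 (by simp [boxL])
  have k4 := key e1 e3 (by simp [boxL])
  have k5 := key e1 e2 (by simp [boxL])
  have k6 := key e2 e1 (by simp [boxL])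
  rw [sw x (rp e3) (rp e2), sw (rp y) (rp e3) (rp e2)] at k2
  rw [sw x (rp e1) (rp e3), sw (rp y) (rp e1) (rp e3)] at k4
  rw [sw x (rp e2) (rp e1), sw (rp y) (rp e2) (rp e1)] at k6
  have fin : ∀ a b m : ℝ, 10 * (a - b) ≤ m → 10 * (-a - -b) ≤ m → 10 * |a - b| ≤ m := by
    intro a b m h1 h2
    have : |a - b| ≤ m / 10 := by
      rw [abs_le]
      constructor <;> linarith
    linarith
  exact ⟨fin _ _ _ k1 k2, fin _ _ _ k3 k4, fin _ _ _ k5 k6⟩

lemma zero_mem_Bx {y e1 e2 e3 : ℕ} (hok : okB (boxL (dtm e1 e2 e3) y e1 e2 e3) = true) :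
    (0 : E) ∈ Bx (rp y) (rp e1) (rp e2) (rp e3) := by
  refine mem_Bx hok (fun f hf => ?_)
  rw [dotProduct_zero]
  exact Nat.cast_nonneg _

/-! ### the context -/

/-- the context is correct, general list of further functionals -/
lemma cxOKg {R : ℕ} (hR : 0 < R) (hR' : R ≤ 4096) {K : List ℕ}
    (h0 : (0 : E) ∈ convexHull ℝ (KS K)) {fc : List ℕ} (hf : fok K fc = true) (F : List ℕ)
    (U : List UF) (W : List ℕ) (kd : List Kd) {ds : List FD} (hbd2 : ∀ h ∈ ds, FB h) :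
    CxOK R (mkCx R (mkNm (app (mkL K 0 fc) ds)) (mkL K 0 fc)
      (app (mkL K 0 fc) ds) F U W kd) K F U W kd (mkL K 0 fc) ds := by
  obtain ⟨hF, hK⟩ := fok_sound hf
  rw [app_eq]
  have hbd1 : ∀ h ∈ mkL K 0 fc, FB h := by
    intro h hh
    obtain ⟨p, _, q, _, r, _, rfl⟩ := mkL_pts hK hh
    exact mkFD_bd (by norm_num)
  have hbd : ∀ h ∈ mkL K 0 fc ++ ds, FB h := by
    intro h hh
    rcases List.mem_append.1 hh with hh | hh
    · exact hbd1 h hh
    · exact hbd2 h hh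
  have hn := nmOK hbd
  set fs := mkL K 0 fc with hfs
  set n := mkNm (fs ++ ds) with hnn
  have hFM : Nat.sub n.MM 1 = 2 ^ n.TW - 1 := by rw [nsub, hn.MM, hn.TW]
  have hz : Rp (fs ++ ds) 0 (fun _ => 0) := by
    have := Rp.of_pk (hs := fs ++ ds) (fun _ => 0)
    have e2 : pk (fun _ => 0) (fs ++ ds) = 0 := by
      clear * -
      induction (fs ++ ds) with
      | nil => rfl
      | cons a l ih => rw [pk_cons, ih]; simp
    rw [e2] at this
    exact this
  refine ⟨hR, hR', rfl, ⟨hF, hbd1, ?_, h0⟩, hbd, rfl, ?_, ?_, hn.C0, ?_, ?_, hn.CB, ?_, ?_, ?_, ?_⟩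
  · intro h hh
    obtain ⟨p, hp, q, hq, r, hr, rfl⟩ := mkL_pts hK hh
    exact ⟨hp, hq, hr⟩
  · exact len_eq _
  · exact len_eq _
  · have h1 := hn.C0.neg hn.MM (by rw [hn.MM]; exact hn.C0le)
    refine Rp.congr (hn.BI.add (h1.mul R)) (fun f _ => ?_)
    ring
  · refine Rp.congr (hn.BI.add (hn.C0.mul (256 * R))) (fun f _ => ?_)
    push_cast
    ring
  · intro a
    have e : ent (mkCx R n fs (fs ++ ds) F U W kd).WT (mkCx R n fs (fs ++ ds) F U W kd).TW
        (mkCx R n fs (fs ++ ds) F U W kd).FM a = ent (tabm (vneg n) n.TW (2 ^ n.TW - 1) W) n.TW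
        (2 ^ n.TW - 1) a := by
      simp only [mkCx]
      rw [hFM]
    rw [e, ent_tabm]
    unfold wv
    split
    · rw [hn.TW]
      exact (vneg_rp hn _).mod
    · refine hz.congr (fun f _ => ?_)
      simp [dz]
  · intro i hi
    have hi' : i < F.length := by
      have : (mkCx R n fs (fs ++ ds) F U W kd).nN = len F := rfl
      rw [this, len_eq] at hi
      exact hi
    refine ⟨F[i], List.getElem_mem hi', ?_⟩
    have e : ent (mkCx R n fs (fs ++ ds) F U W kd).NT (mkCx R n fs (fs ++ ds) F U W kd).TW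
        (mkCx R n fs (fs ++ ds) F U W kd).FM i = ent (tabm (fun p => Nat.mul R (vneg n p)) n.TW
        (2 ^ n.TW - 1) F) n.TW (2 ^ n.TW - 1) i := by
      simp only [mkCx]
      rw [hFM]
    rw [e, ent_tabm, dif_pos hi', hn.TW]
    refine (((vneg_rp hn _).mul R).mod).congr (fun f _ => ?_)
    ring
  · intro i hi
    have hi' : i < kd.length := by
      have : (mkCx R n fs (fs ++ ds) F U W kd).nK = len kd := rfl
      rw [this, len_eq] at hi
      exact hi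
    refine ⟨kd[i], List.getElem_mem hi', nthK_eq kd i hi', ?_⟩
    have e : ent (mkCx R n fs (fs ++ ds) F U W kd).YT (mkCx R n fs (fs ++ ds) F U W kd).TW
        (mkCx R n fs (fs ++ ds) F U W kd).FM i = ent (tabK (fun p => Nat.mul R (vneg n p)) n.TW
        (2 ^ n.TW - 1) kd) n.TW (2 ^ n.TW - 1) i := by
      simp only [mkCx]
      rw [hFM]
    rw [e, ent_tabK, dif_pos hi', hn.TW]
    refine (((vneg_rp hn _).mul R).mod).congr (fun f _ => ?_)
    ring
  · intro i hi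
    have hut : (mkCx R n fs (fs ++ ds) F U W kd).ut = mapUc (vcel n) U := rfl
    have huw : (mkCx R n fs (fs ++ ds) F U W kd).uw = mapUw (vpos n) n.TW (Nat.sub n.MM 1) U :=
      rfl
    have hi' : i < U.length := by
      rw [hut, len_eq, mapUc_eq, List.length_map] at hi
      exact hi
    refine ⟨U[i], List.getElem_mem hi', ⟨vcel n, ?_, fun p => vcel_rp hn p⟩, ?_⟩
    · rw [hut, mapUc_eq, nthL_eq _ _ (by simpa using hi')]
      simp
    · intro a
      have e : ent (nth (mkCx R n fs (fs ++ ds) F U W kd).uw i)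
          (mkCx R n fs (fs ++ ds) F U W kd).TW
          (mkCx R n fs (fs ++ ds) F U W kd).FM a = ent (tabm (vpos n) n.TW (2 ^ n.TW - 1)
          (U[i]).W) n.TW (2 ^ n.TW - 1) a := by
        have huw' : (mkCx R n fs (fs ++ ds) F U W kd).uw =
            mapUw (vpos n) n.TW (2 ^ n.TW - 1) U := by rw [huw, hFM]
        have hfm' : (mkCx R n fs (fs ++ ds) F U W kd).FM = 2 ^ n.TW - 1 := hFM
        have htw' : (mkCx R n fs (fs ++ ds) F U W kd).TW = n.TW := rfl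
        rw [huw', hfm', htw', mapUw_eq, nth_eq _ _ (by simpa using hi')]
        simp only [List.getElem_map]
      rw [e, ent_tabm]
      unfold wv
      split
      · rw [hn.TW]
        exact (vpos_rp hn _).mod
      · refine hz.congr (fun f _ => ?_)
        simp [dz]

/-! ### the tests -/

section tests

variable {R : ℕ} {c : Cx} {K F : List ℕ} {U : List UF} {W : List ℕ} {kd : List Kd}
  {fs ds bs : List FD} {L : Set E}

/-- one corner on the right side of a functional -/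
lemma bt_sound {hs : List FD} (hbd : ∀ h ∈ hs, FB h) {R CL r E' g : ℕ} (hg : g < hs.length)
    (hR : 0 < R) (hR' : R ≤ 4096) {x y z : ℤ}
    (hCL : Rp hs CL (fun h => 2 ^ 95 - R * h.c)) (hE : Rp hs E' (fun h => dz h x y z))
    (hr : r < 2 ^ 24) (hx : |x| ≤ 65536) (hy : |y| ≤ 65536) (hz : |z| ≤ 65536)
    (hm : (CL + r * E').testBit (96 * g + 95) = false) :
    nr hs[g] ⬝ᵥ (((r : ℝ) / R) • rv x y z) ≤ ((hs[g]).c : ℝ) := by
  have hX : Rp hs (CL + r * E') (fun h => 2 ^ 95 + ((r : ℤ) * dz h x y z - R * h.c)) := by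
    have h1 := hCL.add (hE.mul r)
    exact h1.congr (fun f _ => by ring)
  have hbd' : ∀ f ∈ hs, -2 ^ 95 ≤ (r : ℤ) * dz f x y z - R * f.c ∧
      (r : ℤ) * dz f x y z - R * f.c < 2 ^ 95 := by
    intro f hf
    have h1 := dz_bd (hbd f hf) hx hy hz
    have h3 : |(r : ℤ) * dz f x y z| ≤ 2 ^ 24 * (3 * 2 ^ 34 * 65536) := by
      rw [abs_mul]
      exact mul_le_mul (by rw [Nat.abs_cast]; exact_mod_cast hr.le) h1 (abs_nonneg _) (by norm_num)
    have h5 : (R : ℤ) * f.c ≤ 4096 * 2 ^ 56 :=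
      mul_le_mul (by exact_mod_cast hR') (by exact_mod_cast (hbd f hf).c.le) (by positivity)
        (by norm_num)
    have h6 : 0 ≤ (R : ℤ) * f.c := by positivity
    rw [abs_le] at h3
    constructor
    · norm_num at h3 h5 ⊢; linarith [h3.1]
    · norm_num at h3 h5 ⊢; linarith [h3.2]
  have h := bit_of_rp hs _ _ hX hbd' g hg
  rw [hm] at h
  have h1 : ¬ (0 : ℤ) ≤ (r : ℤ) * dz hs[g] x y z - R * (hs[g]).c := by
    have := h.symm
    rwa [decide_eq_false_iff_not] at this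
  push Not at h1
  have h2 : (r : ℝ) * dz hs[g] x y z - R * (hs[g]).c < 0 := by exact_mod_cast h1
  have hR0 : (0 : ℝ) < R := by exact_mod_cast hR
  rw [dot_smul_rv]
  have h3 : (r : ℝ) / R * (dz hs[g] x y z) - (hs[g]).c =
      ((r : ℝ) * dz hs[g] x y z - R * (hs[g]).c) / R := by
    field_simp
  have h4 : ((r : ℝ) * dz hs[g] x y z - R * (hs[g]).c) / R < 0 := div_neg_of_neg_of_pos h2 hR0
  linarith

lemma mask_shift (bs : List FD) (m g : ℕ) (hg : g < bs.length) :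
    (Nat.shiftLeft (pk (fun _ => 39614081257132168796771975168) bs) (Nat.mul 96 m)).testBit
      (96 * (m + g) + 95) = true := by
  rw [nshl, nmul, Nat.testBit_mul_two_pow]
  have h1 : 96 * m ≤ 96 * (m + g) + 95 := by omega
  have h2 : 96 * (m + g) + 95 - 96 * m = 96 * g + 95 := by omega
  rw [h2, mask_bit bs g hg]
  simp [h1]

/-- three corners in the box -/
lemma box3_sound (h : CxOK R c K F U W kd fs (ds ++ bs)) {bd U1 U2 U3 E1 E2 E3 : ℕ}
    {x1 y1 z1 x2 y2 z2 x3 y3 z3 : ℤ} (v1 : Vx (fs ++ (ds ++ bs)) bd U1 E1 x1 y1 z1)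
    (v2 : Vx (fs ++ (ds ++ bs)) bd U2 E2 x2 y2 z2) (v3 : Vx (fs ++ (ds ++ bs)) bd U3 E3 x3 y3 z3)
    (hbd : bd ≤ 65536) {r1 r2 r3 : ℕ}
    (hr1 : r1 < 2 ^ 24) (hr2 : r2 < 2 ^ 24) (hr3 : r3 < 2 ^ 24)
    (ht : box3 c (Nat.shiftLeft (pk (fun _ => 39614081257132168796771975168) bs)
      (Nat.mul 96 (fs.length + ds.length))) E1 E2 E3 r1 r2 r3 = true) :
    ∀ f ∈ bs, nr f ⬝ᵥ (((r1 : ℝ) / R) • rv x1 y1 z1) ≤ (f.c : ℝ) ∧
      nr f ⬝ᵥ (((r2 : ℝ) / R) • rv x2 y2 z2) ≤ (f.c : ℝ) ∧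
      nr f ⬝ᵥ (((r3 : ℝ) / R) • rv x3 y3 z3) ≤ (f.c : ℝ) := by
  simp only [box3, beq_iff, nland, nlor, nadd, nmul] at ht
  intro f hf
  obtain ⟨i, hi, rfl⟩ := List.getElem_of_mem hf
  have hc := land_zero ht (mask_shift bs (fs.length + ds.length) i hi)
  simp only [Nat.testBit_or, Bool.or_eq_false_iff] at hc
  have hg : fs.length + ds.length + i < (fs ++ (ds ++ bs)).length := by
    simp only [List.length_append]; omega
  have he : (fs ++ (ds ++ bs))[fs.length + ds.length + i] = bs[i] := by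
    rw [List.getElem_append_right (by omega)]
    rw [List.getElem_append_right (by omega)]
    congr 1
    omega
  obtain ⟨p1, p2, p3⟩ := vx_bd v1 hbd
  obtain ⟨q1, q2, q3⟩ := vx_bd v2 hbd
  obtain ⟨o1, o2, o3⟩ := vx_bd v3 hbd
  have a1 := bt_sound h.bd hg h.R_pos h.R_le h.CL v1.rep hr1 p1 p2 p3 hc.1.1
  have a2 := bt_sound h.bd hg h.R_pos h.R_le h.CL v2.rep hr2 q1 q2 q3 hc.1.2
  have a3 := bt_sound h.bd hg h.R_pos h.R_le h.CL v3.rep hr3 o1 o2 o3 hc.2
  rw [he] at a1 a2 a3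
  exact ⟨a1, a2, a3⟩

/-- everything beyond the corners is dead -/
theorem chkD_sound (h : CxOK R c K F U W kd fs (ds ++ bs)) (hB : Bdy R L K F U ds) {Φ : E → Prop}
    {bd U1 U2 U3 E1 E2 E3 : ℕ} {x1 y1 z1 x2 y2 z2 x3 y3 z3 : ℤ}
    (v1 : Vx (fs ++ (ds ++ bs)) bd U1 E1 x1 y1 z1) (v2 : Vx (fs ++ (ds ++ bs)) bd U2 E2 x2 y2 z2)
    (v3 : Vx (fs ++ (ds ++ bs)) bd U3 E3 x3 y3 z3) (hbd : bd ≤ 65536)
    (l : Lay) (r1 r2 r3 : ℕ) (p1 : 0 < r1) (p2 : 0 < r2) (p3 : 0 < r3) (l1 : r1 < 2 ^ 24)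
    (l2 : r2 < 2 ^ 24) (l3 : r3 < 2 ^ 24)
    (ht : chkD c (fs.length + ds.length) E1 E2 E3 l r1 r2 r3 = true) :
      Out L Φ (rv x1 y1 z1) (rv x2 y2 z2) (rv x3 y3 z3)
        ((r1 : ℝ) / R) ((r2 : ℝ) / R) ((r3 : ℝ) / R) := by
  have hR0 : (0 : ℝ) < R := by exact_mod_cast h.R_pos
  have hint := h.fac.zero_int
  have h0L : (0 : E) ∈ L := convexHull_min hB.pts hB.conv h.fac.zero
  have hne : (KS K).Nonempty := by
    rw [nonempty_iff_ne_empty]
    intro he
    rw [he] at hint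
    simp at hint
  have pos : ∀ r : ℕ, 0 < r → (0 : ℝ) < (r : ℝ) / R := by
    intro r hr
    have : (0 : ℝ) < r := by exact_mod_cast hr
    positivity
  cases l with
  | wN d =>
    rw [chkD, Bool.and_eq_true, blt_iff] at ht
    obtain ⟨p, hp, hN⟩ := h.NT _ ht.1
    obtain ⟨s1, s2, s3⟩ := sh3_sound h v1 v2 v3 hbd hN l1 l2 l3 (f16_lt _ _) (f16_lt _ _)
      (f16_lt _ _) ht.2
    exact out_dead (pos _ p1) (pos _ p2) (pos _ p3)
      (dead_shd hB.conv hB.pts hne h0L (hB.out p hp)) s1 s2 s3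
  | wD d =>
    rw [chkD, Bool.and_eq_true, Bool.and_eq_true, ble_iff, blt_iff, h.nF] at ht
    obtain ⟨⟨g1, g2⟩, ht⟩ := ht
    have g3 : d < (fs ++ (ds ++ bs)).length := by
      simp only [List.length_append]; omega
    obtain ⟨s1, s2, s3⟩ := dt3_sound h v1 v2 v3 hbd g3 l1 l2 l3 ht
    have hg : (fs ++ (ds ++ bs))[d] ∈ ds := by
      rw [List.getElem_append_right g1]
      rw [List.getElem_append_left (by omega)]
      exact List.getElem_mem _
    exact out_dead (pos _ p1) (pos _ p2) (pos _ p3) (hB.dead _ hg) s1 s2 s3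
  | wU d l =>
    rw [chkD, Bool.and_eq_true, blt_iff] at ht
    obtain ⟨u, hu, ⟨vc, e1, hvc⟩, hWt⟩ := h.UT _ ht.2
    rw [e1] at ht
    obtain ⟨b1, b2, b3⟩ := wv_bd u.W (f4 d 0)
    have key := upA_sound h v1 v2 v3 hbd hvc (hWt (f4 d 0)) b1 b2 b3 l1 l2 l3 _ _ ht.1
    have hd := dead_lifts hB.conv hB.pts h0L (hB.unlit u hu (f4 d 0))
    refine out_dead (pos _ p1) (pos _ p2) (pos _ p3) hd ?_ ?_ ?_
    · rintro q ⟨p, hp, rfl⟩
      exact (key p hp).1
    · rintro q ⟨p, hp, rfl⟩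
      exact (key p hp).2.1
    · rintro q ⟨p, hp, rfl⟩
      exact (key p hp).2.2
  | kI d => simp [chkD] at ht
  | lit d e k => simp [chkD] at ht
  | kid d k => simp [chkD] at ht

theorem chkZ_sound (h : CxOK R c K F U W kd fs (ds ++ bs)) (hB : Bdy R L K F U ds) {Φ : E → Prop}
    (hΦ : ∀ x ∈ convexHull ℝ {z : E | ∀ f ∈ bs, nr f ⬝ᵥ z ≤ (f.c : ℝ)}, Φ x) :
    ∀ (k : Cone) {b1 b2 b3 U1 U2 U3 E1 E2 E3 : ℕ} {x1 y1 z1 x2 y2 z2 x3 y3 z3 : ℤ},
      Vx (fs ++ (ds ++ bs)) b1 U1 E1 x1 y1 z1 → Vx (fs ++ (ds ++ bs)) b2 U2 E2 x2 y2 z2 →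
      Vx (fs ++ (ds ++ bs)) b3 U3 E3 x3 y3 z3 →
      chkZ c (Nat.shiftLeft (pk (fun _ => 39614081257132168796771975168) bs)
        (Nat.mul 96 (fs.length + ds.length))) (fs.length + ds.length) k
        b1 b2 b3 U1 U2 U3 E1 E2 E3 = true →
      Cn L Φ (rv x1 y1 z1) (rv x2 y2 z2) (rv x3 y3 z3) := by
  intro k
  induction k with
  | s4 a1 a2 a3 a4 i1 i2 i3 i4 =>
    intro b1 b2 b3 U1 U2 U3 E1 E2 E3 x1 y1 z1 x2 y2 z2 x3 y3 z3 v1 v2 v3 ht
    simp only [chkZ, Bool.and_eq_true] at ht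
    obtain ⟨⟨t1, t2⟩, t3, t4⟩ := ht
    have two : ∀ {b b' U' V' E' F' : ℕ} {x y z x' y' z' : ℤ},
        Vx (fs ++ (ds ++ bs)) b U' E' x y z → Vx (fs ++ (ds ++ bs)) b' V' F' x' y' z' →
        Vx (fs ++ (ds ++ bs)) (b + b') (U' + V') (E' + F') (1 * x + 1 * x') (1 * y + 1 * y')
          (1 * z + 1 * z') := by
      intro b b' U' V' E' F' x y z x' y' z' hv hv'
      have := hv.comb hv' 1 1
      simpa [one_mul] using this
    have dbl : ∀ {b U' E' : ℕ} {x y z : ℤ}, Vx (fs ++ (ds ++ bs)) b U' E' x y z →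
        Vx (fs ++ (ds ++ bs)) (2 * b) (2 * U') (2 * E') (2 * x + 0 * x) (2 * y + 0 * y)
          (2 * z + 0 * z) := by
      intro b U' E' x y z hv
      have := hv.comb hv 2 0
      simpa using this
    have r2 : ∀ x y z x' y' z' : ℤ, rv (1 * x + 1 * x') (1 * y + 1 * y') (1 * z + 1 * z') =
        rv x y z + rv x' y' z' := by
      intro x y z x' y' z'
      have := rv_comb 1 1 x y z x' y' z'
      simpa using this
    have r0 : ∀ x y z : ℤ, rv (2 * x + 0 * x) (2 * y + 0 * y) (2 * z + 0 * z) =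
        (2 : ℝ) • rv x y z := by
      intro x y z
      have := rv_comb 2 0 x y z x y z
      simpa using this
    have c1 := i1 (dbl v1) (two v1 v2) (two v1 v3) t1
    have c2 := i2 (two v1 v2) (dbl v2) (two v2 v3) t2
    have c3 := i3 (two v1 v3) (two v2 v3) (dbl v3) t3
    have c4 := i4 (two v1 v2) (two v2 v3) (two v1 v3) t4
    rw [r2, r2, r0] at c1
    rw [r2, r2, r0] at c2
    rw [r2, r2, r0] at c3
    rw [r2, r2, r2] at c4
    exact cn_split4 (cn_scale1 c1) (cn_scale2 c2) (cn_scale3 c3) c4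
  | s2 e al be a b ia ib =>
    intro b1 b2 b3 U1 U2 U3 E1 E2 E3 x1 y1 z1 x2 y2 z2 x3 y3 z3 v1 v2 v3 ht
    simp only [chkZ, Bool.and_eq_true, blt_iff] at ht
    obtain ⟨⟨ha, hb⟩, ht⟩ := ht
    have ha' : (0 : ℝ) < al := by exact_mod_cast ha
    have hb' : (0 : ℝ) < be := by exact_mod_cast hb
    cases he : Nat.beq e (nat_lit 0)
    · rw [he, cond_false] at ht
      cases he' : Nat.beq e (nat_lit 1)
      · rw [he', cond_false, Bool.and_eq_true] at ht
        have vm := v3.comb v1 al be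
        have c1 := ia v1 v2 vm ht.1
        have c2 := ib vm v2 v3 ht.2
        rw [rv_comb] at c1 c2
        exact (cn_split1 ha' hb' rfl c2.rot c1.rot).rot.rot
      · rw [he', cond_true, Bool.and_eq_true] at ht
        have vm := v2.comb v3 al be
        have c1 := ia v1 v2 vm ht.1
        have c2 := ib v1 vm v3 ht.2
        rw [rv_comb] at c1 c2
        exact (cn_split1 ha' hb' rfl c1.rot.rot c2.rot.rot).rot
    · rw [he, cond_true, Bool.and_eq_true] at ht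
      have vm := v1.comb v2 al be
      have c1 := ia v1 vm v3 ht.1
      have c2 := ib vm v2 v3 ht.2
      rw [rv_comb] at c1 c2
      exact cn_split1 ha' hb' rfl c1 c2
  | t d k =>
    intro b1 b2 b3 U1 U2 U3 E1 E2 E3 x1 y1 z1 x2 y2 z2 x3 y3 z3 v1 v2 v3 ht
    simp only [chkZ, Bool.and_eq_true, blt_iff, ble_iff] at ht
    obtain ⟨⟨⟨⟨hbd, p1⟩, p2, p3⟩, hbox⟩, ht⟩ := ht
    obtain ⟨m1, m2, m3⟩ := @mx3_le b1 b2 b3
    replace v1 := v1.mono m1
    replace v2 := v2.mono m2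
    replace v3 := v3.mono m3
    have hR0 : (0 : ℝ) < R := by exact_mod_cast h.R_pos
    have pos : ∀ r : ℕ, 0 < r → (0 : ℝ) < (r : ℝ) / R := by
      intro r hr
      have : (0 : ℝ) < r := by exact_mod_cast hr
      positivity
    have t1 := box3_sound h v1 v2 v3 hbd (f24_lt _ _) (f24_lt _ _) (f24_lt _ _) hbox
    have t2 := chkD_sound (Φ := Φ) h hB v1 v2 v3 hbd k _ _ _ p1 p2 p3 (f24_lt _ _) (f24_lt _ _)
      (f24_lt _ _) ht
    refine cn_base (pos _ p1) (pos _ p2) (pos _ p3) ?_ t2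
    intro x _ hxc
    refine hΦ x (convexHull_mono ?_ hxc)
    rintro z (rfl | rfl | rfl | rfl)
    · intro f _
      rw [dotProduct_zero]
      exact Nat.cast_nonneg _
    · exact fun f hf => (t1 f hf).1
    · exact fun f hf => (t1 f hf).2.1
    · exact fun f hf => (t1 f hf).2.2

end tests

end T7

end Pool.Agent.Lib.MP_5e7226_co.C8
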