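import Pool.Agent.Lib.MP_5e7226_co.C8.TFUS2

/-!
# Soundness of the fast evaluation with facts, third part: covers and trees
-/

set_option autoImplicit false

open Set

namespace Pool.Agent.Lib.MP_5e7226_co.C8.TF

open GB

/-- the state with facts -/
def tsG (n : ℕ) (K F : List ℕ) (G : List UG) : St :=
  ⟨KS K, KS F, {f | ∃ g ∈ G, ∃ a < n, f = (cg g.m g.C, rp (pt g.W a))}⟩

/-- soundness of a cover -/
theorem cu_sound {C : Set (Set E)} (hC : Frm C 17179869184) {n Q : ℕ} (hQ : 0 < Q)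
    (hQ' : Q ≤ 4096) {K F : List ℕ} {G : List UG} {J : List KG}
    (h0 : (0 : E) ∈ convexHull ℝ (KS K))
    {H W S0 S1 S2 S3 S4 S5 S6 S7 : ℕ} (h : cu n Q K F G J H W S0 S1 S2 S3 S4 S5 S6 S7 = true) :
    ∀ L ∈ C, (tsG n K F G).Holds L → ∀ x ∈ L,
      Phi (Wf n (Wl n W)) (JQ J) L x := by
  intro L hL hst
  obtain ⟨nf, hnf⟩ : ∃ nf, nf = Nat.land H 255 := ⟨_, rfl⟩
  obtain ⟨nd, hnd⟩ : ∃ nd, nd = Nat.land (Nat.shiftRight H 8) 127 := ⟨_, rfl⟩
  obtain ⟨FC, hFC⟩ : ∃ FC, FC = Nat.shiftRight H 15 := ⟨_, rfl⟩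
  obtain ⟨DC, hDC⟩ : ∃ DC, DC = Nat.shiftRight H (Nat.add 15 (Nat.mul 45 nf)) := ⟨_, rfl⟩
  have h' : k2 n Q (ln K) (ln F) nf nd FC DC (tk K) (tk F) W G J
      (ap (fl (tk K) 0 45 nf FC) (fl (tk K) 17179869184 21 nd DC)) S0 S1 S2 S3 S4 S5 S6 S7 =
      true := by
    rw [hDC, hFC, hnf, hnd]
    exact h
  rw [ap_eq] at h'
  clear h hDC hFC hnf hnd
  set fs := fl (tk K) 0 45 nf FC with hfs
  set ds := fl (tk K) 17179869184 21 nd DC with hds
  have lenf : fs.length = nf := fl_len _ _ _ _ _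
  have lend : ds.length = nd := fl_len _ _ _ _ _
  have hlen : Nat.add nf nd = (fs ++ ds).length := by rw [List.length_append, lenf, lend]; rfl
  have hbd : ∀ h ∈ fs ++ ds, FB h := by
    intro h hh
    rcases List.mem_append.1 hh with hh | hh
    · obtain ⟨j, _, rfl⟩ := fl_mem hh
      exact mkFD_bd (by norm_num)
    · obtain ⟨j, _, rfl⟩ := fl_mem hh
      exact mkFD_bd (by norm_num)
  have hn := nu_of hbd hlen
  obtain ⟨BI, hBI⟩ : ∃ X, X = Nat.mul 39614081257132168796771975168 (on (Nat.add nf nd)) :=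
    ⟨_, rfl⟩
  obtain ⟨C0, hC0⟩ : ∃ X, X = pf FD.c (fs ++ ds) := ⟨_, rfl⟩
  obtain ⟨C1, hC1⟩ : ∃ X, X = Nat.add (pf FD.A1 (fs ++ ds)) (Nat.sub
    (Nat.shiftLeft 1 (Nat.mul 96 (Nat.add nf nd))) (pf FD.B1 (fs ++ ds))) := ⟨_, rfl⟩
  obtain ⟨C2, hC2⟩ : ∃ X, X = Nat.add (pf FD.A2 (fs ++ ds)) (Nat.sub
    (Nat.shiftLeft 1 (Nat.mul 96 (Nat.add nf nd))) (pf FD.B2 (fs ++ ds))) := ⟨_, rfl⟩
  obtain ⟨C3, hC3⟩ : ∃ X, X = Nat.add (pf FD.A3 (fs ++ ds)) (Nat.sub
    (Nat.shiftLeft 1 (Nat.mul 96 (Nat.add nf nd))) (pf FD.B3 (fs ++ ds))) := ⟨_, rfl⟩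
  obtain ⟨D1, hD1⟩ : ∃ X, X = Nat.add (pf FD.B1 (fs ++ ds)) (Nat.sub
    (Nat.shiftLeft 1 (Nat.mul 96 (Nat.add nf nd))) (pf FD.A1 (fs ++ ds))) := ⟨_, rfl⟩
  obtain ⟨D2, hD2⟩ : ∃ X, X = Nat.add (pf FD.B2 (fs ++ ds)) (Nat.sub
    (Nat.shiftLeft 1 (Nat.mul 96 (Nat.add nf nd))) (pf FD.A2 (fs ++ ds))) := ⟨_, rfl⟩
  obtain ⟨D3, hD3⟩ : ∃ X, X = Nat.add (pf FD.B3 (fs ++ ds)) (Nat.sub
    (Nat.shiftLeft 1 (Nat.mul 96 (Nat.add nf nd))) (pf FD.A3 (fs ++ ds))) := ⟨_, rfl⟩
  rw [← hBI, ← hC0, ← hC1, ← hC2, ← hC3, ← hD1, ← hD2, ← hD3] at hn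
  have h3 : k3 n Q (ln K) (ln F) nf nd FC DC (tk K) (tk F) W G J
      (Nat.mul 39614081257132168796771975168 (on nf)) BI C0 C1 C2 C3 D1 D2 D3
      S0 S1 S2 S3 S4 S5 S6 S7 = true := by
    rw [hBI, hC0, hC1, hC2, hC3, hD1, hD2, hD3]
    exact h'
  clear h' hC0 hC1 hC2 hC3 hD1 hD2 hD3
  obtain ⟨h3, k1⟩ := br h3
  obtain ⟨h3, k2⟩ := br h3
  obtain ⟨h3, k3⟩ := br h3
  obtain ⟨h3, k4⟩ := br h3
  obtain ⟨h3, k5⟩ := br h3
  have k2' : 1 ≤ nf := Nat.le_of_ble_eq_true k2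
  -- the offsets are positive
  have hCC := hn.CC hlen
  have hpos : ∀ h ∈ fs ++ ds, 0 < h.c := by
    have e1 : BI = pk (fun _ => 39614081257132168796771975168) (fs ++ ds) := by
      rw [pk_const, hBI, hlen]; rfl
    rw [e1] at k5
    have k5' := set_of_mask ((beq_iff _ _).1 k5)
    have hs1 := sign_set hCC (fun f hf => by
      have a2 : (f.c : ℤ) < 2 ^ 56 := by exact_mod_cast (hbd f hf).c
      have a3 : (0 : ℤ) ≤ f.c := Nat.cast_nonneg _
      constructor
      · norm_num; linarith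
      · norm_num at a2 ⊢; linarith) k5'
    intro f hf
    have := hs1 f hf
    omega
  -- the facets
  have hfc := fc_true k4
  have hdc := dc_true k3
  have hV : ∀ k, Rp (fs ++ ds) (Nat.add (Nat.add C0 (Nat.mul 39614081257132168796771975167
      (on (Nat.add nf nd)))) (vn D1 D2 D3 (Nat.mul 32768 (Nat.add (Nat.add C1 C2) C3))
      (pt (tk K) k))) (fun h => 2 ^ 95 + ((h.c : ℤ) - 1 -
      dz h (ix (pt (tk K) k)) (iy (pt (tk K) k)) (iz (pt (tk K) k)))) := by
    intro k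
    refine (hCC.add (hn.K0 (pt (tk K) k))).congr (fun f _ => ?_)
    ring
  have hgood : ∀ h ∈ fs, FGood fs h := by
    intro h hh
    have hp := hpos h (List.mem_append_left _ hh)
    obtain ⟨j, hj, rfl⟩ := fl_mem hh
    obtain ⟨_, n1, n2, n3⟩ := hfc j hj
    exact ⟨hp, nb_facet hfs hbd hV n1, nb_facet hfs hbd hV n2, nb_facet hfs hbd hV n3⟩
  have hok : FctOk (fs.map toF) := by
    refine fctOk_of ?_ hgood ?_
    · intro he
      rw [he] at lenf
      simp at lenf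
      omega
    · intro h hh
      obtain ⟨j, _, rfl⟩ := fl_mem hh
      exact ⟨_, _, _, rfl⟩
  have h0' : (0 : E) ∈ convexHull ℝ (KS (md K)) := by rw [KS_md]; exact h0
  have hfac : Fac (md K) fs := by
    refine ⟨hok, fun h hh => hbd h (List.mem_append_left _ hh), fun h hh => ?_, h0'⟩
    obtain ⟨p, hp, q, hq, r, hr, rfl⟩ := fl_in hh (fun j hj => (hfc j hj).1)
    exact ⟨hp, hq, hr⟩
  have hsub : KS (md K) ⊆ L := by rw [KS_md]; exact hst.pts
  have hout : ∀ f < ln F, rp (pt (tk F) f) ∉ L := by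
    intro f hf
    rw [ln_eq] at hf
    rw [pt_tk F f hf, rp_mod]
    exact hst.out _ ⟨_, List.getElem_mem hf, rfl⟩
  have hdead : ∀ h ∈ ds, Dead L {z | (h.c : ℝ) ≤ nr h ⬝ᵥ z} := by
    intro h hh
    have hp := hpos h (List.mem_append_right _ hh)
    obtain ⟨p, h1, q, h2, r, h4, rfl⟩ := fl_in hh hdc
    exact hC.dead L hL p q r (hsub ⟨p, h1, rfl⟩) (hsub ⟨q, h2, rfl⟩) (hsub ⟨r, h4, rfl⟩) hp
  have hcd : Cu n Q nf nd (ln F) (Nat.mul 39614081257132168796771975168 (on nf))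
      (Nat.add BI (Nat.mul 4096
        (Nat.sub (Nat.shiftLeft 1 (Nat.mul 96 (Nat.add nf nd))) C0)))
      (Nat.add BI (Nat.mul (Nat.mul 4096 Q) C0))
      (fun a => vn D1 D2 D3 (Nat.mul 32768 (Nat.add (Nat.add C1 C2) C3)) (pt W a))
      (fun f => Nat.mul 4096 (vn D1 D2 D3 (Nat.mul 32768 (Nat.add (Nat.add C1 C2) C3))
        (pt (tk F) f))) W (tk F) (md K) fs ds L
      (Nat.mul 39614081257132168796771975167 (on (Nat.add nf nd))) C0
      (fun p => vn D1 D2 D3 (Nat.mul 32768 (Nat.add (Nat.add C1 C2) C3)) p)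
      (fun p => vc D1 D2 D3 (Nat.mul 33554432 (Nat.add (Nat.add C1 C2) C3)) p)
      (fun p => vn C1 C2 C3 (Nat.mul 32768 (Nat.add (Nat.add D1 D2) D3)) p) G := by
    refine ⟨⟨hfac, hbd, hC.conv L hL, hsub, lenf, lend, hQ, hQ', ?_, hn.CL hlen, ?_,
      fun a => hn.K0 _, fun f => ?_, hout, hdead⟩, hn.hC0, ?_, fun p => hn.K0 p,
      fun p => vc_rp hn p, fun p => vp_rp hn p, fun g hg a ha => ?_⟩
    · rw [pk_const, lenf, nmul]
    · refine (hn.hBI.add (hn.hC0.mul (4096 * Q))).congr (fun f _ => ?_)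
      push_cast
      ring
    · refine ((hn.K0 (pt (tk F) f)).mul 4096).congr (fun f _ => ?_)
      ring
    · have h1 := Rp.of_pk (hs := fs ++ ds) (fun _ => 39614081257132168796771975167)
      rw [pk_const, ← hlen] at h1
      exact h1.congr (fun _ _ => by norm_num)
    · exact hst.unlit _ ⟨g, hg, a, ha, rfl⟩
  have e1 : (32767 : ℕ) < 2 ^ 24 := by norm_num
  have e2 : (262143 : ℕ) < 2 ^ 24 := by norm_num
  have t1 : SndT (fs ++ ds) L (Phi (Wf n (Wl n W)) (JQ J) L) (fun E1 E2 E3 =>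
      tD n nf nd (Nat.mul 39614081257132168796771975168 (on nf)) BI C0 (Nat.add BI (Nat.mul 4096
        (Nat.sub (Nat.shiftLeft 1 (Nat.mul 96 (Nat.add nf nd))) C0)))
      (fun a => vn D1 D2 D3 (Nat.mul 32768 (Nat.add (Nat.add C1 C2) C3)) (pt W a)) 32767 25 40 55
      E1 E2 E3) := tD_sound hcd.toCd e1
  have t2 : SndT (fs ++ ds) L (Phi (Wf n (Wl n W)) (JQ J) L) (fun E1 E2 E3 =>
      tD n nf nd (Nat.mul 39614081257132168796771975168 (on nf)) BI C0 (Nat.add BI (Nat.mul 4096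
        (Nat.sub (Nat.shiftLeft 1 (Nat.mul 96 (Nat.add nf nd))) C0)))
      (fun a => vn D1 D2 D3 (Nat.mul 32768 (Nat.add (Nat.add C1 C2) C3)) (pt W a)) 262143 28 46 64
      E1 E2 E3) := tD_sound hcd.toCd e2
  have t3 : SndT (fs ++ ds) L (Phi (Wf n (Wl n W)) (JQ J) L) (fun E1 E2 E3 =>
      tN n Q (ln F) (Nat.mul 39614081257132168796771975168 (on nf)) (Nat.add BI (Nat.mul 4096
        (Nat.sub (Nat.shiftLeft 1 (Nat.mul 96 (Nat.add nf nd))) C0)))
      (Nat.add BI (Nat.mul (Nat.mul 4096 Q) C0))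
      (fun a => vn D1 D2 D3 (Nat.mul 32768 (Nat.add (Nat.add C1 C2) C3)) (pt W a))
      (fun f => Nat.mul 4096 (vn D1 D2 D3 (Nat.mul 32768 (Nat.add (Nat.add C1 C2) C3))
        (pt (tk F) f))) E1 E2 E3) := tN_sound hcd.toCd
  exact u8_sound t1 t2 t3 (tG_sound hcd J) hn h3

/-! ### trees -/

/-- all bodies of the class in the state have the property `P` -/
def GQ (P : Set E → Prop) (C : Set (Set E)) (σ : St) : Prop := ∀ L ∈ C, σ.Holds L → P L

lemma eqG_true {l : List UG} : ∀ {m : List UG}, eqG l m = true → l = m := by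
  induction l with
  | nil =>
    intro m h
    cases m with
    | nil => rfl
    | cons b m => exact absurd (show false = true from h) Bool.false_ne_true
  | cons a l ih =>
    intro m h
    cases m with
    | nil => exact absurd (show false = true from h) Bool.false_ne_true
    | cons b m =>
      obtain ⟨h1, h2⟩ := br h
      obtain ⟨h1, h3⟩ := br h1
      obtain ⟨h1, h4⟩ := br h1
      have e1 := Nat.eq_of_beq_eq_true h2
      have e2 := Nat.eq_of_beq_eq_true h3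
      have e3 := Nat.eq_of_beq_eq_true h4
      rw [ih h1]
      cases a
      cases b
      simp only at e1 e2 e3
      rw [e1, e2, e3]

lemma mg_mem {K F : List ℕ} {G : List UG} : ∀ {l : List SG} {i : ℕ}, mg K F G l i = true →
    ⟨K, F, G⟩ ∈ l := by
  intro l
  induction l with
  | nil =>
    intro i h
    exact absurd (show false = true from h) Bool.false_ne_true
  | cons s l ih =>
    intro i h
    rcases nrc h with h | ⟨j, h⟩
    · obtain ⟨h, h1⟩ := br h
      obtain ⟨h, h2⟩ := br h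
      have e1 := eq1_true h1
      have e2 := eq1_true h2
      have e3 := eqG_true h
      obtain ⟨K', F', G'⟩ := s
      simp only at e1 e2 e3
      rw [e1, e2, e3]
      simp
    · exact List.mem_cons_of_mem _ (ih h)

/-- query -/
lemma gq_query {P : Set E → Prop} {n : ℕ} {C : Set (Set E)} {K F : List ℕ} {G : List UG} (y : ℕ)
    (h1 : GQ P C (tsG n (y :: K) F G)) (h2 : GQ P C (tsG n K (y :: F) G)) :
    GQ P C (tsG n K F G) := by
  intro L hL hs
  have hp : KS K ⊆ L := hs.pts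
  have ho : ∀ x ∈ KS F, x ∉ L := hs.out
  by_cases hy : rp y ∈ L
  · refine h1 L hL ⟨?_, ho, hs.unlit⟩
    show KS (y :: K) ⊆ L
    rw [KS_cons]
    exact insert_subset hy hp
  · refine h2 L hL ⟨hp, ?_, hs.unlit⟩
    show ∀ x ∈ KS (y :: F), x ∉ L
    rw [KS_cons]
    rintro x (rfl | hx)
    · exact hy
    · exact ho x hx

/-- cover -/
lemma gq_cover {P : Set E → Prop} {n : ℕ} (hP : ∀ L, Illum L n → P L) {C : Set (Set E)}
    {σ : St} {W : ℕ} {J : Set (E × Set E)}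
    (hc : ∀ L ∈ C, σ.Holds L → ∀ x ∈ L, Phi (Wf n (Wl n W)) J L x) (hn : 0 < n)
    (hJ : ∀ k ∈ J, ∀ L ∈ C, σ.Holds L → k.1 ∈ L →
      (∃ x ∈ L, x ∈ convexHull ℝ k.2 ∧ ∀ a < n, ¬Serve L x (-(rp (pt W a)))) → P L) :
    GQ P C σ := by
  intro L hL hs
  by_cases h : ∀ x ∈ L, ∃ i, Serve L x (-(Wf n (Wl n W) i))
  · refine hP L ⟨fun i => -(Wf n (Wl n W) i), fun y hy => ?_⟩
    obtain ⟨i, t, ht, hi⟩ := h y hy
    exact ⟨i, t, ht, hi⟩
  · push Not at h
    obtain ⟨x, hx, hun⟩ := h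
    rcases hc L hL hs x hx with (hi | ⟨i, hi⟩) | ⟨k, hk, hkL, hkx⟩
    · exact absurd (serve_interior hi _) (hun ⟨0, hn⟩)
    · exact absurd hi (hun i)
    · refine hJ k hk L hL hs hkL ⟨x, hx, hkx, fun a ha => ?_⟩
      have e : Wf n (Wl n W) ⟨a, ha⟩ = rp (pt W a) := by
        rw [Wf, wv_wl ha]
        rfl
      rw [← e]
      exact hun ⟨a, ha⟩

/-- the special leaves are correct -/
def ZOK (P : Set E → Prop) (C : Set (Set E)) (Z : ZT) : Prop :=
  ∀ (K F : List ℕ) (H y e1 e2 e3 S0 S1 S2 S3 S4 S5 S6 S7 : ℕ),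
    Z K F H y e1 e2 e3 S0 S1 S2 S3 S4 S5 S6 S7 = true → (0 : E) ∈ convexHull ℝ (KS K) →
      ∀ L ∈ C, KS K ⊆ L → (∀ x ∈ KS F, x ∉ L) → P L

/-- soundness of the check -/
theorem cw_sound {P : Set E → Prop} {C : Set (Set E)} {n Q : ℕ} (hP : ∀ L, Illum L n → P L)
    (hn : 0 < n) (hC : Frm C 17179869184) (hQ : 0 < Q) (hQ' : Q ≤ 4096) {Z : ZT}
    (hZ : ZOK P C Z) {rs : List SG} (hrs : ∀ s ∈ rs, GQ P C (tsG n s.K s.F s.G)) (t : TU) :
    ∀ (V : ℕ) (K F : List ℕ) (G : List UG), (0 : E) ∈ convexHull ℝ (KS K) →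
      (cw n Q Z rs t false V K F G = true → GQ P C (tsG n K F G)) ∧
      (cw n Q Z rs t true V K F G = true → ∀ g ∈ t.kd,
        GQ P C (tsG n (g.y :: K) F (⟨g.m, g.C, V⟩ :: G))) := by
  induction t with
  | q y a b ia ib =>
    intro V K F G h0
    constructor
    · intro h
      obtain ⟨h1, h2⟩ := br h
      exact gq_query y ((ia 0 (y :: K) F G (zero_cons h0 y)).1 h2)
        ((ib 0 K (y :: F) G h0).1 h1)
    · intro h
      exact absurd (show false = true from h) Bool.false_ne_true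
  | l H W S0 S1 S2 S3 S4 S5 S6 S7 =>
    intro V K F G h0
    constructor
    · intro h
      refine gq_cover (W := W) (J := JS 4096 []) hP (fun L hL hs => ?_) hn ?_
      · refine lf_sound hC hQ hQ' h0 h L hL ⟨hs.pts, hs.out, ?_⟩
        rintro f ⟨u, hu, _⟩
        simp at hu
      · rintro _ ⟨a, ha, rfl⟩
        simp at ha
    · intro h
      exact absurd (show false = true from h) Bool.false_ne_true
  | r i =>
    intro V K F G h0
    constructor
    · intro h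
      exact hrs _ (mg_mem h)
    · intro h
      exact absurd (show false = true from h) Bool.false_ne_true
  | u H W S0 S1 S2 S3 S4 S5 S6 S7 c ic =>
    intro V K F G h0
    constructor
    · intro h
      obtain ⟨h1, h2⟩ := br h
      have hk := (ic W K F G h0).2 h1
      refine gq_cover (W := W) (J := JQ c.kd) hP (cu_sound hC hQ hQ' h0 h2) hn ?_
      rintro _ ⟨g, hg, rfl⟩ L hL hs hy ⟨x, hx, hxc, hxu⟩
      have hp : KS K ⊆ L := hs.pts
      refine hk g hg L hL ⟨?_, hs.out, ?_⟩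
      · show KS (g.y :: K) ⊆ L
        rw [KS_cons]
        exact insert_subset hy hp
      · rintro f ⟨g', hg', a, ha, rfl⟩
        rcases List.mem_cons.1 hg' with rfl | hg'
        · exact ⟨x, hx, hxc, hxu a ha⟩
        · exact hs.unlit _ ⟨g', hg', a, ha, rfl⟩
    · intro h
      exact absurd (show false = true from h) Bool.false_ne_true
  | e =>
    intro V K F G h0
    constructor
    · intro h
      exact absurd (show false = true from h) Bool.false_ne_true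
    · intro _ g hg
      have : g ∈ ([] : List KG) := hg
      simp at this
  | k y m C' a b ia ib =>
    intro V K F G h0
    constructor
    · intro h
      exact absurd (show false = true from h) Bool.false_ne_true
    · intro h g hg
      obtain ⟨h1, h2⟩ := br h
      have hg' : g ∈ (⟨y, m, C'⟩ : KG) :: b.kd := hg
      rcases List.mem_cons.1 hg' with rfl | hg'
      · exact (ia 0 (y :: K) F _ (zero_cons h0 y)).1 h2
      · exact (ib V K F G h0).2 h1 g hg'
  | z H y e1 e2 e3 S0 S1 S2 S3 S4 S5 S6 S7 =>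
    intro V K F G h0
    constructor
    · intro h L hL hs
      exact hZ K F H y e1 e2 e3 S0 S1 S2 S3 S4 S5 S6 S7 h h0 L hL hs.pts hs.out
    · intro h
      exact absurd (show false = true from h) Bool.false_ne_true

/-- without special leaves -/
noncomputable def zn : ZT := fun _ _ _ _ _ _ _ _ _ _ _ _ _ _ _ => false

lemma zn_ok (P : Set E → Prop) (C : Set (Set E)) : ZOK P C zn := fun _ _ _ _ _ _ _ _ _ _ _ _ _ _ _ h =>
  absurd (show false = true from h) Bool.false_ne_true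

/-- an accepted certificate in the frame of the simplex -/
theorem gq_of_cw {P : Set E → Prop} {n : ℕ} (hP : ∀ L, Illum L n → P L) (hn : 0 < n) {Z : ZT}
    (hZ : ZOK P (simCls 1024) Z) {rs : List SG}
    (hrs : ∀ s ∈ rs, GQ P (simCls 1024) (tsG n s.K s.F s.G)) {t : TU} {K F : List ℕ}
    {G : List UG} (h : cw n 4096 Z rs t false 0 K F G = true) (h4 : has4 K = true) :
    GQ P (simCls 1024) (tsG n K F G) :=
  (cw_sound hP hn frm_sim1024 (by norm_num) le_rfl hZ hrs t 0 K F G (zero_of_has4 h4)).1 h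

/-- an accepted certificate in the frame of the simplex, illumination -/
theorem gi_of_cw {n : ℕ} (hn : 0 < n) {rs : List SG}
    (hrs : ∀ s ∈ rs, GQ (fun L => Illum L n) (simCls 1024) (tsG n s.K s.F s.G)) {t : TU}
    {K F : List ℕ} {G : List UG} (h : cw n 4096 zn rs t false 0 K F G = true)
    (h4 : has4 K = true) :
    GQ (fun L => Illum L n) (simCls 1024) (tsG n K F G) :=
  gq_of_cw (fun _ h => h) hn (zn_ok _ _) hrs h h4

/-- a state without facts -/
theorem good_of_gi {n : ℕ} {K F : List ℕ}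
    (h : GQ (fun L => Illum L n) (simCls 1024) (tsG n K F [])) :
    Good n (simCls 1024) (toSt 4096 ⟨K, F, []⟩) := by
  intro L hL hs
  refine h L hL ⟨hs.pts, hs.out, ?_⟩
  rintro f ⟨g, hg, _⟩
  simp at hg

/-- a state without facts, general target -/
theorem goodQ_of_gq {P : Set E → Prop} {n : ℕ} {K F : List ℕ}
    (h : GQ P (simCls 1024) (tsG n K F [])) :
    ∀ L ∈ simCls 1024, (toSt 4096 ⟨K, F, []⟩).Holds L → P L := by
  intro L hL hs
  refine h L hL ⟨hs.pts, hs.out, ?_⟩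
  rintro f ⟨g, hg, _⟩
  simp at hg

end Pool.Agent.Lib.MP_5e7226_co.C8.TF
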