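import Pool.Agent.Lib.MP_5e7226_co.C8.TFN
import Pool.Agent.Lib.MP_5e7226_co.C8.TFUS3
import Pool.Agent.Lib.MP_5e7226_co.C8.T7Snd

/-!
# Soundness of the fast evaluation of the leaves near parallelepipeds
-/

set_option autoImplicit false

open Set

namespace Pool.Agent.Lib.MP_5e7226_co.C8.TF

open GB

lemma V3.pre {l m : List FD} {bd E' : ℕ} {x y z : ℤ} (h : V3 (l ++ m) bd E' x y z) :
    V3 l bd E' x y z := ⟨h.rep.pre, h.bx, h.by', h.bz⟩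

section cones

variable {nf nd nF M1 MB CL CS : ℕ} {WV FV : ℕ → ℕ} {W TF : ℕ} {K : List ℕ}
    {fs ds bs : List FD} {L : Set E}

/-- three corners in the box -/
lemma bx3_sound (hb : ∀ h ∈ (fs ++ ds) ++ bs, FB h)
    (hCL : Rp ((fs ++ ds) ++ bs) CL (fun h => 2 ^ 95 - (4096 : ℕ) * h.c))
    (hMB : MB = Nat.shiftLeft (pk (fun _ => 39614081257132168796771975168) bs)
      (Nat.mul 96 (fs ++ ds).length))
    {E1 E2 E3 r1 r2 r3 : ℕ} {x1 y1 z1 x2 y2 z2 x3 y3 z3 : ℤ}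
    (v1 : V3 ((fs ++ ds) ++ bs) 65536 E1 x1 y1 z1) (v2 : V3 ((fs ++ ds) ++ bs) 65536 E2 x2 y2 z2)
    (v3 : V3 ((fs ++ ds) ++ bs) 65536 E3 x3 y3 z3)
    (hr1 : r1 < 2 ^ 24) (hr2 : r2 < 2 ^ 24) (hr3 : r3 < 2 ^ 24)
    (ht : bx3 CL MB r1 r2 r3 E1 E2 E3 = true) :
    ∀ f ∈ bs, nr f ⬝ᵥ (((r1 : ℝ) / (4096 : ℕ)) • rv x1 y1 z1) ≤ (f.c : ℝ) ∧
      nr f ⬝ᵥ (((r2 : ℝ) / (4096 : ℕ)) • rv x2 y2 z2) ≤ (f.c : ℝ) ∧
      nr f ⬝ᵥ (((r3 : ℝ) / (4096 : ℕ)) • rv x3 y3 z3) ≤ (f.c : ℝ) := by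
  have ht' := (beq_iff _ _).1 ht
  rw [nland, nlor, nlor, nadd, nadd, nadd, nmul, nmul, nmul, hMB] at ht'
  intro f hf
  obtain ⟨i, hi, rfl⟩ := List.getElem_of_mem hf
  have hc := land_zero ht' (T7.mask_shift bs (fs ++ ds).length i hi)
  simp only [Nat.testBit_or, Bool.or_eq_false_iff] at hc
  have hg : (fs ++ ds).length + i < ((fs ++ ds) ++ bs).length := by
    rw [List.length_append (as := fs ++ ds)]; omega
  have he : ((fs ++ ds) ++ bs)[(fs ++ ds).length + i] = bs[i] := by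
    rw [List.getElem_append_right (by omega)]
    congr 1
    omega
  obtain ⟨p1, p2, p3⟩ := v1.bd
  obtain ⟨q1, q2, q3⟩ := v2.bd
  obtain ⟨o1, o2, o3⟩ := v3.bd
  have a1 := T7.bt_sound hb hg (by norm_num) le_rfl hCL v1.rep hr1 p1 p2 p3 hc.1.1
  have a2 := T7.bt_sound hb hg (by norm_num) le_rfl hCL v2.rep hr2 q1 q2 q3 hc.1.2
  have a3 := T7.bt_sound hb hg (by norm_num) le_rfl hCL v3.rep hr3 o1 o2 o3 hc.2
  rw [he] at a1 a2 a3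
  exact ⟨a1, a2, a3⟩

lemma bx_cn {Φ : E → Prop}
    (hΦ : ∀ x ∈ convexHull ℝ {z : E | ∀ f ∈ bs, nr f ⬝ᵥ z ≤ (f.c : ℝ)}, Φ x)
    {r1 r2 r3 : ℕ} {x1 y1 z1 x2 y2 z2 x3 y3 z3 : ℤ} (p1 : 0 < r1) (p2 : 0 < r2) (p3 : 0 < r3)
    (hb : ∀ f ∈ bs, nr f ⬝ᵥ (((r1 : ℝ) / (4096 : ℕ)) • rv x1 y1 z1) ≤ (f.c : ℝ) ∧
      nr f ⬝ᵥ (((r2 : ℝ) / (4096 : ℕ)) • rv x2 y2 z2) ≤ (f.c : ℝ) ∧
      nr f ⬝ᵥ (((r3 : ℝ) / (4096 : ℕ)) • rv x3 y3 z3) ≤ (f.c : ℝ))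
    (hw : Wt L r1 r2 r3 x1 y1 z1 x2 y2 z2 x3 y3 z3) :
    Cn L Φ (rv x1 y1 z1) (rv x2 y2 z2) (rv x3 y3 z3) := by
  obtain ⟨S, hS, s1, s2, s3⟩ := hw
  refine cn_base (posr p1) (posr p2) (posr p3) ?_
    (out_dead (posr p1) (posr p2) (posr p3) hS s1 s2 s3)
  intro x _ hxc
  refine hΦ x (convexHull_mono ?_ hxc)
  rintro z (rfl | rfl | rfl | rfl)
  · intro f _
    rw [dotProduct_zero]
    exact Nat.cast_nonneg _
  · exact fun f hf => (hb f hf).1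
  · exact fun f hf => (hb f hf).2.1
  · exact fun f hf => (hb f hf).2.2

lemma zE_true {E1 E2 E3 S r1 r2 r3 : ℕ} {k : ℕ → Bool}
    (ht : zE nf nd MB CL E1 E2 E3 S k r1 r2 r3 = true) :
    (r1 < 2 ^ 24 ∧ r2 < 2 ^ 24 ∧ r3 < 2 ^ 24) ∧
      bx3 CL MB r1 r2 r3 E1 E2 E3 = true ∧ wD nf nd CL r1 r2 r3 E1 E2 E3 S k = true := by
  obtain ⟨ht, h1⟩ := br ht
  obtain ⟨ht, h2⟩ := br ht
  have h1' := Nat.le_of_ble_eq_true h1
  obtain ⟨l1, l2, l3⟩ := le_lor3 r1 r2 r3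
  have key : ∀ {r : ℕ}, r ≤ 16777215 → r < 2 ^ 24 := fun hr => by omega
  exact ⟨⟨key (l1.trans h1'), key (l2.trans h1'), key (l3.trans h1')⟩, h2, ht⟩

lemma zH_true {BI H Rc E1 E2 E3 S : ℕ} {k : ℕ → Bool}
    (ht : zH nf nd MB BI CL E1 E2 E3 S k H Rc = true) :
    ∃ r1 r2 r3 : ℕ, (0 < r1 ∧ 0 < r2 ∧ 0 < r3) ∧ (r1 < 2 ^ 24 ∧ r2 < 2 ^ 24 ∧ r3 < 2 ^ 24) ∧
      bx3 CL MB r1 r2 r3 E1 E2 E3 = true ∧ wD nf nd CL r1 r2 r3 E1 E2 E3 S k = true :=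
  ⟨rd BI H Rc E1, rd BI H Rc E2, rd BI H Rc E3,
    ⟨rd_pos BI H Rc E1, rd_pos BI H Rc E2, rd_pos BI H Rc E3⟩, zE_true ht⟩

lemma zD_true {BI C0 E1 E2 E3 S : ℕ} {k : ℕ → Bool}
    (ht : zD nf nd MB BI C0 CL E1 E2 E3 S k = true) :
    ∃ H Rc : ℕ, zH nf nd MB BI CL E1 E2 E3 S k H Rc = true := ⟨_, _, ht⟩

lemma zD_sound (h : Cd 4096 nf nd nF M1 CL CS WV FV W TF K fs ds L)
    (hb : ∀ h ∈ (fs ++ ds) ++ bs, FB h)
    (hCL : Rp ((fs ++ ds) ++ bs) CL (fun h => 2 ^ 95 - (4096 : ℕ) * h.c))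
    (hMB : MB = Nat.shiftLeft (pk (fun _ => 39614081257132168796771975168) bs)
      (Nat.mul 96 (fs ++ ds).length)) {Φ : E → Prop}
    (hΦ : ∀ x ∈ convexHull ℝ {z : E | ∀ f ∈ bs, nr f ⬝ᵥ z ≤ (f.c : ℝ)}, Φ x) {BI C0 : ℕ} :
    SndT ((fs ++ ds) ++ bs) L Φ (fun E1 E2 E3 => zD nf nd MB BI C0 CL E1 E2 E3) := by
  refine ⟨?_⟩
  intro E1 E2 E3 S k x1 y1 z1 x2 y2 z2 x3 y3 z3 v1 v2 v3 ht
  obtain ⟨H, Rc, ht⟩ := zD_true ht
  obtain ⟨r1, r2, r3, ⟨p1, p2, p3⟩, ⟨k1, k2, k3⟩, h2, ht⟩ := zH_true ht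
  have hbx := bx3_sound hb hCL hMB v1 v2 v3 k1 k2 k3 h2
  obtain ⟨hw, hk⟩ := wD_sound h v1.pre v2.pre v3.pre k1 k2 k3 ht
  exact ⟨bx_cn hΦ p1 p2 p3 hbx hw, hk⟩

lemma zN_sound (h : Cd 4096 nf nd nF M1 CL CS WV FV W TF K fs ds L)
    (hb : ∀ h ∈ (fs ++ ds) ++ bs, FB h)
    (hCL : Rp ((fs ++ ds) ++ bs) CL (fun h => 2 ^ 95 - (4096 : ℕ) * h.c))
    (hMB : MB = Nat.shiftLeft (pk (fun _ => 39614081257132168796771975168) bs)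
      (Nat.mul 96 (fs ++ ds).length)) {Φ : E → Prop}
    (hΦ : ∀ x ∈ convexHull ℝ {z : E | ∀ f ∈ bs, nr f ⬝ᵥ z ≤ (f.c : ℝ)}, Φ x) :
    SndT ((fs ++ ds) ++ bs) L Φ (fun E1 E2 E3 => zN nF M1 MB CL CS FV E1 E2 E3) := by
  refine ⟨?_⟩
  intro E1 E2 E3 S k x1 y1 z1 x2 y2 z2 x3 y3 z3 v1 v2 v3 ht
  obtain ⟨ht, h1⟩ := br ht
  obtain ⟨ht, h2⟩ := br ht
  obtain ⟨ht, h3⟩ := br ht
  obtain ⟨ht, h4⟩ := br ht
  have key : ∀ s o : ℕ, f24 s o < 2 ^ 24 := fun s o =>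
    lt_of_le_of_lt (land_le _ _) (by norm_num)
  have hbx := bx3_sound hb hCL hMB v1 v2 v3 (key _ _) (key _ _) (key _ _) h4
  obtain ⟨hw, hk⟩ := wN_sound h v1.pre v2.pre v3.pre ht
  exact ⟨bx_cn hΦ (Nat.le_of_ble_eq_true h3) (Nat.le_of_ble_eq_true h2)
    (Nat.le_of_ble_eq_true h1) hbx hw, hk⟩

lemma no_sound {hs : List FD} {Φ : E → Prop} : SndT hs L Φ (fun _ _ _ _ _ => false) :=
  ⟨fun _ _ _ h => absurd h Bool.false_ne_true⟩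

end cones

/-- soundness of a leaf near a parallelepiped -/
theorem zl_core {C : Set (Set E)} (hC : Frm C 17179869184) (hcpt : ∀ L ∈ C, IsCompact L)
    {K F : List ℕ} (h0 : (0 : E) ∈ convexHull ℝ (KS K)) {H y e1 e2 e3 S0 S1 S2 S3 S4 S5 S6 S7 : ℕ}
    (h : zl K F H y e1 e2 e3 S0 S1 S2 S3 S4 S5 S6 S7 = true) :
    ∀ L ∈ C, KS K ⊆ L → (∀ x ∈ KS F, x ∉ L) → T7.Q7 L := by
  intro L hL hpts hF0
  obtain ⟨nf, hnf⟩ : ∃ nf, nf = Nat.land H 255 := ⟨_, rfl⟩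
  obtain ⟨nd, hnd⟩ : ∃ nd, nd = Nat.land (Nat.shiftRight H 8) 127 := ⟨_, rfl⟩
  obtain ⟨FC, hFC⟩ : ∃ FC, FC = Nat.shiftRight H 15 := ⟨_, rfl⟩
  obtain ⟨DC, hDC⟩ : ∃ DC, DC = Nat.shiftRight H (Nat.add 15 (Nat.mul 45 nf)) := ⟨_, rfl⟩
  have h' : z1 (ln K) (ln F) nf nd FC DC (tk K) (tk F) y e1 e2 e3 (T7.dtm e1 e2 e3)
      (fl (tk K) 0 45 nf FC) (fl (tk K) 17179869184 21 nd DC)
      (T7.boxL (T7.dtm e1 e2 e3) y e1 e2 e3) S0 S1 S2 S3 S4 S5 S6 S7 = true := by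
    rw [hDC, hFC, hnf, hnd]
    exact h
  clear h hDC hFC hnf hnd
  set fs := fl (tk K) 0 45 nf FC with hfs
  set ds := fl (tk K) 17179869184 21 nd DC with hds
  set bs := T7.boxL (T7.dtm e1 e2 e3) y e1 e2 e3 with hbs
  obtain ⟨h', kT⟩ := br h'
  obtain ⟨h', kok⟩ := br h'
  obtain ⟨h', kin⟩ := br h'
  rw [ap_eq, ap_eq] at h'
  have lenf : fs.length = nf := fl_len _ _ _ _ _
  have lend : ds.length = nd := fl_len _ _ _ _ _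
  have lenfd : (fs ++ ds).length = nf + nd := by rw [List.length_append, lenf, lend]
  have hlen : Nat.add (Nat.add nf nd) 6 = ((fs ++ ds) ++ bs).length := by
    rw [List.length_append, lenfd]; rfl
  have hbd0 : ∀ h ∈ fs ++ ds, FB h := by
    intro h hh
    rcases List.mem_append.1 hh with hh | hh
    · obtain ⟨j, _, rfl⟩ := fl_mem hh
      exact mkFD_bd (by norm_num)
    · obtain ⟨j, _, rfl⟩ := fl_mem hh
      exact mkFD_bd (by norm_num)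
  have hbd : ∀ h ∈ (fs ++ ds) ++ bs, FB h := by
    intro h hh
    rcases List.mem_append.1 hh with hh | hh
    · exact hbd0 h hh
    · exact T7.boxL_fb kok h hh
  have hn := nu_of hbd hlen
  obtain ⟨nh, hnh⟩ : ∃ X, X = Nat.add (Nat.add nf nd) 6 := ⟨_, rfl⟩
  rw [← hnh] at hn hlen
  obtain ⟨BI, hBI⟩ : ∃ X, X = Nat.mul 39614081257132168796771975168 (on nh) := ⟨_, rfl⟩
  obtain ⟨C0, hC0⟩ : ∃ X, X = pf FD.c ((fs ++ ds) ++ bs) := ⟨_, rfl⟩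
  obtain ⟨C1, hC1⟩ : ∃ X, X = Nat.add (pf FD.A1 ((fs ++ ds) ++ bs)) (Nat.sub
    (Nat.shiftLeft 1 (Nat.mul 96 nh)) (pf FD.B1 ((fs ++ ds) ++ bs))) := ⟨_, rfl⟩
  obtain ⟨C2, hC2⟩ : ∃ X, X = Nat.add (pf FD.A2 ((fs ++ ds) ++ bs)) (Nat.sub
    (Nat.shiftLeft 1 (Nat.mul 96 nh)) (pf FD.B2 ((fs ++ ds) ++ bs))) := ⟨_, rfl⟩
  obtain ⟨C3, hC3⟩ : ∃ X, X = Nat.add (pf FD.A3 ((fs ++ ds) ++ bs)) (Nat.sub
    (Nat.shiftLeft 1 (Nat.mul 96 nh)) (pf FD.B3 ((fs ++ ds) ++ bs))) := ⟨_, rfl⟩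
  obtain ⟨D1, hD1⟩ : ∃ X, X = Nat.add (pf FD.B1 ((fs ++ ds) ++ bs)) (Nat.sub
    (Nat.shiftLeft 1 (Nat.mul 96 nh)) (pf FD.A1 ((fs ++ ds) ++ bs))) := ⟨_, rfl⟩
  obtain ⟨D2, hD2⟩ : ∃ X, X = Nat.add (pf FD.B2 ((fs ++ ds) ++ bs)) (Nat.sub
    (Nat.shiftLeft 1 (Nat.mul 96 nh)) (pf FD.A2 ((fs ++ ds) ++ bs))) := ⟨_, rfl⟩
  obtain ⟨D3, hD3⟩ : ∃ X, X = Nat.add (pf FD.B3 ((fs ++ ds) ++ bs)) (Nat.sub
    (Nat.shiftLeft 1 (Nat.mul 96 nh)) (pf FD.A3 ((fs ++ ds) ++ bs))) := ⟨_, rfl⟩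
  rw [← hBI, ← hC0, ← hC1, ← hC2, ← hC3, ← hD1, ← hD2, ← hD3] at hn
  have h3 : z3 (ln K) (ln F) nf nd nh FC DC (tk K) (tk F)
      (Nat.mul 39614081257132168796771975168 (on nf))
      (Nat.shiftLeft (Nat.mul 39614081257132168796771975168 (on 6)) (Nat.mul 96 (Nat.add nf nd)))
      BI C0 C1 C2 C3 D1 D2 D3 S0 S1 S2 S3 S4 S5 S6 S7 = true := by
    rw [hBI, hC0, hC1, hC2, hC3, hD1, hD2, hD3, hnh]
    exact h'
  clear h' hC0 hC1 hC2 hC3 hD1 hD2 hD3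
  obtain ⟨h3, k1⟩ := br h3
  obtain ⟨h3, k2⟩ := br h3
  obtain ⟨h3, k3⟩ := br h3
  obtain ⟨h3, k4⟩ := br h3
  obtain ⟨h3, k5⟩ := br h3
  have k2' : 1 ≤ nf := Nat.le_of_ble_eq_true k2
  -- the offsets are positive
  have hCC := hn.CC hlen
  have hpos : ∀ h ∈ (fs ++ ds) ++ bs, 0 < h.c := by
    have e1 : BI = pk (fun _ => 39614081257132168796771975168) ((fs ++ ds) ++ bs) := by
      rw [pk_const, hBI, hlen]; rfl
    rw [e1] at k5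
    have k5' := set_of_mask ((beq_iff _ _).1 k5)
    have hs1 := sign_set hCC (fun f hf => by
      have a2 : (f.c : ℤ) < 2 ^ 56 := by exact_mod_cast (hbd f hf).c
      have a3 : (0 : ℤ) ≤ f.c := Nat.cast_nonneg _
      constructor
      · norm_num; linarith
      · norm_num at a2 ⊢; linarith) k5'
    intro f hf
    have := hs1 f hf
    omega
  -- the facets
  have hfc := fc_true k4
  have hdc := dc_true k3
  have hV : ∀ k, Rp (fs ++ ds) (Nat.add (Nat.add C0 (Nat.mul 39614081257132168796771975167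
      (on nh))) (vn D1 D2 D3 (Nat.mul 32768 (Nat.add (Nat.add C1 C2) C3))
      (pt (tk K) k))) (fun h => 2 ^ 95 + ((h.c : ℤ) - 1 -
      dz h (ix (pt (tk K) k)) (iy (pt (tk K) k)) (iz (pt (tk K) k)))) := by
    intro k
    refine ((hCC.add (hn.K0 (pt (tk K) k))).pre).congr (fun f _ => ?_)
    ring
  have hgood : ∀ h ∈ fs, FGood fs h := by
    intro h hh
    have hp := hpos h (List.mem_append_left _ (List.mem_append_left _ hh))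
    obtain ⟨j, hj, rfl⟩ := fl_mem hh
    obtain ⟨_, n1, n2, n3⟩ := hfc j hj
    exact ⟨hp, nb_facet hfs hbd0 hV n1, nb_facet hfs hbd0 hV n2, nb_facet hfs hbd0 hV n3⟩
  have hok : FctOk (fs.map toF) := by
    refine fctOk_of ?_ hgood ?_
    · intro he
      rw [he] at lenf
      simp at lenf
      omega
    · intro h hh
      obtain ⟨j, _, rfl⟩ := fl_mem hh
      exact ⟨_, _, _, rfl⟩
  have h0' : (0 : E) ∈ convexHull ℝ (KS (md K)) := by rw [KS_md]; exact h0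
  have hfac : Fac (md K) fs := by
    refine ⟨hok, fun h hh => hbd0 h (List.mem_append_left _ hh), fun h hh => ?_, h0'⟩
    obtain ⟨p, hp, q, hq, r, hr, rfl⟩ := fl_in hh (fun j hj => (hfc j hj).1)
    exact ⟨hp, hq, hr⟩
  have hsub : KS (md K) ⊆ L := by rw [KS_md]; exact hpts
  have hout : ∀ f < ln F, rp (pt (tk F) f) ∉ L := by
    intro f hf
    rw [ln_eq] at hf
    rw [pt_tk F f hf, rp_mod]
    exact hF0 _ ⟨_, List.getElem_mem hf, rfl⟩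
  have hdead : ∀ h ∈ ds, Dead L {z | (h.c : ℝ) ≤ nr h ⬝ᵥ z} := by
    intro h hh
    have hp := hpos h (List.mem_append_left _ (List.mem_append_right _ hh))
    obtain ⟨p, h1, q, h2, r, h4, rfl⟩ := fl_in hh hdc
    exact hC.dead L hL p q r (hsub ⟨p, h1, rfl⟩) (hsub ⟨q, h2, rfl⟩) (hsub ⟨r, h4, rfl⟩) hp
  have hCL := hn.CL hlen
  have hcd : Cd 4096 nf nd (ln F) (Nat.mul 39614081257132168796771975168 (on nf))
      (Nat.add BI (Nat.mul 4096 (Nat.sub (Nat.shiftLeft 1 (Nat.mul 96 nh)) C0)))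
      (Nat.add BI (Nat.mul (Nat.mul 4096 4096) C0))
      (fun a => vn D1 D2 D3 (Nat.mul 32768 (Nat.add (Nat.add C1 C2) C3)) (pt 0 a))
      (fun f => Nat.mul 4096 (vn D1 D2 D3 (Nat.mul 32768 (Nat.add (Nat.add C1 C2) C3))
        (pt (tk F) f))) 0 (tk F) (md K) fs ds L := by
    refine ⟨hfac, hbd0, hC.conv L hL, hsub, lenf, lend, by norm_num, le_rfl, ?_, hCL.pre, ?_,
      fun a => (hn.K0 _).pre, fun f => ?_, hout, hdead⟩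
    · rw [pk_const, lenf, nmul]
    · refine ((hn.hBI.add (hn.hC0.mul (4096 * 4096))).pre).congr (fun f _ => ?_)
      push_cast
      ring
    · refine (((hn.K0 (pt (tk F) f)).mul 4096).pre).congr (fun f _ => ?_)
      ring
  have hMB : Nat.shiftLeft (Nat.mul 39614081257132168796771975168 (on 6))
      (Nat.mul 96 (Nat.add nf nd)) =
      Nat.shiftLeft (pk (fun _ => 39614081257132168796771975168) bs)
      (Nat.mul 96 (fs ++ ds).length) := by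
    rw [pk_const, lenfd]
    rfl
  have hbox : ∀ x ∈ convexHull ℝ {z : E | ∀ f ∈ bs, nr f ⬝ᵥ z ≤ (f.c : ℝ)},
      x ∈ T7.Bx (rp y) (rp e1) (rp e2) (rp e3) := by
    intro x hx
    refine convexHull_min ?_ (T7.convex_Bx _ _ _ _) hx
    exact fun z hz => T7.mem_Bx kok hz
  have hall : ∀ x ∈ L, x ∈ T7.Bx (rp y) (rp e1) (rp e2) (rp e3) :=
    o8_sound (zD_sound hcd hbd hCL hMB hbox) no_sound (zN_sound hcd hbd hCL hMB hbox) hn h3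
  have hdet : T7.D3 (rp e1) (rp e2) (rp e3) ≠ 0 := by
    intro hz
    have a1 := T7.dtm_eq e1 e2 e3
    rw [hz, abs_zero] at a1
    have a2 : T7.dtm e1 e2 e3 = 0 := by exact_mod_cast a1
    have a3 : 1 ≤ T7.dtm e1 e2 e3 := Nat.le_of_ble_eq_true kT
    rw [a2] at a3
    exact absurd a3 (by norm_num)
  refine T7.near_box (hC.conv L hL) (hcpt L hL) hdet ?_ hall
  intro a b c ha hb hc
  refine convexHull_min hsub (hC.conv L hL) (hfac.mem ?_)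
  intro f hfm
  exact T7.inF_sound (T7.inL_sound kin f hfm) ha hb hc

/-- the check of the leaves near parallelepipeds is correct -/
theorem zl_sound : ZOK T7.Q7 (simCls 1024) zl := by
  intro K F H y e1 e2 e3 S0 S1 S2 S3 S4 S5 S6 S7 h h0 L hL hK hF
  exact zl_core frm_sim1024 (fun _ hL => (simCls_facts hL).1) h0 h L hL hK hF

end Pool.Agent.Lib.MP_5e7226_co.C8.TF
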