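import Pool.Agent.Lib.MP_5e7226_co.C8.TSub
import Pool.Agent.Lib.MP_5e7226_co.C8.TFNS
import Pool.Agent.Lib.MP_5e7226_co.C8.T7State

/-!
# The certificates for the case of equality, seven directions
-/

set_option autoImplicit false

open Set

namespace Pool.Agent.Lib.MP_5e7226_co.C8.TF

open GB

/-- the statement for a state, seven directions or a parallelepiped -/
def G7 (s : SG) : Prop := GQ T7.Q7 (simCls 1024) (tsG 7 s.K s.F s.G)

/-- an accepted certificate, seven directions -/
theorem g7_of_ct {rs : List SG} (hrs : ∀ s ∈ rs, G7 s) {t : TU} {K F : List ℕ} {G : List UG}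
    (h : ct 7 4096 zl rs t false 0 K F G = true) (h4 : has4 K = true) : G7 ⟨K, F, G⟩ :=
  gq_of_ct T7.tgt7.ill (by norm_num) zl_sound hrs h h4

/-- an accepted certificate with the references of equal states -/
theorem g7_of_cw {rs : List SG} (hrs : ∀ s ∈ rs, G7 s) {t : TU} {K F : List ℕ} {G : List UG}
    (h : cw 7 4096 zl rs t false 0 K F G = true) (h4 : has4 K = true) : G7 ⟨K, F, G⟩ :=
  gq_of_cw T7.tgt7.ill (by norm_num) zl_sound hrs h h4

/-- a packed state gives a state of the root chain -/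
theorem root_of_g7 {K F : List ℕ} {K' F' : List (ℤ × ℤ × ℤ)} (h : G7 ⟨K, F, []⟩)
    (hK : subZ K K' = true) (hF : subZ F F' = true) :
    T7.GoodQ T7.Q7 (simCls 1024) ⟨ptsZ K', ptsZ F', ∅⟩ := by
  have h1 : T7.GoodQ T7.Q7 (simCls 1024) (toSt 4096 ⟨K, F, []⟩) := goodQ_of_gq h
  refine h1.mono (subZ_sound hK) (subZ_sound hF) ?_
  rintro f ⟨u, hu, -⟩
  simp at hu

/-- the bodies with seven directions -/
theorem illum7_of_root {ys : List (ℤ × ℤ × ℤ)} (h : T7.RootQ T7.Q7 1024 [] ys) (S : Set E)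
    (hc : Convex ℝ S) (hk : IsCompact S) (hi : (interior S).Nonempty) :
    Illum S 7 ∨ L7.IsPar S :=
  T7.body_of_root T7.tgt7 (by norm_num) h S hc hk hi

end Pool.Agent.Lib.MP_5e7226_co.C8.TF
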