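import Pool.Agent.Lib.MP_5e7226_co.C8.TRS4
import Pool.Agent.Lib.MP_5e7226_co.C8.T7U

/-!
# The certificates for the case of equality, seven directions, format with a scale of the radii
-/

set_option autoImplicit false

open Set

namespace Pool.Agent.Lib.MP_5e7226_co.C8.TR

open GB TF

/-- an accepted certificate, seven directions -/
theorem g7_of_cw {rs : List SG} (hrs : ∀ s ∈ rs, G7 s) {t : TU} {K F : List ℕ} {G : List UG}
    (h : cw 7 zl rs t false 0 K F G = true) (h4 : has4 K = true) : G7 ⟨K, F, G⟩ :=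
  gq_of_cw T7.tgt7.ill (by norm_num) zl_sound hrs h h4

/-- an accepted certificate, eight directions -/
theorem g8_of_cw {rs : List SG} (hrs : ∀ s ∈ rs, G8 s) {t : TU} {K F : List ℕ} {G : List UG}
    (h : cw 8 zn rs t false 0 K F G = true) (h4 : has4 K = true) : G8 ⟨K, F, G⟩ :=
  gi_of_cw (by norm_num) hrs h h4

end Pool.Agent.Lib.MP_5e7226_co.C8.TR
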