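import Pool.Agent.Lib.MP_5e7226_co.C8.TMT
import Pool.Agent.Lib.MP_5e7226_co.C8.T7P

/-!
# Trees of leaves as terms, seven directions

The leaves are as for eight directions; a further kind of leaves is near a parallelepiped.
-/

set_option autoImplicit false

open Set

namespace Pool.Agent.Lib.MP_5e7226_co.C8.TM

open GB C8.TF TP

/-- the statement of a state without facts: the bodies are illuminated by seven directions or are
parallelepipeds -/
def T7q (K F : List ℕ) : Prop :=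
  (0 : E) ∈ convexHull ℝ (KS K) → GQ T7.Q7 (simCls 1024) (tsG 7 K F [])

/-- a query -/
theorem nd7 {K F : List ℕ} (y : ℕ) (a : T7q (y :: K) F) (b : T7q K (y :: F)) : T7q K F :=
  fun h0 => gq_query y (a (zero_cons h0 y)) (b h0)

/-- a leaf with a surface -/
theorem lv7 {K F : List ℕ} (H W V S : ℕ) (h : lm 7 K F H W V S = true) : T7q K F :=
  fun h0 L hL hs => T7.tgt7.ill L (zm_ok (n := 7) (by norm_num) K F H W V S 0 0 0 0 0 0 0 0 0 h h0
    L hL hs.pts hs.out)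

/-- a leaf with cones -/
theorem lc7 {K F : List ℕ} (H W S0 S1 S2 S3 S4 S5 S6 S7 : ℕ)
    (h : TP.lf 7 K F H W S0 S1 S2 S3 S4 S5 S6 S7 = true) : T7q K F := by
  intro h0
  refine gq_cover (W := W) (J := JQ []) T7.tgt7.ill (fun L hL hs => ?_) (by norm_num) ?_
  · refine lf_sound frm_sim1024 h0 h L hL ⟨hs.pts, hs.out, ?_⟩
    rintro f ⟨u, hu, _⟩
    simp at hu
  · rintro _ ⟨a, ha, rfl⟩
    simp at ha

/-- a leaf with cones, general format -/
theorem lu7 {K F : List ℕ} (H W S0 S1 S2 S3 S4 S5 S6 S7 : ℕ)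
    (h : TR.cu 7 K F [] [] H W S0 S1 S2 S3 S4 S5 S6 S7 = true) : T7q K F := by
  intro h0
  refine gq_cover (W := W) (J := JQ []) T7.tgt7.ill (TR.cu_sound frm_sim1024 h0 h)
    (by norm_num) ?_
  rintro _ ⟨a, ha, rfl⟩
  simp at ha

/-- a leaf near a parallelepiped -/
theorem lz7 {K F : List ℕ} (H y e1 e2 e3 S0 S1 S2 S3 S4 S5 S6 S7 : ℕ)
    (h : zl K F H y e1 e2 e3 S0 S1 S2 S3 S4 S5 S6 S7 = true) : T7q K F :=
  fun h0 L hL hs => zl_sound K F H y e1 e2 e3 S0 S1 S2 S3 S4 S5 S6 S7 h h0 L hL hs.pts hs.out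

/-- a state which is done -/
theorem rf7 {K F : List ℕ} {s : SG} (g : G7 s) (h : rb K F s = true) : T7q K F := by
  intro _
  obtain ⟨h, h1⟩ := br h
  obtain ⟨h, h2⟩ := br h
  have g' : GQ T7.Q7 (simCls 1024) (tsG 7 s.K s.F s.G) := g
  exact TR.gq_mono g' (TR.sb_sub h1) (TR.sb_sub h2) (by rw [ng_nil h]; simp)

/-- the end -/
theorem fin7 {s : SG} (t : T7q s.K s.F) (h : h4 s = true) : G7 s := by
  obtain ⟨h, h1⟩ := br h
  show GQ T7.Q7 (simCls 1024) (tsG 7 s.K s.F s.G)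
  rw [ng_nil h]
  exact t (zero_of_has4 h1)

end Pool.Agent.Lib.MP_5e7226_co.C8.TM
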