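import Pool.Agent.Lib.MP_5e7226_co.C8.TYV
import Pool.Agent.Lib.MP_5e7226_co.C8.TMT7

/-!
# Certificates with a triangulated surface, short form: the leaf
-/

set_option autoImplicit false

open Set

namespace Pool.Agent.Lib.MP_5e7226_co.C8.TY

open GB C8.TF TP TM

/-- a number with given entries -/
lemma ex_W (n : ℕ) (g : ℕ → ℕ) (hg : ∀ a, g a < 2 ^ 48) : ∃ W, ∀ a < n, pt W a = g a := by
  refine ⟨tk ((List.range n).map g), fun a ha => ?_⟩
  rw [pt_tk _ a (by simpa using ha)]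
  simp only [List.getElem_map, List.getElem_range]
  exact Nat.mod_eq_of_lt (hg a)

lemma pw_lt (g w m S : ℕ) : pw g w m S < 2 ^ 48 :=
  lt_of_le_of_lt (land_le _ _) (by norm_num)

/-- the checks with the packed numbers -/
theorem m3_sound {n a P e nf nd' nu UF fw mf ku gw ww SW SV nv BI MM C0 C1 C2 C3 D1 D2 D3 W : ℕ}
    {K F : List ℕ} {fs ds : List FD} {L : Set E} {J : Set (E × Set E)} (hn : 0 < n)
    (hPe : P = 2 ^ e) (hP2 : P ≤ 128) (hf : nf = fs.length) (hd : nd' = ds.length)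
    (hMM : MM = 2 ^ (96 * (fs ++ ds).length)) (hfa : Fa K fs) (hbd : ∀ h ∈ fs ++ ds, FB h)
    (hconv : Convex ℝ L) (hsub : KS K ⊆ L)
    (hdead : ∀ h ∈ ds, Dead L {z | (h.c : ℝ) ≤ nr h ⬝ᵥ z})
    (hnu : Nu (fs ++ ds) BI C0 C1 C2 C3 D1 D2 D3)
    (hout : ∀ f < F.length, rp (pt (tk F) f) ∉ L)
    (hW : ∀ b < n, pt W b = pw gw ww (Nat.sub (Nat.shiftLeft 1 ww) 1)
      (SW / 2 ^ (Nat.mul 3 ww * b)))
    (hh : m3 n a P e nf nd' nu UF (tk F) fw mf ku gw ww SW SV nv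
      (Nat.mul 39614081257132168796771975168 (on nf)) BI MM C0 C1 C2 C3 D1 D2 D3 = true) :
    ∀ x ∈ L, Phi (Wf n (Wl n W)) J L x := by
  obtain ⟨R, hR⟩ : ∃ R, R = Nat.mul 4096 P := ⟨_, rfl⟩
  obtain ⟨DR, hDR⟩ : ∃ DR, DR = Nat.mul 4194304 (Nat.mul P P) := ⟨_, rfl⟩
  obtain ⟨o, ho⟩ : ∃ o, o = Nat.mul 8192 P := ⟨_, rfl⟩
  obtain ⟨K0, hK0⟩ : ∃ X, X = Nat.mul 32768 (Nat.add (Nat.add C1 C2) C3) := ⟨_, rfl⟩
  obtain ⟨MK, hMK⟩ : ∃ X, X = Nat.sub (Nat.shiftLeft 1 (Nat.mul 96 nf)) 1 := ⟨_, rfl⟩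
  obtain ⟨NC, hNC⟩ : ∃ X, X = Nat.mul R (Nat.sub MM C0) := ⟨_, rfl⟩
  obtain ⟨M1, hM1⟩ : ∃ X, X = Nat.mul 39614081257132168796771975168 (on nf) := ⟨_, rfl⟩
  obtain ⟨G0, hG0⟩ : ∃ X, X = Nat.add NC (Nat.mul (Nat.mul 2048 o) (Nat.add (Nat.add D1 D2) D3)) :=
    ⟨_, rfl⟩
  obtain ⟨F0, hF0⟩ : ∃ X, X = Nat.mul o 15129776317850095819272324571697626502927776504971003431559740999711420192968998777769829577124329729835674319858990410296955095807970386681061193967927281452375648075600104164278909904329953814850599592770590980758069220374690637827807629662352672380846434752022160216314530570959875962014528226386163127205385323615395223498354252437284493313818396117421013705448505016828976188883743734392145285326261049574016963451835089164893014262154169181289151113656914990275436268339144943845594405340739440328626546546743181311 := ⟨_, rfl⟩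
  have h1 : @Bool.rec (fun _ => Bool) false
      (ch (fun S => Nat.land (vn D1 D2 D3 K0 (pw gw ww (Nat.sub (Nat.shiftLeft 1 ww) 1) S)) MK)
        (Nat.mul 3 ww) (Nat.sub n 1) SW (fun WV =>
        ch (fun S => Nat.land (Nat.add (Nat.add BI (Nat.mul DR C0)) (Nat.mul DR (vn D1 D2 D3 K0
            (pt (tk F) (Nat.land S mf))))) MK) fw nu UF (fun FV =>
          sf (v1 (ll WV M1 (Nat.land (Nat.sub (Nat.shiftLeft 1 a) 1) 15) (Nat.succ a)
              (Nat.add e 11) (Nat.sub (Nat.mul 2048 P) 1))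
            (ld FV M1 (Nat.land (Nat.sub (Nat.shiftLeft 1 ku) 1) 31) (Nat.succ ku)
              (Nat.add e 9) (Nat.sub (Nat.mul 512 P) 1))
            MK (Nat.mul 96 nf) (Nat.mul 39614081257132168796771975168 (on nd')) BI
            G0 (Nat.mul 2048 C1) (Nat.mul 2048 C2) (Nat.mul 2048 C3) F0) e P M1 nv SV)))
      (TY.ux (tk F) fw mf (Nat.succ nu) UF) = true := by
    rw [hG0, hF0, hM1, hNC, hMK, hK0, ho, hDR, hR]
    exact hh
  clear hh
  obtain ⟨h2, hu⟩ := br h1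
  clear h1
  rw [ch_eq, ch_eq] at h2
  have hP1 : 0 < P := by rw [hPe]; positivity
  have hR' : R = 4096 * P := hR
  have ho' : o = 8192 * P := ho
  have hDR' : DR = 1024 * P * R := by
    rw [hDR, hR', nmul, nmul]
    ring
  have hMK' : MK = 2 ^ (96 * fs.length) - 1 := by
    rw [hMK, nshl, nmul, one_mul, hf]
    rfl
  have hK := hnu.K0
  rw [← hK0] at hK
  have hNCr : Rp (fs ++ ds) NC (fun h => -(R * h.c)) := by
    rw [hNC]
    refine ((hnu.hC0.neg hMM (by rw [hMM]; exact hnu.hC0le)).mul R).congr (fun f _ => ?_)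
    ring
  refine sf_sound (K := K) (fs := fs) (ds := ds) (R := R) (P := P) (o := o)
    (DW := fun a => min a (n - 1))
    (FP := fun j => pt (tk F) (Nat.land (UF / 2 ^ (fw * min j nu)) mf)) ?_ ?_ hPe
    (land_le _ _) (land_le _ _) h2
  · refine ⟨hfa, hbd, hconv, hsub, hP1, hP2, hR', ho', ?_, hMK', ?_, ?_, hnu.hBI, ?_, ?_, ?_, ?_,
      fun a => ?_, fun j => ⟨?_, ?_⟩, hdead⟩
    · rw [hM1, pk_const, hf]
      rfl
    · rw [nmul, hf]
    · rw [pk_const, hd]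
      rfl
    · rw [hG0]
      refine (hNCr.add (((hnu.hD1.add hnu.hD2).add hnu.hD3).mul (2048 * o))).congr
        (fun f _ => ?_)
      simp only [dz]
      push_cast
      ring
    · refine (hnu.hC1.mul 2048).congr (fun f _ => ?_)
      simp only [dz]
      push_cast
      ring
    · refine (hnu.hC2.mul 2048).congr (fun f _ => ?_)
      simp only [dz]
      push_cast
      ring
    · refine (hnu.hC3.mul 2048).congr (fun f _ => ?_)
      simp only [dz]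
      push_cast
      ring
    · have ha : min a (n - 1) < n := by omega
      show Rp fs (Nat.land (vn D1 D2 D3 K0 (pw gw ww (Nat.sub (Nat.shiftLeft 1 ww) 1)
        (SW / 2 ^ (Nat.mul 3 ww * min a (n - 1))))) MK) _
      rw [wv_wl ha, ← hW _ ha]
      exact rp_mask (ds := ds) hMK' (hK _)
    · have := TY.ux_sound (F := F) (Nat.succ nu) UF hu (min j nu)
        (by rw [Nat.succ_eq_add_one]; omega)
      rw [nshr] at this
      exact hout _ this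
    · refine rp_mask (ds := ds) hMK' ?_
      refine ((hnu.hBI.add (hnu.hC0.mul DR)).add ((hK _).mul DR)).congr (fun f _ => ?_)
      rw [hDR']
      push_cast
      ring
  · rw [hF0]
    exact lan_of (by omega)

/-- soundness of a leaf -/
theorem lm_sound {C : Set (Set E)} (hC : Frm C 17179869184) {n a : ℕ} (hn : 0 < n)
    {K F : List ℕ} {H : ℕ} (h : lm n a K F H = true) :
    ∃ W, ∀ L ∈ C, KS K ⊆ L → (∀ x ∈ KS F, x ∉ L) →
      ∀ x ∈ L, Phi (Wf n (Wl n W)) (JQ []) L x := by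
  obtain ⟨nd, hnd⟩ : ∃ nd, nd = Nat.land (Nat.shiftRight H 3) 63 := ⟨_, rfl⟩
  obtain ⟨nu, hnu⟩ : ∃ nu, nu = Nat.land (Nat.shiftRight H 9) 31 := ⟨_, rfl⟩
  obtain ⟨nh, hnh⟩ : ∃ nh, nh = Nat.land (Nat.shiftRight H 14) 63 := ⟨_, rfl⟩
  obtain ⟨nv, hnv⟩ : ∃ nv, nv = Nat.land (Nat.shiftRight H 20) 255 := ⟨_, rfl⟩
  obtain ⟨kw, hkw⟩ : ∃ kw, kw = Nat.land (Nat.shiftRight H 28) 7 := ⟨_, rfl⟩
  obtain ⟨fw, hfw⟩ : ∃ fw, fw = Nat.land (Nat.shiftRight H 31) 15 := ⟨_, rfl⟩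
  obtain ⟨ku, hku⟩ : ∃ ku, ku = Nat.land (Nat.shiftRight H 35) 7 := ⟨_, rfl⟩
  obtain ⟨gw, hgw⟩ : ∃ gw, gw = Nat.land (Nat.shiftRight H 38) 7 := ⟨_, rfl⟩
  obtain ⟨e, he⟩ : ∃ e, e = Nat.land H 7 := ⟨_, rfl⟩
  obtain ⟨mk, hmk⟩ : ∃ mk, mk = Nat.sub (Nat.shiftLeft 1 kw) 1 := ⟨_, rfl⟩
  obtain ⟨mf, hmf⟩ : ∃ mf, mf = Nat.sub (Nat.shiftLeft 1 fw) 1 := ⟨_, rfl⟩
  obtain ⟨ww, hww⟩ : ∃ ww, ww = Nat.sub 16 gw := ⟨_, rfl⟩
  obtain ⟨SO, hSO⟩ : ∃ SO, SO = Nat.shiftRight H 41 := ⟨_, rfl⟩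
  obtain ⟨SH, hSH⟩ : ∃ SH, SH = Nat.shiftRight SO (Nat.sub (Nat.mul 4 nh) 10) := ⟨_, rfl⟩
  obtain ⟨SD, hSD⟩ : ∃ SD, SD = Nat.shiftRight SH (Nat.mul kw nh) := ⟨_, rfl⟩
  obtain ⟨SU, hSU⟩ : ∃ SU, SU = Nat.shiftRight SD (Nat.mul (Nat.mul 3 kw) nd) := ⟨_, rfl⟩
  have h0 : m1 n a e nd nu nh nv kw mk fw mf ku gw ww (tk K) (tk F) SO SH SD SU = true := by
    rw [hSU, hSD, hSH, hSO, hww, hmf, hmk, he, hgw, hku, hfw, hkw, hnv, hnh, hnu, hnd]
    exact h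
  have he7 : e ≤ 7 := by
    rw [he]
    exact land_le _ _
  clear h hnd hnu hnh hnv hkw hfw hku hgw hmk hmf hww hSO hSH hSD hSU he
  obtain ⟨SW, hSW⟩ : ∃ SW, SW = Nat.shiftRight SU (Nat.mul fw (Nat.succ nu)) := ⟨_, rfl⟩
  obtain ⟨SV, hSV⟩ : ∃ SV, SV = Nat.shiftRight SW (Nat.mul (Nat.mul 3 n) ww) := ⟨_, rfl⟩
  have h1 : TY.dl (tk K) kw mk nd SD (Ac.mk 0 0 0 0 0) (fun u => TY.hv (tk K) kw mk nh SH Fr.e
      (fun Q => TY.f0 Ac ht (m2 n a e nd nu SU (tk F) fw mf ku gw ww SW SV nv)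
        (Nat.sub (Nat.add nh nh) 5) SO Q u)) = true := by
    rw [hSV, hSW]
    exact h0
  clear h0 hSW hSV
  obtain ⟨W, hW⟩ := ex_W n (fun b => pw gw ww (Nat.sub (Nat.shiftLeft 1 ww) 1)
    (SW / 2 ^ (Nat.mul 3 ww * b))) (fun b => pw_lt _ _ _ _)
  refine ⟨W, fun L hL hKL hFL => ?_⟩
  obtain ⟨ds, u1, h2, hdl, hd1, hd2⟩ := TY.dl_sound nd SD _ _ h1
  obtain ⟨Q', h3, hq⟩ := TY.hv_sound nh SH Fr.e _ h2
  obtain ⟨l, hl⟩ := hq ⟨[], AV_e _⟩
  obtain ⟨fs, u2, h4, hfne, hf1, hf2, hmem, hint, hzero⟩ := TY.hull_sound hl h3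
  have hr : Rs (fs ++ (ds ++ [])) u2 := hf1 _ (hd1 [] rfl)
  rw [List.append_nil] at hr
  have hbd : ∀ h ∈ fs ++ ds, FB h := by
    intro h hh
    rcases List.mem_append.1 hh with hh | hh
    · exact (hf2 h hh).2
    · exact (hd2 h hh).2.1
  have hsub : KS (md K) ⊆ L := by rw [KS_md]; exact hKL
  have hfa : Fa (md K) fs := ⟨fun h hh => (hf2 h hh).2, hmem, hint, hzero⟩
  have hdead : ∀ h ∈ ds, Dead L {z | (h.c : ℝ) ≤ nr h ⬝ᵥ z} := by
    intro h hh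
    obtain ⟨hp, _, p, h1, q, h2, r, h4, rfl⟩ := hd2 h hh
    exact hC.dead L hL p q r (hsub ⟨p, h1, rfl⟩) (hsub ⟨q, h2, rfl⟩) (hsub ⟨r, h4, rfl⟩) hp
  have hout : ∀ f < F.length, rp (pt (tk F) f) ∉ L := by
    intro f hf
    rw [pt_tk F f hf, rp_mod]
    exact hFL _ ⟨_, List.getElem_mem hf, rfl⟩
  have hPe : Nat.shiftLeft 1 e = 2 ^ e := by rw [nshl, one_mul]
  have hP2 : Nat.shiftLeft 1 e ≤ 128 := by
    rw [nshl, one_mul]
    calc 2 ^ e ≤ 2 ^ 7 := Nat.pow_le_pow_right (by norm_num) he7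
      _ = 128 := by norm_num
  have hnl : Nat.sub (fs ++ ds).length nd = fs.length := by
    rw [List.length_append, hdl, nsub, Nat.add_sub_cancel]
  have hMM : Nat.shiftLeft 1 (Nat.mul 96 (fs ++ ds).length) = 2 ^ (96 * (fs ++ ds).length) := by
    rw [nshl, nmul, one_mul]
  rw [hr] at h4
  have h5 : m3 n a (Nat.shiftLeft 1 e) e (Nat.sub (fs ++ ds).length nd) nd nu SU (tk F) fw mf ku
      gw ww SW SV nv
      (Nat.mul 39614081257132168796771975168 (on (Nat.sub (fs ++ ds).length nd)))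
      (Nat.mul 39614081257132168796771975168 (on (fs ++ ds).length))
      (Nat.shiftLeft 1 (Nat.mul 96 (fs ++ ds).length)) (pk FD.c (fs ++ ds))
      (Nat.add (pk (fun h => h.A1 + 2 ^ 63 - h.B1) (fs ++ ds)) (Nat.sub
        (Nat.shiftLeft 1 (Nat.mul 96 (fs ++ ds).length))
        (Nat.mul 9223372036854775808 (on (fs ++ ds).length))))
      (Nat.add (pk (fun h => h.A2 + 2 ^ 63 - h.B2) (fs ++ ds)) (Nat.sub
        (Nat.shiftLeft 1 (Nat.mul 96 (fs ++ ds).length))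
        (Nat.mul 9223372036854775808 (on (fs ++ ds).length))))
      (Nat.add (pk (fun h => h.A3 + 2 ^ 63 - h.B3) (fs ++ ds)) (Nat.sub
        (Nat.shiftLeft 1 (Nat.mul 96 (fs ++ ds).length))
        (Nat.mul 9223372036854775808 (on (fs ++ ds).length))))
      (Nat.add (Nat.mul 9223372036854775808 (on (fs ++ ds).length)) (Nat.sub
        (Nat.shiftLeft 1 (Nat.mul 96 (fs ++ ds).length))
        (pk (fun h => h.A1 + 2 ^ 63 - h.B1) (fs ++ ds))))
      (Nat.add (Nat.mul 9223372036854775808 (on (fs ++ ds).length)) (Nat.sub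
        (Nat.shiftLeft 1 (Nat.mul 96 (fs ++ ds).length))
        (pk (fun h => h.A2 + 2 ^ 63 - h.B2) (fs ++ ds))))
      (Nat.add (Nat.mul 9223372036854775808 (on (fs ++ ds).length)) (Nat.sub
        (Nat.shiftLeft 1 (Nat.mul 96 (fs ++ ds).length))
        (pk (fun h => h.A3 + 2 ^ 63 - h.B3) (fs ++ ds)))) = true := h4
  rw [hnl, hMM] at h5
  exact m3_sound hn hPe hP2 rfl hdl.symm rfl hfa hbd (hC.conv L hL) hsub hdead (nu_rs hbd) hout
    hW h5

/-- a leaf with a surface, any number of directions -/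
theorem ln {n : ℕ} [NeZero n] {K F : List ℕ} (a H : ℕ) (h : lm n a K F H = true) : Qn n K F := by
  intro _ L hL hs
  obtain ⟨W, h1⟩ := lm_sound frm_sim1024 (Nat.pos_of_neZero n) h
  refine gq_cover (P := fun L => Illum L n) (n := n) (fun _ h => h) (C := simCls 1024)
    (σ := tsG n K F []) (W := W) (J := JQ []) (fun L hL hst => h1 L hL hst.pts hst.out)
    (Nat.pos_of_neZero n) ?_ L hL hs
  intro k hk
  obtain ⟨g, hg, _⟩ := hk
  exact absurd hg (by simp)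

/-- a leaf with a surface, eight directions -/
theorem l8 {K F : List ℕ} (H : ℕ) (h : lm 8 3 K F H = true) : Tq K F :=
  ln (n := 8) 3 H h

/-- a leaf with a surface, seven directions -/
theorem l7 {K F : List ℕ} (H : ℕ) (h : lm 7 3 K F H = true) : T7q K F :=
  fun h0 L hL hs => T7.tgt7.ill L (ln (n := 7) 3 H h h0 L hL hs)

end Pool.Agent.Lib.MP_5e7226_co.C8.TY
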