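import Pool.Agent.Lib.MP_5e7226_co.C8.DQ1
import Pool.Agent.Lib.MP_5e7226_co.C8.TYM

/-!
# Trees of certificates as terms: soundness
-/

set_option autoImplicit false

open Set

namespace Pool.Agent.Lib.MP_5e7226_co.C8.DQ

open GB C8.TF TP

/-- a state with a tree of accepted certificates -/
theorem Cq.qn {n : ℕ} [NeZero n] {K F : List ℕ} (t : Cq n K F) : TM.Qn n K F := by
  induction t with
  | nd y a b iha ihb => exact TM.ndn y iha ihb
  | lm H W V S h => exact TM.lvn H W V S h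
  | lx H W V S h => exact TX.lv H W V S h
  | ly a H h => exact TY.ln a H h
  | lc H W S0 S1 S2 S3 S4 S5 S6 S7 h => exact TM.lcn H W S0 S1 S2 S3 S4 S5 S6 S7 h
  | lu H W S0 S1 S2 S3 S4 S5 S6 S7 h => exact TM.lun H W S0 S1 S2 S3 S4 S5 S6 S7 h
  | rs s t h4 h ih => exact TM.rfn (TM.finn ih h4) h

/-- a state which is done -/
theorem Dq.gq {n : ℕ} [NeZero n] {s : SG} (g : Dq n s) :
    GQ (fun L => Illum L n) (simCls 1024) (tsG n s.K s.F s.G) :=
  TM.finn g.1.qn g.2

end Pool.Agent.Lib.MP_5e7226_co.C8.DQ
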