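import Pool.Agent.Lib.MP_5e7226_co.GB.Base

/-!
# Frames of maximal volume inscribed in a convex body of the three-dimensional space

`s : ι → E` is a finite configuration (the six vertices of an octahedron, the eight vertices of a
cube, the four vertices of a simplex), `img c G` the affine map `σ ↦ c + ∑ σ i • G i`.
Every convex body contains an affine image of the configuration of maximal volume, and after an
affine normalisation this image is the configuration itself.
-/

set_option autoImplicit false

open Set Filter Topology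

namespace Pool.Agent.Lib.MP_5e7226_co.C8

open GB

/-- the configuration `s` is centred and isotropic -/
structure Design {ι : Type} [Fintype ι] (s : ι → E) (lam : ℝ) : Prop where
  pos : 0 < lam
  sum : ∀ i, ∑ j, s j i = 0
  ort : ∀ i k, ∑ j, s j i * s j k = if i = k then lam else 0

/-- the affine map with the centre `c` and the columns `G i` -/
def img (c : E) (G : Fin 3 → E) (σ : E) : E := c + ∑ i, σ i • G i

/-- the determinant of three vectors -/
noncomputable def dt (G : Fin 3 → E) : ℝ := (Matrix.of G).det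

lemma img_eq (c : E) (G : Fin 3 → E) (σ : E) : img c G σ = c + Matrix.vecMul σ (Matrix.of G) := by
  rw [img, Matrix.vecMul_eq_sum]
  rfl

lemma continuous_dt : Continuous fun G : Fin 3 → E => |dt G| := by
  unfold dt
  exact (Continuous.matrix_det (A := fun G : Fin 3 → E => (Matrix.of G)) continuous_id).abs

section Max

variable {ι : Type} [Fintype ι] {s : ι → E} {lam : ℝ}

lemma Design.nonempty (h : Design s lam) : Nonempty ι := by
  by_contra hn
  rw [not_nonempty_iff] at hn
  have h1 := h.ort 0 0
  simp at h1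
  exact absurd h1.symm h.pos.ne'

lemma Design.sum_img (h : Design s lam) (c : E) (G : Fin 3 → E) :
    ∑ j, img c G (s j) = (Fintype.card ι : ℝ) • c := by
  simp only [img, Finset.sum_add_distrib, Finset.sum_const, Finset.card_univ]
  rw [Finset.sum_comm]
  have h1 : ∀ i, ∑ j, s j i • G i = 0 := by
    intro i
    rw [← Finset.sum_smul, h.sum i, zero_smul]
  rw [Finset.sum_congr rfl (fun i _ => h1 i), Finset.sum_const_zero, add_zero, Nat.cast_smul_eq_nsmul]

lemma Design.sum_smul_img (h : Design s lam) (c : E) (G : Fin 3 → E) (k : Fin 3) :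
    ∑ j, s j k • img c G (s j) = lam • G k := by
  simp only [img, smul_add, Finset.sum_add_distrib, Finset.smul_sum, smul_smul]
  rw [← Finset.sum_smul, h.sum k, zero_smul, zero_add, Finset.sum_comm]
  have h1 : ∀ i, ∑ j, (s j k * s j i) • G i = (if k = i then lam else 0) • G i := by
    intro i
    rw [← Finset.sum_smul, h.ort k i]
  simp only [h1]
  simp [ite_smul]

/-- the images of the configuration inside `L` -/
def Fam (s : ι → E) (L : Set E) : Set (E × (Fin 3 → E)) := {p | ∀ j, img p.1 p.2 (s j) ∈ L}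

omit [Fintype ι] in
lemma Fam_closed (s : ι → E) {L : Set E} (hL : IsClosed L) : IsClosed (Fam s L) := by
  have : Fam s L = ⋂ j, (fun p : E × (Fin 3 → E) => img p.1 p.2 (s j)) ⁻¹' L := by
    ext p
    simp [Fam]
  rw [this]
  refine isClosed_iInter fun j => hL.preimage ?_
  unfold img
  fun_prop

lemma Design.bound (h : Design s lam) {L : Set E} {R : ℝ} (hR : ∀ x ∈ L, ‖x‖ ≤ R)
    {p : E × (Fin 3 → E)} (hp : p ∈ Fam s L) :
    ‖p.1‖ ≤ R ∧ ∀ k, ‖p.2 k‖ ≤ (∑ j, |s j k| * R) / lam := by
  obtain ⟨j0⟩ := h.nonempty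
  have hN : (0 : ℝ) < Fintype.card ι := by
    have : 0 < Fintype.card ι := Fintype.card_pos_iff.2 ⟨j0⟩
    exact_mod_cast this
  constructor
  · have h1 := h.sum_img p.1 p.2
    have h2 : ‖∑ j, img p.1 p.2 (s j)‖ ≤ ∑ _j : ι, R :=
      (norm_sum_le _ _).trans (Finset.sum_le_sum fun j _ => hR _ (hp j))
    rw [h1, norm_smul, Real.norm_of_nonneg hN.le, Finset.sum_const, Finset.card_univ,
      nsmul_eq_mul] at h2
    exact le_of_mul_le_mul_left h2 hN
  · intro k
    have h1 := h.sum_smul_img p.1 p.2 k
    have h2 : ‖∑ j, s j k • img p.1 p.2 (s j)‖ ≤ ∑ j, |s j k| * R := by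
      refine (norm_sum_le _ _).trans (Finset.sum_le_sum fun j _ => ?_)
      rw [norm_smul, Real.norm_eq_abs]
      exact mul_le_mul_of_nonneg_left (hR _ (hp j)) (abs_nonneg _)
    rw [h1, norm_smul, Real.norm_of_nonneg h.pos.le] at h2
    rw [le_div_iff₀ h.pos, mul_comm]
    exact h2

lemma Design.exists_max (h : Design s lam) {L : Set E} (hk : IsCompact L)
    (hi : (interior L).Nonempty) :
    ∃ p ∈ Fam s L, dt p.2 ≠ 0 ∧ ∀ q ∈ Fam s L, |dt q.2| ≤ |dt p.2| := by
  obtain ⟨R, hR⟩ := hk.isBounded.exists_norm_le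
  have hcomp : IsCompact (Fam s L) := by
    have hK : IsCompact (Metric.closedBall (0 : E) R ×ˢ
        (Set.univ.pi fun k : Fin 3 => Metric.closedBall (0 : E) ((∑ j, |s j k| * R) / lam))) :=
      (isCompact_closedBall _ _).prod (isCompact_univ_pi fun k => isCompact_closedBall _ _)
    refine hK.of_isClosed_subset (Fam_closed s hk.isClosed) ?_
    intro p hp
    have hb := h.bound hR hp
    refine ⟨by simpa using hb.1, ?_⟩
    intro k _
    simpa using hb.2 k
  -- a nondegenerate element
  obtain ⟨x, hx⟩ := hi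
  have hev : ∀ᶠ δ : ℝ in 𝓝[>] 0, ∀ j, x + δ • s j ∈ interior L := by
    rw [eventually_all]
    intro j
    have hc : Continuous fun δ : ℝ => x + δ • s j := by fun_prop
    have h1 : Tendsto (fun δ : ℝ => x + δ • s j) (𝓝 0) (𝓝 x) := by
      have := hc.tendsto 0
      simpa using this
    exact (h1.mono_left nhdsWithin_le_nhds).eventually (isOpen_interior.mem_nhds hx)
  obtain ⟨δ, hδ, hδ0⟩ := (hev.and self_mem_nhdsWithin).exists
  have hδ0' : 0 < δ := hδ0
  set p0 : E × (Fin 3 → E) := (x, fun i => δ • Pi.single i 1) with hp0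
  have hp0mem : p0 ∈ Fam s L := by
    intro j
    have : img p0.1 p0.2 (s j) = x + δ • s j := by
      simp only [img, hp0]
      congr 1
      funext k
      simp [Finset.sum_apply, Pi.single_apply, mul_comm]
    rw [this]
    exact interior_subset (hδ j)
  have hdt0 : dt p0.2 ≠ 0 := by
    have : (Matrix.of p0.2) = δ • (1 : Matrix (Fin 3) (Fin 3) ℝ) := by
      ext i k
      simp [hp0, Matrix.one_apply, Pi.single_apply, eq_comm]
    rw [dt, this, Matrix.det_smul, Matrix.det_one, mul_one]
    exact pow_ne_zero _ hδ0'.ne'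
  obtain ⟨p, hp, hmax⟩ := hcomp.exists_isMaxOn ⟨p0, hp0mem⟩
    (continuous_dt.comp continuous_snd).continuousOn
  refine ⟨p, hp, ?_, fun q hq => hmax hq⟩
  have h1 : |dt p0.2| ≤ |dt p.2| := hmax hp0mem
  have h2 : 0 < |dt p0.2| := abs_pos.2 hdt0
  exact abs_pos.1 (h2.trans_le h1)

/-- the configuration is in `L`, with the maximal volume -/
structure ShMax (s : ι → E) (L : Set E) : Prop where
  cpt : IsCompact L
  conv : Convex ℝ L
  pts : ∀ j, s j ∈ L
  max : ∀ (c : E) (G : Fin 3 → E), (∀ j, img c G (s j) ∈ L) → |dt G| ≤ 1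

/-- translation invariance of illumination -/
private lemma illum_tr' {L : Set E} {N : ℕ} (a : E) (h : Illum ((fun x => x + a) '' L) N) :
    Illum L N := by
  obtain ⟨d, hd⟩ := h
  refine ⟨d, fun y hy => ?_⟩
  obtain ⟨i, t, ht, hi⟩ := hd (y + a) ⟨y, hy, rfl⟩
  refine ⟨i, t, ht, ?_⟩
  have h1 : (fun x => x + a) '' interior L = interior ((fun x => x + a) '' L) :=
    (Homeomorph.addRight a).image_interior L
  rw [← h1] at hi
  obtain ⟨z, hz, hze⟩ := hi
  have : z = y + t • d i := by
    simp only at hze
    have h2 : z + a = (y + t • d i) + a := by rw [hze]; abel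
    exact add_right_cancel h2
  rwa [← this]

/-- the linear map `x ↦ x ᵥ* A⁻¹` -/
noncomputable def nrm (A : Matrix (Fin 3) (Fin 3) ℝ) (hA : IsUnit A.det) : E ≃L[ℝ] E :=
  (LinearEquiv.ofLinearMap (Matrix.vecMulLinear A⁻¹) (Matrix.vecMulLinear A)
    (by
      apply LinearMap.ext
      intro x
      simp [Matrix.vecMul_vecMul, Matrix.mul_nonsing_inv A hA])
    (by
      apply LinearMap.ext
      intro x
      simp [Matrix.vecMul_vecMul, Matrix.nonsing_inv_mul A hA])).toContinuousLinearEquiv

lemma nrm_apply (A : Matrix (Fin 3) (Fin 3) ℝ) (hA : IsUnit A.det) (x : E) :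
    nrm A hA x = Matrix.vecMul x A⁻¹ := rfl

lemma nrm_symm_apply (A : Matrix (Fin 3) (Fin 3) ℝ) (hA : IsUnit A.det) (x : E) :
    (nrm A hA).symm x = Matrix.vecMul x A := rfl

/-- reduction to bodies in which the configuration has the maximal volume -/
theorem Design.illum (h : Design s lam) {N : ℕ} (H : ∀ L, ShMax s L → Illum L N)
    {S : Set E} (hc : Convex ℝ S) (hk : IsCompact S) (hi : (interior S).Nonempty) :
    Illum S N := by
  obtain ⟨p, hp, hdt, hmax⟩ := h.exists_max hk hi
  have hA : IsUnit (Matrix.of p.2).det := isUnit_iff_ne_zero.2 hdt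
  set A := Matrix.of p.2 with hAdef
  set T := nrm A hA with hT
  refine illum_tr' (-p.1) (Illum.of_image T (H _ ?_))
  refine ⟨?_, ?_, ?_, ?_⟩
  · exact (hk.image (by fun_prop)).image T.continuous
  · have h1 : Convex ℝ ((fun x => x + -p.1) '' S) := by
      have h2 := hc.translate (-p.1)
      have h3 : (fun x => -p.1 + x) '' S = (fun x => x + -p.1) '' S := by
        congr 1
        funext x
        rw [add_comm]
      rwa [h3] at h2
    exact h1.linear_image T.toLinearEquiv.toLinearMap
  · intro j
    refine ⟨img p.1 p.2 (s j) + -p.1, ⟨_, hp j, rfl⟩, ?_⟩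
    rw [img_eq, hT, nrm_apply, add_neg_cancel_comm, Matrix.vecMul_vecMul, Matrix.mul_nonsing_inv A hA,
      Matrix.vecMul_one]
  · intro c G hG
    have hG' : (T.symm c + p.1, fun i => T.symm (G i)) ∈ Fam s S := by
      intro j
      obtain ⟨_, ⟨x, hx, rfl⟩, hxe⟩ := hG j
      have h2 : img (T.symm c + p.1) (fun i => T.symm (G i)) (s j) = x := by
        have h3 : T.symm (img c G (s j)) = x + -p.1 := by
          rw [← hxe, T.symm_apply_apply]
        have h4 : T.symm (img c G (s j)) = T.symm c + ∑ i, s j i • T.symm (G i) := by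
          simp only [img, map_add, map_sum, map_smul]
        rw [h4] at h3
        have h5 : x = (T.symm c + ∑ i, s j i • T.symm (G i)) + p.1 := by
          rw [h3]
          abel
        rw [h5, img]
        abel
      show img (T.symm c + p.1) (fun i => T.symm (G i)) (s j) ∈ S
      rw [h2]
      exact hx
    have h1 := hmax _ hG'
    have h2 : dt (fun i => T.symm (G i)) = dt G * A.det := by
      rw [dt, dt, ← Matrix.det_mul]
      rfl
    simp only at h1
    rw [h2, abs_mul] at h1
    have h3 : 0 < |A.det| := abs_pos.2 hdt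
    have h4 : |dt G| * |A.det| ≤ 1 * |A.det| := by rw [one_mul]; exact h1
    exact le_of_mul_le_mul_right h4 h3

end Max

/-! ### octahedra -/

/-- the vertices of the octahedron -/
def octV (j : Fin 3 × Bool) : E := if j.2 then Pi.single j.1 1 else - Pi.single j.1 1

lemma design_oct : Design octV 2 := by
  refine ⟨by norm_num, ?_, ?_⟩
  · intro i
    rw [Fintype.sum_prod_type]
    simp [octV]
  · intro i k
    rw [Fintype.sum_prod_type]
    fin_cases i <;> fin_cases k <;>
      simp [octV, Fin.sum_univ_three, Pi.single_apply] <;> norm_num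

/-- the standard octahedron has maximal volume in `L` -/
structure OctMax (L : Set E) : Prop where
  cpt : IsCompact L
  conv : Convex ℝ L
  pts : ∀ i : Fin 3, (Pi.single i 1 : E) ∈ L ∧ -(Pi.single i 1 : E) ∈ L
  max : ∀ (c : E) (G : Fin 3 → E), (∀ i, c + G i ∈ L ∧ c - G i ∈ L) → |(Matrix.of G).det| ≤ 1

lemma img_octV (c : E) (G : Fin 3 → E) (i : Fin 3) :
    img c G (octV (i, true)) = c + G i ∧ img c G (octV (i, false)) = c - G i := by
  constructor
  · simp [img, octV, Pi.single_apply, ite_smul]
  · simp [img, octV, Pi.single_apply, ite_smul, sub_eq_add_neg]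

/-- it suffices to illuminate the bodies in which the standard octahedron has maximal volume -/
theorem illum_of_oct {N : ℕ} (H : ∀ L, OctMax L → Illum L N) {S : Set E} (hc : Convex ℝ S)
    (hk : IsCompact S) (hi : (interior S).Nonempty) : Illum S N := by
  refine design_oct.illum (fun L hL => H L ?_) hc hk hi
  refine ⟨hL.cpt, hL.conv, fun i => ?_, fun c G hG => hL.max c G ?_⟩
  · exact ⟨by simpa [octV] using hL.pts (i, true), by simpa [octV] using hL.pts (i, false)⟩
  · rintro ⟨i, b⟩
    cases b
    · rw [(img_octV c G i).2]; exact (hG i).2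
    · rw [(img_octV c G i).1]; exact (hG i).1

/-! ### simplices -/

/-- the vertices of the simplex -/
def simV : Fin 4 → E := ![![1, 1, 1], ![1, -1, -1], ![-1, 1, -1], ![-1, -1, 1]]

lemma design_sim : Design simV 4 := by
  refine ⟨by norm_num, ?_, ?_⟩
  · intro i
    fin_cases i <;> simp [simV, Fin.sum_univ_four]
  · intro i k
    fin_cases i <;> fin_cases k <;> simp [simV, Fin.sum_univ_four] <;> norm_num

/-- the standard simplex has maximal volume in `L` -/
structure SimMax (L : Set E) : Prop where
  cpt : IsCompact L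
  conv : Convex ℝ L
  pts : ∀ j, simV j ∈ L
  max : ∀ x : Fin 4 → E, (∀ j, x j ∈ L) → |(Matrix.of fun i : Fin 3 => x i.succ - x 0).det| ≤ 16

lemma exists_img_sim (x : Fin 4 → E) : ∃ (c : E) (G : Fin 3 → E), ∀ j, img c G (simV j) = x j := by
  refine ⟨(1 / 4 : ℝ) • ∑ j, x j, fun i => (1 / 4 : ℝ) • ∑ j, simV j i • x j, ?_⟩
  intro j
  fin_cases j <;>
  · funext k
    simp [img, simV, Fin.sum_univ_four, Fin.sum_univ_three]
    ring

/-- it suffices to illuminate the bodies in which the standard simplex has maximal volume -/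
theorem illum_of_sim {N : ℕ} (H : ∀ L, SimMax L → Illum L N) {S : Set E} (hc : Convex ℝ S)
    (hk : IsCompact S) (hi : (interior S).Nonempty) : Illum S N := by
  refine design_sim.illum (fun L hL => H L ?_) hc hk hi
  refine ⟨hL.cpt, hL.conv, hL.pts, fun x hx => ?_⟩
  obtain ⟨c, G, hG⟩ := exists_img_sim x
  have h1 := hL.max c G (fun j => by rw [hG]; exact hx j)
  have h2 : (Matrix.of fun i : Fin 3 => x i.succ - x 0) =
      (Matrix.of fun i : Fin 3 => simV i.succ - simV 0) * Matrix.of G := by
    ext i k
    rw [Matrix.mul_apply]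
    simp only [Matrix.of_apply, Pi.sub_apply, ← hG, img, Pi.add_apply,
      Pi.smul_apply, smul_eq_mul, Fin.sum_univ_three]
    ring
  have h3 : (Matrix.of fun i : Fin 3 => simV i.succ - simV 0).det = -16 := by
    rw [Matrix.det_fin_three]
    simp [simV]
    norm_num
  rw [h2, Matrix.det_mul, h3, abs_mul]
  have h4 : |dt G| ≤ 1 := h1
  rw [dt] at h4
  norm_num
  exact h4

/-! ### parallelepipeds -/

lemma design_box : Design sg 8 := by
  refine ⟨by norm_num, ?_, ?_⟩
  · intro i
    fin_cases i <;> simp [sg, sb, bit, Fin.sum_univ_eight, Nat.testBit_succ] 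
  · intro i k
    fin_cases i <;> fin_cases k <;> simp [sg, sb, bit, Fin.sum_univ_eight, Nat.testBit_succ] <;> norm_num

/-- the cube has maximal volume among the parallelepipeds in `L` -/
structure BoxMax (L : Set E) : Prop where
  cpt : IsCompact L
  conv : Convex ℝ L
  pts : ∀ v, sg v ∈ L
  max : ∀ (c : E) (G : Fin 3 → E), (∀ v, c + ∑ i, sg v i • G i ∈ L) → |(Matrix.of G).det| ≤ 1

/-- it suffices to illuminate the bodies in which the cube has maximal volume -/
theorem illum_of_box {N : ℕ} (H : ∀ L, BoxMax L → Illum L N) {S : Set E} (hc : Convex ℝ S)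
    (hk : IsCompact S) (hi : (interior S).Nonempty) : Illum S N :=
  design_box.illum (fun L hL => H L ⟨hL.cpt, hL.conv, hL.pts, fun c G hG => hL.max c G hG⟩) hc hk hi

/-! ### spaces of dimension three -/

/-- from the coordinate space to all spaces of dimension three -/
theorem illum_of_coord {N : ℕ}
    (H : ∀ S : Set E, Convex ℝ S → IsCompact S → (interior S).Nonempty → Illum S N)
    {W : Type*} [NormedAddCommGroup W] [NormedSpace ℝ W] [FiniteDimensional ℝ W]
    (hdim : Module.finrank ℝ W = 3) {L : Set W} (hc : Convex ℝ L) (hk : IsCompact L)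
    (hi : (interior L).Nonempty) : Illum L N := by
  let T : W ≃L[ℝ] E := ContinuousLinearEquiv.ofFinrankEq (by rw [hdim]; simp)
  apply Illum.of_image T
  apply H
  · exact hc.linear_image T.toLinearEquiv.toLinearMap
  · exact hk.image T.continuous
  · obtain ⟨x, hx⟩ := hi
    exact ⟨_, T.toHomeomorph.isOpenMap.image_interior_subset L ⟨x, hx, rfl⟩⟩

end Pool.Agent.Lib.MP_5e7226_co.C8
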