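import Pool.Agent.Lib.MP_5e7226_co.GB.Base

/-!
# Eight directions: the geometry of the certificates

`K` is a finite set of points known to lie in the body `L`, and `n` is a point known not to lie in
`L`. The cylinder of the direction `w` is `int conv K + ℝ₊ w`; the shadow of `n` is the set of the
points `z` with `n ∈ conv (K ∪ {z})`. Both are convex.
-/

set_option autoImplicit false

open Set Filter Topology

namespace Pool.Agent.Lib.MP_5e7226_co.C8

open GB

/-- `P` lies in the cylinder of the direction `w` over the interior of `conv K` -/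
def Lit (K : Set E) (w P : E) : Prop := ∃ t : ℝ, 0 ≤ t ∧ P - t • w ∈ interior (convexHull ℝ K)

/-- `P` lies in the shadow of `n` -/
def Shd (K : Set E) (n P : E) : Prop := n ∈ convexHull ℝ (insert P K)

lemma lit_convex (K : Set E) (w : E) : Convex ℝ {P | Lit K w P} := by
  intro P hP Q hQ a b ha hb hab
  obtain ⟨s, hs, hP⟩ := hP
  obtain ⟨t, ht, hQ⟩ := hQ
  refine ⟨a * s + b * t, by positivity, ?_⟩
  have h := (convex_convexHull ℝ K).interior hP hQ ha hb hab
  convert h using 1
  funext i
  simp only [Pi.add_apply, Pi.sub_apply, Pi.smul_apply, smul_eq_mul]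
  ring

lemma lit_zero {K : Set E} (h0 : (0 : E) ∈ interior (convexHull ℝ K)) (w : E) : Lit K w 0 :=
  ⟨0, le_rfl, by simpa using h0⟩

/-- a lit point is served by the opposite direction -/
lemma Lit.serve {K L : Set E} (hL : Convex ℝ L) (hK : K ⊆ L) {w P : E} (h : Lit K w P) :
    Serve L P (-w) := by
  obtain ⟨t, ht, hi⟩ := h
  have hi' : P - t • w ∈ interior L := interior_mono (convexHull_min hK hL) hi
  rcases ht.lt_or_eq with ht | ht
  · exact ⟨t, ht, by rw [smul_neg, ← sub_eq_add_neg]; exact hi'⟩
  · subst ht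
    have h0 : P ∈ interior L := by simpa using hi'
    have hc : ContinuousAt (fun t : ℝ => P + t • (-w)) 0 := by fun_prop
    have h1 : ∀ᶠ t in 𝓝 (0 : ℝ), P + t • (-w) ∈ interior L := by
      apply hc
      simpa using isOpen_interior.mem_nhds h0
    have h2 : ∀ᶠ t in 𝓝[>] (0 : ℝ), P + t • (-w) ∈ interior L :=
      h1.filter_mono nhdsWithin_le_nhds
    obtain ⟨t, h3, h4⟩ := (h2.and self_mem_nhdsWithin).exists
    exact ⟨t, h4, h3⟩

lemma shd_convex {K : Set E} (hne : K.Nonempty) (n : E) : Convex ℝ {P | Shd K n P} := by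
  intro P hP Q hQ a b ha hb hab
  simp only [mem_setOf_eq, Shd] at hP hQ ⊢
  by_cases hn : n ∈ convexHull ℝ K
  · exact convexHull_mono (subset_insert _ _) hn
  rw [convexHull_insert hne, mem_convexJoin] at hP hQ
  obtain ⟨P', hP', c, hc, hPn⟩ := hP
  obtain ⟨Q', hQ', d, hd, hQn⟩ := hQ
  rw [mem_singleton_iff] at hP' hQ'
  rw [hP'] at hPn
  rw [hQ'] at hQn
  obtain ⟨p, p', hp, hp', hpp, hPn⟩ := hPn
  obtain ⟨q, q', hq, hq', hqq, hQn⟩ := hQn
  have hp0 : 0 < p := by
    rcases hp.lt_or_eq with h | h
    · exact h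
    · exfalso; apply hn
      rw [← h] at hPn hpp
      have : p' = 1 := by linarith
      rw [this] at hPn
      simpa [← hPn] using hc
  have hq0 : 0 < q := by
    rcases hq.lt_or_eq with h | h
    · exact h
    · exfalso; apply hn
      rw [← h] at hQn hqq
      have : q' = 1 := by linarith
      rw [this] at hQn
      simpa [← hQn] using hd
  -- the weights
  have hM : 0 < a / p + b / q := by
    rcases ha.lt_or_eq with h | h
    · have : 0 < a / p := div_pos h hp0
      have : 0 ≤ b / q := div_nonneg hb hq0.le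
      linarith
    · have hb1 : b = 1 := by linarith
      have : 0 < b / q := div_pos (by rw [hb1]; norm_num) hq0
      have : 0 ≤ a / p := div_nonneg ha hp0.le
      linarith
  set M : ℝ := a / p + b / q with hMdef
  have hconv := convex_convexHull ℝ (insert (a • P + b • Q) K)
  have hz : (a • P + b • Q) ∈ convexHull ℝ (insert (a • P + b • Q) K) :=
    subset_convexHull ℝ _ (mem_insert _ _)
  have hcK : c ∈ convexHull ℝ (insert (a • P + b • Q) K) :=
    convexHull_mono (subset_insert _ _) hc
  have hdK : d ∈ convexHull ℝ (insert (a • P + b • Q) K) :=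
    convexHull_mono (subset_insert _ _) hd
  have hsum : (1 / M) + (a * p' / (p * M) + b * q' / (q * M)) = 1 := by
    have h1 : p' = 1 - p := by linarith
    have h2 : q' = 1 - q := by linarith
    rw [h1, h2]
    have hMne : M ≠ 0 := hM.ne'
    have : M = (a * q + b * p) / (p * q) := by rw [hMdef]; field_simp
    have h3 : a * q + b * p = M * (p * q) := by rw [this]; field_simp
    have : 1 / M + (a * (1 - p) / (p * M) + b * (1 - q) / (q * M))
        = (p * q + (a * q + b * p) - (a + b) * (p * q)) / (M * (p * q)) := by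
      field_simp
      ring
    rw [this, h3, hab]
    field_simp
    ring
  have key : n = (1 / M) • (a • P + b • Q) + ((a * p' / (p * M)) • c + (b * q' / (q * M)) • d) := by
    have e1 : c = fun i => c i := rfl
    have hnP : ∀ i, n i = p * P i + p' * c i := fun i => by
      rw [← hPn]; simp
    have hnQ : ∀ i, n i = q * Q i + q' * d i := fun i => by
      rw [← hQn]; simp
    funext i
    simp only [Pi.add_apply, Pi.smul_apply, smul_eq_mul]
    have h1 := hnP i
    have h2 := hnQ i
    have h3 : a * q + b * p = M * (p * q) := by rw [hMdef]; field_simp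
    have h4 : 1 / M * (a * P i + b * Q i) + (a * p' / (p * M) * c i + b * q' / (q * M) * d i)
        = (a * q * (p * P i + p' * c i) + b * p * (q * Q i + q' * d i)) / (M * (p * q)) := by
      have hMne : M ≠ 0 := hM.ne'
      field_simp
      ring
    rw [h4, ← h1, ← h2, eq_div_iff (by positivity), ← h3]
    ring
  rw [key]
  by_cases hz0 : a * p' / (p * M) + b * q' / (q * M) = 0
  · have h1 : 0 ≤ a * p' / (p * M) := by positivity
    have h2 : 0 ≤ b * q' / (q * M) := by positivity
    have h3 : a * p' / (p * M) = 0 := by linarith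
    have h4 : b * q' / (q * M) = 0 := by linarith
    have h5 : 1 / M = 1 := by linarith
    rw [h3, h4, h5]
    simpa using hz
  · have h1 : 0 ≤ a * p' / (p * M) := by positivity
    have h2 : 0 ≤ b * q' / (q * M) := by positivity
    have h3 : 0 < a * p' / (p * M) + b * q' / (q * M) :=
      lt_of_le_of_ne (by linarith) (Ne.symm hz0)
    set A := a * p' / (p * M)
    set B := b * q' / (q * M)
    have hcd : (A / (A + B)) • c + (B / (A + B)) • d ∈
        convexHull ℝ (insert (a • P + b • Q) K) :=
      hconv hcK hdK (by positivity) (by positivity) (by field_simp)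
    have h5 := hconv hz hcd (a := 1 / M) (b := A + B) (by positivity) (by positivity)
      (by linarith)
    convert h5 using 2
    rw [smul_add, smul_smul, smul_smul]
    congr 2 <;> field_simp

/-! ### cones and layers -/

/-- no point of `L` lies strictly beyond the convex set `S` -/
def Dead (L S : Set E) : Prop := Convex ℝ S ∧ ∀ z ∈ S, ∀ s : ℝ, 1 < s → s • z ∉ L

lemma Dead.of_disjoint {L S : Set E} (hL : Convex ℝ L) (h0 : (0 : E) ∈ L) (hS : Convex ℝ S)
    (h : ∀ z ∈ S, z ∉ L) : Dead L S := by
  refine ⟨hS, fun z hz s hs hsz => h z hz ?_⟩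
  have hs0 : 0 < s := by linarith
  have h2 := hL hsz h0 (a := 1 / s) (b := 1 - 1 / s) (by positivity)
    (by rw [sub_nonneg, div_le_one hs0]; exact hs.le) (by ring)
  rw [smul_zero, add_zero, smul_smul, one_div, inv_mul_cancel₀ hs0.ne', one_smul] at h2
  exact h2

/-- the shadow of a point which is not in `L` is dead -/
lemma dead_shd {K L : Set E} (hL : Convex ℝ L) (hK : K ⊆ L) (hne : K.Nonempty) (h0 : (0 : E) ∈ L)
    {n : E} (hn : n ∉ L) : Dead L {z | Shd K n z} := by
  refine Dead.of_disjoint hL h0 (shd_convex hne n) fun z hz hzL => hn ?_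
  exact convexHull_min (insert_subset hzL hK) hL hz

/-- the points `z` such that `c` is in the cylinder of the direction `w` over the interior of
`conv (K ∪ {z})` -/
def Lifts (K : Set E) (w c z : E) : Prop :=
  ∃ s θ : ℝ, 0 ≤ s ∧ 0 ≤ θ ∧ θ < 1 ∧ ∃ p ∈ interior (convexHull ℝ K),
    c - s • w = θ • z + (1 - θ) • p

lemma Lifts.lit {K L : Set E} (hL : Convex ℝ L) (hK : K ⊆ L) {w c z : E} (hz : z ∈ L)
    (h : Lifts K w c z) : ∃ s : ℝ, 0 ≤ s ∧ c - s • w ∈ interior L := by
  obtain ⟨s, θ, hs, hθ, hθ1, p, hp, he⟩ := h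
  refine ⟨s, hs, ?_⟩
  rw [he, add_comm]
  exact hL.combo_interior_self_mem_interior (interior_mono (convexHull_min hK hL) hp) hz
    (by linarith) hθ (by ring)

lemma lifts_convex (K : Set E) (w c : E) : Convex ℝ {z | Lifts K w c z} := by
  intro z hz z' hz' a b ha hb hab
  obtain ⟨s, θ, hs, hθ, hθ1, p, hp, he⟩ := hz
  obtain ⟨s', θ', hs', hθ', hθ1', p', hp', he'⟩ := hz'
  rcases hθ.lt_or_eq with hθ0 | hθ0
  · rcases hθ'.lt_or_eq with hθ0' | hθ0'
    · -- both positive
      have hM1 : 1 < a / θ + b / θ' := by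
        have h1 : a ≤ a / θ := by
          rw [le_div_iff₀ hθ0]; nlinarith
        have h2 : b ≤ b / θ' := by
          rw [le_div_iff₀ hθ0']; nlinarith
        rcases ha.lt_or_eq with h | h
        · have : a < a / θ := by rw [lt_div_iff₀ hθ0]; nlinarith
          linarith
        · have hb1 : 0 < b := by linarith
          have : b < b / θ' := by rw [lt_div_iff₀ hθ0']; nlinarith
          linarith
      set M : ℝ := a / θ + b / θ' with hM
      have hM0 : 0 < M := by linarith
      have hcp : (1 - θ) * (a / θ) + (1 - θ') * (b / θ') = M - 1 := by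
        rw [hM]
        have : θ ≠ 0 := hθ0.ne'
        have : θ' ≠ 0 := hθ0'.ne'
        field_simp
        linear_combination -(θ * θ') * hab
      have hMm : 0 < M - 1 := by linarith
      refine ⟨(a / θ * s + b / θ' * s') / M, 1 / M, by positivity, by positivity, ?_,
        (((1 - θ) * (a / θ)) / (M - 1)) • p + (((1 - θ') * (b / θ')) / (M - 1)) • p', ?_, ?_⟩
      · rw [div_lt_one hM0]; exact hM1
      · refine (convex_convexHull ℝ K).interior hp hp' ?_ ?_ ?_
        · have : 0 ≤ 1 - θ := by linarith
          positivity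
        · have : 0 ≤ 1 - θ' := by linarith
          positivity
        · rw [← add_div, hcp, div_self hMm.ne']
      · have e1 : ∀ i, c i - s * w i = θ * z i + (1 - θ) * p i := fun i => by
          have := congrFun he i; simpa using this
        have e2 : ∀ i, c i - s' * w i = θ' * z' i + (1 - θ') * p' i := fun i => by
          have := congrFun he' i; simpa using this
        funext i
        simp only [Pi.add_apply, Pi.sub_apply, Pi.smul_apply, smul_eq_mul]
        have f1 : a / θ * (c i - s * w i) = a * z i + (1 - θ) * (a / θ) * p i := by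
          rw [e1 i]; field_simp
        have f2 : b / θ' * (c i - s' * w i) = b * z' i + (1 - θ') * (b / θ') * p' i := by
          rw [e2 i]; field_simp
        have hMne : M ≠ 0 := hM0.ne'
        have hMne' : M - 1 ≠ 0 := hMm.ne'
        have g1 : (1 - 1 / M) * ((1 - θ) * (a / θ) / (M - 1) * p i +
            (1 - θ') * (b / θ') / (M - 1) * p' i)
            = ((1 - θ) * (a / θ) * p i + (1 - θ') * (b / θ') * p' i) / M := by
          field_simp
        have g2 : (a / θ * s + b / θ' * s') / M * w i
            = (a / θ * s + b / θ' * s') * w i / M := by ring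
        have g3 : 1 / M * (a * z i + b * z' i) = (a * z i + b * z' i) / M := by ring
        rw [g1, g2, g3, ← add_div, eq_div_iff hMne, sub_mul, div_mul_cancel₀ _ hMne]
        have : c i * M = a / θ * c i + b / θ' * c i := by rw [hM]; ring
        rw [this]
        linear_combination f1 + f2
    · subst hθ0'
      exact ⟨s', 0, hs', le_rfl, one_pos, p', hp', by rw [he']; simp⟩
  · subst hθ0
    exact ⟨s, 0, hs, le_rfl, one_pos, p, hp, by rw [he]; simp⟩

/-- if some point of `L ∩ conv C` is not lit by the direction `w`, then the points which lift all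
of `C` are dead -/
lemma dead_lifts {K L : Set E} (hL : Convex ℝ L) (hK : K ⊆ L) (h0 : (0 : E) ∈ L) {C : Set E}
    {w : E} (hx : ∃ x ∈ L, x ∈ convexHull ℝ C ∧ ¬Serve L x (-w)) :
    Dead L {z | ∀ c ∈ C, Lifts K w c z} := by
  refine Dead.of_disjoint hL h0 ?_ ?_
  · intro z hz z' hz' a b ha hb hab c hc
    exact lifts_convex K w c (hz c hc) (hz' c hc) ha hb hab
  · intro z hz hzL
    obtain ⟨x, hxL, hxC, hxS⟩ := hx
    apply hxS
    have hconv : Convex ℝ {P : E | ∃ s : ℝ, 0 ≤ s ∧ P - s • w ∈ interior (convexHull ℝ L)} :=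
      lit_convex L w
    have hsub : C ⊆ {P : E | ∃ s : ℝ, 0 ≤ s ∧ P - s • w ∈ interior (convexHull ℝ L)} := by
      intro c hc
      rw [hL.convexHull_eq]
      exact (hz c hc).lit hL hK hzL
    have h1 := convexHull_min hsub hconv hxC
    exact Lit.serve hL subset_rfl h1

/-- the property `Φ` holds for the points of `L` in the cone which are beyond the triangle with
the radii `r s t` -/
def Out (L : Set E) (Φ : E → Prop) (u v w : E) (r s t : ℝ) : Prop :=
  ∀ a b c : ℝ, 0 ≤ a → 0 ≤ b → 0 ≤ c → 1 < a / r + b / s + c / t →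
    a • u + b • v + c • w ∈ L → Φ (a • u + b • v + c • w)

/-- the property `Φ` holds for the points of `L` in the cone -/
def Cn (L : Set E) (Φ : E → Prop) (u v w : E) : Prop :=
  ∀ a b c : ℝ, 0 ≤ a → 0 ≤ b → 0 ≤ c → a • u + b • v + c • w ∈ L → Φ (a • u + b • v + c • w)

lemma comb3 {S : Set E} (hS : Convex ℝ S) {P Q R : E} (hP : P ∈ S) (hQ : Q ∈ S) (hR : R ∈ S)
    {α β γ : ℝ} (hα : 0 ≤ α) (hβ : 0 ≤ β) (hγ : 0 ≤ γ) (hsum : α + β + γ = 1) :
    α • P + β • Q + γ • R ∈ S := by
  have := hS.sum_mem (t := Finset.univ) (w := ![α, β, γ]) (z := ![P, Q, R])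
    (by intro i _; fin_cases i <;> simp <;> assumption)
    (by simp [Fin.sum_univ_three, hsum])
    (by intro i _; fin_cases i <;> simp <;> assumption)
  simpa [Fin.sum_univ_three] using this

/-- a point of the cone is a multiple of a point of the triangle -/
lemma gauge_point (u v w : E) {r s t a b c : ℝ} (hr : 0 < r) (hs : 0 < s) (ht : 0 < t)
    (ha : 0 ≤ a) (hb : 0 ≤ b) (hc : 0 ≤ c) {g : ℝ} (hg : g = a / r + b / s + c / t) (hg0 : 0 < g)
    {S : Set E} (hS : Convex ℝ S) (h1 : r • u ∈ S) (h2 : s • v ∈ S) (h3 : t • w ∈ S) :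
    ∃ z ∈ S, a • u + b • v + c • w = g • z := by
  refine ⟨(a / r / g) • (r • u) + (b / s / g) • (s • v) + (c / t / g) • (t • w),
    comb3 hS h1 h2 h3 (by positivity) (by positivity) (by positivity) ?_, ?_⟩
  · rw [← add_div, ← add_div, ← hg, div_self hg0.ne']
  · rw [smul_add, smul_add, smul_smul, smul_smul, smul_smul, smul_smul, smul_smul, smul_smul]
    have e1 : g * (a / r / g) * r = a := by field_simp
    have e2 : g * (b / s / g) * s = b := by field_simp
    have e3 : g * (c / t / g) * t = c := by field_simp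
    rw [e1, e2, e3]

lemma out_dead {L : Set E} {Φ : E → Prop} {u v w : E} {r s t : ℝ} (hr : 0 < r) (hs : 0 < s)
    (ht : 0 < t) {S : Set E} (hS : Dead L S) (h1 : r • u ∈ S) (h2 : s • v ∈ S)
    (h3 : t • w ∈ S) : Out L Φ u v w r s t := by
  intro a b c ha hb hc hg hx
  exfalso
  obtain ⟨z, hz, he⟩ := gauge_point u v w hr hs ht ha hb hc rfl (by linarith) hS.1 h1 h2 h3
  rw [he] at hx
  exact hS.2 z hz _ hg hx

/-- everything beyond belongs to one child -/
lemma out_kid {L : Set E} {Φ : E → Prop} {u v w : E} {r s t : ℝ} (hr : 0 < r) (hs : 0 < s)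
    (ht : 0 < t) (h : ∀ x ∈ L, (∃ z ∈ convexHull ℝ {r • u, s • v, t • w}, ∃ τ : ℝ, 1 ≤ τ ∧
      x = τ • z) → Φ x) : Out L Φ u v w r s t := by
  intro a b c ha hb hc hg hx
  apply h _ hx
  obtain ⟨z, hz, he⟩ := gauge_point u v w hr hs ht ha hb hc rfl (by linarith)
    (convex_convexHull ℝ {r • u, s • v, t • w})
    (subset_convexHull ℝ _ (by simp)) (subset_convexHull ℝ _ (by simp))
    (subset_convexHull ℝ _ (by simp))
  exact ⟨z, hz, _, hg.le, he⟩

lemma out_step {L : Set E} {Φ : E → Prop} {u v w : E} {r s t r' s' t' : ℝ} (hr : 0 < r)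
    (hs : 0 < s) (ht : 0 < t) (hr' : r ≤ r') (hs' : s ≤ s') (ht' : t ≤ t')
    (hcell : ∀ x ∈ L, (∃ z ∈ convexHull ℝ {r • u, s • v, t • w}, ∃ τ : ℝ, 1 ≤ τ ∧ x = τ • z) →
      x ∈ convexHull ℝ {r • u, s • v, t • w, r' • u, s' • v, t' • w} → Φ x)
    (hout : Out L Φ u v w r' s' t') : Out L Φ u v w r s t := by
  intro a b c ha hb hc hg hx
  have hr0' : 0 < r' := by linarith
  have hs0' : 0 < s' := by linarith
  have ht0' : 0 < t' := by linarith
  by_cases hg' : 1 < a / r' + b / s' + c / t'
  · exact hout a b c ha hb hc hg' hx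
  push Not at hg'
  have hg0 : 0 < a / r + b / s + c / t := by linarith
  have hg0' : 0 < a / r' + b / s' + c / t' := by
    have : 0 < a ∨ 0 < b ∨ 0 < c := by
      by_contra hcon
      push Not at hcon
      have h1 : a = 0 := le_antisymm hcon.1 ha
      have h2 : b = 0 := le_antisymm hcon.2.1 hb
      have h3 : c = 0 := le_antisymm hcon.2.2 hc
      rw [h1, h2, h3] at hg0
      simp at hg0
    rcases this with h | h | h
    · have : 0 < a / r' := by positivity
      have : 0 ≤ b / s' := by positivity
      have : 0 ≤ c / t' := by positivity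
      linarith
    · have : 0 ≤ a / r' := by positivity
      have : 0 < b / s' := by positivity
      have : 0 ≤ c / t' := by positivity
      linarith
    · have : 0 ≤ a / r' := by positivity
      have : 0 ≤ b / s' := by positivity
      have : 0 < c / t' := by positivity
      linarith
  obtain ⟨z, hz, he⟩ := gauge_point u v w hr hs ht ha hb hc rfl hg0
    (convex_convexHull ℝ {r • u, s • v, t • w})
    (subset_convexHull ℝ _ (by simp)) (subset_convexHull ℝ _ (by simp))
    (subset_convexHull ℝ _ (by simp))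
  obtain ⟨z', hz', he'⟩ := gauge_point u v w hr0' hs0' ht0' ha hb hc rfl hg0'
    (convex_convexHull ℝ {r' • u, s' • v, t' • w})
    (subset_convexHull ℝ _ (by simp)) (subset_convexHull ℝ _ (by simp))
    (subset_convexHull ℝ _ (by simp))
  set G := a / r + b / s + c / t
  set G' := a / r' + b / s' + c / t'
  refine hcell _ hx ⟨z, hz, G, hg.le, he⟩ ?_
  set x := a • u + b • v + c • w
  -- x is between z and z'
  have hzS : z ∈ convexHull ℝ {r • u, s • v, t • w, r' • u, s' • v, t' • w} :=
    convexHull_mono (by intro y hy; simp only [mem_insert_iff, mem_singleton_iff] at hy ⊢; tauto) hz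
  have hzS' : z' ∈ convexHull ℝ {r • u, s • v, t • w, r' • u, s' • v, t' • w} :=
    convexHull_mono (by intro y hy; simp only [mem_insert_iff, mem_singleton_iff] at hy ⊢; tauto)
      hz'
  -- z = x / G, z' = x / G'
  have hz1 : z = (1 / G) • x := by rw [he, smul_smul, one_div, inv_mul_cancel₀ hg0.ne', one_smul]
  have hz2 : z' = (1 / G') • x := by
    rw [he', smul_smul, one_div, inv_mul_cancel₀ hg0'.ne', one_smul]
  have h1 : 1 / G < 1 := by rw [div_lt_one hg0]; exact hg
  have h2 : 1 ≤ 1 / G' := by rw [le_div_iff₀ hg0']; linarith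
  have hD : 0 < 1 / G' - 1 / G := by linarith
  have h3 := convex_convexHull ℝ {r • u, s • v, t • w, r' • u, s' • v, t' • w} hzS hzS'
    (a := (1 / G' - 1) / (1 / G' - 1 / G)) (b := (1 - 1 / G) / (1 / G' - 1 / G))
    (div_nonneg (by linarith) hD.le) (div_nonneg (by linarith) hD.le)
    (by rw [← add_div]; rw [div_eq_one_iff_eq hD.ne']; ring)
  convert h3 using 1
  rw [hz1, hz2, smul_smul, smul_smul, ← add_smul]
  have : (1 / G' - 1) / (1 / G' - 1 / G) * (1 / G) + (1 - 1 / G) / (1 / G' - 1 / G) * (1 / G')
      = 1 := by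
    rw [div_mul_eq_mul_div, div_mul_eq_mul_div, ← add_div, div_eq_one_iff_eq hD.ne']
    ring
  rw [this, one_smul]

lemma cn_base {L : Set E} {Φ : E → Prop} {u v w : E} {r s t : ℝ} (hr : 0 < r) (hs : 0 < s)
    (ht : 0 < t) (hin : ∀ x ∈ L, x ∈ convexHull ℝ {0, r • u, s • v, t • w} → Φ x)
    (hout : Out L Φ u v w r s t) : Cn L Φ u v w := by
  intro a b c ha hb hc hx
  by_cases hg : 1 < a / r + b / s + c / t
  · exact hout a b c ha hb hc hg hx
  push Not at hg
  apply hin _ hx
  have h0 : (0 : E) ∈ convexHull ℝ {0, r • u, s • v, t • w} := subset_convexHull ℝ _ (by simp)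
  have h1 : r • u ∈ convexHull ℝ {0, r • u, s • v, t • w} := subset_convexHull ℝ _ (by simp)
  have h2 : s • v ∈ convexHull ℝ {0, r • u, s • v, t • w} := subset_convexHull ℝ _ (by simp)
  have h3 : t • w ∈ convexHull ℝ {0, r • u, s • v, t • w} := subset_convexHull ℝ _ (by simp)
  have ha' : 0 ≤ a / r := by positivity
  have hb' : 0 ≤ b / s := by positivity
  have hc' : 0 ≤ c / t := by positivity
  rcases (add_nonneg (add_nonneg ha' hb') hc').lt_or_eq with hpos | hzero
  · obtain ⟨z, hz, he⟩ := gauge_point u v w hr hs ht ha hb hc rfl hpos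
      (convex_convexHull ℝ {0, r • u, s • v, t • w}) h1 h2 h3
    rw [he]
    have := convex_convexHull ℝ {0, r • u, s • v, t • w} hz h0
      (a := a / r + b / s + c / t) (b := 1 - (a / r + b / s + c / t)) hpos.le (by linarith)
      (by ring)
    simpa using this
  · have h4 : a / r = 0 := by linarith
    have h5 : b / s = 0 := by linarith
    have h6 : c / t = 0 := by linarith
    have h7 : a = 0 := by rcases div_eq_zero_iff.1 h4 with h | h <;> [exact h; exact absurd h hr.ne']
    have h8 : b = 0 := by rcases div_eq_zero_iff.1 h5 with h | h <;> [exact h; exact absurd h hs.ne']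
    have h9 : c = 0 := by rcases div_eq_zero_iff.1 h6 with h | h <;> [exact h; exact absurd h ht.ne']
    rw [h7, h8, h9]
    simpa using h0

/-- subdivision of the edge `u v` -/
lemma cn_split1 {L : Set E} {Φ : E → Prop} {u v w m : E} {α β : ℝ} (hα : 0 < α)
    (hβ : 0 < β) (hm : m = α • u + β • v) (h1 : Cn L Φ u m w) (h2 : Cn L Φ m v w) :
    Cn L Φ u v w := by
  intro a b c ha hb hc hx
  by_cases h : a * β ≤ b * α
  · have he : a • u + b • v + c • w = (a / α) • m + (b - a * β / α) • v + c • w := by
      rw [hm]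
      funext i
      simp only [Pi.add_apply, Pi.smul_apply, smul_eq_mul]
      field_simp
      ring
    rw [he] at hx ⊢
    refine h2 _ _ _ (by positivity) ?_ hc hx
    rw [sub_nonneg, div_le_iff₀ hα]; exact h
  · push Not at h
    have he : a • u + b • v + c • w = (a - b * α / β) • u + (b / β) • m + c • w := by
      rw [hm]
      funext i
      simp only [Pi.add_apply, Pi.smul_apply, smul_eq_mul]
      field_simp
      ring
    rw [he] at hx ⊢
    refine h1 _ _ _ ?_ (by positivity) hc hx
    rw [sub_nonneg, div_le_iff₀ hβ]; exact h.le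

/-- subdivision into four triangles -/
lemma cn_split4 {L : Set E} {Φ : E → Prop} {u v w : E} (h1 : Cn L Φ u (u + v) (u + w))
    (h2 : Cn L Φ (u + v) v (v + w)) (h3 : Cn L Φ (u + w) (v + w) w)
    (h4 : Cn L Φ (u + v) (v + w) (u + w)) : Cn L Φ u v w := by
  intro a b c ha hb hc hx
  by_cases hA : b + c ≤ a
  · have he : a • u + b • v + c • w = (a - b - c) • u + b • (u + v) + c • (u + w) := by
      funext i
      simp only [Pi.add_apply, Pi.smul_apply, smul_eq_mul]
      ring
    rw [he] at hx ⊢
    exact h1 _ _ _ (by linarith) hb hc hx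
  by_cases hB : a + c ≤ b
  · have he : a • u + b • v + c • w = a • (u + v) + (b - a - c) • v + c • (v + w) := by
      funext i
      simp only [Pi.add_apply, Pi.smul_apply, smul_eq_mul]
      ring
    rw [he] at hx ⊢
    exact h2 _ _ _ ha (by linarith) hc hx
  by_cases hC : a + b ≤ c
  · have he : a • u + b • v + c • w = a • (u + w) + b • (v + w) + (c - a - b) • w := by
      funext i
      simp only [Pi.add_apply, Pi.smul_apply, smul_eq_mul]
      ring
    rw [he] at hx ⊢
    exact h3 _ _ _ ha hb (by linarith) hx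
  push Not at hA hB hC
  have he : a • u + b • v + c • w = ((a + b - c) / 2) • (u + v) + ((b + c - a) / 2) • (v + w) +
      ((a + c - b) / 2) • (u + w) := by
    funext i
    simp only [Pi.add_apply, Pi.smul_apply, smul_eq_mul]
    ring
  rw [he] at hx ⊢
  exact h4 _ _ _ (by linarith) (by linarith) (by linarith) hx

/-- rotation of the three vectors -/
lemma Cn.rot {L : Set E} {Φ : E → Prop} {u v w : E} (h : Cn L Φ v w u) : Cn L Φ u v w := by
  intro a b c ha hb hc hx
  have he : a • u + b • v + c • w = b • v + c • w + a • u := by abel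
  rw [he] at hx ⊢
  exact h b c a hb hc ha hx

end Pool.Agent.Lib.MP_5e7226_co.C8
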