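import Pool.Agent.Lib.MP_5e7226_co.C8.Sym

/-!
# The symmetry groups as sets of linear homeomorphisms

`G24` is the group of the simplex, `G48s` the group of the cube. `simCls N` is the class of the
bodies in which the simplex with the vertices `N • simV j` has maximal volume.
-/

set_option autoImplicit false

open Set Filter Topology
open scoped Pointwise

namespace Pool.Agent.Lib.MP_5e7226_co.C8

open GB

/-- the action as a linear homeomorphism -/
noncomputable def actL (g : G48) : E ≃L[ℝ] E := mv (actM g) (isUnit_actM g)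

lemma actL_apply (g : G48) (x : E) : actL g x = act g x := by
  rw [act_eq]
  rfl

/-- the inverse element -/
def invG (g : G48) : G48 := (g.1.symm, fun j => g.2 (g.1.symm j))

lemma act_invG (g : G48) (x : E) : act g (act (invG g) x) = x := by
  funext i
  simp only [act, invG, Equiv.symm_apply_apply]
  rw [← mul_assoc, unit_sq, one_mul]

lemma ev_invG {g : G48} (h : Ev g) : Ev (invG g) := by
  show ∏ j, g.2 (g.1.symm j) = 1
  rw [Equiv.prod_comp g.1.symm g.2]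
  exact h

lemma actL_symm (g : G48) : (actL g).symm = actL (invG g) := by
  apply ContinuousLinearEquiv.ext
  funext x
  apply (actL g).injective
  rw [ContinuousLinearEquiv.apply_symm_apply, actL_apply, actL_apply, act_invG]

/-- the group of the simplex -/
def G24 : Set (E ≃L[ℝ] E) := {T | ∃ g, Ev g ∧ T = actL g}

/-- the group of the cube -/
def G48s : Set (E ≃L[ℝ] E) := {T | ∃ g, T = actL g}

lemma G24.symm {T : E ≃L[ℝ] E} (h : T ∈ G24) : T.symm ∈ G24 := by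
  obtain ⟨g, hg, rfl⟩ := h
  exact ⟨invG g, ev_invG hg, actL_symm g⟩

lemma G48s.symm {T : E ≃L[ℝ] E} (h : T ∈ G48s) : T.symm ∈ G48s := by
  obtain ⟨g, rfl⟩ := h
  exact ⟨invG g, actL_symm g⟩

lemma preG_eq_image (g : G48) (L : Set E) : preG g L = (actL g).symm '' L := by
  rw [preG_eq, pre_eq (isUnit_actM g)]
  rfl

lemma SimMax.image {L : Set E} (h : SimMax L) {T : E ≃L[ℝ] E} (hT : T ∈ G24) : SimMax (T '' L) := by
  obtain ⟨g, hg, h1⟩ := G24.symm hT
  have h2 : T '' L = C8.preG g L := by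
    rw [preG_eq_image, ← h1, ContinuousLinearEquiv.symm_symm]
  rw [h2]
  exact h.preG hg

lemma BoxMax.image {L : Set E} (h : BoxMax L) {T : E ≃L[ℝ] E} (hT : T ∈ G48s) :
    BoxMax (T '' L) := by
  obtain ⟨g, h1⟩ := G48s.symm hT
  have h2 : T '' L = C8.preG g L := by
    rw [preG_eq_image, ← h1, ContinuousLinearEquiv.symm_symm]
  rw [h2]
  exact h.preG g

lemma OctMax.image {L : Set E} (h : OctMax L) {T : E ≃L[ℝ] E} (hT : T ∈ G48s) :
    OctMax (T '' L) := by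
  obtain ⟨g, h1⟩ := G48s.symm hT
  have h2 : T '' L = C8.preG g L := by
    rw [preG_eq_image, ← h1, ContinuousLinearEquiv.symm_symm]
  rw [h2]
  exact h.preG g

/-! ### scaled classes -/

/-- the bodies in which the simplex with the vertices `N • simV j` has maximal volume -/
def simCls (N : ℕ) : Set (Set E) := {L | ∃ M, SimMax M ∧ L = (N : ℝ) • M}

/-- the bodies in which the cube with the vertices `N • sg v` has maximal volume -/
def boxCls (N : ℕ) : Set (Set E) := {L | ∃ M, BoxMax M ∧ L = (N : ℝ) • M}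

/-- the bodies in which the octahedron with the vertices `± N • e i` has maximal volume -/
def octCls (N : ℕ) : Set (Set E) := {L | ∃ M, OctMax M ∧ L = (N : ℝ) • M}

lemma image_smul_set (T : E ≃L[ℝ] E) (c : ℝ) (M : Set E) : T '' (c • M) = c • (T '' M) := by
  ext x
  constructor
  · rintro ⟨_, ⟨y, hy, rfl⟩, rfl⟩
    exact ⟨T y, ⟨y, hy, rfl⟩, by simp⟩
  · rintro ⟨_, ⟨y, hy, rfl⟩, rfl⟩
    exact ⟨c • y, ⟨y, hy, rfl⟩, by simp⟩

theorem simCls_sym {N : ℕ} {T : E ≃L[ℝ] E} (hT : T ∈ G24) : ∀ L ∈ simCls N, T '' L ∈ simCls N := by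
  rintro L ⟨M, hM, rfl⟩
  exact ⟨T '' M, hM.image hT, image_smul_set T _ M⟩

theorem boxCls_sym {N : ℕ} {T : E ≃L[ℝ] E} (hT : T ∈ G48s) : ∀ L ∈ boxCls N, T '' L ∈ boxCls N := by
  rintro L ⟨M, hM, rfl⟩
  exact ⟨T '' M, hM.image hT, image_smul_set T _ M⟩

theorem octCls_sym {N : ℕ} {T : E ≃L[ℝ] E} (hT : T ∈ G48s) : ∀ L ∈ octCls N, T '' L ∈ octCls N := by
  rintro L ⟨M, hM, rfl⟩
  exact ⟨T '' M, hM.image hT, image_smul_set T _ M⟩

/-- illumination is invariant under scaling -/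
lemma illum_of_smul {N : ℕ} (hN : 0 < N) {M : Set E} {k : ℕ} (h : Illum ((N : ℝ) • M) k) :
    Illum M k := by
  have hN' : (N : ℝ) ≠ 0 := by exact_mod_cast hN.ne'
  let T : E ≃L[ℝ] E := ContinuousLinearEquiv.smulLeft (Units.mk0 (N : ℝ) hN')
  have h1 : T '' M = (N : ℝ) • M := rfl
  rw [← h1] at h
  exact h.of_image T

theorem illum_of_simCls {N : ℕ} (hN : 0 < N) {k : ℕ} (H : ∀ L ∈ simCls N, Illum L k) :
    ∀ L, SimMax L → Illum L k := fun L hL => illum_of_smul hN (H _ ⟨L, hL, rfl⟩)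

theorem illum_of_boxCls {N : ℕ} (hN : 0 < N) {k : ℕ} (H : ∀ L ∈ boxCls N, Illum L k) :
    ∀ L, BoxMax L → Illum L k := fun L hL => illum_of_smul hN (H _ ⟨L, hL, rfl⟩)

theorem illum_of_octCls {N : ℕ} (hN : 0 < N) {k : ℕ} (H : ∀ L ∈ octCls N, Illum L k) :
    ∀ L, OctMax L → Illum L k := fun L hL => illum_of_smul hN (H _ ⟨L, hL, rfl⟩)

/-- elementary facts about the scaled class -/
theorem simCls_facts {N : ℕ} {L : Set E} (h : L ∈ simCls N) :
    IsCompact L ∧ Convex ℝ L ∧ (∀ j, (N : ℝ) • simV j ∈ L) ∧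
      ∀ x : Fin 4 → E, (∀ j, x j ∈ L) →
        |(Matrix.of fun i : Fin 3 => x i.succ - x 0).det| ≤ 16 * (N : ℝ) ^ 3 := by
  obtain ⟨M, hM, rfl⟩ := h
  refine ⟨hM.cpt.smul _, hM.conv.smul _, fun j => ⟨_, hM.pts j, rfl⟩, fun x hx => ?_⟩
  choose y hy hyx using hx
  have h1 : (Matrix.of fun i : Fin 3 => x i.succ - x 0) =
      (N : ℝ) • (Matrix.of fun i : Fin 3 => y i.succ - y 0) := by
    ext i k
    simp only [Matrix.of_apply, Matrix.smul_apply, Pi.sub_apply, ← hyx, Pi.smul_apply, smul_eq_mul]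
    ring
  rw [h1, Matrix.det_smul, Fintype.card_fin, abs_mul, abs_of_nonneg (by positivity), mul_comm]
  exact mul_le_mul_of_nonneg_right (hM.max y hy) (by positivity)

/-- elementary facts about the scaled class -/
theorem boxCls_facts {N : ℕ} {L : Set E} (h : L ∈ boxCls N) :
    IsCompact L ∧ Convex ℝ L ∧ (∀ v, (N : ℝ) • sg v ∈ L) ∧
      ∀ (c : E) (G : Fin 3 → E), (∀ v, c + ∑ i, sg v i • G i ∈ L) →
        |(Matrix.of G).det| ≤ (N : ℝ) ^ 3 := by
  obtain ⟨M, hM, rfl⟩ := h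
  refine ⟨hM.cpt.smul _, hM.conv.smul _, fun j => ⟨_, hM.pts j, rfl⟩, fun c G hG => ?_⟩
  rcases Nat.eq_zero_or_pos N with h0 | h0
  · subst h0
    have h1 : ∀ v, c + ∑ i, sg v i • G i = 0 := by
      intro v
      obtain ⟨y, -, hy⟩ := hG v
      rw [← hy]
      simp
    have h3 : (8 : ℝ) • G 0 = 0 := by
      have h2 := design_box.sum_smul_img c G 0
      rw [← h2]
      apply Finset.sum_eq_zero
      intro v _
      rw [img, h1 v, smul_zero]
    have h4 : G 0 = 0 := by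
      have := smul_eq_zero.1 h3
      rcases this with h | h
      · norm_num at h
      · exact h
    have h5 : (Matrix.of G).det = 0 := Matrix.det_eq_zero_of_row_eq_zero 0 (fun j => by simp [h4])
    rw [h5]
    simp
  · have hN : (N : ℝ) ≠ 0 := by exact_mod_cast h0.ne'
    have h1 := hM.max ((N : ℝ)⁻¹ • c) (fun i => (N : ℝ)⁻¹ • G i) (fun v => by
      obtain ⟨y, hy, hye⟩ := hG v
      have h2 : (N : ℝ)⁻¹ • c + ∑ i, sg v i • (N : ℝ)⁻¹ • G i = y := by
        have h3 : (N : ℝ)⁻¹ • (c + ∑ i, sg v i • G i) = y := by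
          rw [← hye]
          simp [smul_smul, hN]
        rw [← h3, smul_add, Finset.smul_sum]
        congr 1
        refine Finset.sum_congr rfl fun i _ => ?_
        rw [smul_comm]
      rw [h2]
      exact hy)
    have h2 : (Matrix.of fun i => (N : ℝ)⁻¹ • G i) = (N : ℝ)⁻¹ • Matrix.of G := rfl
    rw [h2, Matrix.det_smul, Fintype.card_fin, abs_mul, abs_of_nonneg (by positivity), inv_pow] at h1
    have h3 : (0 : ℝ) < (N : ℝ) ^ 3 := by positivity
    rwa [inv_mul_le_iff₀ h3, mul_one] at h1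

/-! ### fundamental domains -/

/-- the fundamental cone of the group of the simplex -/
def Fd24 : Set E := {y | ∃ a b c : ℝ, 0 ≤ a ∧ 0 ≤ b ∧ 0 ≤ c ∧
  y = a • ![1, 0, 0] + b • ![1, 1, 1] + c • ![1, 1, -1]}

/-- the fundamental cone of the group of the cube -/
def Fd48 : Set E := {y | ∃ a b c : ℝ, 0 ≤ a ∧ 0 ≤ b ∧ 0 ≤ c ∧
  y = a • ![1, 0, 0] + b • ![1, 1, 0] + c • ![1, 1, 1]}

theorem exists_G24 (x : E) : ∃ T ∈ G24, T x ∈ Fd24 := by
  obtain ⟨g, y, hg, hgy, h2, h1⟩ := exists_fund24 x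
  refine ⟨actL (invG g), ⟨invG g, ev_invG hg, rfl⟩, ?_⟩
  have h3 : actL (invG g) x = y := by
    rw [← actL_symm, ← hgy, ← actL_apply, ContinuousLinearEquiv.symm_apply_apply]
  rw [h3]
  exact fund24_cone h2 h1

theorem exists_G48 (x : E) : ∃ T ∈ G48s, T x ∈ Fd48 := by
  obtain ⟨g, y, hgy, h3, h2, h1⟩ := exists_fund48 x
  refine ⟨actL (invG g), ⟨invG g, rfl⟩, ?_⟩
  have h4 : actL (invG g) x = y := by
    rw [← actL_symm, ← hgy, ← actL_apply, ContinuousLinearEquiv.symm_apply_apply]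
  rw [h4]
  exact fund48_cone h3 h2 h1

/-! ### orbits of integer points -/

theorem orb24_mem {T : E ≃L[ℝ] E} (hT : T ∈ G24) (x y z : ℤ) :
    ∃ t ∈ orb24 x y z, T (rl x y z) = rl t.1 t.2.1 t.2.2 := by
  obtain ⟨g, hg, rfl⟩ := hT
  rw [actL_apply]
  exact act_orb24 hg x y z

theorem orb48_mem {T : E ≃L[ℝ] E} (hT : T ∈ G48s) (x y z : ℤ) :
    ∃ t ∈ orb48 x y z, T (rl x y z) = rl t.1 t.2.1 t.2.2 := by
  obtain ⟨g, rfl⟩ := hT
  rw [actL_apply]
  exact act_orb48 g x y z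

lemma perms_exists {x y z : ℤ} {p : ℤ × ℤ × ℤ} (hp : p ∈ perms x y z) :
    ∃ σ : Equiv.Perm (Fin 3), ∀ i, rl x y z (σ i) = rl p.1 p.2.1 p.2.2 i := by
  simp only [perms, List.mem_cons, List.not_mem_nil, or_false] at hp
  rcases hp with rfl | rfl | rfl | rfl | rfl | rfl
  · exact ⟨1, fun i => rfl⟩
  · refine ⟨Equiv.swap 1 2, fun i => ?_⟩
    fin_cases i
    · rfl
    · show rl x y z (Equiv.swap 1 2 1) = _
      rw [Equiv.swap_apply_left]; rfl
    · show rl x y z (Equiv.swap 1 2 2) = _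
      rw [Equiv.swap_apply_right]; rfl
  · refine ⟨Equiv.swap 0 1, fun i => ?_⟩
    fin_cases i
    · show rl x y z (Equiv.swap 0 1 0) = _
      rw [Equiv.swap_apply_left]; rfl
    · show rl x y z (Equiv.swap 0 1 1) = _
      rw [Equiv.swap_apply_right]; rfl
    · rfl
  · refine ⟨finRotate 3, fun i => ?_⟩
    fin_cases i <;> rfl
  · refine ⟨(finRotate 3).symm, fun i => ?_⟩
    fin_cases i <;> rfl
  · refine ⟨Equiv.swap 0 2, fun i => ?_⟩
    fin_cases i
    · show rl x y z (Equiv.swap 0 2 0) = _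
      rw [Equiv.swap_apply_left]; rfl
    · rfl
    · show rl x y z (Equiv.swap 0 2 2) = _
      rw [Equiv.swap_apply_right]; rfl

lemma act_rl {x y z : ℤ} {p : ℤ × ℤ × ℤ} {σ : Equiv.Perm (Fin 3)}
    (h : ∀ i, rl x y z (σ i) = rl p.1 p.2.1 p.2.2 i) (e : Fin 3 → ℤˣ) {a b c : ℤ}
    (ha : ((e 0 : ℤˣ) : ℤ) = a) (hb : ((e 1 : ℤˣ) : ℤ) = b) (hc : ((e 2 : ℤˣ) : ℤ) = c) :
    act (σ, e) (rl x y z) = rl (a * p.1) (b * p.2.1) (c * p.2.2) := by
  funext i
  simp only [act, h]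
  fin_cases i
  · simp [rl, ha]
  · simp [rl, hb]
  · simp [rl, hc]

/-- the elements of the list are images of the point -/
theorem orb24_exists {x y z : ℤ} {t : ℤ × ℤ × ℤ} (ht : t ∈ orb24 x y z) :
    ∃ T ∈ G24, rl t.1 t.2.1 t.2.2 = T (rl x y z) := by
  simp only [orb24, List.mem_append, List.mem_map] at ht
  rcases ht with ((ht | ⟨p, hp, rfl⟩) | ⟨p, hp, rfl⟩) | ⟨p, hp, rfl⟩
  · obtain ⟨σ, hσ⟩ := perms_exists ht
    refine ⟨actL (σ, fun _ => 1), ⟨(σ, fun _ => 1), by simp [Ev], rfl⟩, ?_⟩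
    rw [actL_apply, act_rl hσ (fun _ => 1) (a := 1) (b := 1) (c := 1) rfl rfl rfl]
    simp
  · obtain ⟨σ, hσ⟩ := perms_exists hp
    refine ⟨actL (σ, ![1, -1, -1]), ⟨(σ, ![1, -1, -1]), by simp [Ev, Fin.prod_univ_three], rfl⟩, ?_⟩
    rw [actL_apply, act_rl hσ ![1, -1, -1] (a := 1) (b := -1) (c := -1) rfl rfl rfl]
    simp
  · obtain ⟨σ, hσ⟩ := perms_exists hp
    refine ⟨actL (σ, ![-1, 1, -1]), ⟨(σ, ![-1, 1, -1]), by simp [Ev, Fin.prod_univ_three], rfl⟩, ?_⟩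
    rw [actL_apply, act_rl hσ ![-1, 1, -1] (a := -1) (b := 1) (c := -1) rfl rfl rfl]
    simp
  · obtain ⟨σ, hσ⟩ := perms_exists hp
    refine ⟨actL (σ, ![-1, -1, 1]), ⟨(σ, ![-1, -1, 1]), by simp [Ev, Fin.prod_univ_three], rfl⟩, ?_⟩
    rw [actL_apply, act_rl hσ ![-1, -1, 1] (a := -1) (b := -1) (c := 1) rfl rfl rfl]
    simp

/-- the elements of the list are images of the point -/
theorem orb48_exists {x y z : ℤ} {t : ℤ × ℤ × ℤ} (ht : t ∈ orb48 x y z) :
    ∃ T ∈ G48s, rl t.1 t.2.1 t.2.2 = T (rl x y z) := by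
  simp only [orb48, List.mem_append, List.mem_map] at ht
  rcases ht with ht | ⟨p, hp, rfl⟩
  · obtain ⟨T, ⟨g, -, rfl⟩, h⟩ := orb24_exists ht
    exact ⟨actL g, ⟨g, rfl⟩, h⟩
  · obtain ⟨T, ⟨g, -, rfl⟩, h⟩ := orb24_exists hp
    refine ⟨actL (g.1, fun i => - g.2 i), ⟨_, rfl⟩, ?_⟩
    have h2 : act (g.1, fun i => - g.2 i) (rl x y z) = - act g (rl x y z) := by
      funext i
      simp [act]
    rw [actL_apply, h2, ← actL_apply, ← h]
    funext i
    fin_cases i <;> simp [rl]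

end Pool.Agent.Lib.MP_5e7226_co.C8
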