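import Pool.Agent.Lib.MP_5e7226_co.C8.TRS3

/-!
# Soundness of the fast evaluation with a scale of the radii, fourth part: covers and trees
-/

set_option autoImplicit false

open Set

namespace Pool.Agent.Lib.MP_5e7226_co.C8.TR

open GB C8.TF

lemma pw_eq (H : ℕ) : ∃ i < 8, pw H = 2 ^ i := by
  refine ⟨(H / 2 ^ 15) % 8, Nat.mod_lt _ (by norm_num), ?_⟩
  have : pw H = Nat.shiftLeft 1 ((Nat.shiftRight H 15) % 8) := rfl
  rw [this, nshl, nshr, one_mul]

lemma pw_pos (H : ℕ) : 0 < pw H := by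
  obtain ⟨i, _, h⟩ := pw_eq H
  rw [h]
  positivity

lemma pw_le (H : ℕ) : pw H ≤ 128 := by
  obtain ⟨i, hi, h⟩ := pw_eq H
  rw [h]
  exact (Nat.pow_le_pow_right (by norm_num) (by omega : i ≤ 7)).trans (by norm_num)

lemma cl_rp {hs : List FD} {BI C0 C1 C2 C3 D1 D2 D3 : ℕ} (h : Nu hs BI C0 C1 C2 C3 D1 D2 D3)
    {m : ℕ} (hm : m = hs.length) (R : ℕ) :
    Rp hs (Nat.add BI (Nat.mul R (Nat.sub (Nat.shiftLeft 1 (Nat.mul 96 m)) C0)))
      (fun h => 2 ^ 95 - R * h.c) := by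
  have e : Nat.shiftLeft 1 (Nat.mul 96 m) = 2 ^ (96 * hs.length) := by
    rw [nshl, nmul, one_mul, hm]
  rw [e]
  have h1 := h.hC0.neg rfl h.hC0le
  refine Rp.congr (h.hBI.add (h1.mul R)) (fun f _ => ?_)
  ring

/-- soundness of a leaf -/
theorem lf_sound {C : Set (Set E)} (hC : Frm C 17179869184) {n : ℕ} {K F : List ℕ} (h0 : (0 : E) ∈ convexHull ℝ (KS K))
    {H W S0 S1 S2 S3 S4 S5 S6 S7 : ℕ} (h : lf n K F H W S0 S1 S2 S3 S4 S5 S6 S7 = true) :
    ∀ L ∈ C, (tsG n K F []).Holds L → ∀ x ∈ L,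
      Phi (Wf n (Wl n W)) (JQ []) L x := by
  intro L hL hst
  obtain ⟨nf, hnf⟩ : ∃ nf, nf = Nat.land H 255 := ⟨_, rfl⟩
  obtain ⟨nd, hnd⟩ : ∃ nd, nd = Nat.land (Nat.shiftRight H 8) 127 := ⟨_, rfl⟩
  obtain ⟨FC, hFC⟩ : ∃ FC, FC = Nat.shiftRight H 18 := ⟨_, rfl⟩
  obtain ⟨DC, hDC⟩ : ∃ DC, DC = Nat.shiftRight H (Nat.add 18 (Nat.mul 45 nf)) := ⟨_, rfl⟩
  obtain ⟨P, hPP⟩ : ∃ P, P = pw H := ⟨_, rfl⟩
  have h' : l2 n P (ln K) (ln F) nf nd FC DC (tk K) (tk F) W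
      (ap (fl (tk K) 0 45 nf FC) (fl (tk K) 17179869184 21 nd DC)) S0 S1 S2 S3 S4 S5 S6 S7 =
      true := by
    rw [hDC, hFC, hnf, hnd, hPP]
    exact h
  rw [ap_eq] at h'
  have hP1 : 0 < P := hPP ▸ pw_pos H
  have hP2 : P ≤ 128 := hPP ▸ pw_le H
  clear h hDC hFC hnf hnd hPP
  set fs := fl (tk K) 0 45 nf FC with hfs
  set ds := fl (tk K) 17179869184 21 nd DC with hds
  have lenf : fs.length = nf := fl_len _ _ _ _ _
  have lend : ds.length = nd := fl_len _ _ _ _ _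
  have hlen : Nat.add nf nd = (fs ++ ds).length := by rw [List.length_append, lenf, lend]; rfl
  have hbd : ∀ h ∈ fs ++ ds, FB h := by
    intro h hh
    rcases List.mem_append.1 hh with hh | hh
    · obtain ⟨j, _, rfl⟩ := fl_mem hh
      exact mkFD_bd (by norm_num)
    · obtain ⟨j, _, rfl⟩ := fl_mem hh
      exact mkFD_bd (by norm_num)
  have hn := nu_of hbd hlen
  obtain ⟨BI, hBI⟩ : ∃ X, X = Nat.mul 39614081257132168796771975168 (on (Nat.add nf nd)) :=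
    ⟨_, rfl⟩
  obtain ⟨C0, hC0⟩ : ∃ X, X = pf FD.c (fs ++ ds) := ⟨_, rfl⟩
  obtain ⟨C1, hC1⟩ : ∃ X, X = Nat.add (pf FD.A1 (fs ++ ds)) (Nat.sub
    (Nat.shiftLeft 1 (Nat.mul 96 (Nat.add nf nd))) (pf FD.B1 (fs ++ ds))) := ⟨_, rfl⟩
  obtain ⟨C2, hC2⟩ : ∃ X, X = Nat.add (pf FD.A2 (fs ++ ds)) (Nat.sub
    (Nat.shiftLeft 1 (Nat.mul 96 (Nat.add nf nd))) (pf FD.B2 (fs ++ ds))) := ⟨_, rfl⟩
  obtain ⟨C3, hC3⟩ : ∃ X, X = Nat.add (pf FD.A3 (fs ++ ds)) (Nat.sub
    (Nat.shiftLeft 1 (Nat.mul 96 (Nat.add nf nd))) (pf FD.B3 (fs ++ ds))) := ⟨_, rfl⟩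
  obtain ⟨D1, hD1⟩ : ∃ X, X = Nat.add (pf FD.B1 (fs ++ ds)) (Nat.sub
    (Nat.shiftLeft 1 (Nat.mul 96 (Nat.add nf nd))) (pf FD.A1 (fs ++ ds))) := ⟨_, rfl⟩
  obtain ⟨D2, hD2⟩ : ∃ X, X = Nat.add (pf FD.B2 (fs ++ ds)) (Nat.sub
    (Nat.shiftLeft 1 (Nat.mul 96 (Nat.add nf nd))) (pf FD.A2 (fs ++ ds))) := ⟨_, rfl⟩
  obtain ⟨D3, hD3⟩ : ∃ X, X = Nat.add (pf FD.B3 (fs ++ ds)) (Nat.sub
    (Nat.shiftLeft 1 (Nat.mul 96 (Nat.add nf nd))) (pf FD.A3 (fs ++ ds))) := ⟨_, rfl⟩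
  rw [← hBI, ← hC0, ← hC1, ← hC2, ← hC3, ← hD1, ← hD2, ← hD3] at hn
  have h3 : l3 n P (ln K) (ln F) nf nd FC DC (tk K) (tk F) W
      (Nat.mul 39614081257132168796771975168 (on nf)) BI C0 C1 C2 C3 D1 D2 D3
      S0 S1 S2 S3 S4 S5 S6 S7 = true := by
    rw [hBI, hC0, hC1, hC2, hC3, hD1, hD2, hD3]
    exact h'
  clear h' hC0 hC1 hC2 hC3 hD1 hD2 hD3
  obtain ⟨h3, k1⟩ := br h3
  obtain ⟨h3, k2⟩ := br h3
  obtain ⟨h3, k3⟩ := br h3
  obtain ⟨h3, k4⟩ := br h3
  obtain ⟨h3, k5⟩ := br h3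
  have k2' : 1 ≤ nf := Nat.le_of_ble_eq_true k2
  -- the offsets are positive
  have hCC := hn.CC hlen
  have hpos : ∀ h ∈ fs ++ ds, 0 < h.c := by
    have e1 : BI = pk (fun _ => 39614081257132168796771975168) (fs ++ ds) := by
      rw [pk_const, hBI, hlen]; rfl
    rw [e1] at k5
    have k5' := set_of_mask ((beq_iff _ _).1 k5)
    have hs1 := sign_set hCC (fun f hf => by
      have a2 : (f.c : ℤ) < 2 ^ 56 := by exact_mod_cast (hbd f hf).c
      have a3 : (0 : ℤ) ≤ f.c := Nat.cast_nonneg _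
      constructor
      · norm_num; linarith
      · norm_num at a2 ⊢; linarith) k5'
    intro f hf
    have := hs1 f hf
    omega
  -- the facets
  have hfc := fc_true k4
  have hdc := dc_true k3
  have hV : ∀ k, Rp (fs ++ ds) (Nat.add (Nat.add C0 (Nat.mul 39614081257132168796771975167
      (on (Nat.add nf nd)))) (vn D1 D2 D3 (Nat.mul 32768 (Nat.add (Nat.add C1 C2) C3))
      (pt (tk K) k))) (fun h => 2 ^ 95 + ((h.c : ℤ) - 1 -
      dz h (ix (pt (tk K) k)) (iy (pt (tk K) k)) (iz (pt (tk K) k)))) := by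
    intro k
    refine (hCC.add (hn.K0 (pt (tk K) k))).congr (fun f _ => ?_)
    ring
  have hgood : ∀ h ∈ fs, FGood fs h := by
    intro h hh
    have hp := hpos h (List.mem_append_left _ hh)
    obtain ⟨j, hj, rfl⟩ := fl_mem hh
    obtain ⟨_, n1, n2, n3⟩ := hfc j hj
    exact ⟨hp, nb_facet hfs hbd hV n1, nb_facet hfs hbd hV n2, nb_facet hfs hbd hV n3⟩
  have hok : FctOk (fs.map toF) := by
    refine fctOk_of ?_ hgood ?_
    · intro he
      rw [he] at lenf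
      simp at lenf
      omega
    · intro h hh
      obtain ⟨j, _, rfl⟩ := fl_mem hh
      exact ⟨_, _, _, rfl⟩
  have h0' : (0 : E) ∈ convexHull ℝ (KS (md K)) := by rw [KS_md]; exact h0
  have hfac : Fac (md K) fs := by
    refine ⟨hok, fun h hh => hbd h (List.mem_append_left _ hh), fun h hh => ?_, h0'⟩
    obtain ⟨p, hp, q, hq, r, hr, rfl⟩ := fl_in hh (fun j hj => (hfc j hj).1)
    exact ⟨hp, hq, hr⟩
  have hsub : KS (md K) ⊆ L := by rw [KS_md]; exact hst.pts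
  have hout : ∀ f < ln F, rp (pt (tk F) f) ∉ L := by
    intro f hf
    rw [ln_eq] at hf
    rw [pt_tk F f hf, rp_mod]
    exact hst.out _ ⟨_, List.getElem_mem hf, rfl⟩
  have hdead : ∀ h ∈ ds, Dead L {z | (h.c : ℝ) ≤ nr h ⬝ᵥ z} := by
    intro h hh
    have hp := hpos h (List.mem_append_right _ hh)
    obtain ⟨p, h1, q, h2, r, h4, rfl⟩ := fl_in hh hdc
    exact hC.dead L hL p q r (hsub ⟨p, h1, rfl⟩) (hsub ⟨q, h2, rfl⟩) (hsub ⟨r, h4, rfl⟩) hp
  obtain ⟨R, hR⟩ : ∃ R, R = Nat.mul 4096 P := ⟨_, rfl⟩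
  have hcd : Cd R P nf nd (ln F) (Nat.mul 39614081257132168796771975168 (on nf))
      (Nat.add BI (Nat.mul R
        (Nat.sub (Nat.shiftLeft 1 (Nat.mul 96 (Nat.add nf nd))) C0)))
      (Nat.add BI (Nat.mul (Nat.mul 4096 R) C0))
      (fun a => Nat.mul P (vn D1 D2 D3 (Nat.mul 32768 (Nat.add (Nat.add C1 C2) C3)) (pt W a)))
      (fun f => Nat.mul R (vn D1 D2 D3 (Nat.mul 32768 (Nat.add (Nat.add C1 C2) C3))
        (pt (tk F) f))) W (tk F) (md K) fs ds L := by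
    refine ⟨hfac, hbd, hC.conv L hL, hsub, lenf, lend, hR, hP1, hP2, ?_, cl_rp hn hlen R, ?_,
      fun a => ?_, fun f => ?_, hout, hdead⟩
    · rw [pk_const, lenf, nmul]
    · refine (hn.hBI.add (hn.hC0.mul (4096 * R))).congr (fun f _ => ?_)
      push_cast
      ring
    · refine ((hn.K0 (pt W a)).mul P).congr (fun f _ => ?_)
      ring
    · refine ((hn.K0 (pt (tk F) f)).mul R).congr (fun f _ => ?_)
      ring
  rw [hR] at hcd
  have e1 : (32767 : ℕ) < 2 ^ 18 := by norm_num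
  have e2 : (262143 : ℕ) < 2 ^ 18 := by norm_num
  exact o8_sound (tD_sound hcd e1) (tD_sound hcd e2) (tN_sound hcd) hn h3

/-- soundness of a cover -/
theorem cu_sound {C : Set (Set E)} (hC : Frm C 17179869184) {n : ℕ} {K F : List ℕ} {G : List UG} {J : List KG}
    (h0 : (0 : E) ∈ convexHull ℝ (KS K))
    {H W S0 S1 S2 S3 S4 S5 S6 S7 : ℕ} (h : cu n K F G J H W S0 S1 S2 S3 S4 S5 S6 S7 = true) :
    ∀ L ∈ C, (tsG n K F G).Holds L → ∀ x ∈ L,
      Phi (Wf n (Wl n W)) (JQ J) L x := by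
  intro L hL hst
  obtain ⟨nf, hnf⟩ : ∃ nf, nf = Nat.land H 255 := ⟨_, rfl⟩
  obtain ⟨nd, hnd⟩ : ∃ nd, nd = Nat.land (Nat.shiftRight H 8) 127 := ⟨_, rfl⟩
  obtain ⟨FC, hFC⟩ : ∃ FC, FC = Nat.shiftRight H 18 := ⟨_, rfl⟩
  obtain ⟨DC, hDC⟩ : ∃ DC, DC = Nat.shiftRight H (Nat.add 18 (Nat.mul 45 nf)) := ⟨_, rfl⟩
  obtain ⟨P, hPP⟩ : ∃ P, P = pw H := ⟨_, rfl⟩
  have h' : k2 n P (ln K) (ln F) nf nd FC DC (tk K) (tk F) W G J
      (ap (fl (tk K) 0 45 nf FC) (fl (tk K) 17179869184 21 nd DC)) S0 S1 S2 S3 S4 S5 S6 S7 =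
      true := by
    rw [hDC, hFC, hnf, hnd, hPP]
    exact h
  rw [ap_eq] at h'
  have hP1 : 0 < P := hPP ▸ pw_pos H
  have hP2 : P ≤ 128 := hPP ▸ pw_le H
  clear h hDC hFC hnf hnd hPP
  set fs := fl (tk K) 0 45 nf FC with hfs
  set ds := fl (tk K) 17179869184 21 nd DC with hds
  have lenf : fs.length = nf := fl_len _ _ _ _ _
  have lend : ds.length = nd := fl_len _ _ _ _ _
  have hlen : Nat.add nf nd = (fs ++ ds).length := by rw [List.length_append, lenf, lend]; rfl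
  have hbd : ∀ h ∈ fs ++ ds, FB h := by
    intro h hh
    rcases List.mem_append.1 hh with hh | hh
    · obtain ⟨j, _, rfl⟩ := fl_mem hh
      exact mkFD_bd (by norm_num)
    · obtain ⟨j, _, rfl⟩ := fl_mem hh
      exact mkFD_bd (by norm_num)
  have hn := nu_of hbd hlen
  obtain ⟨BI, hBI⟩ : ∃ X, X = Nat.mul 39614081257132168796771975168 (on (Nat.add nf nd)) :=
    ⟨_, rfl⟩
  obtain ⟨C0, hC0⟩ : ∃ X, X = pf FD.c (fs ++ ds) := ⟨_, rfl⟩
  obtain ⟨C1, hC1⟩ : ∃ X, X = Nat.add (pf FD.A1 (fs ++ ds)) (Nat.sub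
    (Nat.shiftLeft 1 (Nat.mul 96 (Nat.add nf nd))) (pf FD.B1 (fs ++ ds))) := ⟨_, rfl⟩
  obtain ⟨C2, hC2⟩ : ∃ X, X = Nat.add (pf FD.A2 (fs ++ ds)) (Nat.sub
    (Nat.shiftLeft 1 (Nat.mul 96 (Nat.add nf nd))) (pf FD.B2 (fs ++ ds))) := ⟨_, rfl⟩
  obtain ⟨C3, hC3⟩ : ∃ X, X = Nat.add (pf FD.A3 (fs ++ ds)) (Nat.sub
    (Nat.shiftLeft 1 (Nat.mul 96 (Nat.add nf nd))) (pf FD.B3 (fs ++ ds))) := ⟨_, rfl⟩
  obtain ⟨D1, hD1⟩ : ∃ X, X = Nat.add (pf FD.B1 (fs ++ ds)) (Nat.sub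
    (Nat.shiftLeft 1 (Nat.mul 96 (Nat.add nf nd))) (pf FD.A1 (fs ++ ds))) := ⟨_, rfl⟩
  obtain ⟨D2, hD2⟩ : ∃ X, X = Nat.add (pf FD.B2 (fs ++ ds)) (Nat.sub
    (Nat.shiftLeft 1 (Nat.mul 96 (Nat.add nf nd))) (pf FD.A2 (fs ++ ds))) := ⟨_, rfl⟩
  obtain ⟨D3, hD3⟩ : ∃ X, X = Nat.add (pf FD.B3 (fs ++ ds)) (Nat.sub
    (Nat.shiftLeft 1 (Nat.mul 96 (Nat.add nf nd))) (pf FD.A3 (fs ++ ds))) := ⟨_, rfl⟩
  rw [← hBI, ← hC0, ← hC1, ← hC2, ← hC3, ← hD1, ← hD2, ← hD3] at hn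
  have h3 : k3 n P (ln K) (ln F) nf nd FC DC (tk K) (tk F) W G J
      (Nat.mul 39614081257132168796771975168 (on nf)) BI C0 C1 C2 C3 D1 D2 D3
      S0 S1 S2 S3 S4 S5 S6 S7 = true := by
    rw [hBI, hC0, hC1, hC2, hC3, hD1, hD2, hD3]
    exact h'
  clear h' hC0 hC1 hC2 hC3 hD1 hD2 hD3
  obtain ⟨h3, k1⟩ := br h3
  obtain ⟨h3, k2⟩ := br h3
  obtain ⟨h3, k3⟩ := br h3
  obtain ⟨h3, k4⟩ := br h3
  obtain ⟨h3, k5⟩ := br h3
  have k2' : 1 ≤ nf := Nat.le_of_ble_eq_true k2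
  -- the offsets are positive
  have hCC := hn.CC hlen
  have hpos : ∀ h ∈ fs ++ ds, 0 < h.c := by
    have e1 : BI = pk (fun _ => 39614081257132168796771975168) (fs ++ ds) := by
      rw [pk_const, hBI, hlen]; rfl
    rw [e1] at k5
    have k5' := set_of_mask ((beq_iff _ _).1 k5)
    have hs1 := sign_set hCC (fun f hf => by
      have a2 : (f.c : ℤ) < 2 ^ 56 := by exact_mod_cast (hbd f hf).c
      have a3 : (0 : ℤ) ≤ f.c := Nat.cast_nonneg _
      constructor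
      · norm_num; linarith
      · norm_num at a2 ⊢; linarith) k5'
    intro f hf
    have := hs1 f hf
    omega
  -- the facets
  have hfc := fc_true k4
  have hdc := dc_true k3
  have hV : ∀ k, Rp (fs ++ ds) (Nat.add (Nat.add C0 (Nat.mul 39614081257132168796771975167
      (on (Nat.add nf nd)))) (vn D1 D2 D3 (Nat.mul 32768 (Nat.add (Nat.add C1 C2) C3))
      (pt (tk K) k))) (fun h => 2 ^ 95 + ((h.c : ℤ) - 1 -
      dz h (ix (pt (tk K) k)) (iy (pt (tk K) k)) (iz (pt (tk K) k)))) := by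
    intro k
    refine (hCC.add (hn.K0 (pt (tk K) k))).congr (fun f _ => ?_)
    ring
  have hgood : ∀ h ∈ fs, FGood fs h := by
    intro h hh
    have hp := hpos h (List.mem_append_left _ hh)
    obtain ⟨j, hj, rfl⟩ := fl_mem hh
    obtain ⟨_, n1, n2, n3⟩ := hfc j hj
    exact ⟨hp, nb_facet hfs hbd hV n1, nb_facet hfs hbd hV n2, nb_facet hfs hbd hV n3⟩
  have hok : FctOk (fs.map toF) := by
    refine fctOk_of ?_ hgood ?_
    · intro he
      rw [he] at lenf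
      simp at lenf
      omega
    · intro h hh
      obtain ⟨j, _, rfl⟩ := fl_mem hh
      exact ⟨_, _, _, rfl⟩
  have h0' : (0 : E) ∈ convexHull ℝ (KS (md K)) := by rw [KS_md]; exact h0
  have hfac : Fac (md K) fs := by
    refine ⟨hok, fun h hh => hbd h (List.mem_append_left _ hh), fun h hh => ?_, h0'⟩
    obtain ⟨p, hp, q, hq, r, hr, rfl⟩ := fl_in hh (fun j hj => (hfc j hj).1)
    exact ⟨hp, hq, hr⟩
  have hsub : KS (md K) ⊆ L := by rw [KS_md]; exact hst.pts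
  have hout : ∀ f < ln F, rp (pt (tk F) f) ∉ L := by
    intro f hf
    rw [ln_eq] at hf
    rw [pt_tk F f hf, rp_mod]
    exact hst.out _ ⟨_, List.getElem_mem hf, rfl⟩
  have hdead : ∀ h ∈ ds, Dead L {z | (h.c : ℝ) ≤ nr h ⬝ᵥ z} := by
    intro h hh
    have hp := hpos h (List.mem_append_right _ hh)
    obtain ⟨p, h1, q, h2, r, h4, rfl⟩ := fl_in hh hdc
    exact hC.dead L hL p q r (hsub ⟨p, h1, rfl⟩) (hsub ⟨q, h2, rfl⟩) (hsub ⟨r, h4, rfl⟩) hp
  obtain ⟨R, hR⟩ : ∃ R, R = Nat.mul 4096 P := ⟨_, rfl⟩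
  have hcd : Cu n R P nf nd (ln F) (Nat.mul 39614081257132168796771975168 (on nf))
      (Nat.add BI (Nat.mul R
        (Nat.sub (Nat.shiftLeft 1 (Nat.mul 96 (Nat.add nf nd))) C0)))
      (Nat.add BI (Nat.mul (Nat.mul 4096 R) C0))
      (fun a => Nat.mul P (vn D1 D2 D3 (Nat.mul 32768 (Nat.add (Nat.add C1 C2) C3)) (pt W a)))
      (fun f => Nat.mul R (vn D1 D2 D3 (Nat.mul 32768 (Nat.add (Nat.add C1 C2) C3))
        (pt (tk F) f))) W (tk F) (md K) fs ds L
      (Nat.mul 39614081257132168796771975167 (on (Nat.add nf nd))) C0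
      (fun p => vn D1 D2 D3 (Nat.mul 32768 (Nat.add (Nat.add C1 C2) C3)) p)
      (fun p => vc D1 D2 D3 (Nat.mul 33554432 (Nat.add (Nat.add C1 C2) C3)) p)
      (fun p => vn C1 C2 C3 (Nat.mul 32768 (Nat.add (Nat.add D1 D2) D3)) p) G := by
    refine ⟨⟨hfac, hbd, hC.conv L hL, hsub, lenf, lend, hR, hP1, hP2, ?_, cl_rp hn hlen R, ?_,
      fun a => ?_, fun f => ?_, hout, hdead⟩, hn.hC0, ?_, fun p => hn.K0 p,
      fun p => vc_rp hn p, fun p => vp_rp hn p, fun g hg a ha => ?_⟩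
    · rw [pk_const, lenf, nmul]
    · refine (hn.hBI.add (hn.hC0.mul (4096 * R))).congr (fun f _ => ?_)
      push_cast
      ring
    · refine ((hn.K0 (pt W a)).mul P).congr (fun f _ => ?_)
      ring
    · refine ((hn.K0 (pt (tk F) f)).mul R).congr (fun f _ => ?_)
      ring
    · have h1 := Rp.of_pk (hs := fs ++ ds) (fun _ => 39614081257132168796771975167)
      rw [pk_const, ← hlen] at h1
      exact h1.congr (fun _ _ => by norm_num)
    · exact hst.unlit _ ⟨g, hg, a, ha, rfl⟩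
  rw [hR] at hcd
  have e1 : (32767 : ℕ) < 2 ^ 18 := by norm_num
  have e2 : (262143 : ℕ) < 2 ^ 18 := by norm_num
  exact u8_sound (tD_sound hcd.toCd e1) (tD_sound hcd.toCd e2) (tN_sound hcd.toCd)
    (tG_sound hcd J) hn h3

/-! ### trees -/

lemma sb_sub {m : List ℕ} : ∀ {l : List ℕ}, sb m l = true → ∀ a ∈ l, a ∈ m := by
  induction m with
  | nil =>
    intro l h a ha
    cases l with
    | nil => simp at ha
    | cons b l => exact absurd (show false = true from h) Bool.false_ne_true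
  | cons b m ih =>
    intro l h a ha
    cases l with
    | nil => simp at ha
    | cons c l =>
      have h' : @Bool.rec (fun _ => Bool) (sb m (c :: l)) (sb m l) (Nat.beq c b) = true := h
      rcases hb : Nat.beq c b with _ | _
      · rw [hb] at h'
        exact List.mem_cons_of_mem _ (ih h' a ha)
      · rw [hb] at h'
        have e := Nat.eq_of_beq_eq_true hb
        rcases List.mem_cons.1 ha with rfl | ha
        · rw [e]; simp
        · exact List.mem_cons_of_mem _ (ih h' a ha)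

lemma sbG_sub {m : List UG} : ∀ {l : List UG}, sbG m l = true → ∀ a ∈ l, a ∈ m := by
  induction m with
  | nil =>
    intro l h a ha
    cases l with
    | nil => simp at ha
    | cons b l => exact absurd (show false = true from h) Bool.false_ne_true
  | cons b m ih =>
    intro l h a ha
    cases l with
    | nil => simp at ha
    | cons c l =>
      have h' : @Bool.rec (fun _ => Bool) (sbG m (c :: l)) (sbG m l)
        (@Bool.rec (fun _ => Bool) false (@Bool.rec (fun _ => Bool) false (Nat.beq c.m b.m)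
          (Nat.beq c.W b.W)) (Nat.beq c.C b.C)) = true := h
      rcases hb : (@Bool.rec (fun _ => Bool) false (@Bool.rec (fun _ => Bool) false
          (Nat.beq c.m b.m) (Nat.beq c.W b.W)) (Nat.beq c.C b.C) : Bool) with _ | _
      · rw [hb] at h'
        exact List.mem_cons_of_mem _ (ih h' a ha)
      · rw [hb] at h'
        obtain ⟨hb, h1⟩ := br hb
        obtain ⟨h3, h2⟩ := br hb
        have e : c = b := by
          have e1 := Nat.eq_of_beq_eq_true h1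
          have e2 := Nat.eq_of_beq_eq_true h2
          have e3 := Nat.eq_of_beq_eq_true h3
          cases c
          cases b
          simp only at e1 e2 e3
          rw [e1, e2, e3]
        rcases List.mem_cons.1 ha with rfl | ha
        · rw [e]; simp
        · exact List.mem_cons_of_mem _ (ih h' a ha)

lemma mb_mem {K F : List ℕ} {G : List UG} : ∀ {l : List SG} {i : ℕ}, mb K F G l i = true →
    ∃ s ∈ l, (∀ a ∈ s.K, a ∈ K) ∧ (∀ a ∈ s.F, a ∈ F) ∧ ∀ a ∈ s.G, a ∈ G := by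
  intro l
  induction l with
  | nil =>
    intro i h
    exact absurd (show false = true from h) Bool.false_ne_true
  | cons s l ih =>
    intro i h
    rcases nrc h with h | ⟨j, h⟩
    · obtain ⟨h, h1⟩ := br h
      obtain ⟨h, h2⟩ := br h
      exact ⟨s, by simp, sb_sub h1, sb_sub h2, sbG_sub h⟩
    · obtain ⟨s', hs, h'⟩ := ih h
      exact ⟨s', List.mem_cons_of_mem _ hs, h'⟩

lemma gq_mono {P : Set E → Prop} {n : ℕ} {C : Set (Set E)} {s : SG} {K F : List ℕ}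
    {G : List UG} (h : GQ P C (tsG n s.K s.F s.G)) (hK : ∀ a ∈ s.K, a ∈ K)
    (hF : ∀ a ∈ s.F, a ∈ F) (hG : ∀ a ∈ s.G, a ∈ G) : GQ P C (tsG n K F G) := by
  intro L hL hs
  refine h L hL ⟨?_, ?_, ?_⟩
  · rintro x ⟨p, hp, rfl⟩
    exact hs.pts ⟨p, hK p hp, rfl⟩
  · rintro x ⟨p, hp, rfl⟩
    exact hs.out _ ⟨p, hF p hp, rfl⟩
  · rintro f ⟨g, hg, a, ha, rfl⟩
    exact hs.unlit _ ⟨g, hG g hg, a, ha, rfl⟩

/-- soundness of the check -/
theorem cw_sound {P : Set E → Prop} {C : Set (Set E)} {n : ℕ} (hP : ∀ L, Illum L n → P L)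
    (hn : 0 < n) (hC : Frm C 17179869184) {Z : ZT}
    (hZ : ZOK P C Z) {rs : List SG} (hrs : ∀ s ∈ rs, GQ P C (tsG n s.K s.F s.G)) (t : TU) :
    ∀ (V : ℕ) (K F : List ℕ) (G : List UG), (0 : E) ∈ convexHull ℝ (KS K) →
      (cw n Z rs t false V K F G = true → GQ P C (tsG n K F G)) ∧
      (cw n Z rs t true V K F G = true → ∀ g ∈ t.kd,
        GQ P C (tsG n (g.y :: K) F (⟨g.m, g.C, V⟩ :: G))) := by
  induction t with
  | q y a b ia ib =>
    intro V K F G h0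
    constructor
    · intro h
      obtain ⟨h1, h2⟩ := br h
      exact gq_query y ((ia 0 (y :: K) F G (zero_cons h0 y)).1 h2)
        ((ib 0 K (y :: F) G h0).1 h1)
    · intro h
      exact absurd (show false = true from h) Bool.false_ne_true
  | l H W S0 S1 S2 S3 S4 S5 S6 S7 =>
    intro V K F G h0
    constructor
    · intro h
      refine gq_cover (W := W) (J := JQ []) hP (fun L hL hs => ?_) hn ?_
      · refine lf_sound hC h0 h L hL ⟨hs.pts, hs.out, ?_⟩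
        rintro f ⟨u, hu, _⟩
        simp at hu
      · rintro _ ⟨a, ha, rfl⟩
        simp at ha
    · intro h
      exact absurd (show false = true from h) Bool.false_ne_true
  | r i =>
    intro V K F G h0
    constructor
    · intro h
      obtain ⟨s, hs, h1, h2, h3⟩ := mb_mem h
      exact gq_mono (hrs s hs) h1 h2 h3
    · intro h
      exact absurd (show false = true from h) Bool.false_ne_true
  | u H W S0 S1 S2 S3 S4 S5 S6 S7 c ic =>
    intro V K F G h0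
    constructor
    · intro h
      obtain ⟨h1, h2⟩ := br h
      have hk := (ic W K F G h0).2 h1
      refine gq_cover (W := W) (J := JQ c.kd) hP (cu_sound hC h0 h2) hn ?_
      rintro _ ⟨g, hg, rfl⟩ L hL hs hy ⟨x, hx, hxc, hxu⟩
      have hp : KS K ⊆ L := hs.pts
      refine hk g hg L hL ⟨?_, hs.out, ?_⟩
      · show KS (g.y :: K) ⊆ L
        rw [KS_cons]
        exact insert_subset hy hp
      · rintro f ⟨g', hg', a, ha, rfl⟩
        rcases List.mem_cons.1 hg' with rfl | hg'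
        · exact ⟨x, hx, hxc, hxu a ha⟩
        · exact hs.unlit _ ⟨g', hg', a, ha, rfl⟩
    · intro h
      exact absurd (show false = true from h) Bool.false_ne_true
  | e =>
    intro V K F G h0
    constructor
    · intro h
      exact absurd (show false = true from h) Bool.false_ne_true
    · intro _ g hg
      have : g ∈ ([] : List KG) := hg
      simp at this
  | k y m C' a b ia ib =>
    intro V K F G h0
    constructor
    · intro h
      exact absurd (show false = true from h) Bool.false_ne_true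
    · intro h g hg
      obtain ⟨h1, h2⟩ := br h
      have hg' : g ∈ (⟨y, m, C'⟩ : KG) :: b.kd := hg
      rcases List.mem_cons.1 hg' with rfl | hg'
      · exact (ia 0 (y :: K) F _ (zero_cons h0 y)).1 h2
      · exact (ib V K F G h0).2 h1 g hg'
  | z H y e1 e2 e3 S0 S1 S2 S3 S4 S5 S6 S7 =>
    intro V K F G h0
    constructor
    · intro h L hL hs
      exact hZ K F H y e1 e2 e3 S0 S1 S2 S3 S4 S5 S6 S7 h h0 L hL hs.pts hs.out
    · intro h
      exact absurd (show false = true from h) Bool.false_ne_true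

/-- an accepted certificate in the frame of the simplex -/
theorem gq_of_cw {P : Set E → Prop} {n : ℕ} (hP : ∀ L, Illum L n → P L) (hn : 0 < n) {Z : ZT}
    (hZ : ZOK P (simCls 1024) Z) {rs : List SG}
    (hrs : ∀ s ∈ rs, GQ P (simCls 1024) (tsG n s.K s.F s.G)) {t : TU} {K F : List ℕ}
    {G : List UG} (h : cw n Z rs t false 0 K F G = true) (h4 : has4 K = true) :
    GQ P (simCls 1024) (tsG n K F G) :=
  (cw_sound hP hn frm_sim1024 hZ hrs t 0 K F G (zero_of_has4 h4)).1 h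

/-- an accepted certificate in the frame of the simplex, illumination -/
theorem gi_of_cw {n : ℕ} (hn : 0 < n) {rs : List SG}
    (hrs : ∀ s ∈ rs, GQ (fun L => Illum L n) (simCls 1024) (tsG n s.K s.F s.G)) {t : TU}
    {K F : List ℕ} {G : List UG} (h : cw n zn rs t false 0 K F G = true)
    (h4 : has4 K = true) :
    GQ (fun L => Illum L n) (simCls 1024) (tsG n K F G) :=
  gq_of_cw (fun _ h => h) hn (zn_ok _ _) hrs h h4

end Pool.Agent.Lib.MP_5e7226_co.C8.TR
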