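import Pool.Agent.Lib.MP_5e7226_co.C8.Bits

/-!
# Eight directions: the functionals of three points
-/

set_option autoImplicit false

open Set

namespace Pool.Agent.Lib.MP_5e7226_co.C8

open GB

/-- signed coordinates -/
def ix (p : ℕ) : ℤ := (ox p : ℤ) - 32768
def iy (p : ℕ) : ℤ := (oy p : ℤ) - 32768
def iz (p : ℕ) : ℤ := (oz p : ℤ) - 32768

/-- an integer vector as a real vector -/
def rv (x y z : ℤ) : E := ![(x : ℝ), (y : ℝ), (z : ℝ)]

/-- the point -/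
def rp (p : ℕ) : E := rv (ix p) (iy p) (iz p)

/-- the value of the functional at an integer vector -/
def dz (h : FD) (x y z : ℤ) : ℤ :=
  ((h.A1 : ℤ) - h.B1) * x + ((h.A2 : ℤ) - h.B2) * y + ((h.A3 : ℤ) - h.B3) * z

/-- the normal -/
def nr (h : FD) : E := rv ((h.A1 : ℤ) - h.B1) ((h.A2 : ℤ) - h.B2) ((h.A3 : ℤ) - h.B3)

lemma nr_dot (h : FD) (x y z : ℤ) : nr h ⬝ᵥ rv x y z = (dz h x y z : ℝ) := by
  simp [nr, rv, dz, dotProduct, Fin.sum_univ_three]

lemma ox_lt (p : ℕ) : ox p < 65536 := by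
  have : ox p = p % 2 ^ 16 := land_full p 16
  rw [this]; exact Nat.mod_lt _ (by norm_num)

lemma oy_lt (p : ℕ) : oy p < 65536 := by
  have : oy p = (Nat.shiftRight p 16) % 2 ^ 16 := land_full _ 16
  rw [this]; exact Nat.mod_lt _ (by norm_num)

lemma oz_lt (p : ℕ) : oz p < 65536 := by
  have : oz p = (Nat.shiftRight p 32) % 2 ^ 16 := land_full _ 16
  rw [this]; exact Nat.mod_lt _ (by norm_num)

lemma ix_bd (p : ℕ) : |ix p| ≤ 32768 := by
  have := ox_lt p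
  unfold ix
  rw [abs_le]
  constructor <;> omega

lemma iy_bd (p : ℕ) : |iy p| ≤ 32768 := by
  have := oy_lt p
  unfold iy
  rw [abs_le]
  constructor <;> omega

lemma iz_bd (p : ℕ) : |iz p| ≤ 32768 := by
  have := oz_lt p
  unfold iz
  rw [abs_le]
  constructor <;> omega

/-- bounds -/
structure FB (h : FD) : Prop where
  a1 : h.A1 < 2 ^ 34
  a2 : h.A2 < 2 ^ 34
  a3 : h.A3 < 2 ^ 34
  b1 : h.B1 < 2 ^ 34
  b2 : h.B2 < 2 ^ 34
  b3 : h.B3 < 2 ^ 34
  c : h.c < 2 ^ 56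

lemma crs_lt {a b c a' b' c' : ℕ} (h1 : a < 65536) (h2 : b < 65536) (h3 : c < 65536)
    (h1' : a' < 65536) (h2' : b' < 65536) (h3' : c' < 65536) :
    crs a b c a' b' c' < 12884901888 := by
  simp only [crs, nadd, nmul]
  have e1 : b * c' ≤ 65535 * 65535 := Nat.mul_le_mul (by omega) (by omega)
  have e2 : c * a' ≤ 65535 * 65535 := Nat.mul_le_mul (by omega) (by omega)
  have e3 : a * b' ≤ 65535 * 65535 := Nat.mul_le_mul (by omega) (by omega)
  omega

lemma dps_lt {A1 A2 A3 B1 B2 B3 : ℕ} (p : ℕ) (h1 : A1 < 12884901888) (h2 : A2 < 12884901888)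
    (h3 : A3 < 12884901888) (h4 : B1 < 12884901888) (h5 : B2 < 12884901888)
    (h6 : B3 < 12884901888) : dps A1 A2 A3 B1 B2 B3 p < 2 ^ 55 - 2 ^ 50 := by
  simp only [dps, nadd, nmul]
  have e1 : A1 * ox p ≤ 12884901888 * 65535 := Nat.mul_le_mul h1.le (by have := ox_lt p; omega)
  have e2 : A2 * oy p ≤ 12884901888 * 65535 := Nat.mul_le_mul h2.le (by have := oy_lt p; omega)
  have e3 : A3 * oz p ≤ 12884901888 * 65535 := Nat.mul_le_mul h3.le (by have := oz_lt p; omega)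
  omega

lemma mkFD_bd {k p q r : ℕ} (hk : k < 2 ^ 55) : FB (mkFD k p q r) := by
  have c1 := crs_lt (oy_lt p) (oy_lt q) (oy_lt r) (oz_lt p) (oz_lt q) (oz_lt r)
  have c2 := crs_lt (oz_lt p) (oz_lt q) (oz_lt r) (ox_lt p) (ox_lt q) (ox_lt r)
  have c3 := crs_lt (ox_lt p) (ox_lt q) (ox_lt r) (oy_lt p) (oy_lt q) (oy_lt r)
  have c4 := crs_lt (oz_lt p) (oz_lt q) (oz_lt r) (oy_lt p) (oy_lt q) (oy_lt r)
  have c5 := crs_lt (ox_lt p) (ox_lt q) (ox_lt r) (oz_lt p) (oz_lt q) (oz_lt r)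
  have c6 := crs_lt (oy_lt p) (oy_lt q) (oy_lt r) (ox_lt p) (ox_lt q) (ox_lt r)
  have d := dps_lt p c1 c2 c3 c4 c5 c6
  refine ⟨?_, ?_, ?_, ?_, ?_, ?_, ?_⟩
  · exact c1.trans (by norm_num)
  · exact c2.trans (by norm_num)
  · exact c3.trans (by norm_num)
  · exact c4.trans (by norm_num)
  · exact c5.trans (by norm_num)
  · exact c6.trans (by norm_num)
  · simp only [mkFD, nadd, nsub]
    omega

lemma dps_sub (A1 A2 A3 B1 B2 B3 p : ℕ) :
    (dps A1 A2 A3 B1 B2 B3 p : ℤ) - dps B1 B2 B3 A1 A2 A3 p =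
      ((A1 : ℤ) - B1) * ix p + ((A2 : ℤ) - B2) * iy p + ((A3 : ℤ) - B3) * iz p := by
  simp only [dps, nadd, nmul, ix, iy, iz]
  push_cast
  ring

/-- the value of the functional -/
lemma mkFD_c_ge (k p q r : ℕ) :
    (k : ℤ) + dz (mkFD k p q r) (ix p) (iy p) (iz p) ≤ (mkFD k p q r).c := by
  have h := dps_sub (mkFD k p q r).A1 (mkFD k p q r).A2 (mkFD k p q r).A3 (mkFD k p q r).B1
    (mkFD k p q r).B2 (mkFD k p q r).B3 p
  have hc : (mkFD k p q r).c = k + dps (mkFD k p q r).A1 (mkFD k p q r).A2 (mkFD k p q r).A3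
      (mkFD k p q r).B1 (mkFD k p q r).B2 (mkFD k p q r).B3 p - dps (mkFD k p q r).B1
      (mkFD k p q r).B2 (mkFD k p q r).B3 (mkFD k p q r).A1 (mkFD k p q r).A2
      (mkFD k p q r).A3 p := rfl
  rw [hc, dz]
  omega

lemma mkFD_c_eq (k p q r : ℕ) (hpos : 0 < (mkFD k p q r).c) :
    ((mkFD k p q r).c : ℤ) = k + dz (mkFD k p q r) (ix p) (iy p) (iz p) := by
  have h := dps_sub (mkFD k p q r).A1 (mkFD k p q r).A2 (mkFD k p q r).A3 (mkFD k p q r).B1
    (mkFD k p q r).B2 (mkFD k p q r).B3 p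
  have hc : (mkFD k p q r).c = k + dps (mkFD k p q r).A1 (mkFD k p q r).A2 (mkFD k p q r).A3
      (mkFD k p q r).B1 (mkFD k p q r).B2 (mkFD k p q r).B3 p - dps (mkFD k p q r).B1
      (mkFD k p q r).B2 (mkFD k p q r).B3 (mkFD k p q r).A1 (mkFD k p q r).A2
      (mkFD k p q r).A3 p := rfl
  rw [dz]
  omega

lemma mkFD_q (k p q r : ℕ) : dz (mkFD k p q r) (ix q) (iy q) (iz q) =
    dz (mkFD k p q r) (ix p) (iy p) (iz p) := by
  simp only [dz, mkFD, crs, nadd, nmul, ix, iy, iz]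
  push_cast
  ring

lemma mkFD_r (k p q r : ℕ) : dz (mkFD k p q r) (ix r) (iy r) (iz r) =
    dz (mkFD k p q r) (ix p) (iy p) (iz p) := by
  simp only [dz, mkFD, crs, nadd, nmul, ix, iy, iz]
  push_cast
  ring

/-- the normal in terms of the points -/
lemma mkFD_n (k p q r : ℕ) (x y z : ℤ) : dz (mkFD k p q r) x y z =
    ((iy q * iz r - iz q * iy r) + (iy r * iz p - iz r * iy p) + (iy p * iz q - iz p * iy q)) * x +
    ((iz q * ix r - ix q * iz r) + (iz r * ix p - ix r * iz p) + (iz p * ix q - ix p * iz q)) * y +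
    ((ix q * iy r - iy q * ix r) + (ix r * iy p - iy r * ix p) + (ix p * iy q - iy p * ix q)) * z := by
  simp only [dz, mkFD, crs, nadd, nmul, ix, iy, iz]
  push_cast
  ring

lemma dz_bd {h : FD} (hb : FB h) {x y z b : ℤ} (hx : |x| ≤ b) (hy : |y| ≤ b) (hz : |z| ≤ b) :
    |dz h x y z| ≤ 3 * 2 ^ 34 * b := by
  have e1 : |(h.A1 : ℤ) - h.B1| ≤ 2 ^ 34 := by
    rw [abs_le]; have := hb.a1; have := hb.b1; constructor <;> omega
  have e2 : |(h.A2 : ℤ) - h.B2| ≤ 2 ^ 34 := by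
    rw [abs_le]; have := hb.a2; have := hb.b2; constructor <;> omega
  have e3 : |(h.A3 : ℤ) - h.B3| ≤ 2 ^ 34 := by
    rw [abs_le]; have := hb.a3; have := hb.b3; constructor <;> omega
  unfold dz
  have f1 : |((h.A1 : ℤ) - h.B1) * x| ≤ 2 ^ 34 * b := by
    rw [abs_mul]; exact mul_le_mul e1 hx (abs_nonneg _) (by norm_num)
  have f2 : |((h.A2 : ℤ) - h.B2) * y| ≤ 2 ^ 34 * b := by
    rw [abs_mul]; exact mul_le_mul e2 hy (abs_nonneg _) (by norm_num)
  have f3 : |((h.A3 : ℤ) - h.B3) * z| ≤ 2 ^ 34 * b := by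
    rw [abs_mul]; exact mul_le_mul e3 hz (abs_nonneg _) (by norm_num)
  have g1 := abs_add_le (((h.A1 : ℤ) - h.B1) * x + ((h.A2 : ℤ) - h.B2) * y) (((h.A3 : ℤ) - h.B3) * z)
  have g2 := abs_add_le (((h.A1 : ℤ) - h.B1) * x) (((h.A2 : ℤ) - h.B2) * y)
  linarith

lemma dz_lin (h : FD) (a b x y z x' y' z' : ℤ) :
    dz h (a * x + b * x') (a * y + b * y') (a * z + b * z') =
      a * dz h x y z + b * dz h x' y' z' := by
  unfold dz
  ring

/-! ### lists -/

lemma nthd_mem (a : ℕ) (l : List ℕ) (n : ℕ) : nthd a l n = a ∨ nthd a l n ∈ l := by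
  induction l generalizing n with
  | nil => left; rfl
  | cons b l ih =>
    rw [nthd]
    cases h : Nat.beq n (nat_lit 0)
    · rw [cond_false]
      rcases ih (Nat.sub n (nat_lit 1)) with h | h
      · left; exact h
      · right; exact List.mem_cons_of_mem _ h
    · rw [cond_true]; right; simp

lemma nth_zero_mem {l : List ℕ} (h : 0 < l.length) : nth l 0 ∈ l := by
  cases l with
  | nil => simp at h
  | cons b l =>
    rw [nth]
    simp

lemma mkF_pts {K : List ℕ} (hK : 0 < K.length) (k d : ℕ) :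
    ∃ p ∈ K, ∃ q ∈ K, ∃ r ∈ K, mkF K k d = mkFD k p q r := by
  have key : ∀ n, nthd (nth K 0) K n ∈ K := by
    intro n
    rcases nthd_mem (nth K 0) K n with h | h
    · rw [h]; exact nth_zero_mem hK
    · exact h
  exact ⟨_, key _, _, key _, _, key _, rfl⟩

lemma mkL_eq (K : List ℕ) (k : ℕ) (l : List ℕ) : mkL K k l = l.map (mkF K k) := by
  induction l with
  | nil => rfl
  | cons a l ih => rw [mkL, ih]; rfl

lemma mkL_pts {K : List ℕ} (hK : 0 < K.length) {k : ℕ} {l : List ℕ} {h : FD}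
    (hh : h ∈ mkL K k l) : ∃ p ∈ K, ∃ q ∈ K, ∃ r ∈ K, h = mkFD k p q r := by
  rw [mkL_eq, List.mem_map] at hh
  obtain ⟨d, _, rfl⟩ := hh
  exact mkF_pts hK k d

lemma nthFD_mem (l : List FD) (n : ℕ) : nthFD l n = dflFD ∨ nthFD l n ∈ l := by
  induction l generalizing n with
  | nil => left; rfl
  | cons b l ih =>
    rw [nthFD]
    cases h : Nat.beq n (nat_lit 0)
    · rw [cond_false]
      rcases ih (Nat.sub n (nat_lit 1)) with h | h
      · left; exact h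
      · right; exact List.mem_cons_of_mem _ h
    · rw [cond_true]; right; simp

/-- the facet as a real object -/
def toF (h : FD) : Fct := ⟨nr h, (h.c : ℝ), rp h.p, rp h.q, rp h.r⟩

lemma blt_iff (a b : ℕ) : Nat.blt a b = true ↔ a < b := by
  simp [Nat.blt_eq]

lemma ble_iff (a b : ℕ) : Nat.ble a b = true ↔ a ≤ b := by
  simp [Nat.ble_eq]

lemma beq_iff (a b : ℕ) : Nat.beq a b = true ↔ a = b := by
  simp [Nat.beq_eq]

/-- property of a facet of the list -/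
structure FGood (fs : List FD) (h : FD) : Prop where
  pos : 0 < h.c
  n1 : ∃ g ∈ fs, FD.vtx g h.p = true ∧ FD.vtx g h.q = true ∧ FD.lt g h.r = true
  n2 : ∃ g ∈ fs, FD.vtx g h.q = true ∧ FD.vtx g h.r = true ∧ FD.lt g h.p = true
  n3 : ∃ g ∈ fs, FD.vtx g h.r = true ∧ FD.vtx g h.p = true ∧ FD.lt g h.q = true

lemma lt_dfl (x : ℕ) : FD.lt dflFD x = false := by
  simp only [FD.lt, dflFD, dps, nadd, nmul, nsucc]
  rw [Bool.eq_false_iff, Ne, ble_iff]
  simp

lemma nbr_sound {fs : List FD} {g p q r : ℕ} (h : nbr fs g p q r = true) :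
    ∃ f ∈ fs, FD.vtx f p = true ∧ FD.vtx f q = true ∧ FD.lt f r = true := by
  simp only [nbr, Bool.and_eq_true] at h
  rcases nthFD_mem fs g with h1 | h1
  · rw [h1, lt_dfl] at h
    simp at h
  · exact ⟨_, h1, h.1, h.2.1, h.2.2⟩

lemma nbrs_sound {fs : List FD} : ∀ {l : List FD} {ds : List ℕ}, nbrs fs l ds = true →
    ∀ h ∈ l, FGood fs h := by
  intro l
  induction l with
  | nil => intro ds _ h hh; simp at hh
  | cons f t ih =>
    intro ds hn h hh
    simp only [nbrs, Bool.and_eq_true] at hn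
    rcases List.mem_cons.1 hh with rfl | hh
    · exact ⟨(blt_iff _ _).1 hn.1.1.1, nbr_sound hn.1.1.2, nbr_sound hn.1.2.1,
        nbr_sound hn.1.2.2⟩
    · exact ih hn.2 h hh

lemma vtx_iff (f : FD) (x : ℕ) : FD.vtx f x = true ↔ (f.p = x ∨ f.q = x ∨ f.r = x) := by
  simp only [FD.vtx, Bool.or_eq_true, beq_iff]

lemma nr_rp (h : FD) (p : ℕ) : nr h ⬝ᵥ rp p = (dz h (ix p) (iy p) (iz p) : ℝ) := nr_dot _ _ _ _

lemma facet_eq {K : List ℕ} (hK : 0 < K.length) {fc : List ℕ} {h : FD}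
    (hh : h ∈ mkL K 0 fc) (hpos : 0 < h.c) {x : ℕ} (hx : FD.vtx h x = true) :
    nr h ⬝ᵥ rp x = (h.c : ℝ) := by
  obtain ⟨p, _, q, _, r, _, rfl⟩ := mkL_pts hK hh
  have e := mkFD_c_eq 0 p q r hpos
  rw [nr_rp]
  have e' : ((mkFD 0 p q r).c : ℤ) = dz (mkFD 0 p q r) (ix x) (iy x) (iz x) := by
    rw [vtx_iff] at hx
    rcases hx with hx | hx | hx
    · have : p = x := hx
      rw [← this, e]; simp
    · have : q = x := hx
      rw [← this, mkFD_q, e]; simp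
    · have : r = x := hx
      rw [← this, mkFD_r, e]; simp
  rw [← e']
  simp

lemma facet_lt {h : FD} {x : ℕ} (hx : FD.lt h x = true) : nr h ⬝ᵥ rp x < (h.c : ℝ) := by
  rw [nr_rp]
  simp only [FD.lt, ble_iff, nadd, nsucc] at hx
  have e := dps_sub h.A1 h.A2 h.A3 h.B1 h.B2 h.B3 x
  have : dz h (ix x) (iy x) (iz x) < (h.c : ℤ) := by
    rw [dz]
    omega
  exact_mod_cast this

lemma fok_sound {K fc : List ℕ} (h : fok K fc = true) :
    FctOk ((mkL K 0 fc).map toF) ∧ 0 < K.length := by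
  simp only [fok, Bool.and_eq_true, blt_iff, len_eq] at h
  obtain ⟨⟨h1, hK⟩, h2⟩ := h
  have hg := nbrs_sound h2
  refine ⟨⟨?_, ?_, ?_, ?_, ?_, ?_, ?_, ?_⟩, hK⟩
  · rw [mkL_eq]
    intro hn
    have := congrArg List.length hn
    simp at this
    rw [this] at h1
    simp at h1
  · intro f hf
    obtain ⟨h, hh, rfl⟩ := List.mem_map.1 hf
    have := (hg h hh).pos
    simp only [toF]
    exact_mod_cast this
  · intro f hf
    obtain ⟨h, hh, rfl⟩ := List.mem_map.1 hf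
    exact facet_eq hK hh (hg h hh).pos (by rw [vtx_iff]; simp)
  · intro f hf
    obtain ⟨h, hh, rfl⟩ := List.mem_map.1 hf
    exact facet_eq hK hh (hg h hh).pos (by rw [vtx_iff]; simp)
  · intro f hf
    obtain ⟨h, hh, rfl⟩ := List.mem_map.1 hf
    exact facet_eq hK hh (hg h hh).pos (by rw [vtx_iff]; simp)
  · intro f hf
    obtain ⟨h, hh, rfl⟩ := List.mem_map.1 hf
    obtain ⟨g, hg1, hg2, hg3, hg4⟩ := (hg h hh).n1
    exact ⟨toF g, List.mem_map.2 ⟨g, hg1, rfl⟩, facet_eq hK hg1 (hg g hg1).pos hg2,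
      facet_eq hK hg1 (hg g hg1).pos hg3, facet_lt hg4⟩
  · intro f hf
    obtain ⟨h, hh, rfl⟩ := List.mem_map.1 hf
    obtain ⟨g, hg1, hg2, hg3, hg4⟩ := (hg h hh).n2
    exact ⟨toF g, List.mem_map.2 ⟨g, hg1, rfl⟩, facet_eq hK hg1 (hg g hg1).pos hg2,
      facet_eq hK hg1 (hg g hg1).pos hg3, facet_lt hg4⟩
  · intro f hf
    obtain ⟨h, hh, rfl⟩ := List.mem_map.1 hf
    obtain ⟨g, hg1, hg2, hg3, hg4⟩ := (hg h hh).n3
    exact ⟨toF g, List.mem_map.2 ⟨g, hg1, rfl⟩, facet_eq hK hg1 (hg g hg1).pos hg2,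
      facet_eq hK hg1 (hg g hg1).pos hg3, facet_lt hg4⟩

end Pool.Agent.Lib.MP_5e7226_co.C8
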