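import Pool.Agent.Lib.MP_5e7226_co.C8.Snd1

/-!
# Eight directions: soundness of the packed tests
-/

set_option autoImplicit false

open Set

namespace Pool.Agent.Lib.MP_5e7226_co.C8

open GB

/-- the set of the points of the state -/
def KS (K : List ℕ) : Set E := {x | ∃ p ∈ K, x = rp p}

/-- the facets -/
structure Fac (K : List ℕ) (fs : List FD) : Prop where
  ok : FctOk (fs.map toF)
  bd : ∀ h ∈ fs, FB h
  pts : ∀ h ∈ fs, h.p ∈ K ∧ h.q ∈ K ∧ h.r ∈ K
  zero : (0 : E) ∈ convexHull ℝ (KS K)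

lemma Fac.hv {K : List ℕ} {fs : List FD} (h : Fac K fs) : ∀ f ∈ fs.map toF,
    f.p ∈ convexHull ℝ (KS K) ∧ f.q ∈ convexHull ℝ (KS K) ∧ f.r ∈ convexHull ℝ (KS K) := by
  intro f hf
  obtain ⟨g, hg, rfl⟩ := List.mem_map.1 hf
  obtain ⟨h1, h2, h3⟩ := h.pts g hg
  exact ⟨subset_convexHull ℝ _ ⟨_, h1, rfl⟩, subset_convexHull ℝ _ ⟨_, h2, rfl⟩,
    subset_convexHull ℝ _ ⟨_, h3, rfl⟩⟩

lemma Fac.mem {K : List ℕ} {fs : List FD} (h : Fac K fs) {z : E}
    (hz : ∀ f ∈ fs, nr f ⬝ᵥ z ≤ (f.c : ℝ)) : z ∈ convexHull ℝ (KS K) := by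
  refine h.ok.mem (convex_convexHull ℝ _) h.zero h.hv ?_
  intro f hf
  obtain ⟨g, hg, rfl⟩ := List.mem_map.1 hf
  exact hz g hg

lemma Fac.mem_int {K : List ℕ} {fs : List FD} (h : Fac K fs) {z : E}
    (hz : ∀ f ∈ fs, nr f ⬝ᵥ z < (f.c : ℝ)) : z ∈ interior (convexHull ℝ (KS K)) := by
  refine h.ok.mem_interior (convex_convexHull ℝ _) h.zero h.hv ?_
  intro f hf
  obtain ⟨g, hg, rfl⟩ := List.mem_map.1 hf
  exact hz g hg

lemma Fac.zero_int {K : List ℕ} {fs : List FD} (h : Fac K fs) :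
    (0 : E) ∈ interior (convexHull ℝ (KS K)) :=
  h.ok.zero_interior (convex_convexHull ℝ _) h.zero h.hv

lemma Fac.c_pos {K : List ℕ} {fs : List FD} (h : Fac K fs) {f : FD} (hf : f ∈ fs) :
    (0 : ℝ) < f.c := h.ok.pos _ (List.mem_map.2 ⟨f, hf, rfl⟩)

/-! ### sign tests -/

lemma set_of_mask {fs : List FD} {X : ℕ}
    (h : X &&& pk (fun _ => 39614081257132168796771975168) fs =
      pk (fun _ => 39614081257132168796771975168) fs) :
    ∀ g, g < fs.length → X.testBit (96 * g + 95) = true :=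
  fun g hg => land_mask h (mask_bit fs g hg)

lemma clear_of_mask {fs : List FD} {X : ℕ}
    (h : X &&& pk (fun _ => 39614081257132168796771975168) fs = 0) :
    ∀ g, g < fs.length → X.testBit (96 * g + 95) = false :=
  fun g hg => land_zero h (mask_bit fs g hg)

/-- the numbers `U` and `E'` represent the vector `x y z` with coordinates bounded by `bd` -/
structure Vx (hs : List FD) (bd U E' : ℕ) (x y z : ℤ) : Prop where
  rep : Rp hs E' (fun h => dz h x y z)
  bx : |x| ≤ bd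
  by' : |y| ≤ bd
  bz : |z| ≤ bd
  dec : (U : ℤ) ≡ x + y * 2 ^ 24 + z * 2 ^ 48 [ZMOD 2 ^ 72]

lemma abs_comb {α β b b' : ℕ} {x y : ℤ} (hx : |x| ≤ b) (hy : |y| ≤ b') :
    |(α : ℤ) * x + β * y| ≤ (α * b + β * b' : ℕ) := by
  have h1 : |(α : ℤ) * x| ≤ α * b := by
    rw [abs_mul, Nat.abs_cast]; exact mul_le_mul_of_nonneg_left hx (by positivity)
  have h2 : |(β : ℤ) * y| ≤ β * b' := by
    rw [abs_mul, Nat.abs_cast]; exact mul_le_mul_of_nonneg_left hy (by positivity)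
  have h3 := abs_add_le ((α : ℤ) * x) (β * y)
  push_cast
  linarith

lemma Vx.comb {hs : List FD} {b b' U V E' F' : ℕ} {x y z x' y' z' : ℤ}
    (h : Vx hs b U E' x y z) (h' : Vx hs b' V F' x' y' z') (α β : ℕ) :
    Vx hs (α * b + β * b') (α * U + β * V) (α * E' + β * F') (α * x + β * x')
      (α * y + β * y') (α * z + β * z') := by
  refine ⟨?_, abs_comb h.bx h'.bx, abs_comb h.by' h'.by', abs_comb h.bz h'.bz, ?_⟩
  · refine ((h.rep.mul α).add (h'.rep.mul β)).congr ?_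
    intro f _
    rw [dz_lin]
  · have h1 := (h.dec.mul_left (α : ℤ)).add (h'.dec.mul_left (β : ℤ))
    have e : (α : ℤ) * (x + y * 2 ^ 24 + z * 2 ^ 48) + β * (x' + y' * 2 ^ 24 + z' * 2 ^ 48) =
        (α * x + β * x') + (α * y + β * y') * 2 ^ 24 + (α * z + β * z') * 2 ^ 48 := by ring
    rw [e] at h1
    push_cast
    exact h1

lemma Vx.mono {hs : List FD} {bd bd' U E' : ℕ} {x y z : ℤ}
    (h : Vx hs bd U E' x y z) (hb : bd ≤ bd') : Vx hs bd' U E' x y z := by
  have hb' : (bd : ℤ) ≤ bd' := by exact_mod_cast hb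
  exact ⟨h.rep, h.bx.trans hb', h.by'.trans hb', h.bz.trans hb', h.dec⟩

/-- the packed direction `X` represents the opposite of the vector `a b c` -/
def Neg (hs : List FD) (X : ℕ) (a b c : ℤ) : Prop := Rp hs X (fun h => -dz h a b c)

/-- real scaling -/
lemma rv_smul (t : ℝ) (x y z : ℤ) : t • rv x y z = ![t * x, t * y, t * z] := by
  funext i
  fin_cases i <;> simp [rv]

lemma dot_smul_rv (h : FD) (t : ℝ) (x y z : ℤ) : nr h ⬝ᵥ (t • rv x y z) = t * (dz h x y z : ℝ) := by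
  rw [dotProduct_smul, nr_dot, smul_eq_mul]

/-- one lit corner -/
lemma lit_sound {K : List ℕ} {fs : List FD} {ds : List FD} (hF : Fac K fs) {R CL W r s E' : ℕ}
    (hR : 0 < R) (hR' : R ≤ 4096) {x y z a b c : ℤ}
    (hCL : Rp (fs ++ ds) CL (fun h => 2 ^ 95 - R * h.c))
    (hW : Rp (fs ++ ds) W (fun h => -dz h a b c)) (hE : Rp (fs ++ ds) E' (fun h => dz h x y z))
    (hr : r < 2 ^ 24) (hs : s < 2 ^ 24) (hx : |x| ≤ 65536) (hy : |y| ≤ 65536) (hz : |z| ≤ 65536)
    (ha : |a| ≤ 65536) (hb : |b| ≤ 65536) (hc : |c| ≤ 65536)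
    (hm : ∀ g, g < fs.length → (litX CL W r s E').testBit (96 * g + 95) = false) :
    Lit (KS K) (rv a b c) (((r : ℝ) / R) • rv x y z) := by
  have hX : Rp fs (litX CL W r s E')
      (fun h => 2 ^ 95 + ((r : ℤ) * dz h x y z - s * dz h a b c - R * h.c)) := by
    have h1 := ((hCL.add (hE.mul r)).add (hW.mul s)).pre
    exact h1.congr (fun f _ => by ring)
  have hbd : ∀ f ∈ fs, -2 ^ 95 ≤ (r : ℤ) * dz f x y z - s * dz f a b c - R * f.c ∧
      (r : ℤ) * dz f x y z - s * dz f a b c - R * f.c < 2 ^ 95 := by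
    intro f hf
    have h1 := dz_bd (hF.bd f hf) hx hy hz
    have h2 := dz_bd (hF.bd f hf) ha hb hc
    have h3 : |(r : ℤ) * dz f x y z| ≤ 2 ^ 24 * (3 * 2 ^ 34 * 65536) := by
      rw [abs_mul]
      exact mul_le_mul (by rw [Nat.abs_cast]; exact_mod_cast hr.le) h1 (abs_nonneg _) (by norm_num)
    have h4 : |(s : ℤ) * dz f a b c| ≤ 2 ^ 24 * (3 * 2 ^ 34 * 65536) := by
      rw [abs_mul]
      exact mul_le_mul (by rw [Nat.abs_cast]; exact_mod_cast hs.le) h2 (abs_nonneg _) (by norm_num)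
    have h5 : (R : ℤ) * f.c ≤ 4096 * 2 ^ 56 :=
      mul_le_mul (by exact_mod_cast hR') (by exact_mod_cast (hF.bd f hf).c.le) (by positivity)
        (by norm_num)
    have h6 : 0 ≤ (R : ℤ) * f.c := by positivity
    rw [abs_le] at h3 h4
    constructor
    · norm_num at h3 h4 h5 ⊢; linarith [h3.1, h4.2]
    · norm_num at h3 h4 h5 ⊢; linarith [h3.2, h4.1]
  have hsg := sign_clear hX hbd hm
  have hR0 : (0 : ℝ) < R := by exact_mod_cast hR
  refine ⟨(s : ℝ) / R, by positivity, hF.mem_int ?_⟩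
  intro f hf
  have h1 : ((r : ℤ) * dz f x y z - s * dz f a b c - R * f.c : ℤ) < 0 := hsg f hf
  have h2 : ((r : ℝ) * dz f x y z - s * dz f a b c - R * f.c : ℝ) < 0 := by exact_mod_cast h1
  rw [dotProduct_sub, dot_smul_rv, dot_smul_rv]
  have h3 : (r : ℝ) / R * (dz f x y z) - (s : ℝ) / R * (dz f a b c) - f.c =
      ((r : ℝ) * dz f x y z - s * dz f a b c - R * f.c) / R := by
    field_simp
  have h4 : ((r : ℝ) * dz f x y z - s * dz f a b c - R * f.c) / R < 0 := div_neg_of_neg_of_pos h2 hR0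
  linarith

/-- one shadow corner -/
lemma sh_sound {K : List ℕ} {fs : List FD} {ds : List FD} (hF : Fac K fs) {R CS N r s E' : ℕ}
    (hR : 0 < R) (hR' : R ≤ 4096) {x y z a b c : ℤ}
    (hCS : Rp (fs ++ ds) CS (fun h => 2 ^ 95 + 256 * R * h.c))
    (hN : Rp (fs ++ ds) N (fun h => -(R * dz h a b c)))
    (hE : Rp (fs ++ ds) E' (fun h => dz h x y z))
    (hr : r < 2 ^ 24) (hs : s < 2 ^ 16) (hx : |x| ≤ 65536) (hy : |y| ≤ 65536) (hz : |z| ≤ 65536)
    (ha : |a| ≤ 65536) (hb : |b| ≤ 65536) (hc : |c| ≤ 65536)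
    (hm : ∀ g, g < fs.length → (shX CS N r s E').testBit (96 * g + 95) = true) :
    Shd (KS K) (rv a b c) (((r : ℝ) / R) • rv x y z) := by
  have hX : Rp fs (shX CS N r s E')
      (fun h => 2 ^ 95 + (256 * R * h.c - (256 + s) * (R * dz h a b c) +
        (s * r : ℕ) * dz h x y z)) := by
    have h1 := ((hCS.add (hN.mul (256 + s))).add (hE.mul (s * r))).pre
    exact h1.congr (fun f _ => by push_cast; ring)
  have hbd : ∀ f ∈ fs, -2 ^ 95 ≤ (256 * R * f.c - (256 + s) * (R * dz f a b c) +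
        (s * r : ℕ) * dz f x y z : ℤ) ∧ (256 * R * f.c - (256 + s) * (R * dz f a b c) +
        (s * r : ℕ) * dz f x y z : ℤ) < 2 ^ 95 := by
    intro f hf
    have h1 := dz_bd (hF.bd f hf) hx hy hz
    have h2 := dz_bd (hF.bd f hf) ha hb hc
    have hsr : ((s * r : ℕ) : ℤ) ≤ 2 ^ 40 := by
      have : s * r ≤ 2 ^ 16 * 2 ^ 24 := Nat.mul_le_mul hs.le hr.le
      have h' : s * r ≤ 2 ^ 40 := this.trans (by norm_num)
      exact_mod_cast h'
    have h3 : |((s * r : ℕ) : ℤ) * dz f x y z| ≤ 2 ^ 40 * (3 * 2 ^ 34 * 65536) := by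
      rw [abs_mul]
      exact mul_le_mul (by rw [Nat.abs_cast]; exact hsr) h1 (abs_nonneg _) (by norm_num)
    have h4 : |(256 + (s : ℤ)) * (R * dz f a b c)| ≤ 2 ^ 17 * (4096 * (3 * 2 ^ 34 * 65536)) := by
      rw [abs_mul, abs_mul]
      refine mul_le_mul ?_ ?_ (by positivity) (by norm_num)
      · rw [abs_of_nonneg (by positivity)]
        have : (s : ℤ) < 2 ^ 16 := by exact_mod_cast hs
        norm_num at this ⊢; linarith
      · exact mul_le_mul (by rw [Nat.abs_cast]; exact_mod_cast hR') h2 (abs_nonneg _) (by norm_num)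
    have h5 : (256 : ℤ) * R * f.c ≤ 256 * 4096 * 2 ^ 56 :=
      mul_le_mul (by have : (R : ℤ) ≤ 4096 := by exact_mod_cast hR'
                     linarith) (by exact_mod_cast (hF.bd f hf).c.le) (by positivity)
        (by norm_num)
    have h6 : 0 ≤ (256 : ℤ) * R * f.c := by positivity
    rw [abs_le] at h3 h4
    constructor
    · norm_num at h3 h4 h5 ⊢; linarith [h3.1, h4.2]
    · norm_num at h3 h4 h5 ⊢; linarith [h3.2, h4.1]
  have hsg := sign_set hX hbd hm
  have hR0 : (0 : ℝ) < R := by exact_mod_cast hR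
  -- the point beyond
  set σ : ℝ := (s : ℝ) / 256 with hσ
  have hσ0 : 0 ≤ σ := by positivity
  set P : E := ((r : ℝ) / R) • rv x y z with hP
  have hz' : (1 + σ) • rv a b c - σ • P ∈ convexHull ℝ (KS K) := by
    apply hF.mem
    intro f hf
    have h1 : (0 : ℤ) ≤ 256 * R * f.c - (256 + s) * (R * dz f a b c) +
        (s * r : ℕ) * dz f x y z := hsg f hf
    have h2 : (0 : ℝ) ≤ 256 * R * f.c - (256 + s) * (R * dz f a b c) +
        (s * r) * dz f x y z := by
      have := h1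
      push_cast at this
      exact_mod_cast this
    rw [dotProduct_sub, dotProduct_smul, dotProduct_smul, hP, dot_smul_rv, nr_dot, smul_eq_mul,
      smul_eq_mul]
    have h3 : (1 + σ) * (dz f a b c : ℝ) - σ * ((r : ℝ) / R * dz f x y z) - f.c =
        -((256 * R * f.c - (256 + s) * (R * dz f a b c) + (s * r) * dz f x y z) / (256 * R)) := by
      rw [hσ]
      field_simp
      ring
    have h4 : (0 : ℝ) ≤ (256 * R * f.c - (256 + s) * (R * dz f a b c) + (s * r) * dz f x y z) /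
        (256 * R) := div_nonneg h2 (by positivity)
    linarith
  -- the conclusion
  have h5 : (1 + σ) • rv a b c - σ • P ∈ convexHull ℝ (insert P (KS K)) :=
    convexHull_mono (subset_insert _ _) hz'
  have h6 : P ∈ convexHull ℝ (insert P (KS K)) := subset_convexHull ℝ _ (mem_insert _ _)
  have h7 := convex_convexHull ℝ (insert P (KS K)) h5 h6 (a := 1 / (1 + σ)) (b := σ / (1 + σ))
    (by positivity) (by positivity) (by field_simp)
  have h8 : (1 / (1 + σ)) • ((1 + σ) • rv a b c - σ • P) + (σ / (1 + σ)) • P = rv a b c := by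
    have : (1 + σ) ≠ 0 := by positivity
    rw [smul_sub, smul_smul, smul_smul, one_div, inv_mul_cancel₀ this, one_smul]
    rw [show (1 + σ)⁻¹ * σ = σ / (1 + σ) by field_simp]
    abel
  rw [h8] at h7
  exact h7

/-- one corner beyond a functional -/
lemma dt_sound {hs : List FD} (hbd : ∀ h ∈ hs, FB h) {R CL r E' g : ℕ} (hg : g < hs.length)
    (hR : 0 < R) (hR' : R ≤ 4096) {x y z : ℤ}
    (hCL : Rp hs CL (fun h => 2 ^ 95 - R * h.c)) (hE : Rp hs E' (fun h => dz h x y z))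
    (hr : r < 2 ^ 24) (hx : |x| ≤ 65536) (hy : |y| ≤ 65536) (hz : |z| ≤ 65536)
    (hm : (CL + r * E').testBit (96 * g + 95) = true) :
    ((hs[g]).c : ℝ) ≤ nr hs[g] ⬝ᵥ (((r : ℝ) / R) • rv x y z) := by
  have hX : Rp hs (CL + r * E') (fun h => 2 ^ 95 + ((r : ℤ) * dz h x y z - R * h.c)) := by
    have h1 := hCL.add (hE.mul r)
    exact h1.congr (fun f _ => by ring)
  have hbd' : ∀ f ∈ hs, -2 ^ 95 ≤ (r : ℤ) * dz f x y z - R * f.c ∧
      (r : ℤ) * dz f x y z - R * f.c < 2 ^ 95 := by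
    intro f hf
    have h1 := dz_bd (hbd f hf) hx hy hz
    have h3 : |(r : ℤ) * dz f x y z| ≤ 2 ^ 24 * (3 * 2 ^ 34 * 65536) := by
      rw [abs_mul]
      exact mul_le_mul (by rw [Nat.abs_cast]; exact_mod_cast hr.le) h1 (abs_nonneg _) (by norm_num)
    have h5 : (R : ℤ) * f.c ≤ 4096 * 2 ^ 56 :=
      mul_le_mul (by exact_mod_cast hR') (by exact_mod_cast (hbd f hf).c.le) (by positivity)
        (by norm_num)
    have h6 : 0 ≤ (R : ℤ) * f.c := by positivity
    rw [abs_le] at h3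
    constructor
    · norm_num at h3 h5 ⊢; linarith [h3.1]
    · norm_num at h3 h5 ⊢; linarith [h3.2]
  have h := bit_of_rp hs _ _ hX hbd' g hg
  rw [hm] at h
  have h1 : (0 : ℤ) ≤ (r : ℤ) * dz hs[g] x y z - R * (hs[g]).c := by simpa using h.symm
  have h2 : (0 : ℝ) ≤ (r : ℝ) * dz hs[g] x y z - R * (hs[g]).c := by exact_mod_cast h1
  have hR0 : (0 : ℝ) < R := by exact_mod_cast hR
  rw [dot_smul_rv]
  have h3 : (r : ℝ) / R * (dz hs[g] x y z) - (hs[g]).c =
      ((r : ℝ) * dz hs[g] x y z - R * (hs[g]).c) / R := by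
    field_simp
  have h4 : 0 ≤ ((r : ℝ) * dz hs[g] x y z - R * (hs[g]).c) / R := div_nonneg h2 hR0.le
  linarith

/-- one corner lifts a corner of a cell -/
lemma up_sound {K : List ℕ} {fs : List FD} {ds : List FD} (hF : Fac K fs)
    {R C0 CB Cc W r s t E' : ℕ}
    (hR : 0 < R) (hR' : R ≤ 4096) {x y z a b c a' b' c' : ℤ}
    (hC0 : Rp (fs ++ ds) C0 (fun h => (h.c : ℤ)))
    (hCB : Rp (fs ++ ds) CB (fun _ => 2 ^ 95 - 1))
    (hCc : Rp (fs ++ ds) Cc (fun h => -dz h a' b' c'))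
    (hW : Rp (fs ++ ds) W (fun h => dz h a b c)) (hE : Rp (fs ++ ds) E' (fun h => dz h x y z))
    (hr : r < 2 ^ 24) (hs : s < 2 ^ 24) (ht : t < 2 ^ 8)
    (hx : |x| ≤ 65536) (hy : |y| ≤ 65536) (hz : |z| ≤ 65536)
    (ha : |a| ≤ 65536) (hb : |b| ≤ 65536) (hc : |c| ≤ 65536)
    (ha' : |a'| ≤ 2 ^ 24) (hb' : |b'| ≤ 2 ^ 24) (hc' : |c'| ≤ 2 ^ 24)
    (hm : ∀ g, g < fs.length → (upX R C0 CB Cc W r s t E').testBit (96 * g + 95) = true) :
    Lifts (KS K) (rv a b c) ((1 / (R : ℝ)) • rv a' b' c') (((r : ℝ) / R) • rv x y z) := by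
  have ht' : t ≤ 256 := by omega
  have hX : Rp fs (upX R C0 CB Cc W r s t E')
      (fun h => 2 ^ 95 + (-1 + (R * (256 - t) : ℤ) * h.c - 256 * dz h a' b' c' +
        256 * s * dz h a b c + (t * r : ℕ) * dz h x y z)) := by
    have h1 := (((hCB.add (hC0.mul (R * (256 - t)))).add ((hCc.mul 256).add
      (hW.mul (256 * s)))).add (hE.mul (t * r))).pre
    refine h1.congr (fun f _ => ?_)
    push_cast [Nat.cast_sub ht']
    ring
  have hbd : ∀ f ∈ fs, -2 ^ 95 ≤ (-1 + (R * (256 - t) : ℤ) * f.c - 256 * dz f a' b' c' +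
        256 * s * dz f a b c + (t * r : ℕ) * dz f x y z) ∧
      (-1 + (R * (256 - t) : ℤ) * f.c - 256 * dz f a' b' c' +
        256 * s * dz f a b c + (t * r : ℕ) * dz f x y z) < 2 ^ 95 := by
    intro f hf
    have h1 := dz_bd (hF.bd f hf) hx hy hz
    have h2 := dz_bd (hF.bd f hf) ha hb hc
    have h2' := dz_bd (hF.bd f hf) ha' hb' hc'
    have htr : ((t * r : ℕ) : ℤ) ≤ 2 ^ 32 := by
      have : t * r ≤ 2 ^ 8 * 2 ^ 24 := Nat.mul_le_mul ht.le hr.le
      have h' : t * r ≤ 2 ^ 32 := this.trans (by norm_num)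
      exact_mod_cast h'
    have h3 : |((t * r : ℕ) : ℤ) * dz f x y z| ≤ 2 ^ 32 * (3 * 2 ^ 34 * 65536) := by
      rw [abs_mul]
      exact mul_le_mul (by rw [Nat.abs_cast]; exact htr) h1 (abs_nonneg _) (by norm_num)
    have h4 : |256 * (s : ℤ) * dz f a b c| ≤ 2 ^ 32 * (3 * 2 ^ 34 * 65536) := by
      rw [abs_mul]
      refine mul_le_mul ?_ h2 (abs_nonneg _) (by norm_num)
      rw [abs_of_nonneg (by positivity)]
      have : (s : ℤ) < 2 ^ 24 := by exact_mod_cast hs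
      norm_num at this ⊢; linarith
    have h4' : |256 * dz f a' b' c'| ≤ 256 * (3 * 2 ^ 34 * 2 ^ 24) := by
      rw [abs_mul]
      exact mul_le_mul (by norm_num) h2' (abs_nonneg _) (by norm_num)
    have h7 : (0 : ℤ) ≤ 256 - t := by
      have : (t : ℤ) ≤ 256 := by exact_mod_cast ht'
      linarith
    have h5 : (R * (256 - t) : ℤ) * f.c ≤ (4096 * 256) * 2 ^ 56 := by
      refine mul_le_mul ?_ (by exact_mod_cast (hF.bd f hf).c.le) (by positivity)
        (by norm_num)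
      refine mul_le_mul (by exact_mod_cast hR') ?_ h7 (by norm_num)
      have : (0 : ℤ) ≤ t := by positivity
      linarith
    have h6 : 0 ≤ (R * (256 - t) : ℤ) * f.c := by positivity
    rw [abs_le] at h3 h4 h4'
    constructor
    · norm_num at h3 h4 h4' h5 ⊢; linarith [h3.1, h4.1, h4'.2]
    · norm_num at h3 h4 h4' h5 ⊢; linarith [h3.2, h4.2, h4'.1]
  have hsg := sign_set hX hbd hm
  have hR0 : (0 : ℝ) < R := by exact_mod_cast hR
  set θ : ℝ := (t : ℝ) / 256 with hθ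
  have ht1 : (t : ℝ) < 256 := by
    have : t < 256 := by omega
    exact_mod_cast this
  have hθ1 : θ < 1 := by rw [hθ, div_lt_one (by norm_num)]; exact ht1
  have h1θ : 0 < 1 - θ := by linarith
  set P : E := ((r : ℝ) / R) • rv x y z with hP
  set q : E := (1 / (R : ℝ)) • rv a' b' c' with hq
  refine ⟨(s : ℝ) / R, θ, by positivity, by positivity, hθ1,
    (1 / (1 - θ)) • (q - ((s : ℝ) / R) • rv a b c - θ • P), hF.mem_int ?_, ?_⟩
  · intro f hf
    have h1 : (0 : ℤ) ≤ (-1 + (R * (256 - t) : ℤ) * f.c - 256 * dz f a' b' c' +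
        256 * s * dz f a b c + (t * r : ℕ) * dz f x y z) := hsg f hf
    have h2 : (0 : ℝ) ≤ (-1 + (R * (256 - t)) * f.c - 256 * dz f a' b' c' +
        256 * s * dz f a b c + (t * r) * dz f x y z) := by
      have := h1
      push_cast at this
      exact_mod_cast this
    have e0 : nr f ⬝ᵥ ((1 / (1 - θ)) • (q - ((s : ℝ) / R) • rv a b c - θ • P)) =
        1 / (1 - θ) * (1 / (R : ℝ) * (dz f a' b' c') - (s : ℝ) / R * (dz f a b c) -
        θ * ((r : ℝ) / R * (dz f x y z))) := by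
      simp only [hq, hP, dotProduct_smul, dotProduct_sub, nr_dot, smul_eq_mul]
    rw [e0, one_div (1 - θ), inv_mul_lt_iff₀ h1θ]
    have h3 : 1 / (R : ℝ) * (dz f a' b' c') - (s : ℝ) / R * (dz f a b c) -
        θ * ((r : ℝ) / R * (dz f x y z)) - (1 - θ) * f.c =
        -((R * (256 - t) * f.c - 256 * dz f a' b' c' + 256 * s * dz f a b c +
          (t * r) * dz f x y z) / (256 * R)) := by
      rw [hθ]
      field_simp
      ring
    have h4 : 0 < (R * (256 - t) * f.c - 256 * dz f a' b' c' + 256 * s * dz f a b c +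
          (t * r) * dz f x y z : ℝ) / (256 * R) := div_pos (by linarith) (by positivity)
    linarith
  · have e1 : ∀ v : E, (1 - θ) • ((1 / (1 - θ)) • v) = v := by
      intro v
      rw [smul_smul, mul_one_div_cancel h1θ.ne', one_smul]
    rw [e1]
    abel

end Pool.Agent.Lib.MP_5e7226_co.C8
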