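import Pool.Agent.Lib.MP_5e7226_co.C8.Snd2

/-!
# Eight directions: the context of the checks
-/

set_option autoImplicit false

open Set

namespace Pool.Agent.Lib.MP_5e7226_co.C8

open GB

/-- the integer vector with the index `a` of a list of packed vectors, `0` if there is none -/
def wv (W : List ℕ) (a : ℕ) : ℤ × ℤ × ℤ :=
  if h : a < W.length then (ix W[a], iy W[a], iz W[a]) else (0, 0, 0)

lemma wv_bd (W : List ℕ) (a : ℕ) :
    |(wv W a).1| ≤ 65536 ∧ |(wv W a).2.1| ≤ 65536 ∧ |(wv W a).2.2| ≤ 65536 := by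
  unfold wv
  split
  · exact ⟨(ix_bd _).trans (by norm_num), (iy_bd _).trans (by norm_num),
      (iz_bd _).trans (by norm_num)⟩
  · simp

/-- coordinates of the corners of cells -/
def jx (p : ℕ) : ℤ := (qx p : ℤ) - 8388608
def jy (p : ℕ) : ℤ := (qy p : ℤ) - 8388608
def jz (p : ℕ) : ℤ := (qz p : ℤ) - 8388608

lemma qx_lt (p : ℕ) : qx p < 16777216 := by
  have : qx p = p % 2 ^ 24 := land_full p 24
  rw [this]; exact Nat.mod_lt _ (by norm_num)

lemma qy_lt (p : ℕ) : qy p < 16777216 := by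
  have : qy p = (Nat.shiftRight p 24) % 2 ^ 24 := land_full _ 24
  rw [this]; exact Nat.mod_lt _ (by norm_num)

lemma qz_lt (p : ℕ) : qz p < 16777216 := by
  have : qz p = (Nat.shiftRight p 48) % 2 ^ 24 := land_full _ 24
  rw [this]; exact Nat.mod_lt _ (by norm_num)

lemma jx_bd (p : ℕ) : |jx p| ≤ 2 ^ 24 := by
  have := qx_lt p
  unfold jx
  rw [abs_le]
  constructor <;> omega

lemma jy_bd (p : ℕ) : |jy p| ≤ 2 ^ 24 := by
  have := qy_lt p
  unfold jy
  rw [abs_le]
  constructor <;> omega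

lemma jz_bd (p : ℕ) : |jz p| ≤ 2 ^ 24 := by
  have := qz_lt p
  unfold jz
  rw [abs_le]
  constructor <;> omega

/-- the context is correct -/
structure CxOK (R : ℕ) (c : Cx) (K F : List ℕ) (U : List UF) (W : List ℕ) (kd : List Kd)
    (fs ds : List FD) : Prop where
  R_pos : 0 < R
  R_le : R ≤ 4096
  R_eq : c.R = R
  fac : Fac K fs
  bd : ∀ h ∈ fs ++ ds, FB h
  M1 : c.M1 = pk (fun _ => 39614081257132168796771975168) fs
  nF : c.nF = fs.length
  nH : c.nH = (fs ++ ds).length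
  C0 : Rp (fs ++ ds) c.C0 (fun h => (h.c : ℤ))
  CL : Rp (fs ++ ds) c.CL (fun h => 2 ^ 95 - R * h.c)
  CS : Rp (fs ++ ds) c.CS (fun h => 2 ^ 95 + 256 * R * h.c)
  CB : Rp (fs ++ ds) c.CB (fun _ => 2 ^ 95 - 1)
  WT : ∀ a, Rp (fs ++ ds) (ent c.WT c.TW c.FM a)
    (fun h => -dz h (wv W a).1 (wv W a).2.1 (wv W a).2.2)
  NT : ∀ i, i < c.nN → ∃ p ∈ F, Rp (fs ++ ds) (ent c.NT c.TW c.FM i)
    (fun h => -(R * dz h (ix p) (iy p) (iz p)))
  YT : ∀ i, i < c.nK → ∃ k ∈ kd, nthK c.kd i = k ∧ Rp (fs ++ ds) (ent c.YT c.TW c.FM i)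
    (fun h => -(R * dz h (ix k.y) (iy k.y) (iz k.y)))
  UT : ∀ i, i < len c.ut → ∃ u ∈ U, (∃ vc : ℕ → ℕ, nthL c.ut i = mapN vc u.cell ∧
      ∀ p, Rp (fs ++ ds) (vc p) (fun h => -dz h (jx p) (jy p) (jz p))) ∧
    ∀ a, Rp (fs ++ ds) (ent (nth c.uw i) c.TW c.FM a)
      (fun h => dz h (wv u.W a).1 (wv u.W a).2.1 (wv u.W a).2.2)

/-! ### the packed normals -/

lemma fb_pk {hs : List FD} (hb : ∀ h ∈ hs, FB h) (f : FD → ℕ)
    (hf : ∀ h, FB h → f h < 2 ^ 34) : pk f hs ≤ 2 ^ (96 * hs.length) :=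
  (pk_lt f hs (fun a ha => (hf a (hb a ha)).trans (by norm_num))).le

/-- the numbers of the normals are correct -/
structure NmOK (n : Nm) (hs : List FD) : Prop where
  TW : n.TW = 96 * hs.length
  MM : n.MM = 2 ^ (96 * hs.length)
  C1 : Rp hs n.C1 (fun h => (h.A1 : ℤ) - h.B1)
  C2 : Rp hs n.C2 (fun h => (h.A2 : ℤ) - h.B2)
  C3 : Rp hs n.C3 (fun h => (h.A3 : ℤ) - h.B3)
  D1 : Rp hs n.D1 (fun h => -((h.A1 : ℤ) - h.B1))
  D2 : Rp hs n.D2 (fun h => -((h.A2 : ℤ) - h.B2))
  D3 : Rp hs n.D3 (fun h => -((h.A3 : ℤ) - h.B3))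
  C0 : Rp hs n.C0 (fun h => (h.c : ℤ))
  C0le : n.C0 ≤ 2 ^ (96 * hs.length)
  BI : Rp hs n.BI (fun _ => 2 ^ 95)
  CB : Rp hs n.CB (fun _ => 2 ^ 95 - 1)

lemma rp_sub {hs : List FD} {f g : FD → ℕ} {M : ℕ} (hM : M = 2 ^ (96 * hs.length))
    (hg : pk g hs ≤ 2 ^ (96 * hs.length)) :
    Rp hs (Nat.add (pk f hs) (Nat.sub M (pk g hs))) (fun h => (f h : ℤ) - g h) := by
  have h1 := (Rp.of_pk (hs := hs) g).neg hM (by rw [hM]; exact hg)
  exact ((Rp.of_pk (hs := hs) f).add h1).congr (fun _ _ => by ring)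

lemma nmOK {hs : List FD} (hb : ∀ h ∈ hs, FB h) : NmOK (mkNm hs) hs := by
  have hMM : (mkNm hs).MM = 2 ^ (96 * hs.length) := by
    have : (mkNm hs).MM = Nat.shiftLeft 1 (Nat.mul 96 (len hs)) := rfl
    rw [this, nshl, nmul, len_eq, one_mul]
  refine ⟨?_, hMM, ?_, ?_, ?_, ?_, ?_, ?_, Rp.of_pk _, ?_, ?_, ?_⟩
  · have : (mkNm hs).TW = Nat.mul 96 (len hs) := rfl
    rw [this, nmul, len_eq]
  · exact rp_sub hMM (fb_pk hb _ (fun h h' => h'.b1))
  · exact rp_sub hMM (fb_pk hb _ (fun h h' => h'.b2))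
  · exact rp_sub hMM (fb_pk hb _ (fun h h' => h'.b3))
  · exact (rp_sub (f := FD.B1) (g := FD.A1) hMM (fb_pk hb _ (fun h h' => h'.a1))).congr
      (fun _ _ => by ring)
  · exact (rp_sub (f := FD.B2) (g := FD.A2) hMM (fb_pk hb _ (fun h h' => h'.a2))).congr
      (fun _ _ => by ring)
  · exact (rp_sub (f := FD.B3) (g := FD.A3) hMM (fb_pk hb _ (fun h h' => h'.a3))).congr
      (fun _ _ => by ring)
  · exact (pk_lt _ hs (fun a ha => (hb a ha).c.trans (by norm_num))).le
  · exact (Rp.of_pk (hs := hs) (fun _ => 39614081257132168796771975168)).congr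
      (fun _ _ => by norm_num)
  · exact (Rp.of_pk (hs := hs) (fun _ => 39614081257132168796771975167)).congr
      (fun _ _ => by norm_num)

lemma lin_rp {hs : List FD} {C1 C2 C3 K1 : ℕ} {v1 v2 v3 k : FD → ℤ} (h1 : Rp hs C1 v1)
    (h2 : Rp hs C2 v2) (h3 : Rp hs C3 v3) (hk : Rp hs K1 k) (x y z : ℕ) :
    Rp hs (lin C1 C2 C3 K1 x y z) (fun h => x * v1 h + y * v2 h + z * v3 h + k h) :=
  (((h1.mul x).add (h2.mul y)).add (h3.mul z)).add hk

lemma vneg_rp {hs : List FD} {n : Nm} (h : NmOK n hs) (p : ℕ) :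
    Rp hs (vneg n p) (fun h => -dz h (ix p) (iy p) (iz p)) := by
  have h1 := lin_rp h.D1 h.D2 h.D3 (((h.C1.add h.C2).add h.C3).mul 32768) (ox p) (oy p) (oz p)
  refine Rp.congr h1 (fun f _ => ?_)
  simp only [dz, ix, iy, iz]
  push_cast
  ring

lemma vpos_rp {hs : List FD} {n : Nm} (h : NmOK n hs) (p : ℕ) :
    Rp hs (vpos n p) (fun h => dz h (ix p) (iy p) (iz p)) := by
  have h1 := lin_rp h.C1 h.C2 h.C3 (((h.D1.add h.D2).add h.D3).mul 32768) (ox p) (oy p) (oz p)
  refine Rp.congr h1 (fun f _ => ?_)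
  simp only [dz, ix, iy, iz]
  push_cast
  ring

lemma vcel_rp {hs : List FD} {n : Nm} (h : NmOK n hs) (p : ℕ) :
    Rp hs (vcel n p) (fun h => -dz h (jx p) (jy p) (jz p)) := by
  have h1 := lin_rp h.D1 h.D2 h.D3 (((h.C1.add h.C2).add h.C3).mul 8388608) (qx p) (qy p) (qz p)
  refine Rp.congr h1 (fun f _ => ?_)
  simp only [dz, jx, jy, jz]
  push_cast
  ring

/-! ### lists -/

lemma nthK_eq (l : List Kd) (i : ℕ) (h : i < l.length) : nthK l i = l[i] := by
  induction l generalizing i with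
  | nil => simp at h
  | cons a l ih =>
    rw [nthK]
    cases i with
    | zero => rfl
    | succ i =>
      have : Nat.beq (i + 1) 0 = false := rfl
      rw [this, cond_false]
      exact ih i (by simpa using h)

lemma nth_eq (l : List ℕ) (i : ℕ) (h : i < l.length) : nth l i = l[i] := by
  induction l generalizing i with
  | nil => simp at h
  | cons a l ih =>
    rw [nth]
    cases i with
    | zero => rfl
    | succ i =>
      have : Nat.beq (i + 1) 0 = false := rfl
      rw [this, cond_false]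
      exact ih i (by simpa using h)

lemma nthL_eq (l : List (List ℕ)) (i : ℕ) (h : i < l.length) : nthL l i = l[i] := by
  induction l generalizing i with
  | nil => simp at h
  | cons a l ih =>
    rw [nthL]
    cases i with
    | zero => rfl
    | succ i =>
      have : Nat.beq (i + 1) 0 = false := rfl
      rw [this, cond_false]
      exact ih i (by simpa using h)

lemma mapN_eq (g : ℕ → ℕ) (l : List ℕ) : mapN g l = l.map g := by
  induction l with
  | nil => rfl
  | cons a l ih => rw [mapN, ih]; rfl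

lemma mapUc_eq (g : ℕ → ℕ) (l : List UF) : mapUc g l = l.map (fun u => mapN g u.cell) := by
  induction l with
  | nil => rfl
  | cons a l ih => rw [mapUc, ih]; rfl

lemma mapUw_eq (g : ℕ → ℕ) (w m : ℕ) (l : List UF) :
    mapUw g w m l = l.map (fun u => tabm g w m u.W) := by
  induction l with
  | nil => rfl
  | cons a l ih => rw [mapUw, ih]; rfl

/-- the context is correct -/
lemma cxOK {R D0 : ℕ} (hR : 0 < R) (hR' : R ≤ 4096) (hD0 : D0 < 2 ^ 55) {K : List ℕ}
    (h0 : (0 : E) ∈ convexHull ℝ (KS K)) {fc dt : List ℕ} (hf : fok K fc = true) (F : List ℕ)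
    (U : List UF) (W : List ℕ) (kd : List Kd) :
    CxOK R (mkCx R (mkNm (app (mkL K 0 fc) (mkL K D0 dt))) (mkL K 0 fc)
      (app (mkL K 0 fc) (mkL K D0 dt)) F U W kd) K F U W kd (mkL K 0 fc) (mkL K D0 dt) := by
  obtain ⟨hF, hK⟩ := fok_sound hf
  rw [app_eq]
  have hbd1 : ∀ h ∈ mkL K 0 fc, FB h := by
    intro h hh
    obtain ⟨p, _, q, _, r, _, rfl⟩ := mkL_pts hK hh
    exact mkFD_bd (by norm_num)
  have hbd2 : ∀ h ∈ mkL K D0 dt, FB h := by
    intro h hh
    obtain ⟨p, _, q, _, r, _, rfl⟩ := mkL_pts hK hh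
    exact mkFD_bd hD0
  have hbd : ∀ h ∈ mkL K 0 fc ++ mkL K D0 dt, FB h := by
    intro h hh
    rcases List.mem_append.1 hh with hh | hh
    · exact hbd1 h hh
    · exact hbd2 h hh
  have hn := nmOK hbd
  set fs := mkL K 0 fc with hfs
  set ds := mkL K D0 dt with hds
  set n := mkNm (fs ++ ds) with hnn
  have hFM : Nat.sub n.MM 1 = 2 ^ n.TW - 1 := by rw [nsub, hn.MM, hn.TW]
  refine ⟨hR, hR', rfl, ⟨hF, hbd1, ?_, h0⟩, hbd, rfl, ?_, ?_, hn.C0, ?_, ?_, hn.CB, ?_, ?_, ?_, ?_⟩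
  · intro h hh
    obtain ⟨p, hp, q, hq, r, hr, rfl⟩ := mkL_pts hK hh
    exact ⟨hp, hq, hr⟩
  · exact len_eq _
  · exact len_eq _
  · have h1 := hn.C0.neg hn.MM (by rw [hn.MM]; exact hn.C0le)
    refine Rp.congr (hn.BI.add (h1.mul R)) (fun f _ => ?_)
    ring
  · refine Rp.congr (hn.BI.add (hn.C0.mul (256 * R))) (fun f _ => ?_)
    push_cast
    ring
  · intro a
    have e : ent (mkCx R n fs (fs ++ ds) F U W kd).WT (mkCx R n fs (fs ++ ds) F U W kd).TW
        (mkCx R n fs (fs ++ ds) F U W kd).FM a = ent (tabm (vneg n) n.TW (2 ^ n.TW - 1) W) n.TW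
        (2 ^ n.TW - 1) a := by
      simp only [mkCx]
      rw [hFM]
    rw [e, ent_tabm]
    unfold wv
    split
    · rw [hn.TW]
      exact (vneg_rp hn _).mod
    · have : Rp (fs ++ ds) 0 (fun _ => 0) := by
        have := Rp.of_pk (hs := fs ++ ds) (fun _ => 0)
        have e2 : pk (fun _ => 0) (fs ++ ds) = 0 := by
          clear * -
          induction (fs ++ ds) with
          | nil => rfl
          | cons a l ih => rw [pk_cons, ih]; simp
        rw [e2] at this
        exact this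
      refine this.congr (fun f _ => ?_)
      simp [dz]
  · intro i hi
    have hi' : i < F.length := by
      have : (mkCx R n fs (fs ++ ds) F U W kd).nN = len F := rfl
      rw [this, len_eq] at hi
      exact hi
    refine ⟨F[i], List.getElem_mem hi', ?_⟩
    have e : ent (mkCx R n fs (fs ++ ds) F U W kd).NT (mkCx R n fs (fs ++ ds) F U W kd).TW
        (mkCx R n fs (fs ++ ds) F U W kd).FM i = ent (tabm (fun p => Nat.mul R (vneg n p)) n.TW
        (2 ^ n.TW - 1) F) n.TW (2 ^ n.TW - 1) i := by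
      simp only [mkCx]
      rw [hFM]
    rw [e, ent_tabm, dif_pos hi', hn.TW]
    refine (((vneg_rp hn _).mul R).mod).congr (fun f _ => ?_)
    ring
  · intro i hi
    have hi' : i < kd.length := by
      have : (mkCx R n fs (fs ++ ds) F U W kd).nK = len kd := rfl
      rw [this, len_eq] at hi
      exact hi
    refine ⟨kd[i], List.getElem_mem hi', nthK_eq kd i hi', ?_⟩
    have e : ent (mkCx R n fs (fs ++ ds) F U W kd).YT (mkCx R n fs (fs ++ ds) F U W kd).TW
        (mkCx R n fs (fs ++ ds) F U W kd).FM i = ent (tabK (fun p => Nat.mul R (vneg n p)) n.TW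
        (2 ^ n.TW - 1) kd) n.TW (2 ^ n.TW - 1) i := by
      simp only [mkCx]
      rw [hFM]
    rw [e, ent_tabK, dif_pos hi', hn.TW]
    refine (((vneg_rp hn _).mul R).mod).congr (fun f _ => ?_)
    ring
  · intro i hi
    have hut : (mkCx R n fs (fs ++ ds) F U W kd).ut = mapUc (vcel n) U := rfl
    have huw : (mkCx R n fs (fs ++ ds) F U W kd).uw = mapUw (vpos n) n.TW (Nat.sub n.MM 1) U :=
      rfl
    have hi' : i < U.length := by
      rw [hut, len_eq, mapUc_eq, List.length_map] at hi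
      exact hi
    refine ⟨U[i], List.getElem_mem hi', ⟨vcel n, ?_, fun p => vcel_rp hn p⟩, ?_⟩
    · rw [hut, mapUc_eq, nthL_eq _ _ (by simpa using hi')]
      simp
    · intro a
      have e : ent (nth (mkCx R n fs (fs ++ ds) F U W kd).uw i)
          (mkCx R n fs (fs ++ ds) F U W kd).TW
          (mkCx R n fs (fs ++ ds) F U W kd).FM a = ent (tabm (vpos n) n.TW (2 ^ n.TW - 1)
          (U[i]).W) n.TW (2 ^ n.TW - 1) a := by
        have huw' : (mkCx R n fs (fs ++ ds) F U W kd).uw =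
            mapUw (vpos n) n.TW (2 ^ n.TW - 1) U := by rw [huw, hFM]
        have hfm' : (mkCx R n fs (fs ++ ds) F U W kd).FM = 2 ^ n.TW - 1 := hFM
        have htw' : (mkCx R n fs (fs ++ ds) F U W kd).TW = n.TW := rfl
        rw [huw', hfm', htw', mapUw_eq, nth_eq _ _ (by simpa using hi')]
        simp only [List.getElem_map]
      rw [e, ent_tabm]
      unfold wv
      split
      · rw [hn.TW]
        exact (vpos_rp hn _).mod
      · have : Rp (fs ++ ds) 0 (fun _ => 0) := by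
          have := Rp.of_pk (hs := fs ++ ds) (fun _ => 0)
          have e2 : pk (fun _ => 0) (fs ++ ds) = 0 := by
            clear * -
            induction (fs ++ ds) with
            | nil => rfl
            | cons a l ih => rw [pk_cons, ih]; simp
          rw [e2] at this
          exact this
        refine this.congr (fun f _ => ?_)
        simp [dz]

end Pool.Agent.Lib.MP_5e7226_co.C8
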