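import Pool.Agent.Lib.MP_5e7226_co.C8.Snd3

/-!
# Eight directions: soundness of the cone trees
-/

set_option autoImplicit false

open Set

namespace Pool.Agent.Lib.MP_5e7226_co.C8

open GB

/-- an integer triple as a vector -/
def rvt (t : ℤ × ℤ × ℤ) : E := rv t.1 t.2.1 t.2.2

/-- corner of a cell -/
noncomputable def cp (R p : ℕ) : E := (1 / (R : ℝ)) • rv (jx p) (jy p) (jz p)

/-- the corners of a cell -/
def CS (R : ℕ) (cell : List ℕ) : Set E := {x | ∃ p ∈ cell, x = cp R p}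

/-- the cell of a child -/
def kset (R : ℕ) (cell : List ℕ) : Set E := if isNil cell = true then univ else CS R cell

/-- the children -/
def JS (R : ℕ) (kd : List Kd) : Set (E × Set E) := {k | ∃ a ∈ kd, k = (rp a.y, kset R a.cell)}

/-- the body is in the state -/
structure Bdy (R : ℕ) (L : Set E) (K F : List ℕ) (U : List UF) (ds : List FD) : Prop where
  conv : Convex ℝ L
  pts : KS K ⊆ L
  out : ∀ p ∈ F, rp p ∉ L
  dead : ∀ h ∈ ds, Dead L {z | (h.c : ℝ) ≤ nr h ⬝ᵥ z}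
  unlit : ∀ u ∈ U, ∀ a, ∃ x ∈ L, x ∈ convexHull ℝ (CS R u.cell) ∧ ¬Serve L x (-(rvt (wv u.W a)))

/-- the directions -/
def Wf (N : ℕ) (W : List ℕ) (i : Fin N) : E := rvt (wv W i)

lemma rvt_zero : rvt (0, 0, 0) = 0 := by
  funext i
  fin_cases i <;> simp [rvt, rv]

lemma phi_lit {N : ℕ} {K W : List ℕ} {L : Set E} (hL : Convex ℝ L) (hK : KS K ⊆ L)
    (hW : W.length ≤ N) {a : ℕ} {x : E} (h : Lit (KS K) (rvt (wv W a)) x) :
    x ∈ interior L ∨ ∃ i, Serve L x (-(Wf N W i)) := by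
  have hs := h.serve hL hK
  by_cases ha : a < N
  · exact Or.inr ⟨⟨a, ha⟩, hs⟩
  · left
    have h0 : wv W a = (0, 0, 0) := by
      unfold wv
      rw [dif_neg]
      omega
    rw [h0, rvt_zero] at hs
    obtain ⟨t, _, h1⟩ := hs
    simpa using h1

section tests

variable {R : ℕ} {c : Cx} {K F : List ℕ} {U : List UF} {W : List ℕ} {kd : List Kd}
  {fs ds : List FD}

lemma f24_lt (d s : ℕ) : f24 d s < 2 ^ 24 := by
  have : f24 d s = (Nat.shiftRight d s) % 2 ^ 24 := land_full _ 24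
  rw [this]; exact Nat.mod_lt _ (by norm_num)

lemma f16_lt (d s : ℕ) : f16 d s < 2 ^ 16 := by
  have : f16 d s = (Nat.shiftRight d s) % 2 ^ 16 := land_full _ 16
  rw [this]; exact Nat.mod_lt _ (by norm_num)

lemma f8_lt (d s : ℕ) : f8 d s < 2 ^ 8 := by
  have : f8 d s = (Nat.shiftRight d s) % 2 ^ 8 := land_full _ 8
  rw [this]; exact Nat.mod_lt _ (by norm_num)

lemma vx_bd {hs : List FD} {bd U' E' : ℕ} {x y z : ℤ} (h : Vx hs bd U' E' x y z)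
    (hbd : bd ≤ 65536) : |x| ≤ 65536 ∧ |y| ≤ 65536 ∧ |z| ≤ 65536 := by
  have : (bd : ℤ) ≤ 65536 := by exact_mod_cast hbd
  exact ⟨h.bx.trans this, h.by'.trans this, h.bz.trans this⟩

lemma lit3_sound (h : CxOK R c K F U W kd fs ds) {bd U1 U2 U3 E1 E2 E3 : ℕ}
    {x1 y1 z1 x2 y2 z2 x3 y3 z3 : ℤ} (v1 : Vx (fs ++ ds) bd U1 E1 x1 y1 z1)
    (v2 : Vx (fs ++ ds) bd U2 E2 x2 y2 z2) (v3 : Vx (fs ++ ds) bd U3 E3 x3 y3 z3)
    (hbd : bd ≤ 65536) {a r1 r2 r3 s1 s2 s3 : ℕ}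
    (hr1 : r1 < 2 ^ 24) (hr2 : r2 < 2 ^ 24) (hr3 : r3 < 2 ^ 24)
    (hs1 : s1 < 2 ^ 24) (hs2 : s2 < 2 ^ 24) (hs3 : s3 < 2 ^ 24)
    (ht : lit3 c (ent c.WT c.TW c.FM a) E1 E2 E3 r1 r2 r3 s1 s2 s3 = true) :
    Lit (KS K) (rvt (wv W a)) (((r1 : ℝ) / R) • rv x1 y1 z1) ∧
    Lit (KS K) (rvt (wv W a)) (((r2 : ℝ) / R) • rv x2 y2 z2) ∧
    Lit (KS K) (rvt (wv W a)) (((r3 : ℝ) / R) • rv x3 y3 z3) := by
  simp only [lit3, beq_iff, nland, nlor] at ht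
  rw [h.M1] at ht
  have hc := clear_of_mask ht
  obtain ⟨b1, b2, b3⟩ := wv_bd W a
  obtain ⟨p1, p2, p3⟩ := vx_bd v1 hbd
  obtain ⟨q1, q2, q3⟩ := vx_bd v2 hbd
  obtain ⟨o1, o2, o3⟩ := vx_bd v3 hbd
  refine ⟨?_, ?_, ?_⟩
  · refine lit_sound h.fac h.R_pos h.R_le h.CL (h.WT a) v1.rep hr1 hs1 p1 p2 p3 b1 b2 b3
      (fun g hg => ?_)
    have := hc g hg
    simp only [Nat.testBit_or, Bool.or_eq_false_iff] at this
    exact this.1.1
  · refine lit_sound h.fac h.R_pos h.R_le h.CL (h.WT a) v2.rep hr2 hs2 q1 q2 q3 b1 b2 b3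
      (fun g hg => ?_)
    have := hc g hg
    simp only [Nat.testBit_or, Bool.or_eq_false_iff] at this
    exact this.1.2
  · refine lit_sound h.fac h.R_pos h.R_le h.CL (h.WT a) v3.rep hr3 hs3 o1 o2 o3 b1 b2 b3
      (fun g hg => ?_)
    have := hc g hg
    simp only [Nat.testBit_or, Bool.or_eq_false_iff] at this
    exact this.2

lemma sh3_sound (h : CxOK R c K F U W kd fs ds) {bd U1 U2 U3 E1 E2 E3 : ℕ}
    {x1 y1 z1 x2 y2 z2 x3 y3 z3 : ℤ} (v1 : Vx (fs ++ ds) bd U1 E1 x1 y1 z1)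
    (v2 : Vx (fs ++ ds) bd U2 E2 x2 y2 z2) (v3 : Vx (fs ++ ds) bd U3 E3 x3 y3 z3)
    (hbd : bd ≤ 65536) {N p r1 r2 r3 s1 s2 s3 : ℕ}
    (hN : Rp (fs ++ ds) N (fun h => -(R * dz h (ix p) (iy p) (iz p))))
    (hr1 : r1 < 2 ^ 24) (hr2 : r2 < 2 ^ 24) (hr3 : r3 < 2 ^ 24)
    (hs1 : s1 < 2 ^ 16) (hs2 : s2 < 2 ^ 16) (hs3 : s3 < 2 ^ 16)
    (ht : sh3 c N E1 E2 E3 r1 r2 r3 s1 s2 s3 = true) :
    Shd (KS K) (rp p) (((r1 : ℝ) / R) • rv x1 y1 z1) ∧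
    Shd (KS K) (rp p) (((r2 : ℝ) / R) • rv x2 y2 z2) ∧
    Shd (KS K) (rp p) (((r3 : ℝ) / R) • rv x3 y3 z3) := by
  simp only [sh3, beq_iff, nland] at ht
  rw [h.M1] at ht
  have hc := set_of_mask ht
  have b1 : |ix p| ≤ 65536 := (ix_bd p).trans (by norm_num)
  have b2 : |iy p| ≤ 65536 := (iy_bd p).trans (by norm_num)
  have b3 : |iz p| ≤ 65536 := (iz_bd p).trans (by norm_num)
  obtain ⟨p1, p2, p3⟩ := vx_bd v1 hbd
  obtain ⟨q1, q2, q3⟩ := vx_bd v2 hbd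
  obtain ⟨o1, o2, o3⟩ := vx_bd v3 hbd
  refine ⟨?_, ?_, ?_⟩
  · refine sh_sound h.fac h.R_pos h.R_le h.CS hN v1.rep hr1 hs1 p1 p2 p3 b1 b2 b3
      (fun g hg => ?_)
    have := hc g hg
    simp only [Nat.testBit_and, Bool.and_eq_true] at this
    exact this.1.1
  · refine sh_sound h.fac h.R_pos h.R_le h.CS hN v2.rep hr2 hs2 q1 q2 q3 b1 b2 b3
      (fun g hg => ?_)
    have := hc g hg
    simp only [Nat.testBit_and, Bool.and_eq_true] at this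
    exact this.1.2
  · refine sh_sound h.fac h.R_pos h.R_le h.CS hN v3.rep hr3 hs3 o1 o2 o3 b1 b2 b3
      (fun g hg => ?_)
    have := hc g hg
    simp only [Nat.testBit_and, Bool.and_eq_true] at this
    exact this.2

lemma dt3_sound (h : CxOK R c K F U W kd fs ds) {bd U1 U2 U3 E1 E2 E3 : ℕ}
    {x1 y1 z1 x2 y2 z2 x3 y3 z3 : ℤ} (v1 : Vx (fs ++ ds) bd U1 E1 x1 y1 z1)
    (v2 : Vx (fs ++ ds) bd U2 E2 x2 y2 z2) (v3 : Vx (fs ++ ds) bd U3 E3 x3 y3 z3)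
    (hbd : bd ≤ 65536) {g r1 r2 r3 : ℕ} (hg : g < (fs ++ ds).length)
    (hr1 : r1 < 2 ^ 24) (hr2 : r2 < 2 ^ 24) (hr3 : r3 < 2 ^ 24)
    (ht : dt3 c g E1 E2 E3 r1 r2 r3 = true) :
    (((fs ++ ds)[g]).c : ℝ) ≤ nr (fs ++ ds)[g] ⬝ᵥ (((r1 : ℝ) / R) • rv x1 y1 z1) ∧
    (((fs ++ ds)[g]).c : ℝ) ≤ nr (fs ++ ds)[g] ⬝ᵥ (((r2 : ℝ) / R) • rv x2 y2 z2) ∧
    (((fs ++ ds)[g]).c : ℝ) ≤ nr (fs ++ ds)[g] ⬝ᵥ (((r3 : ℝ) / R) • rv x3 y3 z3) := by
  simp only [dt3, beq_iff, nland, nshl, nadd, nmul] at ht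
  have hm : (39614081257132168796771975168 * 2 ^ (g * 96)).testBit (96 * g + 95) = true := by
    have e : 39614081257132168796771975168 * 2 ^ (g * 96) = 2 ^ (96 * g + 95) := by
      rw [pow_add, mul_comm g 96]
      norm_num [mul_comm]
    rw [e]
    exact Nat.testBit_two_pow_self
  have hc := land_mask ht hm
  simp only [Nat.testBit_and, Bool.and_eq_true] at hc
  obtain ⟨p1, p2, p3⟩ := vx_bd v1 hbd
  obtain ⟨q1, q2, q3⟩ := vx_bd v2 hbd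
  obtain ⟨o1, o2, o3⟩ := vx_bd v3 hbd
  exact ⟨dt_sound h.bd hg h.R_pos h.R_le h.CL v1.rep hr1 p1 p2 p3 hc.1.1,
    dt_sound h.bd hg h.R_pos h.R_le h.CL v2.rep hr2 q1 q2 q3 hc.1.2,
    dt_sound h.bd hg h.R_pos h.R_le h.CL v3.rep hr3 o1 o2 o3 hc.2⟩

lemma up3_sound (h : CxOK R c K F U W kd fs ds) {bd U1 U2 U3 E1 E2 E3 : ℕ}
    {x1 y1 z1 x2 y2 z2 x3 y3 z3 : ℤ} (v1 : Vx (fs ++ ds) bd U1 E1 x1 y1 z1)
    (v2 : Vx (fs ++ ds) bd U2 E2 x2 y2 z2) (v3 : Vx (fs ++ ds) bd U3 E3 x3 y3 z3)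
    (hbd : bd ≤ 65536) {Cc Wc p d r1 r2 r3 : ℕ} {t : ℤ × ℤ × ℤ}
    (hCc : Rp (fs ++ ds) Cc (fun h => -dz h (jx p) (jy p) (jz p)))
    (hWc : Rp (fs ++ ds) Wc (fun h => dz h t.1 t.2.1 t.2.2))
    (ht1 : |t.1| ≤ 65536) (ht2 : |t.2.1| ≤ 65536) (ht3 : |t.2.2| ≤ 65536)
    (hr1 : r1 < 2 ^ 24) (hr2 : r2 < 2 ^ 24) (hr3 : r3 < 2 ^ 24)
    (ht : up3 c Cc Wc E1 E2 E3 r1 r2 r3 d = true) :
    Lifts (KS K) (rvt t) (cp R p) (((r1 : ℝ) / R) • rv x1 y1 z1) ∧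
    Lifts (KS K) (rvt t) (cp R p) (((r2 : ℝ) / R) • rv x2 y2 z2) ∧
    Lifts (KS K) (rvt t) (cp R p) (((r3 : ℝ) / R) • rv x3 y3 z3) := by
  simp only [up3, beq_iff, nland] at ht
  rw [h.M1, h.R_eq] at ht
  have hc := set_of_mask ht
  obtain ⟨p1, p2, p3⟩ := vx_bd v1 hbd
  obtain ⟨q1, q2, q3⟩ := vx_bd v2 hbd
  obtain ⟨o1, o2, o3⟩ := vx_bd v3 hbd
  refine ⟨?_, ?_, ?_⟩
  · refine up_sound h.fac h.R_pos h.R_le h.C0 h.CB hCc hWc v1.rep hr1 (f24_lt d 0) (f8_lt d 24)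
      p1 p2 p3 ht1 ht2 ht3 (jx_bd p) (jy_bd p) (jz_bd p) (fun g hg => ?_)
    have := hc g hg
    simp only [Nat.testBit_and, Bool.and_eq_true] at this
    exact this.1.1
  · refine up_sound h.fac h.R_pos h.R_le h.C0 h.CB hCc hWc v2.rep hr2 (f24_lt d 32) (f8_lt d 56)
      q1 q2 q3 ht1 ht2 ht3 (jx_bd p) (jy_bd p) (jz_bd p) (fun g hg => ?_)
    have := hc g hg
    simp only [Nat.testBit_and, Bool.and_eq_true] at this
    exact this.1.2
  · refine up_sound h.fac h.R_pos h.R_le h.C0 h.CB hCc hWc v3.rep hr3 (f24_lt d 64) (f8_lt d 88)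
      o1 o2 o3 ht1 ht2 ht3 (jx_bd p) (jy_bd p) (jz_bd p) (fun g hg => ?_)
    have := hc g hg
    simp only [Nat.testBit_and, Bool.and_eq_true] at this
    exact this.2

lemma upA_sound (h : CxOK R c K F U W kd fs ds) {bd U1 U2 U3 E1 E2 E3 : ℕ}
    {x1 y1 z1 x2 y2 z2 x3 y3 z3 : ℤ} (v1 : Vx (fs ++ ds) bd U1 E1 x1 y1 z1)
    (v2 : Vx (fs ++ ds) bd U2 E2 x2 y2 z2) (v3 : Vx (fs ++ ds) bd U3 E3 x3 y3 z3)
    (hbd : bd ≤ 65536) {Wc r1 r2 r3 : ℕ} {t : ℤ × ℤ × ℤ} {vc : ℕ → ℕ}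
    (hvc : ∀ p, Rp (fs ++ ds) (vc p) (fun h => -dz h (jx p) (jy p) (jz p)))
    (hWc : Rp (fs ++ ds) Wc (fun h => dz h t.1 t.2.1 t.2.2))
    (ht1 : |t.1| ≤ 65536) (ht2 : |t.2.1| ≤ 65536) (ht3 : |t.2.2| ≤ 65536)
    (hr1 : r1 < 2 ^ 24) (hr2 : r2 < 2 ^ 24) (hr3 : r3 < 2 ^ 24) :
    ∀ (cell l : List ℕ), upA c Wc E1 E2 E3 r1 r2 r3 (mapN vc cell) l = true →
    ∀ p ∈ cell, Lifts (KS K) (rvt t) (cp R p) (((r1 : ℝ) / R) • rv x1 y1 z1) ∧
    Lifts (KS K) (rvt t) (cp R p) (((r2 : ℝ) / R) • rv x2 y2 z2) ∧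
    Lifts (KS K) (rvt t) (cp R p) (((r3 : ℝ) / R) • rv x3 y3 z3) := by
  intro cell
  induction cell with
  | nil => intro l _ p hp; simp at hp
  | cons a cell ih =>
    intro l hl p hp
    rw [mapN, upA, Bool.and_eq_true] at hl
    rcases List.mem_cons.1 hp with rfl | hp
    · exact up3_sound h v1 v2 v3 hbd (hvc _) hWc ht1 ht2 ht3 hr1 hr2 hr3 hl.1
    · exact ih _ hl.2 p hp

/-! ### corners of cells -/

lemma memb_iff (x : ℕ) (l : List ℕ) : memb x l = true ↔ x ∈ l := by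
  induction l with
  | nil => simp [memb]
  | cons a l ih =>
    rw [memb, Bool.or_eq_true, beq_iff, ih, List.mem_cons]
    constructor
    · rintro (h | h)
      · exact Or.inl h.symm
      · exact Or.inr h
    · rintro (h | h)
      · exact Or.inl h.symm
      · exact Or.inr h

lemma crn_dec {hs : List FD} {bd U' E' r : ℕ} {x y z : ℤ} (h : Vx hs bd U' E' x y z)
    (hr : r * bd < 8388608) :
    jx (crn U' r) = r * x ∧ jy (crn U' r) = r * y ∧ jz (crn U' r) = r * z := by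
  have hrb : (r : ℤ) * bd < 8388608 := by exact_mod_cast hr
  have key : ∀ t : ℤ, |t| ≤ bd → -8388608 < (r : ℤ) * t ∧ (r : ℤ) * t < 8388608 := by
    intro t ht
    have h1 : |(r : ℤ) * t| ≤ r * bd := by
      rw [abs_mul, Nat.abs_cast]; exact mul_le_mul_of_nonneg_left ht (by positivity)
    rw [abs_le] at h1
    constructor <;> linarith [h1.1, h1.2]
  obtain ⟨a1, a2⟩ := key x h.bx
  obtain ⟨b1, b2⟩ := key y h.by'
  obtain ⟨c1, c2⟩ := key z h.bz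
  obtain ⟨a, ha⟩ : ∃ a : ℕ, (a : ℤ) = 8388608 + r * x := ⟨(8388608 + r * x).toNat, by
    rw [Int.toNat_of_nonneg (by linarith)]⟩
  obtain ⟨b, hb⟩ : ∃ b : ℕ, (b : ℤ) = 8388608 + r * y := ⟨(8388608 + r * y).toNat, by
    rw [Int.toNat_of_nonneg (by linarith)]⟩
  obtain ⟨c', hc⟩ : ∃ c : ℕ, (c : ℤ) = 8388608 + r * z := ⟨(8388608 + r * z).toNat, by
    rw [Int.toNat_of_nonneg (by linarith)]⟩
  have ha' : a < 16777216 := by
    have : (a : ℤ) < 16777216 := by rw [ha]; linarith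
    exact_mod_cast this
  have hb' : b < 16777216 := by
    have : (b : ℤ) < 16777216 := by rw [hb]; linarith
    exact_mod_cast this
  have hc' : c' < 16777216 := by
    have : (c' : ℤ) < 16777216 := by rw [hc]; linarith
    exact_mod_cast this
  have e : crn U' r = a + b * 16777216 + c' * 281474976710656 := by
    have h1 : crn U' r = (2361183382172319350784 + r * U') % 2 ^ 72 := by
      have : crn U' r = Nat.land (2361183382172319350784 + r * U') (2 ^ 72 - 1) := by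
        rfl
      rw [this, land_full]
    rw [h1]
    have h2 : (2361183382172319350784 + r * U') ≡ a + b * 16777216 + c' * 281474976710656
        [MOD 2 ^ 72] := by
      rw [← Int.natCast_modEq_iff]
      push_cast
      have h3 := (h.dec.mul_left (r : ℤ)).add_left 2361183382172319350784
      have h4 : (2361183382172319350784 : ℤ) + r * (x + y * 2 ^ 24 + z * 2 ^ 48) =
          a + b * 16777216 + c' * 281474976710656 := by
        rw [ha, hb, hc]; ring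
      rw [h4] at h3
      exact h3
    rw [h2]
    apply Nat.mod_eq_of_lt
    omega
  refine ⟨?_, ?_, ?_⟩
  · have : qx (crn U' r) = crn U' r % 2 ^ 24 := land_full _ 24
    unfold jx
    rw [this, e]
    have : (a + b * 16777216 + c' * 281474976710656) % 2 ^ 24 = a := by omega
    rw [this, ha]
    ring
  · have : qy (crn U' r) = (Nat.shiftRight (crn U' r) 24) % 2 ^ 24 := land_full _ 24
    unfold jy
    rw [this, e, nshr]
    have : (a + b * 16777216 + c' * 281474976710656) / 2 ^ 24 % 2 ^ 24 = b := by omega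
    rw [this, hb]
    ring
  · have : qz (crn U' r) = (Nat.shiftRight (crn U' r) 48) % 2 ^ 24 := land_full _ 24
    unfold jz
    rw [this, e, nshr]
    have : (a + b * 16777216 + c' * 281474976710656) / 2 ^ 48 % 2 ^ 24 = c' := by omega
    rw [this, hc]
    ring

lemma crn_cp {hs : List FD} {bd U' E' r : ℕ} {x y z : ℤ} (h : Vx hs bd U' E' x y z)
    (hr : r * bd < 8388608) : cp R (crn U' r) = ((r : ℝ) / R) • rv x y z := by
  obtain ⟨h1, h2, h3⟩ := crn_dec h hr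
  rw [cp, h1, h2, h3]
  funext i
  fin_cases i <;> simp [rv] <;> ring

end tests

end Pool.Agent.Lib.MP_5e7226_co.C8
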