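import Pool.Agent.Lib.MP_5e7226_co.C8.Snd4

/-!
# Eight directions: soundness of the cone trees, continued
-/

set_option autoImplicit false

open Set

namespace Pool.Agent.Lib.MP_5e7226_co.C8

open GB

section layers

variable {N R : ℕ} {c : Cx} {K F : List ℕ} {U : List UF} {W : List ℕ} {kd : List Kd}
  {fs ds : List FD} {L : Set E}

/-- a point of the shadow of `y` in `L` -/
lemma shd_mem {K L : Set E} (hL : Convex ℝ L) (hK : K ⊆ L) (h0 : (0 : E) ∈ L) {y z : E} {τ : ℝ}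
    (hτ : 1 ≤ τ) (hz : τ • z ∈ L) (h : Shd K y z) : y ∈ L := by
  have hτ0 : 0 < τ := by linarith
  have hzL : z ∈ L := by
    have h2 := hL hz h0 (a := 1 / τ) (b := 1 - 1 / τ) (by positivity)
      (by rw [sub_nonneg, div_le_one hτ0]; exact hτ) (by ring)
    rw [smul_zero, add_zero, smul_smul, one_div, inv_mul_cancel₀ hτ0.ne', one_smul] at h2
    exact h2
  exact convexHull_min (insert_subset hzL hK) hL h

lemma hull3 {S : Set E} (hS : Convex ℝ S) {P Q T : E} (h1 : P ∈ S) (h2 : Q ∈ S) (h3 : T ∈ S) :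
    convexHull ℝ {P, Q, T} ⊆ S := by
  apply convexHull_min _ hS
  intro x hx
  simp only [mem_insert_iff, mem_singleton_iff] at hx
  rcases hx with rfl | rfl | rfl <;> assumption

lemma hull4 {S : Set E} (hS : Convex ℝ S) {P Q T V : E} (h1 : P ∈ S) (h2 : Q ∈ S) (h3 : T ∈ S)
    (h4 : V ∈ S) : convexHull ℝ {P, Q, T, V} ⊆ S := by
  apply convexHull_min _ hS
  intro x hx
  simp only [mem_insert_iff, mem_singleton_iff] at hx
  rcases hx with rfl | rfl | rfl | rfl <;> assumption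

lemma hull6 {S : Set E} (hS : Convex ℝ S) {P Q T P' Q' T' : E} (h1 : P ∈ S) (h2 : Q ∈ S)
    (h3 : T ∈ S) (h4 : P' ∈ S) (h5 : Q' ∈ S) (h6 : T' ∈ S) :
    convexHull ℝ {P, Q, T, P', Q', T'} ⊆ S := by
  apply convexHull_min _ hS
  intro x hx
  simp only [mem_insert_iff, mem_singleton_iff] at hx
  rcases hx with rfl | rfl | rfl | rfl | rfl | rfl <;> assumption

lemma isNil_iff (l : List ℕ) : isNil l = true ↔ l = [] := by
  cases l <;> simp [isNil]

theorem chkL_sound (h : CxOK R c K F U W kd fs ds) (hB : Bdy R L K F U ds) (hW : W.length ≤ N)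
    {bd U1 U2 U3 E1 E2 E3 : ℕ} {x1 y1 z1 x2 y2 z2 x3 y3 z3 : ℤ}
    (v1 : Vx (fs ++ ds) bd U1 E1 x1 y1 z1) (v2 : Vx (fs ++ ds) bd U2 E2 x2 y2 z2)
    (v3 : Vx (fs ++ ds) bd U3 E3 x3 y3 z3) (hbd : bd ≤ 65536) :
    ∀ (l : Lay) (r1 r2 r3 : ℕ), 0 < r1 → 0 < r2 → 0 < r3 → r1 < 2 ^ 24 → r2 < 2 ^ 24 →
      r3 < 2 ^ 24 → chkL c bd U1 U2 U3 E1 E2 E3 l r1 r2 r3 = true →
      Out L (Phi (Wf N W) (JS R kd) L) (rv x1 y1 z1) (rv x2 y2 z2) (rv x3 y3 z3)
        ((r1 : ℝ) / R) ((r2 : ℝ) / R) ((r3 : ℝ) / R) := by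
  have hR0 : (0 : ℝ) < R := by exact_mod_cast h.R_pos
  have hint := h.fac.zero_int
  have h0L : (0 : E) ∈ L := convexHull_min hB.pts hB.conv h.fac.zero
  have hne : (KS K).Nonempty := by
    rw [nonempty_iff_ne_empty]
    intro he
    rw [he] at hint
    simp at hint
  have pos : ∀ r : ℕ, 0 < r → (0 : ℝ) < (r : ℝ) / R := by
    intro r hr
    have : (0 : ℝ) < r := by exact_mod_cast hr
    positivity
  have le' : ∀ r s : ℕ, r ≤ s → (r : ℝ) / R ≤ (s : ℝ) / R := by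
    intro r s hrs
    have : (r : ℝ) ≤ s := by exact_mod_cast hrs
    exact div_le_div_of_nonneg_right this hR0.le
  intro l
  induction l with
  | wN d =>
    intro r1 r2 r3 p1 p2 p3 l1 l2 l3 ht
    rw [chkL, Bool.and_eq_true, blt_iff] at ht
    obtain ⟨p, hp, hN⟩ := h.NT _ ht.1
    obtain ⟨s1, s2, s3⟩ := sh3_sound h v1 v2 v3 hbd hN l1 l2 l3 (f16_lt _ _) (f16_lt _ _)
      (f16_lt _ _) ht.2
    exact out_dead (pos _ p1) (pos _ p2) (pos _ p3)
      (dead_shd hB.conv hB.pts hne h0L (hB.out p hp)) s1 s2 s3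
  | wD d =>
    intro r1 r2 r3 p1 p2 p3 l1 l2 l3 ht
    rw [chkL, Bool.and_eq_true, Bool.and_eq_true, ble_iff, blt_iff, h.nF, h.nH] at ht
    obtain ⟨⟨g1, g2⟩, ht⟩ := ht
    obtain ⟨s1, s2, s3⟩ := dt3_sound h v1 v2 v3 hbd g2 l1 l2 l3 ht
    have hg : (fs ++ ds)[d] ∈ ds := by
      rw [List.getElem_append_right g1]
      exact List.getElem_mem _
    exact out_dead (pos _ p1) (pos _ p2) (pos _ p3) (hB.dead _ hg) s1 s2 s3
  | wU d l =>
    intro r1 r2 r3 p1 p2 p3 l1 l2 l3 ht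
    rw [chkL, Bool.and_eq_true, blt_iff] at ht
    obtain ⟨u, hu, ⟨vc, e1, hvc⟩, hWt⟩ := h.UT _ ht.2
    rw [e1] at ht
    obtain ⟨b1, b2, b3⟩ := wv_bd u.W (f4 d 0)
    have key := upA_sound h v1 v2 v3 hbd hvc (hWt (f4 d 0)) b1 b2 b3 l1 l2 l3 _ _ ht.1
    have hd := dead_lifts hB.conv hB.pts h0L (hB.unlit u hu (f4 d 0))
    refine out_dead (pos _ p1) (pos _ p2) (pos _ p3) hd ?_ ?_ ?_
    · rintro q ⟨p, hp, rfl⟩
      exact (key p hp).1
    · rintro q ⟨p, hp, rfl⟩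
      exact (key p hp).2.1
    · rintro q ⟨p, hp, rfl⟩
      exact (key p hp).2.2
  | kI d =>
    intro r1 r2 r3 p1 p2 p3 l1 l2 l3 ht
    rw [chkL, Bool.and_eq_true, Bool.and_eq_true, blt_iff, isNil_iff] at ht
    obtain ⟨⟨g1, g2⟩, ht⟩ := ht
    obtain ⟨k, hk, hkeq, hY⟩ := h.YT _ g1
    obtain ⟨s1, s2, s3⟩ := sh3_sound h v1 v2 v3 hbd hY l1 l2 l3 (f16_lt _ _) (f16_lt _ _)
      (f16_lt _ _) ht
    refine out_kid (pos _ p1) (pos _ p2) (pos _ p3) ?_
    rintro x hx ⟨z, hz, τ, hτ, rfl⟩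
    have hz' := hull3 (shd_convex hne (rp k.y)) s1 s2 s3 hz
    refine Or.inr ⟨(rp k.y, kset R k.cell), ⟨k, hk, rfl⟩, shd_mem hB.conv hB.pts h0L hτ hx hz', ?_⟩
    have : kset R k.cell = univ := by
      rw [hkeq] at g2
      rw [kset, if_pos]
      rw [isNil_iff]
      exact g2
    show τ • z ∈ convexHull ℝ (kset R k.cell)
    rw [this]
    exact subset_convexHull ℝ _ (mem_univ _)
  | lit d e k ih =>
    intro r1 r2 r3 p1 p2 p3 l1 l2 l3 ht
    simp only [chkL, Bool.and_eq_true, ble_iff] at ht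
    obtain ⟨⟨⟨g1, g2, g3⟩, ht1, ht2⟩, ht3⟩ := ht
    have t1 := lit3_sound h v1 v2 v3 hbd l1 l2 l3 (f24_lt _ _) (f24_lt _ _) (f24_lt _ _) ht1
    have t2 := lit3_sound h v1 v2 v3 hbd (f24_lt _ _) (f24_lt _ _) (f24_lt _ _) (f24_lt _ _)
      (f24_lt _ _) (f24_lt _ _) ht2
    refine out_step (pos _ p1) (pos _ p2) (pos _ p3) (le' _ _ g1) (le' _ _ g2) (le' _ _ g3) ?_
      (ih _ _ _ (by omega) (by omega) (by omega) (f24_lt _ _) (f24_lt _ _) (f24_lt _ _) ht3)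
    intro x hx _ hxc
    have h5 := hull6 (lit_convex (KS K) (rvt (wv W (f4 d 0)))) t1.1 t1.2.1 t1.2.2 t2.1 t2.2.1
      t2.2.2 hxc
    exact Or.inl (phi_lit hB.conv hB.pts hW h5)
  | kid d k ih =>
    intro r1 r2 r3 p1 p2 p3 l1 l2 l3 ht
    simp only [chkL, Bool.and_eq_true, ble_iff, blt_iff] at ht
    obtain ⟨⟨⟨g1, g2, g3⟩, ⟨⟨q1, q2, q3⟩, hc6⟩, hj, hs⟩, ht3⟩ := ht
    obtain ⟨kk, hk, hkeq, hY⟩ := h.YT _ hj
    obtain ⟨s1, s2, s3⟩ := sh3_sound h v1 v2 v3 hbd hY l1 l2 l3 (f16_lt _ _) (f16_lt _ _)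
      (f16_lt _ _) hs
    refine out_step (pos _ p1) (pos _ p2) (pos _ p3) (le' _ _ g1) (le' _ _ g2) (le' _ _ g3) ?_
      (ih _ _ _ (by omega) (by omega) (by omega) (f24_lt _ _) (f24_lt _ _) (f24_lt _ _) ht3)
    rintro x hx ⟨z, hz, τ, hτ, hxe⟩ hxc
    have hz' := hull3 (shd_convex hne (rp kk.y)) s1 s2 s3 hz
    have hx' := hx
    rw [hxe] at hx'
    refine Or.inr ⟨(rp kk.y, kset R kk.cell), ⟨kk, hk, rfl⟩,
      shd_mem hB.conv hB.pts h0L hτ hx' hz', ?_⟩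
    show x ∈ convexHull ℝ (kset R kk.cell)
    rw [hkeq] at hc6
    simp only [cel6, Bool.and_eq_true, memb_iff] at hc6
    obtain ⟨⟨m1, m2, m3⟩, m4, m5, m6⟩ := hc6
    have hcell : ¬ isNil kk.cell = true := by
      rw [isNil_iff]
      intro he
      rw [he] at m1
      simp at m1
    rw [kset, if_neg hcell]
    have lem : ∀ {r s : ℕ}, r ≤ s → s * bd < 8388608 → r * bd < 8388608 := fun hrs hs =>
      lt_of_le_of_lt (Nat.mul_le_mul_right _ hrs) hs
    have mem : ∀ {U' E' r : ℕ} {x y z : ℤ}, Vx (fs ++ ds) bd U' E' x y z → r * bd < 8388608 →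
        crn U' r ∈ kk.cell → ((r : ℝ) / R) • rv x y z ∈ convexHull ℝ (CS R kk.cell) := by
      intro U' E' r x y z hv hr hm
      rw [← crn_cp (R := R) hv hr]
      exact subset_convexHull ℝ _ ⟨_, hm, rfl⟩
    exact hull6 (convex_convexHull ℝ _) (mem v1 (lem g1 q1) m1) (mem v2 (lem g2 q2) m2)
      (mem v3 (lem g3 q3) m3) (mem v1 q1 m4) (mem v2 q2 m5) (mem v3 q3 m6) hxc

lemma cn_scale1 {L : Set E} {Φ : E → Prop} {u v w : E} (h : Cn L Φ ((2 : ℝ) • u) v w) :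
    Cn L Φ u v w := by
  intro a b c ha hb hc hx
  have e : a • u + b • v + c • w = (a / 2) • ((2 : ℝ) • u) + b • v + c • w := by
    rw [smul_smul, div_mul_cancel₀ a (two_ne_zero)]
  rw [e] at hx ⊢
  exact h _ _ _ (by positivity) hb hc hx

lemma cn_scale2 {L : Set E} {Φ : E → Prop} {u v w : E} (h : Cn L Φ u ((2 : ℝ) • v) w) :
    Cn L Φ u v w := (cn_scale1 h.rot.rot).rot

lemma cn_scale3 {L : Set E} {Φ : E → Prop} {u v w : E} (h : Cn L Φ u v ((2 : ℝ) • w)) :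
    Cn L Φ u v w := by
  have h1 : Cn L Φ ((2 : ℝ) • w) u v := h.rot
  exact (cn_scale1 h1).rot.rot

lemma rv_comb (α β : ℕ) (x y z x' y' z' : ℤ) :
    rv (α * x + β * x') (α * y + β * y') (α * z + β * z') =
      (α : ℝ) • rv x y z + (β : ℝ) • rv x' y' z' := by
  funext i
  fin_cases i <;> simp [rv]

lemma mx3_le {a b c : ℕ} : a ≤ mx3 a b c ∧ b ≤ mx3 a b c ∧ c ≤ mx3 a b c := by
  unfold mx3
  rcases h1 : Nat.ble a b with _ | _
  · have h1' : ¬ a ≤ b := fun h => by rw [Nat.ble_eq_true_of_le h] at h1; exact absurd h1 (by simp)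
    simp only [cond_false]
    rcases h2 : Nat.ble a c with _ | _
    · have h2' : ¬ a ≤ c := fun h => by rw [Nat.ble_eq_true_of_le h] at h2; exact absurd h2 (by simp)
      simp only [cond_false]; omega
    · have h2' := Nat.le_of_ble_eq_true h2
      simp only [cond_true]; omega
  · have h1' := Nat.le_of_ble_eq_true h1
    simp only [cond_true]
    rcases h2 : Nat.ble b c with _ | _
    · have h2' : ¬ b ≤ c := fun h => by rw [Nat.ble_eq_true_of_le h] at h2; exact absurd h2 (by simp)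
      simp only [cond_false]; omega
    · have h2' := Nat.le_of_ble_eq_true h2
      simp only [cond_true]; omega

theorem chkC_sound (h : CxOK R c K F U W kd fs ds) (hB : Bdy R L K F U ds)
    (hW : W.length ≤ N) :
    ∀ (k : Cone) {b1 b2 b3 U1 U2 U3 E1 E2 E3 : ℕ} {x1 y1 z1 x2 y2 z2 x3 y3 z3 : ℤ},
      Vx (fs ++ ds) b1 U1 E1 x1 y1 z1 → Vx (fs ++ ds) b2 U2 E2 x2 y2 z2 →
      Vx (fs ++ ds) b3 U3 E3 x3 y3 z3 → chkC c k b1 b2 b3 U1 U2 U3 E1 E2 E3 = true →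
      Cn L (Phi (Wf N W) (JS R kd) L) (rv x1 y1 z1) (rv x2 y2 z2) (rv x3 y3 z3) := by
  intro k
  induction k with
  | s4 a1 a2 a3 a4 i1 i2 i3 i4 =>
    intro b1 b2 b3 U1 U2 U3 E1 E2 E3 x1 y1 z1 x2 y2 z2 x3 y3 z3 v1 v2 v3 ht
    simp only [chkC, Bool.and_eq_true] at ht
    obtain ⟨⟨t1, t2⟩, t3, t4⟩ := ht
    have two : ∀ {b b' U' V' E' F' : ℕ} {x y z x' y' z' : ℤ}, Vx (fs ++ ds) b U' E' x y z →
        Vx (fs ++ ds) b' V' F' x' y' z' →
        Vx (fs ++ ds) (b + b') (U' + V') (E' + F') (1 * x + 1 * x') (1 * y + 1 * y')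
          (1 * z + 1 * z') := by
      intro b b' U' V' E' F' x y z x' y' z' hv hv'
      have := hv.comb hv' 1 1
      simpa [one_mul] using this
    have dbl : ∀ {b U' E' : ℕ} {x y z : ℤ}, Vx (fs ++ ds) b U' E' x y z →
        Vx (fs ++ ds) (2 * b) (2 * U') (2 * E') (2 * x + 0 * x) (2 * y + 0 * y)
          (2 * z + 0 * z) := by
      intro b U' E' x y z hv
      have := hv.comb hv 2 0
      simpa using this
    have r2 : ∀ x y z x' y' z' : ℤ, rv (1 * x + 1 * x') (1 * y + 1 * y') (1 * z + 1 * z') =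
        rv x y z + rv x' y' z' := by
      intro x y z x' y' z'
      have := rv_comb 1 1 x y z x' y' z'
      simpa using this
    have r0 : ∀ x y z : ℤ, rv (2 * x + 0 * x) (2 * y + 0 * y) (2 * z + 0 * z) =
        (2 : ℝ) • rv x y z := by
      intro x y z
      have := rv_comb 2 0 x y z x y z
      simpa using this
    have c1 := i1 (dbl v1) (two v1 v2) (two v1 v3) t1
    have c2 := i2 (two v1 v2) (dbl v2) (two v2 v3) t2
    have c3 := i3 (two v1 v3) (two v2 v3) (dbl v3) t3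
    have c4 := i4 (two v1 v2) (two v2 v3) (two v1 v3) t4
    rw [r2, r2, r0] at c1
    rw [r2, r2, r0] at c2
    rw [r2, r2, r0] at c3
    rw [r2, r2, r2] at c4
    exact cn_split4 (cn_scale1 c1) (cn_scale2 c2) (cn_scale3 c3) c4
  | s2 e al be a b ia ib =>
    intro b1 b2 b3 U1 U2 U3 E1 E2 E3 x1 y1 z1 x2 y2 z2 x3 y3 z3 v1 v2 v3 ht
    simp only [chkC, Bool.and_eq_true, blt_iff] at ht
    obtain ⟨⟨ha, hb⟩, ht⟩ := ht
    have ha' : (0 : ℝ) < al := by exact_mod_cast ha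
    have hb' : (0 : ℝ) < be := by exact_mod_cast hb
    cases he : Nat.beq e (nat_lit 0)
    · rw [he, cond_false] at ht
      cases he' : Nat.beq e (nat_lit 1)
      · rw [he', cond_false, Bool.and_eq_true] at ht
        have vm := v3.comb v1 al be
        have c1 := ia v1 v2 vm ht.1
        have c2 := ib vm v2 v3 ht.2
        rw [rv_comb] at c1 c2
        exact (cn_split1 ha' hb' rfl c2.rot c1.rot).rot.rot
      · rw [he', cond_true, Bool.and_eq_true] at ht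
        have vm := v2.comb v3 al be
        have c1 := ia v1 v2 vm ht.1
        have c2 := ib v1 vm v3 ht.2
        rw [rv_comb] at c1 c2
        exact (cn_split1 ha' hb' rfl c1.rot.rot c2.rot.rot).rot
    · rw [he, cond_true, Bool.and_eq_true] at ht
      have vm := v1.comb v2 al be
      have c1 := ia v1 vm v3 ht.1
      have c2 := ib vm v2 v3 ht.2
      rw [rv_comb] at c1 c2
      exact cn_split1 ha' hb' rfl c1 c2
  | t d k =>
    intro b1 b2 b3 U1 U2 U3 E1 E2 E3 x1 y1 z1 x2 y2 z2 x3 y3 z3 v1 v2 v3 ht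
    simp only [chkC, Bool.and_eq_true, blt_iff, ble_iff] at ht
    obtain ⟨⟨⟨⟨hbd, p1⟩, p2, p3⟩, hlit⟩, ht⟩ := ht
    obtain ⟨m1, m2, m3⟩ := @mx3_le b1 b2 b3
    replace v1 := v1.mono m1
    replace v2 := v2.mono m2
    replace v3 := v3.mono m3
    have hR0 : (0 : ℝ) < R := by exact_mod_cast h.R_pos
    have pos : ∀ r : ℕ, 0 < r → (0 : ℝ) < (r : ℝ) / R := by
      intro r hr
      have : (0 : ℝ) < r := by exact_mod_cast hr
      positivity
    have t1 := lit3_sound h v1 v2 v3 hbd (f24_lt _ _) (f24_lt _ _) (f24_lt _ _) (f24_lt _ _)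
      (f24_lt _ _) (f24_lt _ _) hlit
    have t2 := chkL_sound h hB hW v1 v2 v3 hbd k _ _ _ p1 p2 p3 (f24_lt _ _) (f24_lt _ _)
      (f24_lt _ _) ht
    refine cn_base (pos _ p1) (pos _ p2) (pos _ p3) ?_ t2
    intro x _ hxc
    have h5 := hull4 (lit_convex (KS K) (rvt (wv W (f4 d 0)))) (lit_zero h.fac.zero_int _) t1.1
      t1.2.1 t1.2.2 hxc
    exact Or.inl (phi_lit hB.conv hB.pts hW h5)

end layers

end Pool.Agent.Lib.MP_5e7226_co.C8
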