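import Pool.Agent.Lib.MP_5e7226_co.C8.Frame

/-!
# Symmetries of the frames

`act g` is the signed permutation `x ↦ (i ↦ g.2 i * x (g.1 i))` of the coordinates. The symmetries
of the simplex are the `g` with `∏ i, g.2 i = 1` (24 elements), the symmetries of the cube and of
the octahedron are all the `g` (48 elements). Everything is stated with the preimage
`{x | act g x ∈ L}` of a body `L`.
-/

set_option autoImplicit false

open Set Filter Topology

namespace Pool.Agent.Lib.MP_5e7226_co.C8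

open GB

/-! ### linear maps given by a matrix -/

section mat

variable {A : Matrix (Fin 3) (Fin 3) ℝ}

/-- the linear homeomorphism `x ↦ A *ᵥ x` -/
noncomputable def mv (A : Matrix (Fin 3) (Fin 3) ℝ) (hA : IsUnit A.det) : E ≃L[ℝ] E :=
  (LinearEquiv.ofLinearMap (Matrix.mulVecLin A) (Matrix.mulVecLin A⁻¹)
    (by
      apply LinearMap.ext
      intro x
      simp [Matrix.mulVec_mulVec, Matrix.mul_nonsing_inv A hA])
    (by
      apply LinearMap.ext
      intro x
      simp [Matrix.mulVec_mulVec, Matrix.nonsing_inv_mul A hA])).toContinuousLinearEquiv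

lemma mv_apply (hA : IsUnit A.det) (x : E) : mv A hA x = A.mulVec x := rfl

/-- the preimage of `L` under the matrix -/
def pre (A : Matrix (Fin 3) (Fin 3) ℝ) (L : Set E) : Set E := {x | A.mulVec x ∈ L}

lemma mem_pre {L : Set E} {x : E} : x ∈ pre A L ↔ A.mulVec x ∈ L := Iff.rfl

lemma pre_eq (hA : IsUnit A.det) (L : Set E) : pre A L = (mv A hA).symm '' L := by
  ext x
  constructor
  · intro hx
    exact ⟨A.mulVec x, hx, by rw [← mv_apply hA, ContinuousLinearEquiv.symm_apply_apply]⟩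
  · rintro ⟨y, hy, rfl⟩
    show A.mulVec ((mv A hA).symm y) ∈ L
    rw [← mv_apply hA, ContinuousLinearEquiv.apply_symm_apply]
    exact hy

lemma interior_pre (hA : IsUnit A.det) (L : Set E) : interior (pre A L) = pre A (interior L) := by
  have h : pre A L = (mv A hA).toHomeomorph ⁻¹' L := rfl
  rw [h, ← (mv A hA).toHomeomorph.preimage_interior]
  rfl

lemma illum_pre (hA : IsUnit A.det) {L : Set E} {N : ℕ} (h : Illum (pre A L) N) : Illum L N := by
  rw [pre_eq hA] at h
  exact Illum.of_image _ h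

lemma isCompact_pre (hA : IsUnit A.det) {L : Set E} (h : IsCompact L) : IsCompact (pre A L) := by
  rw [pre_eq hA]
  exact h.image (mv A hA).symm.continuous

lemma convex_pre {L : Set E} (h : Convex ℝ L) : Convex ℝ (pre A L) :=
  h.is_linear_preimage (Matrix.mulVecLin A).isLinear

lemma ShMax.pre {ι : Type} {s : ι → E} {L : Set E} (h : ShMax s L) (hA : |A.det| = 1)
    (hV : ∀ j, ∃ k, A.mulVec (s j) = s k) : ShMax s (pre A L) := by
  have hu : IsUnit A.det := by
    rw [isUnit_iff_ne_zero]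
    intro h0
    rw [h0, abs_zero] at hA
    exact zero_ne_one hA
  refine ⟨isCompact_pre hu h.cpt, convex_pre h.conv, ?_, ?_⟩
  · intro j
    obtain ⟨k, hk⟩ := hV j
    rw [mem_pre, hk]
    exact h.pts k
  · intro c G hG
    have h1 := h.max (A.mulVec c) (fun i => A.mulVec (G i)) (fun j => by
      have h2 := hG j
      rw [mem_pre, img, Matrix.mulVec_add, Matrix.mulVec_sum] at h2
      simpa [img, Matrix.mulVec_smul] using h2)
    have h3 : (Matrix.of fun i => A.mulVec (G i)) = Matrix.of G * A.transpose := by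
      ext i k
      simp [Matrix.mul_apply, Matrix.mulVec, dotProduct, mul_comm]
    rw [dt, h3, Matrix.det_mul, Matrix.det_transpose, abs_mul, hA, mul_one] at h1
    exact h1

end mat

/-! ### signed permutations -/

/-- signed permutations of the coordinates -/
abbrev G48 := Equiv.Perm (Fin 3) × (Fin 3 → ℤˣ)

/-- the action -/
def act (g : G48) (x : E) : E := fun i => (((g.2 i : ℤˣ) : ℤ) : ℝ) * x (g.1 i)

/-- the matrix of the action -/
def actM (g : G48) : Matrix (Fin 3) (Fin 3) ℝ :=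
  Matrix.of fun i j => if g.1 i = j then (((g.2 i : ℤˣ) : ℤ) : ℝ) else 0

lemma act_eq (g : G48) (x : E) : act g x = (actM g).mulVec x := by
  funext i
  simp [act, actM, Matrix.mulVec, dotProduct]

lemma sgn_cases (u : ℤˣ) : (((u : ℤˣ) : ℤ) : ℝ) = 1 ∨ (((u : ℤˣ) : ℤ) : ℝ) = -1 := by
  rcases Int.units_eq_one_or u with h | h <;> simp [h]

lemma abs_det_actM (g : G48) : |(actM g).det| = 1 := by
  have h1 : actM g = Matrix.diagonal (fun i => (((g.2 i : ℤˣ) : ℤ) : ℝ)) *
      (Equiv.toPEquiv g.1).toMatrix := by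
    ext i j
    rw [Matrix.diagonal_mul]
    simp [actM, PEquiv.toMatrix_apply, Equiv.toPEquiv_apply, eq_comm]
  rw [h1, Matrix.det_mul, Matrix.det_diagonal, Matrix.det_permutation, abs_mul, Finset.abs_prod]
  have h2 : ∀ i, |(((g.2 i : ℤˣ) : ℤ) : ℝ)| = 1 := by
    intro i
    rcases sgn_cases (g.2 i) with h | h <;> rw [h] <;> simp
  have h3 : |(((Equiv.Perm.sign g.1 : ℤˣ) : ℤ) : ℝ)| = 1 := by
    rcases sgn_cases (Equiv.Perm.sign g.1) with h | h <;> rw [h] <;> simp
  rw [h3]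
  simp [h2]

lemma isUnit_actM (g : G48) : IsUnit (actM g).det := by
  rw [isUnit_iff_ne_zero]
  intro h0
  have := abs_det_actM g
  rw [h0, abs_zero] at this
  exact zero_ne_one this

/-- the preimage of `L` -/
def preG (g : G48) (L : Set E) : Set E := {x | act g x ∈ L}

lemma mem_preG {g : G48} {L : Set E} {x : E} : x ∈ preG g L ↔ act g x ∈ L := Iff.rfl

lemma preG_eq (g : G48) (L : Set E) : preG g L = pre (actM g) L := by
  ext x
  rw [mem_preG, act_eq, mem_pre]

lemma act_add (g : G48) (x y : E) : act g (x + y) = act g x + act g y := by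
  simp only [act_eq, Matrix.mulVec_add]

lemma act_smul (g : G48) (t : ℝ) (x : E) : act g (t • x) = t • act g x := by
  simp only [act_eq, Matrix.mulVec_smul]

lemma interior_preG (g : G48) (L : Set E) : interior (preG g L) = preG g (interior L) := by
  rw [preG_eq, preG_eq, interior_pre (isUnit_actM g)]

/-- illumination is invariant -/
lemma illum_preG (g : G48) {L : Set E} {N : ℕ} (h : Illum (preG g L) N) : Illum L N := by
  rw [preG_eq] at h
  exact illum_pre (isUnit_actM g) h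

/-- the symmetries of the simplex -/
def Ev (g : G48) : Prop := ∏ i, g.2 i = 1

instance (g : G48) : Decidable (Ev g) := inferInstanceAs (Decidable (_ = _))

lemma exists_simV {x : E} (h : ∀ i, x i = 1 ∨ x i = -1) (hp : x 0 * x 1 * x 2 = 1) :
    ∃ k, x = simV k := by
  have key : ∀ k : Fin 4, simV k 0 = x 0 → simV k 1 = x 1 → simV k 2 = x 2 → x = simV k := by
    intro k h0 h1 h2
    funext i
    fin_cases i
    · exact h0.symm
    · exact h1.symm
    · exact h2.symm
  rcases h 0 with h0 | h0 <;> rcases h 1 with h1 | h1 <;> rcases h 2 with h2 | h2 <;>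
    rw [h0, h1, h2] at hp <;> norm_num at hp
  · exact ⟨0, key 0 (by simp [simV, h0]) (by simp [simV, h1]) (by simp [simV, h2])⟩
  · exact ⟨1, key 1 (by simp [simV, h0]) (by simp [simV, h1]) (by simp [simV, h2])⟩
  · exact ⟨2, key 2 (by simp [simV, h0]) (by simp [simV, h1]) (by simp [simV, h2])⟩
  · exact ⟨3, key 3 (by simp [simV, h0]) (by simp [simV, h1]) (by simp [simV, h2])⟩

lemma simV_sgn (j : Fin 4) (i : Fin 3) : simV j i = 1 ∨ simV j i = -1 := by
  fin_cases j <;> fin_cases i <;> simp [simV]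

lemma simV_prod (j : Fin 4) : simV j 0 * simV j 1 * simV j 2 = 1 := by
  fin_cases j <;> simp [simV]

lemma act_sgn (g : G48) {x : E} (h : ∀ i, x i = 1 ∨ x i = -1) (i : Fin 3) :
    act g x i = 1 ∨ act g x i = -1 := by
  unfold act
  rcases sgn_cases (g.2 i) with h1 | h1 <;> rcases h (g.1 i) with h2 | h2 <;> rw [h1, h2] <;> simp

lemma act_simV {g : G48} (hg : Ev g) (j : Fin 4) : ∃ k, act g (simV j) = simV k := by
  refine exists_simV (act_sgn g (simV_sgn j)) ?_
  have h1 : act g (simV j) 0 * act g (simV j) 1 * act g (simV j) 2 =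
      (∏ i, (((g.2 i : ℤˣ) : ℤ) : ℝ)) * ∏ i, simV j (g.1 i) := by
    rw [Fin.prod_univ_three, Fin.prod_univ_three]
    simp only [act]
    ring
  have h2 : (∏ i, (((g.2 i : ℤˣ) : ℤ) : ℝ)) = 1 := by
    have h3 : ((∏ i, g.2 i : ℤˣ) : ℤ) = 1 := by
      rw [show (∏ i, g.2 i) = 1 from hg]
      rfl
    rw [Units.coe_prod] at h3
    exact_mod_cast h3
  rw [h1, h2, Equiv.prod_comp g.1 (simV j), Fin.prod_univ_three, simV_prod, one_mul]

lemma exists_sg {x : E} (h : ∀ i, x i = 1 ∨ x i = -1) : ∃ v, x = sg v := by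
  have key : ∀ v : Fin 8, sg v 0 = x 0 → sg v 1 = x 1 → sg v 2 = x 2 → x = sg v := by
    intro k h0 h1 h2
    funext i
    fin_cases i
    · exact h0.symm
    · exact h1.symm
    · exact h2.symm
  rcases h 0 with h0 | h0 <;> rcases h 1 with h1 | h1 <;> rcases h 2 with h2 | h2
  · exact ⟨0, key 0 (by rw [h0]; simp [sg, sb, bit]) (by rw [h1]; simp [sg, sb, bit]) (by rw [h2]; simp [sg, sb, bit])⟩
  · exact ⟨4, key 4 (by rw [h0]; simp [sg, sb, bit]) (by rw [h1]; simp [sg, sb, bit, Nat.testBit_succ]) (by rw [h2]; simp [sg, sb, bit, Nat.testBit_succ])⟩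
  · exact ⟨2, key 2 (by rw [h0]; simp [sg, sb, bit]) (by rw [h1]; simp [sg, sb, bit, Nat.testBit_succ]) (by rw [h2]; simp [sg, sb, bit, Nat.testBit_succ])⟩
  · exact ⟨6, key 6 (by rw [h0]; simp [sg, sb, bit]) (by rw [h1]; simp [sg, sb, bit, Nat.testBit_succ]) (by rw [h2]; simp [sg, sb, bit, Nat.testBit_succ])⟩
  · exact ⟨1, key 1 (by rw [h0]; simp [sg, sb, bit]) (by rw [h1]; simp [sg, sb, bit, Nat.testBit_succ]) (by rw [h2]; simp [sg, sb, bit, Nat.testBit_succ])⟩
  · exact ⟨5, key 5 (by rw [h0]; simp [sg, sb, bit]) (by rw [h1]; simp [sg, sb, bit, Nat.testBit_succ]) (by rw [h2]; simp [sg, sb, bit, Nat.testBit_succ])⟩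
  · exact ⟨3, key 3 (by rw [h0]; simp [sg, sb, bit]) (by rw [h1]; simp [sg, sb, bit, Nat.testBit_succ]) (by rw [h2]; simp [sg, sb, bit, Nat.testBit_succ])⟩
  · exact ⟨7, key 7 (by rw [h0]; simp [sg, sb, bit]) (by rw [h1]; simp [sg, sb, bit, Nat.testBit_succ]) (by rw [h2]; simp [sg, sb, bit, Nat.testBit_succ])⟩

lemma act_sg (g : G48) (v : Fin 8) : ∃ k, act g (sg v) = sg k :=
  exists_sg (act_sgn g (isSign_sg v))

lemma act_octV (g : G48) (j : Fin 3 × Bool) : ∃ k, act g (octV j) = octV k := by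
  obtain ⟨i, b⟩ := j
  have h1 : ∀ (c : ℝ) (l : Fin 3), act g (c • Pi.single i 1) l =
      if l = g.1.symm i then (((g.2 l : ℤˣ) : ℤ) : ℝ) * c else 0 := by
    intro c l
    simp only [act, Pi.smul_apply, Pi.single_apply, smul_eq_mul, mul_ite, mul_one, mul_zero]
    by_cases h : g.1 l = i
    · have h2 : l = g.1.symm i := by rw [← h, Equiv.symm_apply_apply]
      rw [if_pos h, if_pos h2]
    · have h2 : l ≠ g.1.symm i := by
        intro h3
        exact h (by rw [h3, Equiv.apply_symm_apply])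
      rw [if_neg h, if_neg h2]
  have h2 : ∀ c : ℝ, act g (c • Pi.single i 1) =
      ((((g.2 (g.1.symm i) : ℤˣ) : ℤ) : ℝ) * c) • Pi.single (g.1.symm i) 1 := by
    intro c
    funext l
    rw [h1]
    by_cases h : l = g.1.symm i
    · subst h
      simp
    · simp [h]
  have h3 : octV (i, b) = (if b then (1 : ℝ) else -1) • (Pi.single i 1 : E) := by
    cases b <;> simp [octV]
  rw [h3, h2]
  rcases sgn_cases (g.2 (g.1.symm i)) with h4 | h4 <;> rw [h4]
  · refine ⟨(g.1.symm i, b), ?_⟩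
    cases b <;> simp [octV]
  · refine ⟨(g.1.symm i, !b), ?_⟩
    cases b <;> simp [octV]

/-! ### the frames as configurations -/

lemma sim_iff {L : Set E} : SimMax L ↔ ShMax simV L := by
  constructor
  · intro h
    refine ⟨h.cpt, h.conv, h.pts, fun c G hG => ?_⟩
    have h1 := h.max (fun j => img c G (simV j)) hG
    have h2 : (Matrix.of fun i : Fin 3 => img c G (simV i.succ) - img c G (simV 0)) =
        (Matrix.of fun i : Fin 3 => simV i.succ - simV 0) * Matrix.of G := by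
      ext i k
      rw [Matrix.mul_apply]
      simp only [Matrix.of_apply, Pi.sub_apply, img, Pi.add_apply,
        Pi.smul_apply, smul_eq_mul, Fin.sum_univ_three]
      ring
    have h3 : (Matrix.of fun i : Fin 3 => simV i.succ - simV 0).det = -16 := by
      rw [Matrix.det_fin_three]
      simp [simV]
      norm_num
    rw [h2, Matrix.det_mul, h3, abs_mul] at h1
    norm_num at h1
    exact h1
  · intro hL
    refine ⟨hL.cpt, hL.conv, hL.pts, fun x hx => ?_⟩
    obtain ⟨c, G, hG⟩ := exists_img_sim x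
    have h1 := hL.max c G (fun j => by rw [hG]; exact hx j)
    have h2 : (Matrix.of fun i : Fin 3 => x i.succ - x 0) =
        (Matrix.of fun i : Fin 3 => simV i.succ - simV 0) * Matrix.of G := by
      ext i k
      rw [Matrix.mul_apply]
      simp only [Matrix.of_apply, Pi.sub_apply, ← hG, img, Pi.add_apply,
        Pi.smul_apply, smul_eq_mul, Fin.sum_univ_three]
      ring
    have h3 : (Matrix.of fun i : Fin 3 => simV i.succ - simV 0).det = -16 := by
      rw [Matrix.det_fin_three]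
      simp [simV]
      norm_num
    rw [h2, Matrix.det_mul, h3, abs_mul]
    have h4 : |dt G| ≤ 1 := h1
    rw [dt] at h4
    norm_num
    exact h4

lemma box_iff {L : Set E} : BoxMax L ↔ ShMax sg L :=
  ⟨fun h => ⟨h.cpt, h.conv, h.pts, h.max⟩, fun h => ⟨h.cpt, h.conv, h.pts, h.max⟩⟩

lemma oct_iff {L : Set E} : OctMax L ↔ ShMax octV L := by
  constructor
  · intro h
    refine ⟨h.cpt, h.conv, ?_, fun c G hG => h.max c G fun i => ?_⟩
    · rintro ⟨i, b⟩
      cases b
      · simpa [octV] using (h.pts i).2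
      · simpa [octV] using (h.pts i).1
    · have h1 := hG (i, true)
      have h2 := hG (i, false)
      rw [(img_octV c G i).1] at h1
      rw [(img_octV c G i).2] at h2
      exact ⟨h1, h2⟩
  · intro hL
    refine ⟨hL.cpt, hL.conv, fun i => ?_, fun c G hG => hL.max c G ?_⟩
    · exact ⟨by simpa [octV] using hL.pts (i, true), by simpa [octV] using hL.pts (i, false)⟩
    · rintro ⟨i, b⟩
      cases b
      · rw [(img_octV c G i).2]; exact (hG i).2
      · rw [(img_octV c G i).1]; exact (hG i).1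

/-- the simplex frame is invariant under the 24 symmetries -/
theorem SimMax.preG {L : Set E} (h : SimMax L) {g : G48} (hg : Ev g) : SimMax (preG g L) := by
  rw [sim_iff, preG_eq]
  refine (sim_iff.1 h).pre (abs_det_actM g) fun j => ?_
  obtain ⟨k, hk⟩ := act_simV hg j
  exact ⟨k, by rw [← act_eq, hk]⟩

/-- the box frame is invariant under the 48 symmetries -/
theorem BoxMax.preG {L : Set E} (h : BoxMax L) (g : G48) : BoxMax (preG g L) := by
  rw [box_iff, preG_eq]
  refine (box_iff.1 h).pre (abs_det_actM g) fun j => ?_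
  obtain ⟨k, hk⟩ := act_sg g j
  exact ⟨k, by rw [← act_eq, hk]⟩

/-- the octahedral frame is invariant under the 48 symmetries -/
theorem OctMax.preG {L : Set E} (h : OctMax L) (g : G48) : OctMax (preG g L) := by
  rw [oct_iff, preG_eq]
  refine (oct_iff.1 h).pre (abs_det_actM g) fun j => ?_
  obtain ⟨k, hk⟩ := act_octV g j
  exact ⟨k, by rw [← act_eq, hk]⟩

/-! ### fundamental cones -/

lemma exists_sorted (x : E) :
    ∃ σ : Equiv.Perm (Fin 3), |x (σ 1)| ≤ |x (σ 0)| ∧ |x (σ 2)| ≤ |x (σ 1)| := by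
  have h := Tuple.monotone_sort (fun i => - |x i|)
  refine ⟨Tuple.sort (fun i => - |x i|), ?_, ?_⟩
  · have h1 := h (show (0 : Fin 3) ≤ 1 by decide)
    simp only [Function.comp_apply] at h1
    linarith
  · have h1 := h (show (1 : Fin 3) ≤ 2 by decide)
    simp only [Function.comp_apply] at h1
    linarith

lemma exists_sign (a : ℝ) : ∃ u : ℤˣ, (((u : ℤˣ) : ℤ) : ℝ) * a = |a| := by
  rcases le_total 0 a with h | h
  · exact ⟨1, by simp [abs_of_nonneg h]⟩
  · exact ⟨-1, by simp [abs_of_nonpos h]⟩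

lemma unit_sq (u : ℤˣ) : (((u : ℤˣ) : ℤ) : ℝ) * (((u : ℤˣ) : ℤ) : ℝ) = 1 := by
  rcases sgn_cases u with h | h <;> rw [h] <;> norm_num

/-- every point is the image of a point of the fundamental cone `0 ≤ y 2 ≤ y 1 ≤ y 0` -/
theorem exists_fund48 (x : E) : ∃ (g : G48) (y : E), act g y = x ∧ 0 ≤ y 2 ∧ y 2 ≤ y 1 ∧ y 1 ≤ y 0 := by
  obtain ⟨σ, h1, h2⟩ := exists_sorted x
  choose u hu using fun i => exists_sign (x (σ i))
  refine ⟨(σ.symm, fun j => u (σ.symm j)), fun i => (((u i : ℤˣ) : ℤ) : ℝ) * x (σ i), ?_, ?_, ?_, ?_⟩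
  · funext j
    simp only [act, Equiv.apply_symm_apply]
    rw [← mul_assoc, unit_sq, one_mul]
  · simp only [hu]; exact abs_nonneg _
  · simp only [hu]; exact h2
  · simp only [hu]; exact h1

/-- every point is the image, by a symmetry of the simplex, of a point of the fundamental cone
`|y 2| ≤ y 1 ≤ y 0` -/
theorem exists_fund24 (x : E) :
    ∃ (g : G48) (y : E), Ev g ∧ act g y = x ∧ |y 2| ≤ y 1 ∧ y 1 ≤ y 0 := by
  obtain ⟨σ, h1, h2⟩ := exists_sorted x
  choose u hu using fun i => exists_sign (x (σ i))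
  set u' : Fin 3 → ℤˣ := ![u 0, u 1, u 0 * u 1] with hu'
  refine ⟨(σ.symm, fun j => u' (σ.symm j)), fun i => (((u' i : ℤˣ) : ℤ) : ℝ) * x (σ i), ?_, ?_, ?_, ?_⟩
  · show ∏ j, u' (σ.symm j) = 1
    rw [Equiv.prod_comp σ.symm u', Fin.prod_univ_three]
    simp only [hu', Matrix.cons_val_zero, Matrix.cons_val_one, Matrix.cons_val_two, Matrix.head_cons,
      Matrix.tail_cons]
    have := Int.units_mul_self (u 0 * u 1)
    exact this
  · funext j
    simp only [act, Equiv.apply_symm_apply]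
    rw [← mul_assoc, unit_sq, one_mul]
  · have h3 : |(((u' 2 : ℤˣ) : ℤ) : ℝ) * x (σ 2)| = |x (σ 2)| := by
      rw [abs_mul]
      rcases sgn_cases (u' 2) with h | h <;> rw [h] <;> simp
    have h4 : (((u' 1 : ℤˣ) : ℤ) : ℝ) * x (σ 1) = |x (σ 1)| := hu 1
    simp only
    rw [h3, h4]
    exact h2
  · have h4 : (((u' 1 : ℤˣ) : ℤ) : ℝ) * x (σ 1) = |x (σ 1)| := hu 1
    have h5 : (((u' 0 : ℤˣ) : ℤ) : ℝ) * x (σ 0) = |x (σ 0)| := hu 0
    simp only
    rw [h4, h5]
    exact h1

/-- the fundamental cone is spanned by `(1,0,0)`, `(1,1,1)`, `(1,1,-1)` -/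
lemma fund24_cone {y : E} (h2 : |y 2| ≤ y 1) (h1 : y 1 ≤ y 0) :
    ∃ a b c : ℝ, 0 ≤ a ∧ 0 ≤ b ∧ 0 ≤ c ∧ y = a • ![1, 0, 0] + b • ![1, 1, 1] + c • ![1, 1, -1] := by
  have h3 := abs_le.1 h2
  refine ⟨y 0 - y 1, (y 1 + y 2) / 2, (y 1 - y 2) / 2, by linarith, by linarith, by linarith, ?_⟩
  funext i
  fin_cases i <;> simp <;> ring

/-- the fundamental cone is spanned by `(1,0,0)`, `(1,1,0)`, `(1,1,1)` -/
lemma fund48_cone {y : E} (h3 : 0 ≤ y 2) (h2 : y 2 ≤ y 1) (h1 : y 1 ≤ y 0) :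
    ∃ a b c : ℝ, 0 ≤ a ∧ 0 ≤ b ∧ 0 ≤ c ∧ y = a • ![1, 0, 0] + b • ![1, 1, 0] + c • ![1, 1, 1] := by
  refine ⟨y 0 - y 1, y 1 - y 2, y 2, by linarith, by linarith, h3, ?_⟩
  funext i
  fin_cases i <;> simp

/-! ### integer points -/

/-- the real point -/
def rl (x y z : ℤ) : E := ![(x : ℝ), (y : ℝ), (z : ℝ)]

/-- the six permutations of a triple -/
def perms (x y z : ℤ) : List (ℤ × ℤ × ℤ) :=
  [(x, y, z), (x, z, y), (y, x, z), (y, z, x), (z, x, y), (z, y, x)]

/-- the 24 images of a triple under the symmetries of the simplex -/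
def orb24 (x y z : ℤ) : List (ℤ × ℤ × ℤ) :=
  perms x y z ++ (perms x y z).map (fun t => (t.1, -t.2.1, -t.2.2)) ++
    (perms x y z).map (fun t => (-t.1, t.2.1, -t.2.2)) ++
    (perms x y z).map (fun t => (-t.1, -t.2.1, t.2.2))

/-- the 48 images of a triple -/
def orb48 (x y z : ℤ) : List (ℤ × ℤ × ℤ) :=
  orb24 x y z ++ (orb24 x y z).map (fun t => (-t.1, -t.2.1, -t.2.2))

lemma perm_cases (σ : Equiv.Perm (Fin 3)) :
    (σ 0 = 0 ∧ σ 1 = 1 ∧ σ 2 = 2) ∨ (σ 0 = 0 ∧ σ 1 = 2 ∧ σ 2 = 1) ∨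
    (σ 0 = 1 ∧ σ 1 = 0 ∧ σ 2 = 2) ∨ (σ 0 = 1 ∧ σ 1 = 2 ∧ σ 2 = 0) ∨
    (σ 0 = 2 ∧ σ 1 = 0 ∧ σ 2 = 1) ∨ (σ 0 = 2 ∧ σ 1 = 1 ∧ σ 2 = 0) := by
  revert σ
  decide

/-- the images of an integer point are in the list -/
theorem act_orb24 {g : G48} (hg : Ev g) (x y z : ℤ) :
    ∃ t ∈ orb24 x y z, act g (rl x y z) = rl t.1 t.2.1 t.2.2 := by
  obtain ⟨σ, e⟩ := g
  have hp : ∃ p ∈ perms x y z, ∀ i, rl x y z (σ i) = rl p.1 p.2.1 p.2.2 i := by
    rcases perm_cases σ with ⟨h0, h1, h2⟩ | ⟨h0, h1, h2⟩ | ⟨h0, h1, h2⟩ | ⟨h0, h1, h2⟩ | ⟨h0, h1, h2⟩ | ⟨h0, h1, h2⟩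
    · exact ⟨(x, y, z), by simp [perms], fun i => by fin_cases i <;> simp [h0, h1, h2, rl]⟩
    · exact ⟨(x, z, y), by simp [perms], fun i => by fin_cases i <;> simp [h0, h1, h2, rl]⟩
    · exact ⟨(y, x, z), by simp [perms], fun i => by fin_cases i <;> simp [h0, h1, h2, rl]⟩
    · exact ⟨(y, z, x), by simp [perms], fun i => by fin_cases i <;> simp [h0, h1, h2, rl]⟩
    · exact ⟨(z, x, y), by simp [perms], fun i => by fin_cases i <;> simp [h0, h1, h2, rl]⟩
    · exact ⟨(z, y, x), by simp [perms], fun i => by fin_cases i <;> simp [h0, h1, h2, rl]⟩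
  obtain ⟨p, hp, hpe⟩ := hp
  have hE : e 0 * e 1 * e 2 = 1 := by
    have : ∏ i, e i = 1 := hg
    rwa [Fin.prod_univ_three] at this
  have key : ∀ a b c : ℤ, ((e 0 : ℤˣ) : ℤ) = a → ((e 1 : ℤˣ) : ℤ) = b → ((e 2 : ℤˣ) : ℤ) = c →
      act (σ, e) (rl x y z) = rl (a * p.1) (b * p.2.1) (c * p.2.2) := by
    intro a b c ha hb hc
    funext i
    simp only [act, hpe]
    fin_cases i
    · simp [rl, ha]
    · simp [rl, hb]
    · simp [rl, hc]
  rcases Int.units_eq_one_or (e 0) with h0 | h0 <;> rcases Int.units_eq_one_or (e 1) with h1 | h1 <;>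
    rcases Int.units_eq_one_or (e 2) with h2 | h2 <;> rw [h0, h1, h2] at hE
  · refine ⟨p, ?_, ?_⟩
    · simp only [orb24, List.mem_append]; exact Or.inl (Or.inl (Or.inl hp))
    · rw [key 1 1 1 (by rw [h0]; rfl) (by rw [h1]; rfl) (by rw [h2]; rfl)]; simp
  · exact absurd hE (by decide)
  · exact absurd hE (by decide)
  · refine ⟨(p.1, -p.2.1, -p.2.2), ?_, ?_⟩
    · simp only [orb24, List.mem_append, List.mem_map]
      exact Or.inl (Or.inl (Or.inr ⟨p, hp, rfl⟩))
    · rw [key 1 (-1) (-1) (by rw [h0]; rfl) (by rw [h1]; rfl) (by rw [h2]; rfl)]; simp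
  · exact absurd hE (by decide)
  · refine ⟨(-p.1, p.2.1, -p.2.2), ?_, ?_⟩
    · simp only [orb24, List.mem_append, List.mem_map]
      exact Or.inl (Or.inr ⟨p, hp, rfl⟩)
    · rw [key (-1) 1 (-1) (by rw [h0]; rfl) (by rw [h1]; rfl) (by rw [h2]; rfl)]; simp
  · refine ⟨(-p.1, -p.2.1, p.2.2), ?_, ?_⟩
    · simp only [orb24, List.mem_append, List.mem_map]
      exact Or.inr ⟨p, hp, rfl⟩
    · rw [key (-1) (-1) 1 (by rw [h0]; rfl) (by rw [h1]; rfl) (by rw [h2]; rfl)]; simp
  · exact absurd hE (by decide)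

/-- the images of an integer point are in the list -/
theorem act_orb48 (g : G48) (x y z : ℤ) :
    ∃ t ∈ orb48 x y z, act g (rl x y z) = rl t.1 t.2.1 t.2.2 := by
  have hE : ∏ i, g.2 i = 1 ∨ ∏ i, g.2 i = -1 := Int.units_eq_one_or _
  rcases hE with h | h
  · obtain ⟨t, ht, he⟩ := act_orb24 (g := g) h x y z
    exact ⟨t, by simp only [orb48, List.mem_append]; exact Or.inl ht, he⟩
  · have h' : Ev (g.1, fun i => - g.2 i) := by
      show ∏ i, - g.2 i = 1
      rw [Fin.prod_univ_three] at h ⊢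
      have : -g.2 0 * -g.2 1 * -g.2 2 = -(g.2 0 * g.2 1 * g.2 2) := by
        rw [neg_mul_neg, mul_neg]
      rw [this, h, neg_neg]
    obtain ⟨t, ht, he⟩ := act_orb24 h' x y z
    refine ⟨(-t.1, -t.2.1, -t.2.2), ?_, ?_⟩
    · simp only [orb48, List.mem_append, List.mem_map]
      exact Or.inr ⟨t, ht, rfl⟩
    · have h2 : act g (rl x y z) = - act (g.1, fun i => - g.2 i) (rl x y z) := by
        funext i
        simp [act]
      rw [h2, he]
      funext i
      fin_cases i <;> simp [rl]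

end Pool.Agent.Lib.MP_5e7226_co.C8
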