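import Pool.Agent.Lib.MP_5e7226_co.C8.Chk

/-!
# The checker in the frame of the simplex with leaves near parallelepipeds

A leaf near a parallelepiped with the centre `y` and the half edges `e1 e2 e3` (packed points): the
parallelepiped is contained in the hull of the known points, and a cone tree shows that the body is
contained in the homothetic copy with the ratio `13/10`.
-/

set_option autoImplicit false

namespace Pool.Agent.Lib.MP_5e7226_co.C8

namespace T7

/-- distance of two numbers -/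
def dif (P Q : ℕ) : ℕ := Nat.add (Nat.sub P Q) (Nat.sub Q P)

/-- positive part of the value of the normal of `f` at a point -/
def vp (f : FD) (p : ℕ) : ℕ := dps f.A1 f.A2 f.A3 f.B1 f.B2 f.B3 p

/-- negative part -/
def vm (f : FD) (p : ℕ) : ℕ := dps f.B1 f.B2 f.B3 f.A1 f.A2 f.A3 p

/-- the parallelepiped is contained in the half space of the functional -/
def inF (y e1 e2 e3 : ℕ) (f : FD) : Bool :=
  Nat.ble (Nat.add (vp f y) (Nat.add (dif (vp f e1) (vm f e1))
    (Nat.add (dif (vp f e2) (vm f e2)) (dif (vp f e3) (vm f e3))))) (Nat.add f.c (vm f y))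

def inL (y e1 e2 e3 : ℕ) : List FD → Bool
  | [] => true
  | f :: l => inF y e1 e2 e3 f && inL y e1 e2 e3 l

/-- the origin -/
def org : ℕ := nat_lit 140739635871744

/-- a functional of the box: the normal of `f`, the value is `(13 T) / 10` plus the value at `y` -/
def bxc (T y : ℕ) (f : FD) : FD where
  p := f.p
  q := f.q
  r := f.r
  A1 := f.A1
  A2 := f.A2
  A3 := f.A3
  B1 := f.B1
  B2 := f.B2
  B3 := f.B3
  c := Nat.div (Nat.sub (Nat.add (Nat.mul (nat_lit 13) T) (Nat.mul (nat_lit 10) (vp f y)))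
    (Nat.mul (nat_lit 10) (vm f y))) (nat_lit 10)

/-- the functional of the box with the normal `q × r` -/
def bxf (T y q r : ℕ) : FD := bxc T y (mkFD (nat_lit 0) org q r)

/-- the absolute value of the determinant -/
def dtm (e1 e2 e3 : ℕ) : ℕ :=
  (fun f => dif (vp f e1) (vm f e1)) (mkFD (nat_lit 0) org e2 e3)

/-- the functionals of the box -/
def boxL (T y e1 e2 e3 : ℕ) : List FD :=
  [bxf T y e2 e3, bxf T y e3 e2, bxf T y e3 e1, bxf T y e1 e3, bxf T y e1 e2, bxf T y e2 e1]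

/-- the values are positive and not too large -/
def okB : List FD → Bool
  | [] => true
  | f :: l => (Nat.blt (nat_lit 0) f.c && Nat.blt f.c (nat_lit 72057594037927936)) && okB l

/-- three corners in the box -/
def box3 (c : Cx) (MB E1 E2 E3 r1 r2 r3 : ℕ) : Bool :=
  Nat.beq (Nat.land (Nat.lor (Nat.lor (Nat.add c.CL (Nat.mul r1 E1))
    (Nat.add c.CL (Nat.mul r2 E2))) (Nat.add c.CL (Nat.mul r3 E3))) MB) (nat_lit 0)

/-- everything beyond the three corners is dead -/
def chkD (c : Cx) (nD E1 E2 E3 : ℕ) : Lay → ℕ → ℕ → ℕ → Bool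
  | .wN d, r1, r2, r3 => Nat.blt (f10 d (nat_lit 0)) c.nN &&
      sh3 c (ent c.NT c.TW c.FM (f10 d (nat_lit 0))) E1 E2 E3 r1 r2 r3
        (f16 d (nat_lit 10)) (f16 d (nat_lit 26)) (f16 d (nat_lit 42))
  | .wD d, r1, r2, r3 => (Nat.ble c.nF d && Nat.blt d nD) && dt3 c d E1 E2 E3 r1 r2 r3
  | .wU d l, r1, r2, r3 =>
      upA c (ent (nth c.uw (f10 d (nat_lit 4))) c.TW c.FM (f4 d (nat_lit 0))) E1 E2 E3 r1 r2 r3
        (nthL c.ut (f10 d (nat_lit 4))) l &&
        Nat.blt (f10 d (nat_lit 4)) (len c.ut)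
  | _, _, _, _ => false

/-- check of a cone tree -/
def chkZ (c : Cx) (MB nD : ℕ) : Cone → ℕ → ℕ → ℕ → ℕ → ℕ → ℕ → ℕ → ℕ → ℕ → Bool
  | .s4 a1 a2 a3 a4, b1, b2, b3, U1, U2, U3, E1, E2, E3 =>
      (chkZ c MB nD a1 (Nat.mul (nat_lit 2) b1) (Nat.add b1 b2) (Nat.add b1 b3)
          (Nat.mul (nat_lit 2) U1) (Nat.add U1 U2)
          (Nat.add U1 U3) (Nat.mul (nat_lit 2) E1) (Nat.add E1 E2) (Nat.add E1 E3) &&
        chkZ c MB nD a2 (Nat.add b1 b2) (Nat.mul (nat_lit 2) b2) (Nat.add b2 b3)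
          (Nat.add U1 U2) (Nat.mul (nat_lit 2) U2)
          (Nat.add U2 U3) (Nat.add E1 E2) (Nat.mul (nat_lit 2) E2) (Nat.add E2 E3)) &&
      (chkZ c MB nD a3 (Nat.add b1 b3) (Nat.add b2 b3) (Nat.mul (nat_lit 2) b3)
          (Nat.add U1 U3) (Nat.add U2 U3)
          (Nat.mul (nat_lit 2) U3) (Nat.add E1 E3) (Nat.add E2 E3) (Nat.mul (nat_lit 2) E3) &&
        chkZ c MB nD a4 (Nat.add b1 b2) (Nat.add b2 b3) (Nat.add b1 b3)
          (Nat.add U1 U2) (Nat.add U2 U3) (Nat.add U1 U3)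
          (Nat.add E1 E2) (Nat.add E2 E3) (Nat.add E1 E3))
  | .s2 e al be a b, b1, b2, b3, U1, U2, U3, E1, E2, E3 =>
      (Nat.blt (nat_lit 0) al && Nat.blt (nat_lit 0) be) &&
      bif Nat.beq e (nat_lit 0) then
        chkZ c MB nD a b1 (Nat.add (Nat.mul al b1) (Nat.mul be b2)) b3
          U1 (Nat.add (Nat.mul al U1) (Nat.mul be U2)) U3
          E1 (Nat.add (Nat.mul al E1) (Nat.mul be E2)) E3 &&
        chkZ c MB nD b (Nat.add (Nat.mul al b1) (Nat.mul be b2)) b2 b3
          (Nat.add (Nat.mul al U1) (Nat.mul be U2)) U2 U3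
          (Nat.add (Nat.mul al E1) (Nat.mul be E2)) E2 E3
      else bif Nat.beq e (nat_lit 1) then
        chkZ c MB nD a b1 b2 (Nat.add (Nat.mul al b2) (Nat.mul be b3))
          U1 U2 (Nat.add (Nat.mul al U2) (Nat.mul be U3))
          E1 E2 (Nat.add (Nat.mul al E2) (Nat.mul be E3)) &&
        chkZ c MB nD b b1 (Nat.add (Nat.mul al b2) (Nat.mul be b3)) b3
          U1 (Nat.add (Nat.mul al U2) (Nat.mul be U3)) U3
          E1 (Nat.add (Nat.mul al E2) (Nat.mul be E3)) E3
      else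
        chkZ c MB nD a b1 b2 (Nat.add (Nat.mul al b3) (Nat.mul be b1))
          U1 U2 (Nat.add (Nat.mul al U3) (Nat.mul be U1))
          E1 E2 (Nat.add (Nat.mul al E3) (Nat.mul be E1)) &&
        chkZ c MB nD b (Nat.add (Nat.mul al b3) (Nat.mul be b1)) b2 b3
          (Nat.add (Nat.mul al U3) (Nat.mul be U1)) U2 U3
          (Nat.add (Nat.mul al E3) (Nat.mul be E1)) E2 E3
  | .t d k, b1, b2, b3, _, _, _, E1, E2, E3 =>
      (((Nat.ble (mx3 b1 b2 b3) (nat_lit 65536) && Nat.blt (nat_lit 0) (f24 d (nat_lit 4))) &&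
        (Nat.blt (nat_lit 0) (f24 d (nat_lit 28)) && Nat.blt (nat_lit 0) (f24 d (nat_lit 52)))) &&
      box3 c MB E1 E2 E3 (f24 d (nat_lit 4)) (f24 d (nat_lit 28)) (f24 d (nat_lit 52))) &&
      chkD c nD E1 E2 E3 k (f24 d (nat_lit 4)) (f24 d (nat_lit 28)) (f24 d (nat_lit 52))

/-- one octant -/
def chkZO (c : Cx) (MB nD U1 U2 U3 C1 C2 C3 : ℕ) (k : Cone) : Bool :=
  chkZ c MB nD k (nat_lit 1) (nat_lit 1) (nat_lit 1) U1 U2 U3 C1 C2 C3

/-- all octants -/
def chkZ8 (c : Cx) (MB nD : ℕ) (n : Nm) (k : Oct) : Bool :=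
  (((chkZO c MB nD (nat_lit 1) (nat_lit 16777216) (nat_lit 281474976710656) n.C1 n.C2 n.C3 k.c0 &&
    chkZO c MB nD (nat_lit 4722366482869645213695) (nat_lit 16777216) (nat_lit 281474976710656)
      n.D1 n.C2 n.C3 k.c1) &&
   (chkZO c MB nD (nat_lit 1) (nat_lit 4722366482869628436480) (nat_lit 281474976710656)
      n.C1 n.D2 n.C3 k.c2 &&
    chkZO c MB nD (nat_lit 4722366482869645213695) (nat_lit 4722366482869628436480)
      (nat_lit 281474976710656) n.D1 n.D2 n.C3 k.c3)) &&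
  ((chkZO c MB nD (nat_lit 1) (nat_lit 16777216) (nat_lit 4722366201394668503040)
      n.C1 n.C2 n.D3 k.c4 &&
    chkZO c MB nD (nat_lit 4722366482869645213695) (nat_lit 16777216)
      (nat_lit 4722366201394668503040) n.D1 n.C2 n.D3 k.c5) &&
   (chkZO c MB nD (nat_lit 1) (nat_lit 4722366482869628436480)
      (nat_lit 4722366201394668503040) n.C1 n.D2 n.D3 k.c6 &&
    chkZO c MB nD (nat_lit 4722366482869645213695) (nat_lit 4722366482869628436480)
      (nat_lit 4722366201394668503040) n.D1 n.D2 n.D3 k.c7)))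

/-- the check with the lists of functionals -/
def covZ2 (R : ℕ) (s : SN) (y e1 e2 e3 : ℕ) (k : Oct) (T : ℕ) (fs ds bs : List FD) : Bool :=
  ((Nat.blt (nat_lit 0) T && okB bs) && inL y e1 e2 e3 fs) &&
  (fun hs nD => (fun n => chkZ8 (mkCx R n fs hs s.F s.U [] [])
    (Nat.shiftLeft (pk (fun _ => nat_lit 39614081257132168796771975168) bs)
      (Nat.mul (nat_lit 96) nD)) nD n k) (mkNm hs))
    (app fs (app ds bs)) (Nat.add (len fs) (len ds))

/-- check of a leaf near a parallelepiped -/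
def covZ (R D0 : ℕ) (s : SN) (fc dt : List ℕ) (y e1 e2 e3 : ℕ) (k : Oct) : Bool :=
  (fok s.K fc && posL (mkL s.K D0 dt)) &&
  (fun T => covZ2 R s y e1 e2 e3 k T (mkL s.K (nat_lit 0) fc) (mkL s.K D0 dt)
    (boxL T y e1 e2 e3)) (dtm e1 e2 e3)

/-- the tree -/
inductive TrT
  | nil
  | kid (y : ℕ) (cell : List ℕ) (sub rest : TrT)
  | qry (y : ℕ) (a b : TrT)
  | cov (fc dt W : List ℕ) (k : Oct) (kids : TrT)
  | ref (i : ℕ)
  | z (fc dt : List ℕ) (y e1 e2 e3 : ℕ) (k : Oct)

/-- the children of a cover node -/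
def TrT.kids : TrT → List Kd
  | .kid y cell _ rest => ⟨y, cell⟩ :: rest.kids
  | _ => []

/-- check of a tree, as `chk` with leaves near parallelepipeds -/
def chkT (n R D0 : ℕ) (rs : List SN) : TrT → Option (List ℕ) → SN → Bool
  | .nil, m, _ => match m with
    | none => false
    | some _ => true
  | .kid y cell sub rest, m, s => match m with
    | none => false
    | some W => chkT n R D0 rs sub none (kidS s W y cell) && chkT n R D0 rs rest (some W) s
  | .qry y a b, m, s => match m with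
    | none => chkT n R D0 rs a none ⟨y :: s.K, s.F, s.U⟩ &&
        chkT n R D0 rs b none ⟨s.K, y :: s.F, s.U⟩
    | some _ => false
  | .cov fc dt W k kids, m, s => match m with
    | none => (Nat.ble (len W) n && cov R D0 s fc dt W k kids.kids) &&
        chkT n R D0 rs kids (some W) s
    | some _ => false
  | .ref i, m, s => match m with
    | none => Nat.blt i (len rs) && eqS (nthS rs i) s
    | some _ => false
  | .z fc dt y e1 e2 e3 k, m, s => match m with
    | none => covZ R D0 s fc dt y e1 e2 e3 k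
    | some _ => false

end T7

end Pool.Agent.Lib.MP_5e7226_co.C8
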