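import Pool.Agent.Lib.MP_5e7226_co.C8.TFU
import Pool.Agent.Lib.MP_5e7226_co.C8.T7Chk

/-!
# Fast evaluation of the leaves near parallelepipeds in the simplex frame

The data are one number for the facets and triples, the centre and the three half edges (packed
points), and one number for each octant.
-/

set_option autoImplicit false

namespace Pool.Agent.Lib.MP_5e7226_co.C8.TF

/-- three corners in the box, `MB` has the sign bits of the functionals of the box -/
noncomputable def bx3 (CL MB r1 r2 r3 E1 E2 E3 : ℕ) : Bool :=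
  Nat.beq (Nat.land (Nat.lor (Nat.lor (Nat.add CL (Nat.mul r1 E1))
    (Nat.add CL (Nat.mul r2 E2))) (Nat.add CL (Nat.mul r3 E3))) MB) (nat_lit 0)

/-- a terminal cone with the radii `r1 r2 r3` and a triple of 6 bits -/
noncomputable def zE (nf nd MB CL E1 E2 E3 S : ℕ) (k : ℕ → Bool) (r1 r2 r3 : ℕ) : Bool :=
  @Bool.rec (fun _ => Bool) false (@Bool.rec (fun _ => Bool) false
    (wD nf nd CL r1 r2 r3 E1 E2 E3 S k)
    (bx3 CL MB r1 r2 r3 E1 E2 E3))
    (Nat.ble (Nat.lor (Nat.lor r1 r2) r3) (nat_lit 16777215))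

/-- a terminal cone with the radii of the functional at the place `H` -/
noncomputable def zH (nf nd MB BI CL E1 E2 E3 S : ℕ) (k : ℕ → Bool) (H Rc : ℕ) : Bool :=
  zE nf nd MB CL E1 E2 E3 S k (rd BI H Rc E1) (rd BI H Rc E2) (rd BI H Rc E3)

/-- terminal cone, triple: 6 bits -/
noncomputable def zD (nf nd MB BI C0 CL E1 E2 E3 S : ℕ) (k : ℕ → Bool) : Bool :=
  (fun H => zH nf nd MB BI CL E1 E2 E3 S k H
    (Nat.sub (Nat.mul (nat_lit 4096) (Nat.land (Nat.shiftRight C0 H)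
      (nat_lit 79228162514264337593543950335))) (nat_lit 1)))
    (Nat.mul (nat_lit 96) (Nat.add nf (f6 S (nat_lit 0))))

/-- terminal cone, shadow: three radii of 24 bits, 9 bits point, three shifts of 20 bits -/
noncomputable def zN (nF M1 MB CL CS : ℕ) (FV : ℕ → ℕ) (E1 E2 E3 S : ℕ) (k : ℕ → Bool) : Bool :=
  (fun r1 r2 r3 =>
    (@Bool.rec (fun _ => Bool) false (@Bool.rec (fun _ => Bool) false
      (@Bool.rec (fun _ => Bool) false (@Bool.rec (fun _ => Bool) false
      (wN (nat_lit 4096) nF M1 CS FV r1 r2 r3 E1 E2 E3 (Nat.shiftRight S (nat_lit 72)) k)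
      (bx3 CL MB r1 r2 r3 E1 E2 E3))
      (Nat.ble (nat_lit 1) r1))
      (Nat.ble (nat_lit 1) r2))
      (Nat.ble (nat_lit 1) r3)))
    (f24 S (nat_lit 0)) (f24 S (nat_lit 24)) (f24 S (nat_lit 48))

/-- the checks with the packed numbers; `nh` is the number of functionals -/
noncomputable def z3 (nK nF nf nd nh FC DC TK TF M1 MB BI C0 C1 C2 C3 D1 D2 D3 S0 S1 S2 S3 S4 S5
    S6 S7 : ℕ) : Bool :=
  (fun K0 CC CL CS => (fun VV =>
    (@Bool.rec (fun _ => Bool) false (@Bool.rec (fun _ => Bool) false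
      (@Bool.rec (fun _ => Bool) false (@Bool.rec (fun _ => Bool) false
      (@Bool.rec (fun _ => Bool) false
      (o8 (fun E1 E2 E3 => zD nf nd MB BI C0 CL E1 E2 E3)
        (fun _ _ _ _ _ => false)
        (fun E1 E2 E3 => zN nF M1 MB CL CS
          (fun f => Nat.mul (nat_lit 4096) (VV (pt TF f))) E1 E2 E3)
        C1 C2 C3 D1 D2 D3 S0 S1 S2 S3 S4 S5 S6 S7)
      (Nat.beq (Nat.land CC BI) BI))
      (fc FC nf nK (fun i => Nat.add CC (VV (pt TK i))) nf FC))
      (dc nK nd DC))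
      (Nat.ble (nat_lit 1) nf))
      (Nat.ble (nat_lit 1) nK)))
    (fun p => vn D1 D2 D3 K0 p))
    (Nat.mul (nat_lit 32768) (Nat.add (Nat.add C1 C2) C3))
    (Nat.add C0 (Nat.mul (nat_lit 39614081257132168796771975167) (on nh)))
    (Nat.add BI (Nat.mul (nat_lit 4096)
      (Nat.sub (Nat.shiftLeft (nat_lit 1) (Nat.mul (nat_lit 96) nh)) C0)))
    (Nat.add BI (Nat.mul (Nat.mul (nat_lit 4096) (nat_lit 4096)) C0))

/-- the packed numbers of a list of functionals -/
noncomputable def z2 (nK nF nf nd nh FC DC TK TF : ℕ) (hs : List FD)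
    (S0 S1 S2 S3 S4 S5 S6 S7 : ℕ) : Bool :=
  (fun MM A1 A2 A3 B1 B2 B3 =>
    z3 nK nF nf nd nh FC DC TK TF
      (Nat.mul (nat_lit 39614081257132168796771975168) (on nf))
      (Nat.shiftLeft (Nat.mul (nat_lit 39614081257132168796771975168) (on (nat_lit 6)))
        (Nat.mul (nat_lit 96) (Nat.add nf nd)))
      (Nat.mul (nat_lit 39614081257132168796771975168) (on nh)) (pf FD.c hs)
      (Nat.add A1 (Nat.sub MM B1)) (Nat.add A2 (Nat.sub MM B2)) (Nat.add A3 (Nat.sub MM B3))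
      (Nat.add B1 (Nat.sub MM A1)) (Nat.add B2 (Nat.sub MM A2)) (Nat.add B3 (Nat.sub MM A3))
      S0 S1 S2 S3 S4 S5 S6 S7)
    (Nat.shiftLeft (nat_lit 1) (Nat.mul (nat_lit 96) nh))
    (pf FD.A1 hs) (pf FD.A2 hs) (pf FD.A3 hs) (pf FD.B1 hs) (pf FD.B2 hs) (pf FD.B3 hs)

/-- the checks of the box: it is not degenerate, and the parallelepiped is contained in the hull -/
noncomputable def z1 (nK nF nf nd FC DC TK TF y e1 e2 e3 T : ℕ) (fs ds bs : List FD)
    (S0 S1 S2 S3 S4 S5 S6 S7 : ℕ) : Bool :=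
  (@Bool.rec (fun _ => Bool) false (@Bool.rec (fun _ => Bool) false
    (@Bool.rec (fun _ => Bool) false
    (z2 nK nF nf nd (Nat.add (Nat.add nf nd) (nat_lit 6)) FC DC TK TF (ap (ap fs ds) bs)
      S0 S1 S2 S3 S4 S5 S6 S7)
    (T7.inL y e1 e2 e3 fs))
    (T7.okB bs))
    (Nat.ble (nat_lit 1) T))

/-- a leaf near a parallelepiped with the centre `y` and the half edges `e1 e2 e3` -/
noncomputable def zl : ZT := fun K F H y e1 e2 e3 S0 S1 S2 S3 S4 S5 S6 S7 =>
  (fun nf nd TK T => (fun FC DC =>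
    z1 (ln K) (ln F) nf nd FC DC TK (tk F) y e1 e2 e3 T
      (fl TK (nat_lit 0) (nat_lit 45) nf FC)
      (fl TK (nat_lit 17179869184) (nat_lit 21) nd DC)
      (T7.boxL T y e1 e2 e3) S0 S1 S2 S3 S4 S5 S6 S7)
    (Nat.shiftRight H (nat_lit 15))
    (Nat.shiftRight H (Nat.add (nat_lit 15) (Nat.mul (nat_lit 45) nf))))
    (Nat.land H (nat_lit 255)) (Nat.land (Nat.shiftRight H (nat_lit 8)) (nat_lit 127)) (tk K)
    (T7.dtm e1 e2 e3)

end Pool.Agent.Lib.MP_5e7226_co.C8.TF
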