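import Pool.Agent.Lib.MP_5e7226_co.C8.TFast

/-!
# Fast evaluation of the certificates with facts in the simplex frame

A fact consists of the points of a cell (with the denominator 4096, three fields of 26 bits with
the offset `2^25`) and of directions: some point of the body in the hull of the origin and the
points of the cell is not lit by the directions.
-/

set_option autoImplicit false

namespace Pool.Agent.Lib.MP_5e7226_co.C8.TF

/-- 24 bits -/
noncomputable def f24 (S s : ℕ) : ℕ := Nat.land (Nat.shiftRight S s) (nat_lit 16777215)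

/-- 4 bits -/
noncomputable def f4 (S s : ℕ) : ℕ := Nat.land (Nat.shiftRight S s) (nat_lit 15)

/-- the corner lifts the point with the packed value `Cc` -/
noncomputable def uX (CB C0 Cc W r s t E : ℕ) : ℕ :=
  Nat.add (Nat.add (Nat.add CB (Nat.mul (Nat.mul (nat_lit 4096) (Nat.sub (nat_lit 4096) t)) C0))
    (Nat.mul (nat_lit 4096) (Nat.add Cc (Nat.mul s W)))) (Nat.mul (Nat.mul t r) E)

/-- three corners lift all points of the cell; for each point three pairs: 24 bits shift, 12 bits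
weight -/
noncomputable def uL (M1 CB C0 : ℕ) (VC : ℕ → ℕ) (W r1 r2 r3 E1 E2 E3 : ℕ) (k : ℕ → Bool)
    (m : ℕ) : ℕ → ℕ → Bool :=
  @Nat.rec (fun _ => ℕ → ℕ → Bool) (fun _ S => k S)
    (fun _ ih C S =>
      (@Bool.rec (fun _ => Bool) false (ih (Nat.shiftRight C (nat_lit 78)) (Nat.shiftRight S (nat_lit 108)))
      ((fun Cc => Nat.beq (Nat.land (Nat.land (Nat.land
        (uX CB C0 Cc W r1 (f24 S (nat_lit 0)) (f12 S (nat_lit 24)) E1)
        (uX CB C0 Cc W r2 (f24 S (nat_lit 36)) (f12 S (nat_lit 60)) E2))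
        (uX CB C0 Cc W r3 (f24 S (nat_lit 72)) (f12 S (nat_lit 96)) E3)) M1) M1) (VC C)))) m

/-- everything beyond the corners is dead by a fact: 6 bits fact, 4 bits direction, shifts and
weights -/
noncomputable def wU (n M1 CB C0 : ℕ) (VC VP : ℕ → ℕ) (G : List UG) (r1 r2 r3 E1 E2 E3 S : ℕ)
    (k : ℕ → Bool) : Bool :=
  gG (fun m C W =>
    (@Bool.rec (fun _ => Bool) false (uL M1 CB C0 VC (VP (pt W (f4 S (nat_lit 6)))) r1 r2 r3 E1 E2 E3 k m C
      (Nat.shiftRight S (nat_lit 10)))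
    (Nat.ble (Nat.succ (f4 S (nat_lit 6))) n))) G (f6 S (nat_lit 0))

/-- three corners are in a shadow -/
noncomputable def shd (Q M1 CS N r1 r2 r3 t1 t2 t3 E1 E2 E3 : ℕ) (k : Bool) : Bool :=
  (@Bool.rec (fun _ => Bool) false (@Bool.rec (fun _ => Bool) false k
    (Nat.beq (Nat.land (Nat.land (Nat.land (xh Q CS N r1 t1 E1) (xh Q CS N r2 t2 E2))
      (xh Q CS N r3 t3 E3)) M1) M1))
    (Nat.ble (Nat.lor (Nat.lor (Nat.mul t1 r1) (Nat.mul t2 r2)) (Nat.mul t3 r3))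
      (nat_lit 8796093022207)))

/-- everything beyond the corners is dead by a shadow: 9 bits, three shifts -/
noncomputable def wN (Q nF M1 CS : ℕ) (FV : ℕ → ℕ) (r1 r2 r3 E1 E2 E3 S : ℕ) (k : ℕ → Bool) :
    Bool :=
  (@Bool.rec (fun _ => Bool) false (shd Q M1 CS (FV (Nat.land S (nat_lit 511))) r1 r2 r3 (f20 S (nat_lit 9))
      (f20 S (nat_lit 29)) (f20 S (nat_lit 49)) E1 E2 E3 (k (Nat.shiftRight S (nat_lit 69))))
    (Nat.ble (Nat.succ (Nat.land S (nat_lit 511))) nF))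

/-- the hull of the origin and the corners is lit; 42 bits for a corner -/
noncomputable def ltr (M1 CL W r1 r2 r3 E1 E2 E3 S1 S2 S3 : ℕ) (k : Bool) : Bool :=
  (@Bool.rec (fun _ => Bool) false (@Bool.rec (fun _ => Bool) false (@Bool.rec (fun _ => Bool) false (@Bool.rec (fun _ => Bool) false k
    (Nat.beq (Nat.land (Nat.lor (Nat.lor (xl CL W r1 E1 S1) (xl CL W r2 E2 S2))
      (xl CL W r3 E3 S3)) M1) (nat_lit 0)))
    (Nat.ble (nat_lit 1) r1))
    (Nat.ble (nat_lit 1) r2))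
    (Nat.ble (nat_lit 1) r3))

/-- a layer which belongs to a child: 6 bits child, three corners of 50 bits (shift of the shadow
20, outer radius 24, index 6) -/
noncomputable def ly (Q M1 CS : ℕ) (VV : ℕ → ℕ) (J : List KG) (b1 b2 b3 U1 U2 U3 E1 E2 E3 : ℕ)
    (r1 r2 r3 S : ℕ) (k : ℕ → ℕ → ℕ → ℕ → Bool) : Bool :=
  gK (fun y m C => (fun R1 R2 R3 =>
    (@Bool.rec (fun _ => Bool) false (@Bool.rec (fun _ => Bool) false (@Bool.rec (fun _ => Bool) false (@Bool.rec (fun _ => Bool) false (@Bool.rec (fun _ => Bool) false (@Bool.rec (fun _ => Bool) false (shd Q M1 CS (Nat.mul (nat_lit 4096) (VV y)) r1 r2 r3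
          (f20 S (nat_lit 6)) (f20 S (nat_lit 56)) (f20 S (nat_lit 106)) E1 E2 E3
          (k R1 R2 R3 (Nat.shiftRight S (nat_lit 156))))
        (crn m C b1 U1 R1 (f6 S (nat_lit 50)))) (crn m C b2 U2 R2 (f6 S (nat_lit 100))))
        (crn m C b3 U3 R3 (f6 S (nat_lit 150))))
        (Nat.ble r1 R1)) (Nat.ble r2 R2)) (Nat.ble r3 R3)))
    (f24 S (nat_lit 26)) (f24 S (nat_lit 76)) (f24 S (nat_lit 126))) J (f6 S (nat_lit 0))

/-- everything beyond the corners is dead or belongs to children: 2 bits kind (triple, shadow, fact,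
layer of a child) -/
noncomputable def wk (n Q nf nd nF M1 CL CS CB C0 : ℕ) (VV VC VP FV : ℕ → ℕ) (G : List UG)
    (J : List KG) (b1 b2 b3 U1 U2 U3 E1 E2 E3 : ℕ) (k : ℕ → Bool) (m : ℕ) :
    ℕ → ℕ → ℕ → ℕ → Bool :=
  @Nat.rec (fun _ => ℕ → ℕ → ℕ → ℕ → Bool) (fun _ _ _ _ => false)
    (fun _ ih r1 r2 r3 S => @Nat.rec (fun _ => Bool)
      (wD nf nd CL r1 r2 r3 E1 E2 E3 (Nat.shiftRight S (nat_lit 2)) k)
      (fun t _ => @Nat.rec (fun _ => Bool)
        (wN Q nF M1 CS FV r1 r2 r3 E1 E2 E3 (Nat.shiftRight S (nat_lit 2)) k)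
        (fun t _ => @Nat.rec (fun _ => Bool)
          (wU n M1 CB C0 VC VP G r1 r2 r3 E1 E2 E3 (Nat.shiftRight S (nat_lit 2)) k)
          (fun _ _ => ly Q M1 CS VV J b1 b2 b3 U1 U2 U3 E1 E2 E3 r1 r2 r3
            (Nat.shiftRight S (nat_lit 2)) ih) t) t)
      (Nat.land S (nat_lit 3))) m

/-- a general terminal cone: 4 bits direction, three corners of 42 bits (radius 24, shift 18),
layers and witness -/
noncomputable def tG (n Q nf nd nF M1 CL CS CB C0 : ℕ) (VV VC VP : ℕ → ℕ) (WV FV : ℕ → ℕ)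
    (G : List UG) (J : List KG) (b1 b2 b3 U1 U2 U3 E1 E2 E3 S : ℕ) (k : ℕ → Bool) : Bool :=
  (fun a S1 S2 S3 => (fun r1 r2 r3 =>
    (@Bool.rec (fun _ => Bool) false (ltr M1 CL (WV a) r1 r2 r3 E1 E2 E3 S1 S2 S3
      (wk n Q nf nd nF M1 CL CS CB C0 VV VC VP FV G J b1 b2 b3 U1 U2 U3 E1 E2 E3 k (nat_lit 8)
        r1 r2 r3 (Nat.shiftRight S (nat_lit 130))))
      (Nat.ble (Nat.succ a) n)))
    (xr S1) (xr S2) (xr S3))
    (f4 S (nat_lit 0)) (Nat.shiftRight S (nat_lit 4)) (Nat.shiftRight S (nat_lit 46))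
    (Nat.shiftRight S (nat_lit 88))

/-- subdivision of an edge -/
noncomputable def spu (b1 b2 U1 U2 E1 E2 al be : ℕ) (k : ℕ → ℕ → ℕ → Bool) : Bool :=
  (fun b => (@Bool.rec (fun _ => Bool) false (k b (Nat.add (Nat.mul al U1) (Nat.mul be U2))
    (Nat.add (Nat.mul al E1) (Nat.mul be E2))) (Nat.ble b (nat_lit 65536))))
    (Nat.add (Nat.mul al b1) (Nat.mul be b2))

/-- subdivision of the edge `e` (`0`, `1`, `2`), `x` otherwise -/
noncomputable def squ (ih : CT) (x : ℕ → Bool) (e : ℕ)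
    (b1 b2 b3 U1 U2 U3 E1 E2 E3 al be S : ℕ) (k : ℕ → Bool) : Bool :=
  @Nat.rec (fun _ => Bool)
    (spu b1 b2 U1 U2 E1 E2 al be (fun b U m => ih b1 b b3 U1 U U3 E1 m E3 S
      (fun S' => ih b b2 b3 U U2 U3 m E2 E3 S' k)))
    (fun t _ => @Nat.rec (fun _ => Bool)
      (spu b2 b3 U2 U3 E2 E3 al be (fun b U m => ih b1 b2 b U1 U2 U E1 E2 m S
        (fun S' => ih b1 b b3 U1 U U3 E1 m E3 S' k)))
      (fun t _ => @Nat.rec (fun _ => Bool)
        (spu b3 b1 U3 U1 E3 E1 al be (fun b U m => ih b1 b2 b U1 U2 U E1 E2 m S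
          (fun S' => ih b b2 b3 U U2 U3 m E2 E3 S' k)))
        (fun t _ => x t) t) t) e

/-- the tree of cones -/
noncomputable def gu (TD TX TN : ℕ → ℕ → ℕ → ℕ → (ℕ → Bool) → Bool) (TK : CT) (n : ℕ) : CT :=
  @Nat.rec (fun _ => CT)
    (fun _ _ _ _ _ _ _ _ _ _ _ => false)
    (fun _ ih b1 b2 b3 U1 U2 U3 E1 E2 E3 S k =>
      @Nat.rec (fun _ => Bool)
        (TD E1 E2 E3 (Nat.shiftRight S (nat_lit 3)) k)
        (fun t _ => @Nat.rec (fun _ => Bool)
          (TN E1 E2 E3 (Nat.shiftRight S (nat_lit 3)) k)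
          (fun t _ => @Nat.rec (fun _ => Bool)
            (@Nat.rec (fun _ => Bool)
              (TX E1 E2 E3 (Nat.shiftRight S (nat_lit 5)) k)
              (fun e _ => squ ih (fun _ => false) e b1 b2 b3 U1 U2 U3 E1 E2 E3
                (cs S (nat_lit 5) (nat_lit 2047))
                (cs S (nat_lit 16) (nat_lit 2047)) (Nat.shiftRight S (nat_lit 27)) k)
              (Nat.land (Nat.shiftRight S (nat_lit 3)) (nat_lit 3)))
            (fun e _ => squ ih
              (fun _ => TK b1 b2 b3 U1 U2 U3 E1 E2 E3 (Nat.shiftRight S (nat_lit 3)) k)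
              e b1 b2 b3 U1 U2 U3 E1 E2 E3 (cs S (nat_lit 3) (nat_lit 15))
                (cs S (nat_lit 7) (nat_lit 15)) (Nat.shiftRight S (nat_lit 11)) k)
            t) t)
        (Nat.land S (nat_lit 7)))
    n

/-- one octant -/
noncomputable def ou (TD TX TN : ℕ → ℕ → ℕ → ℕ → (ℕ → Bool) → Bool) (TK : CT)
    (U1 U2 U3 E1 E2 E3 S : ℕ) : Bool :=
  gu TD TX TN TK (nat_lit 64) (nat_lit 1) (nat_lit 1) (nat_lit 1) U1 U2 U3 E1 E2 E3 S
    (fun _ => true)

/-- eight octants; the second vectors are the unit vectors in fields of 26 bits, modulo `2^78` -/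
noncomputable def u8 (TD TX TN : ℕ → ℕ → ℕ → ℕ → (ℕ → Bool) → Bool) (TK : CT)
    (C1 C2 C3 D1 D2 D3 S0 S1 S2 S3 S4 S5 S6 S7 : ℕ) : Bool :=
  (fun P1 P2 P3 M1 M2 M3 =>
    (@Bool.rec (fun _ => Bool) false (@Bool.rec (fun _ => Bool) false (@Bool.rec (fun _ => Bool) false (@Bool.rec (fun _ => Bool) false (@Bool.rec (fun _ => Bool) false (@Bool.rec (fun _ => Bool) false (@Bool.rec (fun _ => Bool) false (ou TD TX TN TK M1 M2 M3 D1 D2 D3 S7)
    (ou TD TX TN TK P1 M2 M3 C1 D2 D3 S6))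
    (ou TD TX TN TK M1 P2 M3 D1 C2 D3 S5))
    (ou TD TX TN TK P1 P2 M3 C1 C2 D3 S4))
    (ou TD TX TN TK M1 M2 P3 D1 D2 C3 S3))
    (ou TD TX TN TK P1 M2 P3 C1 D2 C3 S2))
    (ou TD TX TN TK M1 P2 P3 D1 C2 C3 S1))
    (ou TD TX TN TK P1 P2 P3 C1 C2 C3 S0)))
    (nat_lit 1) (nat_lit 67108864) (nat_lit 4503599627370496)
    (nat_lit 302231454903657293676543) (nat_lit 302231454903657226567680)
    (nat_lit 302231450400057666306048)

/-- the checks of a cover with the packed numbers -/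
noncomputable def k3 (n Q nK nF nf nd FC DC TK TF W : ℕ) (G : List UG) (J : List KG)
    (M1 BI C0 C1 C2 C3 D1 D2 D3 S0 S1 S2 S3 S4 S5 S6 S7 : ℕ) : Bool :=
  (fun K0 KP K1 CC CL CS CB => (fun VV =>
    (@Bool.rec (fun _ => Bool) false (@Bool.rec (fun _ => Bool) false (@Bool.rec (fun _ => Bool) false (@Bool.rec (fun _ => Bool) false (@Bool.rec (fun _ => Bool) false
      (u8 (fun E1 E2 E3 => tD n nf nd M1 BI C0 CL (fun a => VV (pt W a)) (nat_lit 32767)
          (nat_lit 25) (nat_lit 40) (nat_lit 55) E1 E2 E3)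
        (fun E1 E2 E3 => tD n nf nd M1 BI C0 CL (fun a => VV (pt W a)) (nat_lit 262143)
          (nat_lit 28) (nat_lit 46) (nat_lit 64) E1 E2 E3)
        (fun E1 E2 E3 => tN n Q nF M1 CL CS (fun a => VV (pt W a))
          (fun f => Nat.mul (nat_lit 4096) (VV (pt TF f))) E1 E2 E3)
        (fun b1 b2 b3 U1 U2 U3 E1 E2 E3 => tG n Q nf nd nF M1 CL CS CB C0 VV
          (fun p => vc D1 D2 D3 K1 p) (fun p => vn C1 C2 C3 KP p) (fun a => VV (pt W a))
          (fun f => Nat.mul (nat_lit 4096) (VV (pt TF f))) G J b1 b2 b3 U1 U2 U3 E1 E2 E3)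
        C1 C2 C3 D1 D2 D3 S0 S1 S2 S3 S4 S5 S6 S7)
      (Nat.beq (Nat.land CC BI) BI))
      (fc FC nf nK (fun i => Nat.add CC (VV (pt TK i))) nf FC))
      (dc nK nd DC))
      (Nat.ble (nat_lit 1) nf))
      (Nat.ble (nat_lit 1) nK)))
    (fun p => vn D1 D2 D3 K0 p))
    (Nat.mul (nat_lit 32768) (Nat.add (Nat.add C1 C2) C3))
    (Nat.mul (nat_lit 32768) (Nat.add (Nat.add D1 D2) D3))
    (Nat.mul (nat_lit 33554432) (Nat.add (Nat.add C1 C2) C3))
    (Nat.add C0 (Nat.mul (nat_lit 39614081257132168796771975167) (on (Nat.add nf nd))))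
    (Nat.add BI (Nat.mul (nat_lit 4096)
      (Nat.sub (Nat.shiftLeft (nat_lit 1) (Nat.mul (nat_lit 96) (Nat.add nf nd))) C0)))
    (Nat.add BI (Nat.mul (Nat.mul (nat_lit 4096) Q) C0))
    (Nat.mul (nat_lit 39614081257132168796771975167) (on (Nat.add nf nd)))

/-- the packed numbers of a list of functionals -/
noncomputable def k2 (n Q nK nF nf nd FC DC TK TF W : ℕ) (G : List UG) (J : List KG)
    (hs : List FD) (S0 S1 S2 S3 S4 S5 S6 S7 : ℕ) : Bool :=
  (fun MM A1 A2 A3 B1 B2 B3 =>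
    k3 n Q nK nF nf nd FC DC TK TF W G J
      (Nat.mul (nat_lit 39614081257132168796771975168) (on nf))
      (Nat.mul (nat_lit 39614081257132168796771975168) (on (Nat.add nf nd))) (pf FD.c hs)
      (Nat.add A1 (Nat.sub MM B1)) (Nat.add A2 (Nat.sub MM B2)) (Nat.add A3 (Nat.sub MM B3))
      (Nat.add B1 (Nat.sub MM A1)) (Nat.add B2 (Nat.sub MM A2)) (Nat.add B3 (Nat.sub MM A3))
      S0 S1 S2 S3 S4 S5 S6 S7)
    (Nat.shiftLeft (nat_lit 1) (Nat.mul (nat_lit 96) (Nat.add nf nd)))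
    (pf FD.A1 hs) (pf FD.A2 hs) (pf FD.A3 hs) (pf FD.B1 hs) (pf FD.B2 hs) (pf FD.B3 hs)

/-- a cover with children `J` in a state with facts `G` -/
noncomputable def cu (n Q : ℕ) (K F : List ℕ) (G : List UG) (J : List KG)
    (H W S0 S1 S2 S3 S4 S5 S6 S7 : ℕ) : Bool :=
  (fun nf nd TK => (fun FC DC =>
    k2 n Q (ln K) (ln F) nf nd FC DC TK (tk F) W G J
      (ap (fl TK (nat_lit 0) (nat_lit 45) nf FC)
        (fl TK (nat_lit 17179869184) (nat_lit 21) nd DC)) S0 S1 S2 S3 S4 S5 S6 S7)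
    (Nat.shiftRight H (nat_lit 15))
    (Nat.shiftRight H (Nat.add (nat_lit 15) (Nat.mul (nat_lit 45) nf))))
    (Nat.land H (nat_lit 255)) (Nat.land (Nat.shiftRight H (nat_lit 8)) (nat_lit 127)) (tk K)

/-- equality of lists of facts -/
noncomputable def eqG (l : List UG) : List UG → Bool :=
  @List.rec UG (fun _ => List UG → Bool)
    (fun m => @List.rec UG (fun _ => Bool) true (fun _ _ _ => false) m)
    (fun a _ ih m => @List.rec UG (fun _ => Bool) false
      (fun b m' _ => (@Bool.rec (fun _ => Bool) false (@Bool.rec (fun _ => Bool) false (@Bool.rec (fun _ => Bool) false (ih m') (Nat.beq a.m b.m)) (Nat.beq a.C b.C))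
        (Nat.beq a.W b.W))) m) l

/-- member of a list of states -/
noncomputable def mg (K F : List ℕ) (G : List UG) (l : List SG) : ℕ → Bool :=
  @List.rec SG (fun _ => ℕ → Bool) (fun _ => false)
    (fun s _ ih i => @Nat.rec (fun _ => Bool)
      (@Bool.rec (fun _ => Bool) false (@Bool.rec (fun _ => Bool) false (eqG G s.G) (eq1 F s.F)) (eq1 K s.K))
      (fun j _ => ih j) i) l

/-- the tree: query, leaf, reference, cover with children (a list `k`, `e`), special leaf -/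
inductive TU
  | q (y : ℕ) (a b : TU)
  | l (H W S0 S1 S2 S3 S4 S5 S6 S7 : ℕ)
  | r (i : ℕ)
  | u (H W S0 S1 S2 S3 S4 S5 S6 S7 : ℕ) (c : TU)
  | e
  | k (y m C : ℕ) (a b : TU)
  | z (H y e1 e2 e3 S0 S1 S2 S3 S4 S5 S6 S7 : ℕ)

/-- the list of the children -/
noncomputable def TU.kd (t : TU) : List KG :=
  @TU.rec (fun _ => List KG) (fun _ _ _ _ _ => []) (fun _ _ _ _ _ _ _ _ _ _ => [])
    (fun _ => []) (fun _ _ _ _ _ _ _ _ _ _ _ _ => []) [] (fun y m C _ _ _ ib => ⟨y, m, C⟩ :: ib)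
    (fun _ _ _ _ _ _ _ _ _ _ _ _ _ => []) t

/-- the type of the check of special leaves -/
abbrev ZT : Type :=
  List ℕ → List ℕ → ℕ → ℕ → ℕ → ℕ → ℕ → ℕ → ℕ → ℕ → ℕ → ℕ → ℕ → ℕ → ℕ → Bool

/-- the check of a tree; the second argument is `true` for lists of children, `V` are then the
directions of the cover -/
noncomputable def cw (n Q : ℕ) (Z : ZT) (rs : List SG) (t : TU) :
    Bool → ℕ → List ℕ → List ℕ → List UG → Bool :=
  @TU.rec (fun _ => Bool → ℕ → List ℕ → List ℕ → List UG → Bool)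
    (fun y _ _ ia ib md _ K F G => @Bool.rec (fun _ => Bool)
      (@Bool.rec (fun _ => Bool) false (ib false (nat_lit 0) K (y :: F) G) (ia false (nat_lit 0) (y :: K) F G)) false md)
    (fun H W S0 S1 S2 S3 S4 S5 S6 S7 md _ K F _ => @Bool.rec (fun _ => Bool)
      (lf n Q K F H W S0 S1 S2 S3 S4 S5 S6 S7) false md)
    (fun i md _ K F G => @Bool.rec (fun _ => Bool) (mg K F G rs i) false md)
    (fun H W S0 S1 S2 S3 S4 S5 S6 S7 c ic md _ K F G => @Bool.rec (fun _ => Bool)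
      (@Bool.rec (fun _ => Bool) false (ic true W K F G) (cu n Q K F G c.kd H W S0 S1 S2 S3 S4 S5 S6 S7)) false md)
    (fun md _ _ _ _ => md)
    (fun y m C _ _ ia ib md V K F G => @Bool.rec (fun _ => Bool) false
      (@Bool.rec (fun _ => Bool) false (ib true V K F G) (ia false (nat_lit 0) (y :: K) F (⟨m, C, V⟩ :: G))) md)
    (fun H y e1 e2 e3 S0 S1 S2 S3 S4 S5 S6 S7 md _ K F _ => @Bool.rec (fun _ => Bool)
      (Z K F H y e1 e2 e3 S0 S1 S2 S3 S4 S5 S6 S7) false md)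
    t

end Pool.Agent.Lib.MP_5e7226_co.C8.TF
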