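import Pool.Agent.Lib.MP_5e7226_co.C8.TFastS3
import Pool.Agent.Lib.MP_5e7226_co.C8.TFU

/-!
# Soundness of the fast evaluation with facts, first part: witnesses and cones
-/

set_option autoImplicit false

open Set

namespace Pool.Agent.Lib.MP_5e7226_co.C8.TF

open GB

/-! ### points of cells -/

/-- coordinates of the points of the cells -/
def gx (p : ℕ) : ℤ := ((p % 2 ^ 26 : ℕ) : ℤ) - 33554432
def gy (p : ℕ) : ℤ := ((p / 2 ^ 26 % 2 ^ 26 : ℕ) : ℤ) - 33554432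
def gz (p : ℕ) : ℤ := ((p / 2 ^ 52 % 2 ^ 26 : ℕ) : ℤ) - 33554432

/-- point of a cell -/
noncomputable def gp (p : ℕ) : E := (1 / ((4096 : ℕ) : ℝ)) • rv (gx p) (gy p) (gz p)

/-- the origin and the points of a cell -/
def cg (m C : ℕ) : Set E := insert 0 {x | ∃ i < m, x = gp (C / 2 ^ (78 * i))}

lemma gx_bd (p : ℕ) : |gx p| ≤ 2 ^ 25 := by
  have : p % 2 ^ 26 < 2 ^ 26 := Nat.mod_lt _ (by norm_num)
  unfold gx
  rw [abs_le]
  constructor <;> omega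

lemma gy_bd (p : ℕ) : |gy p| ≤ 2 ^ 25 := by
  have : p / 2 ^ 26 % 2 ^ 26 < 2 ^ 26 := Nat.mod_lt _ (by norm_num)
  unfold gy
  rw [abs_le]
  constructor <;> omega

lemma gz_bd (p : ℕ) : |gz p| ≤ 2 ^ 25 := by
  have : p / 2 ^ 52 % 2 ^ 26 < 2 ^ 26 := Nat.mod_lt _ (by norm_num)
  unfold gz
  rw [abs_le]
  constructor <;> omega

lemma vc_rp {hs : List FD} {BI C0 C1 C2 C3 D1 D2 D3 : ℕ} (h : Nu hs BI C0 C1 C2 C3 D1 D2 D3)
    (p : ℕ) : Rp hs (vc D1 D2 D3 (Nat.mul 33554432 (Nat.add (Nat.add C1 C2) C3)) p)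
      (fun h => -dz h (gx p) (gy p) (gz p)) := by
  have h1 := lin_rp h.hD1 h.hD2 h.hD3 (((h.hC1.add h.hC2).add h.hC3).mul 33554432)
    (p % 2 ^ 26) (p / 2 ^ 26 % 2 ^ 26) (p / 2 ^ 52 % 2 ^ 26)
  have e1 : Nat.land p 67108863 = p % 2 ^ 26 := land_full p 26
  have e2 : Nat.land (Nat.shiftRight p 26) 67108863 = p / 2 ^ 26 % 2 ^ 26 := by
    rw [nshr]; exact land_full _ 26
  have e3 : Nat.land (Nat.shiftRight p 52) 67108863 = p / 2 ^ 52 % 2 ^ 26 := by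
    rw [nshr]; exact land_full _ 26
  have e : vc D1 D2 D3 (Nat.mul 33554432 (Nat.add (Nat.add C1 C2) C3)) p =
    lin D1 D2 D3 (33554432 * (C1 + C2 + C3)) (p % 2 ^ 26) (p / 2 ^ 26 % 2 ^ 26)
      (p / 2 ^ 52 % 2 ^ 26) := by
    have : vc D1 D2 D3 (Nat.mul 33554432 (Nat.add (Nat.add C1 C2) C3)) p =
      lin D1 D2 D3 (33554432 * (C1 + C2 + C3)) (Nat.land p 67108863)
        (Nat.land (Nat.shiftRight p 26) 67108863) (Nat.land (Nat.shiftRight p 52) 67108863) := rfl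
    rw [this, e1, e2, e3]
  rw [e]
  refine Rp.congr h1 (fun f _ => ?_)
  simp only [dz, gx, gy, gz]
  push_cast
  ring

lemma vp_rp {hs : List FD} {BI C0 C1 C2 C3 D1 D2 D3 : ℕ} (h : Nu hs BI C0 C1 C2 C3 D1 D2 D3)
    (p : ℕ) : Rp hs (vn C1 C2 C3 (Nat.mul 32768 (Nat.add (Nat.add D1 D2) D3)) p)
      (fun h => dz h (ix p) (iy p) (iz p)) := by
  have h1 := lin_rp h.hC1 h.hC2 h.hC3 (((h.hD1.add h.hD2).add h.hD3).mul 32768) (ox p) (oy p) (oz p)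
  have e : vn C1 C2 C3 (Nat.mul 32768 (Nat.add (Nat.add D1 D2) D3)) p =
    lin C1 C2 C3 (32768 * (D1 + D2 + D3)) (ox p) (oy p) (oz p) := rfl
  rw [e]
  refine Rp.congr h1 (fun f _ => ?_)
  simp only [dz, ix, iy, iz]
  push_cast
  ring

/-! ### lifts -/

/-- one corner lifts a point of a cell -/
lemma uX_sound {K : List ℕ} {fs : List FD} {ds : List FD} (hF : Fac K fs)
    {C0 CB Cc W r s t E' : ℕ} {x y z a b c a' b' c' : ℤ}
    (hC0 : Rp (fs ++ ds) C0 (fun h => (h.c : ℤ)))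
    (hCB : Rp (fs ++ ds) CB (fun _ => 2 ^ 95 - 1))
    (hCc : Rp (fs ++ ds) Cc (fun h => -dz h a' b' c'))
    (hW : Rp (fs ++ ds) W (fun h => dz h a b c)) (hE : Rp (fs ++ ds) E' (fun h => dz h x y z))
    (hr : r < 2 ^ 24) (hs : s < 2 ^ 24) (ht : t < 2 ^ 12)
    (hx : |x| ≤ 65536) (hy : |y| ≤ 65536) (hz : |z| ≤ 65536)
    (ha : |a| ≤ 65536) (hb : |b| ≤ 65536) (hc : |c| ≤ 65536)
    (ha' : |a'| ≤ 2 ^ 25) (hb' : |b'| ≤ 2 ^ 25) (hc' : |c'| ≤ 2 ^ 25)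
    (hm : ∀ g, g < fs.length → (uX CB C0 Cc W r s t E').testBit (96 * g + 95) = true) :
    Lifts (KS K) (rv a b c) ((1 / ((4096 : ℕ) : ℝ)) • rv a' b' c')
      (((r : ℝ) / (4096 : ℕ)) • rv x y z) := by
  have ht' : t ≤ 4096 := by omega
  have hX : Rp fs (uX CB C0 Cc W r s t E')
      (fun h => 2 ^ 95 + (-1 + (4096 * (4096 - t) : ℤ) * h.c - 4096 * dz h a' b' c' +
        4096 * s * dz h a b c + (t * r : ℕ) * dz h x y z)) := by
    have h1 := (((hCB.add (hC0.mul (4096 * (4096 - t)))).add ((hCc.add (hW.mul s)).mul 4096)).add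
      (hE.mul (t * r))).pre
    refine h1.congr (fun f _ => ?_)
    push_cast [Nat.cast_sub ht']
    ring
  have hbd : ∀ f ∈ fs, -2 ^ 95 ≤ (-1 + (4096 * (4096 - t) : ℤ) * f.c - 4096 * dz f a' b' c' +
        4096 * s * dz f a b c + (t * r : ℕ) * dz f x y z) ∧
      (-1 + (4096 * (4096 - t) : ℤ) * f.c - 4096 * dz f a' b' c' +
        4096 * s * dz f a b c + (t * r : ℕ) * dz f x y z) < 2 ^ 95 := by
    intro f hf
    have h1 := dz_bd (hF.bd f hf) hx hy hz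
    have h2 := dz_bd (hF.bd f hf) ha hb hc
    have h2' := dz_bd (hF.bd f hf) ha' hb' hc'
    have htr : ((t * r : ℕ) : ℤ) ≤ 2 ^ 36 := by
      have : t * r ≤ 2 ^ 12 * 2 ^ 24 := Nat.mul_le_mul ht.le hr.le
      have h' : t * r ≤ 2 ^ 36 := this.trans (by norm_num)
      exact_mod_cast h'
    have h3 : |((t * r : ℕ) : ℤ) * dz f x y z| ≤ 2 ^ 36 * (3 * 2 ^ 34 * 65536) := by
      rw [abs_mul]
      exact mul_le_mul (by rw [Nat.abs_cast]; exact htr) h1 (abs_nonneg _) (by norm_num)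
    have h4 : |4096 * (s : ℤ) * dz f a b c| ≤ 2 ^ 36 * (3 * 2 ^ 34 * 65536) := by
      rw [abs_mul]
      refine mul_le_mul ?_ h2 (abs_nonneg _) (by norm_num)
      rw [abs_of_nonneg (by positivity)]
      have : (s : ℤ) < 2 ^ 24 := by exact_mod_cast hs
      norm_num at this ⊢; linarith
    have h4' : |4096 * dz f a' b' c'| ≤ 4096 * (3 * 2 ^ 34 * 2 ^ 25) := by
      rw [abs_mul]
      exact mul_le_mul (by norm_num) h2' (abs_nonneg _) (by norm_num)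
    have h7 : (0 : ℤ) ≤ 4096 - t := by
      have : (t : ℤ) ≤ 4096 := by exact_mod_cast ht'
      linarith
    have h5 : (4096 * (4096 - t) : ℤ) * f.c ≤ (4096 * 4096) * 2 ^ 56 := by
      refine mul_le_mul ?_ (by exact_mod_cast (hF.bd f hf).c.le) (by positivity)
        (by norm_num)
      have : (0 : ℤ) ≤ t := by positivity
      linarith
    have h6 : 0 ≤ (4096 * (4096 - t) : ℤ) * f.c := by positivity
    rw [abs_le] at h3 h4 h4'
    constructor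
    · norm_num at h3 h4 h4' h5 ⊢; linarith [h3.1, h4.1, h4'.2]
    · norm_num at h3 h4 h4' h5 ⊢; linarith [h3.2, h4.2, h4'.1]
  have hsg := sign_set hX hbd hm
  set θ : ℝ := (t : ℝ) / 4096 with hθ
  have ht1 : (t : ℝ) < 4096 := by
    have : t < 4096 := by omega
    exact_mod_cast this
  have hθ1 : θ < 1 := by rw [hθ, div_lt_one (by norm_num)]; exact ht1
  have h1θ : 0 < 1 - θ := by linarith
  have hR : ((4096 : ℕ) : ℝ) = 4096 := by norm_num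
  rw [hR]
  set P : E := ((r : ℝ) / 4096) • rv x y z with hP
  set q : E := (1 / (4096 : ℝ)) • rv a' b' c' with hq
  refine ⟨(s : ℝ) / 4096, θ, by positivity, by positivity, hθ1,
    (1 / (1 - θ)) • (q - ((s : ℝ) / 4096) • rv a b c - θ • P), hF.mem_int ?_, ?_⟩
  · intro f hf
    have h1 : (0 : ℤ) ≤ (-1 + (4096 * (4096 - t) : ℤ) * f.c - 4096 * dz f a' b' c' +
        4096 * s * dz f a b c + (t * r : ℕ) * dz f x y z) := hsg f hf
    have h2 : (0 : ℝ) ≤ (-1 + (4096 * (4096 - t)) * f.c - 4096 * dz f a' b' c' +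
        4096 * s * dz f a b c + (t * r) * dz f x y z) := by
      have := h1
      push_cast at this
      exact_mod_cast this
    have e0 : nr f ⬝ᵥ ((1 / (1 - θ)) • (q - ((s : ℝ) / 4096) • rv a b c - θ • P)) =
        1 / (1 - θ) * (1 / (4096 : ℝ) * (dz f a' b' c') - (s : ℝ) / 4096 * (dz f a b c) -
        θ * ((r : ℝ) / 4096 * (dz f x y z))) := by
      simp only [hq, hP, dotProduct_smul, dotProduct_sub, nr_dot, smul_eq_mul]
    rw [e0, one_div (1 - θ), inv_mul_lt_iff₀ h1θ]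
    have h3 : 1 / (4096 : ℝ) * (dz f a' b' c') - (s : ℝ) / 4096 * (dz f a b c) -
        θ * ((r : ℝ) / 4096 * (dz f x y z)) - (1 - θ) * f.c =
        -((4096 * (4096 - t) * f.c - 4096 * dz f a' b' c' + 4096 * s * dz f a b c +
          (t * r) * dz f x y z) / (4096 * 4096)) := by
      rw [hθ]
      field_simp
      ring
    have h4 : 0 < (4096 * (4096 - t) * f.c - 4096 * dz f a' b' c' + 4096 * s * dz f a b c +
          (t * r) * dz f x y z : ℝ) / (4096 * 4096) := div_pos (by linarith) (by positivity)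
    linarith
  · have e1 : ∀ v : E, (1 - θ) • ((1 / (1 - θ)) • v) = v := by
      intro v
      rw [smul_smul, mul_one_div_cancel h1θ.ne', one_smul]
    rw [e1]
    abel

/-! ### the context -/

/-- the data of a cover are correct -/
structure Cu (n Q nf nd nF M1 CL CS : ℕ) (WV FV : ℕ → ℕ) (W TF : ℕ) (K : List ℕ)
    (fs ds : List FD) (L : Set E) (CB C0 : ℕ) (VV VC VP : ℕ → ℕ) (G : List UG) : Prop
    extends Cd Q nf nd nF M1 CL CS WV FV W TF K fs ds L where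
  hC0 : Rp (fs ++ ds) C0 (fun h => (h.c : ℤ))
  hCB : Rp (fs ++ ds) CB (fun _ => 2 ^ 95 - 1)
  hVV : ∀ p, Rp (fs ++ ds) (VV p) (fun h => -dz h (ix p) (iy p) (iz p))
  hVC : ∀ p, Rp (fs ++ ds) (VC p) (fun h => -dz h (gx p) (gy p) (gz p))
  hVP : ∀ p, Rp (fs ++ ds) (VP p) (fun h => dz h (ix p) (iy p) (iz p))
  unl : ∀ g ∈ G, ∀ a < n, ∃ x ∈ L, x ∈ convexHull ℝ (cg g.m g.C) ∧ ¬Serve L x (-(rp (pt g.W a)))

/-- everything beyond the corners is dead -/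
def Wt (L : Set E) (r1 r2 r3 : ℕ) (x1 y1 z1 x2 y2 z2 x3 y3 z3 : ℤ) : Prop :=
  ∃ S, Dead L S ∧ ((r1 : ℝ) / (4096 : ℕ)) • rv x1 y1 z1 ∈ S ∧
    ((r2 : ℝ) / (4096 : ℕ)) • rv x2 y2 z2 ∈ S ∧ ((r3 : ℝ) / (4096 : ℕ)) • rv x3 y3 z3 ∈ S

section cones

variable {n Q nf nd nF M1 CL CS : ℕ} {WV FV : ℕ → ℕ} {W TF : ℕ} {K : List ℕ}
    {fs ds : List FD} {L : Set E} {CB C0 : ℕ} {VV VC VP : ℕ → ℕ} {G : List UG}
    {J : Set (E × Set E)}

lemma Cd.zeroL (h : Cd Q nf nd nF M1 CL CS WV FV W TF K fs ds L) : (0 : E) ∈ L :=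
  convexHull_min h.sub h.conv h.fac.zero

lemma Cd.ne (h : Cd Q nf nd nF M1 CL CS WV FV W TF K fs ds L) : (KS K).Nonempty := by
  have hint := h.fac.zero_int
  rw [nonempty_iff_ne_empty]
  intro he
  rw [he] at hint
  simp at hint

lemma uL_sound (h : Cu n Q nf nd nF M1 CL CS WV FV W TF K fs ds L CB C0 VV VC VP G)
    {E1 E2 E3 : ℕ} {x1 y1 z1 x2 y2 z2 x3 y3 z3 : ℤ} (v1 : V3 (fs ++ ds) 65536 E1 x1 y1 z1)
    (v2 : V3 (fs ++ ds) 65536 E2 x2 y2 z2) (v3 : V3 (fs ++ ds) 65536 E3 x3 y3 z3)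
    {r1 r2 r3 p : ℕ} (hr1 : r1 < 2 ^ 24) (hr2 : r2 < 2 ^ 24) (hr3 : r3 < 2 ^ 24)
    {k : ℕ → Bool} : ∀ (m C S : ℕ), uL M1 CB C0 VC (VP p) r1 r2 r3 E1 E2 E3 k m C S = true →
    (∀ i < m, Lifts (KS K) (rp p) (gp (C / 2 ^ (78 * i))) (((r1 : ℝ) / (4096 : ℕ)) • rv x1 y1 z1) ∧
      Lifts (KS K) (rp p) (gp (C / 2 ^ (78 * i))) (((r2 : ℝ) / (4096 : ℕ)) • rv x2 y2 z2) ∧
      Lifts (KS K) (rp p) (gp (C / 2 ^ (78 * i))) (((r3 : ℝ) / (4096 : ℕ)) • rv x3 y3 z3)) ∧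
    ∃ S', k S' = true := by
  intro m
  induction m with
  | zero =>
    intro C S ht
    exact ⟨fun i hi => absurd hi (Nat.not_lt_zero i), S, ht⟩
  | succ m ih =>
    intro C S ht
    obtain ⟨ht, h1⟩ := br ht
    obtain ⟨h2, h3⟩ := ih _ _ ht
    refine ⟨?_, h3⟩
    intro i hi
    cases i with
    | succ i =>
      have h4 := h2 i (by omega)
      have e : Nat.shiftRight C 78 / 2 ^ (78 * i) = C / 2 ^ (78 * (i + 1)) := by
        rw [nshr, Nat.div_div_eq_div_mul, ← pow_add, show 78 + 78 * i = 78 * (i + 1) by ring]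
      rw [e] at h4
      exact h4
    | zero =>
      rw [mul_zero, pow_zero, Nat.div_one]
      have h1' := (beq_iff _ _).1 h1
      rw [nland, nland, nland, h.hM1] at h1'
      have hc := set_of_mask h1'
      have b1 : |ix p| ≤ 65536 := (ix_bd _).trans (by norm_num)
      have b2 : |iy p| ≤ 65536 := (iy_bd _).trans (by norm_num)
      have b3 : |iz p| ≤ 65536 := (iz_bd _).trans (by norm_num)
      obtain ⟨a1, a2, a3⟩ := v1.bd
      obtain ⟨q1, q2, q3⟩ := v2.bd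
      obtain ⟨o1, o2, o3⟩ := v3.bd
      have k24 : ∀ s o : ℕ, f24 s o < 2 ^ 24 := fun s o =>
        lt_of_le_of_lt (land_le _ _) (by norm_num)
      have k12 : ∀ s o : ℕ, f12 s o < 2 ^ 12 := fun s o =>
        lt_of_le_of_lt (land_le _ _) (by norm_num)
      have u1 := uX_sound (a := ix p) (b := iy p) (c := iz p) (a' := gx C) (b' := gy C)
        (c' := gz C) h.fac h.hC0 h.hCB (h.hVC C) (h.hVP p) v1.rep hr1 (k24 S 0) (k12 S 24)
          a1 a2 a3 b1 b2 b3 (gx_bd C) (gy_bd C) (gz_bd C) (fun g hg => by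
            have := hc g hg
            simp only [Nat.testBit_and, Bool.and_eq_true] at this
            exact this.1.1)
      have u2 := uX_sound (a := ix p) (b := iy p) (c := iz p) (a' := gx C) (b' := gy C)
        (c' := gz C) h.fac h.hC0 h.hCB (h.hVC C) (h.hVP p) v2.rep hr2 (k24 S 36) (k12 S 60)
          q1 q2 q3 b1 b2 b3 (gx_bd C) (gy_bd C) (gz_bd C) (fun g hg => by
            have := hc g hg
            simp only [Nat.testBit_and, Bool.and_eq_true] at this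
            exact this.1.2)
      have u3 := uX_sound (a := ix p) (b := iy p) (c := iz p) (a' := gx C) (b' := gy C)
        (c' := gz C) h.fac h.hC0 h.hCB (h.hVC C) (h.hVP p) v3.rep hr3 (k24 S 72) (k12 S 96)
          o1 o2 o3 b1 b2 b3 (gx_bd C) (gy_bd C) (gz_bd C) (fun g hg => by
            have := hc g hg
            simp only [Nat.testBit_and, Bool.and_eq_true] at this
            exact this.2)
      exact ⟨u1, u2, u3⟩

lemma gG_true {k : ℕ → ℕ → ℕ → Bool} : ∀ {l : List UG} {i : ℕ}, gG k l i = true →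
    ∃ g ∈ l, k g.m g.C g.W = true := by
  intro l
  induction l with
  | nil => intro i h; exact absurd (show false = true from h) Bool.false_ne_true
  | cons g l ih =>
    intro i h
    rcases nrc h with h | ⟨j, h⟩
    · exact ⟨g, by simp, by cases g; exact h⟩
    · obtain ⟨g', hg, hk⟩ := ih h
      exact ⟨g', List.mem_cons_of_mem _ hg, hk⟩

lemma gK_true {k : ℕ → ℕ → ℕ → Bool} : ∀ {l : List KG} {i : ℕ}, gK k l i = true →
    ∃ g ∈ l, k g.y g.m g.C = true := by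
  intro l
  induction l with
  | nil => intro i h; exact absurd (show false = true from h) Bool.false_ne_true
  | cons g l ih =>
    intro i h
    rcases nrc h with h | ⟨j, h⟩
    · exact ⟨g, by simp, by cases g; exact h⟩
    · obtain ⟨g', hg, hk⟩ := ih h
      exact ⟨g', List.mem_cons_of_mem _ hg, hk⟩

lemma lifts_zero {K : Set E} (h0 : (0 : E) ∈ interior (convexHull ℝ K)) (w z : E) :
    Lifts K w 0 z :=
  ⟨0, 0, le_rfl, le_rfl, one_pos, 0, h0, by simp⟩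

lemma wU_sound (h : Cu n Q nf nd nF M1 CL CS WV FV W TF K fs ds L CB C0 VV VC VP G)
    {E1 E2 E3 : ℕ} {x1 y1 z1 x2 y2 z2 x3 y3 z3 : ℤ} (v1 : V3 (fs ++ ds) 65536 E1 x1 y1 z1)
    (v2 : V3 (fs ++ ds) 65536 E2 x2 y2 z2) (v3 : V3 (fs ++ ds) 65536 E3 x3 y3 z3)
    {r1 r2 r3 S : ℕ} (hr1 : r1 < 2 ^ 24) (hr2 : r2 < 2 ^ 24) (hr3 : r3 < 2 ^ 24)
    {k : ℕ → Bool} (ht : wU n M1 CB C0 VC VP G r1 r2 r3 E1 E2 E3 S k = true) :
    Wt L r1 r2 r3 x1 y1 z1 x2 y2 z2 x3 y3 z3 ∧ ∃ S', k S' = true := by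
  obtain ⟨g, hg, ht⟩ := gG_true ht
  obtain ⟨ht, h1⟩ := br ht
  have ha := Nat.le_of_ble_eq_true h1
  obtain ⟨h2, h3⟩ := uL_sound h v1 v2 v3 hr1 hr2 hr3 _ _ _ ht
  refine ⟨⟨_, dead_lifts h.conv h.sub h.zeroL (h.unl g hg _ ha), ?_, ?_, ?_⟩, h3⟩
  · rintro c (rfl | ⟨i, hi, rfl⟩)
    · exact lifts_zero h.fac.zero_int _ _
    · exact (h2 i hi).1
  · rintro c (rfl | ⟨i, hi, rfl⟩)
    · exact lifts_zero h.fac.zero_int _ _
    · exact (h2 i hi).2.1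
  · rintro c (rfl | ⟨i, hi, rfl⟩)
    · exact lifts_zero h.fac.zero_int _ _
    · exact (h2 i hi).2.2

lemma wD_sound (h : Cd Q nf nd nF M1 CL CS WV FV W TF K fs ds L)
    {E1 E2 E3 : ℕ} {x1 y1 z1 x2 y2 z2 x3 y3 z3 : ℤ} (v1 : V3 (fs ++ ds) 65536 E1 x1 y1 z1)
    (v2 : V3 (fs ++ ds) 65536 E2 x2 y2 z2) (v3 : V3 (fs ++ ds) 65536 E3 x3 y3 z3)
    {r1 r2 r3 S : ℕ} (hr1 : r1 < 2 ^ 24) (hr2 : r2 < 2 ^ 24) (hr3 : r3 < 2 ^ 24)
    {k : ℕ → Bool} (ht : wD nf nd CL r1 r2 r3 E1 E2 E3 S k = true) :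
    Wt L r1 r2 r3 x1 y1 z1 x2 y2 z2 x3 y3 z3 ∧ ∃ S', k S' = true := by
  obtain ⟨ht, h1⟩ := br ht
  obtain ⟨ht, hd⟩ := br ht
  refine ⟨?_, _, ht⟩
  have hgn := Nat.le_of_ble_eq_true h1
  have hg' : nf + f6 S 0 < (fs ++ ds).length := by
    rw [List.length_append, h.lenf, h.lend]
    exact Nat.add_lt_add_left hgn nf
  have hgd : (fs ++ ds)[nf + f6 S 0] ∈ ds := by
    rw [List.getElem_append_right (by rw [h.lenf]; omega)]
    exact List.getElem_mem _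
  have hm : (39614081257132168796771975168 * 2 ^ (96 * (nf + f6 S 0))).testBit
      (96 * (nf + f6 S 0) + 95) = true := by
    have e : 39614081257132168796771975168 * 2 ^ (96 * (nf + f6 S 0)) =
        2 ^ (96 * (nf + f6 S 0) + 95) := by
      rw [pow_add]
      norm_num [mul_comm]
    rw [e]
    exact Nat.testBit_two_pow_self
  have hd' := (beq_iff _ _).1 hd
  rw [nland, nland, nland, nshl, nmul, nadd, nadd, nadd, nadd, nmul, nmul, nmul] at hd'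
  have hc := land_mask hd' hm
  simp only [Nat.testBit_and, Bool.and_eq_true] at hc
  obtain ⟨a1, a2, a3⟩ := v1.bd
  obtain ⟨q1, q2, q3⟩ := v2.bd
  obtain ⟨o1, o2, o3⟩ := v3.bd
  exact ⟨_, h.dead _ hgd,
    dt_sound h.bd hg' (by norm_num) le_rfl h.hCL v1.rep hr1 a1 a2 a3 hc.1.1,
    dt_sound h.bd hg' (by norm_num) le_rfl h.hCL v2.rep hr2 q1 q2 q3 hc.1.2,
    dt_sound h.bd hg' (by norm_num) le_rfl h.hCL v3.rep hr3 o1 o2 o3 hc.2⟩

lemma shd_sound (h : Cd Q nf nd nF M1 CL CS WV FV W TF K fs ds L)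
    {E1 E2 E3 : ℕ} {x1 y1 z1 x2 y2 z2 x3 y3 z3 : ℤ} (v1 : V3 (fs ++ ds) 65536 E1 x1 y1 z1)
    (v2 : V3 (fs ++ ds) 65536 E2 x2 y2 z2) (v3 : V3 (fs ++ ds) 65536 E3 x3 y3 z3)
    {N p r1 r2 r3 t1 t2 t3 : ℕ}
    (hN : Rp (fs ++ ds) N (fun h => -((4096 : ℕ) * dz h (ix p) (iy p) (iz p))))
    (ht1 : t1 < 2 ^ 20) (ht2 : t2 < 2 ^ 20) (ht3 : t3 < 2 ^ 20) {k : Bool}
    (ht : shd Q M1 CS N r1 r2 r3 t1 t2 t3 E1 E2 E3 k = true) :
    (Shd (KS K) (rp p) (((r1 : ℝ) / (4096 : ℕ)) • rv x1 y1 z1) ∧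
    Shd (KS K) (rp p) (((r2 : ℝ) / (4096 : ℕ)) • rv x2 y2 z2) ∧
    Shd (KS K) (rp p) (((r3 : ℝ) / (4096 : ℕ)) • rv x3 y3 z3)) ∧ k = true := by
  obtain ⟨ht, h1⟩ := br ht
  obtain ⟨ht, h2⟩ := br ht
  refine ⟨?_, ht⟩
  have h1' := Nat.le_of_ble_eq_true h1
  obtain ⟨q1, q2, q3⟩ := le_lor3 (Nat.mul t1 r1) (Nat.mul t2 r2) (Nat.mul t3 r3)
  have key : ∀ {r : ℕ}, r ≤ 8796093022207 → r < 2 ^ 43 := fun hr =>
    lt_of_le_of_lt hr (by norm_num)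
  have hd' := (beq_iff _ _).1 h2
  rw [nland, nland, nland, h.hM1] at hd'
  have hc := set_of_mask hd'
  have b1 : |ix p| ≤ 65536 := (ix_bd _).trans (by norm_num)
  have b2 : |iy p| ≤ 65536 := (iy_bd _).trans (by norm_num)
  have b3 : |iz p| ≤ 65536 := (iz_bd _).trans (by norm_num)
  obtain ⟨a1, a2, a3⟩ := v1.bd
  obtain ⟨c1, c2, c3⟩ := v2.bd
  obtain ⟨o1, o2, o3⟩ := v3.bd
  refine ⟨?_, ?_, ?_⟩
  · refine sh_soundQ h.fac h.Q1 h.Q2 (by norm_num) le_rfl h.hCS hN v1.rep ht1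
      (key (q1.trans h1')) a1 a2 a3 b1 b2 b3 (fun g hg => ?_)
    have := hc g hg
    simp only [Nat.testBit_and, Bool.and_eq_true] at this
    exact this.1.1
  · refine sh_soundQ h.fac h.Q1 h.Q2 (by norm_num) le_rfl h.hCS hN v2.rep ht2
      (key (q2.trans h1')) c1 c2 c3 b1 b2 b3 (fun g hg => ?_)
    have := hc g hg
    simp only [Nat.testBit_and, Bool.and_eq_true] at this
    exact this.1.2
  · refine sh_soundQ h.fac h.Q1 h.Q2 (by norm_num) le_rfl h.hCS hN v3.rep ht3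
      (key (q3.trans h1')) o1 o2 o3 b1 b2 b3 (fun g hg => ?_)
    have := hc g hg
    simp only [Nat.testBit_and, Bool.and_eq_true] at this
    exact this.2

lemma wN_sound (h : Cd Q nf nd nF M1 CL CS WV FV W TF K fs ds L)
    {E1 E2 E3 : ℕ} {x1 y1 z1 x2 y2 z2 x3 y3 z3 : ℤ} (v1 : V3 (fs ++ ds) 65536 E1 x1 y1 z1)
    (v2 : V3 (fs ++ ds) 65536 E2 x2 y2 z2) (v3 : V3 (fs ++ ds) 65536 E3 x3 y3 z3)
    {r1 r2 r3 S : ℕ} {k : ℕ → Bool} (ht : wN Q nF M1 CS FV r1 r2 r3 E1 E2 E3 S k = true) :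
    Wt L r1 r2 r3 x1 y1 z1 x2 y2 z2 x3 y3 z3 ∧ ∃ S', k S' = true := by
  obtain ⟨ht, h1⟩ := br ht
  have hf := Nat.le_of_ble_eq_true h1
  have k20 : ∀ s o : ℕ, f20 s o < 2 ^ 20 := fun s o =>
    lt_of_le_of_lt (land_le _ _) (by norm_num)
  obtain ⟨⟨s1, s2, s3⟩, ht⟩ := shd_sound h v1 v2 v3 (h.hF _) (k20 _ _) (k20 _ _) (k20 _ _) ht
  exact ⟨⟨_, dead_shd h.conv h.sub h.ne h.zeroL (h.out _ hf), s1, s2, s3⟩, _, ht⟩

lemma ltr_sound (h : Cd Q nf nd nF M1 CL CS WV FV W TF K fs ds L)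
    {E1 E2 E3 : ℕ} {x1 y1 z1 x2 y2 z2 x3 y3 z3 : ℤ} (v1 : V3 (fs ++ ds) 65536 E1 x1 y1 z1)
    (v2 : V3 (fs ++ ds) 65536 E2 x2 y2 z2) (v3 : V3 (fs ++ ds) 65536 E3 x3 y3 z3)
    {a r1 r2 r3 S1 S2 S3 : ℕ} (ha : a < n) (hr1 : r1 < 2 ^ 24) (hr2 : r2 < 2 ^ 24)
    (hr3 : r3 < 2 ^ 24) {k : Bool}
    (ht : ltr M1 CL (WV a) r1 r2 r3 E1 E2 E3 S1 S2 S3 k = true) :
    (∀ x ∈ L, x ∈ convexHull ℝ {0, ((r1 : ℝ) / (4096 : ℕ)) • rv x1 y1 z1,
      ((r2 : ℝ) / (4096 : ℕ)) • rv x2 y2 z2, ((r3 : ℝ) / (4096 : ℕ)) • rv x3 y3 z3} →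
      Phi (Wf n (Wl n W)) J L x) ∧ 0 < r1 ∧ 0 < r2 ∧ 0 < r3 ∧ k = true := by
  obtain ⟨ht, h3⟩ := br ht
  obtain ⟨ht, h2⟩ := br ht
  obtain ⟨ht, h1⟩ := br ht
  obtain ⟨ht, h4⟩ := br ht
  have keys : ∀ s : ℕ, Nat.land s 262143 < 2 ^ 24 := fun s =>
    lt_of_le_of_lt (land_le s _) (by norm_num)
  exact ⟨lit_core h v1 v2 v3 ha hr1 hr2 hr3 (keys _) (keys _) (keys _) h4,
    Nat.le_of_ble_eq_true h1, Nat.le_of_ble_eq_true h2, Nat.le_of_ble_eq_true h3, ht⟩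

end cones

end Pool.Agent.Lib.MP_5e7226_co.C8.TF
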