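import Pool.Agent.Lib.MP_5e7226_co.C8.TFUS

/-!
# Soundness of the fast evaluation with facts, second part: children and trees of cones
-/

set_option autoImplicit false

open Set

namespace Pool.Agent.Lib.MP_5e7226_co.C8.TF

open GB

/-- `V3` and the second number -/
structure V4 (hs : List FD) (bd U' E' : ℕ) (x y z : ℤ) : Prop extends V3 hs bd E' x y z where
  dec : (U' : ℤ) ≡ x + y * 2 ^ 26 + z * 2 ^ 52 [ZMOD 2 ^ 78]

lemma V4.comb {hs : List FD} {b b' U V E' F' : ℕ} {x y z x' y' z' : ℤ}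
    (h : V4 hs b U E' x y z) (h' : V4 hs b' V F' x' y' z') (α β : ℕ) :
    V4 hs (α * b + β * b') (α * U + β * V) (α * E' + β * F') (α * x + β * x')
      (α * y + β * y') (α * z + β * z') := by
  refine ⟨h.toV3.comb h'.toV3 α β, ?_⟩
  have h1 := (h.dec.mul_left (α : ℤ)).add (h'.dec.mul_left (β : ℤ))
  have e : (α : ℤ) * (x + y * 2 ^ 26 + z * 2 ^ 52) + β * (x' + y' * 2 ^ 26 + z' * 2 ^ 52) =
      (α * x + β * x') + (α * y + β * y') * 2 ^ 26 + (α * z + β * z') * 2 ^ 52 := by ring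
  rw [e] at h1
  push_cast
  exact h1

/-- a corner is a point of the cell -/
lemma crn_dec {hs : List FD} {b U' E' r p : ℕ} {x y z : ℤ} (h : V4 hs b U' E' x y z)
    (hr : r * b ≤ 33554431) (he : (151115729703628494077952 + r * U') % 2 ^ 78 = p % 2 ^ 78) :
    gx p = r * x ∧ gy p = r * y ∧ gz p = r * z := by
  have hrb : (r : ℤ) * b ≤ 33554431 := by exact_mod_cast hr
  have key : ∀ t : ℤ, |t| ≤ b → -33554431 ≤ (r : ℤ) * t ∧ (r : ℤ) * t ≤ 33554431 := by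
    intro t ht
    have h1 : |(r : ℤ) * t| ≤ r * b := by
      rw [abs_mul, Nat.abs_cast]; exact mul_le_mul_of_nonneg_left ht (by positivity)
    rw [abs_le] at h1
    constructor <;> linarith [h1.1, h1.2]
  obtain ⟨a1, a2⟩ := key x h.bx
  obtain ⟨b1, b2⟩ := key y h.by'
  obtain ⟨c1, c2⟩ := key z h.bz
  obtain ⟨a, ha⟩ : ∃ a : ℕ, (a : ℤ) = 33554432 + r * x := ⟨(33554432 + r * x).toNat, by
    rw [Int.toNat_of_nonneg (by linarith)]⟩
  obtain ⟨b', hb⟩ : ∃ b : ℕ, (b : ℤ) = 33554432 + r * y := ⟨(33554432 + r * y).toNat, by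
    rw [Int.toNat_of_nonneg (by linarith)]⟩
  obtain ⟨c', hc⟩ : ∃ c : ℕ, (c : ℤ) = 33554432 + r * z := ⟨(33554432 + r * z).toNat, by
    rw [Int.toNat_of_nonneg (by linarith)]⟩
  have ha' : a < 67108864 := by
    have : (a : ℤ) < 67108864 := by rw [ha]; linarith
    exact_mod_cast this
  have hb' : b' < 67108864 := by
    have : (b' : ℤ) < 67108864 := by rw [hb]; linarith
    exact_mod_cast this
  have hc' : c' < 67108864 := by
    have : (c' : ℤ) < 67108864 := by rw [hc]; linarith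
    exact_mod_cast this
  have e : p % 2 ^ 78 = a + b' * 67108864 + c' * 4503599627370496 := by
    rw [← he]
    have h2 : (151115729703628494077952 + r * U') ≡ a + b' * 67108864 + c' * 4503599627370496
        [MOD 2 ^ 78] := by
      rw [← Int.natCast_modEq_iff]
      push_cast
      have h3 := (h.dec.mul_left (r : ℤ)).add_left 151115729703628494077952
      have h4 : (151115729703628494077952 : ℤ) + r * (x + y * 2 ^ 26 + z * 2 ^ 52) =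
          a + b' * 67108864 + c' * 4503599627370496 := by
        rw [ha, hb, hc]; ring
      rw [h4] at h3
      exact h3
    rw [h2]
    apply Nat.mod_eq_of_lt
    omega
  have e1 : p % 2 ^ 26 = a := by omega
  have e2 : p / 2 ^ 26 % 2 ^ 26 = b' := by omega
  have e3 : p / 2 ^ 52 % 2 ^ 26 = c' := by omega
  refine ⟨?_, ?_, ?_⟩
  · rw [gx, e1, ha]; ring
  · rw [gy, e2, hb]; ring
  · rw [gz, e3, hc]; ring

lemma crn_sound {hs : List FD} {b U' E' m C r i : ℕ} {x y z : ℤ} (h : V4 hs b U' E' x y z)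
    (ht : crn m C b U' r i = true) :
    ((r : ℝ) / (4096 : ℕ)) • rv x y z ∈ cg m C := by
  obtain ⟨ht, h1⟩ := br ht
  obtain ⟨h3, h2⟩ := br ht
  have h1' := Nat.le_of_ble_eq_true h1
  have h2' := Nat.le_of_ble_eq_true h2
  have h3' := (beq_iff _ _).1 h3
  refine Or.inr ⟨i, h2', ?_⟩
  have e0 : ∀ v : ℕ, Nat.land v 302231454903657293676543 = v % 2 ^ 78 := fun v => land_full v 78
  rw [e0, e0, nshr, nmul, nmul, nadd] at h3'
  obtain ⟨g1, g2, g3⟩ := crn_dec h h1' h3'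
  rw [gp, g1, g2, g3]
  funext i
  fin_cases i <;> simp [rv] <;> ring

/-- the children -/
def JQ (J : List KG) : Set (E × Set E) := {k | ∃ g ∈ J, k = (rp g.y, cg g.m g.C)}

/-- the check of a tree of cones is correct -/
structure SndK (hs : List FD) (L : Set E) (Φ : E → Prop) (T : CT) : Prop where
  out : ∀ {b1 b2 b3 U1 U2 U3 E1 E2 E3 S : ℕ} {k : ℕ → Bool} {x1 y1 z1 x2 y2 z2 x3 y3 z3 : ℤ},
    V4 hs b1 U1 E1 x1 y1 z1 → V4 hs b2 U2 E2 x2 y2 z2 → V4 hs b3 U3 E3 x3 y3 z3 →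
    b1 ≤ 65536 → b2 ≤ 65536 → b3 ≤ 65536 → T b1 b2 b3 U1 U2 U3 E1 E2 E3 S k = true →
    Cn L Φ (rv x1 y1 z1) (rv x2 y2 z2) (rv x3 y3 z3) ∧ ∃ S', k S' = true

lemma cg_zero (m C : ℕ) : (0 : E) ∈ convexHull ℝ (cg m C) :=
  subset_convexHull ℝ _ (mem_insert _ _)

/-- an inner corner -/
lemma cg_smul {m C : ℕ} {r R : ℕ} {x : E} (hr : 0 < r) (hR : r ≤ R)
    (h : ((R : ℝ) / (4096 : ℕ)) • x ∈ cg m C) :
    ((r : ℝ) / (4096 : ℕ)) • x ∈ convexHull ℝ (cg m C) := by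
  have hr' : (0 : ℝ) < r := by exact_mod_cast hr
  have hR' : (r : ℝ) ≤ R := by exact_mod_cast hR
  have hR0 : (0 : ℝ) < R := by linarith
  have h2 := (convex_convexHull ℝ (cg m C)) (subset_convexHull ℝ _ h) (cg_zero m C)
    (a := (r : ℝ) / R) (b := 1 - (r : ℝ) / R) (by positivity)
    (by rw [sub_nonneg, div_le_one hR0]; exact hR') (by ring)
  rw [smul_zero, add_zero, smul_smul] at h2
  convert h2 using 2
  field_simp

section cones

variable {n Q nf nd nF M1 CL CS : ℕ} {WV FV : ℕ → ℕ} {W TF : ℕ} {K : List ℕ}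
    {fs ds : List FD} {L : Set E} {CB C0 : ℕ} {VV VC VP : ℕ → ℕ} {G : List UG}

lemma wk_sound (h : Cu n Q nf nd nF M1 CL CS WV FV W TF K fs ds L CB C0 VV VC VP G)
    (J : List KG) {b1 b2 b3 U1 U2 U3 E1 E2 E3 : ℕ} {k : ℕ → Bool}
    {x1 y1 z1 x2 y2 z2 x3 y3 z3 : ℤ}
    (v1 : V4 (fs ++ ds) b1 U1 E1 x1 y1 z1) (v2 : V4 (fs ++ ds) b2 U2 E2 x2 y2 z2)
    (v3 : V4 (fs ++ ds) b3 U3 E3 x3 y3 z3) (p1 : b1 ≤ 65536) (p2 : b2 ≤ 65536)
    (p3 : b3 ≤ 65536) : ∀ (m r1 r2 r3 S : ℕ), 0 < r1 → 0 < r2 → 0 < r3 → r1 < 2 ^ 24 →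
    r2 < 2 ^ 24 → r3 < 2 ^ 24 →
    wk n Q nf nd nF M1 CL CS CB C0 VV VC VP FV G J b1 b2 b3 U1 U2 U3 E1 E2 E3 k m r1 r2 r3 S =
      true →
    Out L (Phi (Wf n (Wl n W)) (JQ J) L) (rv x1 y1 z1) (rv x2 y2 z2) (rv x3 y3 z3)
      ((r1 : ℝ) / (4096 : ℕ)) ((r2 : ℝ) / (4096 : ℕ)) ((r3 : ℝ) / (4096 : ℕ)) ∧
      ∃ S', k S' = true := by
  have w1 := v1.toV3.mono p1
  have w2 := v2.toV3.mono p2
  have w3 := v3.toV3.mono p3
  have keyR : ∀ s o : ℕ, f24 s o < 2 ^ 24 := fun s o =>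
    lt_of_le_of_lt (land_le _ _) (by norm_num)
  have keyt : ∀ s o : ℕ, f20 s o < 2 ^ 20 := fun s o =>
    lt_of_le_of_lt (land_le _ _) (by norm_num)
  have le' : ∀ {r s : ℕ}, r ≤ s → (r : ℝ) / (4096 : ℕ) ≤ (s : ℝ) / (4096 : ℕ) := by
    intro r s hrs
    have : (r : ℝ) ≤ s := by exact_mod_cast hrs
    exact div_le_div_of_nonneg_right this (by norm_num)
  intro m
  induction m with
  | zero =>
    intro r1 r2 r3 S _ _ _ _ _ _ ht
    exact absurd (show false = true from ht) Bool.false_ne_true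
  | succ m ih =>
    intro r1 r2 r3 S q1 q2 q3 m1 m2 m3 ht
    have dn : (Wt L r1 r2 r3 x1 y1 z1 x2 y2 z2 x3 y3 z3 ∧ ∃ S', k S' = true) →
        Out L (Phi (Wf n (Wl n W)) (JQ J) L) (rv x1 y1 z1) (rv x2 y2 z2) (rv x3 y3 z3)
          ((r1 : ℝ) / (4096 : ℕ)) ((r2 : ℝ) / (4096 : ℕ)) ((r3 : ℝ) / (4096 : ℕ)) ∧
          ∃ S', k S' = true := by
      rintro ⟨⟨T, hT, t1, t2, t3⟩, hk⟩
      exact ⟨out_dead (posr q1) (posr q2) (posr q3) hT t1 t2 t3, hk⟩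
    rcases nrc ht with ht | ⟨t, ht⟩
    · exact dn (wD_sound h.toCd w1 w2 w3 m1 m2 m3 ht)
    rcases nrc ht with ht | ⟨t, ht⟩
    · exact dn (wN_sound h.toCd w1 w2 w3 ht)
    rcases nrc ht with ht | ⟨t, ht⟩
    · exact dn (wU_sound h w1 w2 w3 m1 m2 m3 ht)
    obtain ⟨g, hg, ht⟩ := gK_true ht
    obtain ⟨ht, l3⟩ := br ht
    obtain ⟨ht, l2⟩ := br ht
    obtain ⟨ht, l1⟩ := br ht
    obtain ⟨ht, c3⟩ := br ht
    obtain ⟨ht, c2⟩ := br ht
    obtain ⟨ht, c1⟩ := br ht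
    have l1' := Nat.le_of_ble_eq_true l1
    have l2' := Nat.le_of_ble_eq_true l2
    have l3' := Nat.le_of_ble_eq_true l3
    have hN : Rp (fs ++ ds) (Nat.mul 4096 (VV g.y))
        (fun h => -((4096 : ℕ) * dz h (ix g.y) (iy g.y) (iz g.y))) := by
      refine ((h.hVV g.y).mul 4096).congr (fun f _ => ?_)
      ring
    obtain ⟨⟨s1, s2, s3⟩, ht⟩ := shd_sound h.toCd w1 w2 w3 hN (keyt _ _) (keyt _ _) (keyt _ _) ht
    obtain ⟨ho, hk⟩ := ih _ _ _ _ (lt_of_lt_of_le q1 l1') (lt_of_lt_of_le q2 l2')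
      (lt_of_lt_of_le q3 l3') (keyR _ _) (keyR _ _) (keyR _ _) ht
    refine ⟨out_step (posr q1) (posr q2) (posr q3) (le' l1') (le' l2') (le' l3') ?_ ho, hk⟩
    rintro x hx ⟨z, hz, τ, hτ, hxe⟩ hxc
    have hz' := hull3 (shd_convex h.toCd.ne (rp g.y)) s1 s2 s3 hz
    have hx' := hx
    rw [hxe] at hx'
    refine Or.inr ⟨(rp g.y, cg g.m g.C), ⟨g, hg, rfl⟩,
      shd_mem h.conv h.sub h.toCd.zeroL hτ hx' hz', ?_⟩
    show x ∈ convexHull ℝ (cg g.m g.C)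
    have d1 := crn_sound v1 c1
    have d2 := crn_sound v2 c2
    have d3 := crn_sound v3 c3
    exact hull6 (convex_convexHull ℝ _) (cg_smul q1 l1' d1) (cg_smul q2 l2' d2)
      (cg_smul q3 l3' d3) (subset_convexHull ℝ _ d1) (subset_convexHull ℝ _ d2)
      (subset_convexHull ℝ _ d3) hxc

lemma tG_sound (h : Cu n Q nf nd nF M1 CL CS WV FV W TF K fs ds L CB C0 VV VC VP G)
    (J : List KG) :
    SndK (fs ++ ds) L (Phi (Wf n (Wl n W)) (JQ J) L)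
    (fun b1 b2 b3 U1 U2 U3 E1 E2 E3 =>
      tG n Q nf nd nF M1 CL CS CB C0 VV VC VP WV FV G J b1 b2 b3 U1 U2 U3 E1 E2 E3) := by
  refine ⟨?_⟩
  intro b1 b2 b3 U1 U2 U3 E1 E2 E3 S k x1 y1 z1 x2 y2 z2 x3 y3 z3 v1 v2 v3 p1 p2 p3 ht
  obtain ⟨ht, ha⟩ := br ht
  have keyr : ∀ s : ℕ, xr s < 2 ^ 24 := fun s => lt_of_le_of_lt (land_le s _) (by norm_num)
  obtain ⟨hin, q1, q2, q3, ht⟩ := ltr_sound (J := JQ J) h.toCd (v1.toV3.mono p1)
    (v2.toV3.mono p2) (v3.toV3.mono p3) (Nat.le_of_ble_eq_true ha) (keyr _) (keyr _) (keyr _) ht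
  obtain ⟨ho, hk⟩ := wk_sound h J v1 v2 v3 p1 p2 p3 _ _ _ _ _ q1 q2 q3 (keyr _) (keyr _)
    (keyr _) ht
  exact ⟨cn_base (posr q1) (posr q2) (posr q3) hin ho, hk⟩

lemma spu_true {b1 b2 U1 U2 E1 E2 al be : ℕ} {k : ℕ → ℕ → ℕ → Bool}
    (h : spu b1 b2 U1 U2 E1 E2 al be k = true) :
    al * b1 + be * b2 ≤ 65536 ∧
      k (al * b1 + be * b2) (al * U1 + be * U2) (al * E1 + be * E2) = true := by
  obtain ⟨h1, h2⟩ := br h
  exact ⟨Nat.le_of_ble_eq_true h2, h1⟩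

lemma squ_sound {hs : List FD} {Φ : E → Prop} {ih : CT} (hi : SndK hs L Φ ih)
    {x : ℕ → Bool} {e : ℕ} {b1 b2 b3 U1 U2 U3 E1 E2 E3 al be S : ℕ} {k : ℕ → Bool}
    {x1 y1 z1 x2 y2 z2 x3 y3 z3 : ℤ}
    (v1 : V4 hs b1 U1 E1 x1 y1 z1) (v2 : V4 hs b2 U2 E2 x2 y2 z2) (v3 : V4 hs b3 U3 E3 x3 y3 z3)
    (p1 : b1 ≤ 65536) (p2 : b2 ≤ 65536) (p3 : b3 ≤ 65536) (ha : 0 < al) (hb : 0 < be)
    (h : squ ih x e b1 b2 b3 U1 U2 U3 E1 E2 E3 al be S k = true) :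
    (Cn L Φ (rv x1 y1 z1) (rv x2 y2 z2) (rv x3 y3 z3) ∧ ∃ S', k S' = true) ∨
      ∃ t, x t = true := by
  have ha' : (0 : ℝ) < al := by exact_mod_cast ha
  have hb' : (0 : ℝ) < be := by exact_mod_cast hb
  rcases nrc h with h | ⟨t, h⟩
  · left
    obtain ⟨q, h⟩ := spu_true h
    have vm := v1.comb v2 al be
    obtain ⟨c1, S', h⟩ := hi.out v1 vm v3 p1 q p3 h
    obtain ⟨c2, h⟩ := hi.out vm v2 v3 q p2 p3 h
    rw [rv_comb] at c1 c2
    exact ⟨cn_split1 ha' hb' rfl c1 c2, h⟩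
  · rcases nrc h with h | ⟨t, h⟩
    · left
      obtain ⟨q, h⟩ := spu_true h
      have vm := v2.comb v3 al be
      obtain ⟨c1, S', h⟩ := hi.out v1 v2 vm p1 p2 q h
      obtain ⟨c2, h⟩ := hi.out v1 vm v3 p1 q p3 h
      rw [rv_comb] at c1 c2
      exact ⟨(cn_split1 ha' hb' rfl c1.rot.rot c2.rot.rot).rot, h⟩
    · rcases nrc h with h | ⟨t, h⟩
      · left
        obtain ⟨q, h⟩ := spu_true h
        have vm := v3.comb v1 al be
        obtain ⟨c1, S', h⟩ := hi.out v1 v2 vm p1 p2 q h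
        obtain ⟨c2, h⟩ := hi.out vm v2 v3 q p2 p3 h
        rw [rv_comb] at c1 c2
        exact ⟨(cn_split1 ha' hb' rfl c2.rot c1.rot).rot.rot, h⟩
      · exact Or.inr ⟨t, h⟩

lemma gu_sound {hs : List FD} {Φ : E → Prop}
    {TD TX TN : ℕ → ℕ → ℕ → ℕ → (ℕ → Bool) → Bool} {TK : CT} (hD : SndT hs L Φ TD)
    (hX : SndT hs L Φ TX) (hN : SndT hs L Φ TN) (hK : SndK hs L Φ TK)
    (m : ℕ) : SndK hs L Φ (gu TD TX TN TK m) := by
  induction m with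
  | zero =>
    refine ⟨?_⟩
    intro b1 b2 b3 U1 U2 U3 E1 E2 E3 S k x1 y1 z1 x2 y2 z2 x3 y3 z3 v1 v2 v3 p1 p2 p3 h
    exact absurd (show false = true from h) Bool.false_ne_true
  | succ m ih =>
    refine ⟨?_⟩
    intro b1 b2 b3 U1 U2 U3 E1 E2 E3 S k x1 y1 z1 x2 y2 z2 x3 y3 z3 v1 v2 v3 p1 p2 p3 h
    rcases nrc h with h | ⟨t, h⟩
    · exact hD.out (v1.toV3.mono p1) (v2.toV3.mono p2) (v3.toV3.mono p3) h
    rcases nrc h with h | ⟨t, h⟩
    · exact hN.out (v1.toV3.mono p1) (v2.toV3.mono p2) (v3.toV3.mono p3) h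
    rcases nrc h with h | ⟨t, h⟩
    · rcases nrc h with h | ⟨t, h⟩
      · exact hX.out (v1.toV3.mono p1) (v2.toV3.mono p2) (v3.toV3.mono p3) h
      · rcases squ_sound ih v1 v2 v3 p1 p2 p3 (Nat.succ_pos _) (Nat.succ_pos _) h with h | ⟨t, h⟩
        · exact h
        · exact absurd h Bool.false_ne_true
    · rcases squ_sound ih v1 v2 v3 p1 p2 p3 (Nat.succ_pos _) (Nat.succ_pos _) h with h | ⟨t, h⟩
      · exact h
      · exact hK.out v1 v2 v3 p1 p2 p3 h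

lemma v4_unit {hs : List FD} {U' E' : ℕ} {x y z : ℤ} (hE : Rp hs E' (fun h => dz h x y z))
    (hx : |x| ≤ 1) (hy : |y| ≤ 1) (hz : |z| ≤ 1)
    (hd : (U' : ℤ) ≡ x + y * 2 ^ 26 + z * 2 ^ 52 [ZMOD 2 ^ 78]) : V4 hs 1 U' E' x y z :=
  ⟨v3_unit hE hx hy hz, hd⟩

theorem u8_sound {hs : List FD} {Φ : E → Prop}
    {TD TX TN : ℕ → ℕ → ℕ → ℕ → (ℕ → Bool) → Bool} {TK : CT} (hD : SndT hs L Φ TD)
    (hX : SndT hs L Φ TX) (hN : SndT hs L Φ TN) (hK : SndK hs L Φ TK)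
    {BI C0 C1 C2 C3 D1 D2 D3 : ℕ} (hn : Nu hs BI C0 C1 C2 C3 D1 D2 D3)
    {S0 S1 S2 S3 S4 S5 S6 S7 : ℕ}
    (h : u8 TD TX TN TK C1 C2 C3 D1 D2 D3 S0 S1 S2 S3 S4 S5 S6 S7 = true) :
    ∀ x ∈ L, Φ x := by
  obtain ⟨h, k0⟩ := br h
  obtain ⟨h, k1⟩ := br h
  obtain ⟨h, k2⟩ := br h
  obtain ⟨h, k3⟩ := br h
  obtain ⟨h, k4⟩ := br h
  obtain ⟨h, k5⟩ := br h
  obtain ⟨k7, k6⟩ := br h
  have p1 : V4 hs 1 1 C1 1 0 0 := v4_unit (hn.hC1.congr (fun f _ => by simp [dz]))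
    (by norm_num) (by norm_num) (by norm_num) (by norm_num)
  have p2 : V4 hs 1 67108864 C2 0 1 0 := v4_unit (hn.hC2.congr (fun f _ => by simp [dz]))
    (by norm_num) (by norm_num) (by norm_num) (by norm_num)
  have p3 : V4 hs 1 4503599627370496 C3 0 0 1 := v4_unit (hn.hC3.congr (fun f _ => by simp [dz]))
    (by norm_num) (by norm_num) (by norm_num) (by norm_num)
  have m1 : V4 hs 1 302231454903657293676543 D1 (-1) 0 0 :=
    v4_unit (hn.hD1.congr (fun f _ => by simp [dz]))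
      (by norm_num) (by norm_num) (by norm_num) (by decide)
  have m2 : V4 hs 1 302231454903657226567680 D2 0 (-1) 0 :=
    v4_unit (hn.hD2.congr (fun f _ => by simp [dz]))
      (by norm_num) (by norm_num) (by norm_num) (by decide)
  have m3 : V4 hs 1 302231450400057666306048 D3 0 0 (-1) :=
    v4_unit (hn.hD3.congr (fun f _ => by simp [dz]))
      (by norm_num) (by norm_num) (by norm_num) (by decide)
  have l1 : (1 : ℕ) ≤ 65536 := by norm_num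
  have c0 := ((gu_sound hD hX hN hK 64).out p1 p2 p3 l1 l1 l1 k0).1
  have c1 := ((gu_sound hD hX hN hK 64).out m1 p2 p3 l1 l1 l1 k1).1
  have c2 := ((gu_sound hD hX hN hK 64).out p1 m2 p3 l1 l1 l1 k2).1
  have c3 := ((gu_sound hD hX hN hK 64).out m1 m2 p3 l1 l1 l1 k3).1
  have c4 := ((gu_sound hD hX hN hK 64).out p1 p2 m3 l1 l1 l1 k4).1
  have c5 := ((gu_sound hD hX hN hK 64).out m1 p2 m3 l1 l1 l1 k5).1
  have c6 := ((gu_sound hD hX hN hK 64).out p1 m2 m3 l1 l1 l1 k6).1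
  have c7 := ((gu_sound hD hX hN hK 64).out m1 m2 m3 l1 l1 l1 k7).1
  intro x hx
  have dec : ∀ a b c : ℝ, ∀ e1 e2 e3 : ℤ, x 0 = a * e1 → x 1 = b * e2 → x 2 = c * e3 →
      x = a • rv e1 0 0 + b • rv 0 e2 0 + c • rv 0 0 e3 := by
    intro a b c e1 e2 e3 h1 h2 h3
    funext i
    fin_cases i
    · simpa [rv] using h1
    · simpa [rv] using h2
    · simpa [rv] using h3
  have use : ∀ e1 e2 e3 : ℤ, ∀ a b c : ℝ, 0 ≤ a → 0 ≤ b → 0 ≤ c → x 0 = a * e1 → x 1 = b * e2 →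
      x 2 = c * e3 → Cn L Φ (rv e1 0 0) (rv 0 e2 0) (rv 0 0 e3) → Φ x := by
    intro e1 e2 e3 a b c ha hb hc h1 h2 h3 hcn
    have e := dec a b c e1 e2 e3 h1 h2 h3
    have hx' := hx
    rw [e] at hx' ⊢
    exact hcn a b c ha hb hc hx'
  rcases le_total 0 (x 0) with hx0 | hx0 <;> rcases le_total 0 (x 1) with hx1 | hx1 <;>
    rcases le_total 0 (x 2) with hx2 | hx2
  · exact use 1 1 1 (x 0) (x 1) (x 2) hx0 hx1 hx2 (by simp) (by simp) (by simp) c0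
  · exact use 1 1 (-1) (x 0) (x 1) (-x 2) hx0 hx1 (by linarith) (by simp) (by simp) (by simp) c4
  · exact use 1 (-1) 1 (x 0) (-x 1) (x 2) hx0 (by linarith) hx2 (by simp) (by simp) (by simp) c2
  · exact use 1 (-1) (-1) (x 0) (-x 1) (-x 2) hx0 (by linarith) (by linarith) (by simp) (by simp)
      (by simp) c6
  · exact use (-1) 1 1 (-x 0) (x 1) (x 2) (by linarith) hx1 hx2 (by simp) (by simp) (by simp) c1
  · exact use (-1) 1 (-1) (-x 0) (x 1) (-x 2) (by linarith) hx1 (by linarith) (by simp) (by simp)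
      (by simp) c5
  · exact use (-1) (-1) 1 (-x 0) (-x 1) (x 2) (by linarith) (by linarith) hx2 (by simp) (by simp)
      (by simp) c3
  · exact use (-1) (-1) (-1) (-x 0) (-x 1) (-x 2) (by linarith) (by linarith) (by linarith)
      (by simp) (by simp) (by simp) c7

end cones

end Pool.Agent.Lib.MP_5e7226_co.C8.TF
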