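import Pool.Agent.Lib.MP_5e7226_co.C8.TopT

/-!
# Fast evaluation of the certificates in the simplex frame

The data of a leaf are one number for the facets and triples, one number for the directions and
one number for each octant. The functions are written for the evaluation in the kernel.
-/

set_option autoImplicit false

namespace Pool.Agent.Lib.MP_5e7226_co.C8.TF

/-- a terminal cone, triple: 4 bits direction, 6 bits triple, three shifts with the mask `m` at the
positions `10`, `o2`, `o3`; `oe` is the end -/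
noncomputable def tD (n nf nd M1 BI C0 CL : ℕ) (WV : ℕ → ℕ) (m o2 o3 oe E1 E2 E3 S : ℕ)
    (k : ℕ → Bool) : Bool :=
  (fun a g => (fun H => (fun Rc => (fun r1 r2 r3 => (fun X1 X2 X3 W =>
    (@Bool.rec (fun _ => Bool) false (@Bool.rec (fun _ => Bool) false (@Bool.rec (fun _ => Bool) false (@Bool.rec (fun _ => Bool) false (@Bool.rec (fun _ => Bool) false (k (Nat.shiftRight S oe))
      (Nat.beq (Nat.land (Nat.lor (Nat.lor
        (Nat.add X1 (Nat.mul (Nat.land (Nat.shiftRight S (nat_lit 10)) m) W))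
        (Nat.add X2 (Nat.mul (Nat.land (Nat.shiftRight S o2) m) W)))
        (Nat.add X3 (Nat.mul (Nat.land (Nat.shiftRight S o3) m) W)))
        M1) (nat_lit 0)))
      ((fun q => Nat.beq (Nat.land (Nat.land (Nat.land X1 X2) X3) q) q)
        (Nat.shiftLeft (nat_lit 39614081257132168796771975168) H)))
      (Nat.ble (Nat.lor (Nat.lor r1 r2) r3) (nat_lit 16777215)))
      (Nat.ble (Nat.succ g) nd))
      (Nat.ble (Nat.succ a) n)))
    (Nat.add CL (Nat.mul r1 E1)) (Nat.add CL (Nat.mul r2 E2)) (Nat.add CL (Nat.mul r3 E3)) (WV a))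
    (rd BI H Rc E1) (rd BI H Rc E2) (rd BI H Rc E3))
    (Nat.sub (Nat.mul (nat_lit 4096) (Nat.land (Nat.shiftRight C0 H)
      (nat_lit 79228162514264337593543950335))) (nat_lit 1)))
    (Nat.mul (nat_lit 96) (Nat.add nf g)))
    (Nat.land S (nat_lit 15)) (Nat.land (Nat.shiftRight S (nat_lit 4)) (nat_lit 63))

/-- one corner of a terminal cone with a shadow, lit part: 24 bits radius, 18 bits shift -/
noncomputable def xl (CL W r E S : ℕ) : ℕ :=
  Nat.add (Nat.add CL (Nat.mul r E))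
    (Nat.mul (Nat.land (Nat.shiftRight S (nat_lit 24)) (nat_lit 262143)) W)

/-- radius -/
noncomputable def xr (S : ℕ) : ℕ := Nat.land S (nat_lit 16777215)

/-- shift of a shadow, 20 bits at the position 42 -/
noncomputable def xt (S : ℕ) : ℕ := Nat.land (Nat.shiftRight S (nat_lit 42)) (nat_lit 1048575)

/-- a terminal cone, shadow: 4 bits direction, 9 bits point, and for each corner 24 bits radius,
18 bits shift, 20 bits shift for the shadow; the product of the shift and the radius is smaller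
than `2 ^ 43` -/
noncomputable def tN (n Q nF M1 CL CS : ℕ) (WV FV : ℕ → ℕ) (E1 E2 E3 S : ℕ) (k : ℕ → Bool) : Bool :=
  (fun a f S1 S2 S3 => (fun W N r1 r2 r3 t1 t2 t3 =>
    (@Bool.rec (fun _ => Bool) false (@Bool.rec (fun _ => Bool) false (@Bool.rec (fun _ => Bool) false (@Bool.rec (fun _ => Bool) false (@Bool.rec (fun _ => Bool) false (@Bool.rec (fun _ => Bool) false (@Bool.rec (fun _ => Bool) false (@Bool.rec (fun _ => Bool) false (k (Nat.shiftRight S (nat_lit 199)))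
      (Nat.beq (Nat.land (Nat.lor (Nat.lor (xl CL W r1 E1 S1) (xl CL W r2 E2 S2))
        (xl CL W r3 E3 S3)) M1) (nat_lit 0)))
      (Nat.beq (Nat.land (Nat.land (Nat.land (xh Q CS N r1 t1 E1) (xh Q CS N r2 t2 E2))
        (xh Q CS N r3 t3 E3)) M1) M1))
      (Nat.ble (Nat.lor (Nat.lor (Nat.mul t1 r1) (Nat.mul t2 r2)) (Nat.mul t3 r3))
        (nat_lit 8796093022207)))
      (Nat.ble (nat_lit 1) r1))
      (Nat.ble (nat_lit 1) r2))
      (Nat.ble (nat_lit 1) r3))
      (Nat.ble (Nat.succ f) nF))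
      (Nat.ble (Nat.succ a) n)))
    (WV a) (FV f) (xr S1) (xr S2) (xr S3) (xt S1) (xt S2) (xt S3))
    (Nat.land S (nat_lit 15)) (Nat.land (Nat.shiftRight S (nat_lit 4)) (nat_lit 511))
    (Nat.shiftRight S (nat_lit 13)) (Nat.shiftRight S (nat_lit 75)) (Nat.shiftRight S (nat_lit 137))

/-- subdivision of an edge: the bounds and the packed values of the new corner -/
noncomputable def sp (b1 b2 E1 E2 al be : ℕ) (k : ℕ → ℕ → Bool) : Bool :=
  (fun b => (@Bool.rec (fun _ => Bool) false (k b (Nat.add (Nat.mul al E1) (Nat.mul be E2))) (Nat.ble b (nat_lit 65536))))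
    (Nat.add (Nat.mul al b1) (Nat.mul be b2))

/-- subdivision of the edge `e` (`0`, `1`, other); `ih` is the check of the parts -/
noncomputable def sq (ih : ℕ → ℕ → ℕ → ℕ → ℕ → ℕ → ℕ → (ℕ → Bool) → Bool) (e : ℕ)
    (b1 b2 b3 E1 E2 E3 al be S : ℕ) (k : ℕ → Bool) : Bool :=
  @Nat.rec (fun _ => Bool)
    (sp b1 b2 E1 E2 al be (fun b m => ih b1 b b3 E1 m E3 S (fun S' => ih b b2 b3 m E2 E3 S' k)))
    (fun t _ => @Nat.rec (fun _ => Bool)
      (sp b2 b3 E2 E3 al be (fun b m => ih b1 b2 b E1 E2 m S (fun S' => ih b1 b b3 E1 m E3 S' k)))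
      (fun _ _ =>
        (sp b3 b1 E3 E1 al be (fun b m => ih b1 b2 b E1 E2 m S
          (fun S' => ih b b2 b3 m E2 E3 S' k)))) t) e

/-- the tree of cones; `TD`, `TX`, `TN` are the checks of the terminal cones -/
noncomputable def gc (TD TX TN : ℕ → ℕ → ℕ → ℕ → (ℕ → Bool) → Bool) (n : ℕ) :
    ℕ → ℕ → ℕ → ℕ → ℕ → ℕ → ℕ → (ℕ → Bool) → Bool :=
  @Nat.rec (fun _ => ℕ → ℕ → ℕ → ℕ → ℕ → ℕ → ℕ → (ℕ → Bool) → Bool)
    (fun _ _ _ _ _ _ _ _ => false)
    (fun _ ih b1 b2 b3 E1 E2 E3 S k =>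
      @Nat.rec (fun _ => Bool)
        (TD E1 E2 E3 (Nat.shiftRight S (nat_lit 3)) k)
        (fun t _ => @Nat.rec (fun _ => Bool)
          (TN E1 E2 E3 (Nat.shiftRight S (nat_lit 3)) k)
          (fun t _ => @Nat.rec (fun _ => Bool)
            (@Nat.rec (fun _ => Bool)
              (TX E1 E2 E3 (Nat.shiftRight S (nat_lit 5)) k)
              (fun e _ => sq ih e b1 b2 b3 E1 E2 E3 (cs S (nat_lit 5) (nat_lit 2047))
                (cs S (nat_lit 16) (nat_lit 2047)) (Nat.shiftRight S (nat_lit 27)) k)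
              (Nat.land (Nat.shiftRight S (nat_lit 3)) (nat_lit 3)))
            (fun e _ => sq ih e b1 b2 b3 E1 E2 E3 (cs S (nat_lit 3) (nat_lit 15))
                (cs S (nat_lit 7) (nat_lit 15)) (Nat.shiftRight S (nat_lit 11)) k)
            t) t)
        (Nat.land S (nat_lit 7)))
    n

/-- one octant -/
noncomputable def oc (TD TX TN : ℕ → ℕ → ℕ → ℕ → (ℕ → Bool) → Bool) (E1 E2 E3 S : ℕ) : Bool :=
  gc TD TX TN (nat_lit 64) (nat_lit 1) (nat_lit 1) (nat_lit 1) E1 E2 E3 S (fun _ => true)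

/-- eight octants -/
noncomputable def o8 (TD TX TN : ℕ → ℕ → ℕ → ℕ → (ℕ → Bool) → Bool)
    (C1 C2 C3 D1 D2 D3 S0 S1 S2 S3 S4 S5 S6 S7 : ℕ) : Bool :=
  (@Bool.rec (fun _ => Bool) false (@Bool.rec (fun _ => Bool) false (@Bool.rec (fun _ => Bool) false (@Bool.rec (fun _ => Bool) false (@Bool.rec (fun _ => Bool) false (@Bool.rec (fun _ => Bool) false (@Bool.rec (fun _ => Bool) false (oc TD TX TN D1 D2 D3 S7)
    (oc TD TX TN C1 D2 D3 S6))
    (oc TD TX TN D1 C2 D3 S5))
    (oc TD TX TN C1 C2 D3 S4))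
    (oc TD TX TN D1 D2 C3 S3))
    (oc TD TX TN C1 D2 C3 S2))
    (oc TD TX TN D1 C2 C3 S1))
    (oc TD TX TN C1 C2 C3 S0))

/-- the checks of a leaf with the packed numbers -/
noncomputable def l3 (n Q nK nF nf nd FC DC TK TF W M1 BI C0 C1 C2 C3 D1 D2 D3 S0 S1 S2 S3 S4 S5 S6 S7 :
    ℕ) : Bool :=
  (fun K0 CC CL CS => (fun VV =>
    (@Bool.rec (fun _ => Bool) false (@Bool.rec (fun _ => Bool) false (@Bool.rec (fun _ => Bool) false (@Bool.rec (fun _ => Bool) false (@Bool.rec (fun _ => Bool) false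
      (o8 (fun E1 E2 E3 => tD n nf nd M1 BI C0 CL (fun a => VV (pt W a)) (nat_lit 32767)
          (nat_lit 25) (nat_lit 40) (nat_lit 55) E1 E2 E3)
        (fun E1 E2 E3 => tD n nf nd M1 BI C0 CL (fun a => VV (pt W a)) (nat_lit 262143)
          (nat_lit 28) (nat_lit 46) (nat_lit 64) E1 E2 E3)
        (fun E1 E2 E3 => tN n Q nF M1 CL CS (fun a => VV (pt W a))
          (fun f => Nat.mul (nat_lit 4096) (VV (pt TF f))) E1 E2 E3)
        C1 C2 C3 D1 D2 D3 S0 S1 S2 S3 S4 S5 S6 S7)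
      (Nat.beq (Nat.land CC BI) BI))
      (fc FC nf nK (fun i => Nat.add CC (VV (pt TK i))) nf FC))
      (dc nK nd DC))
      (Nat.ble (nat_lit 1) nf))
      (Nat.ble (nat_lit 1) nK)))
    (fun p => vn D1 D2 D3 K0 p))
    (Nat.mul (nat_lit 32768) (Nat.add (Nat.add C1 C2) C3))
    (Nat.add C0 (Nat.mul (nat_lit 39614081257132168796771975167) (on (Nat.add nf nd))))
    (Nat.add BI (Nat.mul (nat_lit 4096)
      (Nat.sub (Nat.shiftLeft (nat_lit 1) (Nat.mul (nat_lit 96) (Nat.add nf nd))) C0)))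
    (Nat.add BI (Nat.mul (Nat.mul (nat_lit 4096) Q) C0))

/-- the packed numbers of a list of functionals -/
noncomputable def l2 (n Q nK nF nf nd FC DC TK TF W : ℕ) (hs : List FD)
    (S0 S1 S2 S3 S4 S5 S6 S7 : ℕ) : Bool :=
  (fun MM A1 A2 A3 B1 B2 B3 =>
    l3 n Q nK nF nf nd FC DC TK TF W
      (Nat.mul (nat_lit 39614081257132168796771975168) (on nf))
      (Nat.mul (nat_lit 39614081257132168796771975168) (on (Nat.add nf nd))) (pf FD.c hs)
      (Nat.add A1 (Nat.sub MM B1)) (Nat.add A2 (Nat.sub MM B2)) (Nat.add A3 (Nat.sub MM B3))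
      (Nat.add B1 (Nat.sub MM A1)) (Nat.add B2 (Nat.sub MM A2)) (Nat.add B3 (Nat.sub MM A3))
      S0 S1 S2 S3 S4 S5 S6 S7)
    (Nat.shiftLeft (nat_lit 1) (Nat.mul (nat_lit 96) (Nat.add nf nd)))
    (pf FD.A1 hs) (pf FD.A2 hs) (pf FD.A3 hs) (pf FD.B1 hs) (pf FD.B2 hs) (pf FD.B3 hs)

/-- a leaf: `H` has the number of facets (8 bits), the number of triples (7 bits), the facets and
the triples -/
noncomputable def lf (n Q : ℕ) (K F : List ℕ) (H W S0 S1 S2 S3 S4 S5 S6 S7 : ℕ) : Bool :=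
  (fun nf nd TK => (fun FC DC =>
    l2 n Q (ln K) (ln F) nf nd FC DC TK (tk F) W
      (ap (fl TK (nat_lit 0) (nat_lit 45) nf FC)
        (fl TK (nat_lit 17179869184) (nat_lit 21) nd DC)) S0 S1 S2 S3 S4 S5 S6 S7)
    (Nat.shiftRight H (nat_lit 15))
    (Nat.shiftRight H (Nat.add (nat_lit 15) (Nat.mul (nat_lit 45) nf))))
    (Nat.land H (nat_lit 255)) (Nat.land (Nat.shiftRight H (nat_lit 8)) (nat_lit 127)) (tk K)

/-- equality of lists -/
noncomputable def eq1 (l : List ℕ) : List ℕ → Bool :=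
  @List.rec ℕ (fun _ => List ℕ → Bool)
    (fun m => @List.rec ℕ (fun _ => Bool) true (fun _ _ _ => false) m)
    (fun a _ ih m => @List.rec ℕ (fun _ => Bool) false
      (fun b m' _ => (@Bool.rec (fun _ => Bool) false (ih m') (Nat.beq a b))) m) l

/-- member of a list of states -/
noncomputable def ms (K F : List ℕ) (l : List SN) : ℕ → Bool :=
  @List.rec SN (fun _ => ℕ → Bool) (fun _ => false)
    (fun s _ ih i => @Nat.rec (fun _ => Bool)
      (@Bool.rec (fun _ => Bool) false (@Bool.rec (fun _ => Bool) false (@List.rec UF (fun _ => Bool) true (fun _ _ _ => false) s.U) (eq1 F s.F))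
        (eq1 K s.K))
      (fun j _ => ih j) i) l

/-- the tree: query, leaf, reference, tree of the general checker -/
inductive Tr
  | q (y : ℕ) (a b : Tr)
  | l (H W S0 S1 S2 S3 S4 S5 S6 S7 : ℕ)
  | r (i : ℕ)
  | s (t : C8.Tr)

/-- the check of a tree -/
noncomputable def ck (n Q : ℕ) (rs : List SN) (t : Tr) : List ℕ → List ℕ → Bool :=
  @Tr.rec (fun _ => List ℕ → List ℕ → Bool)
    (fun y _ _ ia ib K F => (@Bool.rec (fun _ => Bool) false (ib K (y :: F)) (ia (y :: K) F)))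
    (fun H W S0 S1 S2 S3 S4 S5 S6 S7 K F => lf n Q K F H W S0 S1 S2 S3 S4 S5 S6 S7)
    (fun i K F => ms K F rs i)
    (fun t K F => chk n (nat_lit 4096) (nat_lit 17179869184) rs t none ⟨K, F, []⟩)
    t

end Pool.Agent.Lib.MP_5e7226_co.C8.TF
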