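import Pool.Agent.Lib.MP_5e7226_co.C8.TFast

/-!
# Soundness of the fast evaluation, first part: tables, facets
-/

set_option autoImplicit false

open Set

namespace Pool.Agent.Lib.MP_5e7226_co.C8.TF

open GB

lemma br {a b : Bool} (h : @Bool.rec (fun _ => Bool) false b a = true) : b = true ∧ a = true := by
  cases a
  · exact absurd (show false = true from h) Bool.false_ne_true
  · exact ⟨h, rfl⟩

/-! ### tables -/

lemma ln_eq (l : List ℕ) : ln l = l.length := by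
  induction l with
  | nil => rfl
  | cons a l ih =>
    have : ln (a :: l) = Nat.succ (ln l) := rfl
    rw [this, ih]
    rfl

lemma tk_eq (l : List ℕ) : tk l = tabm id 48 (2 ^ 48 - 1) l := by
  induction l with
  | nil => rfl
  | cons a l ih =>
    have : tk (a :: l) = Nat.add (Nat.shiftLeft (tk l) 48) (Nat.land a 281474976710655) := rfl
    rw [this, ih]
    rfl

lemma pt_tk (l : List ℕ) (i : ℕ) (h : i < l.length) : pt (tk l) i = l[i] % 2 ^ 48 := by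
  have h1 := ent_tabm id 48 l i
  rw [dif_pos h, ← tk_eq] at h1
  have h2 : pt (tk l) i = ent (tk l) 48 (2 ^ 48 - 1) i := by
    unfold pt ent
    rw [nmul, nmul, mul_comm 48 i]
    norm_num
  rw [h2, h1]
  rfl

lemma pt_lt (T i : ℕ) : pt T i < 2 ^ 48 := by
  have : pt T i = (Nat.shiftRight T (Nat.mul 48 i)) % 2 ^ 48 := land_full _ 48
  rw [this]
  exact Nat.mod_lt _ (by norm_num)

lemma ox_mod (a : ℕ) : ox (a % 2 ^ 48) = ox a := by
  have h1 : ∀ b, ox b = b % 2 ^ 16 := fun b => land_full b 16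
  rw [h1, h1]
  omega

lemma oy_mod (a : ℕ) : oy (a % 2 ^ 48) = oy a := by
  have h1 : ∀ b, oy b = (Nat.shiftRight b 16) % 2 ^ 16 := fun b => land_full _ 16
  rw [h1, h1, nshr, nshr]
  omega

lemma oz_mod (a : ℕ) : oz (a % 2 ^ 48) = oz a := by
  have h1 : ∀ b, oz b = (Nat.shiftRight b 32) % 2 ^ 16 := fun b => land_full _ 16
  rw [h1, h1, nshr, nshr]
  omega

lemma rp_mod (a : ℕ) : rp (a % 2 ^ 48) = rp a := by
  unfold rp ix iy iz
  rw [ox_mod, oy_mod, oz_mod]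

/-- the points modulo `2 ^ 48` -/
def md (K : List ℕ) : List ℕ := K.map (· % 2 ^ 48)

lemma md_len (K : List ℕ) : (md K).length = K.length := by simp [md]

lemma KS_md (K : List ℕ) : KS (md K) = KS K := by
  ext x
  constructor
  · rintro ⟨p, hp, rfl⟩
    obtain ⟨a, ha, rfl⟩ := List.mem_map.1 hp
    exact ⟨a, ha, rp_mod a⟩
  · rintro ⟨p, hp, rfl⟩
    exact ⟨_, List.mem_map.2 ⟨p, hp, rfl⟩, (rp_mod p).symm⟩

lemma pt_md (K : List ℕ) (i : ℕ) (h : i < K.length) : pt (tk K) i ∈ md K := by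
  rw [pt_tk K i h]
  exact List.mem_map.2 ⟨_, List.getElem_mem h, rfl⟩

/-! ### lists of functionals -/

lemma fl_len (T k w n S : ℕ) : (fl T k w n S).length = n := by
  induction n generalizing S with
  | zero => rfl
  | succ n ih =>
    have : fl T k w (n + 1) S = mkFD k (pt T (i7 S 0)) (pt T (i7 S 7)) (pt T (i7 S 14)) ::
      fl T k w n (Nat.shiftRight S w) := rfl
    rw [this, List.length_cons, ih]

lemma fl_get (T k w n S j : ℕ) (h : j < (fl T k w n S).length) :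
    (fl T k w n S)[j] = mkFD k (pt T (i7 (S / 2 ^ (w * j)) 0)) (pt T (i7 (S / 2 ^ (w * j)) 7))
      (pt T (i7 (S / 2 ^ (w * j)) 14)) := by
  induction n generalizing S j with
  | zero =>
    rw [fl_len] at h
    omega
  | succ n ih =>
    have e : fl T k w (n + 1) S = mkFD k (pt T (i7 S 0)) (pt T (i7 S 7)) (pt T (i7 S 14)) ::
      fl T k w n (Nat.shiftRight S w) := rfl
    cases j with
    | zero =>
      simp only [e, List.getElem_cons_zero]
      simp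
    | succ j =>
      simp only [e, List.getElem_cons_succ]
      rw [ih]
      rw [nshr, Nat.div_div_eq_div_mul, ← pow_add, show w + w * j = w * (j + 1) by ring]

lemma ap_eq (l m : List FD) : ap l m = l ++ m := by
  induction l with
  | nil => rfl
  | cons a l ih =>
    have : ap (a :: l) m = a :: ap l m := rfl
    rw [this, ih]
    rfl

lemma pf_eq (f : FD → ℕ) (l : List FD) : pf f l = pk f l := by
  induction l with
  | nil => rfl
  | cons a l ih =>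
    have : pf f (a :: l) = Nat.add (Nat.shiftLeft (pf f l) 96) (f a) := rfl
    rw [this, ih]
    rfl

lemma on_mul (n : ℕ) : (2 ^ 96 - 1) * on n = 2 ^ (96 * n) - 1 ∧
    on (n + 1) = on n * 2 ^ 96 + 1 := by
  have hd : ∀ m, on m = (2 ^ (96 * m) - 1) / (2 ^ 96 - 1) := by
    intro m
    have e1 : on m = Nat.div (Nat.sub (Nat.shiftLeft 1 (Nat.mul 96 m)) 1)
      79228162514264337593543950335 := rfl
    have e2 : Nat.sub (Nat.shiftLeft 1 (Nat.mul 96 m)) 1 = 2 ^ (96 * m) - 1 := by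
      rw [nshl, nmul, one_mul]
      rfl
    rw [e1, e2]
    rfl
  have key : ∀ m, ∃ q, 2 ^ (96 * m) = (2 ^ 96 - 1) * q + 1 := by
    intro m
    induction m with
    | zero => exact ⟨0, by norm_num⟩
    | succ m ih =>
      obtain ⟨q, hq⟩ := ih
      refine ⟨q * 2 ^ 96 + 1, ?_⟩
      rw [show 96 * (m + 1) = 96 * m + 96 by ring, pow_add, hq]
      obtain ⟨X, hX⟩ : ∃ X, (2 : ℕ) ^ 96 = X + 1 := ⟨2 ^ 96 - 1, by norm_num⟩
      rw [hX, Nat.add_sub_cancel]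
      ring
  have hon : ∀ m q, 2 ^ (96 * m) = (2 ^ 96 - 1) * q + 1 → on m = q := by
    intro m q hq
    rw [hd, hq, Nat.add_sub_cancel]
    exact Nat.mul_div_cancel_left _ (by norm_num)
  obtain ⟨q, hq⟩ := key n
  have h1 := hon n q hq
  refine ⟨by rw [h1, hq, Nat.add_sub_cancel], ?_⟩
  rw [h1]
  apply hon
  rw [show 96 * (n + 1) = 96 * n + 96 by ring, pow_add, hq]
  obtain ⟨X, hX⟩ : ∃ X, (2 : ℕ) ^ 96 = X + 1 := ⟨2 ^ 96 - 1, by norm_num⟩
  rw [hX, Nat.add_sub_cancel]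
  ring

lemma on_zero : on 0 = 0 := by
  have := (on_mul 0).1
  have h : (2 : ℕ) ^ (96 * 0) - 1 = 0 := by norm_num
  rw [h] at this
  rcases Nat.mul_eq_zero.1 this with h | h
  · norm_num at h
  · exact h

lemma pk_const (c : ℕ) (l : List FD) : pk (fun _ => c) l = c * on l.length := by
  induction l with
  | nil => rw [pk_nil, List.length_nil, on_zero, mul_zero]
  | cons a l ih =>
    rw [pk_cons, ih, List.length_cons, (on_mul _).2]
    ring

/-! ### the packed numbers -/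

/-- the numbers of a list of functionals are correct -/
structure Nu (hs : List FD) (BI C0 C1 C2 C3 D1 D2 D3 : ℕ) : Prop where
  hBI : Rp hs BI (fun _ => 2 ^ 95)
  hC0 : Rp hs C0 (fun h => (h.c : ℤ))
  hC0le : C0 ≤ 2 ^ (96 * hs.length)
  hC1 : Rp hs C1 (fun h => (h.A1 : ℤ) - h.B1)
  hC2 : Rp hs C2 (fun h => (h.A2 : ℤ) - h.B2)
  hC3 : Rp hs C3 (fun h => (h.A3 : ℤ) - h.B3)
  hD1 : Rp hs D1 (fun h => -((h.A1 : ℤ) - h.B1))
  hD2 : Rp hs D2 (fun h => -((h.A2 : ℤ) - h.B2))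
  hD3 : Rp hs D3 (fun h => -((h.A3 : ℤ) - h.B3))

lemma Nu.K0 {hs : List FD} {BI C0 C1 C2 C3 D1 D2 D3 : ℕ} (h : Nu hs BI C0 C1 C2 C3 D1 D2 D3)
    (p : ℕ) : Rp hs (vn D1 D2 D3 (Nat.mul 32768 (Nat.add (Nat.add C1 C2) C3)) p)
      (fun h => -dz h (ix p) (iy p) (iz p)) := by
  have h1 := lin_rp h.hD1 h.hD2 h.hD3 (((h.hC1.add h.hC2).add h.hC3).mul 32768) (ox p) (oy p) (oz p)
  have e : vn D1 D2 D3 (Nat.mul 32768 (Nat.add (Nat.add C1 C2) C3)) p =
    lin D1 D2 D3 (32768 * (C1 + C2 + C3)) (ox p) (oy p) (oz p) := rfl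
  rw [e]
  refine Rp.congr h1 (fun f _ => ?_)
  simp only [dz, ix, iy, iz]
  push_cast
  ring

lemma Nu.CC {hs : List FD} {BI C0 C1 C2 C3 D1 D2 D3 : ℕ} (h : Nu hs BI C0 C1 C2 C3 D1 D2 D3)
    {m : ℕ} (hm : m = hs.length) :
    Rp hs (Nat.add C0 (Nat.mul 39614081257132168796771975167 (on m)))
      (fun h => 2 ^ 95 + ((h.c : ℤ) - 1)) := by
  have h1 := Rp.of_pk (hs := hs) (fun _ => 39614081257132168796771975167)
  rw [pk_const, ← hm] at h1
  refine Rp.congr (h.hC0.add h1) (fun f _ => ?_)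
  push_cast
  ring

lemma Nu.CL {hs : List FD} {BI C0 C1 C2 C3 D1 D2 D3 : ℕ} (h : Nu hs BI C0 C1 C2 C3 D1 D2 D3)
    {m : ℕ} (hm : m = hs.length) :
    Rp hs (Nat.add BI (Nat.mul 4096 (Nat.sub (Nat.shiftLeft 1 (Nat.mul 96 m)) C0)))
      (fun h => 2 ^ 95 - (4096 : ℕ) * h.c) := by
  have e : Nat.shiftLeft 1 (Nat.mul 96 m) = 2 ^ (96 * hs.length) := by
    rw [nshl, nmul, one_mul, hm]
  rw [e]
  have h1 := h.hC0.neg rfl h.hC0le
  refine Rp.congr (h.hBI.add (h1.mul 4096)) (fun f _ => ?_)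
  push_cast
  ring

lemma Nu.CS {hs : List FD} {BI C0 C1 C2 C3 D1 D2 D3 : ℕ} (h : Nu hs BI C0 C1 C2 C3 D1 D2 D3) :
    Rp hs (Nat.add BI (Nat.mul 1048576 C0)) (fun h => 2 ^ 95 + 256 * (4096 : ℕ) * h.c) := by
  refine Rp.congr (h.hBI.add (h.hC0.mul 1048576)) (fun f _ => ?_)
  push_cast
  ring

lemma nu_of {hs : List FD} (hb : ∀ h ∈ hs, FB h) {m : ℕ} (hm : m = hs.length) :
    Nu hs (Nat.mul 39614081257132168796771975168 (on m)) (pf FD.c hs)
      (Nat.add (pf FD.A1 hs) (Nat.sub (Nat.shiftLeft 1 (Nat.mul 96 m)) (pf FD.B1 hs)))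
      (Nat.add (pf FD.A2 hs) (Nat.sub (Nat.shiftLeft 1 (Nat.mul 96 m)) (pf FD.B2 hs)))
      (Nat.add (pf FD.A3 hs) (Nat.sub (Nat.shiftLeft 1 (Nat.mul 96 m)) (pf FD.B3 hs)))
      (Nat.add (pf FD.B1 hs) (Nat.sub (Nat.shiftLeft 1 (Nat.mul 96 m)) (pf FD.A1 hs)))
      (Nat.add (pf FD.B2 hs) (Nat.sub (Nat.shiftLeft 1 (Nat.mul 96 m)) (pf FD.A2 hs)))
      (Nat.add (pf FD.B3 hs) (Nat.sub (Nat.shiftLeft 1 (Nat.mul 96 m)) (pf FD.A3 hs))) := by
  have hMM : Nat.shiftLeft 1 (Nat.mul 96 m) = 2 ^ (96 * hs.length) := by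
    rw [nshl, nmul, one_mul, hm]
  rw [hMM]
  simp only [pf_eq]
  refine ⟨?_, Rp.of_pk _, ?_, ?_, ?_, ?_, ?_, ?_, ?_⟩
  · have h1 := Rp.of_pk (hs := hs) (fun _ => 39614081257132168796771975168)
    rw [pk_const, ← hm] at h1
    exact h1.congr (fun _ _ => by norm_num)
  · exact (pk_lt _ hs (fun a ha => (hb a ha).c.trans (by norm_num))).le
  · exact rp_sub rfl (fb_pk hb _ (fun h h' => h'.b1))
  · exact rp_sub rfl (fb_pk hb _ (fun h h' => h'.b2))
  · exact rp_sub rfl (fb_pk hb _ (fun h h' => h'.b3))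
  · exact (rp_sub (f := FD.B1) (g := FD.A1) rfl (fb_pk hb _ (fun h h' => h'.a1))).congr
      (fun _ _ => by ring)
  · exact (rp_sub (f := FD.B2) (g := FD.A2) rfl (fb_pk hb _ (fun h h' => h'.a2))).congr
      (fun _ _ => by ring)
  · exact (rp_sub (f := FD.B3) (g := FD.A3) rfl (fb_pk hb _ (fun h h' => h'.a3))).congr
      (fun _ _ => by ring)

/-! ### facets -/

lemma mm_true {i G : ℕ} (h : mm i G = true) : i = i7 G 0 ∨ i = i7 G 7 ∨ i = i7 G 14 := by
  unfold mm at h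
  cases h1 : Nat.beq i (i7 G 0) with
  | true => exact Or.inl (Nat.eq_of_beq_eq_true h1)
  | false =>
    rw [h1] at h
    replace h : @Bool.rec (fun _ => Bool) (Nat.beq i (i7 G 14)) true (Nat.beq i (i7 G 7)) = true :=
      h
    cases h2 : Nat.beq i (i7 G 7) with
    | true => exact Or.inr (Or.inl (Nat.eq_of_beq_eq_true h2))
    | false =>
      rw [h2] at h
      exact Or.inr (Or.inr (Nat.eq_of_beq_eq_true h))

lemma i3_true {n S : ℕ} (h : i3 n S = true) : i7 S 0 < n ∧ i7 S 7 < n ∧ i7 S 14 < n := by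
  obtain ⟨h, h0⟩ := br h
  obtain ⟨h2, h1⟩ := br h
  exact ⟨Nat.le_of_ble_eq_true h0, Nat.le_of_ble_eq_true h1, Nat.le_of_ble_eq_true h2⟩

lemma bit_true {X i : ℕ} (h : Nat.beq (Nat.land (Nat.shiftRight X i) 1) 1 = true) :
    X.testBit i = true := by
  have h1 := Nat.eq_of_beq_eq_true h
  have h2 : Nat.land (Nat.shiftRight X i) 1 = (Nat.shiftRight X i) % 2 ^ 1 := land_full _ 1
  rw [h2, nshr] at h1
  rw [Nat.testBit_eq_decide_div_mod_eq]
  simpa using h1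

lemma nb_true {FC nf : ℕ} {V : ℕ → ℕ} {g i j k : ℕ} (h : nb FC nf V g i j k = true) :
    g < nf ∧ mm i (FC / 2 ^ (45 * g)) = true ∧ mm j (FC / 2 ^ (45 * g)) = true ∧
      (V k).testBit (96 * g + 95) = true := by
  obtain ⟨h, h0⟩ := br h
  obtain ⟨h, h1⟩ := br h
  obtain ⟨h3, h2⟩ := br h
  rw [nshr, nmul] at h1 h2
  exact ⟨Nat.le_of_ble_eq_true h0, h1, h2, bit_true h3⟩

/-- the neighbour of a facet -/
lemma nb_facet {FC nf k : ℕ} {T : ℕ} {fs ds : List FD} (hfs : fs = fl T 0 45 nf FC)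
    {V : ℕ → ℕ} (hb : ∀ h ∈ fs ++ ds, FB h)
    (hV : ∀ k, Rp (fs ++ ds) (V k) (fun h => 2 ^ 95 + ((h.c : ℤ) - 1 -
      dz h (ix (pt T k)) (iy (pt T k)) (iz (pt T k))))) {g i j : ℕ}
    (h : nb FC nf V g i j k = true) :
    ∃ f ∈ fs, FD.vtx f (pt T i) = true ∧ FD.vtx f (pt T j) = true ∧ FD.lt f (pt T k) = true := by
  obtain ⟨h0, h1, h2, h3⟩ := nb_true h
  have hlen : fs.length = nf := by rw [hfs, fl_len]
  have hg : g < fs.length := by omega
  have hg' : g < (fs ++ ds).length := by rw [List.length_append]; omega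
  have hget : fs[g] = mkFD 0 (pt T (i7 (FC / 2 ^ (45 * g)) 0)) (pt T (i7 (FC / 2 ^ (45 * g)) 7))
      (pt T (i7 (FC / 2 ^ (45 * g)) 14)) := by
    subst hfs
    exact fl_get T 0 45 nf FC g hg
  have hv : ∀ i, mm i (FC / 2 ^ (45 * g)) = true → FD.vtx fs[g] (pt T i) = true := by
    intro i hi
    rw [vtx_iff, hget]
    rcases mm_true hi with h | h | h
    · left; rw [h]; rfl
    · right; left; rw [h]; rfl
    · right; right; rw [h]; rfl
  refine ⟨fs[g], List.getElem_mem hg, hv i h1, hv j h2, ?_⟩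
  have hbd : ∀ f ∈ fs ++ ds, -2 ^ 95 ≤ (f.c : ℤ) - 1 -
      dz f (ix (pt T k)) (iy (pt T k)) (iz (pt T k)) ∧
      (f.c : ℤ) - 1 - dz f (ix (pt T k)) (iy (pt T k)) (iz (pt T k)) < 2 ^ 95 := by
    intro f hf
    have a1 := dz_bd (hb f hf) (ix_bd (pt T k)) (iy_bd (pt T k)) (iz_bd (pt T k))
    have a2 : (f.c : ℤ) < 2 ^ 56 := by exact_mod_cast (hb f hf).c
    have a3 : (0 : ℤ) ≤ f.c := Nat.cast_nonneg _
    rw [abs_le] at a1
    constructor
    · norm_num at a1 a2 ⊢; linarith [a1.1, a1.2]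
    · norm_num at a1 a2 ⊢; linarith [a1.1, a1.2]
  have h4 := bit_of_rp (fs ++ ds) (V k) _ (hV k) hbd g hg'
  rw [h3] at h4
  have h5 : (0 : ℤ) ≤ ((fs ++ ds)[g]).c - 1 -
      dz (fs ++ ds)[g] (ix (pt T k)) (iy (pt T k)) (iz (pt T k)) := by simpa using h4.symm
  rw [List.getElem_append_left hg] at h5
  have e := dps_sub (fs[g]).A1 (fs[g]).A2 (fs[g]).A3 (fs[g]).B1 (fs[g]).B2 (fs[g]).B3 (pt T k)
  unfold FD.lt
  rw [ble_iff, nadd, nsucc]
  rw [dz] at h5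
  omega

/-- the facets which are checked -/
lemma fc_true {FC nf nK : ℕ} {V : ℕ → ℕ} : ∀ {n S : ℕ}, fc FC nf nK V n S = true → ∀ j < n,
    i3 nK (S / 2 ^ (45 * j)) = true ∧
    nb FC nf V (i8 (S / 2 ^ (45 * j)) 21) (i7 (S / 2 ^ (45 * j)) 0) (i7 (S / 2 ^ (45 * j)) 7)
      (i7 (S / 2 ^ (45 * j)) 14) = true ∧
    nb FC nf V (i8 (S / 2 ^ (45 * j)) 29) (i7 (S / 2 ^ (45 * j)) 7) (i7 (S / 2 ^ (45 * j)) 14)
      (i7 (S / 2 ^ (45 * j)) 0) = true ∧
    nb FC nf V (i8 (S / 2 ^ (45 * j)) 37) (i7 (S / 2 ^ (45 * j)) 14) (i7 (S / 2 ^ (45 * j)) 0)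
      (i7 (S / 2 ^ (45 * j)) 7) = true := by
  intro n
  induction n with
  | zero => intro S _ j hj; omega
  | succ n ih =>
    intro S h j hj
    obtain ⟨h, h0⟩ := br h
    obtain ⟨h, h1⟩ := br h
    obtain ⟨h, h2⟩ := br h
    obtain ⟨h, h3⟩ := br h
    cases j with
    | zero =>
      simp only [mul_zero, pow_zero, Nat.div_one]
      exact ⟨h0, h1, h2, h3⟩
    | succ j =>
      have h4 := ih h j (by omega)
      rw [nshr, Nat.div_div_eq_div_mul, ← pow_add, show 45 + 45 * j = 45 * (j + 1) by ring] at h4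
      exact h4

lemma dc_true {nK : ℕ} : ∀ {n S : ℕ}, dc nK n S = true → ∀ j < n,
    i3 nK (S / 2 ^ (21 * j)) = true := by
  intro n
  induction n with
  | zero => intro S _ j hj; omega
  | succ n ih =>
    intro S h j hj
    obtain ⟨h, h0⟩ := br h
    cases j with
    | zero =>
      simp only [mul_zero, pow_zero, Nat.div_one]
      exact h0
    | succ j =>
      have h4 := ih h j (by omega)
      rw [nshr, Nat.div_div_eq_div_mul, ← pow_add, show 21 + 21 * j = 21 * (j + 1) by ring] at h4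
      exact h4

lemma facet_eq' {p q r x : ℕ} (hpos : 0 < (mkFD 0 p q r).c)
    (hx : FD.vtx (mkFD 0 p q r) x = true) :
    nr (mkFD 0 p q r) ⬝ᵥ rp x = ((mkFD 0 p q r).c : ℝ) := by
  have e := mkFD_c_eq 0 p q r hpos
  rw [nr_rp]
  have e' : ((mkFD 0 p q r).c : ℤ) = dz (mkFD 0 p q r) (ix x) (iy x) (iz x) := by
    rw [vtx_iff] at hx
    rcases hx with hx | hx | hx
    · have : p = x := hx
      rw [← this, e]; simp
    · have : q = x := hx
      rw [← this, mkFD_q, e]; simp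
    · have : r = x := hx
      rw [← this, mkFD_r, e]; simp
  rw [← e']
  simp

/-- the list of facets is complete -/
lemma fctOk_of {fs : List FD} (hne : fs ≠ []) (hg : ∀ h ∈ fs, FGood fs h)
    (hm : ∀ h ∈ fs, ∃ p q r, h = mkFD 0 p q r) : FctOk (fs.map toF) := by
  have fe : ∀ h ∈ fs, ∀ x, FD.vtx h x = true → nr h ⬝ᵥ rp x = (h.c : ℝ) := by
    intro h hh x hx
    obtain ⟨p, q, r, e⟩ := hm h hh
    have h1 := (hg h hh).pos
    rw [e] at h1 hx ⊢
    exact facet_eq' h1 hx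
  refine ⟨?_, ?_, ?_, ?_, ?_, ?_, ?_, ?_⟩
  · intro hn
    apply hne
    simpa using hn
  · intro f hf
    obtain ⟨h, hh, rfl⟩ := List.mem_map.1 hf
    have := (hg h hh).pos
    simp only [toF]
    exact_mod_cast this
  · intro f hf
    obtain ⟨h, hh, rfl⟩ := List.mem_map.1 hf
    exact fe h hh _ (by rw [vtx_iff]; simp)
  · intro f hf
    obtain ⟨h, hh, rfl⟩ := List.mem_map.1 hf
    exact fe h hh _ (by rw [vtx_iff]; simp)
  · intro f hf
    obtain ⟨h, hh, rfl⟩ := List.mem_map.1 hf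
    exact fe h hh _ (by rw [vtx_iff]; simp)
  · intro f hf
    obtain ⟨h, hh, rfl⟩ := List.mem_map.1 hf
    obtain ⟨g, hg1, hg2, hg3, hg4⟩ := (hg h hh).n1
    exact ⟨toF g, List.mem_map.2 ⟨g, hg1, rfl⟩, fe g hg1 _ hg2, fe g hg1 _ hg3, facet_lt hg4⟩
  · intro f hf
    obtain ⟨h, hh, rfl⟩ := List.mem_map.1 hf
    obtain ⟨g, hg1, hg2, hg3, hg4⟩ := (hg h hh).n2
    exact ⟨toF g, List.mem_map.2 ⟨g, hg1, rfl⟩, fe g hg1 _ hg2, fe g hg1 _ hg3, facet_lt hg4⟩
  · intro f hf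
    obtain ⟨h, hh, rfl⟩ := List.mem_map.1 hf
    obtain ⟨g, hg1, hg2, hg3, hg4⟩ := (hg h hh).n3
    exact ⟨toF g, List.mem_map.2 ⟨g, hg1, rfl⟩, fe g hg1 _ hg2, fe g hg1 _ hg3, facet_lt hg4⟩

end Pool.Agent.Lib.MP_5e7226_co.C8.TF
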