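import Pool.Agent.Lib.MP_5e7226_co.C8.TFastS

/-!
# Soundness of the fast evaluation, second part: cones
-/

set_option autoImplicit false

open Set

namespace Pool.Agent.Lib.MP_5e7226_co.C8.TF

open GB

/-- the number `E'` represents the vector `x y z` with coordinates bounded by `bd` -/
structure V3 (hs : List FD) (bd E' : ℕ) (x y z : ℤ) : Prop where
  rep : Rp hs E' (fun h => dz h x y z)
  bx : |x| ≤ bd
  by' : |y| ≤ bd
  bz : |z| ≤ bd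

lemma V3.comb {hs : List FD} {b b' E' F' : ℕ} {x y z x' y' z' : ℤ}
    (h : V3 hs b E' x y z) (h' : V3 hs b' F' x' y' z') (α β : ℕ) :
    V3 hs (α * b + β * b') (α * E' + β * F') (α * x + β * x')
      (α * y + β * y') (α * z + β * z') := by
  refine ⟨?_, abs_comb h.bx h'.bx, abs_comb h.by' h'.by', abs_comb h.bz h'.bz⟩
  refine ((h.rep.mul α).add (h'.rep.mul β)).congr ?_
  intro f _
  rw [dz_lin]

lemma V3.mono {hs : List FD} {bd bd' E' : ℕ} {x y z : ℤ}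
    (h : V3 hs bd E' x y z) (hb : bd ≤ bd') : V3 hs bd' E' x y z := by
  have hb' : (bd : ℤ) ≤ bd' := by exact_mod_cast hb
  exact ⟨h.rep, h.bx.trans hb', h.by'.trans hb', h.bz.trans hb'⟩

lemma V3.bd {hs : List FD} {E' : ℕ} {x y z : ℤ} (h : V3 hs 65536 E' x y z) :
    |x| ≤ 65536 ∧ |y| ≤ 65536 ∧ |z| ≤ 65536 :=
  ⟨by simpa using h.bx, by simpa using h.by', by simpa using h.bz⟩

/-- one shadow corner, the shift has the denominator `Q` -/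
lemma sh_soundQ {K : List ℕ} {fs : List FD} {ds : List FD} (hF : Fac K fs)
    {Q R CS N r s E' : ℕ} (hQ : 0 < Q) (hQ' : Q ≤ 4096)
    (hR : 0 < R) (hR' : R ≤ 4096) {x y z a b c : ℤ}
    (hCS : Rp (fs ++ ds) CS (fun h => 2 ^ 95 + Q * R * h.c))
    (hN : Rp (fs ++ ds) N (fun h => -(R * dz h a b c)))
    (hE : Rp (fs ++ ds) E' (fun h => dz h x y z))
    (hs : s < 2 ^ 20) (hsr0 : s * r < 2 ^ 43)
    (hx : |x| ≤ 65536) (hy : |y| ≤ 65536) (hz : |z| ≤ 65536)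
    (ha : |a| ≤ 65536) (hb : |b| ≤ 65536) (hc : |c| ≤ 65536)
    (hm : ∀ g, g < fs.length → (xh Q CS N r s E').testBit (96 * g + 95) = true) :
    Shd (KS K) (rv a b c) (((r : ℝ) / R) • rv x y z) := by
  have hX : Rp fs (xh Q CS N r s E')
      (fun h => 2 ^ 95 + (Q * R * h.c - (Q + s) * (R * dz h a b c) +
        (s * r : ℕ) * dz h x y z)) := by
    have h1 := ((hCS.add (hN.mul (Q + s))).add (hE.mul (s * r))).pre
    exact h1.congr (fun f _ => by push_cast; ring)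
  have hbd : ∀ f ∈ fs, -2 ^ 95 ≤ (Q * R * f.c - (Q + s) * (R * dz f a b c) +
        (s * r : ℕ) * dz f x y z : ℤ) ∧ (Q * R * f.c - (Q + s) * (R * dz f a b c) +
        (s * r : ℕ) * dz f x y z : ℤ) < 2 ^ 95 := by
    intro f hf
    have h1 := dz_bd (hF.bd f hf) hx hy hz
    have h2 := dz_bd (hF.bd f hf) ha hb hc
    have hsr : ((s * r : ℕ) : ℤ) ≤ 2 ^ 43 := by exact_mod_cast hsr0.le
    have h3 : |((s * r : ℕ) : ℤ) * dz f x y z| ≤ 2 ^ 43 * (3 * 2 ^ 34 * 65536) := by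
      rw [abs_mul]
      exact mul_le_mul (by rw [Nat.abs_cast]; exact hsr) h1 (abs_nonneg _) (by norm_num)
    have hQz : (Q : ℤ) ≤ 4096 := by exact_mod_cast hQ'
    have h4 : |((Q : ℤ) + (s : ℤ)) * (R * dz f a b c)| ≤ 2 ^ 21 * (4096 * (3 * 2 ^ 34 * 65536)) := by
      rw [abs_mul, abs_mul]
      refine mul_le_mul ?_ ?_ (by positivity) (by norm_num)
      · rw [abs_of_nonneg (by positivity)]
        have : (s : ℤ) < 2 ^ 20 := by exact_mod_cast hs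
        norm_num at this ⊢; linarith
      · exact mul_le_mul (by rw [Nat.abs_cast]; exact_mod_cast hR') h2 (abs_nonneg _) (by norm_num)
    have h5' : (Q : ℤ) * R ≤ 4096 * 4096 :=
      mul_le_mul hQz (by exact_mod_cast hR') (by positivity) (by norm_num)
    have h5 : (Q : ℤ) * R * f.c ≤ 4096 * 4096 * 2 ^ 56 :=
      mul_le_mul h5' (by exact_mod_cast (hF.bd f hf).c.le) (by positivity) (by norm_num)
    have h6 : 0 ≤ (Q : ℤ) * R * f.c := by positivity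
    rw [abs_le] at h3 h4
    constructor
    · norm_num at h3 h4 h5 ⊢; linarith [h3.1, h4.2]
    · norm_num at h3 h4 h5 ⊢; linarith [h3.2, h4.1]
  have hsg := sign_set hX hbd hm
  have hR0 : (0 : ℝ) < R := by exact_mod_cast hR
  have hQ0 : (0 : ℝ) < Q := by exact_mod_cast hQ
  -- the point beyond
  set σ : ℝ := (s : ℝ) / Q with hσ
  have hσ0 : 0 ≤ σ := by positivity
  set P : E := ((r : ℝ) / R) • rv x y z with hP
  have hz' : (1 + σ) • rv a b c - σ • P ∈ convexHull ℝ (KS K) := by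
    apply hF.mem
    intro f hf
    have h1 : (0 : ℤ) ≤ Q * R * f.c - (Q + s) * (R * dz f a b c) +
        (s * r : ℕ) * dz f x y z := hsg f hf
    have h2 : (0 : ℝ) ≤ Q * R * f.c - (Q + s) * (R * dz f a b c) +
        (s * r) * dz f x y z := by
      have := h1
      push_cast at this
      exact_mod_cast this
    rw [dotProduct_sub, dotProduct_smul, dotProduct_smul, hP, dot_smul_rv, nr_dot, smul_eq_mul,
      smul_eq_mul]
    have h3 : (1 + σ) * (dz f a b c : ℝ) - σ * ((r : ℝ) / R * dz f x y z) - f.c =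
        -((Q * R * f.c - (Q + s) * (R * dz f a b c) + (s * r) * dz f x y z) / (Q * R)) := by
      rw [hσ]
      field_simp
      ring
    have h4 : (0 : ℝ) ≤ (Q * R * f.c - (Q + s) * (R * dz f a b c) + (s * r) * dz f x y z) /
        (Q * R) := div_nonneg h2 (by positivity)
    linarith
  -- the conclusion
  have h5 : (1 + σ) • rv a b c - σ • P ∈ convexHull ℝ (insert P (KS K)) :=
    convexHull_mono (subset_insert _ _) hz'
  have h6 : P ∈ convexHull ℝ (insert P (KS K)) := subset_convexHull ℝ _ (mem_insert _ _)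
  have h7 := convex_convexHull ℝ (insert P (KS K)) h5 h6 (a := 1 / (1 + σ)) (b := σ / (1 + σ))
    (by positivity) (by positivity) (by field_simp)
  have h8 : (1 / (1 + σ)) • ((1 + σ) • rv a b c - σ • P) + (σ / (1 + σ)) • P = rv a b c := by
    have : (1 + σ) ≠ 0 := by positivity
    rw [smul_sub, smul_smul, smul_smul, one_div, inv_mul_cancel₀ this, one_smul]
    rw [show (1 + σ)⁻¹ * σ = σ / (1 + σ) by field_simp]
    abel
  rw [h8] at h7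
  exact h7

/-- the directions -/
noncomputable def Wl (n W : ℕ) : List ℕ := (List.range n).map (pt W)

lemma wl_len (n W : ℕ) : (Wl n W).length = n := by simp [Wl]

lemma wv_wl {n W a : ℕ} (h : a < n) :
    wv (Wl n W) a = (ix (pt W a), iy (pt W a), iz (pt W a)) := by
  unfold wv
  rw [dif_pos (by rw [wl_len]; exact h)]
  simp [Wl]

/-- the data of a leaf are correct -/
structure Cd (Q nf nd nF M1 CL CS : ℕ) (WV FV : ℕ → ℕ) (W TF : ℕ) (K : List ℕ)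
    (fs ds : List FD) (L : Set E) : Prop where
  fac : Fac K fs
  bd : ∀ h ∈ fs ++ ds, FB h
  conv : Convex ℝ L
  sub : KS K ⊆ L
  lenf : fs.length = nf
  lend : ds.length = nd
  Q1 : 0 < Q
  Q2 : Q ≤ 4096
  hM1 : M1 = pk (fun _ => 39614081257132168796771975168) fs
  hCL : Rp (fs ++ ds) CL (fun h => 2 ^ 95 - (4096 : ℕ) * h.c)
  hCS : Rp (fs ++ ds) CS (fun h => 2 ^ 95 + Q * (4096 : ℕ) * h.c)
  hW : ∀ a, Rp (fs ++ ds) (WV a) (fun h => -dz h (ix (pt W a)) (iy (pt W a)) (iz (pt W a)))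
  hF : ∀ f, Rp (fs ++ ds) (FV f)
    (fun h => -((4096 : ℕ) * dz h (ix (pt TF f)) (iy (pt TF f)) (iz (pt TF f))))
  out : ∀ f < nF, rp (pt TF f) ∉ L
  dead : ∀ h ∈ ds, Dead L {z | (h.c : ℝ) ≤ nr h ⬝ᵥ z}

section cones

variable {n Q nf nd nF M1 CL CS : ℕ} {WV FV : ℕ → ℕ} {W TF : ℕ} {K : List ℕ}
    {fs ds : List FD} {L : Set E} {J : Set (E × Set E)}

lemma lit_core (h : Cd Q nf nd nF M1 CL CS WV FV W TF K fs ds L) {E1 E2 E3 : ℕ}
    {x1 y1 z1 x2 y2 z2 x3 y3 z3 : ℤ} (v1 : V3 (fs ++ ds) 65536 E1 x1 y1 z1)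
    (v2 : V3 (fs ++ ds) 65536 E2 x2 y2 z2) (v3 : V3 (fs ++ ds) 65536 E3 x3 y3 z3)
    {a r1 r2 r3 s1 s2 s3 : ℕ} (ha : a < n)
    (hr1 : r1 < 2 ^ 24) (hr2 : r2 < 2 ^ 24) (hr3 : r3 < 2 ^ 24)
    (hs1 : s1 < 2 ^ 24) (hs2 : s2 < 2 ^ 24) (hs3 : s3 < 2 ^ 24)
    (ht : Nat.beq (Nat.land (Nat.lor (Nat.lor (litX CL (WV a) r1 s1 E1)
      (litX CL (WV a) r2 s2 E2)) (litX CL (WV a) r3 s3 E3)) M1) 0 = true) :
    ∀ x ∈ L, x ∈ convexHull ℝ {0, ((r1 : ℝ) / (4096 : ℕ)) • rv x1 y1 z1,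
      ((r2 : ℝ) / (4096 : ℕ)) • rv x2 y2 z2, ((r3 : ℝ) / (4096 : ℕ)) • rv x3 y3 z3} →
      Phi (Wf n (Wl n W)) J L x := by
  rw [beq_iff, nland, nlor, nlor, h.hM1] at ht
  have hc := clear_of_mask ht
  have b1 : |ix (pt W a)| ≤ 65536 := (ix_bd _).trans (by norm_num)
  have b2 : |iy (pt W a)| ≤ 65536 := (iy_bd _).trans (by norm_num)
  have b3 : |iz (pt W a)| ≤ 65536 := (iz_bd _).trans (by norm_num)
  obtain ⟨p1, p2, p3⟩ := v1.bd
  obtain ⟨q1, q2, q3⟩ := v2.bd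
  obtain ⟨o1, o2, o3⟩ := v3.bd
  have l1 := lit_sound h.fac (by norm_num) le_rfl h.hCL (h.hW a) v1.rep hr1 hs1 p1 p2 p3 b1 b2 b3
    (fun g hg => by
      have := hc g hg
      simp only [Nat.testBit_or, Bool.or_eq_false_iff] at this
      exact this.1.1)
  have l2 := lit_sound h.fac (by norm_num) le_rfl h.hCL (h.hW a) v2.rep hr2 hs2 q1 q2 q3 b1 b2 b3
    (fun g hg => by
      have := hc g hg
      simp only [Nat.testBit_or, Bool.or_eq_false_iff] at this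
      exact this.1.2)
  have l3 := lit_sound h.fac (by norm_num) le_rfl h.hCL (h.hW a) v3.rep hr3 hs3 o1 o2 o3 b1 b2 b3
    (fun g hg => by
      have := hc g hg
      simp only [Nat.testBit_or, Bool.or_eq_false_iff] at this
      exact this.2)
  intro x _ hx
  have e : rvt (wv (Wl n W) a) = rv (ix (pt W a)) (iy (pt W a)) (iz (pt W a)) := by
    rw [wv_wl ha]
    rfl
  rw [← e] at l1 l2 l3
  have h5 := hull4 (lit_convex (KS K) (rvt (wv (Wl n W) a))) (lit_zero h.fac.zero_int _) l1 l2 l3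
    hx
  exact Or.inl (phi_lit h.conv h.sub (wl_len n W).le h5)

lemma posr {r : ℕ} (hr : 0 < r) : (0 : ℝ) < (r : ℝ) / (4096 : ℕ) := by
  have : (0 : ℝ) < r := by exact_mod_cast hr
  positivity

/-- terminal cone, triple -/
lemma td_core (h : Cd Q nf nd nF M1 CL CS WV FV W TF K fs ds L) {E1 E2 E3 : ℕ}
    {x1 y1 z1 x2 y2 z2 x3 y3 z3 : ℤ} (v1 : V3 (fs ++ ds) 65536 E1 x1 y1 z1)
    (v2 : V3 (fs ++ ds) 65536 E2 x2 y2 z2) (v3 : V3 (fs ++ ds) 65536 E3 x3 y3 z3)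
    {a g r1 r2 r3 s1 s2 s3 : ℕ} (ha : a < n) (hg : g < nd)
    (hr1 : r1 < 2 ^ 24) (hr2 : r2 < 2 ^ 24) (hr3 : r3 < 2 ^ 24)
    (p1 : 0 < r1) (p2 : 0 < r2) (p3 : 0 < r3)
    (hs1 : s1 < 2 ^ 24) (hs2 : s2 < 2 ^ 24) (hs3 : s3 < 2 ^ 24)
    (ht : Nat.beq (Nat.land (Nat.lor (Nat.lor (litX CL (WV a) r1 s1 E1)
      (litX CL (WV a) r2 s2 E2)) (litX CL (WV a) r3 s3 E3)) M1) 0 = true)
    (hd : (fun q => Nat.beq (Nat.land (Nat.land (Nat.land (Nat.add CL (Nat.mul r1 E1))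
      (Nat.add CL (Nat.mul r2 E2))) (Nat.add CL (Nat.mul r3 E3))) q) q)
      (Nat.shiftLeft 39614081257132168796771975168 (Nat.mul 96 (Nat.add nf g))) = true) :
    Cn L (Phi (Wf n (Wl n W)) J L) (rv x1 y1 z1) (rv x2 y2 z2) (rv x3 y3 z3) := by
  refine cn_base (posr p1) (posr p2) (posr p3)
    (lit_core h v1 v2 v3 ha hr1 hr2 hr3 hs1 hs2 hs3 ht) ?_
  have hg' : nf + g < (fs ++ ds).length := by
    rw [List.length_append, h.lenf, h.lend]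
    omega
  have hgd : (fs ++ ds)[nf + g] ∈ ds := by
    rw [List.getElem_append_right (by rw [h.lenf]; omega)]
    exact List.getElem_mem _
  have hm : (39614081257132168796771975168 * 2 ^ (96 * (nf + g))).testBit
      (96 * (nf + g) + 95) = true := by
    have e : 39614081257132168796771975168 * 2 ^ (96 * (nf + g)) = 2 ^ (96 * (nf + g) + 95) := by
      rw [pow_add]
      norm_num [mul_comm]
    rw [e]
    exact Nat.testBit_two_pow_self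
  have hd' := (beq_iff _ _).1 hd
  rw [nland, nland, nland, nshl, nmul, nadd, nadd, nadd, nadd, nmul, nmul, nmul] at hd'
  have hc := land_mask hd' hm
  simp only [Nat.testBit_and, Bool.and_eq_true] at hc
  obtain ⟨a1, a2, a3⟩ := v1.bd
  obtain ⟨q1, q2, q3⟩ := v2.bd
  obtain ⟨o1, o2, o3⟩ := v3.bd
  exact out_dead (posr p1) (posr p2) (posr p3) (h.dead _ hgd)
    (dt_sound h.bd hg' (by norm_num) le_rfl h.hCL v1.rep hr1 a1 a2 a3 hc.1.1)
    (dt_sound h.bd hg' (by norm_num) le_rfl h.hCL v2.rep hr2 q1 q2 q3 hc.1.2)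
    (dt_sound h.bd hg' (by norm_num) le_rfl h.hCL v3.rep hr3 o1 o2 o3 hc.2)

/-- terminal cone, shadow -/
lemma tn_core (h : Cd Q nf nd nF M1 CL CS WV FV W TF K fs ds L) {E1 E2 E3 : ℕ}
    {x1 y1 z1 x2 y2 z2 x3 y3 z3 : ℤ} (v1 : V3 (fs ++ ds) 65536 E1 x1 y1 z1)
    (v2 : V3 (fs ++ ds) 65536 E2 x2 y2 z2) (v3 : V3 (fs ++ ds) 65536 E3 x3 y3 z3)
    {a f r1 r2 r3 s1 s2 s3 t1 t2 t3 : ℕ} (ha : a < n) (hf : f < nF)
    (hr1 : r1 < 2 ^ 24) (hr2 : r2 < 2 ^ 24) (hr3 : r3 < 2 ^ 24)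
    (p1 : 0 < r1) (p2 : 0 < r2) (p3 : 0 < r3)
    (hs1 : s1 < 2 ^ 24) (hs2 : s2 < 2 ^ 24) (hs3 : s3 < 2 ^ 24)
    (ht1 : t1 < 2 ^ 20) (ht2 : t2 < 2 ^ 20) (ht3 : t3 < 2 ^ 20)
    (hb1 : t1 * r1 < 2 ^ 43) (hb2 : t2 * r2 < 2 ^ 43) (hb3 : t3 * r3 < 2 ^ 43)
    (ht : Nat.beq (Nat.land (Nat.lor (Nat.lor (litX CL (WV a) r1 s1 E1)
      (litX CL (WV a) r2 s2 E2)) (litX CL (WV a) r3 s3 E3)) M1) 0 = true)
    (hd : Nat.beq (Nat.land (Nat.land (Nat.land (xh Q CS (FV f) r1 t1 E1)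
      (xh Q CS (FV f) r2 t2 E2)) (xh Q CS (FV f) r3 t3 E3)) M1) M1 = true) :
    Cn L (Phi (Wf n (Wl n W)) J L) (rv x1 y1 z1) (rv x2 y2 z2) (rv x3 y3 z3) := by
  refine cn_base (posr p1) (posr p2) (posr p3)
    (lit_core h v1 v2 v3 ha hr1 hr2 hr3 hs1 hs2 hs3 ht) ?_
  have hd' := (beq_iff _ _).1 hd
  rw [nland, nland, nland, h.hM1] at hd'
  have hc := set_of_mask hd'
  have hint := h.fac.zero_int
  have h0L : (0 : E) ∈ L := convexHull_min h.sub h.conv h.fac.zero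
  have hne : (KS K).Nonempty := by
    rw [nonempty_iff_ne_empty]
    intro he
    rw [he] at hint
    simp at hint
  have b1 : |ix (pt TF f)| ≤ 65536 := (ix_bd _).trans (by norm_num)
  have b2 : |iy (pt TF f)| ≤ 65536 := (iy_bd _).trans (by norm_num)
  have b3 : |iz (pt TF f)| ≤ 65536 := (iz_bd _).trans (by norm_num)
  obtain ⟨a1, a2, a3⟩ := v1.bd
  obtain ⟨q1, q2, q3⟩ := v2.bd
  obtain ⟨o1, o2, o3⟩ := v3.bd
  refine out_dead (posr p1) (posr p2) (posr p3)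
    (dead_shd h.conv h.sub hne h0L (h.out f hf)) ?_ ?_ ?_
  · refine sh_soundQ h.fac h.Q1 h.Q2 (by norm_num) le_rfl h.hCS (h.hF f) v1.rep ht1 hb1
      a1 a2 a3 b1 b2 b3 (fun g hg => ?_)
    have := hc g hg
    simp only [Nat.testBit_and, Bool.and_eq_true] at this
    exact this.1.1
  · refine sh_soundQ h.fac h.Q1 h.Q2 (by norm_num) le_rfl h.hCS (h.hF f) v2.rep ht2 hb2
      q1 q2 q3 b1 b2 b3 (fun g hg => ?_)
    have := hc g hg
    simp only [Nat.testBit_and, Bool.and_eq_true] at this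
    exact this.1.2
  · refine sh_soundQ h.fac h.Q1 h.Q2 (by norm_num) le_rfl h.hCS (h.hF f) v3.rep ht3 hb3
      o1 o2 o3 b1 b2 b3 (fun g hg => ?_)
    have := hc g hg
    simp only [Nat.testBit_and, Bool.and_eq_true] at this
    exact this.2

/-- the check of a terminal cone is correct -/
structure SndT (hs : List FD) (L : Set E) (Φ : E → Prop)
    (T : ℕ → ℕ → ℕ → ℕ → (ℕ → Bool) → Bool) : Prop where
  out : ∀ {E1 E2 E3 S : ℕ} {k : ℕ → Bool} {x1 y1 z1 x2 y2 z2 x3 y3 z3 : ℤ},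
    V3 hs 65536 E1 x1 y1 z1 → V3 hs 65536 E2 x2 y2 z2 → V3 hs 65536 E3 x3 y3 z3 →
    T E1 E2 E3 S k = true →
    Cn L Φ (rv x1 y1 z1) (rv x2 y2 z2) (rv x3 y3 z3) ∧ ∃ S', k S' = true

lemma le_lor3 (a b c : ℕ) : a ≤ Nat.lor (Nat.lor a b) c ∧ b ≤ Nat.lor (Nat.lor a b) c ∧
    c ≤ Nat.lor (Nat.lor a b) c := by
  rw [nlor, nlor]
  exact ⟨Nat.left_le_or.trans Nat.left_le_or, Nat.right_le_or.trans Nat.left_le_or,
    Nat.right_le_or⟩

lemma land_le (a b : ℕ) : Nat.land a b ≤ b := Nat.and_le_right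

lemma rd_pos (BI H Rc X : ℕ) : 0 < rd BI H Rc X := Nat.succ_pos _

lemma tD_sound (h : Cd Q nf nd nF M1 CL CS WV FV W TF K fs ds L) {BI C0 m o2 o3 oe : ℕ}
    (hm : m < 2 ^ 24) : SndT (fs ++ ds) L (Phi (Wf n (Wl n W)) J L)
    (fun E1 E2 E3 => tD n nf nd M1 BI C0 CL WV m o2 o3 oe E1 E2 E3) := by
  refine ⟨?_⟩
  intro E1 E2 E3 S k x1 y1 z1 x2 y2 z2 x3 y3 z3 v1 v2 v3 ht
  obtain ⟨ht, h1⟩ := br ht
  obtain ⟨ht, h2⟩ := br ht
  obtain ⟨ht, h3⟩ := br ht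
  obtain ⟨ht, h4⟩ := br ht
  obtain ⟨ht, h5⟩ := br ht
  have h3' := Nat.le_of_ble_eq_true h3
  obtain ⟨r1, r2, r3⟩ := le_lor3
    (rd BI (Nat.mul 96 (Nat.add nf (Nat.land (Nat.shiftRight S 4) 63)))
      (Nat.sub (Nat.mul 4096 (Nat.land (Nat.shiftRight C0
        (Nat.mul 96 (Nat.add nf (Nat.land (Nat.shiftRight S 4) 63))))
        79228162514264337593543950335)) 1) E1)
    (rd BI (Nat.mul 96 (Nat.add nf (Nat.land (Nat.shiftRight S 4) 63)))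
      (Nat.sub (Nat.mul 4096 (Nat.land (Nat.shiftRight C0
        (Nat.mul 96 (Nat.add nf (Nat.land (Nat.shiftRight S 4) 63))))
        79228162514264337593543950335)) 1) E2)
    (rd BI (Nat.mul 96 (Nat.add nf (Nat.land (Nat.shiftRight S 4) 63)))
      (Nat.sub (Nat.mul 4096 (Nat.land (Nat.shiftRight C0
        (Nat.mul 96 (Nat.add nf (Nat.land (Nat.shiftRight S 4) 63))))
        79228162514264337593543950335)) 1) E3)
  have key : ∀ {r : ℕ}, r ≤ 16777215 → r < 2 ^ 24 := fun hr => by omega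
  have keym : ∀ {s : ℕ}, Nat.land s m < 2 ^ 24 := fun {s} => lt_of_le_of_lt (land_le s m) hm
  exact ⟨td_core h v1 v2 v3 (Nat.le_of_ble_eq_true h1) (Nat.le_of_ble_eq_true h2)
    (key (r1.trans h3')) (key (r2.trans h3')) (key (r3.trans h3')) (rd_pos _ _ _ _)
    (rd_pos _ _ _ _) (rd_pos _ _ _ _) keym keym keym h5 h4, _, ht⟩

lemma tN_sound (h : Cd Q nf nd nF M1 CL CS WV FV W TF K fs ds L) :
    SndT (fs ++ ds) L (Phi (Wf n (Wl n W)) J L)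
    (fun E1 E2 E3 => tN n Q nF M1 CL CS WV FV E1 E2 E3) := by
  refine ⟨?_⟩
  intro E1 E2 E3 S k x1 y1 z1 x2 y2 z2 x3 y3 z3 v1 v2 v3 ht
  obtain ⟨ht, h1⟩ := br ht
  obtain ⟨ht, h2⟩ := br ht
  obtain ⟨ht, h3⟩ := br ht
  obtain ⟨ht, h4⟩ := br ht
  obtain ⟨ht, h5⟩ := br ht
  obtain ⟨ht, h6⟩ := br ht
  obtain ⟨ht, h7⟩ := br ht
  obtain ⟨ht, h8⟩ := br ht
  have keyr : ∀ s : ℕ, xr s < 2 ^ 24 := fun s =>
    lt_of_le_of_lt (land_le s _) (by norm_num)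
  have keys : ∀ s : ℕ, Nat.land s 262143 < 2 ^ 24 := fun s =>
    lt_of_le_of_lt (land_le s _) (by norm_num)
  have keyt : ∀ s : ℕ, xt s < 2 ^ 20 := fun s =>
    lt_of_le_of_lt (land_le _ _) (by norm_num)
  have h6' := Nat.le_of_ble_eq_true h6
  obtain ⟨q1, q2, q3⟩ := le_lor3
    (Nat.mul (xt (Nat.shiftRight S 13)) (xr (Nat.shiftRight S 13)))
    (Nat.mul (xt (Nat.shiftRight S 75)) (xr (Nat.shiftRight S 75)))
    (Nat.mul (xt (Nat.shiftRight S 137)) (xr (Nat.shiftRight S 137)))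
  have key : ∀ {r : ℕ}, r ≤ 8796093022207 → r < 2 ^ 43 := fun hr =>
    lt_of_le_of_lt hr (by norm_num)
  exact ⟨tn_core h v1 v2 v3 (Nat.le_of_ble_eq_true h1) (Nat.le_of_ble_eq_true h2)
    (keyr _) (keyr _) (keyr _) (Nat.le_of_ble_eq_true h5) (Nat.le_of_ble_eq_true h4)
    (Nat.le_of_ble_eq_true h3) (keys _) (keys _) (keys _) (keyt _) (keyt _) (keyt _)
    (key (q1.trans h6')) (key (q2.trans h6')) (key (q3.trans h6')) h8 h7, _, ht⟩

/-- the check of a tree of cones is correct -/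
structure SndC (hs : List FD) (L : Set E) (Φ : E → Prop)
    (T : ℕ → ℕ → ℕ → ℕ → ℕ → ℕ → ℕ → (ℕ → Bool) → Bool) : Prop where
  out : ∀ {b1 b2 b3 E1 E2 E3 S : ℕ} {k : ℕ → Bool} {x1 y1 z1 x2 y2 z2 x3 y3 z3 : ℤ},
    V3 hs b1 E1 x1 y1 z1 → V3 hs b2 E2 x2 y2 z2 → V3 hs b3 E3 x3 y3 z3 →
    b1 ≤ 65536 → b2 ≤ 65536 → b3 ≤ 65536 → T b1 b2 b3 E1 E2 E3 S k = true →
    Cn L Φ (rv x1 y1 z1) (rv x2 y2 z2) (rv x3 y3 z3) ∧ ∃ S', k S' = true

lemma sp_true {b1 b2 E1 E2 al be : ℕ} {k : ℕ → ℕ → Bool} (h : sp b1 b2 E1 E2 al be k = true) :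
    al * b1 + be * b2 ≤ 65536 ∧ k (al * b1 + be * b2) (al * E1 + be * E2) = true := by
  obtain ⟨h1, h2⟩ := br h
  exact ⟨Nat.le_of_ble_eq_true h2, h1⟩

lemma nrc {a : Bool} {g : ℕ → Bool} {m : ℕ}
    (h : @Nat.rec (fun _ => Bool) a (fun t _ => g t) m = true) : a = true ∨ ∃ t, g t = true := by
  cases m
  · exact Or.inl h
  · exact Or.inr ⟨_, h⟩

lemma sq_sound {hs : List FD} {Φ : E → Prop}
    {ih : ℕ → ℕ → ℕ → ℕ → ℕ → ℕ → ℕ → (ℕ → Bool) → Bool} (hi : SndC hs L Φ ih) {e : ℕ}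
    {b1 b2 b3 E1 E2 E3 al be S : ℕ} {k : ℕ → Bool} {x1 y1 z1 x2 y2 z2 x3 y3 z3 : ℤ}
    (v1 : V3 hs b1 E1 x1 y1 z1) (v2 : V3 hs b2 E2 x2 y2 z2) (v3 : V3 hs b3 E3 x3 y3 z3)
    (p1 : b1 ≤ 65536) (p2 : b2 ≤ 65536) (p3 : b3 ≤ 65536) (ha : 0 < al) (hb : 0 < be)
    (h : sq ih e b1 b2 b3 E1 E2 E3 al be S k = true) :
    Cn L Φ (rv x1 y1 z1) (rv x2 y2 z2) (rv x3 y3 z3) ∧ ∃ S', k S' = true := by
  have ha' : (0 : ℝ) < al := by exact_mod_cast ha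
  have hb' : (0 : ℝ) < be := by exact_mod_cast hb
  rcases nrc h with h | ⟨t, h⟩
  · obtain ⟨q, h⟩ := sp_true h
    have vm := v1.comb v2 al be
    obtain ⟨c1, S', h⟩ := hi.out v1 vm v3 p1 q p3 h
    obtain ⟨c2, h⟩ := hi.out vm v2 v3 q p2 p3 h
    rw [rv_comb] at c1 c2
    exact ⟨cn_split1 ha' hb' rfl c1 c2, h⟩
  · rcases nrc h with h | ⟨t, h⟩
    · obtain ⟨q, h⟩ := sp_true h
      have vm := v2.comb v3 al be
      obtain ⟨c1, S', h⟩ := hi.out v1 v2 vm p1 p2 q h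
      obtain ⟨c2, h⟩ := hi.out v1 vm v3 p1 q p3 h
      rw [rv_comb] at c1 c2
      exact ⟨(cn_split1 ha' hb' rfl c1.rot.rot c2.rot.rot).rot, h⟩
    · obtain ⟨q, h⟩ := sp_true h
      have vm := v3.comb v1 al be
      obtain ⟨c1, S', h⟩ := hi.out v1 v2 vm p1 p2 q h
      obtain ⟨c2, h⟩ := hi.out vm v2 v3 q p2 p3 h
      rw [rv_comb] at c1 c2
      exact ⟨(cn_split1 ha' hb' rfl c2.rot c1.rot).rot.rot, h⟩

lemma gc_sound {hs : List FD} {Φ : E → Prop}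
    {TD TX TN : ℕ → ℕ → ℕ → ℕ → (ℕ → Bool) → Bool} (hD : SndT hs L Φ TD) (hX : SndT hs L Φ TX)
    (hN : SndT hs L Φ TN) (m : ℕ) : SndC hs L Φ (gc TD TX TN m) := by
  induction m with
  | zero =>
    refine ⟨?_⟩
    intro b1 b2 b3 E1 E2 E3 S k x1 y1 z1 x2 y2 z2 x3 y3 z3 v1 v2 v3 p1 p2 p3 h
    exact absurd (show false = true from h) Bool.false_ne_true
  | succ m ih =>
    refine ⟨?_⟩
    intro b1 b2 b3 E1 E2 E3 S k x1 y1 z1 x2 y2 z2 x3 y3 z3 v1 v2 v3 p1 p2 p3 h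
    rcases nrc h with h | ⟨t, h⟩
    · exact hD.out (v1.mono p1) (v2.mono p2) (v3.mono p3) h
    rcases nrc h with h | ⟨t, h⟩
    · exact hN.out (v1.mono p1) (v2.mono p2) (v3.mono p3) h
    rcases nrc h with h | ⟨t, h⟩
    · rcases nrc h with h | ⟨t, h⟩
      · exact hX.out (v1.mono p1) (v2.mono p2) (v3.mono p3) h
      · exact sq_sound ih v1 v2 v3 p1 p2 p3 (Nat.succ_pos _) (Nat.succ_pos _) h
    · exact sq_sound ih v1 v2 v3 p1 p2 p3 (Nat.succ_pos _) (Nat.succ_pos _) h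

end cones

end Pool.Agent.Lib.MP_5e7226_co.C8.TF
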