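import Pool.Agent.Lib.MP_5e7226_co.C8.TFastS2

/-!
# Soundness of the fast evaluation, third part: leaves and trees
-/

set_option autoImplicit false

open Set

namespace Pool.Agent.Lib.MP_5e7226_co.C8.TF

open GB

lemma v3_unit {hs : List FD} {E' : ℕ} {x y z : ℤ} (hE : Rp hs E' (fun h => dz h x y z))
    (hx : |x| ≤ 1) (hy : |y| ≤ 1) (hz : |z| ≤ 1) : V3 hs 1 E' x y z :=
  ⟨hE, by simpa using hx, by simpa using hy, by simpa using hz⟩

theorem o8_sound {hs : List FD} {L : Set E} {Φ : E → Prop}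
    {TD TX TN : ℕ → ℕ → ℕ → ℕ → (ℕ → Bool) → Bool} (hD : SndT hs L Φ TD) (hX : SndT hs L Φ TX)
    (hN : SndT hs L Φ TN) {BI C0 C1 C2 C3 D1 D2 D3 : ℕ} (hn : Nu hs BI C0 C1 C2 C3 D1 D2 D3)
    {S0 S1 S2 S3 S4 S5 S6 S7 : ℕ}
    (h : o8 TD TX TN C1 C2 C3 D1 D2 D3 S0 S1 S2 S3 S4 S5 S6 S7 = true) :
    ∀ x ∈ L, Φ x := by
  obtain ⟨h, k0⟩ := br h
  obtain ⟨h, k1⟩ := br h
  obtain ⟨h, k2⟩ := br h
  obtain ⟨h, k3⟩ := br h
  obtain ⟨h, k4⟩ := br h
  obtain ⟨h, k5⟩ := br h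
  obtain ⟨k7, k6⟩ := br h
  have p1 : V3 hs 1 C1 1 0 0 := v3_unit (hn.hC1.congr (fun f _ => by simp [dz]))
    (by norm_num) (by norm_num) (by norm_num)
  have p2 : V3 hs 1 C2 0 1 0 := v3_unit (hn.hC2.congr (fun f _ => by simp [dz]))
    (by norm_num) (by norm_num) (by norm_num)
  have p3 : V3 hs 1 C3 0 0 1 := v3_unit (hn.hC3.congr (fun f _ => by simp [dz]))
    (by norm_num) (by norm_num) (by norm_num)
  have m1 : V3 hs 1 D1 (-1) 0 0 := v3_unit (hn.hD1.congr (fun f _ => by simp [dz]))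
    (by norm_num) (by norm_num) (by norm_num)
  have m2 : V3 hs 1 D2 0 (-1) 0 := v3_unit (hn.hD2.congr (fun f _ => by simp [dz]))
    (by norm_num) (by norm_num) (by norm_num)
  have m3 : V3 hs 1 D3 0 0 (-1) := v3_unit (hn.hD3.congr (fun f _ => by simp [dz]))
    (by norm_num) (by norm_num) (by norm_num)
  have l1 : (1 : ℕ) ≤ 65536 := by norm_num
  have c0 := ((gc_sound hD hX hN 64).out p1 p2 p3 l1 l1 l1 k0).1
  have c1 := ((gc_sound hD hX hN 64).out m1 p2 p3 l1 l1 l1 k1).1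
  have c2 := ((gc_sound hD hX hN 64).out p1 m2 p3 l1 l1 l1 k2).1
  have c3 := ((gc_sound hD hX hN 64).out m1 m2 p3 l1 l1 l1 k3).1
  have c4 := ((gc_sound hD hX hN 64).out p1 p2 m3 l1 l1 l1 k4).1
  have c5 := ((gc_sound hD hX hN 64).out m1 p2 m3 l1 l1 l1 k5).1
  have c6 := ((gc_sound hD hX hN 64).out p1 m2 m3 l1 l1 l1 k6).1
  have c7 := ((gc_sound hD hX hN 64).out m1 m2 m3 l1 l1 l1 k7).1
  intro x hx
  have dec : ∀ a b c : ℝ, ∀ e1 e2 e3 : ℤ, x 0 = a * e1 → x 1 = b * e2 → x 2 = c * e3 →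
      x = a • rv e1 0 0 + b • rv 0 e2 0 + c • rv 0 0 e3 := by
    intro a b c e1 e2 e3 h1 h2 h3
    funext i
    fin_cases i
    · simpa [rv] using h1
    · simpa [rv] using h2
    · simpa [rv] using h3
  have use : ∀ e1 e2 e3 : ℤ, ∀ a b c : ℝ, 0 ≤ a → 0 ≤ b → 0 ≤ c → x 0 = a * e1 → x 1 = b * e2 →
      x 2 = c * e3 → Cn L Φ (rv e1 0 0) (rv 0 e2 0) (rv 0 0 e3) → Φ x := by
    intro e1 e2 e3 a b c ha hb hc h1 h2 h3 hcn
    have e := dec a b c e1 e2 e3 h1 h2 h3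
    have hx' := hx
    rw [e] at hx' ⊢
    exact hcn a b c ha hb hc hx'
  rcases le_total 0 (x 0) with hx0 | hx0 <;> rcases le_total 0 (x 1) with hx1 | hx1 <;>
    rcases le_total 0 (x 2) with hx2 | hx2
  · exact use 1 1 1 (x 0) (x 1) (x 2) hx0 hx1 hx2 (by simp) (by simp) (by simp) c0
  · exact use 1 1 (-1) (x 0) (x 1) (-x 2) hx0 hx1 (by linarith) (by simp) (by simp) (by simp) c4
  · exact use 1 (-1) 1 (x 0) (-x 1) (x 2) hx0 (by linarith) hx2 (by simp) (by simp) (by simp) c2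
  · exact use 1 (-1) (-1) (x 0) (-x 1) (-x 2) hx0 (by linarith) (by linarith) (by simp) (by simp)
      (by simp) c6
  · exact use (-1) 1 1 (-x 0) (x 1) (x 2) (by linarith) hx1 hx2 (by simp) (by simp) (by simp) c1
  · exact use (-1) 1 (-1) (-x 0) (x 1) (-x 2) (by linarith) hx1 (by linarith) (by simp) (by simp)
      (by simp) c5
  · exact use (-1) (-1) 1 (-x 0) (-x 1) (x 2) (by linarith) (by linarith) hx2 (by simp) (by simp)
      (by simp) c3
  · exact use (-1) (-1) (-1) (-x 0) (-x 1) (-x 2) (by linarith) (by linarith) (by linarith)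
      (by simp) (by simp) (by simp) c7

lemma fl_mem {T k w n S : ℕ} {h : FD} (hh : h ∈ fl T k w n S) : ∃ j < n,
    h = mkFD k (pt T (i7 (S / 2 ^ (w * j)) 0)) (pt T (i7 (S / 2 ^ (w * j)) 7))
      (pt T (i7 (S / 2 ^ (w * j)) 14)) := by
  obtain ⟨j, hj, rfl⟩ := List.getElem_of_mem hh
  refine ⟨j, by rw [fl_len] at hj; exact hj, fl_get T k w n S j hj⟩

/-- the three points are in the list -/
lemma fl_in {K : List ℕ} {k w n S : ℕ} {h : FD} (hh : h ∈ fl (tk K) k w n S)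
    (hi : ∀ j < n, i3 (ln K) (S / 2 ^ (w * j)) = true) :
    ∃ p ∈ md K, ∃ q ∈ md K, ∃ r ∈ md K, h = mkFD k p q r := by
  obtain ⟨j, hj, e⟩ := fl_mem hh
  obtain ⟨h1, h2, h3⟩ := i3_true (hi j hj)
  rw [ln_eq] at h1 h2 h3
  exact ⟨_, pt_md K _ h1, _, pt_md K _ h2, _, pt_md K _ h3, e⟩

/-- soundness of a leaf -/
theorem lf_sound {C : Set (Set E)} (hC : Frm C 17179869184) {n Q : ℕ} (hQ : 0 < Q)
    (hQ' : Q ≤ 4096) {K F : List ℕ} (h0 : (0 : E) ∈ convexHull ℝ (KS K))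
    {H W S0 S1 S2 S3 S4 S5 S6 S7 : ℕ} (h : lf n Q K F H W S0 S1 S2 S3 S4 S5 S6 S7 = true) :
    ∀ L ∈ C, (toSt 4096 ⟨K, F, []⟩).Holds L → ∀ x ∈ L,
      Phi (Wf n (Wl n W)) (JS 4096 []) L x := by
  intro L hL hst
  obtain ⟨nf, hnf⟩ : ∃ nf, nf = Nat.land H 255 := ⟨_, rfl⟩
  obtain ⟨nd, hnd⟩ : ∃ nd, nd = Nat.land (Nat.shiftRight H 8) 127 := ⟨_, rfl⟩
  obtain ⟨FC, hFC⟩ : ∃ FC, FC = Nat.shiftRight H 15 := ⟨_, rfl⟩
  obtain ⟨DC, hDC⟩ : ∃ DC, DC = Nat.shiftRight H (Nat.add 15 (Nat.mul 45 nf)) := ⟨_, rfl⟩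
  have h' : l2 n Q (ln K) (ln F) nf nd FC DC (tk K) (tk F) W
      (ap (fl (tk K) 0 45 nf FC) (fl (tk K) 17179869184 21 nd DC)) S0 S1 S2 S3 S4 S5 S6 S7 =
      true := by
    rw [hDC, hFC, hnf, hnd]
    exact h
  rw [ap_eq] at h'
  clear h hDC hFC hnf hnd
  set fs := fl (tk K) 0 45 nf FC with hfs
  set ds := fl (tk K) 17179869184 21 nd DC with hds
  have lenf : fs.length = nf := fl_len _ _ _ _ _
  have lend : ds.length = nd := fl_len _ _ _ _ _
  have hlen : Nat.add nf nd = (fs ++ ds).length := by rw [List.length_append, lenf, lend]; rfl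
  have hbd : ∀ h ∈ fs ++ ds, FB h := by
    intro h hh
    rcases List.mem_append.1 hh with hh | hh
    · obtain ⟨j, _, rfl⟩ := fl_mem hh
      exact mkFD_bd (by norm_num)
    · obtain ⟨j, _, rfl⟩ := fl_mem hh
      exact mkFD_bd (by norm_num)
  have hn := nu_of hbd hlen
  obtain ⟨BI, hBI⟩ : ∃ X, X = Nat.mul 39614081257132168796771975168 (on (Nat.add nf nd)) :=
    ⟨_, rfl⟩
  obtain ⟨C0, hC0⟩ : ∃ X, X = pf FD.c (fs ++ ds) := ⟨_, rfl⟩
  obtain ⟨C1, hC1⟩ : ∃ X, X = Nat.add (pf FD.A1 (fs ++ ds)) (Nat.sub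
    (Nat.shiftLeft 1 (Nat.mul 96 (Nat.add nf nd))) (pf FD.B1 (fs ++ ds))) := ⟨_, rfl⟩
  obtain ⟨C2, hC2⟩ : ∃ X, X = Nat.add (pf FD.A2 (fs ++ ds)) (Nat.sub
    (Nat.shiftLeft 1 (Nat.mul 96 (Nat.add nf nd))) (pf FD.B2 (fs ++ ds))) := ⟨_, rfl⟩
  obtain ⟨C3, hC3⟩ : ∃ X, X = Nat.add (pf FD.A3 (fs ++ ds)) (Nat.sub
    (Nat.shiftLeft 1 (Nat.mul 96 (Nat.add nf nd))) (pf FD.B3 (fs ++ ds))) := ⟨_, rfl⟩
  obtain ⟨D1, hD1⟩ : ∃ X, X = Nat.add (pf FD.B1 (fs ++ ds)) (Nat.sub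
    (Nat.shiftLeft 1 (Nat.mul 96 (Nat.add nf nd))) (pf FD.A1 (fs ++ ds))) := ⟨_, rfl⟩
  obtain ⟨D2, hD2⟩ : ∃ X, X = Nat.add (pf FD.B2 (fs ++ ds)) (Nat.sub
    (Nat.shiftLeft 1 (Nat.mul 96 (Nat.add nf nd))) (pf FD.A2 (fs ++ ds))) := ⟨_, rfl⟩
  obtain ⟨D3, hD3⟩ : ∃ X, X = Nat.add (pf FD.B3 (fs ++ ds)) (Nat.sub
    (Nat.shiftLeft 1 (Nat.mul 96 (Nat.add nf nd))) (pf FD.A3 (fs ++ ds))) := ⟨_, rfl⟩
  rw [← hBI, ← hC0, ← hC1, ← hC2, ← hC3, ← hD1, ← hD2, ← hD3] at hn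
  have h3 : l3 n Q (ln K) (ln F) nf nd FC DC (tk K) (tk F) W
      (Nat.mul 39614081257132168796771975168 (on nf)) BI C0 C1 C2 C3 D1 D2 D3
      S0 S1 S2 S3 S4 S5 S6 S7 = true := by
    rw [hBI, hC0, hC1, hC2, hC3, hD1, hD2, hD3]
    exact h'
  clear h' hC0 hC1 hC2 hC3 hD1 hD2 hD3
  obtain ⟨h3, k1⟩ := br h3
  obtain ⟨h3, k2⟩ := br h3
  obtain ⟨h3, k3⟩ := br h3
  obtain ⟨h3, k4⟩ := br h3
  obtain ⟨h3, k5⟩ := br h3
  have k2' : 1 ≤ nf := Nat.le_of_ble_eq_true k2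
  -- the offsets are positive
  have hCC := hn.CC hlen
  have hpos : ∀ h ∈ fs ++ ds, 0 < h.c := by
    have e1 : BI = pk (fun _ => 39614081257132168796771975168) (fs ++ ds) := by
      rw [pk_const, hBI, hlen]; rfl
    rw [e1] at k5
    have k5' := set_of_mask ((beq_iff _ _).1 k5)
    have hs1 := sign_set hCC (fun f hf => by
      have a2 : (f.c : ℤ) < 2 ^ 56 := by exact_mod_cast (hbd f hf).c
      have a3 : (0 : ℤ) ≤ f.c := Nat.cast_nonneg _
      constructor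
      · norm_num; linarith
      · norm_num at a2 ⊢; linarith) k5'
    intro f hf
    have := hs1 f hf
    omega
  -- the facets
  have hfc := fc_true k4
  have hdc := dc_true k3
  have hV : ∀ k, Rp (fs ++ ds) (Nat.add (Nat.add C0 (Nat.mul 39614081257132168796771975167
      (on (Nat.add nf nd)))) (vn D1 D2 D3 (Nat.mul 32768 (Nat.add (Nat.add C1 C2) C3))
      (pt (tk K) k))) (fun h => 2 ^ 95 + ((h.c : ℤ) - 1 -
      dz h (ix (pt (tk K) k)) (iy (pt (tk K) k)) (iz (pt (tk K) k)))) := by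
    intro k
    refine (hCC.add (hn.K0 (pt (tk K) k))).congr (fun f _ => ?_)
    ring
  have hgood : ∀ h ∈ fs, FGood fs h := by
    intro h hh
    have hp := hpos h (List.mem_append_left _ hh)
    obtain ⟨j, hj, rfl⟩ := fl_mem hh
    obtain ⟨_, n1, n2, n3⟩ := hfc j hj
    exact ⟨hp, nb_facet hfs hbd hV n1, nb_facet hfs hbd hV n2, nb_facet hfs hbd hV n3⟩
  have hok : FctOk (fs.map toF) := by
    refine fctOk_of ?_ hgood ?_
    · intro he
      rw [he] at lenf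
      simp at lenf
      omega
    · intro h hh
      obtain ⟨j, _, rfl⟩ := fl_mem hh
      exact ⟨_, _, _, rfl⟩
  have h0' : (0 : E) ∈ convexHull ℝ (KS (md K)) := by rw [KS_md]; exact h0
  have hfac : Fac (md K) fs := by
    refine ⟨hok, fun h hh => hbd h (List.mem_append_left _ hh), fun h hh => ?_, h0'⟩
    obtain ⟨p, hp, q, hq, r, hr, rfl⟩ := fl_in hh (fun j hj => (hfc j hj).1)
    exact ⟨hp, hq, hr⟩
  have hsub : KS (md K) ⊆ L := by rw [KS_md]; exact hst.pts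
  have hout : ∀ f < ln F, rp (pt (tk F) f) ∉ L := by
    intro f hf
    rw [ln_eq] at hf
    rw [pt_tk F f hf, rp_mod]
    exact hst.out _ ⟨_, List.getElem_mem hf, rfl⟩
  have hdead : ∀ h ∈ ds, Dead L {z | (h.c : ℝ) ≤ nr h ⬝ᵥ z} := by
    intro h hh
    have hp := hpos h (List.mem_append_right _ hh)
    obtain ⟨p, h1, q, h2, r, h4, rfl⟩ := fl_in hh hdc
    exact hC.dead L hL p q r (hsub ⟨p, h1, rfl⟩) (hsub ⟨q, h2, rfl⟩) (hsub ⟨r, h4, rfl⟩) hp
  have hcd : Cd Q nf nd (ln F) (Nat.mul 39614081257132168796771975168 (on nf))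
      (Nat.add BI (Nat.mul 4096
        (Nat.sub (Nat.shiftLeft 1 (Nat.mul 96 (Nat.add nf nd))) C0)))
      (Nat.add BI (Nat.mul (Nat.mul 4096 Q) C0))
      (fun a => vn D1 D2 D3 (Nat.mul 32768 (Nat.add (Nat.add C1 C2) C3)) (pt W a))
      (fun f => Nat.mul 4096 (vn D1 D2 D3 (Nat.mul 32768 (Nat.add (Nat.add C1 C2) C3))
        (pt (tk F) f))) W (tk F) (md K) fs ds L := by
    refine ⟨hfac, hbd, hC.conv L hL, hsub, lenf, lend, hQ, hQ', ?_, hn.CL hlen, ?_,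
      fun a => hn.K0 _, fun f => ?_, hout, hdead⟩
    · rw [pk_const, lenf, nmul]
    · refine (hn.hBI.add (hn.hC0.mul (4096 * Q))).congr (fun f _ => ?_)
      push_cast
      ring
    · refine ((hn.K0 (pt (tk F) f)).mul 4096).congr (fun f _ => ?_)
      ring
  have e1 : (32767 : ℕ) < 2 ^ 24 := by norm_num
  have e2 : (262143 : ℕ) < 2 ^ 24 := by norm_num
  have t1 : SndT (fs ++ ds) L (Phi (Wf n (Wl n W)) (JS 4096 []) L) (fun E1 E2 E3 =>
      tD n nf nd (Nat.mul 39614081257132168796771975168 (on nf)) BI C0 (Nat.add BI (Nat.mul 4096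
        (Nat.sub (Nat.shiftLeft 1 (Nat.mul 96 (Nat.add nf nd))) C0)))
      (fun a => vn D1 D2 D3 (Nat.mul 32768 (Nat.add (Nat.add C1 C2) C3)) (pt W a)) 32767 25 40 55
      E1 E2 E3) := tD_sound hcd e1
  have t2 : SndT (fs ++ ds) L (Phi (Wf n (Wl n W)) (JS 4096 []) L) (fun E1 E2 E3 =>
      tD n nf nd (Nat.mul 39614081257132168796771975168 (on nf)) BI C0 (Nat.add BI (Nat.mul 4096
        (Nat.sub (Nat.shiftLeft 1 (Nat.mul 96 (Nat.add nf nd))) C0)))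
      (fun a => vn D1 D2 D3 (Nat.mul 32768 (Nat.add (Nat.add C1 C2) C3)) (pt W a)) 262143 28 46 64
      E1 E2 E3) := tD_sound hcd e2
  have t3 : SndT (fs ++ ds) L (Phi (Wf n (Wl n W)) (JS 4096 []) L) (fun E1 E2 E3 =>
      tN n Q (ln F) (Nat.mul 39614081257132168796771975168 (on nf)) (Nat.add BI (Nat.mul 4096
        (Nat.sub (Nat.shiftLeft 1 (Nat.mul 96 (Nat.add nf nd))) C0)))
      (Nat.add BI (Nat.mul (Nat.mul 4096 Q) C0))
      (fun a => vn D1 D2 D3 (Nat.mul 32768 (Nat.add (Nat.add C1 C2) C3)) (pt W a))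
      (fun f => Nat.mul 4096 (vn D1 D2 D3 (Nat.mul 32768 (Nat.add (Nat.add C1 C2) C3))
        (pt (tk F) f))) E1 E2 E3) := tN_sound hcd
  exact o8_sound t1 t2 t3 hn h3

/-! ### trees -/

lemma eq1_true {l : List ℕ} : ∀ {m : List ℕ}, eq1 l m = true → l = m := by
  induction l with
  | nil =>
    intro m h
    cases m with
    | nil => rfl
    | cons b m => exact absurd (show false = true from h) Bool.false_ne_true
  | cons a l ih =>
    intro m h
    cases m with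
    | nil => exact absurd (show false = true from h) Bool.false_ne_true
    | cons b m =>
      obtain ⟨h1, h2⟩ := br h
      rw [Nat.eq_of_beq_eq_true h2, ih h1]

lemma ms_mem {K F : List ℕ} : ∀ {l : List SN} {i : ℕ}, ms K F l i = true → ⟨K, F, []⟩ ∈ l := by
  intro l
  induction l with
  | nil =>
    intro i h
    exact absurd (show false = true from h) Bool.false_ne_true
  | cons s l ih =>
    intro i h
    rcases nrc h with h | ⟨j, h⟩
    · obtain ⟨h, h1⟩ := br h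
      obtain ⟨h, h2⟩ := br h
      have e1 := eq1_true h1
      have e2 := eq1_true h2
      obtain ⟨K', F', U'⟩ := s
      cases U' with
      | nil =>
        simp only at e1 e2
        rw [e1, e2]
        simp
      | cons u U' => exact absurd (show false = true from h) Bool.false_ne_true
    · exact List.mem_cons_of_mem _ (ih h)

lemma good_query {n : ℕ} {C : Set (Set E)} {K F : List ℕ} (y : ℕ)
    (h1 : Good n C (toSt 4096 ⟨y :: K, F, []⟩)) (h2 : Good n C (toSt 4096 ⟨K, y :: F, []⟩)) :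
    Good n C (toSt 4096 ⟨K, F, []⟩) := by
  refine rule_query (rp y) ?_ ?_
  · simp only [toSt, KS_cons] at h1
    exact h1
  · simp only [toSt, KS_cons] at h2
    exact h2

/-- soundness of the check -/
theorem ck_sound {C : Set (Set E)} {n Q : ℕ} (hn : 0 < n) (hC : Frm C 17179869184)
    (hQ : 0 < Q) (hQ' : Q ≤ 4096) {rs : List SN} (hrs : ∀ s ∈ rs, Good n C (toSt 4096 s)) :
    ∀ (t : Tr) (K F : List ℕ), ck n Q rs t K F = true → (0 : E) ∈ convexHull ℝ (KS K) →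
      Good n C (toSt 4096 ⟨K, F, []⟩) := by
  intro t
  induction t with
  | q y a b ia ib =>
    intro K F h h0
    obtain ⟨h1, h2⟩ := br h
    exact good_query y (ia (y :: K) F h2 (zero_cons h0 y)) (ib K (y :: F) h1 h0)
  | l H W S0 S1 S2 S3 S4 S5 S6 S7 =>
    intro K F h h0
    refine rule_cover hn (Wf n (Wl n W)) (JS 4096 []) (lf_sound hC hQ hQ' h0 h) ?_
    rintro _ ⟨a, ha, rfl⟩
    simp at ha
  | r i =>
    intro K F h _
    exact hrs _ (ms_mem h)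
  | s t =>
    intro K F h h0
    exact (chk_sound hn hC (by norm_num) le_rfl (by norm_num) hrs t none ⟨K, F, []⟩ h h0).1 rfl

/-- an accepted certificate in the frame of the simplex, shifts with the denominator `256` -/
theorem good_of_ck {n : ℕ} (hn : 0 < n) {rs : List SN}
    (hrs : ∀ s ∈ rs, Good n (simCls 1024) (toSt 4096 s)) {t : Tr} {K F : List ℕ}
    (h : ck n 256 rs t K F = true) (h4 : has4 K = true) :
    Good n (simCls 1024) (toSt 4096 ⟨K, F, []⟩) :=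
  ck_sound hn frm_sim1024 (by norm_num) (by norm_num) hrs t K F h (zero_of_has4 h4)

/-- an accepted certificate in the frame of the simplex, shifts with the denominator `4096` -/
theorem good_of_ck' {n : ℕ} (hn : 0 < n) {rs : List SN}
    (hrs : ∀ s ∈ rs, Good n (simCls 1024) (toSt 4096 s)) {t : Tr} {K F : List ℕ}
    (h : ck n 4096 rs t K F = true) (h4 : has4 K = true) :
    Good n (simCls 1024) (toSt 4096 ⟨K, F, []⟩) :=
  ck_sound hn frm_sim1024 (by norm_num) le_rfl hrs t K F h (zero_of_has4 h4)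

end Pool.Agent.Lib.MP_5e7226_co.C8.TF
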