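import Pool.Agent.Lib.MP_5e7226_co.C8.TPS4

/-!
# Certificates with a triangulated surface

A leaf is a closed star shaped surface around the origin: every triangle is in a region which is
lit by one direction and beyond it everything is dead by one reason. The triangles are read with a
front: the front is a closed path, stored as a list with a focus. The vertices have their labels
(lit by a direction, dead by an outer point, dead by a triple) and three numbers whose product
shows the orientation of a triangle. The hull of the body points is read in the same way: the
facets are a closed surface of triangles with positive offsets.
-/

set_option autoImplicit false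

namespace Pool.Agent.Lib.MP_5e7226_co.C8.TM

open TF TP

/-! ### the front -/

/-! ### the functionals -/

/-! ### the surface -/

/-- leaves with a surface as leaves of the general tree -/
noncomputable def zm (n : ℕ) : ZT := fun K F H y e1 e2 _ _ _ _ _ _ _ _ _ => lm n K F H y e1 e2

/-- a leaf with a surface -/
def m (H W V S : ℕ) : TU :=
  .z H W V S (nat_lit 0) (nat_lit 0) (nat_lit 0) (nat_lit 0) (nat_lit 0) (nat_lit 0) (nat_lit 0)
    (nat_lit 0) (nat_lit 0)

end Pool.Agent.Lib.MP_5e7226_co.C8.TM
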