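import Mathlib

/-!
The orientation test by one product.
-/

set_option autoImplicit false

namespace Pool.Agent.Lib.MP_5e7226_co.C8.TM

open Finset

/-- a number with digits below `t` -/
lemma low {e : ℕ → ℤ} {t : ℤ} (ht : 0 < t) (n : ℕ) (h0 : ∀ k < n, 0 ≤ e k) (h1 : ∀ k < n, e k < t) :
    0 ≤ ∑ k ∈ range n, e k * t ^ k ∧ ∑ k ∈ range n, e k * t ^ k < t ^ n := by
  induction n with
  | zero => simp
  | succ n ih =>
    obtain ⟨i1, i2⟩ := ih (fun k hk => h0 k (by omega)) (fun k hk => h1 k (by omega))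
    have a0 := h0 n (by omega)
    have a1 := h1 n (by omega)
    have hp : 0 < t ^ n := by positivity
    rw [sum_range_succ, pow_succ]
    constructor
    · positivity
    · have : e n * t ^ n ≤ (t - 1) * t ^ n := mul_le_mul_of_nonneg_right (by omega) hp.le
      nlinarith

lemma split (e : ℕ → ℤ) (t : ℤ) (k n : ℕ) (hk : k ≤ n) :
    ∃ R, ∑ j ∈ range (n + 1), e j * t ^ j = ∑ j ∈ range k, e j * t ^ j + t ^ k * (e k + t * R) := by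
  induction n, hk using Nat.le_induction with
  | base => exact ⟨0, by rw [sum_range_succ]; ring⟩
  | succ n hn ih =>
    obtain ⟨R, hR⟩ := ih
    refine ⟨R + e (n + 1) * t ^ (n - k), ?_⟩
    rw [sum_range_succ, hR]
    have : t ^ (n + 1) = t ^ k * (t * t ^ (n - k)) := by
      rw [← pow_succ', ← pow_add]
      congr 1
      omega
    rw [this]
    ring

lemma edm {L T e t r : ℤ} (hT : 0 < T) (h0 : 0 ≤ L) (h1 : L < T) :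
    (L + T * (e + t * r)) / T % t = e % t := by
  rw [Int.add_mul_ediv_left _ _ hT.ne', Int.ediv_eq_zero_of_lt h0 h1, zero_add,
    Int.add_mul_emod_self_left]

lemma digits_gen {c : ℕ → ℤ} {t h X m : ℤ} (ht : 0 < t) (hh : 2 * h = t)
    (hc : ∀ k < 8, |c k| < h) (hX : X ≡ ∑ k ∈ range 9, c k * t ^ k [ZMOD t ^ 9]) :
    (X + ∑ k ∈ range 8, h * t ^ k + m * t ^ 8) / t ^ 8 % t = (c 8 + m) % t ∧
    ∀ k < 8, (X + ∑ k ∈ range 8, h * t ^ k + m * t ^ 8) / t ^ k % t = c k + h := by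
  obtain ⟨e, he⟩ : ∃ e : ℕ → ℤ, e = fun k => if k < 8 then c k + h else c 8 + m := ⟨_, rfl⟩
  have he1 : ∀ k < 8, e k = c k + h := by
    intro k hk
    rw [he]
    simp [hk]
  have he2 : e 8 = c 8 + m := by
    rw [he]
    simp
  have h0 : ∀ k < 8, 0 ≤ e k := by
    intro k hk
    rw [he1 k hk]
    have := (abs_lt.1 (hc k hk)).1
    omega
  have h1 : ∀ k < 8, e k < t := by
    intro k hk
    rw [he1 k hk]
    have := (abs_lt.1 (hc k hk)).2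
    omega
  obtain ⟨s, hs⟩ := (Int.modEq_iff_dvd.1 hX)
  have hY : X + ∑ k ∈ range 8, h * t ^ k + m * t ^ 8 =
      ∑ k ∈ range 9, e k * t ^ k + t ^ 9 * (-s) := by
    have e1 : ∑ k ∈ range 9, e k * t ^ k =
        ∑ k ∈ range 9, c k * t ^ k + ∑ k ∈ range 8, h * t ^ k + m * t ^ 8 := by
      rw [sum_range_succ, sum_range_succ (fun k => c k * t ^ k) 8, he2]
      have : ∑ k ∈ range 8, e k * t ^ k =
          ∑ k ∈ range 8, c k * t ^ k + ∑ k ∈ range 8, h * t ^ k := by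
        rw [← sum_add_distrib]
        refine sum_congr rfl fun k hk => ?_
        rw [he1 k (mem_range.1 hk)]
        ring
      rw [this]
      ring
    rw [e1]
    linarith
  have key : ∀ k ≤ 8, (X + ∑ k ∈ range 8, h * t ^ k + m * t ^ 8) / t ^ k % t = e k % t := by
    intro k hk
    rw [hY]
    obtain ⟨R, hR⟩ := split e t k 8 hk
    obtain ⟨l1, l2⟩ := low ht k (fun j hj => h0 j (by omega)) (fun j hj => h1 j (by omega))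
    rw [hR]
    have e9 : t ^ 9 = t ^ k * (t * t ^ (8 - k)) := by
      rw [← pow_succ', ← pow_add]
      congr 1
      omega
    have : ∑ j ∈ range k, e j * t ^ j + t ^ k * (e k + t * R) + t ^ 9 * (-s) =
        ∑ j ∈ range k, e j * t ^ j + t ^ k * (e k + t * (R + t ^ (8 - k) * (-s))) := by
      rw [e9]
      ring
    rw [this]
    exact edm (by positivity) l1 l2
  refine ⟨by rw [key 8 le_rfl, he2], fun k hk => ?_⟩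
  rw [key k hk.le, Int.emod_eq_of_lt (h0 k hk) (h1 k hk), he1 k hk]

/-- the sum of `2 ^ 63 * t ^ k`, `k < 8`, `t = 2 ^ 64` -/
def B7 : ℕ := 6703903964971298550150431861250726509034045817338396195645808915772573307121313864524192950629141098514784679015155657345104329783898672915800861676929024

/-- `B7 + (2 ^ 64 - 1) * 2 ^ 512` -/
def BC : ℕ := 247330401473104534053798617054675891485707755964256720295617736089643227924454114642367210338290811877319990078478377010176117855135420816458896602073845270885973984819544064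

lemma B7_eq : (B7 : ℤ) = ∑ k ∈ range 8, 2 ^ 63 * (2 ^ 64) ^ k := by
  rw [B7]
  simp only [sum_range_succ, sum_range_zero]
  norm_num

lemma BC_eq : BC = B7 + (2 ^ 64 - 1) * (2 ^ 64) ^ 8 := by
  rw [B7, BC]
  norm_num

/-- The digits of a number which is congruent to `∑ c k * t ^ k`, after adding
`∑ 2 ^ 63 * t ^ k + m * t ^ 8` (`t = 2 ^ 64`). -/
theorem digits {c : ℕ → ℤ} {X m : ℕ} (hc : ∀ k < 8, |c k| < 2 ^ 63)
    (hX : (X : ℤ) ≡ ∑ k ∈ range 9, c k * (2 ^ 64) ^ k [ZMOD 2 ^ 576]) :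
    (((X + B7 + m * (2 ^ 64) ^ 8) / (2 ^ 64) ^ 8 % 2 ^ 64 : ℕ) : ℤ) = (c 8 + m) % 2 ^ 64 ∧
    ∀ k < 8, (((X + B7 + m * (2 ^ 64) ^ 8) / (2 ^ 64) ^ k % 2 ^ 64 : ℕ) : ℤ) = c k + 2 ^ 63 := by
  have h9 : (2 : ℤ) ^ 576 = (2 ^ 64) ^ 9 := by rw [← pow_mul]
  rw [h9] at hX
  obtain ⟨g1, g2⟩ := digits_gen (m := (m : ℤ)) (by positivity : (0 : ℤ) < 2 ^ 64)
    (by norm_num : 2 * (2 : ℤ) ^ 63 = 2 ^ 64) hc hX
  rw [← B7_eq] at g1 g2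
  constructor
  · push_cast
    exact g1
  · intro k hk
    push_cast
    exact g2 k hk

lemma tri {a b c : ℤ} (ha : |a| ≤ 2 ^ 20) (hb : |b| ≤ 2 ^ 20) (hc : |c| ≤ 2 ^ 20) :
    -2 ^ 60 ≤ a * b * c ∧ a * b * c ≤ 2 ^ 60 := by
  rw [← abs_le, abs_mul, abs_mul]
  calc |a| * |b| * |c| ≤ 2 ^ 20 * 2 ^ 20 * 2 ^ 20 :=
        mul_le_mul (mul_le_mul ha hb (abs_nonneg _) (by norm_num)) hc (abs_nonneg _)
          (by norm_num)
    _ = 2 ^ 60 := by norm_num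

/-- the sign of a number from the bit 575 -/
theorem sign_of_bit {c : ℕ → ℤ} {X : ℕ} (hc : ∀ k < 9, |c k| < 2 ^ 63)
    (hX : (X : ℤ) ≡ ∑ k ∈ range 9, c k * (2 ^ 64) ^ k [ZMOD 2 ^ 576])
    (h : (X + BC).testBit 575 = false) : 0 < c 8 := by
  obtain ⟨g1, -⟩ := digits (m := 2 ^ 64 - 1) (fun k hk => hc k (by omega)) hX
  rw [BC_eq, ← add_assoc] at h
  obtain ⟨Y, hY⟩ : ∃ Y, Y = X + B7 + (2 ^ 64 - 1) * (2 ^ 64) ^ 8 := ⟨_, rfl⟩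
  rw [← hY] at h g1
  have e1 : Y.testBit 575 = (Y / (2 ^ 64) ^ 8 % 2 ^ 64).testBit 63 := by
    rw [Nat.testBit_mod_two_pow, ← pow_mul, Nat.testBit_div_two_pow]
    simp
  rw [e1] at h
  obtain ⟨D, hD⟩ : ∃ D, D = Y / (2 ^ 64) ^ 8 % 2 ^ 64 := ⟨_, rfl⟩
  rw [← hD] at h g1
  have hD1 : D < 2 ^ 64 := by
    rw [hD]
    exact Nat.mod_lt _ (by positivity)
  have hD2 : D < 2 ^ 63 := by
    by_contra hlt
    rw [Nat.testBit_eq_decide_div_mod_eq] at h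
    have : D / 2 ^ 63 % 2 = 1 := by omega
    rw [this] at h
    simp at h
  have h8 := abs_lt.1 (hc 8 (by omega))
  by_contra hneg
  have e2 : (c 8 + ((2 ^ 64 - 1 : ℕ) : ℤ)) % 2 ^ 64 = c 8 - 1 + 2 ^ 64 := by
    have : c 8 + ((2 ^ 64 - 1 : ℕ) : ℤ) = c 8 - 1 + 2 ^ 64 := by
      norm_num
      ring
    rw [this]
    exact Int.emod_eq_of_lt (by omega) (by omega)
  rw [e2] at g1
  omega

/-- the coefficients of the product -/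
def oc (x1 y1 z1 x2 y2 z2 x3 y3 z3 : ℤ) : ℕ → ℤ
  | 0 => 0
  | 1 => x1 * x2 * x3
  | 2 => y1 * x2 * x3 - x1 * x2 * y3
  | 3 => z1 * x2 * x3 - y1 * x2 * y3 - x1 * x2 * x3
  | 4 => x1 * y2 * x3 - z1 * x2 * y3 - y1 * x2 * x3
  | 5 => y1 * y2 * x3 - x1 * y2 * y3 - z1 * x2 * x3 + x1 * x2 * z3
  | 6 => z1 * y2 * x3 - y1 * y2 * y3 - x1 * y2 * x3 + y1 * x2 * z3 + x1 * x2 * y3
  | 7 => x1 * z2 * x3 - z1 * y2 * y3 - y1 * y2 * x3 + z1 * x2 * z3 + y1 * x2 * y3 -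
      x1 * x2 * z3
  | 8 => y1 * z2 * x3 - x1 * z2 * y3 - z1 * y2 * x3 + x1 * y2 * z3 + z1 * x2 * y3 -
      y1 * x2 * z3
  | _ => 0

lemma oc_cong (t x1 y1 z1 x2 y2 z2 x3 y3 z3 : ℤ) :
    (x1 + y1 * t + z1 * t ^ 2) * (x2 + y2 * t ^ 3 + z2 * t ^ 6) *
      (x3 * (t - t ^ 3) + y3 * (t ^ 6 - t ^ 2) + z3 * (t ^ 5 - t ^ 7)) ≡
    ∑ k ∈ range 9, oc x1 y1 z1 x2 y2 z2 x3 y3 z3 k * t ^ k [ZMOD t ^ 9] := by
  refine Int.modEq_iff_dvd.2 ⟨-((z1 * z2 * x3 - y1 * z2 * y3 - x1 * z2 * x3 + y1 * y2 * z3 +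
    x1 * y2 * y3 - z1 * x2 * z3) + (- (z1 * z2 * y3) - y1 * z2 * x3 + z1 * y2 * z3 +
    y1 * y2 * y3 - x1 * y2 * z3) * t + (- (z1 * z2 * x3) + x1 * z2 * z3 + z1 * y2 * y3 -
    y1 * y2 * z3) * t ^ 2 + (y1 * z2 * z3 + x1 * z2 * y3 - z1 * y2 * z3) * t ^ 3 +
    (z1 * z2 * z3 + y1 * z2 * y3 - x1 * z2 * z3) * t ^ 4 +
    (z1 * z2 * y3 - y1 * z2 * z3) * t ^ 5 - z1 * z2 * z3 * t ^ 6), ?_⟩
  simp only [sum_range_succ, sum_range_zero, oc]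
  ring

/-- The orientation test. -/
theorem orient {a b d : ℕ} {x1 y1 z1 x2 y2 z2 x3 y3 z3 : ℤ}
    (hx1 : |x1| ≤ 2 ^ 20) (hy1 : |y1| ≤ 2 ^ 20) (hz1 : |z1| ≤ 2 ^ 20)
    (hx2 : |x2| ≤ 2 ^ 20) (hy2 : |y2| ≤ 2 ^ 20) (hz2 : |z2| ≤ 2 ^ 20)
    (hx3 : |x3| ≤ 2 ^ 20) (hy3 : |y3| ≤ 2 ^ 20) (hz3 : |z3| ≤ 2 ^ 20)
    (ha : (a : ℤ) ≡ x1 + y1 * 2 ^ 64 + z1 * (2 ^ 64) ^ 2 [ZMOD 2 ^ 576])
    (hb : (b : ℤ) ≡ x2 + y2 * (2 ^ 64) ^ 3 + z2 * (2 ^ 64) ^ 6 [ZMOD 2 ^ 576])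
    (hd : (d : ℤ) ≡ x3 * (2 ^ 64 - (2 ^ 64) ^ 3) + y3 * ((2 ^ 64) ^ 6 - (2 ^ 64) ^ 2) +
      z3 * ((2 ^ 64) ^ 5 - (2 ^ 64) ^ 7) [ZMOD 2 ^ 576])
    (h : (a * b * d + BC).testBit 575 = false) :
    0 < x1 * (y2 * z3 - z2 * y3) - y1 * (x2 * z3 - z2 * x3) + z1 * (x2 * y3 - y2 * x3) := by
  have hX : ((a * b * d : ℕ) : ℤ) ≡
      ∑ k ∈ range 9, oc x1 y1 z1 x2 y2 z2 x3 y3 z3 k * (2 ^ 64) ^ k [ZMOD 2 ^ 576] := by
    have h1 := (ha.mul hb).mul hd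
    have h9 : (2 : ℤ) ^ 576 = (2 ^ 64) ^ 9 := by rw [← pow_mul]
    rw [Nat.cast_mul, Nat.cast_mul]
    refine h1.trans ?_
    rw [h9]
    exact oc_cong _ _ _ _ _ _ _ _ _ _
  have hb9 : ∀ k < 9, |oc x1 y1 z1 x2 y2 z2 x3 y3 z3 k| < 2 ^ 63 := by
    obtain ⟨xxx1, xxx2⟩ := tri hx1 hx2 hx3
    obtain ⟨xxy1, xxy2⟩ := tri hx1 hx2 hy3
    obtain ⟨xxz1, xxz2⟩ := tri hx1 hx2 hz3
    obtain ⟨xyx1, xyx2⟩ := tri hx1 hy2 hx3
    obtain ⟨xyy1, xyy2⟩ := tri hx1 hy2 hy3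
    obtain ⟨xyz1, xyz2⟩ := tri hx1 hy2 hz3
    obtain ⟨xzx1, xzx2⟩ := tri hx1 hz2 hx3
    obtain ⟨xzy1, xzy2⟩ := tri hx1 hz2 hy3
    obtain ⟨xzz1, xzz2⟩ := tri hx1 hz2 hz3
    obtain ⟨yxx1, yxx2⟩ := tri hy1 hx2 hx3
    obtain ⟨yxy1, yxy2⟩ := tri hy1 hx2 hy3
    obtain ⟨yxz1, yxz2⟩ := tri hy1 hx2 hz3
    obtain ⟨yyx1, yyx2⟩ := tri hy1 hy2 hx3
    obtain ⟨yyy1, yyy2⟩ := tri hy1 hy2 hy3
    obtain ⟨yyz1, yyz2⟩ := tri hy1 hy2 hz3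
    obtain ⟨yzx1, yzx2⟩ := tri hy1 hz2 hx3
    obtain ⟨yzy1, yzy2⟩ := tri hy1 hz2 hy3
    obtain ⟨yzz1, yzz2⟩ := tri hy1 hz2 hz3
    obtain ⟨zxx1, zxx2⟩ := tri hz1 hx2 hx3
    obtain ⟨zxy1, zxy2⟩ := tri hz1 hx2 hy3
    obtain ⟨zxz1, zxz2⟩ := tri hz1 hx2 hz3
    obtain ⟨zyx1, zyx2⟩ := tri hz1 hy2 hx3
    obtain ⟨zyy1, zyy2⟩ := tri hz1 hy2 hy3
    obtain ⟨zyz1, zyz2⟩ := tri hz1 hy2 hz3
    obtain ⟨zzx1, zzx2⟩ := tri hz1 hz2 hx3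
    obtain ⟨zzy1, zzy2⟩ := tri hz1 hz2 hy3
    obtain ⟨zzz1, zzz2⟩ := tri hz1 hz2 hz3
    intro k hk
    rw [abs_lt]
    interval_cases k <;> constructor <;> simp only [oc] <;> linarith
  have h8 := sign_of_bit hb9 hX h
  have e8 : oc x1 y1 z1 x2 y2 z2 x3 y3 z3 8 = x1 * (y2 * z3 - z2 * y3) -
      y1 * (x2 * z3 - z2 * x3) + z1 * (x2 * y3 - y2 * x3) := by
    simp only [oc]
    ring
  rw [← e8]
  exact h8

end Pool.Agent.Lib.MP_5e7226_co.C8.TM
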