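import Pool.Agent.Lib.MP_5e7226_co.C8.TM
import Pool.Agent.Lib.MP_5e7226_co.C8.TMA

/-!
The lanes of the vertices and the functionals of three points.
-/

set_option autoImplicit false

open Finset

namespace Pool.Agent.Lib.MP_5e7226_co.C8.TM

open TF TP

lemma p576 : (2 : ℤ) ^ 576 = (2 ^ 64) ^ 9 := by rw [← pow_mul]

lemma n576 : (2 : ℕ) ^ 576 = (2 ^ 64) ^ 9 := by rw [← pow_mul]

lemma n640 : (2 : ℕ) ^ 640 = (2 ^ 64) ^ 10 := by rw [← pow_mul]

lemma n600 : (2 : ℕ) ^ 600 = (2 ^ 64) ^ 9 * 2 ^ 24 := by rw [← pow_mul, ← pow_add]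

lemma p600 : (2 : ℤ) ^ 600 = (2 ^ 64) ^ 9 * 2 ^ 24 := by rw [← pow_mul, ← pow_add]

lemma cb_lanes (T a0 a1 a2 a3 b0 b1 b2 b3 c0 c1 c2 c3 o x y z : ℕ) :
    cb (Nat.mul o (a0 + b0 * T + c0 * (T * T))) (a1 + b1 * T + c1 * (T * T))
      (a2 + b2 * T + c2 * (T * T)) (a3 + b3 * T + c3 * (T * T)) x y z =
    (o * a0 + x * a1 + y * a2 + z * a3) + (o * b0 + x * b1 + y * b2 + z * b3) * T +
      (o * c0 + x * c1 + y * c2 + z * c3) * (T * T) := by
  simp only [cb, nadd, nmul]
  ring

lemma lane_split {T a b c : ℕ} (ha : a < T) (hb : b < T) :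
    (a + b * T + c * (T * T)) % T = a ∧ (a + b * T + c * (T * T)) / T % T = b ∧
      (a + b * T + c * (T * T)) / (T * T) = c := by
  have hT : 0 < T := by omega
  have e1 : a + b * T + c * (T * T) = a + T * (b + T * c) := by ring
  have e2 : (a + b * T + c * (T * T)) / T = b + T * c := by
    rw [e1, Nat.add_mul_div_left _ _ hT, Nat.div_eq_of_lt ha, zero_add]
  refine ⟨?_, ?_, ?_⟩
  · rw [e1, Nat.add_mul_mod_self_left, Nat.mod_eq_of_lt ha]
  · rw [e2, Nat.add_mul_mod_self_left, Nat.mod_eq_of_lt hb]
  · rw [← Nat.div_div_eq_div_mul, e2, Nat.add_mul_div_left _ _ hT, Nat.div_eq_of_lt hb, zero_add]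

lemma lane_lt {o x y z a b c d : ℕ} (ho : o ≤ 2 ^ 20) (hx : x < 2 ^ 21) (hy : y < 2 ^ 21)
    (hz : z < 2 ^ 21) (ha : a < 2 ^ 576) (hb : b < 2 ^ 576) (hc : c < 2 ^ 576) (hd : d < 2 ^ 576) :
    o * a + x * b + y * c + z * d < 2 ^ 640 := by
  have h1 : o * a ≤ 2 ^ 20 * 2 ^ 576 := Nat.mul_le_mul ho ha.le
  have h2 : x * b ≤ 2 ^ 21 * 2 ^ 576 := Nat.mul_le_mul hx.le hb.le
  have h3 : y * c ≤ 2 ^ 21 * 2 ^ 576 := Nat.mul_le_mul hy.le hc.le
  have h4 : z * d ≤ 2 ^ 21 * 2 ^ 576 := Nat.mul_le_mul hz.le hd.le
  have h5 : (2 : ℕ) ^ 640 = 2 ^ 64 * 2 ^ 576 := by rw [← pow_add]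
  rw [h5]
  have h6 : 0 < (2 : ℕ) ^ 576 := by positivity
  generalize (2 : ℕ) ^ 576 = N at h1 h2 h3 h4 h6
  omega

/-- the three lanes of a vertex -/
theorem lanes {o x y z F : ℕ} (ho : o ≤ 2 ^ 20) (hx : x < 2 ^ 21) (hy : y < 2 ^ 21)
    (hz : z < 2 ^ 21)
    (hF : F = cb (Nat.mul o (nat_lit 15129776317850095819272324571697626502927776504971003431559740999711420192968998777769829577124329729835674319858990410296955095807970386681061193967927281452375648075600104164278909904329953814850599592770590980758069220374690637827807629662352672380846434752022160216314530570959875962014528226386163127205385323615395223498354252437284493313818396117421013705448505016828976188883743734392145285326261049574016963451835089164893014262154169181289151113656914990275436268339144943845594405340739440328626546546743181311))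
      (nat_lit 5148396096422391593693210985222689424575005282213296071655104164476572739631099228161281473378140200867014462091313623896471647770169205880543939042148696815209998759548209600514344487499673960289996350615186526947049573136915791280795360098101364005756748117893319615217446321397464085278907326797546027183637928885300216316649720914764708707449009493819953272390506624046949177083590099150297907997837536438233600846912049605431713435082926603157893751207164978964306795707521391103163764149247422696512731453327789280313596247298850157395987457858634514433)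
      (nat_lit 820186817651640487320479808367534510238779540102526006236474836166734016865198916599229854163595010108025318803836632852754125866544858043735096856439846006454978819598259642397085528696701555051856161739182647743468597210005966331382729356402325458150733960459981729036345322414555007628320445039838977906965768055963000486016154784451344531074019670008413478294798457380255788072360537234482565722954324227241174588951987799234916129852384378862113423942597907121465468838877256506330981731267510272)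
      (nat_lit 5148396096422391593693210985222689424559875505895445975835011653087223472640850971847942935436341680327200515892108411609132047835397240711177878418048171027201063756236028647658420595634788935851417141860331706828497501488611626096979764216414760364613191715595435562615258056288069018893568176829707091226798639370854331474173195405993561317487119046614061242892273782562645046090020037377663408515543935277064621009614679375749011635899914139032468415271071888014891040838580767580573198805233096445544864581683568157641574597210216157268178745242343702528) x y z) :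
    ((Nat.land F (nat_lit 4562440617622195218641171605700291324893228507248559930579192517899275167208677386505912811317371399778642309573594407310688704721375437998252661319722214188251994674360264950082874192246603775) : ℕ) : ℤ) ≡
      ((x : ℤ) - o) + ((y : ℤ) - o) * 2 ^ 64 + ((z : ℤ) - o) * (2 ^ 64) ^ 2 [ZMOD 2 ^ 576] ∧
    ((Nat.land (Nat.shiftRight F (nat_lit 640)) (nat_lit 4562440617622195218641171605700291324893228507248559930579192517899275167208677386505912811317371399778642309573594407310688704721375437998252661319722214188251994674360264950082874192246603775) : ℕ) : ℤ) ≡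
      ((x : ℤ) - o) + ((y : ℤ) - o) * (2 ^ 64) ^ 3 + ((z : ℤ) - o) * (2 ^ 64) ^ 6 [ZMOD 2 ^ 576] ∧
    ((Nat.shiftRight F (nat_lit 1280) : ℕ) : ℤ) ≡
      ((x : ℤ) - o) * (2 ^ 64 - (2 ^ 64) ^ 3) + ((y : ℤ) - o) * ((2 ^ 64) ^ 6 - (2 ^ 64) ^ 2) +
        ((z : ℤ) - o) * ((2 ^ 64) ^ 5 - (2 ^ 64) ^ 7) [ZMOD 2 ^ 576] := by
  obtain ⟨T, hT⟩ : ∃ T : ℕ, T = 4562440617622195218641171605700291324893228507248559930579192517899275167208677386505912811317371399778642309573594407310688704721375437998252661319722214188251994674360264950082874192246603776 := ⟨_, rfl⟩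
  obtain ⟨a0, ha0⟩ : ∃ n : ℕ, n = 247330401473104534060502521019647190035131349101211839914063056092897225106531867170316401061243044989597671426016139339351365034306750869685179234163429686095255266670936063 := ⟨_, rfl⟩
  obtain ⟨b0, hb0⟩ : ∃ n : ℕ, n = 247330401473104534060502521019647190035131349101211839914023654086700830627319588130216257447437965250327205979348184768845383925854490163566708681180592149920355680123879423 := ⟨_, rfl⟩
  obtain ⟨c0, hc0⟩ : ∃ n : ℕ, n = 726838724295606890509921801691610055139226333551253536394015438204004289330853202501324062853083489413316164230480169026012833644544000 := ⟨_, rfl⟩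
  obtain ⟨b2, hb2⟩ : ∃ n : ℕ, n = 6277101735386680763835789423207666416102355444464034512896 := ⟨_, rfl⟩
  obtain ⟨c1, hc1⟩ : ∃ n : ℕ, n = 247330401473104534060502521019647190035131349101211839914063056092897225106531867170316401061243044989597671426016133062249629647625987374178122947435477084007906381823737856 := ⟨_, rfl⟩
  obtain ⟨c2, hc2⟩ : ∃ n : ℕ, n = 39402006196394479212279040100143613805079739270465446667948293404245721771496870329047345316421452266199196222095360 := ⟨_, rfl⟩
  obtain ⟨a3, ha3⟩ : ∃ n : ℕ, n = 340282366920938463463374607431768211456 := ⟨_, rfl⟩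
  obtain ⟨b3, hb3⟩ : ∃ n : ℕ, n = 39402006196394479212279040100143613805079739270465446667948293404245721771497210611414266254884915640806627990306816 := ⟨_, rfl⟩
  obtain ⟨c3, hc3⟩ : ∃ n : ℕ, n = 247330401473104534060502521019647190034404510376916233023513732285009220572180361796665003911043949812123201690017344120547530636362934686014605853221407630533095132607021056 := ⟨_, rfl⟩
  have e0 : nat_lit 15129776317850095819272324571697626502927776504971003431559740999711420192968998777769829577124329729835674319858990410296955095807970386681061193967927281452375648075600104164278909904329953814850599592770590980758069220374690637827807629662352672380846434752022160216314530570959875962014528226386163127205385323615395223498354252437284493313818396117421013705448505016828976188883743734392145285326261049574016963451835089164893014262154169181289151113656914990275436268339144943845594405340739440328626546546743181311 = a0 + b0 * T + c0 * (T * T) := by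
    rw [ha0, hb0, hc0, hT]
  have e1 : nat_lit 5148396096422391593693210985222689424575005282213296071655104164476572739631099228161281473378140200867014462091313623896471647770169205880543939042148696815209998759548209600514344487499673960289996350615186526947049573136915791280795360098101364005756748117893319615217446321397464085278907326797546027183637928885300216316649720914764708707449009493819953272390506624046949177083590099150297907997837536438233600846912049605431713435082926603157893751207164978964306795707521391103163764149247422696512731453327789280313596247298850157395987457858634514433 = 1 + 1 * T + c1 * (T * T) := by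
    rw [hc1, hT]
  have e2 : nat_lit 820186817651640487320479808367534510238779540102526006236474836166734016865198916599229854163595010108025318803836632852754125866544858043735096856439846006454978819598259642397085528696701555051856161739182647743468597210005966331382729356402325458150733960459981729036345322414555007628320445039838977906965768055963000486016154784451344531074019670008413478294798457380255788072360537234482565722954324227241174588951987799234916129852384378862113423942597907121465468838877256506330981731267510272 = 18446744073709551616 + b2 * T + c2 * (T * T) := by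
    rw [hb2, hc2, hT]
  have e3 : nat_lit 5148396096422391593693210985222689424559875505895445975835011653087223472640850971847942935436341680327200515892108411609132047835397240711177878418048171027201063756236028647658420595634788935851417141860331706828497501488611626096979764216414760364613191715595435562615258056288069018893568176829707091226798639370854331474173195405993561317487119046614061242892273782562645046090020037377663408515543935277064621009614679375749011635899914139032468415271071888014891040838580767580573198805233096445544864581683568157641574597210216157268178745242343702528 = a3 + b3 * T + c3 * (T * T) := by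
    rw [ha3, hb3, hc3, hT]
  rw [e0, e1, e2, e3, cb_lanes] at hF
  have hT2 : T = 2 ^ 640 := by rw [hT, n640]; norm_num
  have hc1' : (c1 : ℤ) = 2 ^ 64 - (2 ^ 64) ^ 3 + (2 ^ 64) ^ 9 := by rw [hc1]; norm_num
  have hb2' : (b2 : ℤ) = (2 ^ 64) ^ 3 := by rw [hb2]; norm_num
  have hc2' : (c2 : ℤ) = (2 ^ 64) ^ 6 - (2 ^ 64) ^ 2 := by rw [hc2]; norm_num
  have ha3' : (a3 : ℤ) = (2 ^ 64) ^ 2 := by rw [ha3]; norm_num
  have hb3' : (b3 : ℤ) = (2 ^ 64) ^ 6 := by rw [hb3]; norm_num
  have hc3' : (c3 : ℤ) = (2 ^ 64) ^ 5 - (2 ^ 64) ^ 7 + (2 ^ 64) ^ 9 := by rw [hc3]; norm_num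
  have ha0' : (a0 : ℤ) = (2 ^ 64) ^ 9 - (1 + 2 ^ 64 + (2 ^ 64) ^ 2) := by rw [ha0]; norm_num
  have hb0' : (b0 : ℤ) = (2 ^ 64) ^ 9 - (1 + (2 ^ 64) ^ 3 + (2 ^ 64) ^ 6) := by rw [hb0]; norm_num
  have hc0' : (c0 : ℤ) = -(2 ^ 64 - (2 ^ 64) ^ 3 + ((2 ^ 64) ^ 6 - (2 ^ 64) ^ 2) +
      ((2 ^ 64) ^ 5 - (2 ^ 64) ^ 7)) := by rw [hc0]; norm_num
  have la0 : a0 < 2 ^ 576 := by rw [ha0, n576]; norm_num
  have lb0 : b0 < 2 ^ 576 := by rw [hb0, n576]; norm_num
  have lb2 : b2 < 2 ^ 576 := by rw [hb2, n576]; norm_num
  have la3 : a3 < 2 ^ 576 := by rw [ha3, n576]; norm_num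
  have lb3 : b3 < 2 ^ 576 := by rw [hb3, n576]; norm_num
  have l1 : (1 : ℕ) < 2 ^ 576 := by rw [n576]; norm_num
  have l64 : (18446744073709551616 : ℕ) < 2 ^ 576 := by rw [n576]; norm_num
  obtain ⟨g1, g2, g3⟩ := lane_split (T := T)
    (a := o * a0 + x * 1 + y * 18446744073709551616 + z * a3)
    (b := o * b0 + x * 1 + y * b2 + z * b3) (c := o * c0 + x * c1 + y * c2 + z * c3)
    (by rw [hT2]; exact lane_lt ho hx hy hz la0 l1 l64 la3)
    (by rw [hT2]; exact lane_lt ho hx hy hz lb0 l1 lb2 lb3)
  rw [← hF] at g1 g2 g3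
  have em : nat_lit 4562440617622195218641171605700291324893228507248559930579192517899275167208677386505912811317371399778642309573594407310688704721375437998252661319722214188251994674360264950082874192246603775 = T - 1 := by
    rw [hT]
  have f1 : ∀ G, Nat.land G (nat_lit 4562440617622195218641171605700291324893228507248559930579192517899275167208677386505912811317371399778642309573594407310688704721375437998252661319722214188251994674360264950082874192246603775) = G % T := by
    intro G
    rw [em, hT2]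
    exact land_full G 640
  have f2 : Nat.shiftRight F (nat_lit 640) = F / T := by
    rw [hT2]
    exact nshr F 640
  have f3 : Nat.shiftRight F (nat_lit 1280) = F / (T * T) := by
    have e : T * T = 2 ^ 1280 := by rw [hT2, ← pow_add]
    rw [e]
    exact nshr F 1280
  rw [f1, f2, f1, f3, g1, g2, g3]
  refine ⟨?_, ?_, ?_⟩
  · refine Int.modEq_iff_dvd.2 ⟨-o, ?_⟩
    push_cast
    rw [ha0', ha3', p576]
    ring
  · refine Int.modEq_iff_dvd.2 ⟨-o, ?_⟩
    push_cast
    rw [hb0', hb2', hb3', p576]
    ring
  · refine Int.modEq_iff_dvd.2 ⟨-x - z, ?_⟩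
    push_cast
    rw [hc0', hc1', hc2', hc3', p576]
    ring

/-! ### the functionals -/

lemma dg_eq (X s : ℕ) : dg X s = (X + B7 + 2 ^ 63 * (2 ^ 64) ^ 8) / 2 ^ s % 2 ^ 64 := by
  have e1 : (2 : ℕ) ^ 63 * (2 ^ 64) ^ 8 = 123665200736552267030251260509823595017565674550605919957031528046448612553265933585158200530621522494798835713008069669675682517153375604983773077550946583958303386074349568 := by norm_num
  have e : nat_lit 123665200736552267036955164474794893567716106411856646466065573863787008748911742500930773837742836359323028663637210768190467196168531262328877407334845256874104247751278592 = B7 + 2 ^ 63 * (2 ^ 64) ^ 8 := by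
    rw [e1, B7]
  have h1 : dg X s = Nat.land (Nat.shiftRight (Nat.add X (nat_lit 123665200736552267036955164474794893567716106411856646466065573863787008748911742500930773837742836359323028663637210768190467196168531262328877407334845256874104247751278592)) s) (2 ^ 64 - 1) := rfl
  rw [h1, e, land_full, nshr, nadd, ← add_assoc]

/-- the digits of a number -/
lemma dg_digit {c : ℕ → ℤ} {X : ℕ} (hc : ∀ k < 9, |c k| < 2 ^ 63)
    (hX : (X : ℤ) ≡ ∑ k ∈ range 9, c k * (2 ^ 64) ^ k [ZMOD 2 ^ 576]) {k : ℕ} (hk : k < 9) :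
    (dg X (64 * k) : ℤ) = c k + 2 ^ 63 := by
  obtain ⟨g1, g2⟩ := digits (m := 2 ^ 63) (fun k hk => hc k (by omega)) hX
  rw [dg_eq, pow_mul]
  rcases Nat.lt_or_ge k 8 with h | h
  · exact g2 k h
  · have h8 : k = 8 := by omega
    subst h8
    rw [g1]
    have := abs_lt.1 (hc 8 (by omega))
    push_cast
    exact Int.emod_eq_of_lt (by linarith) (by linarith)

/-- the coefficients of the product of two forms -/
def pc (ux uy uz vx vy vz : ℤ) : ℕ → ℤ
  | 0 => -(ux * vx)
  | 1 => ux * vy - uy * vx
  | 2 => uy * vy - ux * vy - uz * vx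
  | 3 => ux * vz - uy * vy + uz * vy
  | 4 => uy * vz - uz * vy
  | 5 => ux * vx + uz * vz
  | 6 => uy * vx
  | 7 => uz * vx - ux * vz
  | 8 => -(uy * vz)
  | _ => 0

lemma pc_cong (t ux uy uz vx vy vz : ℤ) :
    (ux + uy * t + uz * t ^ 2) * (vx * (t ^ 5 - 1) + vy * (t - t ^ 2) + vz * (t ^ 3 - t ^ 7)) ≡
      ∑ k ∈ range 9, pc ux uy uz vx vy vz k * t ^ k [ZMOD t ^ 9] := by
  refine Int.modEq_iff_dvd.2 ⟨uz * vz, ?_⟩
  simp only [sum_range_succ, sum_range_zero, pc]
  ring

/-- the coefficients of the product with the third form -/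
def pd (c : ℕ → ℤ) (x y z : ℤ) : ℕ → ℤ
  | 0 => 0
  | 1 => c 0 * y
  | 2 => c 1 * y
  | 3 => c 2 * y
  | 4 => c 3 * y + c 0 * x
  | 5 => c 4 * y + c 1 * x
  | 6 => c 5 * y + c 2 * x
  | 7 => c 6 * y + c 3 * x + c 0 * z
  | 8 => c 7 * y + c 4 * x + c 1 * z
  | _ => 0

lemma pd_cong (t : ℤ) (c : ℕ → ℤ) (x y z : ℤ) :
    (∑ k ∈ range 9, c k * t ^ k) * (y * t + x * t ^ 4 + z * t ^ 7) ≡
      ∑ k ∈ range 9, pd c x y z k * t ^ k [ZMOD t ^ 9] := by
  refine Int.modEq_iff_dvd.2 ⟨-(c 8 * y + (c 5 + c 6 * t + c 7 * t ^ 2 + c 8 * t ^ 3) * x +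
    (c 2 + c 3 * t + c 4 * t ^ 2 + c 5 * t ^ 3 + c 6 * t ^ 4 + c 7 * t ^ 5 + c 8 * t ^ 6) * z), ?_⟩
  simp only [sum_range_succ, sum_range_zero, pd]
  ring

lemma mul_bd {a b A B : ℤ} (ha : |a| ≤ A) (hb : |b| ≤ B) : |a * b| ≤ A * B := by
  rw [abs_mul]
  exact mul_le_mul ha hb (abs_nonneg _) ((abs_nonneg _).trans ha)

lemma pc_bd {ux uy uz vx vy vz : ℤ} (h1 : |ux| ≤ 2 ^ 16) (h2 : |uy| ≤ 2 ^ 16)
    (h3 : |uz| ≤ 2 ^ 16) (h4 : |vx| ≤ 2 ^ 16) (h5 : |vy| ≤ 2 ^ 16) (h6 : |vz| ≤ 2 ^ 16) (k : ℕ) :
    |pc ux uy uz vx vy vz k| ≤ 3 * 2 ^ 32 := by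
  have a1 := abs_le.1 (mul_bd h1 h4)
  have a2 := abs_le.1 (mul_bd h1 h5)
  have a3 := abs_le.1 (mul_bd h1 h6)
  have a4 := abs_le.1 (mul_bd h2 h4)
  have a5 := abs_le.1 (mul_bd h2 h5)
  have a6 := abs_le.1 (mul_bd h2 h6)
  have a7 := abs_le.1 (mul_bd h3 h4)
  have a8 := abs_le.1 (mul_bd h3 h5)
  have a9 := abs_le.1 (mul_bd h3 h6)
  have h9 : (2 : ℤ) ^ 16 * 2 ^ 16 = 2 ^ 32 := by norm_num
  rw [h9] at a1 a2 a3 a4 a5 a6 a7 a8 a9
  rw [abs_le]
  rcases k with _ | _ | _ | _ | _ | _ | _ | _ | _ | k <;> simp only [pc] <;> constructor <;>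
    linarith

lemma pd_bd {c : ℕ → ℤ} {x y z : ℤ} (hc : ∀ k, |c k| ≤ 3 * 2 ^ 32) (hx : |x| ≤ 2 ^ 15)
    (hy : |y| ≤ 2 ^ 15) (hz : |z| ≤ 2 ^ 15) (k : ℕ) : |pd c x y z k| < 2 ^ 63 := by
  have a1 := fun k => abs_le.1 (mul_bd (hc k) hx)
  have a2 := fun k => abs_le.1 (mul_bd (hc k) hy)
  have a3 := fun k => abs_le.1 (mul_bd (hc k) hz)
  rw [abs_lt]
  rcases k with _ | _ | _ | _ | _ | _ | _ | _ | _ | k <;> simp only [pd]
  · constructor <;> norm_num
  · have := a2 0
    constructor <;> linarith
  · have := a2 1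
    constructor <;> linarith
  · have := a2 2
    constructor <;> linarith
  · have := a2 3
    have := a1 0
    constructor <;> linarith
  · have := a2 4
    have := a1 1
    constructor <;> linarith
  · have := a2 5
    have := a1 2
    constructor <;> linarith
  · have := a2 6
    have := a1 3
    have := a3 0
    constructor <;> linarith
  · have := a2 7
    have := a1 4
    have := a3 1
    constructor <;> linarith
  · constructor <;> norm_num

lemma fA_cast (p : ℕ) : (fA p : ℤ) = ox p + oy p * 2 ^ 64 + oz p * (2 ^ 64) ^ 2 := by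
  have h : fA p = ox p + (oy p * 2 ^ 64 + oz p * 2 ^ 128) := by
    rw [← nshl, ← nshl]
    rfl
  rw [h]
  push_cast
  ring

lemma fB_cast (p : ℕ) : (fB p : ℤ) = ox p * ((2 ^ 64) ^ 5 - 1) +
    oy p * (2 ^ 64 - (2 ^ 64) ^ 2 + (2 ^ 64) ^ 9) +
    oz p * ((2 ^ 64) ^ 3 - (2 ^ 64) ^ 7 + (2 ^ 64) ^ 9) := by
  have h : fB p = ox p * 2135987035920910082395021706169552114602704522356652769947041607822219725780640550022962086936575 +
    (oy p * 247330401473104534060502521019647190035131349101211839914063056092897225106531867170316401061243044989597671426016139339351365034306750869685179234163429722988743414090039296 +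
      oz p * 247330401473104534060502521019647190034404510376916233023513732285009220572178225809629083000961554790417032137902747693126909370273751480196206841162043092338516634554597376) := rfl
  rw [h]
  push_cast
  ring

lemma fD_cast (p : ℕ) : (fD p : ℤ) = iy p * 2 ^ 64 + ix p * (2 ^ 64) ^ 4 + iz p * (2 ^ 64) ^ 7 +
    (2 ^ 64) ^ 9 := by
  have h : fD p = (oy p * 2 ^ 64 + ox p * (2 ^ 64) ^ 4) + (oz p * (2 ^ 64) ^ 7 +
      247330401473104534060502521019647166218080031382765250393820519218764643406411760168278201753577923058281101434553413749958329881166284057377528158526224066173675859074875392) := by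
    rw [← pow_mul, ← pow_mul, ← nshl, ← nshl, ← nshl]
    rfl
  rw [h]
  simp only [ix, iy, iz]
  push_cast
  ring

lemma fA_le (p : ℕ) : fA p ≤ 2 ^ 576 := by
  have h1 := ox_lt p
  have h2 := oy_lt p
  have h3 := oz_lt p
  have h : (fA p : ℤ) ≤ 2 ^ 576 := by
    rw [fA_cast, p576]
    have h1' : (ox p : ℤ) < 65536 := by exact_mod_cast h1
    have h2' : (oy p : ℤ) < 65536 := by exact_mod_cast h2
    have h3' : (oz p : ℤ) < 65536 := by exact_mod_cast h3
    norm_num
    linarith
  exact_mod_cast h

lemma fB_le (p : ℕ) : fB p ≤ 2 ^ 600 := by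
  have h1 := ox_lt p
  have h2 := oy_lt p
  have h3 := oz_lt p
  have h : (fB p : ℤ) ≤ 2 ^ 600 := by
    rw [fB_cast, p600]
    have h1' : (ox p : ℤ) < 65536 := by exact_mod_cast h1
    have h2' : (oy p : ℤ) < 65536 := by exact_mod_cast h2
    have h3' : (oz p : ℤ) < 65536 := by exact_mod_cast h3
    norm_num
    linarith
  exact_mod_cast h

/-- the product of the forms of two differences -/
noncomputable def XX (p q r : ℕ) : ℕ :=
  (fA q + (247330401473104534060502521019647190035131349101211839914063056092897225106531867170316401061243044989597671426016139339351365034306751209967546155101893167916606772148699136 - fA p)) *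
    (fB r + (4149515568880992958512407863691161151012446232242436899995657329690652811412908146399707048947103794288197886611300789182395151075411775307886874834113963687061181803401509523685376 - fB p))

lemma XX_eq (p q r : ℕ) : XX p q r = (fA q + (2 ^ 576 - fA p)) * (fB r + (2 ^ 600 - fB p)) := by
  have e1 : (2 : ℕ) ^ 576 = 247330401473104534060502521019647190035131349101211839914063056092897225106531867170316401061243044989597671426016139339351365034306751209967546155101893167916606772148699136 := by
    rw [n576]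
    norm_num
  have e2 : (2 : ℕ) ^ 600 = 4149515568880992958512407863691161151012446232242436899995657329690652811412908146399707048947103794288197886611300789182395151075411775307886874834113963687061181803401509523685376 := by
    rw [n600]
    norm_num
  rw [XX, e1, e2]

lemma XX_cong (p q r : ℕ) : (XX p q r : ℤ) ≡ ∑ k ∈ range 9, pc ((ox q : ℤ) - ox p)
    ((oy q : ℤ) - oy p) ((oz q : ℤ) - oz p) ((ox r : ℤ) - ox p) ((oy r : ℤ) - oy p)
    ((oz r : ℤ) - oz p) k * (2 ^ 64) ^ k [ZMOD 2 ^ 576] := by
  have h1 : ((fA q + (2 ^ 576 - fA p) : ℕ) : ℤ) ≡ ((ox q : ℤ) - ox p) +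
      ((oy q : ℤ) - oy p) * 2 ^ 64 + ((oz q : ℤ) - oz p) * (2 ^ 64) ^ 2 [ZMOD 2 ^ 576] := by
    rw [Nat.cast_add, Nat.cast_sub (fA_le p), fA_cast, fA_cast]
    refine Int.modEq_iff_dvd.2 ⟨-1, ?_⟩
    push_cast
    rw [p576]
    ring
  have h2 : ((fB r + (2 ^ 600 - fB p) : ℕ) : ℤ) ≡ ((ox r : ℤ) - ox p) * ((2 ^ 64) ^ 5 - 1) +
      ((oy r : ℤ) - oy p) * (2 ^ 64 - (2 ^ 64) ^ 2) +
      ((oz r : ℤ) - oz p) * ((2 ^ 64) ^ 3 - (2 ^ 64) ^ 7) [ZMOD 2 ^ 576] := by
    rw [Nat.cast_add, Nat.cast_sub (fB_le p), fB_cast, fB_cast]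
    refine Int.modEq_iff_dvd.2 ⟨-(oy r - oy p) - (oz r - oz p) - 2 ^ 24, ?_⟩
    push_cast
    rw [p600, p576]
    ring
  have h3 := h1.mul h2
  have h9 : (2 : ℤ) ^ 576 = (2 ^ 64) ^ 9 := by rw [← pow_mul]
  rw [XX_eq, Nat.cast_mul]
  refine h3.trans ?_
  rw [h9]
  exact pc_cong _ _ _ _ _ _ _

lemma XD_cong (p q r : ℕ) : ((XX p q r * fD p : ℕ) : ℤ) ≡ ∑ k ∈ range 9, pd (pc ((ox q : ℤ) - ox p)
    ((oy q : ℤ) - oy p) ((oz q : ℤ) - oz p) ((ox r : ℤ) - ox p) ((oy r : ℤ) - oy p)
    ((oz r : ℤ) - oz p)) (ix p) (iy p) (iz p) k * (2 ^ 64) ^ k [ZMOD 2 ^ 576] := by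
  have h1 : (fD p : ℤ) ≡ iy p * 2 ^ 64 + ix p * (2 ^ 64) ^ 4 + iz p * (2 ^ 64) ^ 7
      [ZMOD 2 ^ 576] := by
    rw [fD_cast]
    refine Int.modEq_iff_dvd.2 ⟨-1, ?_⟩
    rw [p576]
    ring
  have h3 := (XX_cong p q r).mul h1
  have h9 : (2 : ℤ) ^ 576 = (2 ^ 64) ^ 9 := by rw [← pow_mul]
  rw [Nat.cast_mul]
  refine h3.trans ?_
  rw [h9]
  exact pd_cong _ _ _ _ _

lemma pc_pt (p q r k : ℕ) : |pc ((ox q : ℤ) - ox p) ((oy q : ℤ) - oy p) ((oz q : ℤ) - oz p)
    ((ox r : ℤ) - ox p) ((oy r : ℤ) - oy p) ((oz r : ℤ) - oz p) k| ≤ 3 * 2 ^ 32 := by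
  have h1 := ox_lt p
  have h2 := oy_lt p
  have h3 := oz_lt p
  have h4 := ox_lt q
  have h5 := oy_lt q
  have h6 := oz_lt q
  have h7 := ox_lt r
  have h8 := oy_lt r
  have h9 := oz_lt r
  refine pc_bd ?_ ?_ ?_ ?_ ?_ ?_ k <;> rw [abs_le] <;> constructor <;> norm_num <;> omega

/-- the digits are the coefficients of the functional and the offset -/
lemma dg_fn (k p q r : ℕ) :
    (dg (XX p q r) 256 : ℤ) = (mkFD k p q r).A1 - (mkFD k p q r).B1 + 2 ^ 63 ∧
    (dg (XX p q r) 448 : ℤ) = (mkFD k p q r).A2 - (mkFD k p q r).B2 + 2 ^ 63 ∧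
    (dg (XX p q r) 64 : ℤ) = (mkFD k p q r).A3 - (mkFD k p q r).B3 + 2 ^ 63 ∧
    (dg (XX p q r * fD p) 512 : ℤ) = dz (mkFD k p q r) (ix p) (iy p) (iz p) + 2 ^ 63 := by
  have hb : ∀ i < 9, |pc ((ox q : ℤ) - ox p) ((oy q : ℤ) - oy p) ((oz q : ℤ) - oz p)
      ((ox r : ℤ) - ox p) ((oy r : ℤ) - oy p) ((oz r : ℤ) - oz p) i| < 2 ^ 63 := fun i _ =>
    (pc_pt p q r i).trans_lt (by norm_num)
  have hd : ∀ i < 9, |pd (pc ((ox q : ℤ) - ox p) ((oy q : ℤ) - oy p) ((oz q : ℤ) - oz p)
      ((ox r : ℤ) - ox p) ((oy r : ℤ) - oy p) ((oz r : ℤ) - oz p)) (ix p) (iy p) (iz p) i| <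
      2 ^ 63 := fun i _ => by
    have h1 := ix_bd p
    have h2 := iy_bd p
    have h3 := iz_bd p
    exact pd_bd (pc_pt p q r) (h1.trans (by norm_num)) (h2.trans (by norm_num))
      (h3.trans (by norm_num)) i
  have e4 := dg_digit hb (XX_cong p q r) (k := 4) (by omega)
  have e7 := dg_digit hb (XX_cong p q r) (k := 7) (by omega)
  have e1 := dg_digit hb (XX_cong p q r) (k := 1) (by omega)
  have e8 := dg_digit hd (XD_cong p q r) (k := 8) (by omega)
  simp only [pc] at e4 e7 e1
  simp only [pd, pc] at e8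
  refine ⟨?_, ?_, ?_, ?_⟩
  · refine e4.trans ?_
    simp only [mkFD, crs, nadd, nmul]
    push_cast
    ring
  · refine e7.trans ?_
    simp only [mkFD, crs, nadd, nmul]
    push_cast
    ring
  · refine e1.trans ?_
    simp only [mkFD, crs, nadd, nmul]
    push_cast
    ring
  · refine e8.trans ?_
    simp only [dz, mkFD, crs, nadd, nmul]
    push_cast
    ring

/-- the state contains the functionals of the list -/
def Rs (hs : List FD) (u : Ac) : Prop :=
  u = Ac.mk hs.length (pk FD.c hs) (pk (fun h => h.A1 + 2 ^ 63 - h.B1) hs)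
    (pk (fun h => h.A2 + 2 ^ 63 - h.B2) hs) (pk (fun h => h.A3 + 2 ^ 63 - h.B3) hs)

lemma fn_eq (k p q r : ℕ) (u : Ac) (K : Ac → Bool) :
    fn k (fA p) (fB p) (fD p) (fA q) (fB r) u K =
      f2 (XX p q r) (k + dg (XX p q r * fD p) 512 - 2 ^ 63) u K := rfl

/-- soundness of a functional -/
theorem fn_sound {k p q r : ℕ} {u : Ac} {K : Ac → Bool}
    (h : fn k (fA p) (fB p) (fD p) (fA q) (fB r) u K = true) :
    0 < (mkFD k p q r).c ∧ ∃ v, K v = true ∧ ∀ hs, Rs hs u → Rs (mkFD k p q r :: hs) v := by
  obtain ⟨g1, g2, g3, g4⟩ := dg_fn k p q r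
  rw [fn_eq] at h
  obtain ⟨c, hc⟩ : ∃ c, c = k + dg (XX p q r * fD p) 512 - 2 ^ 63 := ⟨_, rfl⟩
  rw [← hc] at h
  have hge := mkFD_c_ge k p q r
  cases u with
  | mk n C0 C1 C2 C3 =>
    cases c with
    | zero => exact absurd h Bool.false_ne_true
    | succ c =>
      have hpos : 0 < (mkFD k p q r).c := by omega
      have heq := mkFD_c_eq k p q r hpos
      have hcc : (mkFD k p q r).c = c + 1 := by omega
      refine ⟨hpos, Ac.mk (Nat.succ n) (Nat.add (Nat.shiftLeft C0 96) (c + 1))
        (Nat.add (Nat.shiftLeft C1 96) (dg (XX p q r) 256))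
        (Nat.add (Nat.shiftLeft C2 96) (dg (XX p q r) 448))
        (Nat.add (Nat.shiftLeft C3 96) (dg (XX p q r) 64)), h, ?_⟩
      intro hs hR
      rw [Rs, Ac.mk.injEq] at hR
      obtain ⟨r0, r1, r2, r3, r4⟩ := hR
      have d1 : dg (XX p q r) 256 = (mkFD k p q r).A1 + 2 ^ 63 - (mkFD k p q r).B1 := by omega
      have d2 : dg (XX p q r) 448 = (mkFD k p q r).A2 + 2 ^ 63 - (mkFD k p q r).B2 := by omega
      have d3 : dg (XX p q r) 64 = (mkFD k p q r).A3 + 2 ^ 63 - (mkFD k p q r).B3 := by omega
      rw [Rs, r0, r1, r2, r3, r4, d1, d2, d3, ← hcc]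
      rfl

end Pool.Agent.Lib.MP_5e7226_co.C8.TM
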