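import Mathlib

/-!
Cones over a closed surface of positively oriented triangles cover the space.
-/

set_option autoImplicit false

open Set Filter Topology

namespace Pool.Agent.Lib.MP_5e7226_co.C8.TM

/-- the determinant with the rows `u`, `v`, `w` -/
def dt3 (u v w : Fin 3 → ℝ) : ℝ :=
  u 0 * (v 1 * w 2 - v 2 * w 1) - u 1 * (v 0 * w 2 - v 2 * w 0) + u 2 * (v 0 * w 1 - v 1 * w 0)

/-- the directed edges of a triangle -/
def ed (t : (Fin 3 → ℝ) × (Fin 3 → ℝ) × (Fin 3 → ℝ)) : Set ((Fin 3 → ℝ) × (Fin 3 → ℝ)) :=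
  {(t.1, t.2.1), (t.2.1, t.2.2), (t.2.2, t.1)}

/-- the directed edges of the triangles of a list -/
def ES (T : List ((Fin 3 → ℝ) × (Fin 3 → ℝ) × (Fin 3 → ℝ))) : Set ((Fin 3 → ℝ) × (Fin 3 → ℝ)) :=
  {e | ∃ t ∈ T, e ∈ ed t}

lemma dt3_rot (u v w : Fin 3 → ℝ) : dt3 v w u = dt3 u v w := by
  simp only [dt3]
  ring

/-- the determinant as a linear function of the first row -/
def l1 (a b : Fin 3 → ℝ) : (Fin 3 → ℝ) →ₗ[ℝ] ℝ where
  toFun x := dt3 x a b
  map_add' x y := by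
    simp only [dt3, Pi.add_apply]
    ring
  map_smul' c x := by
    simp only [dt3, Pi.smul_apply, smul_eq_mul, RingHom.id_apply]
    ring

lemma l1_apply (a b x : Fin 3 → ℝ) : l1 a b x = dt3 x a b := rfl

/-- an open set is not contained in finitely many planes -/
lemma gen (L : List ((Fin 3 → ℝ) →ₗ[ℝ] ℝ)) (hL : ∀ φ ∈ L, ∃ z, φ z ≠ 0) :
    ∀ U : Set (Fin 3 → ℝ), IsOpen U → U.Nonempty → ∃ x ∈ U, ∀ φ ∈ L, φ x ≠ 0 := by
  induction L with
  | nil =>
    intro U _ hU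
    obtain ⟨x, hx⟩ := hU
    exact ⟨x, hx, by simp⟩
  | cons φ L ih =>
    intro U hUo hU
    have hφ : IsClosed ((LinearMap.ker φ : Submodule ℝ (Fin 3 → ℝ)) : Set (Fin 3 → ℝ)) :=
      Submodule.closed_of_finiteDimensional _
    have h1 : (U \ (LinearMap.ker φ : Submodule ℝ (Fin 3 → ℝ))).Nonempty := by
      by_contra h2
      rw [not_nonempty_iff_eq_empty, sdiff_eq_empty] at h2
      have h3 : LinearMap.ker φ = ⊤ :=
        Submodule.eq_top_of_nonempty_interior' _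
          (hU.mono (interior_maximal h2 hUo))
      obtain ⟨z, hz⟩ := hL φ (by simp)
      apply hz
      have : z ∈ LinearMap.ker φ := by rw [h3]; trivial
      exact this
    obtain ⟨x, hx, hx2⟩ := ih (fun ψ hψ => hL ψ (by simp [hψ])) _ (hUo.sdiff hφ) h1
    refine ⟨x, hx.1, fun ψ hψ => ?_⟩
    rcases List.mem_cons.1 hψ with rfl | h
    · exact fun h4 => hx.2 h4
    · exact hx2 ψ h

/-- `x` lies in the closed cone over the triangle `u v w` -/
def In (u v w x : Fin 3 → ℝ) : Prop := 0 ≤ dt3 x v w ∧ 0 ≤ dt3 u x w ∧ 0 ≤ dt3 u v x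

lemma cont1 (a b : Fin 3 → ℝ) : Continuous fun x => dt3 x a b := by
  unfold dt3
  fun_prop

lemma cont2 (a b : Fin 3 → ℝ) : Continuous fun x => dt3 a x b := by
  unfold dt3
  fun_prop

lemma cont3 (a b : Fin 3 → ℝ) : Continuous fun x => dt3 a b x := by
  unfold dt3
  fun_prop

lemma nb {P : (Fin 3 → ℝ) → (Fin 3 → ℝ) → (Fin 3 → ℝ) → Prop}
    (h2 : ∀ u v w, P u v w → 0 < dt3 u v w) (h3 : ∀ u v w, P u v w → ∃ z, P v u z)
    {u v w y : Fin 3 → ℝ} (h : P u v w) (ha : 0 < dt3 y v w) (hb : 0 < dt3 u y w)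
    (hc : 0 ≤ dt3 u v y) : ∀ᶠ y' in 𝓝 y, ∃ u v w, P u v w ∧ In u v w y' := by
  have e1 := ((cont1 v w).tendsto y).eventually_const_lt ha
  have e2 := ((cont2 u w).tendsto y).eventually_const_lt hb
  rcases hc.lt_or_eq with hc | hc
  · filter_upwards [e1, e2, ((cont3 u v).tendsto y).eventually_const_lt hc] with y' g1 g2 g3
    exact ⟨u, v, w, h, g1.le, g2.le, g3.le⟩
  · obtain ⟨z, hz⟩ := h3 _ _ _ h
    have hD := h2 _ _ _ h
    have hz0 := h2 _ _ _ hz
    have i1 : dt3 u v w * dt3 y u z = dt3 u y w * dt3 v u z + dt3 u v y * dt3 w u z := by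
      simp only [dt3]
      ring
    have i2 : dt3 u v w * dt3 v y z = dt3 y v w * dt3 v u z + dt3 u v y * dt3 v w z := by
      simp only [dt3]
      ring
    rw [← hc, zero_mul, add_zero] at i1 i2
    have j1 : 0 < dt3 y u z := by
      have : 0 < dt3 u v w * dt3 y u z := by rw [i1]; positivity
      exact (mul_pos_iff_of_pos_left hD).1 this
    have j2 : 0 < dt3 v y z := by
      have : 0 < dt3 u v w * dt3 v y z := by rw [i2]; positivity
      exact (mul_pos_iff_of_pos_left hD).1 this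
    filter_upwards [e1, e2, ((cont1 u z).tendsto y).eventually_const_lt j1,
      ((cont2 v z).tendsto y).eventually_const_lt j2] with y' g1 g2 g3 g4
    rcases le_total 0 (dt3 u v y') with g | g
    · exact ⟨u, v, w, h, g1.le, g2.le, g⟩
    · refine ⟨v, u, z, hz, g3.le, g4.le, ?_⟩
      have : dt3 v u y' = - dt3 u v y' := by
        simp only [dt3]
        ring
      rw [this]
      linarith

/-- Cones over a closed surface of positively oriented triangles cover the space. -/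
theorem cover {T : List ((Fin 3 → ℝ) × (Fin 3 → ℝ) × (Fin 3 → ℝ))} (hne : T ≠ [])
    (hpos : ∀ t ∈ T, 0 < dt3 t.1 t.2.1 t.2.2) (hcl : ∀ e ∈ ES T, e.swap ∈ ES T)
    (x : Fin 3 → ℝ) :
    ∃ t ∈ T, 0 ≤ dt3 x t.2.1 t.2.2 ∧ 0 ≤ dt3 t.1 x t.2.2 ∧ 0 ≤ dt3 t.1 t.2.1 x := by
  -- the rotated triangles
  obtain ⟨P, hP⟩ : ∃ P : (Fin 3 → ℝ) → (Fin 3 → ℝ) → (Fin 3 → ℝ) → Prop,
    P = fun u v w => (u, v, w) ∈ T ∨ (v, w, u) ∈ T ∨ (w, u, v) ∈ T := ⟨_, rfl⟩
  have hP0 : ∀ u v w, P u v w ↔ (u, v, w) ∈ T ∨ (v, w, u) ∈ T ∨ (w, u, v) ∈ T := by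
    intro u v w
    rw [hP]
  have hPT : ∀ t ∈ T, P t.1 t.2.1 t.2.2 := fun t ht => (hP0 _ _ _).2 (Or.inl ht)
  have hrot : ∀ u v w, P u v w → P v w u := by
    intro u v w h
    rw [hP0] at h ⊢
    tauto
  have h2 : ∀ u v w, P u v w → 0 < dt3 u v w := by
    intro u v w h
    rcases (hP0 _ _ _).1 h with h | h | h
    · exact hpos _ h
    · rw [← dt3_rot]; exact hpos _ h
    · rw [← dt3_rot, ← dt3_rot]; exact hpos _ h
  have hE : ∀ u v, (u, v) ∈ ES T ↔ ∃ w, P u v w := by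
    intro u v
    constructor
    · rintro ⟨t, ht, he⟩
      simp only [ed, mem_insert_iff, mem_singleton_iff, Prod.mk.injEq] at he
      rcases he with ⟨rfl, rfl⟩ | ⟨rfl, rfl⟩ | ⟨rfl, rfl⟩
      · exact ⟨_, hPT t ht⟩
      · exact ⟨_, hrot _ _ _ (hPT t ht)⟩
      · exact ⟨_, hrot _ _ _ (hrot _ _ _ (hPT t ht))⟩
    · rintro ⟨w, h⟩
      rcases (hP0 _ _ _).1 h with h | h | h
      · exact ⟨_, h, by simp [ed]⟩
      · exact ⟨_, h, by simp [ed]⟩
      · exact ⟨_, h, by simp [ed]⟩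
  have h3 : ∀ u v w, P u v w → ∃ z, P v u z := by
    intro u v w h
    exact (hE v u).1 (hcl (u, v) ((hE u v).2 ⟨w, h⟩))
  have hIn : ∀ y, (∃ u v w, P u v w ∧ In u v w y) →
      ∃ t ∈ T, In t.1 t.2.1 t.2.2 y := by
    rintro y ⟨u, v, w, h, g1, g2, g3⟩
    rcases (hP0 _ _ _).1 h with h | h | h
    · exact ⟨_, h, g1, g2, g3⟩
    · exact ⟨_, h, (dt3_rot u y w).symm ▸ g2, (dt3_rot u v y).symm ▸ g3,
        (dt3_rot y v w).symm ▸ g1⟩
    · exact ⟨_, h, (dt3_rot y u v) ▸ g3, (dt3_rot w y v) ▸ g1, (dt3_rot w u y) ▸ g2⟩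
  -- the union of the cones
  obtain ⟨C, hC⟩ : ∃ C : Set (Fin 3 → ℝ), C = {y | ∃ t ∈ T, In t.1 t.2.1 t.2.2 y} := ⟨_, rfl⟩
  have hCc : IsClosed C := by
    have : C = ⋃ t ∈ {t | t ∈ T}, {y | In t.1 t.2.1 t.2.2 y} := by
      rw [hC]
      ext y
      simp
    rw [this]
    refine (List.finite_toSet T).isClosed_biUnion fun t _ => ?_
    have : {y | In t.1 t.2.1 t.2.2 y} = {y | 0 ≤ dt3 y t.2.1 t.2.2} ∩
        ({y | 0 ≤ dt3 t.1 y t.2.2} ∩ {y | 0 ≤ dt3 t.1 t.2.1 y}) := rfl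
    rw [this]
    exact (isClosed_le continuous_const (cont1 _ _)).inter
      ((isClosed_le continuous_const (cont2 _ _)).inter
        (isClosed_le continuous_const (cont3 _ _)))
  by_contra hx
  have hxC : x ∉ C := by
    rw [hC]
    exact hx
  -- the finite list of rotated triangles
  obtain ⟨T', hT'⟩ : ∃ T' : List ((Fin 3 → ℝ) × (Fin 3 → ℝ) × (Fin 3 → ℝ)),
      ∀ u v w, P u v w ↔ (u, v, w) ∈ T' := by
    refine ⟨T ++ T.map (fun t => (t.2.2, t.1, t.2.1)) ++ T.map (fun t => (t.2.1, t.2.2, t.1)),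
      fun u v w => ?_⟩
    rw [hP0]
    simp only [List.mem_append, List.mem_map, Prod.mk.injEq, Prod.exists]
    constructor
    · rintro (h | h | h)
      · exact Or.inl (Or.inl h)
      · exact Or.inl (Or.inr ⟨v, w, u, h, rfl, rfl, rfl⟩)
      · exact Or.inr ⟨w, u, v, h, rfl, rfl, rfl⟩
    · rintro ((h | ⟨a, b, c, h, rfl, rfl, rfl⟩) | ⟨a, b, c, h, rfl, rfl, rfl⟩)
      · exact Or.inl h
      · exact Or.inr (Or.inl h)
      · exact Or.inr (Or.inr h)
  -- a generic point in the first cone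
  obtain ⟨p, hpU, hp⟩ : ∃ p ∈ C, ∀ u v w, P u v w → dt3 p u v ≠ 0 := by
    obtain ⟨t, ht⟩ := List.exists_mem_of_ne_nil T hne
    have hD := hpos t ht
    have hy1 : 0 < dt3 (t.1 + t.2.1 + t.2.2) t.2.1 t.2.2 := by
      have : dt3 (t.1 + t.2.1 + t.2.2) t.2.1 t.2.2 = dt3 t.1 t.2.1 t.2.2 := by
        simp only [dt3, Pi.add_apply]
        ring
      rw [this]; exact hD
    have hy2 : 0 < dt3 t.1 (t.1 + t.2.1 + t.2.2) t.2.2 := by
      have : dt3 t.1 (t.1 + t.2.1 + t.2.2) t.2.2 = dt3 t.1 t.2.1 t.2.2 := by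
        simp only [dt3, Pi.add_apply]
        ring
      rw [this]; exact hD
    have hy3 : 0 < dt3 t.1 t.2.1 (t.1 + t.2.1 + t.2.2) := by
      have : dt3 t.1 t.2.1 (t.1 + t.2.1 + t.2.2) = dt3 t.1 t.2.1 t.2.2 := by
        simp only [dt3, Pi.add_apply]
        ring
      rw [this]; exact hD
    have hUo : IsOpen ({y | 0 < dt3 y t.2.1 t.2.2} ∩
        ({y | 0 < dt3 t.1 y t.2.2} ∩ {y | 0 < dt3 t.1 t.2.1 y})) :=
      (isOpen_lt continuous_const (cont1 _ _)).inter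
        ((isOpen_lt continuous_const (cont2 _ _)).inter
          (isOpen_lt continuous_const (cont3 _ _)))
    obtain ⟨p, hp1, hp2⟩ := gen (T'.map fun t => l1 t.1 t.2.1) (by
      intro φ hφ
      obtain ⟨s, hs, rfl⟩ := List.mem_map.1 hφ
      refine ⟨s.2.2, ?_⟩
      rw [l1_apply, ← dt3_rot]
      exact (h2 _ _ _ ((hT' s.1 s.2.1 s.2.2).2 hs)).ne') _ hUo ⟨_, hy1, hy2, hy3⟩
    refine ⟨p, ?_, fun u v w h => ?_⟩
    · rw [hC]
      exact ⟨t, ht, hp1.1.le, hp1.2.1.le, hp1.2.2.le⟩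
    · exact hp2 (l1 u v) (List.mem_map.2 ⟨(u, v, w), (hT' _ _ _).1 h, rfl⟩)
  -- a generic point outside
  obtain ⟨x', hx', hg⟩ : ∃ x' ∈ Cᶜ, ∀ u v w, P u v w → dt3 x' p u ≠ 0 := by
    obtain ⟨x', h4, h5⟩ := gen (T'.map fun t => l1 p t.1) (by
      intro φ hφ
      obtain ⟨s, hs, rfl⟩ := List.mem_map.1 hφ
      refine ⟨s.2.1, ?_⟩
      rw [l1_apply, ← dt3_rot]
      exact hp _ _ _ ((hT' s.1 s.2.1 s.2.2).2 hs)) _ hCc.isOpen_compl ⟨x, hxC⟩
    exact ⟨x', h4, fun u v w h => h5 (l1 p u) (List.mem_map.2 ⟨(u, v, w), (hT' _ _ _).1 h, rfl⟩)⟩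
  -- the segment
  obtain ⟨γ, hγ⟩ : ∃ γ : ℝ → (Fin 3 → ℝ), ∀ t, γ t = (1 - t) • p + t • x' := ⟨_, fun _ => rfl⟩
  have hγc : Continuous γ := by
    have : γ = fun t => (1 - t) • p + t • x' := funext hγ
    rw [this]
    fun_prop
  have hγ0 : γ 0 = p := by rw [hγ]; simp
  have hγ1 : γ 1 = x' := by rw [hγ]; simp
  have hS : IsCompact (Icc (0 : ℝ) 1 ∩ γ ⁻¹' C) := isCompact_Icc.inter_right (hCc.preimage hγc)
  obtain ⟨s, ⟨⟨hs0, hs1⟩, hsC⟩, hmax⟩ := hS.exists_isGreatest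
    ⟨0, ⟨le_rfl, zero_le_one⟩, by rw [mem_preimage, hγ0]; exact hpU⟩
  have hs1' : s < 1 := by
    rcases hs1.lt_or_eq with h | h
    · exact h
    · exfalso
      rw [h, mem_preimage, hγ1] at hsC
      exact hx' hsC
  -- a neighbourhood of the last point is in the union
  have key : ∀ᶠ y in 𝓝 (γ s), ∃ u v w, P u v w ∧ In u v w y := by
    -- two positive coordinates
    have two : ∀ u v w, P u v w → dt3 u (γ s) w = 0 → dt3 u v (γ s) = 0 → False := by
      intro u v w h hb hc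
      have hD := h2 _ _ _ h
      have i1 : dt3 u v w * dt3 (γ s) p u = dt3 u (γ s) w * dt3 v p u + dt3 u v (γ s) * dt3 w p u := by
        simp only [dt3]
        ring
      rw [hb, hc, zero_mul, zero_mul, add_zero] at i1
      have i2 : dt3 (γ s) p u = 0 := by
        rcases mul_eq_zero.1 i1 with h6 | h6
        · exact absurd h6 hD.ne'
        · exact h6
      have i3 : dt3 (γ s) p u = s * dt3 x' p u := by
        rw [hγ]
        simp only [dt3, Pi.add_apply, Pi.smul_apply, smul_eq_mul]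
        ring
      rw [i3] at i2
      have hs : s = 0 := by
        rcases mul_eq_zero.1 i2 with h6 | h6
        · exact h6
        · exact absurd h6 (hg _ _ _ h)
      rw [hs, hγ0] at hb hc
      have i4 : dt3 u v w * dt3 p u v = dt3 u v p * dt3 w u v := by
        have : dt3 u v w * dt3 p u v = dt3 u p w * dt3 v u v + dt3 u v p * dt3 w u v := by
          simp only [dt3]
          ring
        rw [hb, zero_mul, zero_add] at this
        exact this
      rw [hc, zero_mul] at i4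
      rcases mul_eq_zero.1 i4 with h6 | h6
      · exact hD.ne' h6
      · exact hp _ _ _ h h6
    rw [mem_preimage, hC] at hsC
    obtain ⟨t, ht, ha, hb, hc⟩ := hsC
    have q1 := hPT t ht
    have q2 := hrot _ _ _ q1
    have q3 := hrot _ _ _ q2
    have r1 : dt3 t.2.1 t.2.2 (γ s) = dt3 (γ s) t.2.1 t.2.2 := dt3_rot _ _ _
    have r2 : dt3 t.2.1 (γ s) t.1 = dt3 t.1 t.2.1 (γ s) := dt3_rot _ _ _
    have r3 : dt3 (γ s) t.2.2 t.1 = dt3 t.1 (γ s) t.2.2 := dt3_rot _ _ _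
    have r4 : dt3 t.2.2 t.1 (γ s) = dt3 t.1 (γ s) t.2.2 := by rw [dt3_rot, dt3_rot]
    have r5 : dt3 t.2.2 (γ s) t.2.1 = dt3 (γ s) t.2.1 t.2.2 := by rw [dt3_rot, dt3_rot]
    have r6 : dt3 (γ s) t.1 t.2.1 = dt3 t.1 t.2.1 (γ s) := by rw [dt3_rot, dt3_rot]
    rcases ha.lt_or_eq with ha | ha
    · rcases hb.lt_or_eq with hb | hb
      · exact nb h2 h3 q1 ha hb hc
      · rcases hc.lt_or_eq with hc | hc
        · exact nb h2 h3 q3 (by rw [r6]; exact hc) (by rw [r5]; exact ha) (by rw [r4]; exact hb.le)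
        · exact absurd (two _ _ _ q1 hb.symm hc.symm) id
    · rcases hb.lt_or_eq with hb | hb
      · rcases hc.lt_or_eq with hc | hc
        · exact nb h2 h3 q2 (by rw [r3]; exact hb) (by rw [r2]; exact hc) (by rw [r1]; exact ha.le)
        · exact absurd (two _ _ _ q2 (by rw [r2]; exact hc.symm) (by rw [r1]; exact ha.symm)) id
      · exact absurd (two _ _ _ q3 (by rw [r5]; exact ha.symm) (by rw [r4]; exact hb.symm)) id
  have key2 : ∀ᶠ r in 𝓝 s, γ r ∈ C := by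
    have := (hγc.tendsto s).eventually key
    filter_upwards [this] with r hr
    rw [hC]
    exact hIn _ hr
  have key3 : ∀ᶠ r in 𝓝[>] s, γ r ∈ C ∧ r < 1 ∧ s < r := by
    filter_upwards [nhdsWithin_le_nhds key2, nhdsWithin_le_nhds (gt_mem_nhds hs1'),
      self_mem_nhdsWithin] with r k1 k2 k3
    exact ⟨k1, k2, k3⟩
  obtain ⟨r, k1, k2, k3⟩ := key3.exists
  exact absurd (hmax ⟨⟨hs0.trans k3.le, k2.le⟩, k1⟩) (not_le.2 k3)

end Pool.Agent.Lib.MP_5e7226_co.C8.TM
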