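import Pool.Agent.Lib.MP_5e7226_co.C8.TM
import Pool.Agent.Lib.MP_5e7226_co.C8.TMC
import Pool.Agent.Lib.MP_5e7226_co.C8.TMA

/-!
Soundness of the front machine: a run which ends well gives a closed surface of triangles.
-/

set_option autoImplicit false

namespace Pool.Agent.Lib.MP_5e7226_co.C8.TM

/-- the cells of a list of vertices have the labels and numbers of the points of a list -/
def AV {E : Type} (VL : ℕ → ℕ → ℕ → ℕ → E → Prop) : Fr → List E → Prop
  | .e, [] => True
  | .e, _ :: _ => False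
  | .c _ _ _ _ _, [] => False
  | .c R A B D t, P :: l => VL R A B D P ∧ AV VL t l

lemma AV_e {E : Type} (VL : ℕ → ℕ → ℕ → ℕ → E → Prop) : AV VL Fr.e [] := trivial

lemma AV_c {E : Type} (VL : ℕ → ℕ → ℕ → ℕ → E → Prop) (R A B D : ℕ) (t : Fr) (P : E)
    (l : List E) : AV VL (Fr.c R A B D t) (P :: l) ↔ VL R A B D P ∧ AV VL t l := Iff.rfl

lemma AV_e_iff {E : Type} (VL : ℕ → ℕ → ℕ → ℕ → E → Prop) (l : List E) :
    AV VL Fr.e l ↔ l = [] := by
  cases l with
  | nil => simp [AV]
  | cons P l => simp [AV]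

lemma AV_c_iff {E : Type} (VL : ℕ → ℕ → ℕ → ℕ → E → Prop) (R A B D : ℕ) (t : Fr)
    (l : List E) : AV VL (Fr.c R A B D t) l ↔ ∃ P l', l = P :: l' ∧ VL R A B D P ∧ AV VL t l' := by
  cases l with
  | nil => simp [AV]
  | cons P l => simp [AV]

/-- a chain of states with triangles -/
def Ch {U E : Type} (J : U → U → E × E × E → Prop) : U → List (E × E × E) → U → Prop
  | u, [], v => u = v
  | u, t :: T, v => ∃ w, J u w t ∧ Ch J w T v

/-- the edges of the left part -/
def EL {E : Type} (f : E) : List E → Set (E × E)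
  | [] => ∅
  | p :: l => insert (p, f) (EL p l)

/-- the edges of the right part -/
def ER {E : Type} (f : E) : List E → Set (E × E)
  | [] => ∅
  | q :: r => insert (f, q) (ER q r)

/-- the last point -/
def lsp {E : Type} (f : E) : List E → E
  | [] => f
  | p :: l => lsp p l

/-- the edges which are needed by a front -/
def Need {E : Type} (l : List E) (f : E) (r : List E) : Set (E × E) :=
  insert (lsp f r, lsp f l) (EL f l ∪ ER f r)

/-- the triangles of `T` fill the front with the edges `N` -/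
def Fill (N : Set ((Fin 3 → ℝ) × (Fin 3 → ℝ)))
    (T : List ((Fin 3 → ℝ) × (Fin 3 → ℝ) × (Fin 3 → ℝ))) : Prop :=
  (∀ e ∈ N, e ∈ ES T ∨ e.swap ∈ N) ∧ ∀ e ∈ ES T, e ∈ N ∨ e.swap ∈ ES T

lemma mem_ES_nil (e : (Fin 3 → ℝ) × (Fin 3 → ℝ)) : e ∈ ES [] ↔ False := by
  simp [ES]

lemma mem_ES_cons (e : (Fin 3 → ℝ) × (Fin 3 → ℝ)) (p q r : Fin 3 → ℝ)
    (T : List ((Fin 3 → ℝ) × (Fin 3 → ℝ) × (Fin 3 → ℝ))) :
    e ∈ ES ((p, q, r) :: T) ↔ e = (p, q) ∨ e = (q, r) ∨ e = (r, p) ∨ e ∈ ES T := by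
  simp only [ES, ed, Set.mem_ofPred_eq, List.mem_cons, exists_eq_or_imp, Set.mem_insert_iff,
    Set.mem_singleton_iff, or_assoc]

/-- the step `close` -/
lemma fill_close (X N N' : Set ((Fin 3 → ℝ) × (Fin 3 → ℝ))) (p a q : Fin 3 → ℝ)
    (T : List ((Fin 3 → ℝ) × (Fin 3 → ℝ) × (Fin 3 → ℝ)))
    (hN : ∀ e, e ∈ N ↔ e = (p, a) ∨ e = (a, q) ∨ e ∈ X) (hN' : ∀ e, e ∈ N' ↔ e = (p, q) ∨ e ∈ X)
    (h : Fill N' T) : Fill N ((p, a, q) :: T) := by
  obtain ⟨h1, h2⟩ := h
  constructor
  · intro e he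
    rw [mem_ES_cons]
    rw [hN] at he
    rcases he with he | he | he
    · exact Or.inl (Or.inl he)
    · exact Or.inl (Or.inr (Or.inl he))
    · rcases h1 e ((hN' e).2 (Or.inr he)) with h3 | h3
      · exact Or.inl (Or.inr (Or.inr (Or.inr h3)))
      · rcases (hN' _).1 h3 with h4 | h4
        · left
          right
          right
          left
          rw [Prod.swap_eq_iff_eq_swap] at h4
          exact h4
        · exact Or.inr ((hN _).2 (Or.inr (Or.inr h4)))
  · intro e he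
    rw [mem_ES_cons]
    rw [mem_ES_cons] at he
    rcases he with he | he | he | he
    · exact Or.inl ((hN _).2 (Or.inl he))
    · exact Or.inl ((hN _).2 (Or.inr (Or.inl he)))
    · subst he
      rcases h1 (p, q) ((hN' _).2 (Or.inl rfl)) with h3 | h3
      · exact Or.inr (Or.inr (Or.inr (Or.inr h3)))
      · rcases (hN' _).1 h3 with h4 | h4
        · right
          right
          right
          left
          change (p, q) = (q, p)
          change (q, p) = (p, q) at h4
          exact h4.symm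
        · exact Or.inl ((hN _).2 (Or.inr (Or.inr h4)))
    · rcases h2 e he with h3 | h3
      · rcases (hN' _).1 h3 with h4 | h4
        · subst h4
          right
          right
          right
          left
          rfl
        · exact Or.inl ((hN _).2 (Or.inr (Or.inr h4)))
      · exact Or.inr (Or.inr (Or.inr (Or.inr h3)))

/-- the step `new` -/
lemma fill_new (X N N' : Set ((Fin 3 → ℝ) × (Fin 3 → ℝ))) (a b v : Fin 3 → ℝ)
    (T : List ((Fin 3 → ℝ) × (Fin 3 → ℝ) × (Fin 3 → ℝ)))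
    (hN : ∀ e, e ∈ N ↔ e = (a, b) ∨ e ∈ X) (hN' : ∀ e, e ∈ N' ↔ e = (a, v) ∨ e = (v, b) ∨ e ∈ X)
    (h : Fill N' T) : Fill N ((a, b, v) :: T) := by
  obtain ⟨h1, h2⟩ := h
  constructor
  · intro e he
    rw [mem_ES_cons]
    rw [hN] at he
    rcases he with he | he
    · exact Or.inl (Or.inl he)
    · rcases h1 e ((hN' e).2 (Or.inr (Or.inr he))) with h3 | h3
      · exact Or.inl (Or.inr (Or.inr (Or.inr h3)))
      · rcases (hN' _).1 h3 with h4 | h4 | h4
        · rw [Prod.swap_eq_iff_eq_swap] at h4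
          exact Or.inl (Or.inr (Or.inr (Or.inl h4)))
        · rw [Prod.swap_eq_iff_eq_swap] at h4
          exact Or.inl (Or.inr (Or.inl h4))
        · exact Or.inr ((hN _).2 (Or.inr h4))
  · intro e he
    rw [mem_ES_cons]
    rw [mem_ES_cons] at he
    rcases he with he | he | he | he
    · exact Or.inl ((hN _).2 (Or.inl he))
    · subst he
      change (b, v) ∈ N ∨ (v, b) = (a, b) ∨ (v, b) = (b, v) ∨ (v, b) = (v, a) ∨ (v, b) ∈ ES T
      rcases h1 (v, b) ((hN' _).2 (Or.inr (Or.inl rfl))) with h3 | h3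
      · exact Or.inr (Or.inr (Or.inr (Or.inr h3)))
      · rcases (hN' _).1 h3 with h4 | h4 | h4
        · change (b, v) = (a, v) at h4
          rw [Prod.mk.injEq] at h4
          right
          right
          right
          left
          rw [h4.1]
        · change (b, v) = (v, b) at h4
          exact Or.inr (Or.inr (Or.inl h4.symm))
        · exact Or.inl ((hN _).2 (Or.inr h4))
    · subst he
      change (v, a) ∈ N ∨ (a, v) = (a, b) ∨ (a, v) = (b, v) ∨ (a, v) = (v, a) ∨ (a, v) ∈ ES T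
      rcases h1 (a, v) ((hN' _).2 (Or.inl rfl)) with h3 | h3
      · exact Or.inr (Or.inr (Or.inr (Or.inr h3)))
      · rcases (hN' _).1 h3 with h4 | h4 | h4
        · change (v, a) = (a, v) at h4
          exact Or.inr (Or.inr (Or.inr (Or.inl h4.symm)))
        · change (v, a) = (v, b) at h4
          rw [Prod.mk.injEq] at h4
          right
          right
          left
          rw [h4.2]
        · exact Or.inl ((hN _).2 (Or.inr h4))
    · rcases h2 e he with h3 | h3
      · rcases (hN' _).1 h3 with h4 | h4 | h4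
        · subst h4
          exact Or.inr (Or.inr (Or.inr (Or.inl rfl)))
        · subst h4
          exact Or.inr (Or.inr (Or.inl rfl))
        · exact Or.inl ((hN _).2 (Or.inr h4))
      · exact Or.inr (Or.inr (Or.inr (Or.inr h3)))

/-- the end -/
lemma fill_end (f q : Fin 3 → ℝ) : Fill (Need [] f [q]) [] := by
  constructor
  · intro e he
    right
    simp only [Need, EL, ER, lsp, Set.mem_insert_iff, Set.mem_union, Set.mem_empty_iff_false,
      or_false, false_or] at he ⊢
    rcases he with he | he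
    · subst he
      exact Or.inr rfl
    · subst he
      exact Or.inl rfl
  · intro e he
    exact absurd he (by rw [mem_ES_nil]; exact not_false)

/-- the start -/
lemma fill_start (P1 P2 P3 : Fin 3 → ℝ)
    (T : List ((Fin 3 → ℝ) × (Fin 3 → ℝ) × (Fin 3 → ℝ)))
    (h : Fill (Need [P3] P2 [P1]) T) :
    ∀ e ∈ ES ((P1, P2, P3) :: T), e.swap ∈ ES ((P1, P2, P3) :: T) := by
  have hN : ∀ e, e ∈ Need [P3] P2 [P1] ↔ e = (P1, P3) ∨ e = (P3, P2) ∨ e = (P2, P1) := by
    intro e
    simp only [Need, EL, ER, lsp, Set.mem_insert_iff, Set.mem_union, Set.mem_empty_iff_false,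
      or_false]
  obtain ⟨h1, h2⟩ := h
  intro e he
  rw [mem_ES_cons]
  rw [mem_ES_cons] at he
  rcases he with he | he | he | he
  · subst he
    change (P2, P1) = (P1, P2) ∨ (P2, P1) = (P2, P3) ∨ (P2, P1) = (P3, P1) ∨ (P2, P1) ∈ ES T
    rcases h1 (P2, P1) ((hN _).2 (Or.inr (Or.inr rfl))) with h3 | h3
    · exact Or.inr (Or.inr (Or.inr h3))
    · rcases (hN _).1 h3 with h4 | h4 | h4
      · change (P1, P2) = (P1, P3) at h4
        rw [Prod.mk.injEq] at h4
        exact Or.inr (Or.inr (Or.inl (by rw [h4.2])))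
      · change (P1, P2) = (P3, P2) at h4
        rw [Prod.mk.injEq] at h4
        exact Or.inr (Or.inl (by rw [h4.1]))
      · change (P1, P2) = (P2, P1) at h4
        exact Or.inl h4.symm
  · subst he
    change (P3, P2) = (P1, P2) ∨ (P3, P2) = (P2, P3) ∨ (P3, P2) = (P3, P1) ∨ (P3, P2) ∈ ES T
    rcases h1 (P3, P2) ((hN _).2 (Or.inr (Or.inl rfl))) with h3 | h3
    · exact Or.inr (Or.inr (Or.inr h3))
    · rcases (hN _).1 h3 with h4 | h4 | h4
      · change (P2, P3) = (P1, P3) at h4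
        rw [Prod.mk.injEq] at h4
        exact Or.inr (Or.inr (Or.inl (by rw [h4.1])))
      · change (P2, P3) = (P3, P2) at h4
        exact Or.inr (Or.inl h4.symm)
      · change (P2, P3) = (P2, P1) at h4
        rw [Prod.mk.injEq] at h4
        exact Or.inl (by rw [h4.2])
  · subst he
    change (P1, P3) = (P1, P2) ∨ (P1, P3) = (P2, P3) ∨ (P1, P3) = (P3, P1) ∨ (P1, P3) ∈ ES T
    rcases h1 (P1, P3) ((hN _).2 (Or.inl rfl)) with h3 | h3
    · exact Or.inr (Or.inr (Or.inr h3))
    · rcases (hN _).1 h3 with h4 | h4 | h4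
      · change (P3, P1) = (P1, P3) at h4
        exact Or.inr (Or.inr (Or.inl h4.symm))
      · change (P3, P1) = (P3, P2) at h4
        rw [Prod.mk.injEq] at h4
        exact Or.inr (Or.inl (by rw [h4.2]))
      · change (P3, P1) = (P2, P1) at h4
        rw [Prod.mk.injEq] at h4
        exact Or.inl (by rw [h4.1])
  · rcases h2 e he with h3 | h3
    · rcases (hN _).1 h3 with h4 | h4 | h4
      · subst h4
        exact Or.inr (Or.inr (Or.inl rfl))
      · subst h4
        exact Or.inr (Or.inl rfl)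
      · subst h4
        exact Or.inl rfl
    · exact Or.inr (Or.inr (Or.inr h3))

/-- the step to the right does not change the needed edges -/
lemma need_right (l : List (Fin 3 → ℝ)) (a b : Fin 3 → ℝ) (t : List (Fin 3 → ℝ)) :
    Need (a :: l) b t = Need l a (b :: t) := by
  ext e
  simp only [Need, EL, ER, lsp, Set.mem_insert_iff, Set.mem_union]
  tauto

/-- the step to the left does not change the needed edges -/
lemma need_left (t : List (Fin 3 → ℝ)) (b a : Fin 3 → ℝ) (r : List (Fin 3 → ℝ)) :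
    Need t b (a :: r) = Need (b :: t) a r := by
  ext e
  simp only [Need, EL, ER, lsp, Set.mem_insert_iff, Set.mem_union]
  tauto

/-- soundness of the steps of the front -/
lemma fr_sound {U : Type} {tr : RT U} {VL : ℕ → ℕ → ℕ → ℕ → (Fin 3 → ℝ) → Prop}
    {J : U → U → (Fin 3 → ℝ) × (Fin 3 → ℝ) × (Fin 3 → ℝ) → Prop}
    (hT : ∀ R1 A1 B1 D1 P1 R2 A2 B2 D2 P2 R3 A3 B3 D3 P3 u k,
      VL R1 A1 B1 D1 P1 → VL R2 A2 B2 D2 P2 → VL R3 A3 B3 D3 P3 →
      tr R1 A1 B1 D1 R2 A2 B2 D2 R3 A3 B3 D3 u k = true →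
      ∃ v, k v = true ∧ J u v (P1, P2, P3))
    {k : U → Bool} (n : ℕ) : ∀ (L : Fr) (R A B D : ℕ) (r Q : Fr) (S : ℕ) (u : U)
      (l' : List (Fin 3 → ℝ)) (f' : Fin 3 → ℝ) (r' q' : List (Fin 3 → ℝ)),
      AV VL L l' → VL R A B D f' → AV VL r r' → AV VL Q q' →
      fr U tr k n L R A B D r Q S u = true →
      ∃ (T : List ((Fin 3 → ℝ) × (Fin 3 → ℝ) × (Fin 3 → ℝ))) (v : U),
        Ch J u T v ∧ k v = true ∧ Fill (Need l' f' r') T := by
  induction n with
  | zero =>
    intro L R A B D r Q S u l' f' r' q' hL hf hr hQ h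
    cases L with
    | c R1 A1 B1 D1 L1 => exact absurd h Bool.false_ne_true
    | e =>
      cases r with
      | e => exact absurd h Bool.false_ne_true
      | c R2 A2 B2 D2 r2 =>
        cases r2 with
        | c R3 A3 B3 D3 r3 => exact absurd h Bool.false_ne_true
        | e =>
          rw [AV_e_iff] at hL
          rw [AV_c_iff] at hr
          obtain ⟨P, r'', rfl, _, hr2⟩ := hr
          rw [AV_e_iff] at hr2
          subst hL hr2
          exact ⟨[], u, rfl, h, fill_end _ _⟩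
  | succ n ih =>
    intro L R A B D r Q S u l' f' r' q' hL hf hr hQ h
    change ds U tr (Nat.land S 3) (fr U tr k n) L R A B D r Q (Nat.shiftRight S 2) u = true at h
    generalize Nat.land S 3 = x at h
    generalize Nat.shiftRight S 2 = S' at h
    rcases x with _ | _ | _ | x
    · change o0 U tr (fr U tr k n) L R A B D r Q S' u = true at h
      cases L with
      | e => exact absurd h Bool.false_ne_true
      | c R1 A1 B1 D1 L1 =>
        cases r with
        | e => exact absurd h Bool.false_ne_true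
        | c R2 A2 B2 D2 r2 =>
          obtain ⟨p, l2, rfl, hp, hL1⟩ := (AV_c_iff _ _ _ _ _ _ _).1 hL
          obtain ⟨q, r3, rfl, hq, hr2⟩ := (AV_c_iff _ _ _ _ _ _ _).1 hr
          obtain ⟨w, h1, h2⟩ := hT R1 A1 B1 D1 p R A B D f' R2 A2 B2 D2 q u _ hp hf hq h
          obtain ⟨T, v, h3, h4, h5⟩ := ih L1 R1 A1 B1 D1 (Fr.c R2 A2 B2 D2 r2) Q S' w l2 p
            (q :: r3) q' hL1 hp hr hQ h1
          refine ⟨(p, f', q) :: T, v, ⟨w, h2, h3⟩, h4, ?_⟩
          refine fill_close (insert (lsp q r3, lsp p l2) (EL p l2 ∪ ER q r3)) _ _ p f' q T ?_ ?_ h5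
          · intro e
            simp only [Need, EL, ER, lsp, Set.mem_insert_iff, Set.mem_union]
            tauto
          · intro e
            simp only [Need, ER, lsp, Set.mem_insert_iff, Set.mem_union]
            tauto
    · change o1 U tr (fr U tr k n) L R A B D r Q S' u = true at h
      cases r with
      | e => exact absurd h Bool.false_ne_true
      | c R2 A2 B2 D2 r2 =>
        cases Q with
        | e => exact absurd h Bool.false_ne_true
        | c R3 A3 B3 D3 Q2 =>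
          obtain ⟨b, r3, rfl, hb, hr2⟩ := (AV_c_iff _ _ _ _ _ _ _).1 hr
          obtain ⟨v', q2, rfl, hv, hQ2⟩ := (AV_c_iff _ _ _ _ _ _ _).1 hQ
          obtain ⟨w, h1, h2⟩ := hT R A B D f' R2 A2 B2 D2 b R3 A3 B3 D3 v' u _ hf hb hv h
          obtain ⟨T, v, h3, h4, h5⟩ := ih L R A B D (Fr.c R3 A3 B3 D3 (Fr.c R2 A2 B2 D2 r2)) Q2 S' w
            l' f' (v' :: b :: r3) q2 hL hf ⟨hv, hr⟩ hQ2 h1
          refine ⟨(f', b, v') :: T, v, ⟨w, h2, h3⟩, h4, ?_⟩
          refine fill_new (insert (lsp b r3, lsp f' l') (EL f' l' ∪ ER b r3)) _ _ f' b v' T ?_ ?_ h5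
          · intro e
            simp only [Need, ER, lsp, Set.mem_insert_iff, Set.mem_union]
            tauto
          · intro e
            simp only [Need, ER, lsp, Set.mem_insert_iff, Set.mem_union]
            tauto
    · change o2 U (fr U tr k n) L R A B D r Q S' u = true at h
      cases r with
      | e => exact absurd h Bool.false_ne_true
      | c R2 A2 B2 D2 r2 =>
        obtain ⟨b, r3, rfl, hb, hr2⟩ := (AV_c_iff _ _ _ _ _ _ _).1 hr
        obtain ⟨T, v, h3, h4, h5⟩ := ih (Fr.c R A B D L) R2 A2 B2 D2 r2 Q S' u (f' :: l') b r3 q'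
          ⟨hf, hL⟩ hb hr2 hQ h
        rw [need_right] at h5
        exact ⟨T, v, h3, h4, h5⟩
    · change o3 U (fr U tr k n) L R A B D r Q S' u = true at h
      cases L with
      | e => exact absurd h Bool.false_ne_true
      | c R1 A1 B1 D1 L1 =>
        obtain ⟨p, l2, rfl, hp, hL1⟩ := (AV_c_iff _ _ _ _ _ _ _).1 hL
        obtain ⟨T, v, h3, h4, h5⟩ := ih L1 R1 A1 B1 D1 (Fr.c R A B D r) Q S' u l2 p (f' :: r') q'
          hL1 hp ⟨hf, hr⟩ hQ h
        rw [need_left] at h5
        exact ⟨T, v, h3, h4, h5⟩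

/-- soundness of the front machine: the triangles form a closed surface -/
theorem f0_sound {U : Type} {tr : RT U} {VL : ℕ → ℕ → ℕ → ℕ → (Fin 3 → ℝ) → Prop}
    {J : U → U → (Fin 3 → ℝ) × (Fin 3 → ℝ) × (Fin 3 → ℝ) → Prop}
    (hT : ∀ R1 A1 B1 D1 P1 R2 A2 B2 D2 P2 R3 A3 B3 D3 P3 u k,
      VL R1 A1 B1 D1 P1 → VL R2 A2 B2 D2 P2 → VL R3 A3 B3 D3 P3 →
      tr R1 A1 B1 D1 R2 A2 B2 D2 R3 A3 B3 D3 u k = true →
      ∃ v, k v = true ∧ J u v (P1, P2, P3))
    {k : U → Bool} {n S : ℕ} {Q : Fr} {l : List (Fin 3 → ℝ)} (hQ : AV VL Q l) {u : U}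
    (h : f0 U tr k n S Q u = true) :
    ∃ (T : List ((Fin 3 → ℝ) × (Fin 3 → ℝ) × (Fin 3 → ℝ))) (v : U),
      Ch J u T v ∧ k v = true ∧ T ≠ [] ∧ ∀ e ∈ ES T, e.swap ∈ ES T := by
  cases Q with
  | e => exact absurd h Bool.false_ne_true
  | c R1 A1 B1 D1 Q1 =>
    cases Q1 with
    | e => exact absurd h Bool.false_ne_true
    | c R2 A2 B2 D2 Q2 =>
      cases Q2 with
      | e => exact absurd h Bool.false_ne_true
      | c R3 A3 B3 D3 Q3 =>
        obtain ⟨P1, l1, rfl, h1, hQ1⟩ := (AV_c_iff _ _ _ _ _ _ _).1 hQ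
        obtain ⟨P2, l2, rfl, h2, hQ2⟩ := (AV_c_iff _ _ _ _ _ _ _).1 hQ1
        obtain ⟨P3, l3, rfl, h3, hQ3⟩ := (AV_c_iff _ _ _ _ _ _ _).1 hQ2
        obtain ⟨w, h4, h5⟩ := hT R1 A1 B1 D1 P1 R2 A2 B2 D2 P2 R3 A3 B3 D3 P3 u _ h1 h2 h3 h
        obtain ⟨T, v, h6, h7, h8⟩ := fr_sound hT n (Fr.c R3 A3 B3 D3 Fr.e) R2 A2 B2 D2
          (Fr.c R1 A1 B1 D1 Fr.e) Q3 S w [P3] P2 [P1] l3 ⟨h3, trivial⟩ h2 ⟨h1, trivial⟩ hQ3 h4
        exact ⟨(P1, P2, P3) :: T, v, ⟨w, h5, h6⟩, h7, by simp, fill_start P1 P2 P3 T h8⟩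

end Pool.Agent.Lib.MP_5e7226_co.C8.TM
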