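import Pool.Agent.Lib.MP_5e7226_co.C8.TMB
import Pool.Agent.Lib.MP_5e7226_co.C8.TMF

/-!
# Certificates with a triangulated surface: the hull

The facets of the hull are read as a closed surface with positive offsets.
-/

set_option autoImplicit false

open Set

namespace Pool.Agent.Lib.MP_5e7226_co.C8.TM

open GB C8.TF TP

/-- the cell of a vertex of the hull -/
def VH (S : Set ℕ) (R A B D : ℕ) (P : Fin 3 → ℝ) : Prop :=
  R ∈ S ∧ A = fA R ∧ B = fB R ∧ D = fD R ∧ P = rp R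

/-- a facet with its triangle -/
def Fc (S : Set ℕ) (f : FD) (t : E × E × E) : Prop :=
  ∃ p ∈ S, ∃ q ∈ S, ∃ r ∈ S, t = (rp p, rp q, rp r) ∧ f = mkFD 0 p q r ∧ 0 < f.c

/-- the relation of the states -/
def Jh (S : Set ℕ) (u v : Ac) (t : E × E × E) : Prop :=
  ∃ f, Fc S f t ∧ ∀ hs, Rs hs u → Rs (f :: hs) v

lemma ht_sound {S : Set ℕ} (R1 A1 B1 D1 : ℕ) (P1 : E) (R2 A2 B2 D2 : ℕ) (P2 : E)
    (R3 A3 B3 D3 : ℕ) (P3 : E) (u : Ac) (k : Ac → Bool)
    (v1 : VH S R1 A1 B1 D1 P1) (v2 : VH S R2 A2 B2 D2 P2) (v3 : VH S R3 A3 B3 D3 P3)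
    (hh : ht R1 A1 B1 D1 R2 A2 B2 D2 R3 A3 B3 D3 u k = true) :
    ∃ v, k v = true ∧ Jh S u v (P1, P2, P3) := by
  obtain ⟨s1, a1, b1, d1, p1⟩ := v1
  obtain ⟨s2, a2, b2, d2, p2⟩ := v2
  obtain ⟨s3, a3, b3, d3, p3⟩ := v3
  have hh' : fn (nat_lit 0) A1 B1 D1 A2 B3 u k = true := hh
  rw [a1, b1, d1, a2, b3] at hh'
  rw [p1, p2, p3]
  obtain ⟨h1, v, h2, h3⟩ := fn_sound hh'
  exact ⟨v, h2, _, ⟨R1, s1, R2, s2, R3, s3, rfl, rfl, h1⟩, h3⟩

/-- the facets of a chain -/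
lemma ch_fs {S : Set ℕ} : ∀ (T : List (E × E × E)) (u v : Ac), Ch (Jh S) u T v →
    ∃ fs : List FD, (∀ hs, Rs hs u → Rs (fs ++ hs) v) ∧ (∀ f ∈ fs, ∃ t ∈ T, Fc S f t) ∧
      ∀ t ∈ T, ∃ f ∈ fs, Fc S f t := by
  intro T
  induction T with
  | nil =>
    intro u v h
    have e : u = v := h
    subst e
    exact ⟨[], fun hs h => h, by simp, by simp⟩
  | cons t T ih =>
    intro u v h
    obtain ⟨w, ⟨f, h1, h2⟩, h3⟩ := h
    obtain ⟨fs, h4, h5, h6⟩ := ih w v h3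
    refine ⟨fs ++ [f], fun hs hr => ?_, fun g hg => ?_, fun s hs => ?_⟩
    · have := h4 _ (h2 hs hr)
      rw [List.append_assoc]
      exact this
    · rcases List.mem_append.1 hg with hg | hg
      · obtain ⟨s, hs, hc⟩ := h5 g hg
        exact ⟨s, List.mem_cons_of_mem _ hs, hc⟩
      · rw [List.mem_singleton] at hg
        subst hg
        exact ⟨t, by simp, h1⟩
    · rcases List.mem_cons.1 hs with rfl | hs
      · exact ⟨f, by simp, h1⟩
      · obtain ⟨g, hg, hc⟩ := h6 s hs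
        exact ⟨g, List.mem_append_left _ hg, hc⟩

/-- the data of a facet -/
lemma fc_data {S : Set ℕ} {f : FD} {t : E × E × E} (h : Fc S f t) :
    (0 : ℝ) < f.c ∧ dt3 t.1 t.2.1 t.2.2 = f.c ∧ nr f ⬝ᵥ t.1 = f.c ∧ nr f ⬝ᵥ t.2.1 = f.c ∧
      nr f ⬝ᵥ t.2.2 = f.c := by
  obtain ⟨p, _, q, _, r, _, rfl, rfl, hc⟩ := h
  have e := mkFD_c_eq 0 p q r hc
  have e0 : ((mkFD 0 p q r).c : ℤ) = dz (mkFD 0 p q r) (ix p) (iy p) (iz p) := by
    rw [e]
    push_cast
    ring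
  have e1 : ((mkFD 0 p q r).c : ℝ) = (dz (mkFD 0 p q r) (ix p) (iy p) (iz p) : ℝ) := by
    exact_mod_cast e0
  refine ⟨by exact_mod_cast hc, ?_, ?_, ?_, ?_⟩
  · rw [e1, mkFD_n]
    simp only [dt3, rp, rv]
    push_cast
    ring
  · rw [nr_rp, e1]
  · rw [nr_rp, mkFD_q, e1]
  · rw [nr_rp, mkFD_r, e1]

lemma cramer' (u v w x : E) :
    dt3 u v w • x = dt3 x v w • u + dt3 u x w • v + dt3 u v x • w := by
  funext i
  fin_cases i <;> simp [dt3] <;> ring

lemma open_list (fs : List FD) : IsOpen {z : E | ∀ f ∈ fs, nr f ⬝ᵥ z < f.c} := by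
  induction fs with
  | nil => simp
  | cons a l ih =>
    have e : {z : E | ∀ f ∈ a :: l, nr f ⬝ᵥ z < f.c} =
        {z : E | nr a ⬝ᵥ z < a.c} ∩ {z : E | ∀ f ∈ l, nr f ⬝ᵥ z < f.c} := by
      ext z
      simp
    have hc : Continuous (fun z : E => nr a ⬝ᵥ z) := by
      unfold dotProduct
      fun_prop
    rw [e]
    exact (isOpen_lt hc continuous_const).inter ih

lemma comb4 {H : Set E} (hH : Convex ℝ H) {O P Q R : E} (h0 : O ∈ H) (h1 : P ∈ H) (h2 : Q ∈ H)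
    (h3 : R ∈ H) {d a b c : ℝ} (hd : 0 ≤ d) (ha : 0 ≤ a) (hb : 0 ≤ b) (hc : 0 ≤ c)
    (hs : d + a + b + c = 1) : d • O + a • P + b • Q + c • R ∈ H := by
  have := hH.sum_mem (t := Finset.univ) (w := ![d, a, b, c]) (z := ![O, P, Q, R]) ?_ ?_ ?_
  · simpa [Fin.sum_univ_four] using this
  · intro i _
    fin_cases i <;> simp <;> assumption
  · simpa [Fin.sum_univ_four] using hs
  · intro i _
    fin_cases i <;> simp <;> assumption

/-- a closed surface of facets -/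
lemma hull_core {K : List ℕ} {fs : List FD} {T : List (E × E × E)} (hne : T ≠ [])
    (hcl : ∀ e ∈ ES T, e.swap ∈ ES T) (hf : ∀ f ∈ fs, ∃ t ∈ T, Fc {p | p ∈ K} f t)
    (ht : ∀ t ∈ T, ∃ f ∈ fs, Fc {p | p ∈ K} f t) :
    (∀ z : E, (∀ f ∈ fs, nr f ⬝ᵥ z ≤ f.c) → z ∈ convexHull ℝ (KS K)) ∧
      (∀ z : E, (∀ f ∈ fs, nr f ⬝ᵥ z < f.c) → z ∈ interior (convexHull ℝ (KS K))) ∧
      (0 : E) ∈ interior (convexHull ℝ (KS K)) := by
  obtain ⟨H, hH⟩ : ∃ H, H = convexHull ℝ (KS K) := ⟨_, rfl⟩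
  have hconv : Convex ℝ H := by rw [hH]; exact convex_convexHull ℝ _
  have hpt : ∀ {f : FD} {t : E × E × E}, Fc {p | p ∈ K} f t → t.1 ∈ H ∧ t.2.1 ∈ H ∧ t.2.2 ∈ H := by
    rintro f t ⟨p, hp, q, hq, r, hr, rfl, _, _⟩
    rw [hH]
    exact ⟨subset_convexHull ℝ _ ⟨p, hp, rfl⟩, subset_convexHull ℝ _ ⟨q, hq, rfl⟩,
      subset_convexHull ℝ _ ⟨r, hr, rfl⟩⟩
  have hpos : ∀ t ∈ T, 0 < dt3 t.1 t.2.1 t.2.2 := by
    intro t h
    obtain ⟨f, _, hc⟩ := ht t h
    obtain ⟨h1, h2, _⟩ := fc_data hc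
    rw [h2]
    exact h1
  have hcov := fun x => cover hne hpos hcl x
  rw [← hH]
  -- the origin
  have h0 : (0 : E) ∈ H := by
    obtain ⟨t0, ht0⟩ := List.exists_mem_of_ne_nil T hne
    obtain ⟨f0, _, hc0⟩ := ht t0 ht0
    obtain ⟨t, h1, h2, h3, h4⟩ := hcov (-t0.1)
    obtain ⟨f, _, hc⟩ := ht t h1
    obtain ⟨p1, p2, p3⟩ := hpt hc
    obtain ⟨q1, _, _⟩ := hpt hc0
    have hD := hpos t h1
    have hcr := cramer' t.1 t.2.1 t.2.2 (-t0.1)
    obtain ⟨D, eD⟩ : ∃ D, D = dt3 t.1 t.2.1 t.2.2 := ⟨_, rfl⟩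
    obtain ⟨a, ea⟩ : ∃ a, a = dt3 (-t0.1) t.2.1 t.2.2 := ⟨_, rfl⟩
    obtain ⟨b, eb⟩ : ∃ b, b = dt3 t.1 (-t0.1) t.2.2 := ⟨_, rfl⟩
    obtain ⟨c, ec⟩ : ∃ c, c = dt3 t.1 t.2.1 (-t0.1) := ⟨_, rfl⟩
    rw [← eD] at hD
    rw [← ea] at h2
    rw [← eb] at h3
    rw [← ec] at h4
    rw [← eD, ← ea, ← eb, ← ec] at hcr
    have hs : 0 < D + a + b + c := by linarith
    have := comb4 hconv q1 p1 p2 p3 (d := D / (D + a + b + c)) (a := a / (D + a + b + c))
      (b := b / (D + a + b + c)) (c := c / (D + a + b + c)) (by positivity) (by positivity)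
      (by positivity) (by positivity) (by field_simp)
    have e : (D / (D + a + b + c)) • t0.1 + (a / (D + a + b + c)) • t.1 +
        (b / (D + a + b + c)) • t.2.1 + (c / (D + a + b + c)) • t.2.2 =
        (1 / (D + a + b + c)) • (D • t0.1 + (a • t.1 + b • t.2.1 + c • t.2.2)) := by
      simp only [smul_add, smul_smul, div_eq_mul_inv, one_mul]
      rw [mul_comm D, mul_comm a, mul_comm b, mul_comm c]
      abel
    rw [e, ← hcr, smul_neg, add_neg_cancel, smul_zero] at this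
    exact this
  have hmem : ∀ z : E, (∀ f ∈ fs, nr f ⬝ᵥ z ≤ f.c) → z ∈ H := by
    intro z hz
    obtain ⟨t, h1, h2, h3, h4⟩ := hcov z
    obtain ⟨f, hf', hc⟩ := ht t h1
    obtain ⟨p1, p2, p3⟩ := hpt hc
    obtain ⟨c0, c1, c2, c3, c4⟩ := fc_data hc
    have hD := hpos t h1
    have hcr := cramer' t.1 t.2.1 t.2.2 z
    have hzf := hz f hf'
    obtain ⟨D, eD⟩ : ∃ D, D = dt3 t.1 t.2.1 t.2.2 := ⟨_, rfl⟩
    obtain ⟨a, ea⟩ : ∃ a, a = dt3 z t.2.1 t.2.2 := ⟨_, rfl⟩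
    obtain ⟨b, eb⟩ : ∃ b, b = dt3 t.1 z t.2.2 := ⟨_, rfl⟩
    obtain ⟨c, ec⟩ : ∃ c, c = dt3 t.1 t.2.1 z := ⟨_, rfl⟩
    rw [← eD] at hD c1
    rw [← ea] at h2
    rw [← eb] at h3
    rw [← ec] at h4
    rw [← eD, ← ea, ← eb, ← ec] at hcr
    have hn := congrArg (fun x => nr f ⬝ᵥ x) hcr
    simp only [dotProduct_add, dotProduct_smul, smul_eq_mul, c2, c3, c4] at hn
    rw [← c1] at hn hzf
    have hs : a + b + c ≤ D := by
      have h5 : nr f ⬝ᵥ z = a + b + c := by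
        have h6 : D * (nr f ⬝ᵥ z) = D * (a + b + c) := by linarith
        exact mul_left_cancel₀ hD.ne' h6
      rw [h5] at hzf
      exact hzf
    have := comb4 hconv h0 p1 p2 p3 (d := 1 - (a / D + b / D + c / D)) (a := a / D)
      (b := b / D) (c := c / D) (by
        rw [← add_div, ← add_div, sub_nonneg, div_le_one hD]
        exact hs) (by positivity) (by positivity) (by positivity) (by ring)
    have e : (1 - (a / D + b / D + c / D)) • (0 : E) + (a / D) • t.1 + (b / D) • t.2.1 +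
        (c / D) • t.2.2 = (1 / D) • (a • t.1 + b • t.2.1 + c • t.2.2) := by
      simp only [smul_add, smul_smul, div_eq_mul_inv, smul_zero, zero_add, one_mul]
      rw [mul_comm a, mul_comm b, mul_comm c]
    rw [e, ← hcr, smul_smul, one_div, inv_mul_cancel₀ hD.ne', one_smul] at this
    exact this
  have hint : ∀ z : E, (∀ f ∈ fs, nr f ⬝ᵥ z < f.c) → z ∈ interior H := by
    intro z hz
    have hsub : {z : E | ∀ f ∈ fs, nr f ⬝ᵥ z < f.c} ⊆ H := fun y hy =>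
      hmem y (fun f hf => (hy f hf).le)
    exact interior_maximal hsub (open_list fs) hz
  refine ⟨hmem, hint, hint 0 (fun f hf' => ?_)⟩
  obtain ⟨t, _, hc⟩ := hf f hf'
  rw [dotProduct_zero]
  exact (fc_data hc).1

/-- the surface of the hull -/
theorem hull_sound {K : List ℕ} {k : Ac → Bool} {n S : ℕ} {Q : Fr} {l : List (Fin 3 → ℝ)}
    (hQ : AV (VH {p | p ∈ K}) Q l) {u : Ac} (h : f0 Ac ht k n S Q u = true) :
    ∃ (fs : List FD) (v : Ac), k v = true ∧ fs ≠ [] ∧ (∀ hs, Rs hs u → Rs (fs ++ hs) v) ∧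
      (∀ f ∈ fs, 0 < f.c ∧ FB f) ∧
      (∀ z : E, (∀ f ∈ fs, nr f ⬝ᵥ z ≤ f.c) → z ∈ convexHull ℝ (KS K)) ∧
      (∀ z : E, (∀ f ∈ fs, nr f ⬝ᵥ z < f.c) → z ∈ interior (convexHull ℝ (KS K))) ∧
      (0 : E) ∈ interior (convexHull ℝ (KS K)) := by
  obtain ⟨T, v, hc, hv, hne, hcl⟩ := f0_sound (J := Jh {p | p ∈ K}) ht_sound hQ h
  obtain ⟨fs, h1, h2, h3⟩ := ch_fs T u v hc
  obtain ⟨h4, h5, h6⟩ := hull_core hne hcl h2 h3
  refine ⟨fs, v, hv, ?_, h1, fun f hf => ?_, h4, h5, h6⟩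
  · rintro rfl
    obtain ⟨t0, ht0⟩ := List.exists_mem_of_ne_nil T hne
    obtain ⟨f, hf, _⟩ := h3 t0 ht0
    simp at hf
  · obtain ⟨t, _, p, _, q, _, r, _, _, rfl, hc⟩ := h2 f hf
    exact ⟨hc, mkFD_bd (by norm_num)⟩

/-- an entry which is not zero -/
lemma pt_ne {K : List ℕ} {i : ℕ} (h : pt (tk K) i ≠ 0) : pt (tk K) i ∈ md K ∧ i < K.length := by
  have hi : i < K.length := by
    by_contra hi
    apply h
    have h1 := ent_tabm id 48 K i
    rw [dif_neg hi, ← tk_eq] at h1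
    have h2 : pt (tk K) i = ent (tk K) 48 (2 ^ 48 - 1) i := by
      unfold TF.pt ent
      rw [nmul, nmul, mul_comm 48 i]
      norm_num
    rw [h2, h1]
  exact ⟨pt_md K i hi, hi⟩

/-- the vertices of the hull -/
theorem hv_sound {K : List ℕ} : ∀ (n S : ℕ) (Q : Fr) (k : Fr → Bool),
    hv (tk K) n S Q k = true → ∃ Q', k Q' = true ∧
      ((∃ l, AV (VH {p | p ∈ md K}) Q l) → ∃ l, AV (VH {p | p ∈ md K}) Q' l) := by
  intro n
  induction n with
  | zero =>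
    intro S Q k h
    exact ⟨Q, h, id⟩
  | succ n ih =>
    intro S Q k h
    obtain ⟨p, hp⟩ : ∃ p, p = pt (tk K) (i7 S 0) := ⟨_, rfl⟩
    have h1 : @Nat.rec (fun _ => Bool) false (fun _ _ => hv (tk K) n (Nat.shiftRight S 7)
        (Fr.c p (fA p) (fB p) (fD p) Q) k) p = true := by
      rw [hp]
      exact h
    cases p with
    | zero => exact absurd h1 Bool.false_ne_true
    | succ p =>
      obtain ⟨Q', h2, h3⟩ := ih _ _ _ h1
      refine ⟨Q', h2, fun hq => h3 ?_⟩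
      obtain ⟨l, hl⟩ := hq
      have h4 := pt_ne (K := K) (i := i7 S 0) (by rw [← hp]; exact Nat.succ_ne_zero p)
      rw [← hp] at h4
      exact ⟨rp (p + 1) :: l, ⟨h4.1, rfl, rfl, rfl, rfl⟩, hl⟩

/-- the triples -/
theorem dl_sound {K : List ℕ} : ∀ (n S : ℕ) (u : Ac) (k : Ac → Bool),
    dl (tk K) n S u k = true → ∃ (ds : List FD) (v : Ac), k v = true ∧ ds.length = n ∧
      (∀ hs, Rs hs u → Rs (ds ++ hs) v) ∧ ∀ h ∈ ds, 0 < h.c ∧ FB h ∧
        ∃ p ∈ md K, ∃ q ∈ md K, ∃ r ∈ md K, h = mkFD 17179869184 p q r := by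
  intro n
  induction n with
  | zero =>
    intro S u k h
    exact ⟨[], u, h, rfl, fun hs h => h, by simp⟩
  | succ n ih =>
    intro S u k h
    obtain ⟨p, hp⟩ : ∃ p, p = pt (tk K) (i7 S 0) := ⟨_, rfl⟩
    obtain ⟨q, hq⟩ : ∃ q, q = pt (tk K) (i7 S 7) := ⟨_, rfl⟩
    obtain ⟨r, hr⟩ : ∃ r, r = pt (tk K) (i7 S 14) := ⟨_, rfl⟩
    obtain ⟨m, hm⟩ : ∃ m, m = Nat.mul (Nat.mul p q) r := ⟨_, rfl⟩
    have h1 : @Nat.rec (fun _ => Bool) false
        (fun _ _ => fn 17179869184 (fA p) (fB p) (fD p) (fA q) (fB r) u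
          (fun u => dl (tk K) n (Nat.shiftRight S 21) u k)) m = true := by
      rw [hm, hp, hq, hr]
      exact h
    cases m with
    | zero => exact absurd h1 Bool.false_ne_true
    | succ m =>
      have hne : p * q * r ≠ 0 := by
        have : p * q * r = m + 1 := hm.symm
        omega
      have hr0 : r ≠ 0 := fun h => hne (by rw [h, Nat.mul_zero])
      have hq0 : q ≠ 0 := fun h => hne (by rw [h, Nat.mul_zero, Nat.zero_mul])
      have hp0 : p ≠ 0 := fun h => hne (by rw [h, Nat.zero_mul, Nat.zero_mul])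
      have hp2 := fun h => (pt_ne (K := K) (i := i7 S 0) h).1
      have hq2 := fun h => (pt_ne (K := K) (i := i7 S 7) h).1
      have hr2 := fun h => (pt_ne (K := K) (i := i7 S 14) h).1
      rw [← hp] at hp2
      rw [← hq] at hq2
      rw [← hr] at hr2
      obtain ⟨hc, w, h2, h3⟩ := fn_sound h1
      obtain ⟨ds, v, h4, h5, h6, h7⟩ := ih _ _ _ h2
      refine ⟨ds ++ [mkFD 17179869184 p q r], v, h4, by rw [List.length_append, h5]; rfl,
        fun hs hh => ?_, fun f hf => ?_⟩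
      · rw [List.append_assoc]
        exact h6 _ (h3 _ hh)
      · rcases List.mem_append.1 hf with hf | hf
        · exact h7 f hf
        · rw [List.mem_singleton] at hf
          subst hf
          exact ⟨hc, mkFD_bd (by norm_num), p, hp2 hp0, q, hq2 hq0, r, hr2 hr0, rfl⟩

/-- the indices of the outer points -/
theorem ux_sound {F : List ℕ} : ∀ (n S : ℕ), ux (tk F) n S = true → ∀ j < n,
    Nat.land (Nat.shiftRight S (9 * j)) 511 < F.length := by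
  intro n
  induction n with
  | zero =>
    intro S _ j hj
    exact absurd hj (Nat.not_lt_zero j)
  | succ n ih =>
    intro S h j hj
    obtain ⟨p, hp⟩ : ∃ p, p = pt (tk F) (Nat.land S 511) := ⟨_, rfl⟩
    have h1 : @Nat.rec (fun _ => Bool) false (fun _ _ => ux (tk F) n (Nat.shiftRight S 9)) p =
        true := by
      rw [hp]
      exact h
    cases p with
    | zero => exact absurd h1 Bool.false_ne_true
    | succ p =>
      cases j with
      | zero =>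
        have := (pt_ne (K := F) (i := Nat.land S 511) (by rw [← hp]; exact Nat.succ_ne_zero p)).2
        simpa using this
      | succ j =>
        have := ih _ h1 j (by omega)
        rw [nshr, nshr, Nat.div_div_eq_div_mul, ← pow_add, show 9 + 9 * j = 9 * (j + 1) by ring]
          at this
        rw [nshr]
        exact this

end Pool.Agent.Lib.MP_5e7226_co.C8.TM
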