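import Pool.Agent.Lib.MP_5e7226_co.C8.TM

/-!
# Certificates with a triangulated surface: the corners
-/

set_option autoImplicit false

open Set

namespace Pool.Agent.Lib.MP_5e7226_co.C8.TM

open GB C8.TF TP

/-- the facets of a hull -/
structure Fa (K : List ℕ) (fs : List FD) : Prop where
  bd : ∀ h ∈ fs, FB h
  mem : ∀ z : E, (∀ h ∈ fs, nr h ⬝ᵥ z ≤ h.c) → z ∈ convexHull ℝ (KS K)
  int : ∀ z : E, (∀ h ∈ fs, nr h ⬝ᵥ z < h.c) → z ∈ interior (convexHull ℝ (KS K))
  zero : (0 : E) ∈ interior (convexHull ℝ (KS K))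

lemma rc_bd {R : ℕ} (hR' : R ≤ 524288) {f : FD} (hf : FB f) :
    (R : ℤ) * f.c ≤ 524288 * 2 ^ 56 ∧ 0 ≤ (R : ℤ) * f.c :=
  ⟨mul_le_mul (by exact_mod_cast hR') (by exact_mod_cast hf.c.le) (by positivity) (by norm_num),
    by positivity⟩

/-- one lit corner -/
lemma lit_c {K : List ℕ} {fs : List FD} (hF : Fa K fs) {R s X : ℕ} (hR : 0 < R)
    (hR' : R ≤ 524288) {x y z a b c : ℤ}
    (hX : Rp fs X (fun h => 2 ^ 95 + (2048 * dz h x y z - s * dz h a b c - R * h.c)))
    (hs : s < 2 ^ 19) (hx : |x| ≤ 2 ^ 20) (hy : |y| ≤ 2 ^ 20) (hz : |z| ≤ 2 ^ 20)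
    (ha : |a| ≤ 65536) (hb : |b| ≤ 65536) (hc : |c| ≤ 65536)
    (hm : ∀ g, g < fs.length → X.testBit (96 * g + 95) = false) :
    Lit (KS K) (rv a b c) ((2048 / (R : ℝ)) • rv x y z) := by
  have hbd : ∀ f ∈ fs, -2 ^ 95 ≤ (2048 * dz f x y z - s * dz f a b c - R * f.c : ℤ) ∧
      (2048 * dz f x y z - s * dz f a b c - R * f.c : ℤ) < 2 ^ 95 := by
    intro f hf
    have h1 := dz_bd (hF.bd f hf) hx hy hz
    have h2 := dz_bd (hF.bd f hf) ha hb hc
    have h3 : |(s : ℤ) * dz f a b c| ≤ 2 ^ 19 * (3 * 2 ^ 34 * 65536) := by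
      rw [abs_mul, Nat.abs_cast]
      exact mul_le_mul (by exact_mod_cast hs.le) h2 (abs_nonneg _) (by norm_num)
    obtain ⟨h5, h6⟩ := rc_bd hR' (hF.bd f hf)
    rw [abs_le] at h1 h3
    constructor
    · norm_num at h1 h3 h5 ⊢; linarith [h1.1, h3.2]
    · norm_num at h1 h3 h5 ⊢; linarith [h1.2, h3.1]
  have hsg := sign_clear hX hbd hm
  have hR0 : (0 : ℝ) < R := by exact_mod_cast hR
  refine ⟨(s : ℝ) / R, by positivity, hF.int _ ?_⟩
  intro f hf
  have h1 := hsg f hf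
  have h2 : ((2048 : ℝ) * dz f x y z - s * dz f a b c - R * f.c : ℝ) < 0 := by exact_mod_cast h1
  rw [dotProduct_sub, dot_smul_rv, dot_smul_rv]
  have h3 : 2048 / (R : ℝ) * (dz f x y z) - (s : ℝ) / R * (dz f a b c) - f.c =
      (2048 * dz f x y z - s * dz f a b c - R * f.c) / R := by
    field_simp
  have h4 : (2048 * dz f x y z - s * dz f a b c - R * f.c : ℝ) / R < 0 :=
    div_neg_of_neg_of_pos h2 hR0
  linarith

/-- one corner beyond a functional -/
lemma dt_c {hs : List FD} (hbd : ∀ h ∈ hs, FB h) {R X g : ℕ} (hg : g < hs.length)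
    (hR : 0 < R) (hR' : R ≤ 524288) {x y z : ℤ}
    (hX : Rp hs X (fun h => 2 ^ 95 + (2048 * dz h x y z - R * h.c)))
    (hx : |x| ≤ 2 ^ 20) (hy : |y| ≤ 2 ^ 20) (hz : |z| ≤ 2 ^ 20)
    (hm : X.testBit (96 * g + 95) = true) :
    ((hs[g]).c : ℝ) ≤ nr hs[g] ⬝ᵥ ((2048 / (R : ℝ)) • rv x y z) := by
  have hbd' : ∀ f ∈ hs, -2 ^ 95 ≤ (2048 * dz f x y z - R * f.c : ℤ) ∧
      (2048 * dz f x y z - R * f.c : ℤ) < 2 ^ 95 := by
    intro f hf
    have h1 := dz_bd (hbd f hf) hx hy hz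
    obtain ⟨h5, h6⟩ := rc_bd hR' (hbd f hf)
    rw [abs_le] at h1
    constructor
    · norm_num at h1 h5 ⊢; linarith [h1.1]
    · norm_num at h1 h5 ⊢; linarith [h1.2]
  have h := bit_of_rp hs _ _ hX hbd' g hg
  rw [hm] at h
  have h1 : (0 : ℤ) ≤ 2048 * dz hs[g] x y z - R * (hs[g]).c := by simpa using h.symm
  have h2 : (0 : ℝ) ≤ (2048 : ℝ) * dz hs[g] x y z - R * (hs[g]).c := by exact_mod_cast h1
  have hR0 : (0 : ℝ) < R := by exact_mod_cast hR
  rw [dot_smul_rv]
  have h3 : 2048 / (R : ℝ) * (dz hs[g] x y z) - (hs[g]).c =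
      ((2048 : ℝ) * dz hs[g] x y z - R * (hs[g]).c) / R := by
    field_simp
  have h4 : 0 ≤ ((2048 : ℝ) * dz hs[g] x y z - R * (hs[g]).c) / R := div_nonneg h2 hR0.le
  linarith

/-- one shadow corner; `D` is the denominator of the weights -/
lemma sh_c {K : List ℕ} {fs : List FD} (hF : Fa K fs) {R D X l : ℕ} (hR : 0 < R)
    (hR' : R ≤ 524288) (hD : D ≤ 262144) (hl : l < D) {x y z a b c : ℤ}
    (hX : Rp fs X (fun h => 2 ^ 95 + (D * R * (h.c - dz h a b c) +
      l * (2048 * dz h x y z - R * h.c))))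
    (hx : |x| ≤ 2 ^ 20) (hy : |y| ≤ 2 ^ 20) (hz : |z| ≤ 2 ^ 20)
    (ha : |a| ≤ 65536) (hb : |b| ≤ 65536) (hc : |c| ≤ 65536)
    (hm : ∀ g, g < fs.length → X.testBit (96 * g + 95) = true) :
    Shd (KS K) (rv a b c) ((2048 / (R : ℝ)) • rv x y z) := by
  have hl' : l ≤ 262144 := hl.le.trans hD
  have hbd : ∀ f ∈ fs, -2 ^ 95 ≤ (D * R * (f.c - dz f a b c) +
        l * (2048 * dz f x y z - R * f.c) : ℤ) ∧ (D * R * (f.c - dz f a b c) +
        l * (2048 * dz f x y z - R * f.c) : ℤ) < 2 ^ 95 := by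
    intro f hf
    have h1 := dz_bd (hF.bd f hf) hx hy hz
    have h2 := dz_bd (hF.bd f hf) ha hb hc
    have hlz : (l : ℤ) ≤ 262144 := by exact_mod_cast hl'
    have hDz : (D : ℤ) ≤ 262144 := by exact_mod_cast hD
    have hRz : (R : ℤ) ≤ 524288 := by exact_mod_cast hR'
    have hDR : (D : ℤ) * R ≤ 262144 * 524288 := mul_le_mul hDz hRz (by positivity) (by norm_num)
    have h3 : |(l : ℤ) * (2048 * dz f x y z)| ≤ 262144 * (2048 * (3 * 2 ^ 34 * 2 ^ 20)) := by
      rw [abs_mul, Nat.abs_cast, abs_mul]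
      refine mul_le_mul hlz ?_ (by positivity) (by norm_num)
      exact mul_le_mul (by norm_num) h1 (abs_nonneg _) (by norm_num)
    have h4 : |(D : ℤ) * R * dz f a b c| ≤ 262144 * 524288 * (3 * 2 ^ 34 * 65536) := by
      rw [abs_mul]
      refine mul_le_mul ?_ h2 (abs_nonneg _) (by norm_num)
      rw [abs_of_nonneg (by positivity)]
      exact hDR
    have hcb : (f.c : ℤ) ≤ 2 ^ 56 := by exact_mod_cast (hF.bd f hf).c.le
    have hc0 : (0 : ℤ) ≤ f.c := Nat.cast_nonneg _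
    have h5 : (D : ℤ) * R * f.c ≤ 262144 * 524288 * 2 ^ 56 :=
      mul_le_mul hDR hcb hc0 (by norm_num)
    have h5' : 0 ≤ (D : ℤ) * R * f.c := by positivity
    have h6 : (l : ℤ) * (R * f.c) ≤ 262144 * (524288 * 2 ^ 56) :=
      mul_le_mul hlz (mul_le_mul hRz hcb hc0 (by norm_num)) (by positivity) (by norm_num)
    have h6' : 0 ≤ (l : ℤ) * (R * f.c) := by positivity
    have e : (D * R * (f.c - dz f a b c) + l * (2048 * dz f x y z - R * f.c) : ℤ) =
        D * R * f.c - D * R * dz f a b c + l * (2048 * dz f x y z) - l * (R * f.c) := by ring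
    rw [e]
    rw [abs_le] at h3 h4
    constructor
    · norm_num at h3 h4 h5 h6 ⊢; linarith [h3.1, h4.2]
    · norm_num at h3 h4 h5 h6 ⊢; linarith [h3.2, h4.1]
  have hsg := sign_set hX hbd hm
  have hR0 : (0 : ℝ) < R := by exact_mod_cast hR
  have hD0 : (0 : ℝ) < D := by
    have : 0 < D := lt_of_le_of_lt (Nat.zero_le _) hl
    exact_mod_cast this
  set θ : ℝ := (l : ℝ) / D with hθ
  have hθ0 : 0 ≤ θ := by positivity
  have hθ1 : θ < 1 := by
    rw [hθ, div_lt_one hD0]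
    exact_mod_cast hl
  have h1θ : 0 < 1 - θ := by linarith
  set P : E := (2048 / (R : ℝ)) • rv x y z with hP
  have hz' : (1 / (1 - θ)) • (rv a b c - θ • P) ∈ convexHull ℝ (KS K) := by
    apply hF.mem
    intro f hf
    have h1 : (0 : ℤ) ≤ D * R * (f.c - dz f a b c) + l * (2048 * dz f x y z - R * f.c) := hsg f hf
    have h2 : (0 : ℝ) ≤ D * R * (f.c - dz f a b c) + l * (2048 * dz f x y z - R * f.c) := by
      have := h1
      exact_mod_cast this
    rw [dotProduct_smul, dotProduct_sub, dotProduct_smul, hP, dot_smul_rv, nr_dot, smul_eq_mul,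
      smul_eq_mul, one_div, inv_mul_le_iff₀ h1θ]
    have h3 : (dz f a b c : ℝ) - θ * (2048 / (R : ℝ) * dz f x y z) - (1 - θ) * f.c =
        -((D * R * (f.c - dz f a b c) + l * (2048 * dz f x y z - R * f.c)) / (D * R)) := by
      rw [hθ]
      field_simp
      ring
    have h4 : (0 : ℝ) ≤ (D * R * (f.c - dz f a b c) + l * (2048 * dz f x y z - R * f.c)) /
        (D * R) := div_nonneg h2 (by positivity)
    linarith
  have h5 : (1 / (1 - θ)) • (rv a b c - θ • P) ∈ convexHull ℝ (insert P (KS K)) :=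
    convexHull_mono (subset_insert _ _) hz'
  have h6 : P ∈ convexHull ℝ (insert P (KS K)) := subset_convexHull ℝ _ (mem_insert _ _)
  have h7 := convex_convexHull ℝ (insert P (KS K)) h5 h6 (a := 1 - θ) (b := θ) h1θ.le hθ0
    (by ring)
  have h8 : (1 - θ) • ((1 / (1 - θ)) • (rv a b c - θ • P)) + θ • P = rv a b c := by
    rw [smul_smul, mul_one_div_cancel h1θ.ne', one_smul]
    abel
  rw [h8] at h7
  exact h7

/-- the bits of the mask -/
lemma mask_of_bit : ∀ (ds : List FD) (i : ℕ),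
    (pk (fun _ => 39614081257132168796771975168) ds).testBit i = true →
    ∃ g, g < ds.length ∧ i = 96 * g + 95 := by
  intro ds
  induction ds with
  | nil => intro i h; simp [pk_nil] at h
  | cons a l ih =>
    intro i h
    rw [pk_cons] at h
    have e : (39614081257132168796771975168 : ℕ) = 2 ^ 95 := by norm_num
    rw [e, Nat.mul_comm, Nat.testBit_two_pow_mul_add _ (by norm_num)] at h
    split at h
    · rename_i hi
      rw [Nat.testBit_two_pow] at h
      have : 95 = i := by simpa using h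
      exact ⟨0, by simp, by omega⟩
    · rename_i hi
      obtain ⟨g, hg, he⟩ := ih _ h
      exact ⟨g + 1, by simpa using hg, by omega⟩

/-- no bits in a union -/
lemma lor_zero {a b m : ℕ} (h : Nat.land (Nat.lor a b) m = 0) :
    Nat.land a m = 0 ∧ Nat.land b m = 0 := by
  rw [nland, nlor] at h
  rw [nland, nland]
  have e : ∀ i, ((a.testBit i || b.testBit i) && m.testBit i) = false := by
    intro i
    have := congrArg (fun n => n.testBit i) h
    simpa only [Nat.testBit_and, Nat.testBit_or, Nat.zero_testBit] using this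
  constructor
  · apply Nat.eq_of_testBit_eq
    intro i
    have := e i
    rw [Nat.testBit_and, Nat.zero_testBit]
    revert this
    cases a.testBit i <;> cases b.testBit i <;> cases m.testBit i <;> simp
  · apply Nat.eq_of_testBit_eq
    intro i
    have := e i
    rw [Nat.testBit_and, Nat.zero_testBit]
    revert this
    cases a.testBit i <;> cases b.testBit i <;> cases m.testBit i <;> simp

end Pool.Agent.Lib.MP_5e7226_co.C8.TM
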