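import Pool.Agent.Lib.MP_5e7226_co.C8.TMS
import Pool.Agent.Lib.MP_5e7226_co.C8.TMF

/-!
# Certificates with a triangulated surface: the vertices
-/

set_option autoImplicit false

open Set

namespace Pool.Agent.Lib.MP_5e7226_co.C8.TM

open GB C8.TF TP

/-- the data for the vertices are correct -/
structure Sd (R P o M1 MK HF DM BI G0 G1 G2 G3 : ℕ) (WV FV : ℕ → ℕ) (DW FP : ℕ → ℕ)
    (n W : ℕ) (K : List ℕ) (fs ds : List FD) (L : Set E) : Prop where
  fa : Fa K fs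
  bd : ∀ h ∈ fs ++ ds, FB h
  conv : Convex ℝ L
  sub : KS K ⊆ L
  P1 : 0 < P
  P2 : P ≤ 128
  hR : R = 4096 * P
  ho : o = 8192 * P
  hM1 : M1 = pk (fun _ => 39614081257132168796771975168) fs
  hMK : MK = 2 ^ (96 * fs.length) - 1
  hHF : HF = 96 * fs.length
  hDM : DM = pk (fun _ => 39614081257132168796771975168) ds
  hBI : Rp (fs ++ ds) BI (fun _ => 2 ^ 95)
  hG0 : Rp (fs ++ ds) G0 (fun h => -(2048 * (o * dz h 1 1 1)) - R * h.c)
  hG1 : Rp (fs ++ ds) G1 (fun h => 2048 * dz h 1 0 0)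
  hG2 : Rp (fs ++ ds) G2 (fun h => 2048 * dz h 0 1 0)
  hG3 : Rp (fs ++ ds) G3 (fun h => 2048 * dz h 0 0 1)
  hW : ∀ a, Rp fs (WV a) (fun h => -dz h (wv (Wl n W) (DW a)).1 (wv (Wl n W) (DW a)).2.1
    (wv (Wl n W) (DW a)).2.2)
  hF : ∀ j, rp (FP j) ∉ L ∧ Rp fs (FV j) (fun h => 2 ^ 95 +
    ((1024 * P : ℕ) : ℤ) * R * (h.c - dz h (ix (FP j)) (iy (FP j)) (iz (FP j))))
  dead : ∀ h ∈ ds, Dead L {z | (h.c : ℝ) ≤ nr h ⬝ᵥ z}

/-- the dead sets of the labels -/
def Qd (K : List ℕ) (ds : List FD) (FP : ℕ → ℕ) (i : ℕ) : Set E :=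
  if i < 40 then {z | Shd (KS K) (rp (FP (i - 8))) z}
  else {z | ∃ (g : ℕ) (hg : g < ds.length), i = 96 * g + 95 ∧ ((ds[g]).c : ℝ) ≤ nr ds[g] ⬝ᵥ z}

/-- the labels are correct -/
def Lab (K : List ℕ) (ds : List FD) (DW FP : ℕ → ℕ) (n W A : ℕ) (z : E) : Prop :=
  (∀ a < 8, A.testBit a = true → Lit (KS K) (rvt (wv (Wl n W) (DW a))) z) ∧
  ∀ i, 8 ≤ i → A.testBit i = true → z ∈ Qd K ds FP i

/-- the forms of a vertex -/
def Fm (a b d : ℕ) (x y z : ℤ) : Prop :=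
  (a : ℤ) ≡ x + y * 2 ^ 64 + z * (2 ^ 64) ^ 2 [ZMOD 2 ^ 576] ∧
  (b : ℤ) ≡ x + y * (2 ^ 64) ^ 3 + z * (2 ^ 64) ^ 6 [ZMOD 2 ^ 576] ∧
  (d : ℤ) ≡ x * (2 ^ 64 - (2 ^ 64) ^ 3) + y * ((2 ^ 64) ^ 6 - (2 ^ 64) ^ 2) +
    z * ((2 ^ 64) ^ 5 - (2 ^ 64) ^ 7) [ZMOD 2 ^ 576]

/-- the numbers of a vertex are correct -/
def VL (K : List ℕ) (ds : List FD) (DW FP : ℕ → ℕ) (n W R A a b d : ℕ) (p : E) : Prop :=
  ∃ x y z : ℤ, p = rv x y z ∧ |x| ≤ 2 ^ 20 ∧ |y| ≤ 2 ^ 20 ∧ |z| ≤ 2 ^ 20 ∧ Fm a b d x y z ∧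
    Lab K ds DW FP n W A ((2048 / (R : ℝ)) • rv x y z)

/-- the reader of vertices is correct -/
def Vs (M1 : ℕ) (P : ℕ → ℕ → ℕ → ℕ → E → Prop) (ih : VT) : Prop :=
  ∀ (U V : ℕ) (Q : Fr) (k : ℕ → Fr → Bool), ih U V Q k = true →
    ∃ U' Q', k U' Q' = true ∧ (Nat.land U' M1 = 0 → Nat.land U M1 = 0 ∧
      ((∃ l, AV P Q l) → ∃ l, AV P Q' l))

lemma tb_shl {a b i : ℕ} (h : (Nat.shiftLeft (2 ^ a) b).testBit i = true) : i = a + b := by
  rw [nshl, ← pow_add, Nat.testBit_two_pow] at h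
  simpa using (of_decide_eq_true h).symm

lemma land_mask_lt (x m : ℕ) (hm : 0 < m) : Nat.land x (Nat.sub m 1) < m := by
  have := land_le x (Nat.sub m 1)
  rw [nsub] at *
  omega

section

variable {R P o M1 MK HF DM BI G0 G1 G2 G3 : ℕ} {WV FV DW FP : ℕ → ℕ} {n W : ℕ} {K : List ℕ}
    {fs ds : List FD} {L : Set E}

lemma Sd.R1 (h : Sd R P o M1 MK HF DM BI G0 G1 G2 G3 WV FV DW FP n W K fs ds L) : 0 < R := by
  have := h.hR
  have := h.P1
  omega

lemma Sd.R2 (h : Sd R P o M1 MK HF DM BI G0 G1 G2 G3 WV FV DW FP n W K fs ds L) :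
    R ≤ 524288 := by
  have := h.hR
  have := h.P2
  omega

/-- a new dead label -/
lemma lab_n (h : Sd R P o M1 MK HF DM BI G0 G1 G2 G3 WV FV DW FP n W K fs ds L) {A Z j l : ℕ}
    {x y z : ℤ} (hZ : Rp fs Z (fun h => 2048 * dz h x y z - R * h.c))
    (hx : |x| ≤ 2 ^ 20) (hy : |y| ≤ 2 ^ 20) (hz : |z| ≤ 2 ^ 20) (hj : j < 32)
    (hl : l < 1024 * P)
    (hu : Nat.land (Nat.xor (Nat.land (Nat.add (FV j) (Nat.mul l Z)) M1) M1) M1 = 0)
    (hA : Lab K ds DW FP n W A ((2048 / (R : ℝ)) • rv x y z)) :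
    Lab K ds DW FP n W (Nat.lor A (Nat.shiftLeft 256 j)) ((2048 / (R : ℝ)) • rv x y z) := by
  obtain ⟨h1, h2⟩ := hA
  have hb : ∀ i, (Nat.lor A (Nat.shiftLeft 256 j)).testBit i = true →
      A.testBit i = true ∨ i = 8 + j := by
    intro i hi
    rw [nlor, Nat.testBit_or, Bool.or_eq_true] at hi
    rcases hi with hi | hi
    · exact Or.inl hi
    · exact Or.inr (tb_shl (a := 8) hi)
  refine ⟨fun a ha hi => ?_, fun i hi hi' => ?_⟩
  · rcases hb a hi with hi | hi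
    · exact h1 a ha hi
    · omega
  · rcases hb i hi' with hi' | hi'
    · exact h2 i hi hi'
    · subst hi'
      unfold Qd
      rw [if_pos (by omega)]
      have e : 8 + j - 8 = j := by omega
      rw [e]
      have hX := (h.hF j).2.add (hZ.mul l)
      refine sh_c h.fa h.R1 h.R2 (D := 1024 * P) (l := l) (X := FV j + l * Z)
        (by have := h.P2; omega) hl (hX.congr fun f _ => by push_cast; ring) hx hy hz
        ((ix_bd _).trans (by norm_num)) ((iy_bd _).trans (by norm_num))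
        ((iz_bd _).trans (by norm_num)) ?_
      intro g hg
      have hm : M1.testBit (96 * g + 95) = true := by rw [h.hM1]; exact mask_bit fs g hg
      have hb := congrArg (fun m => m.testBit (96 * g + 95)) hu
      simp only [nxor, Nat.zero_testBit] at hb
      rw [nland, Nat.testBit_and, Nat.testBit_xor, nland _ M1, Nat.testBit_and, hm] at hb
      simpa using hb

/-- a new lit label -/
lemma lab_l (h : Sd R P o M1 MK HF DM BI G0 G1 G2 G3 WV FV DW FP n W K fs ds L) {A X a s : ℕ}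
    {x y z : ℤ} (hX : Rp fs X (fun h => 2 ^ 95 + (2048 * dz h x y z - R * h.c)))
    (hx : |x| ≤ 2 ^ 20) (hy : |y| ≤ 2 ^ 20) (hz : |z| ≤ 2 ^ 20) (ha : a < 8)
    (hs : s < 2 ^ 19)
    (hu : Nat.land (Nat.add X (Nat.mul s (WV a))) M1 = 0)
    (hA : Lab K ds DW FP n W A ((2048 / (R : ℝ)) • rv x y z)) :
    Lab K ds DW FP n W (Nat.lor A (Nat.shiftLeft 1 a)) ((2048 / (R : ℝ)) • rv x y z) := by
  obtain ⟨h1, h2⟩ := hA
  have hb : ∀ i, (Nat.lor A (Nat.shiftLeft 1 a)).testBit i = true →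
      A.testBit i = true ∨ i = a := by
    intro i hi
    rw [nlor, Nat.testBit_or, Bool.or_eq_true] at hi
    rcases hi with hi | hi
    · exact Or.inl hi
    · right
      have := tb_shl (a := 0) hi
      omega
  refine ⟨fun a' ha' hi => ?_, fun i hi hi' => ?_⟩
  · rcases hb a' hi with hi | hi
    · exact h1 a' ha' hi
    · subst hi
      obtain ⟨w1, w2, w3⟩ := wv_bd (Wl n W) (DW a')
      refine lit_c h.fa h.R1 h.R2 (s := s) (X := X + s * WV a')
        ((hX.add ((h.hW a').mul s)).congr fun f _ => by ring) hs hx hy hz w1 w2 w3 ?_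
      rw [nland, h.hM1] at hu
      exact clear_of_mask hu
  · rcases hb i hi' with hi' | hi'
    · exact h2 i hi hi'
    · omega

/-- the dead labels -/
lemma ni_sound (h : Sd R P o M1 MK HF DM BI G0 G1 G2 G3 WV FV DW FP n W K fs ds L)
    {x y z : ℤ} {X Z Y w5 : ℕ} (hZ : Rp fs Z (fun h => 2048 * dz h x y z - R * h.c))
    (hx : |x| ≤ 2 ^ 20) (hy : |y| ≤ 2 ^ 20) (hz : |z| ≤ 2 ^ 20)
    (hY : Fm (Nat.land Y 4562440617622195218641171605700291324893228507248559930579192517899275167208677386505912811317371399778642309573594407310688704721375437998252661319722214188251994674360264950082874192246603775) (Nat.land (Nat.shiftRight Y 640) 4562440617622195218641171605700291324893228507248559930579192517899275167208677386505912811317371399778642309573594407310688704721375437998252661319722214188251994674360264950082874192246603775)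
      (Nat.shiftRight Y 1280) x y z) :
    ∀ (N A U V : ℕ) (Q : Fr) (ih : VT) (k : ℕ → Fr → Bool),
      Vs M1 (VL K ds DW FP n W R) ih →
      ni FV M1 (Nat.sub (Nat.mul 1024 P) 1) w5 N X Z Y A U V Q ih k = true →
      ∃ U' Q', k U' Q' = true ∧ (Nat.land U' M1 = 0 → Nat.land U M1 = 0 ∧
        (Lab K ds DW FP n W A ((2048 / (R : ℝ)) • rv x y z) →
          (∃ l, AV (VL K ds DW FP n W R) Q l) → ∃ l, AV (VL K ds DW FP n W R) Q' l)) := by
  intro N
  induction N with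
  | zero =>
    intro A U V Q ih k hi hh
    obtain ⟨U', Q', h1, h2⟩ := hi _ _ _ _ hh
    refine ⟨U', Q', h1, fun h3 => ?_⟩
    obtain ⟨h4, h5⟩ := h2 h3
    refine ⟨h4, fun hA hQ => h5 ?_⟩
    obtain ⟨l, hl⟩ := hQ
    exact ⟨rv x y z :: l, ⟨x, y, z, rfl, hx, hy, hz, hY, hA⟩, hl⟩
  | succ N ihN =>
    intro A U V Q ih k hi hh
    obtain ⟨U', Q', h1, h2⟩ := ihN _ _ _ _ _ _ hi hh
    refine ⟨U', Q', h1, fun h3 => ?_⟩
    obtain ⟨h4, h5⟩ := h2 h3
    obtain ⟨h6, h7⟩ := lor_zero h4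
    refine ⟨h6, fun hA hQ => h5 ?_ hQ⟩
    refine lab_n h hZ hx hy hz ?_ ?_ h7 hA
    · exact lt_of_le_of_lt (land_le _ _) (by norm_num)
    · exact land_mask_lt _ _ (by have := h.P1; rw [nmul]; omega)

/-- the lit labels -/
lemma li_sound (h : Sd R P o M1 MK HF DM BI G0 G1 G2 G3 WV FV DW FP n W K fs ds L)
    {x y z : ℤ} {X Z Y w3 w5 : ℕ} (hX : Rp fs X (fun h => 2 ^ 95 + (2048 * dz h x y z - R * h.c)))
    (hZ : Rp fs Z (fun h => 2048 * dz h x y z - R * h.c))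
    (hx : |x| ≤ 2 ^ 20) (hy : |y| ≤ 2 ^ 20) (hz : |z| ≤ 2 ^ 20)
    (hY : Fm (Nat.land Y 4562440617622195218641171605700291324893228507248559930579192517899275167208677386505912811317371399778642309573594407310688704721375437998252661319722214188251994674360264950082874192246603775) (Nat.land (Nat.shiftRight Y 640) 4562440617622195218641171605700291324893228507248559930579192517899275167208677386505912811317371399778642309573594407310688704721375437998252661319722214188251994674360264950082874192246603775)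
      (Nat.shiftRight Y 1280) x y z) :
    ∀ (N A U V : ℕ) (Q : Fr) (ih : VT) (k : ℕ → Fr → Bool),
      Vs M1 (VL K ds DW FP n W R) ih →
      li (ni FV M1 (Nat.sub (Nat.mul 1024 P) 1) w5) WV (Nat.sub (Nat.mul 4096 P) 1) w3 N
        X Z Y A U V Q ih k = true →
      ∃ U' Q', k U' Q' = true ∧ (Nat.land U' M1 = 0 → Nat.land U M1 = 0 ∧
        (Lab K ds DW FP n W A ((2048 / (R : ℝ)) • rv x y z) →
          (∃ l, AV (VL K ds DW FP n W R) Q l) → ∃ l, AV (VL K ds DW FP n W R) Q' l)) := by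
  intro N
  induction N with
  | zero =>
    intro A U V Q ih k hi hh
    exact ni_sound h hZ hx hy hz hY _ _ _ _ _ _ _ hi hh
  | succ N ihN =>
    intro A U V Q ih k hi hh
    obtain ⟨U', Q', h1, h2⟩ := ihN _ _ _ _ _ _ hi hh
    refine ⟨U', Q', h1, fun h3 => ?_⟩
    obtain ⟨h4, h5⟩ := h2 h3
    obtain ⟨h6, h7⟩ := lor_zero h4
    refine ⟨h6, fun hA hQ => h5 ?_ hQ⟩
    refine lab_l h hX hx hy hz ?_ ?_ h7 hA
    · exact lt_of_le_of_lt (land_le _ _) (by norm_num)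
    · refine lt_of_lt_of_le (land_mask_lt _ _ (by have := h.P1; rw [nmul]; omega)) ?_
      have := h.P2
      rw [nmul]
      omega

end

end Pool.Agent.Lib.MP_5e7226_co.C8.TM
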