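import Pool.Agent.Lib.MP_5e7226_co.C8.TMS2

/-!
# Certificates with a triangulated surface: the surface
-/

set_option autoImplicit false

open Set

namespace Pool.Agent.Lib.MP_5e7226_co.C8.TM

open GB C8.TF TP

/-- the forms of the vertices are correct -/
def Lan (o F0 : ℕ) : Prop := ∀ x y z : ℕ, x < 2 ^ 21 → y < 2 ^ 21 → z < 2 ^ 21 →
  Fm (Nat.land (cb F0 5148396096422391593693210985222689424575005282213296071655104164476572739631099228161281473378140200867014462091313623896471647770169205880543939042148696815209998759548209600514344487499673960289996350615186526947049573136915791280795360098101364005756748117893319615217446321397464085278907326797546027183637928885300216316649720914764708707449009493819953272390506624046949177083590099150297907997837536438233600846912049605431713435082926603157893751207164978964306795707521391103163764149247422696512731453327789280313596247298850157395987457858634514433 820186817651640487320479808367534510238779540102526006236474836166734016865198916599229854163595010108025318803836632852754125866544858043735096856439846006454978819598259642397085528696701555051856161739182647743468597210005966331382729356402325458150733960459981729036345322414555007628320445039838977906965768055963000486016154784451344531074019670008413478294798457380255788072360537234482565722954324227241174588951987799234916129852384378862113423942597907121465468838877256506330981731267510272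 5148396096422391593693210985222689424559875505895445975835011653087223472640850971847942935436341680327200515892108411609132047835397240711177878418048171027201063756236028647658420595634788935851417141860331706828497501488611626096979764216414760364613191715595435562615258056288069018893568176829707091226798639370854331474173195405993561317487119046614061242892273782562645046090020037377663408515543935277064621009614679375749011635899914139032468415271071888014891040838580767580573198805233096445544864581683568157641574597210216157268178745242343702528 x y z) 4562440617622195218641171605700291324893228507248559930579192517899275167208677386505912811317371399778642309573594407310688704721375437998252661319722214188251994674360264950082874192246603775)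
    (Nat.land (Nat.shiftRight (cb F0 5148396096422391593693210985222689424575005282213296071655104164476572739631099228161281473378140200867014462091313623896471647770169205880543939042148696815209998759548209600514344487499673960289996350615186526947049573136915791280795360098101364005756748117893319615217446321397464085278907326797546027183637928885300216316649720914764708707449009493819953272390506624046949177083590099150297907997837536438233600846912049605431713435082926603157893751207164978964306795707521391103163764149247422696512731453327789280313596247298850157395987457858634514433 820186817651640487320479808367534510238779540102526006236474836166734016865198916599229854163595010108025318803836632852754125866544858043735096856439846006454978819598259642397085528696701555051856161739182647743468597210005966331382729356402325458150733960459981729036345322414555007628320445039838977906965768055963000486016154784451344531074019670008413478294798457380255788072360537234482565722954324227241174588951987799234916129852384378862113423942597907121465468838877256506330981731267510272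 5148396096422391593693210985222689424559875505895445975835011653087223472640850971847942935436341680327200515892108411609132047835397240711177878418048171027201063756236028647658420595634788935851417141860331706828497501488611626096979764216414760364613191715595435562615258056288069018893568176829707091226798639370854331474173195405993561317487119046614061242892273782562645046090020037377663408515543935277064621009614679375749011635899914139032468415271071888014891040838580767580573198805233096445544864581683568157641574597210216157268178745242343702528 x y z) 640) 4562440617622195218641171605700291324893228507248559930579192517899275167208677386505912811317371399778642309573594407310688704721375437998252661319722214188251994674360264950082874192246603775)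
    (Nat.shiftRight (cb F0 5148396096422391593693210985222689424575005282213296071655104164476572739631099228161281473378140200867014462091313623896471647770169205880543939042148696815209998759548209600514344487499673960289996350615186526947049573136915791280795360098101364005756748117893319615217446321397464085278907326797546027183637928885300216316649720914764708707449009493819953272390506624046949177083590099150297907997837536438233600846912049605431713435082926603157893751207164978964306795707521391103163764149247422696512731453327789280313596247298850157395987457858634514433 820186817651640487320479808367534510238779540102526006236474836166734016865198916599229854163595010108025318803836632852754125866544858043735096856439846006454978819598259642397085528696701555051856161739182647743468597210005966331382729356402325458150733960459981729036345322414555007628320445039838977906965768055963000486016154784451344531074019670008413478294798457380255788072360537234482565722954324227241174588951987799234916129852384378862113423942597907121465468838877256506330981731267510272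 5148396096422391593693210985222689424559875505895445975835011653087223472640850971847942935436341680327200515892108411609132047835397240711177878418048171027201063756236028647658420595634788935851417141860331706828497501488611626096979764216414760364613191715595435562615258056288069018893568176829707091226798639370854331474173195405993561317487119046614061242892273782562645046090020037377663408515543935277064621009614679375749011635899914139032468415271071888014891040838580767580573198805233096445544864581683568157641574597210216157268178745242343702528 x y z) 1280) ((x : ℤ) - o) ((y : ℤ) - o) ((z : ℤ) - o)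

section

variable {R P o M1 MK HF DM BI G0 G1 G2 G3 : ℕ} {WV FV DW FP : ℕ → ℕ} {n W : ℕ} {K : List ℕ}
    {fs ds : List FD} {L : Set E}

/-- the first labels -/
lemma lab_0 (h : Sd R P o M1 MK HF DM BI G0 G1 G2 G3 WV FV DW FP n W K fs ds L) {X : ℕ}
    {x y z : ℤ} (hX : Rp (fs ++ ds) X (fun h => 2 ^ 95 + (2048 * dz h x y z - R * h.c)))
    (hx : |x| ≤ 2 ^ 20) (hy : |y| ≤ 2 ^ 20) (hz : |z| ≤ 2 ^ 20) :
    Lab K ds DW FP n W (Nat.land (Nat.shiftRight X HF) DM) ((2048 / (R : ℝ)) • rv x y z) := by
  have hb : ∀ i, (Nat.land (Nat.shiftRight X HF) DM).testBit i = true →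
      ∃ (g : ℕ) (hg : g < ds.length), i = 96 * g + 95 ∧
        ((ds[g]).c : ℝ) ≤ nr ds[g] ⬝ᵥ ((2048 / (R : ℝ)) • rv x y z) := by
    intro i hi
    rw [nland, Nat.testBit_and, Bool.and_eq_true, h.hDM] at hi
    obtain ⟨g, hg, rfl⟩ := mask_of_bit ds i hi.2
    have h1 := hi.1
    rw [nshr, Nat.testBit_div_two_pow, h.hHF] at h1
    have e : 96 * g + 95 + 96 * fs.length = 96 * (fs.length + g) + 95 := by ring
    rw [e] at h1
    have hg' : fs.length + g < (fs ++ ds).length := by
      rw [List.length_append]
      omega
    have h2 := dt_c h.bd hg' h.R1 h.R2 hX hx hy hz h1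
    have e2 : (fs ++ ds)[fs.length + g] = ds[g] := by
      rw [List.getElem_append_right (by omega)]
      congr 1
      omega
    rw [e2] at h2
    exact ⟨g, hg, rfl, h2⟩
  refine ⟨fun a ha hi => ?_, fun i hi hi' => ?_⟩
  · obtain ⟨g, _, he, _⟩ := hb a hi
    omega
  · obtain ⟨g, hg, he, h2⟩ := hb i hi'
    unfold Qd
    rw [if_neg (by omega)]
    exact ⟨g, hg, he, h2⟩

/-- a vertex -/
lemma v1_sound (h : Sd R P o M1 MK HF DM BI G0 G1 G2 G3 WV FV DW FP n W K fs ds L) {F0 : ℕ}
    (hL : Lan o F0) {x y z w3 w5 N U V : ℕ} (hx : x < 16384 * P) (hy : y < 16384 * P)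
    (hz : z < 16384 * P) {Q : Fr} {ih : VT} {k : ℕ → Fr → Bool}
    (hi : Vs M1 (VL K ds DW FP n W R) ih)
    (hh : v1 (li (ni FV M1 (Nat.sub (Nat.mul 1024 P) 1) w5) WV (Nat.sub (Nat.mul 4096 P) 1) w3)
      MK HF DM BI G0 G1 G2 G3 F0 x y z N U V Q ih k = true) :
    ∃ U' Q', k U' Q' = true ∧ (Nat.land U' M1 = 0 → Nat.land U M1 = 0 ∧
      ((∃ l, AV (VL K ds DW FP n W R) Q l) → ∃ l, AV (VL K ds DW FP n W R) Q' l)) := by
  have hP2 := h.P2
  have hoo := h.ho
  obtain ⟨Y, hY⟩ : ∃ Y, Y = cb G0 G1 G2 G3 x y z := ⟨_, rfl⟩
  obtain ⟨F, hF⟩ : ∃ F, F = cb F0 5148396096422391593693210985222689424575005282213296071655104164476572739631099228161281473378140200867014462091313623896471647770169205880543939042148696815209998759548209600514344487499673960289996350615186526947049573136915791280795360098101364005756748117893319615217446321397464085278907326797546027183637928885300216316649720914764708707449009493819953272390506624046949177083590099150297907997837536438233600846912049605431713435082926603157893751207164978964306795707521391103163764149247422696512731453327789280313596247298850157395987457858634514433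 820186817651640487320479808367534510238779540102526006236474836166734016865198916599229854163595010108025318803836632852754125866544858043735096856439846006454978819598259642397085528696701555051856161739182647743468597210005966331382729356402325458150733960459981729036345322414555007628320445039838977906965768055963000486016154784451344531074019670008413478294798457380255788072360537234482565722954324227241174588951987799234916129852384378862113423942597907121465468838877256506330981731267510272 5148396096422391593693210985222689424559875505895445975835011653087223472640850971847942935436341680327200515892108411609132047835397240711177878418048171027201063756236028647658420595634788935851417141860331706828497501488611626096979764216414760364613191715595435562615258056288069018893568176829707091226798639370854331474173195405993561317487119046614061242892273782562645046090020037377663408515543935277064621009614679375749011635899914139032468415271071888014891040838580767580573198805233096445544864581683568157641574597210216157268178745242343702528 x y z := ⟨_, rfl⟩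
  have hh' : li (ni FV M1 (Nat.sub (Nat.mul 1024 P) 1) w5) WV (Nat.sub (Nat.mul 4096 P) 1) w3 N
      (Nat.land (Nat.add BI Y) MK) (Nat.land Y MK) F
      (Nat.land (Nat.shiftRight (Nat.add BI Y) HF) DM) U V Q ih k = true := by
    rw [hY, hF]
    exact hh
  clear hh
  have bd : ∀ x : ℕ, x < 16384 * P → |(x : ℤ) - o| ≤ 2 ^ 20 := by
    intro x hx
    have h1 : (x : ℤ) < 16384 * P := by exact_mod_cast hx
    have h2 : (P : ℤ) ≤ 128 := by exact_mod_cast hP2
    have h3 : (o : ℤ) = 8192 * P := by exact_mod_cast hoo
    rw [abs_le]
    constructor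
    · have : (0 : ℤ) ≤ x := Nat.cast_nonneg _
      norm_num
      linarith
    · norm_num
      linarith
  have hYr : Rp (fs ++ ds) Y (fun h => 2048 * dz h ((x : ℤ) - o) ((y : ℤ) - o) ((z : ℤ) - o) -
      R * h.c) := by
    have h1 := ((h.hG0.add (h.hG1.mul x)).add (h.hG2.mul y)).add (h.hG3.mul z)
    rw [hY]
    refine Rp.congr h1 (fun f _ => ?_)
    simp only [dz]
    ring
  have hX : Rp (fs ++ ds) (Nat.add BI Y) (fun h => 2 ^ 95 + (2048 * dz h ((x : ℤ) - o)
      ((y : ℤ) - o) ((z : ℤ) - o) - R * h.c)) := h.hBI.add hYr
  have hFm := hL x y z (by omega) (by omega) (by omega)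
  rw [← hF] at hFm
  obtain ⟨U', Q', h1, h2⟩ := li_sound h (rp_mask h.hMK hX) (rp_mask h.hMK hYr) (bd x hx) (bd y hy)
    (bd z hz) hFm N _ U V Q ih k hi hh'
  refine ⟨U', Q', h1, fun h3 => ?_⟩
  obtain ⟨h4, h5⟩ := h2 h3
  exact ⟨h4, h5 (lab_0 h hX (bd x hx) (bd y hy) (bd z hz))⟩

/-- the vertices -/
lemma vs_sound (h : Sd R P o M1 MK HF DM BI G0 G1 G2 G3 WV FV DW FP n W K fs ds L) {F0 : ℕ}
    (hL : Lan o F0) {w3' w5 w w2 w3 w6 : ℕ} (N : ℕ) :
    Vs M1 (VL K ds DW FP n W R) (vs (li (ni FV M1 (Nat.sub (Nat.mul 1024 P) 1) w5) WV
      (Nat.sub (Nat.mul 4096 P) 1) w3') w w2 w3 w6 (Nat.sub (Nat.mul 16384 P) 1)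
      MK HF DM BI G0 G1 G2 G3 F0 N) := by
  have hP := h.P1
  have hm : ∀ V, Nat.land V (Nat.sub (Nat.mul 16384 P) 1) < 16384 * P := fun V =>
    land_mask_lt V (Nat.mul 16384 P) (by rw [nmul]; omega)
  induction N with
  | zero =>
    intro U V Q k hh
    exact ⟨U, Q, hh, fun h3 => ⟨h3, id⟩⟩
  | succ N ih =>
    intro U V Q k hh
    exact v1_sound h hL (hm _) (hm _) (hm _) ih hh

/-- a triangle is correct -/
def Gd (L : Set E) (Φ : E → Prop) (t : E × E × E) : Prop :=
  0 < dt3 t.1 t.2.1 t.2.2 ∧ Cn L Φ t.1 t.2.1 t.2.2

/-- the relation of the unions -/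
def Jm (L : Set E) (Φ : E → Prop) (u v : ℕ) (t : E × E × E) : Prop :=
  v.testBit 575 = false → u.testBit 575 = false ∧ Gd L Φ t

/-- common labels -/
lemma lb_pos {A : ℕ} (h : lb A ≠ 0) :
    (∃ a < 8, A.testBit a = true) ∧ ∃ i, 8 ≤ i ∧ A.testBit i = true := by
  have e : lb A = (A % 2 ^ 8) * (A / 2 ^ 8) := by
    have e1 : lb A = Nat.mul (Nat.land A (2 ^ 8 - 1)) (Nat.shiftRight A 8) := rfl
    rw [e1, land_full, nshr, nmul]
  rw [e] at h
  have h1 : A % 2 ^ 8 ≠ 0 := fun h1 => h (by rw [h1, Nat.zero_mul])
  have h2 : A / 2 ^ 8 ≠ 0 := fun h2 => h (by rw [h2, Nat.mul_zero])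
  obtain ⟨a, ha⟩ := Nat.exists_testBit_of_ne_zero h1
  obtain ⟨i, hi⟩ := Nat.exists_testBit_of_ne_zero h2
  rw [Nat.testBit_mod_two_pow, Bool.and_eq_true, decide_eq_true_eq] at ha
  rw [Nat.testBit_div_two_pow] at hi
  exact ⟨⟨a, ha.1, ha.2⟩, ⟨i + 8, by omega, hi⟩⟩

/-- a triangle with common labels -/
lemma cn_tri (h : Sd R P o M1 MK HF DM BI G0 G1 G2 G3 WV FV DW FP n W K fs ds L)
    {J : Set (E × Set E)} {A1 A2 A3 : ℕ} {P1 P2 P3 : E}
    (h1 : Lab K ds DW FP n W A1 ((2048 / (R : ℝ)) • P1))
    (h2 : Lab K ds DW FP n W A2 ((2048 / (R : ℝ)) • P2))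
    (h3 : Lab K ds DW FP n W A3 ((2048 / (R : ℝ)) • P3))
    (hb : lb (Nat.land (Nat.land A1 A2) A3) ≠ 0) :
    Cn L (Phi (Wf n (Wl n W)) J L) P1 P2 P3 := by
  obtain ⟨⟨a, ha, hab⟩, i, hi, hib⟩ := lb_pos hb
  rw [nland, nland, Nat.testBit_and, Nat.testBit_and, Bool.and_eq_true, Bool.and_eq_true]
    at hab hib
  have hR0 : (0 : ℝ) < R := by exact_mod_cast h.R1
  have hr : (0 : ℝ) < 2048 / R := by positivity
  have hne : (KS K).Nonempty := by
    have := interior_subset h.fa.zero
    exact convexHull_nonempty_iff.1 ⟨_, this⟩
  have h0L : (0 : E) ∈ L := convexHull_min h.sub h.conv (interior_subset h.fa.zero)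
  refine cn_base hr hr hr ?_ ?_
  · intro x _ hx
    have h5 := hull4 (lit_convex (KS K) (rvt (wv (Wl n W) (DW a)))) (lit_zero h.fa.zero _)
      (h1.1 a ha hab.1.1) (h2.1 a ha hab.1.2) (h3.1 a ha hab.2) hx
    exact Or.inl (phi_lit h.conv h.sub (wl_len n W).le h5)
  · have s1 := h1.2 i hi hib.1.1
    have s2 := h2.2 i hi hib.1.2
    have s3 := h3.2 i hi hib.2
    unfold Qd at s1 s2 s3
    by_cases hi40 : i < 40
    · rw [if_pos hi40] at s1 s2 s3
      exact out_dead hr hr hr (dead_shd h.conv h.sub hne h0L (h.hF (i - 8)).1) s1 s2 s3
    · rw [if_neg hi40] at s1 s2 s3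
      obtain ⟨g, hg, e1, c1⟩ := s1
      obtain ⟨g2, hg2, e2, c2⟩ := s2
      obtain ⟨g3, hg3, e3, c3⟩ := s3
      have e4 : g2 = g := by omega
      have e5 : g3 = g := by omega
      subst e4
      subst e5
      exact out_dead hr hr hr (h.dead _ (List.getElem_mem hg)) c1 c2 c3

/-- the test of a triangle -/
lemma mt_sound (h : Sd R P o M1 MK HF DM BI G0 G1 G2 G3 WV FV DW FP n W K fs ds L)
    {J : Set (E × Set E)} (R1 A1 B1 D1 : ℕ) (P1 : E) (R2 A2 B2 D2 : ℕ) (P2 : E)
    (R3 A3 B3 D3 : ℕ) (P3 : E) (u : ℕ) (k : ℕ → Bool)
    (v1 : VL K ds DW FP n W R R1 A1 B1 D1 P1) (v2 : VL K ds DW FP n W R R2 A2 B2 D2 P2)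
    (v3 : VL K ds DW FP n W R R3 A3 B3 D3 P3)
    (hh : mt R1 A1 B1 D1 R2 A2 B2 D2 R3 A3 B3 D3 u k = true) :
    ∃ v, k v = true ∧ Jm L (Phi (Wf n (Wl n W)) J L) u v (P1, P2, P3) := by
  obtain ⟨b, hb⟩ : ∃ b, b = lb (Nat.land (Nat.land R1 R2) R3) := ⟨_, rfl⟩
  have hh' : @Nat.rec (fun _ => Bool) false
      (fun _ _ => k (Nat.lor u (Nat.add (Nat.mul (Nat.mul A1 B2) D3) BC))) b = true := by
    rw [hb]
    exact hh
  clear hh
  cases b with
  | zero => exact absurd hh' Bool.false_ne_true
  | succ b =>
    refine ⟨_, hh', fun hv => ?_⟩
    rw [nlor, Nat.testBit_or, Bool.or_eq_false_iff] at hv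
    obtain ⟨x1, y1, z1, rfl, bx1, by1, bz1, ⟨f1, _, _⟩, l1⟩ := v1
    obtain ⟨x2, y2, z2, rfl, bx2, by2, bz2, ⟨_, f2, _⟩, l2⟩ := v2
    obtain ⟨x3, y3, z3, rfl, bx3, by3, bz3, ⟨_, _, f3⟩, l3⟩ := v3
    refine ⟨hv.1, ?_, cn_tri h l1 l2 l3 (by rw [← hb]; exact Nat.succ_ne_zero b)⟩
    have hp := orient bx1 by1 bz1 bx2 by2 bz2 bx3 by3 bz3 f1 f2 f3 hv.2
    have hp' : (0 : ℝ) < ((x1 * (y2 * z3 - z2 * y3) - y1 * (x2 * z3 - z2 * x3) +
        z1 * (x2 * y3 - y2 * x3) : ℤ) : ℝ) := by exact_mod_cast hp
    simp only [dt3, rv]
    push_cast at hp'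
    simpa using hp'

lemma ch_good {L : Set E} {Φ : E → Prop} : ∀ (T : List (E × E × E)) (u v : ℕ),
    Ch (Jm L Φ) u T v → v.testBit 575 = false → u.testBit 575 = false ∧ ∀ t ∈ T, Gd L Φ t := by
  intro T
  induction T with
  | nil =>
    intro u v h hv
    have e : u = v := h
    rw [e]
    exact ⟨hv, by simp⟩
  | cons t T ih =>
    intro u v h hv
    obtain ⟨w, h1, h2⟩ := h
    obtain ⟨h3, h4⟩ := ih w v h2 hv
    obtain ⟨h5, h6⟩ := h1 h3
    refine ⟨h5, fun s hs => ?_⟩
    rcases List.mem_cons.1 hs with rfl | hs
    · exact h6
    · exact h4 s hs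

lemma cramer (u v w x : E) :
    dt3 u v w • x = dt3 x v w • u + dt3 u x w • v + dt3 u v x • w := by
  funext i
  fin_cases i <;> simp only [dt3, Pi.add_apply, Pi.smul_apply, smul_eq_mul] <;> simp <;> ring

/-- a closed surface of correct triangles -/
lemma closed_phi {L : Set E} {Φ : E → Prop} {T : List (E × E × E)} (hne : T ≠ [])
    (hg : ∀ t ∈ T, Gd L Φ t) (hcl : ∀ e ∈ ES T, e.swap ∈ ES T) : ∀ x ∈ L, Φ x := by
  intro x hx
  obtain ⟨t, ht, h1, h2, h3⟩ := cover hne (fun t ht => (hg t ht).1) hcl x
  obtain ⟨g1, g2⟩ := hg t ht
  have e : x = (dt3 x t.2.1 t.2.2 / dt3 t.1 t.2.1 t.2.2) • t.1 +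
      (dt3 t.1 x t.2.2 / dt3 t.1 t.2.1 t.2.2) • t.2.1 +
      (dt3 t.1 t.2.1 x / dt3 t.1 t.2.1 t.2.2) • t.2.2 := by
    have hc := cramer t.1 t.2.1 t.2.2 x
    have : x = (1 / dt3 t.1 t.2.1 t.2.2) • (dt3 t.1 t.2.1 t.2.2 • x) := by
      rw [smul_smul, one_div, inv_mul_cancel₀ g1.ne', one_smul]
    rw [hc] at this
    rw [smul_add, smul_add, smul_smul, smul_smul, smul_smul] at this
    rw [div_eq_mul_one_div, div_eq_mul_one_div (dt3 t.1 x t.2.2),
      div_eq_mul_one_div (dt3 t.1 t.2.1 x), mul_comm _ (1 / dt3 t.1 t.2.1 t.2.2),
      mul_comm _ (1 / dt3 t.1 t.2.1 t.2.2), mul_comm _ (1 / dt3 t.1 t.2.1 t.2.2)]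
    exact this
  have := g2 _ _ _ (div_nonneg h1 g1.le) (div_nonneg h2 g1.le) (div_nonneg h3 g1.le)
    (by rw [← e]; exact hx)
  rw [← e] at this
  exact this

/-- the surface -/
theorem sf_sound (h : Sd R P o M1 MK HF DM BI G0 G1 G2 G3 WV FV DW FP n W K fs ds L) {F0 : ℕ}
    (hL : Lan o F0) {J : Set (E × Set E)} {w3 w5 w V S : ℕ}
    (hh : sf (li (ni FV M1 (Nat.sub (Nat.mul 1024 P) 1) w5) WV (Nat.sub (Nat.mul 4096 P) 1) w3)
      w (Nat.sub (Nat.mul 16384 P) 1) MK HF DM BI G0 G1 G2 G3 F0 M1 V S = true) :
    ∀ x ∈ L, Phi (Wf n (Wl n W)) J L x := by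
  obtain ⟨U', Q', h1, h2⟩ := vs_sound h hL _ _ _ _ _ hh
  obtain ⟨h3, h4⟩ := br h1
  obtain ⟨_, h5⟩ := h2 (Nat.eq_of_beq_eq_true h4)
  obtain ⟨l, hl⟩ := h5 ⟨[], AV_e _⟩
  obtain ⟨T, v, hc, hv, hne, hcl⟩ := f0_sound (J := Jm L (Phi (Wf n (Wl n W)) J L))
    (fun R1 A1 B1 D1 P1 R2 A2 B2 D2 P2 R3 A3 B3 D3 P3 u k v1 v2 v3 ht =>
      mt_sound h R1 A1 B1 D1 P1 R2 A2 B2 D2 P2 R3 A3 B3 D3 P3 u k v1 v2 v3 ht) hl h3
  have hv' : v.testBit 575 = false := by
    have h6 := Nat.eq_of_beq_eq_true hv
    have h7 := land_zero h6 (i := 575) (by decide +kernel)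
    exact h7
  exact closed_phi hne (ch_good T 0 v hc hv').2 hcl

end

end Pool.Agent.Lib.MP_5e7226_co.C8.TM
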