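import Pool.Agent.Lib.MP_5e7226_co.C8.TMS3
import Pool.Agent.Lib.MP_5e7226_co.C8.TMB
import Pool.Agent.Lib.MP_5e7226_co.C8.TMH

/-!
# Certificates with a triangulated surface: the leaf
-/

set_option autoImplicit false

open Set

namespace Pool.Agent.Lib.MP_5e7226_co.C8.TM

open GB C8.TF TP

/-- the entries of a table -/
lemma ch_eq (f : ℕ → ℕ) (w : ℕ) : ∀ (n S : ℕ) (K : (ℕ → ℕ) → Bool),
    ch f w n S K = K (fun a => f (S / 2 ^ (w * min a n))) := by
  intro n
  induction n with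
  | zero =>
    intro S K
    have e : ch f w 0 S K = K (fun _ => f S) := rfl
    rw [e]
    congr 1
    funext a
    simp
  | succ n ih =>
    intro S K
    have e : ch f w (n + 1) S K = ch f w n (Nat.shiftRight S w)
      (fun g => K (fun a => @Nat.rec (fun _ => ℕ) (f S) (fun b _ => g b) a)) := rfl
    rw [e, ih]
    congr 1
    funext a
    cases a with
    | zero => simp
    | succ a =>
      show f (Nat.shiftRight S w / 2 ^ (w * min a n)) = f (S / 2 ^ (w * min (a + 1) (n + 1)))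
      rw [nshr, Nat.div_div_eq_div_mul, ← pow_add, Nat.succ_min_succ,
        show w + w * min a n = w * Nat.succ (min a n) by rw [Nat.succ_eq_add_one]; ring]

lemma lan_of {o : ℕ} (ho : o ≤ 2 ^ 20) : Lan o (Nat.mul o 15129776317850095819272324571697626502927776504971003431559740999711420192968998777769829577124329729835674319858990410296955095807970386681061193967927281452375648075600104164278909904329953814850599592770590980758069220374690637827807629662352672380846434752022160216314530570959875962014528226386163127205385323615395223498354252437284493313818396117421013705448505016828976188883743734392145285326261049574016963451835089164893014262154169181289151113656914990275436268339144943845594405340739440328626546546743181311) := fun _ _ _ hx hy hz =>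
  lanes ho hx hy hz rfl

/-- the checks with the packed numbers -/
theorem m3_sound {n P e nf nd' nu UF W V S BI MM C0 C1 C2 C3 D1 D2 D3 : ℕ} {K F : List ℕ}
    {fs ds : List FD} {L : Set E} {J : Set (E × Set E)} (hn : 0 < n) (hP1 : 0 < P)
    (hP2 : P ≤ 128) (hf : nf = fs.length) (hd : nd' = ds.length)
    (hMM : MM = 2 ^ (96 * (fs ++ ds).length)) (hfa : Fa K fs) (hbd : ∀ h ∈ fs ++ ds, FB h)
    (hconv : Convex ℝ L) (hsub : KS K ⊆ L)
    (hdead : ∀ h ∈ ds, Dead L {z | (h.c : ℝ) ≤ nr h ⬝ᵥ z})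
    (hnu : Nu (fs ++ ds) BI C0 C1 C2 C3 D1 D2 D3)
    (hout : ∀ f < F.length, rp (pt (tk F) f) ∉ L)
    (hh : m3 n P e nf nd' nu UF (tk F) W V S
      (Nat.mul 39614081257132168796771975168 (on nf)) BI MM C0 C1 C2 C3 D1 D2 D3 = true) :
    ∀ x ∈ L, Phi (Wf n (Wl n W)) J L x := by
  obtain ⟨R, hR⟩ : ∃ R, R = Nat.mul 4096 P := ⟨_, rfl⟩
  obtain ⟨DR, hDR⟩ : ∃ DR, DR = Nat.mul 4194304 (Nat.mul P P) := ⟨_, rfl⟩
  obtain ⟨o, ho⟩ : ∃ o, o = Nat.mul 8192 P := ⟨_, rfl⟩
  obtain ⟨K0, hK0⟩ : ∃ X, X = Nat.mul 32768 (Nat.add (Nat.add C1 C2) C3) := ⟨_, rfl⟩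
  obtain ⟨MK, hMK⟩ : ∃ X, X = Nat.sub (Nat.shiftLeft 1 (Nat.mul 96 nf)) 1 := ⟨_, rfl⟩
  obtain ⟨NC, hNC⟩ : ∃ X, X = Nat.mul R (Nat.sub MM C0) := ⟨_, rfl⟩
  obtain ⟨M1, hM1⟩ : ∃ X, X = Nat.mul 39614081257132168796771975168 (on nf) := ⟨_, rfl⟩
  obtain ⟨G0, hG0⟩ : ∃ X, X = Nat.add NC (Nat.mul (Nat.mul 2048 o) (Nat.add (Nat.add D1 D2) D3)) :=
    ⟨_, rfl⟩
  obtain ⟨F0, hF0⟩ : ∃ X, X = Nat.mul o 15129776317850095819272324571697626502927776504971003431559740999711420192968998777769829577124329729835674319858990410296955095807970386681061193967927281452375648075600104164278909904329953814850599592770590980758069220374690637827807629662352672380846434752022160216314530570959875962014528226386163127205385323615395223498354252437284493313818396117421013705448505016828976188883743734392145285326261049574016963451835089164893014262154169181289151113656914990275436268339144943845594405340739440328626546546743181311 := ⟨_, rfl⟩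
  have h1 : @Bool.rec (fun _ => Bool) false
      (ch (fun S => Nat.land (vn D1 D2 D3 K0 (Nat.land S 281474976710655)) MK)
        48 (Nat.sub n 1) W (fun WV =>
        ch (fun S => Nat.land (Nat.add (Nat.add BI (Nat.mul DR C0)) (Nat.mul DR (vn D1 D2 D3 K0
            (pt (tk F) (Nat.land S 511))))) MK) 9 nu UF (fun FV =>
          sf (li (ni FV M1 (Nat.sub (Nat.mul 1024 P) 1) (Nat.add e 15)) WV
            (Nat.sub (Nat.mul 4096 P) 1) (Nat.add e 15))
            (Nat.add 14 e) (Nat.sub (Nat.mul 16384 P) 1) MK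
            (Nat.mul 96 nf) (Nat.mul 39614081257132168796771975168 (on nd')) BI
            G0 (Nat.mul 2048 C1) (Nat.mul 2048 C2) (Nat.mul 2048 C3) F0 M1 V S)))
      (ux (tk F) (Nat.succ nu) UF) = true := by
    rw [hG0, hF0, hM1, hNC, hMK, hK0, ho, hDR, hR]
    exact hh
  clear hh
  obtain ⟨h2, hu⟩ := br h1
  clear h1
  rw [ch_eq, ch_eq] at h2
  have hR' : R = 4096 * P := hR
  have ho' : o = 8192 * P := ho
  have hDR' : DR = 1024 * P * R := by
    rw [hDR, hR', nmul, nmul]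
    ring
  have hMK' : MK = 2 ^ (96 * fs.length) - 1 := by
    rw [hMK, nshl, nmul, one_mul, hf]
    rfl
  have hK := hnu.K0
  rw [← hK0] at hK
  have hNCr : Rp (fs ++ ds) NC (fun h => -(R * h.c)) := by
    rw [hNC]
    refine ((hnu.hC0.neg hMM (by rw [hMM]; exact hnu.hC0le)).mul R).congr (fun f _ => ?_)
    ring
  refine sf_sound (K := K) (fs := fs) (ds := ds) (R := R) (P := P) (o := o)
    (DW := fun a => min a (n - 1))
    (FP := fun j => pt (tk F) (Nat.land (UF / 2 ^ (9 * min j nu)) 511)) ?_ ?_ h2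
  · refine ⟨hfa, hbd, hconv, hsub, hP1, hP2, hR', ho', ?_, hMK', ?_, ?_, hnu.hBI, ?_, ?_, ?_, ?_,
      fun a => ?_, fun j => ⟨?_, ?_⟩, hdead⟩
    · rw [hM1, pk_const, hf]
      rfl
    · rw [nmul, hf]
    · rw [pk_const, hd]
      rfl
    · rw [hG0]
      refine (hNCr.add (((hnu.hD1.add hnu.hD2).add hnu.hD3).mul (2048 * o))).congr
        (fun f _ => ?_)
      simp only [dz]
      push_cast
      ring
    · refine (hnu.hC1.mul 2048).congr (fun f _ => ?_)
      simp only [dz]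
      push_cast
      ring
    · refine (hnu.hC2.mul 2048).congr (fun f _ => ?_)
      simp only [dz]
      push_cast
      ring
    · refine (hnu.hC3.mul 2048).congr (fun f _ => ?_)
      simp only [dz]
      push_cast
      ring
    · have ha : min a (n - 1) < n := by omega
      show Rp fs (Nat.land (vn D1 D2 D3 K0 (Nat.land (W / 2 ^ (48 * min a (n - 1)))
        281474976710655)) MK) _
      rw [wv_wl ha, pt_div]
      exact rp_mask (ds := ds) hMK' (hK _)
    · have := ux_sound (F := F) (Nat.succ nu) UF hu (min j nu) (by rw [Nat.succ_eq_add_one]; omega)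
      rw [nshr] at this
      exact hout _ this
    · refine rp_mask (ds := ds) hMK' ?_
      refine ((hnu.hBI.add (hnu.hC0.mul DR)).add ((hK _).mul DR)).congr (fun f _ => ?_)
      rw [hDR']
      push_cast
      ring
  · rw [hF0]
    exact lan_of (by omega)

/-- the numbers of the functionals -/
lemma nu_rs {hs : List FD} (hb : ∀ h ∈ hs, FB h) :
    Nu hs (Nat.mul 39614081257132168796771975168 (on hs.length)) (pk FD.c hs)
      (Nat.add (pk (fun h => h.A1 + 2 ^ 63 - h.B1) hs) (Nat.sub (2 ^ (96 * hs.length))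
        (Nat.mul 9223372036854775808 (on hs.length))))
      (Nat.add (pk (fun h => h.A2 + 2 ^ 63 - h.B2) hs) (Nat.sub (2 ^ (96 * hs.length))
        (Nat.mul 9223372036854775808 (on hs.length))))
      (Nat.add (pk (fun h => h.A3 + 2 ^ 63 - h.B3) hs) (Nat.sub (2 ^ (96 * hs.length))
        (Nat.mul 9223372036854775808 (on hs.length))))
      (Nat.add (Nat.mul 9223372036854775808 (on hs.length)) (Nat.sub (2 ^ (96 * hs.length))
        (pk (fun h => h.A1 + 2 ^ 63 - h.B1) hs)))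
      (Nat.add (Nat.mul 9223372036854775808 (on hs.length)) (Nat.sub (2 ^ (96 * hs.length))
        (pk (fun h => h.A2 + 2 ^ 63 - h.B2) hs)))
      (Nat.add (Nat.mul 9223372036854775808 (on hs.length)) (Nat.sub (2 ^ (96 * hs.length))
        (pk (fun h => h.A3 + 2 ^ 63 - h.B3) hs))) := by
  have hON : Rp hs (Nat.mul 9223372036854775808 (on hs.length)) (fun _ => 2 ^ 63) := by
    have h1 := Rp.of_pk (hs := hs) (fun _ => 9223372036854775808)
    rw [pk_const] at h1
    exact h1.congr (fun _ _ => by norm_num)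
  have hONle : Nat.mul 9223372036854775808 (on hs.length) ≤ 2 ^ (96 * hs.length) := by
    have h1 := pk_lt (fun _ => 9223372036854775808) hs (fun _ _ => by norm_num)
    rw [pk_const] at h1
    exact h1.le
  have hX : ∀ (A B : FD → ℕ), (∀ h ∈ hs, B h < 2 ^ 34) →
      Rp hs (pk (fun h => A h + 2 ^ 63 - B h) hs) (fun h => ((A h : ℤ) - B h) + 2 ^ 63) := by
    intro A B hB
    refine (Rp.of_pk (hs := hs) (fun h => A h + 2 ^ 63 - B h)).congr (fun f hf => ?_)
    have h1 := hB f hf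
    have h2 : B f ≤ A f + 2 ^ 63 := by
      have : (2 : ℕ) ^ 34 ≤ 2 ^ 63 := by norm_num
      omega
    rw [Nat.cast_sub h2]
    push_cast
    ring
  have hXle : ∀ (A B : FD → ℕ), (∀ h ∈ hs, A h < 2 ^ 34) →
      pk (fun h => A h + 2 ^ 63 - B h) hs ≤ 2 ^ (96 * hs.length) := by
    intro A B hA
    refine (pk_lt _ hs (fun f hf => ?_)).le
    have h1 := hA f hf
    have h2 : (2 : ℕ) ^ 34 + 2 ^ 63 ≤ 2 ^ 96 := by norm_num
    omega
  have hC : ∀ (A B : FD → ℕ), (∀ h ∈ hs, A h < 2 ^ 34) → (∀ h ∈ hs, B h < 2 ^ 34) →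
      Rp hs (Nat.add (pk (fun h => A h + 2 ^ 63 - B h) hs) (Nat.sub (2 ^ (96 * hs.length))
        (Nat.mul 9223372036854775808 (on hs.length)))) (fun h => (A h : ℤ) - B h) := by
    intro A B hA hB
    refine ((hX A B hB).add (hON.neg rfl hONle)).congr (fun f _ => ?_)
    ring
  have hD : ∀ (A B : FD → ℕ), (∀ h ∈ hs, A h < 2 ^ 34) → (∀ h ∈ hs, B h < 2 ^ 34) →
      Rp hs (Nat.add (Nat.mul 9223372036854775808 (on hs.length)) (Nat.sub (2 ^ (96 * hs.length))
        (pk (fun h => A h + 2 ^ 63 - B h) hs))) (fun h => -((A h : ℤ) - B h)) := by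
    intro A B hA hB
    refine (hON.add ((hX A B hB).neg rfl (hXle A B hA))).congr (fun f _ => ?_)
    ring
  refine ⟨?_, Rp.of_pk _, ?_, ?_, ?_, ?_, ?_, ?_, ?_⟩
  · have h1 := Rp.of_pk (hs := hs) (fun _ => 39614081257132168796771975168)
    rw [pk_const] at h1
    exact h1.congr (fun _ _ => by norm_num)
  · exact (pk_lt _ hs (fun a ha => (hb a ha).c.trans (by norm_num))).le
  · exact hC FD.A1 FD.B1 (fun h hh => (hb h hh).a1) (fun h hh => (hb h hh).b1)
  · exact hC FD.A2 FD.B2 (fun h hh => (hb h hh).a2) (fun h hh => (hb h hh).b2)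
  · exact hC FD.A3 FD.B3 (fun h hh => (hb h hh).a3) (fun h hh => (hb h hh).b3)
  · exact hD FD.A1 FD.B1 (fun h hh => (hb h hh).a1) (fun h hh => (hb h hh).b1)
  · exact hD FD.A2 FD.B2 (fun h hh => (hb h hh).a2) (fun h hh => (hb h hh).b2)
  · exact hD FD.A3 FD.B3 (fun h hh => (hb h hh).a3) (fun h hh => (hb h hh).b3)

/-- soundness of a leaf -/
theorem lm_sound {C : Set (Set E)} (hC : Frm C 17179869184) {n : ℕ} (hn : 0 < n) {K F : List ℕ}
    {H W V S : ℕ} (h : lm n K F H W V S = true) :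
    ∀ L ∈ C, KS K ⊆ L → (∀ x ∈ KS F, x ∉ L) → ∀ x ∈ L, Phi (Wf n (Wl n W)) (JQ []) L x := by
  intro L hL hKL hFL
  obtain ⟨nd, hnd⟩ : ∃ nd, nd = Nat.land (Nat.shiftRight H 3) 63 := ⟨_, rfl⟩
  obtain ⟨nh, hnh⟩ : ∃ nh, nh = Nat.land (Nat.shiftRight H 15) 255 := ⟨_, rfl⟩
  obtain ⟨no, hno⟩ : ∃ no, no = Nat.land (Nat.shiftRight H 23) 511 := ⟨_, rfl⟩
  obtain ⟨e, he⟩ : ∃ e, e = Nat.land H 7 := ⟨_, rfl⟩
  obtain ⟨nu, hnu⟩ : ∃ nu, nu = Nat.land (Nat.shiftRight H 9) 63 := ⟨_, rfl⟩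
  obtain ⟨SO, hSO⟩ : ∃ SO, SO = Nat.shiftRight H 32 := ⟨_, rfl⟩
  obtain ⟨SH, hSH⟩ : ∃ SH, SH = Nat.shiftRight H (Nat.add 32 (Nat.mul 2 no)) := ⟨_, rfl⟩
  obtain ⟨SD, hSD⟩ : ∃ SD, SD = Nat.shiftRight SH (Nat.mul 7 nh) := ⟨_, rfl⟩
  obtain ⟨SU, hSU⟩ : ∃ SU, SU = Nat.shiftRight SD (Nat.mul 21 nd) := ⟨_, rfl⟩
  have h1 : m1 n e nd nu nh no (tk K) (tk F) SO SH SD SU W V S = true := by
    rw [hSU, hSD, hSH, hSO, hnu, he, hno, hnh, hnd]
    exact h
  have he7 : e ≤ 7 := by
    rw [he]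
    exact land_le _ _
  clear h hnd hnh hno hnu hSO hSH hSD hSU he
  obtain ⟨ds, u1, h2, hdl, hd1, hd2⟩ := dl_sound nd SD _ _ h1
  obtain ⟨Q', h3, hq⟩ := hv_sound nh SH Fr.e _ h2
  obtain ⟨l, hl⟩ := hq ⟨[], AV_e _⟩
  obtain ⟨fs, u2, h4, hfne, hf1, hf2, hmem, hint, hzero⟩ := hull_sound hl h3
  have hr : Rs (fs ++ (ds ++ [])) u2 := hf1 _ (hd1 [] rfl)
  rw [List.append_nil] at hr
  have hbd : ∀ h ∈ fs ++ ds, FB h := by
    intro h hh
    rcases List.mem_append.1 hh with hh | hh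
    · exact (hf2 h hh).2
    · exact (hd2 h hh).2.1
  have hsub : KS (md K) ⊆ L := by rw [KS_md]; exact hKL
  have hfa : Fa (md K) fs := ⟨fun h hh => (hf2 h hh).2, hmem, hint, hzero⟩
  have hdead : ∀ h ∈ ds, Dead L {z | (h.c : ℝ) ≤ nr h ⬝ᵥ z} := by
    intro h hh
    obtain ⟨hp, _, p, h1, q, h2, r, h4, rfl⟩ := hd2 h hh
    exact hC.dead L hL p q r (hsub ⟨p, h1, rfl⟩) (hsub ⟨q, h2, rfl⟩) (hsub ⟨r, h4, rfl⟩) hp
  have hout : ∀ f < F.length, rp (pt (tk F) f) ∉ L := by
    intro f hf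
    rw [pt_tk F f hf, rp_mod]
    exact hFL _ ⟨_, List.getElem_mem hf, rfl⟩
  have hP1 : 0 < Nat.shiftLeft 1 e := by rw [nshl]; positivity
  have hP2 : Nat.shiftLeft 1 e ≤ 128 := by
    rw [nshl, one_mul]
    calc 2 ^ e ≤ 2 ^ 7 := Nat.pow_le_pow_right (by norm_num) he7
      _ = 128 := by norm_num
  have hnl : Nat.sub (fs ++ ds).length nd = fs.length := by
    rw [List.length_append, hdl, nsub, Nat.add_sub_cancel]
  have hMM : Nat.shiftLeft 1 (Nat.mul 96 (fs ++ ds).length) = 2 ^ (96 * (fs ++ ds).length) := by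
    rw [nshl, nmul, one_mul]
  rw [hr] at h4
  have h5 : m3 n (Nat.shiftLeft 1 e) e (Nat.sub (fs ++ ds).length nd) nd nu SU (tk F) W V S
      (Nat.mul 39614081257132168796771975168 (on (Nat.sub (fs ++ ds).length nd)))
      (Nat.mul 39614081257132168796771975168 (on (fs ++ ds).length))
      (Nat.shiftLeft 1 (Nat.mul 96 (fs ++ ds).length)) (pk FD.c (fs ++ ds))
      (Nat.add (pk (fun h => h.A1 + 2 ^ 63 - h.B1) (fs ++ ds)) (Nat.sub
        (Nat.shiftLeft 1 (Nat.mul 96 (fs ++ ds).length))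
        (Nat.mul 9223372036854775808 (on (fs ++ ds).length))))
      (Nat.add (pk (fun h => h.A2 + 2 ^ 63 - h.B2) (fs ++ ds)) (Nat.sub
        (Nat.shiftLeft 1 (Nat.mul 96 (fs ++ ds).length))
        (Nat.mul 9223372036854775808 (on (fs ++ ds).length))))
      (Nat.add (pk (fun h => h.A3 + 2 ^ 63 - h.B3) (fs ++ ds)) (Nat.sub
        (Nat.shiftLeft 1 (Nat.mul 96 (fs ++ ds).length))
        (Nat.mul 9223372036854775808 (on (fs ++ ds).length))))
      (Nat.add (Nat.mul 9223372036854775808 (on (fs ++ ds).length)) (Nat.sub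
        (Nat.shiftLeft 1 (Nat.mul 96 (fs ++ ds).length))
        (pk (fun h => h.A1 + 2 ^ 63 - h.B1) (fs ++ ds))))
      (Nat.add (Nat.mul 9223372036854775808 (on (fs ++ ds).length)) (Nat.sub
        (Nat.shiftLeft 1 (Nat.mul 96 (fs ++ ds).length))
        (pk (fun h => h.A2 + 2 ^ 63 - h.B2) (fs ++ ds))))
      (Nat.add (Nat.mul 9223372036854775808 (on (fs ++ ds).length)) (Nat.sub
        (Nat.shiftLeft 1 (Nat.mul 96 (fs ++ ds).length))
        (pk (fun h => h.A3 + 2 ^ 63 - h.B3) (fs ++ ds)))) = true := h4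
  rw [hnl, hMM] at h5
  exact m3_sound hn hP1 hP2 rfl hdl.symm rfl hfa hbd (hC.conv L hL) hsub hdead (nu_rs hbd) hout h5

/-- leaves with a surface are correct -/
theorem zm_ok {n : ℕ} (hn : 0 < n) : ZOK (fun L => Illum L n) (simCls 1024) (zm n) := by
  intro K F H y e1 e2 e3 S0 S1 S2 S3 S4 S5 S6 S7 h _ L hL hKL hFL
  have h1 := lm_sound frm_sim1024 hn (K := K) (F := F) (H := H) (W := y) (V := e1) (S := e2) h
  refine gq_cover (P := fun L => Illum L n) (n := n) (fun _ h => h) (C := simCls 1024)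
    (σ := tsG n K F []) (W := y) (J := JQ []) (fun L hL hst => h1 L hL hst.pts hst.out) hn ?_ L hL
    ⟨hKL, hFL, ?_⟩
  · intro k hk
    obtain ⟨g, hg, _⟩ := hk
    exact absurd hg (by simp)
  · intro f hf
    simp [tsG] at hf

/-- an accepted certificate -/
theorem gm {n : ℕ} (hn : 0 < n) {rs : List SG}
    (hrs : ∀ s ∈ rs, GQ (fun L => Illum L n) (simCls 1024) (tsG n s.K s.F s.G)) {t : TU}
    {K F : List ℕ} {G : List UG} (h : TP.cp n (zm n) rs t false 0 K F G = true)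
    (h4 : has4 K = true) :
    GQ (fun L => Illum L n) (simCls 1024) (tsG n K F G) :=
  gq_of_cp (fun _ h => h) hn (zm_ok hn) hrs h h4

end Pool.Agent.Lib.MP_5e7226_co.C8.TM
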