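import Pool.Agent.Lib.MP_5e7226_co.C8.TMS4

/-!
# Trees of leaves as terms

The tree is a term, every leaf has its own proof by evaluation.
-/

set_option autoImplicit false

open Set

namespace Pool.Agent.Lib.MP_5e7226_co.C8.TM

open GB C8.TF TP

/-- the statement of a state without facts: the bodies are illuminated by eight directions -/
def Tq (K F : List ℕ) : Prop :=
  (0 : E) ∈ convexHull ℝ (KS K) → GQ (fun L => Illum L 8) (simCls 1024) (tsG 8 K F [])

/-- a query -/
theorem nd {K F : List ℕ} (y : ℕ) (a : Tq (y :: K) F) (b : Tq K (y :: F)) : Tq K F :=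
  fun h0 => gq_query y (a (zero_cons h0 y)) (b h0)

/-- a leaf with a surface -/
theorem lv {K F : List ℕ} (H W V S : ℕ) (h : lm 8 K F H W V S = true) : Tq K F :=
  fun h0 L hL hs => zm_ok (n := 8) (by norm_num) K F H W V S 0 0 0 0 0 0 0 0 0 h h0 L hL hs.pts
    hs.out

/-- a leaf with cones -/
theorem lc {K F : List ℕ} (H W S0 S1 S2 S3 S4 S5 S6 S7 : ℕ)
    (h : TP.lf 8 K F H W S0 S1 S2 S3 S4 S5 S6 S7 = true) : Tq K F := by
  intro h0
  refine gq_cover (W := W) (J := JQ []) (fun _ h => h) (fun L hL hs => ?_) (by norm_num) ?_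
  · refine lf_sound frm_sim1024 h0 h L hL ⟨hs.pts, hs.out, ?_⟩
    rintro f ⟨u, hu, _⟩
    simp at hu
  · rintro _ ⟨a, ha, rfl⟩
    simp at ha

/-- a leaf with cones, general format -/
theorem lu {K F : List ℕ} (H W S0 S1 S2 S3 S4 S5 S6 S7 : ℕ)
    (h : TR.cu 8 K F [] [] H W S0 S1 S2 S3 S4 S5 S6 S7 = true) : Tq K F := by
  intro h0
  refine gq_cover (W := W) (J := JQ []) (fun _ h => h) (TR.cu_sound frm_sim1024 h0 h)
    (by norm_num) ?_
  rintro _ ⟨a, ha, rfl⟩
  simp at ha

lemma ng_nil {G : List UG} (h : ng G = true) : G = [] := by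
  cases G with
  | nil => rfl
  | cons a l => exact absurd (show false = true from h) Bool.false_ne_true

/-- a state which is done -/
theorem rf {K F : List ℕ} {s : SG}
    (g : GQ (fun L => Illum L 8) (simCls 1024) (tsG 8 s.K s.F s.G)) (h : rb K F s = true) :
    Tq K F := by
  intro _
  obtain ⟨h, h1⟩ := br h
  obtain ⟨h, h2⟩ := br h
  exact TR.gq_mono g (TR.sb_sub h1) (TR.sb_sub h2) (by rw [ng_nil h]; simp)

/-- the end -/
theorem fin {s : SG} (t : Tq s.K s.F) (h : h4 s = true) :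
    GQ (fun L => Illum L 8) (simCls 1024) (tsG 8 s.K s.F s.G) := by
  obtain ⟨h, h1⟩ := br h
  rw [ng_nil h]
  exact t (zero_of_has4 h1)

end Pool.Agent.Lib.MP_5e7226_co.C8.TM
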