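import Pool.Agent.Lib.MP_5e7226_co.C8.TRS4

/-!
# Compact certificates

The check of a leaf with compact data: tables of the directions and of the outer points, short
fields for the shifts and the radii, no separate bounds of the corners (the field above all
functionals of the packed values of a corner is a bound of the coordinates), and one test of the
union of all values at the end.
-/

set_option autoImplicit false

namespace Pool.Agent.Lib.MP_5e7226_co.C8.TP

open TF

/-- the check of a tree: as `TR.cw`, with compact leaves -/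
noncomputable def cp (n : ℕ) (Z : ZT) (rs : List SG) (t : TU) :
    Bool → ℕ → List ℕ → List ℕ → List UG → Bool :=
  @TU.rec (fun _ => Bool → ℕ → List ℕ → List ℕ → List UG → Bool)
    (fun y _ _ ia ib md _ K F G => @Bool.rec (fun _ => Bool)
      (@Bool.rec (fun _ => Bool) false (ib false (nat_lit 0) K (y :: F) G) (ia false (nat_lit 0) (y :: K) F G)) false md)
    (fun H W S0 S1 S2 S3 S4 S5 S6 S7 md _ K F _ => @Bool.rec (fun _ => Bool)
      (lf n K F H W S0 S1 S2 S3 S4 S5 S6 S7) false md)
    (fun i md _ K F G => @Bool.rec (fun _ => Bool) (TR.mb K F G rs i) false md)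
    (fun H W S0 S1 S2 S3 S4 S5 S6 S7 c ic md _ K F G => @Bool.rec (fun _ => Bool)
      (@Bool.rec (fun _ => Bool) false (ic true W K F G) (TR.cu n K F G c.kd H W S0 S1 S2 S3 S4 S5 S6 S7)) false md)
    (fun md _ _ _ _ => md)
    (fun y m C _ _ ia ib md V K F G => @Bool.rec (fun _ => Bool) false
      (@Bool.rec (fun _ => Bool) false (ib true V K F G) (ia false (nat_lit 0) (y :: K) F (⟨m, C, V⟩ :: G))) md)
    (fun H y e1 e2 e3 S0 S1 S2 S3 S4 S5 S6 S7 md _ K F _ => @Bool.rec (fun _ => Bool)
      (Z K F H y e1 e2 e3 S0 S1 S2 S3 S4 S5 S6 S7) false md)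
    t

end Pool.Agent.Lib.MP_5e7226_co.C8.TP
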