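import Pool.Agent.Lib.MP_5e7226_co.C8.TP

/-!
# Compact certificates: soundness, first part: corners, tables
-/

set_option autoImplicit false

open Set

namespace Pool.Agent.Lib.MP_5e7226_co.C8.TP

open GB C8.TF

lemma nxor (a b : ℕ) : Nat.xor a b = a ^^^ b := rfl

/-! ### one corner -/

/-- one lit corner -/
lemma lit_sound {K : List ℕ} {fs : List FD} {ds : List FD} (hF : Fac K fs)
    {R P CL W r s b E' : ℕ} (hR : R = 4096 * P) (hP : 0 < P) (hP' : P ≤ 128)
    {x y z a' b' c' : ℤ} (hCL : Rp (fs ++ ds) CL (fun h => 2 ^ 95 - R * h.c))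
    (hW : Rp fs W (fun h => -(P * dz h a' b' c')))
    (hE : Rp (fs ++ ds) E' (fun h => dz h x y z))
    (hr : r * b ≤ 4294967295) (hs : s < 2 ^ 18) (hx : |x| ≤ b) (hy : |y| ≤ b) (hz : |z| ≤ b)
    (ha : |a'| ≤ 65536) (hb : |b'| ≤ 65536) (hc : |c'| ≤ 65536)
    (hm : ∀ g, g < fs.length → (litX CL W r s E').testBit (96 * g + 95) = false) :
    Lit (KS K) (rv a' b' c') (((r : ℝ) / R) • rv x y z) := by
  have hR' : R ≤ 524288 := by omega
  have hX : Rp fs (litX CL W r s E')
      (fun h => 2 ^ 95 + ((r : ℤ) * dz h x y z - s * P * dz h a' b' c' - R * h.c)) := by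
    have h1 := ((hCL.add (hE.mul r)).pre).add (hW.mul s)
    exact h1.congr (fun f _ => by ring)
  have hbd : ∀ f ∈ fs, -2 ^ 95 ≤ (r : ℤ) * dz f x y z - s * P * dz f a' b' c' - R * f.c ∧
      (r : ℤ) * dz f x y z - s * P * dz f a' b' c' - R * f.c < 2 ^ 95 := by
    intro f hf
    have h3 := TR.rdz_bd (hF.bd f hf) hx hy hz hr
    have h2 := dz_bd (hF.bd f hf) ha hb hc
    have h4 : |(s : ℤ) * P * dz f a' b' c'| ≤ 2 ^ 18 * 128 * (3 * 2 ^ 34 * 65536) := by
      rw [abs_mul]
      refine mul_le_mul ?_ h2 (abs_nonneg _) (by norm_num)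
      rw [abs_of_nonneg (by positivity)]
      exact mul_le_mul (by exact_mod_cast hs.le) (by exact_mod_cast hP') (by positivity)
        (by norm_num)
    have h5 : (R : ℤ) * f.c ≤ 524288 * 2 ^ 56 :=
      mul_le_mul (by exact_mod_cast hR') (by exact_mod_cast (hF.bd f hf).c.le) (by positivity)
        (by norm_num)
    have h6 : 0 ≤ (R : ℤ) * f.c := by positivity
    rw [abs_le] at h4
    constructor
    · norm_num at h3 h4 h5 ⊢; linarith [h3.1, h4.2]
    · norm_num at h3 h4 h5 ⊢; linarith [h3.2, h4.1]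
  have hsg := sign_clear hX hbd hm
  have hR0 : (0 : ℝ) < R := by
    have : 0 < R := by omega
    exact_mod_cast this
  refine ⟨((s * P : ℕ) : ℝ) / R, by positivity, hF.mem_int ?_⟩
  intro f hf
  have h1 : ((r : ℤ) * dz f x y z - s * P * dz f a' b' c' - R * f.c : ℤ) < 0 := hsg f hf
  have h2 : ((r : ℝ) * dz f x y z - s * P * dz f a' b' c' - R * f.c : ℝ) < 0 := by
    exact_mod_cast h1
  rw [dotProduct_sub, dot_smul_rv, dot_smul_rv]
  have h3 : (r : ℝ) / R * (dz f x y z) - ((s * P : ℕ) : ℝ) / R * (dz f a' b' c') - f.c =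
      ((r : ℝ) * dz f x y z - s * P * dz f a' b' c' - R * f.c) / R := by
    push_cast
    field_simp
  have h4 : ((r : ℝ) * dz f x y z - s * P * dz f a' b' c' - R * f.c) / R < 0 :=
    div_neg_of_neg_of_pos h2 hR0
  linarith

/-- one shadow corner; `D` is the denominator of the weights -/
lemma sh_sound {K : List ℕ} {fs : List FD} {ds : List FD} (hF : Fac K fs)
    {R D A NC r l b E' : ℕ} (hR : 0 < R) (hR' : R ≤ 524288) (hD : D ≤ 262144) {x y z : ℤ}
    {a' b' c' : ℤ}
    (hA : Rp fs A (fun h => 2 ^ 95 + D * R * (h.c - dz h a' b' c')))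
    (hNC : Rp (fs ++ ds) NC (fun h => -(R * h.c)))
    (hE : Rp (fs ++ ds) E' (fun h => dz h x y z))
    (hl : l < D) (hr : r * b ≤ 4294967295)
    (hx : |x| ≤ b) (hy : |y| ≤ b) (hz : |z| ≤ b)
    (ha : |a'| ≤ 65536) (hb : |b'| ≤ 65536) (hc : |c'| ≤ 65536)
    (hm : ∀ g, g < fs.length → (A + l * (NC + r * E')).testBit (96 * g + 95) = true) :
    Shd (KS K) (rv a' b' c') (((r : ℝ) / R) • rv x y z) := by
  have hX : Rp fs (A + l * (NC + r * E'))
      (fun h => 2 ^ 95 + (D * R * (h.c - dz h a' b' c') + l * (r * dz h x y z - R * h.c))) := by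
    have h1 := hA.add (((hNC.add (hE.mul r)).mul l).pre)
    exact h1.congr (fun f _ => by push_cast; ring)
  have hl' : l ≤ 262144 := hl.le.trans hD
  have hbd : ∀ f ∈ fs, -2 ^ 95 ≤ (D * R * (f.c - dz f a' b' c') +
        l * (r * dz f x y z - R * f.c) : ℤ) ∧ (D * R * (f.c - dz f a' b' c') +
        l * (r * dz f x y z - R * f.c) : ℤ) < 2 ^ 95 := by
    intro f hf
    have h1 := TR.rdz_bd (hF.bd f hf) hx hy hz hr
    have h2 := dz_bd (hF.bd f hf) ha hb hc
    have hlz : (l : ℤ) ≤ 262144 := by exact_mod_cast hl'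
    have hDz : (D : ℤ) ≤ 262144 := by exact_mod_cast hD
    have hRz : (R : ℤ) ≤ 524288 := by exact_mod_cast hR'
    have hDR : (D : ℤ) * R ≤ 262144 * 524288 := mul_le_mul hDz hRz (by positivity) (by norm_num)
    have h3 : |(l : ℤ) * (r * dz f x y z)| ≤ 262144 * (3 * 2 ^ 66) := by
      rw [abs_mul]
      refine mul_le_mul ?_ (abs_le.2 h1) (abs_nonneg _) (by norm_num)
      rw [Nat.abs_cast]; exact hlz
    have h4 : |(D : ℤ) * R * dz f a' b' c'| ≤ 262144 * 524288 * (3 * 2 ^ 34 * 65536) := by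
      rw [abs_mul]
      refine mul_le_mul ?_ h2 (abs_nonneg _) (by norm_num)
      rw [abs_of_nonneg (by positivity)]
      exact hDR
    have hcb : (f.c : ℤ) ≤ 2 ^ 56 := by exact_mod_cast (hF.bd f hf).c.le
    have hc0 : (0 : ℤ) ≤ f.c := Nat.cast_nonneg _
    have h5 : (D : ℤ) * R * f.c ≤ 262144 * 524288 * 2 ^ 56 :=
      mul_le_mul hDR hcb hc0 (by norm_num)
    have h5' : 0 ≤ (D : ℤ) * R * f.c := by positivity
    have h6 : (l : ℤ) * (R * f.c) ≤ 262144 * (524288 * 2 ^ 56) :=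
      mul_le_mul hlz (mul_le_mul hRz hcb hc0 (by norm_num)) (by positivity) (by norm_num)
    have h6' : 0 ≤ (l : ℤ) * (R * f.c) := by positivity
    have e : (D * R * (f.c - dz f a' b' c') + l * (r * dz f x y z - R * f.c) : ℤ) =
        D * R * f.c - D * R * dz f a' b' c' + l * (r * dz f x y z) - l * (R * f.c) := by ring
    rw [e]
    rw [abs_le] at h3 h4
    constructor
    · norm_num at h3 h4 h5 h6 ⊢; linarith [h3.1, h4.2]
    · norm_num at h3 h4 h5 h6 ⊢; linarith [h3.2, h4.1]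
  have hsg := sign_set hX hbd hm
  have hR0 : (0 : ℝ) < R := by exact_mod_cast hR
  have hD0 : (0 : ℝ) < D := by
    have : 0 < D := lt_of_le_of_lt (Nat.zero_le _) hl
    exact_mod_cast this
  set θ : ℝ := (l : ℝ) / D with hθ
  have hθ0 : 0 ≤ θ := by positivity
  have hθ1 : θ < 1 := by
    rw [hθ, div_lt_one hD0]
    exact_mod_cast hl
  have h1θ : 0 < 1 - θ := by linarith
  set P : E := ((r : ℝ) / R) • rv x y z with hP
  have hz' : (1 / (1 - θ)) • (rv a' b' c' - θ • P) ∈ convexHull ℝ (KS K) := by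
    apply hF.mem
    intro f hf
    have h1 : (0 : ℤ) ≤ D * R * (f.c - dz f a' b' c') + l * (r * dz f x y z - R * f.c) := hsg f hf
    have h2 : (0 : ℝ) ≤ D * R * (f.c - dz f a' b' c') + l * (r * dz f x y z - R * f.c) := by
      have := h1
      exact_mod_cast this
    rw [dotProduct_smul, dotProduct_sub, dotProduct_smul, hP, dot_smul_rv, nr_dot, smul_eq_mul,
      smul_eq_mul, one_div, inv_mul_le_iff₀ h1θ]
    have h3 : (dz f a' b' c' : ℝ) - θ * ((r : ℝ) / R * dz f x y z) - (1 - θ) * f.c =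
        -((D * R * (f.c - dz f a' b' c') + l * (r * dz f x y z - R * f.c)) / (D * R)) := by
      rw [hθ]
      field_simp
      ring
    have h4 : (0 : ℝ) ≤ (D * R * (f.c - dz f a' b' c') + l * (r * dz f x y z - R * f.c)) /
        (D * R) := div_nonneg h2 (by positivity)
    linarith
  have h5 : (1 / (1 - θ)) • (rv a' b' c' - θ • P) ∈ convexHull ℝ (insert P (KS K)) :=
    convexHull_mono (subset_insert _ _) hz'
  have h6 : P ∈ convexHull ℝ (insert P (KS K)) := subset_convexHull ℝ _ (mem_insert _ _)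
  have h7 := convex_convexHull ℝ (insert P (KS K)) h5 h6 (a := 1 - θ) (b := θ) h1θ.le hθ0
    (by ring)
  have h8 : (1 - θ) • ((1 / (1 - θ)) • (rv a' b' c' - θ • P)) + θ • P = rv a' b' c' := by
    rw [smul_smul, mul_one_div_cancel h1θ.ne', one_smul]
    abel
  rw [h8] at h7
  exact h7

/-! ### tables -/

/-- the fields of 4 bits at the position 12 -/
lemma land_field (x m : ℕ) : Nat.land x (Nat.shiftLeft m 12) =
    4096 * (Nat.land (Nat.shiftRight x 12) m) := by
  rw [nland, nland, nshl, nshr]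
  apply Nat.eq_of_testBit_eq
  intro i
  rw [Nat.testBit_and, show m * 2 ^ 12 = 2 ^ 12 * m by ring,
    show 4096 * (x / 2 ^ 12 &&& m) = 2 ^ 12 * (x / 2 ^ 12 &&& m) by norm_num,
    Nat.testBit_two_pow_mul, Nat.testBit_two_pow_mul]
  by_cases h : i ≥ 12
  · simp only [h, decide_true, Bool.true_and, Nat.testBit_and, Nat.testBit_div_two_pow]
    rw [Nat.sub_add_cancel h]
  · simp [h]

lemma tb_lt (VV f : ℕ → ℕ) (w MK : ℕ) (hMK : MK < 2 ^ 4096) : ∀ (n S : ℕ),
    tb VV f w MK n S < 2 ^ (4096 * n) := by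
  intro n
  induction n with
  | zero =>
    intro S
    show (0 : ℕ) < _
    simp
  | succ n ih =>
    intro S
    have e : tb VV f w MK (n + 1) S = Nat.add (Nat.shiftLeft (tb VV f w MK n (Nat.shiftRight S w))
      4096) (Nat.land (VV (f S)) MK) := rfl
    rw [e, nadd, nshl]
    have h1 := ih (Nat.shiftRight S w)
    have h2 : Nat.land (VV (f S)) MK < 2 ^ 4096 := lt_of_le_of_lt (land_le _ _) hMK
    have h3 : 2 ^ (4096 * (n + 1)) = 2 ^ (4096 * n) * 2 ^ 4096 := by
      rw [mul_add, mul_one, pow_add]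
    rw [h3]
    generalize tb VV f w MK n (Nat.shiftRight S w) = t at *
    generalize Nat.land (VV (f S)) MK = u at *
    generalize 2 ^ (4096 * n) = N at *
    generalize 2 ^ 4096 = M at *
    calc t * M + u < t * M + M := by omega
      _ = (t + 1) * M := by ring
      _ ≤ N * M := Nat.mul_le_mul_right _ h1

/-- the entries of a table -/
lemma tb_get (VV f : ℕ → ℕ) (w MK m : ℕ) (hMK : MK = 2 ^ m - 1) (hm : m ≤ 4096) :
    ∀ (n S a : ℕ), a < n →
    Nat.land (Nat.shiftRight (tb VV f w MK n S) (4096 * a)) MK =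
      Nat.land (VV (f (S / 2 ^ (w * a)))) MK := by
  have hMK' : MK < 2 ^ 4096 := by
    have h1 : 2 ^ m ≤ 2 ^ 4096 := Nat.pow_le_pow_right (by norm_num) hm
    have h2 : 0 < 2 ^ m := by positivity
    rw [hMK]
    generalize 2 ^ m = M at *
    generalize 2 ^ 4096 = N at *
    omega
  intro n
  induction n with
  | zero =>
    intro S a ha
    exact absurd ha (Nat.not_lt_zero a)
  | succ n ih =>
    intro S a ha
    have e : tb VV f w MK (n + 1) S = Nat.add (Nat.shiftLeft (tb VV f w MK n (Nat.shiftRight S w))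
      4096) (Nat.land (VV (f S)) MK) := rfl
    have h2 : Nat.land (VV (f S)) MK < 2 ^ 4096 := lt_of_le_of_lt (land_le _ _) hMK'
    cases a with
    | zero =>
      rw [e, nadd, nshl, nshr, mul_zero, mul_zero, pow_zero, Nat.div_one, Nat.div_one, hMK,
        land_full, land_full]
      have h3 : (tb VV f w (2 ^ m - 1) n (Nat.shiftRight S w)) * 2 ^ 4096 =
          2 ^ m * ((tb VV f w (2 ^ m - 1) n (Nat.shiftRight S w)) * 2 ^ (4096 - m)) := by
        rw [mul_comm (2 ^ m), mul_assoc, ← pow_add, Nat.sub_add_cancel hm]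
      rw [h3, Nat.mul_add_mod, Nat.mod_mod]
    | succ a =>
      rw [e, nadd, nshl, nshr, show 4096 * (a + 1) = 4096 + 4096 * a by ring, pow_add,
        ← Nat.div_div_eq_div_mul]
      have h4 : (tb VV f w MK n (Nat.shiftRight S w) * 2 ^ 4096 + Nat.land (VV (f S)) MK) /
          2 ^ 4096 = tb VV f w MK n (Nat.shiftRight S w) := by
        rw [mul_comm, Nat.mul_add_div (by positivity), Nat.div_eq_of_lt h2, add_zero]
      rw [h4, ← nshr, ih (Nat.shiftRight S w) a (by omega), nshr, Nat.div_div_eq_div_mul,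
        ← pow_add, show w + w * a = w * (a + 1) by ring]

/-- beyond the table -/
lemma tb_zero (VV f : ℕ → ℕ) (w MK : ℕ) (hMK : MK < 2 ^ 4096) (n S a : ℕ) (ha : n ≤ a) :
    Nat.land (Nat.shiftRight (tb VV f w MK n S) (4096 * a)) MK = 0 := by
  have h1 := tb_lt VV f w MK hMK n S
  have h2 : 2 ^ (4096 * n) ≤ 2 ^ (4096 * a) :=
    Nat.pow_le_pow_right (by norm_num) (Nat.mul_le_mul_left _ ha)
  rw [nshr, Nat.div_eq_of_lt (lt_of_lt_of_le h1 h2), nland]
  exact Nat.zero_and _

/-- the numbers modulo a power of `2 ^ 96` -/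
lemma rp_mask {fs ds : List FD} {X MK : ℕ} {v : FD → ℤ} (hMK : MK = 2 ^ (96 * fs.length) - 1)
    (h : Rp (fs ++ ds) X v) : Rp fs (Nat.land X MK) v := by
  rw [hMK, land_full]
  exact h.pre.mod

/-- the indices of the outer points -/
lemma uc_true {nF : ℕ} : ∀ {n S : ℕ}, uc nF n S = true → ∀ j < n,
    Nat.land (S / 2 ^ (9 * j)) 511 < nF := by
  intro n
  induction n with
  | zero =>
    intro S _ j hj
    exact absurd hj (Nat.not_lt_zero j)
  | succ n ih =>
    intro S h j hj
    obtain ⟨h1, h2⟩ := br h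
    cases j with
    | zero =>
      rw [mul_zero, pow_zero, Nat.div_one]
      exact Nat.le_of_ble_eq_true h2
    | succ j =>
      have h3 := ih h1 j (by omega)
      rw [nshr, Nat.div_div_eq_div_mul, ← pow_add, show 9 + 9 * j = 9 * (j + 1) by ring] at h3
      exact h3

end Pool.Agent.Lib.MP_5e7226_co.C8.TP
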