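import Pool.Agent.Lib.MP_5e7226_co.C8.TPS

/-!
# Compact certificates: soundness, second part: cones
-/

set_option autoImplicit false

open Set

namespace Pool.Agent.Lib.MP_5e7226_co.C8.TP

open GB C8.TF

/-- the packed number `E'` belongs to the corner `(x, y, z)`; the part of `E'` above `T` bounds the
coordinates -/
structure V (hs : List FD) (T E' : ℕ) (x y z : ℤ) : Prop where
  rep : Rp hs E' (fun h => dz h x y z)
  bd : ∃ b : ℕ, |x| ≤ b ∧ |y| ≤ b ∧ |z| ≤ b ∧ b * T ≤ E'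

lemma V.comb {hs : List FD} {T E1 E2 : ℕ} {x y z x' y' z' : ℤ} (h : V hs T E1 x y z)
    (h' : V hs T E2 x' y' z') (α β : ℕ) : V hs T (Nat.add (Nat.mul α E1) (Nat.mul β E2))
      (α * x + β * x') (α * y + β * y') (α * z + β * z') := by
  obtain ⟨b, h1, h2, h3, h4⟩ := h.bd
  obtain ⟨b', h1', h2', h3', h4'⟩ := h'.bd
  refine ⟨?_, α * b + β * b', ?_, ?_, ?_, ?_⟩
  · refine ((h.rep.mul α).add (h'.rep.mul β)).congr (fun f _ => ?_)
    simp only [dz]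
    ring
  · push_cast
    calc |(α : ℤ) * x + β * x'| ≤ |(α : ℤ) * x| + |(β : ℤ) * x'| := abs_add_le _ _
      _ = α * |x| + β * |x'| := by rw [abs_mul, abs_mul, Nat.abs_cast, Nat.abs_cast]
      _ ≤ α * b + β * b' := by gcongr
  · push_cast
    calc |(α : ℤ) * y + β * y'| ≤ |(α : ℤ) * y| + |(β : ℤ) * y'| := abs_add_le _ _
      _ = α * |y| + β * |y'| := by rw [abs_mul, abs_mul, Nat.abs_cast, Nat.abs_cast]
      _ ≤ α * b + β * b' := by gcongr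
  · push_cast
    calc |(α : ℤ) * z + β * z'| ≤ |(α : ℤ) * z| + |(β : ℤ) * z'| := abs_add_le _ _
      _ = α * |z| + β * |z'| := by rw [abs_mul, abs_mul, Nat.abs_cast, Nat.abs_cast]
      _ ≤ α * b + β * b' := by gcongr
  · rw [nadd, nmul, nmul]
    calc (α * b + β * b') * T = α * (b * T) + β * (b' * T) := by ring
      _ ≤ α * E1 + β * E2 := by gcongr

/-- the test of a union -/
def Ok (M1 BA U : ℕ) : Prop := Nat.land U M1 = 0 ∧ U < BA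

lemma ok_lor {M1 BA a b : ℕ} (h : Ok M1 BA (Nat.lor a b)) : Ok M1 BA a ∧ Ok M1 BA b := by
  obtain ⟨h1, h2⟩ := h
  rw [nland, nlor] at h1
  rw [nlor] at h2
  have e : ∀ i, ((a.testBit i || b.testBit i) && M1.testBit i) = false := by
    intro i
    have := congrArg (fun n => n.testBit i) h1
    simpa only [Nat.testBit_and, Nat.testBit_or, Nat.zero_testBit] using this
  refine ⟨⟨?_, lt_of_le_of_lt Nat.left_le_or h2⟩, ⟨?_, lt_of_le_of_lt Nat.right_le_or h2⟩⟩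
  · rw [nland]
    apply Nat.eq_of_testBit_eq
    intro i
    have := e i
    rw [Nat.testBit_and, Nat.zero_testBit]
    revert this
    cases a.testBit i <;> cases b.testBit i <;> cases M1.testBit i <;> simp
  · rw [nland]
    apply Nat.eq_of_testBit_eq
    intro i
    have := e i
    rw [Nat.testBit_and, Nat.zero_testBit]
    revert this
    cases a.testBit i <;> cases b.testBit i <;> cases M1.testBit i <;> simp

/-- the data of a leaf are correct; `BA` is the bound of the union -/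
structure Cd (R P nf nd' nu M1 BA CL NC A0 A1 RC WT FT MK T : ℕ) (n W : ℕ) (K : List ℕ)
    (fs ds : List FD) (L : Set E) : Prop where
  fac : Fac K fs
  bd : ∀ h ∈ fs ++ ds, FB h
  conv : Convex ℝ L
  sub : KS K ⊆ L
  lenf : fs.length = nf
  lend : ds.length = nd'
  nf1 : 1 ≤ nf
  nd1 : 1 ≤ nd'
  nu1 : 1 ≤ nu
  hR : R = 4096 * P
  P1 : 0 < P
  P2 : P ≤ 128
  hBA : BA = T * 4294967296
  hM1 : M1 = pk (fun _ => 39614081257132168796771975168) fs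
  hCL : Rp (fs ++ ds) CL (fun h => 2 ^ 95 - R * h.c)
  hNC : Rp (fs ++ ds) NC (fun h => -(R * h.c))
  hA0 : Rp fs A0 (fun h => 2 ^ 95 + 1024 * R * h.c)
  hA1 : Rp fs A1 (fun h => 2 ^ 95 + 262144 * R * h.c)
  hW : ∀ a, Rp fs (Nat.land (Nat.shiftRight WT (4096 * a)) MK)
    (fun h => -(P * dz h (wv (Wl n W) a).1 (wv (Wl n W) a).2.1 (wv (Wl n W) a).2.2))
  hF : ∀ f < nu, ∃ p, rp p ∉ L ∧ Rp fs (Nat.land (Nat.shiftRight FT (4096 * f)) MK)
    (fun h => -(1024 * R * dz h (ix p) (iy p) (iz p)))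
  dead : ∀ h ∈ ds, Dead L {z | (h.c : ℝ) ≤ nr h ⬝ᵥ z}

section cones

variable {R P nf nd' nu M1 BA CL NC A0 A1 RC WT FT MK T n W : ℕ} {K : List ℕ}
    {fs ds : List FD} {L : Set E} {J : Set (E × Set E)}

lemma Cd.R1 (h : Cd R P nf nd' nu M1 BA CL NC A0 A1 RC WT FT MK T n W K fs ds L) : 0 < R := by
  have := h.hR
  have := h.P1
  omega

lemma Cd.R2 (h : Cd R P nf nd' nu M1 BA CL NC A0 A1 RC WT FT MK T n W K fs ds L) :
    R ≤ 524288 := by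
  have := h.hR
  have := h.P2
  omega

lemma Cd.zeroL (h : Cd R P nf nd' nu M1 BA CL NC A0 A1 RC WT FT MK T n W K fs ds L) :
    (0 : E) ∈ L := convexHull_min h.sub h.conv h.fac.zero

lemma Cd.ne (h : Cd R P nf nd' nu M1 BA CL NC A0 A1 RC WT FT MK T n W K fs ds L) :
    (KS K).Nonempty := by
  have hint := h.fac.zero_int
  rw [nonempty_iff_ne_empty]
  intro he
  rw [he] at hint
  simp at hint

lemma Cd.pos (h : Cd R P nf nd' nu M1 BA CL NC A0 A1 RC WT FT MK T n W K fs ds L) {r : ℕ}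
    (hr : 0 < r) : (0 : ℝ) < (r : ℝ) / R := by
  have h1 : (0 : ℝ) < r := by exact_mod_cast hr
  have h2 : (0 : ℝ) < R := by exact_mod_cast h.R1
  positivity

/-- the radius is bounded -/
lemma Cd.far (h : Cd R P nf nd' nu M1 BA CL NC A0 A1 RC WT FT MK T n W K fs ds L) {r b E' X : ℕ}
    (hb : b * T ≤ E') (hX : r * E' ≤ X) (ho : X < BA) : r * b ≤ 4294967295 := by
  have hB := h.hBA
  by_contra hc
  push Not at hc
  have h1 : 4294967296 * T ≤ r * b * T := Nat.mul_le_mul_right _ hc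
  have h2 : r * b * T ≤ r * E' := by rw [mul_assoc]; exact Nat.mul_le_mul_left _ hb
  rw [hB, mul_comm T] at ho
  omega

lemma litX_ge (CL W r s E' : ℕ) : r * E' ≤ litX CL W r s E' := by
  have : litX CL W r s E' = CL + r * E' + s * W := rfl
  omega

lemma lit_core (h : Cd R P nf nd' nu M1 BA CL NC A0 A1 RC WT FT MK T n W K fs ds L)
    {a r s E' : ℕ} {x y z : ℤ} (v : V (fs ++ ds) T E' x y z) (hs : s < 2 ^ 18)
    (ht : Ok M1 BA (litX CL (Nat.land (Nat.shiftRight WT (4096 * a)) MK) r s E')) :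
    Lit (KS K) (rvt (wv (Wl n W) a)) (((r : ℝ) / R) • rv x y z) ∧
      ∃ b : ℕ, |x| ≤ b ∧ |y| ≤ b ∧ |z| ≤ b ∧ r * b ≤ 4294967295 := by
  obtain ⟨b, b1, b2, b3, hb⟩ := v.bd
  obtain ⟨h1, h2⟩ := ht
  rw [nland, h.hM1] at h1
  have hc := clear_of_mask h1
  have hr := h.far hb (litX_ge _ _ r s E') h2
  obtain ⟨w1, w2, w3⟩ := wv_bd (Wl n W) a
  exact ⟨lit_sound h.fac h.hR h.P1 h.P2 h.hCL (h.hW a) v.rep hr hs b1 b2 b3 w1 w2 w3 hc,
    b, b1, b2, b3, hr⟩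

/-- three lit corners -/
lemma lit_core3 (h : Cd R P nf nd' nu M1 BA CL NC A0 A1 RC WT FT MK T n W K fs ds L)
    {a r1 r2 r3 s1 s2 s3 E1 E2 E3 : ℕ} {x1 y1 z1 x2 y2 z2 x3 y3 z3 : ℤ}
    (v1 : V (fs ++ ds) T E1 x1 y1 z1) (v2 : V (fs ++ ds) T E2 x2 y2 z2)
    (v3 : V (fs ++ ds) T E3 x3 y3 z3) (hs1 : s1 < 2 ^ 18) (hs2 : s2 < 2 ^ 18) (hs3 : s3 < 2 ^ 18)
    (ht : Ok M1 BA (Nat.lor (Nat.lor
      (litX CL (Nat.land (Nat.shiftRight WT (4096 * a)) MK) r1 s1 E1)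
      (litX CL (Nat.land (Nat.shiftRight WT (4096 * a)) MK) r2 s2 E2))
      (litX CL (Nat.land (Nat.shiftRight WT (4096 * a)) MK) r3 s3 E3))) :
    (∀ x ∈ L, x ∈ convexHull ℝ {0, ((r1 : ℝ) / R) • rv x1 y1 z1,
      ((r2 : ℝ) / R) • rv x2 y2 z2, ((r3 : ℝ) / R) • rv x3 y3 z3} →
      Phi (Wf n (Wl n W)) J L x) ∧
    (∃ b : ℕ, |x1| ≤ b ∧ |y1| ≤ b ∧ |z1| ≤ b ∧ r1 * b ≤ 4294967295) ∧
    (∃ b : ℕ, |x2| ≤ b ∧ |y2| ≤ b ∧ |z2| ≤ b ∧ r2 * b ≤ 4294967295) ∧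
    (∃ b : ℕ, |x3| ≤ b ∧ |y3| ≤ b ∧ |z3| ≤ b ∧ r3 * b ≤ 4294967295) := by
  obtain ⟨ht, t3⟩ := ok_lor ht
  obtain ⟨t1, t2⟩ := ok_lor ht
  obtain ⟨l1, m1⟩ := lit_core h v1 hs1 t1
  obtain ⟨l2, m2⟩ := lit_core h v2 hs2 t2
  obtain ⟨l3, m3⟩ := lit_core h v3 hs3 t3
  refine ⟨?_, m1, m2, m3⟩
  intro x _ hx
  have h5 := hull4 (lit_convex (KS K) (rvt (wv (Wl n W) a))) (lit_zero h.fac.zero_int _) l1 l2 l3
    hx
  exact Or.inl (phi_lit h.conv h.sub (wl_len n W).le h5)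

/-- the check of a cone is correct -/
structure Snd (hs : List FD) (L : Set E) (Φ : E → Prop) (T M1 BA : ℕ) (X : DT) : Prop where
  out : ∀ {E1 E2 E3 S : ℕ} {k : ℕ → ℕ} {x1 y1 z1 x2 y2 z2 x3 y3 z3 : ℤ},
    V hs T E1 x1 y1 z1 → V hs T E2 x2 y2 z2 → V hs T E3 x3 y3 z3 →
    Ok M1 BA (X E1 E2 E3 S k) →
    Cn L Φ (rv x1 y1 z1) (rv x2 y2 z2) (rv x3 y3 z3) ∧ ∃ S', Ok M1 BA (k S')

/-- the number of times an entry fits -/
noncomputable def rq (RC H E' : ℕ) : ℕ := Nat.div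
    (Nat.land (Nat.shiftRight RC H) 79228162514264337593543950335)
    (Nat.land (Nat.shiftRight E' H) 79228162514264337593543950335)

lemma mask_zero {fs : List FD} (h1 : 1 ≤ fs.length) :
    (pk (fun _ => 39614081257132168796771975168) fs).testBit 95 = true := by
  have := mask_bit fs 0 h1
  simpa using this

/-- a cone with a triple, any positive radii -/
lemma d2_core (h : Cd R P nf nd' nu M1 BA CL NC A0 A1 RC WT FT MK T n W K fs ds L)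
    {a g r1 r2 r3 s1 s2 s3 E1 E2 E3 : ℕ} {x1 y1 z1 x2 y2 z2 x3 y3 z3 : ℤ}
    (v1 : V (fs ++ ds) T E1 x1 y1 z1) (v2 : V (fs ++ ds) T E2 x2 y2 z2)
    (v3 : V (fs ++ ds) T E3 x3 y3 z3) (hs1 : s1 < 2 ^ 18) (hs2 : s2 < 2 ^ 18) (hs3 : s3 < 2 ^ 18)
    (hg : g < nd') {k : ℕ}
    (ht : Ok M1 BA (d2 (CL + Nat.succ r1 * E1) (CL + Nat.succ r2 * E2) (CL + Nat.succ r3 * E3)
      (Nat.land (Nat.shiftRight WT (4096 * a)) MK) (96 * (nf + g)) s1 s2 s3 k)) :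
    Cn L (Phi (Wf n (Wl n W)) J L) (rv x1 y1 z1) (rv x2 y2 z2) (rv x3 y3 z3) ∧ Ok M1 BA k := by
  obtain ⟨ht, hk⟩ := ok_lor ht
  obtain ⟨ht, hd⟩ := ok_lor ht
  refine ⟨?_, hk⟩
  obtain ⟨hlit, ⟨b1, a1, a2, a3, hr1⟩, ⟨b2, q1, q2, q3, hr2⟩, ⟨b3, o1, o2, o3, hr3⟩⟩ :=
    lit_core3 (J := J) (a := a) (r1 := Nat.succ r1) (r2 := Nat.succ r2)
      (r3 := Nat.succ r3) h v1 v2 v3 hs1 hs2 hs3 ht
  have hg' : nf + g < (fs ++ ds).length := by
    rw [List.length_append, h.lenf, h.lend]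
    omega
  have hgd : (fs ++ ds)[nf + g] ∈ ds := by
    rw [List.getElem_append_right (by rw [h.lenf]; omega)]
    exact List.getElem_mem _
  have hbit : ∀ i, (Nat.shiftRight (Nat.land (Nat.land (CL + Nat.succ r1 * E1)
      (CL + Nat.succ r2 * E2)) (CL + Nat.succ r3 * E3)) (96 * (nf + g))).testBit i =
      (((CL + Nat.succ r1 * E1).testBit (96 * (nf + g) + i) &&
      (CL + Nat.succ r2 * E2).testBit (96 * (nf + g) + i)) &&
      (CL + Nat.succ r3 * E3).testBit (96 * (nf + g) + i)) := by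
    intro i
    rw [nland, nland, show ∀ a b, Nat.shiftRight a b = a >>> b from fun _ _ => rfl,
      Nat.testBit_shiftRight, Nat.testBit_and, Nat.testBit_and]
  have hb95 := congrArg (fun m => m.testBit 95) hd.1
  have e95 : (39614081257132168796771975168 : ℕ).testBit 95 = true := by decide +kernel
  have m95 : M1.testBit 95 = true := by
    rw [h.hM1]
    exact mask_zero (by rw [h.lenf]; exact h.nf1)
  simp only [nxor, Nat.zero_testBit] at hb95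
  rw [nland, Nat.testBit_and, Nat.testBit_xor, nland _ 39614081257132168796771975168,
    Nat.testBit_and, hbit, e95, m95] at hb95
  simp only [Bool.and_true, Bool.xor_true, Bool.not_eq_eq_eq_not, Bool.not_false,
    Bool.and_eq_true] at hb95
  obtain ⟨⟨c1, c2⟩, c3⟩ := hb95
  exact cn_base (h.pos (Nat.succ_pos _)) (h.pos (Nat.succ_pos _)) (h.pos (Nat.succ_pos _)) hlit
    (out_dead (h.pos (Nat.succ_pos _)) (h.pos (Nat.succ_pos _)) (h.pos (Nat.succ_pos _))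
      (h.dead _ hgd)
      (TR.dt_sound (b := b1) h.bd hg' h.R1 h.R2 h.hCL v1.rep hr1 a1 a2 a3 c1)
      (TR.dt_sound (b := b2) h.bd hg' h.R1 h.R2 h.hCL v2.rep hr2 q1 q2 q3 c2)
      (TR.dt_sound (b := b3) h.bd hg' h.R1 h.R2 h.hCL v3.rep hr3 o1 o2 o3 c3))

lemma d1_core (h : Cd R P nf nd' nu M1 BA CL NC A0 A1 RC WT FT MK T n W K fs ds L)
    {a g s1 s2 s3 E1 E2 E3 : ℕ} {x1 y1 z1 x2 y2 z2 x3 y3 z3 : ℤ}
    (v1 : V (fs ++ ds) T E1 x1 y1 z1) (v2 : V (fs ++ ds) T E2 x2 y2 z2)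
    (v3 : V (fs ++ ds) T E3 x3 y3 z3) (hs1 : s1 < 2 ^ 18) (hs2 : s2 < 2 ^ 18) (hs3 : s3 < 2 ^ 18)
    (hg : g < nd') {k : ℕ}
    (ht : Ok M1 BA (d1 RC CL (Nat.land (Nat.shiftRight WT (4096 * a)) MK) (96 * (nf + g))
      E1 E2 E3 s1 s2 s3 k)) :
    Cn L (Phi (Wf n (Wl n W)) J L) (rv x1 y1 z1) (rv x2 y2 z2) (rv x3 y3 z3) ∧ Ok M1 BA k :=
  d2_core (J := J) h v1 v2 v3 hs1 hs2 hs3 hg (r1 := rq RC (96 * (nf + g)) E1)
    (r2 := rq RC (96 * (nf + g)) E2) (r3 := rq RC (96 * (nf + g)) E3) ht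

lemma m18 (x : ℕ) : Nat.land x 262143 < 2 ^ 18 := lt_of_le_of_lt (land_le _ _) (by norm_num)

lemma m12 (x : ℕ) : Nat.land x 4088 < 2 ^ 18 := lt_of_le_of_lt (land_le _ _) (by norm_num)

lemma sh15 (x : ℕ) : ∃ a, Nat.land x 61440 = 4096 * a := by
  refine ⟨Nat.land (Nat.shiftRight x 12) 15, ?_⟩
  rw [← land_field, show Nat.shiftLeft 15 12 = 61440 from rfl]

lemma gm_lt (x : ℕ) (h1 : 1 ≤ nd') : Nat.land x (Nat.sub nd' 1) < nd' := by
  have := land_le x (Nat.sub nd' 1)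
  rw [nsub] at *
  omega

lemma tD_sound (h : Cd R P nf nd' nu M1 BA CL NC A0 A1 RC WT FT MK T n W K fs ds L) :
    Snd (fs ++ ds) L (Phi (Wf n (Wl n W)) J L) T M1 BA
      (tD (Nat.mul 96 nf) (Nat.sub nd' 1) RC CL WT MK) := by
  refine ⟨?_⟩
  intro E1 E2 E3 S k x1 y1 z1 x2 y2 z2 x3 y3 z3 v1 v2 v3 ht
  obtain ⟨a, ha⟩ := sh15 (Nat.shiftRight S 22)
  have ht' : Ok M1 BA (d1 RC CL (Nat.land (Nat.shiftRight WT (4096 * a)) MK)
      (96 * (nf + Nat.land (Nat.shiftRight S 2) (Nat.sub nd' 1))) E1 E2 E3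
      (Nat.land (Nat.shiftRight S 4) 4088) (Nat.land (Nat.shiftRight S 13) 4088)
      (Nat.land (Nat.shiftRight S 22) 4088) (k (Nat.shiftRight S 38))) := by
    rw [← ha, mul_add]
    exact ht
  obtain ⟨h1, h2⟩ := d1_core (J := J) h v1 v2 v3 (m12 _) (m12 _) (m12 _) (gm_lt _ h.nd1) ht'
  exact ⟨h1, _, h2⟩

lemma tE_sound (h : Cd R P nf nd' nu M1 BA CL NC A0 A1 RC WT FT MK T n W K fs ds L) :
    Snd (fs ++ ds) L (Phi (Wf n (Wl n W)) J L) T M1 BA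
      (tE (Nat.mul 96 nf) (Nat.sub nd' 1) CL WT MK) := by
  refine ⟨?_⟩
  intro E1 E2 E3 S k x1 y1 z1 x2 y2 z2 x3 y3 z3 v1 v2 v3 ht
  obtain ⟨a, ha⟩ := sh15 (Nat.shiftRight S 145)
  have ht' : Ok M1 BA (d2 (CL + Nat.succ (Nat.land (Nat.shiftRight S 13) 1073741823) * E1)
      (CL + Nat.succ (Nat.land (Nat.shiftRight S 61) 1073741823) * E2)
      (CL + Nat.succ (Nat.land (Nat.shiftRight S 109) 1073741823) * E3)
      (Nat.land (Nat.shiftRight WT (4096 * a)) MK)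
      (96 * (nf + Nat.land (Nat.shiftRight S 6) (Nat.sub nd' 1)))
      (Nat.land (Nat.shiftRight S 43) 262143) (Nat.land (Nat.shiftRight S 91) 262143)
      (Nat.land (Nat.shiftRight S 139) 262143) (k (Nat.shiftRight S 161))) := by
    rw [← ha, mul_add]
    exact ht
  obtain ⟨h1, h2⟩ := d2_core (J := J) h v1 v2 v3 (m18 _) (m18 _) (m18 _) (gm_lt _ h.nd1) ht'
  exact ⟨h1, _, h2⟩

lemma n2_core (h : Cd R P nf nd' nu M1 BA CL NC A0 A1 RC WT FT MK T n W K fs ds L)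
    {a D A r1 r2 r3 l1 l2 l3 s1 s2 s3 E1 E2 E3 p : ℕ} {x1 y1 z1 x2 y2 z2 x3 y3 z3 : ℤ}
    (v1 : V (fs ++ ds) T E1 x1 y1 z1) (v2 : V (fs ++ ds) T E2 x2 y2 z2)
    (v3 : V (fs ++ ds) T E3 x3 y3 z3) (hs1 : s1 < 2 ^ 18) (hs2 : s2 < 2 ^ 18) (hs3 : s3 < 2 ^ 18)
    (hD : D ≤ 262144) (hl1 : l1 < D) (hl2 : l2 < D) (hl3 : l3 < D) (hp : rp p ∉ L)
    (hA : Rp fs A (fun h => 2 ^ 95 + D * R * (h.c - dz h (ix p) (iy p) (iz p)))) {k : ℕ}
    (ht : Ok M1 BA (n2 M1 CL NC (Nat.land (Nat.shiftRight WT (4096 * a)) MK) A (Nat.mul r1 E1)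
      (Nat.mul r2 E2) (Nat.mul r3 E3) l1 l2 l3 s1 s2 s3 k)) :
    Cn L (Phi (Wf n (Wl n W)) J L) (rv x1 y1 z1) (rv x2 y2 z2) (rv x3 y3 z3) ∧ Ok M1 BA k := by
  obtain ⟨ht, hk⟩ := ok_lor ht
  obtain ⟨ht, hd⟩ := ok_lor ht
  refine ⟨?_, hk⟩
  obtain ⟨hlit, ⟨b1, a1, a2, a3, hr1⟩, ⟨b2, q1, q2, q3, hr2⟩, ⟨b3, o1, o2, o3, hr3⟩⟩ :=
    lit_core3 (J := J) (a := a) (r1 := r1) (r2 := r2) (r3 := r3) h v1 v2 v3 hs1 hs2 hs3 ht
  have hbits : ∀ i, M1.testBit i = true → (A + l1 * (NC + r1 * E1)).testBit i = true ∧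
      (A + l2 * (NC + r2 * E2)).testBit i = true ∧ (A + l3 * (NC + r3 * E3)).testBit i = true := by
    intro i hi
    have hb := congrArg (fun m => m.testBit i) hd.1
    simp only [nxor, Nat.zero_testBit] at hb
    rw [nland, Nat.testBit_and, Nat.testBit_xor, nland _ M1, Nat.testBit_and, nland, nland,
      Nat.testBit_and, Nat.testBit_and, hi] at hb
    simp only [Bool.and_true, Bool.xor_true, Bool.not_eq_eq_eq_not, Bool.not_false,
      Bool.and_eq_true] at hb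
    exact ⟨hb.1.1, hb.1.2, hb.2⟩
  have hmb : ∀ g, g < fs.length → M1.testBit (96 * g + 95) = true := by
    intro g hg
    rw [h.hM1]
    exact mask_bit fs g hg
  have c1 : |ix p| ≤ 65536 := (ix_bd _).trans (by norm_num)
  have c2 : |iy p| ≤ 65536 := (iy_bd _).trans (by norm_num)
  have c3 : |iz p| ≤ 65536 := (iz_bd _).trans (by norm_num)
  have s1 := sh_sound (r := r1) (l := l1) h.fac h.R1 h.R2 hD hA h.hNC v1.rep hl1 hr1 a1 a2 a3
    c1 c2 c3 (fun g hg => (hbits _ (hmb g hg)).1)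
  have s2 := sh_sound (r := r2) (l := l2) h.fac h.R1 h.R2 hD hA h.hNC v2.rep hl2 hr2 q1 q2 q3
    c1 c2 c3 (fun g hg => (hbits _ (hmb g hg)).2.1)
  have s3 := sh_sound (r := r3) (l := l3) h.fac h.R1 h.R2 hD hA h.hNC v3.rep hl3 hr3 o1 o2 o3
    c1 c2 c3 (fun g hg => (hbits _ (hmb g hg)).2.2)
  have hpos : ∀ {r : ℕ} {u : E}, Shd (KS K) (rp p) (((r : ℝ) / R) • u) → 0 < r := by
    intro r u hu
    rcases Nat.eq_zero_or_pos r with rfl | hr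
    · exfalso
      apply hp
      have e : (((0 : ℕ) : ℝ) / R) • u = 0 := by simp
      rw [e] at hu
      exact convexHull_min (insert_subset h.zeroL h.sub) h.conv hu
    · exact hr
  have p1 := h.pos (hpos s1)
  have p2 := h.pos (hpos s2)
  have p3 := h.pos (hpos s3)
  exact cn_base p1 p2 p3 hlit
    (out_dead p1 p2 p3 (dead_shd h.conv h.sub h.ne h.zeroL hp) s1 s2 s3)

lemma nm_lt (x : ℕ) (h1 : 1 ≤ nu) : ∃ f < nu,
    Nat.land x (Nat.shiftLeft (Nat.sub nu 1) 12) = 4096 * f := by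
  refine ⟨Nat.land (Nat.shiftRight x 12) (Nat.sub nu 1), gm_lt _ h1, ?_⟩
  rw [land_field]

lemma m10 (x : ℕ) : Nat.land x 1023 < 1024 := lt_of_le_of_lt (land_le _ _) (by norm_num)

lemma m18' (x : ℕ) : Nat.land x 262143 < 262144 := lt_of_le_of_lt (land_le _ _) (by norm_num)

lemma tN_sound (h : Cd R P nf nd' nu M1 BA CL NC A0 A1 RC WT FT MK T n W K fs ds L) :
    Snd (fs ++ ds) L (Phi (Wf n (Wl n W)) J L) T M1 BA
      (tN (Nat.shiftLeft (Nat.sub nu 1) 12) M1 CL NC A0 WT FT MK) := by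
  refine ⟨?_⟩
  intro E1 E2 E3 S k x1 y1 z1 x2 y2 z2 x3 y3 z3 v1 v2 v3 ht
  obtain ⟨a, ha⟩ := sh15 (Nat.shiftRight S 110)
  obtain ⟨f, hf, hf'⟩ := nm_lt S h.nu1
  obtain ⟨p, hp, hpr⟩ := h.hF f hf
  have hA : Rp fs (Nat.add A0 (Nat.land (Nat.shiftRight FT (4096 * f)) MK))
      (fun h => 2 ^ 95 + (1024 : ℕ) * R * (h.c - dz h (ix p) (iy p) (iz p))) :=
    (h.hA0.add hpr).congr (fun f _ => by push_cast; ring)
  unfold tN at ht
  rw [ha, hf'] at ht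
  obtain ⟨h1, h2⟩ := n2_core (J := J) h v1 v2 v3 (m12 _) (m12 _) (m12 _) (by norm_num) (m10 _)
    (m10 _) (m10 _) hp hA ht
  exact ⟨h1, _, h2⟩

lemma tM_sound (h : Cd R P nf nd' nu M1 BA CL NC A0 A1 RC WT FT MK T n W K fs ds L) :
    Snd (fs ++ ds) L (Phi (Wf n (Wl n W)) J L) T M1 BA
      (tM (Nat.shiftLeft (Nat.sub nu 1) 12) M1 CL NC A1 WT FT MK) := by
  refine ⟨?_⟩
  intro E1 E2 E3 S k x1 y1 z1 x2 y2 z2 x3 y3 z3 v1 v2 v3 ht
  obtain ⟨a, ha⟩ := sh15 (Nat.shiftRight S 198)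
  obtain ⟨f, hf, hf'⟩ := nm_lt (Nat.shiftRight S 12) h.nu1
  obtain ⟨p, hp, hpr⟩ := h.hF f hf
  have hA : Rp fs (Nat.add A1 (Nat.mul 256 (Nat.land (Nat.shiftRight FT (4096 * f)) MK)))
      (fun h => 2 ^ 95 + (262144 : ℕ) * R * (h.c - dz h (ix p) (iy p) (iz p))) :=
    (h.hA1.add (hpr.mul 256)).congr (fun f _ => by push_cast; ring)
  unfold tM at ht
  rw [ha, hf'] at ht
  obtain ⟨h1, h2⟩ := n2_core (J := J) h v1 v2 v3 (m18 _) (m18 _) (m18 _) le_rfl (m18' _)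
    (m18' _) (m18' _) hp hA ht
  exact ⟨h1, _, h2⟩

end cones

end Pool.Agent.Lib.MP_5e7226_co.C8.TP
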