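import Pool.Agent.Lib.MP_5e7226_co.C8.TPS2

/-!
# Compact certificates: soundness, third part: trees of cones
-/

set_option autoImplicit false

open Set

namespace Pool.Agent.Lib.MP_5e7226_co.C8.TP

open GB C8.TF

/-- a recursor with a constant second case -/
lemma nrn {P : ℕ → Prop} {a : ℕ} {g : ℕ → ℕ} {m : ℕ}
    (h : P (@Nat.rec (fun _ => ℕ) a (fun t _ => g t) m)) : P a ∨ ∃ t, P (g t) := by
  cases m with
  | zero => exact Or.inl h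
  | succ t => exact Or.inr ⟨t, h⟩

section rec

variable {hs : List FD} {L : Set E} {Φ : E → Prop} {T M1 BA : ℕ}

lemma te_sound {TD TN : DT} (hD : Snd hs L Φ T M1 BA TD) (hN : Snd hs L Φ T M1 BA TN) :
    Snd hs L Φ T M1 BA (te TD TN) := by
  refine ⟨?_⟩
  intro E1 E2 E3 S k x1 y1 z1 x2 y2 z2 x3 y3 z3 v1 v2 v3 h
  rcases nrn (P := Ok M1 BA) h with h | ⟨t, h⟩
  · exact hD.out v1 v2 v3 h
  · exact hN.out v1 v2 v3 h

lemma tl_sound {TE TM : DT} (hD : Snd hs L Φ T M1 BA TE) (hN : Snd hs L Φ T M1 BA TM) :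
    Snd hs L Φ T M1 BA (tl TE TM) := by
  refine ⟨?_⟩
  intro E1 E2 E3 S k x1 y1 z1 x2 y2 z2 x3 y3 z3 v1 v2 v3 h
  rcases nrn (P := Ok M1 BA) h with h | ⟨t, h⟩
  · exact hD.out v1 v2 v3 h
  · exact hN.out v1 v2 v3 h

lemma nd_sound {X ih : DT} (hX : Snd hs L Φ T M1 BA X) (hi : Snd hs L Φ T M1 BA ih) :
    Snd hs L Φ T M1 BA (nd X ih) := by
  refine ⟨?_⟩
  intro E1 E2 E3 S k x1 y1 z1 x2 y2 z2 x3 y3 z3 v1 v2 v3 h
  rcases nrn (P := Ok M1 BA) h with h | ⟨t, h⟩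
  · exact hX.out v1 v2 v3 h
  · exact hi.out v1 v2 v3 h

variable {N : DT} (hN : Snd hs L Φ T M1 BA N)

include hN

lemma qa_sound {E1 E2 E3 α β S : ℕ} {k : ℕ → ℕ} {x1 y1 z1 x2 y2 z2 x3 y3 z3 : ℤ}
    (v1 : V hs T E1 x1 y1 z1) (v2 : V hs T E2 x2 y2 z2) (v3 : V hs T E3 x3 y3 z3)
    (ha : 0 < α) (hb : 0 < β)
    (h : Ok M1 BA (qa N E1 E2 E3 (Nat.add (Nat.mul α E1) (Nat.mul β E2)) S k)) :
    Cn L Φ (rv x1 y1 z1) (rv x2 y2 z2) (rv x3 y3 z3) ∧ ∃ S', Ok M1 BA (k S') := by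
  have ha' : (0 : ℝ) < α := by exact_mod_cast ha
  have hb' : (0 : ℝ) < β := by exact_mod_cast hb
  have vm := v1.comb v2 α β
  obtain ⟨c1, S', h⟩ := hN.out v1 vm v3 h
  obtain ⟨c2, h⟩ := hN.out vm v2 v3 h
  rw [rv_comb] at c1 c2
  exact ⟨cn_split1 ha' hb' rfl c1 c2, h⟩

lemma qb_sound {E1 E2 E3 α β S : ℕ} {k : ℕ → ℕ} {x1 y1 z1 x2 y2 z2 x3 y3 z3 : ℤ}
    (v1 : V hs T E1 x1 y1 z1) (v2 : V hs T E2 x2 y2 z2) (v3 : V hs T E3 x3 y3 z3)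
    (ha : 0 < α) (hb : 0 < β)
    (h : Ok M1 BA (qb N E1 E2 E3 (Nat.add (Nat.mul α E2) (Nat.mul β E3)) S k)) :
    Cn L Φ (rv x1 y1 z1) (rv x2 y2 z2) (rv x3 y3 z3) ∧ ∃ S', Ok M1 BA (k S') := by
  have ha' : (0 : ℝ) < α := by exact_mod_cast ha
  have hb' : (0 : ℝ) < β := by exact_mod_cast hb
  have vm := v2.comb v3 α β
  obtain ⟨c1, S', h⟩ := hN.out v1 v2 vm h
  obtain ⟨c2, h⟩ := hN.out v1 vm v3 h
  rw [rv_comb] at c1 c2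
  exact ⟨(cn_split1 ha' hb' rfl c1.rot.rot c2.rot.rot).rot, h⟩

lemma qc_sound {E1 E2 E3 α β S : ℕ} {k : ℕ → ℕ} {x1 y1 z1 x2 y2 z2 x3 y3 z3 : ℤ}
    (v1 : V hs T E1 x1 y1 z1) (v2 : V hs T E2 x2 y2 z2) (v3 : V hs T E3 x3 y3 z3)
    (ha : 0 < α) (hb : 0 < β)
    (h : Ok M1 BA (qc N E1 E2 E3 (Nat.add (Nat.mul α E3) (Nat.mul β E1)) S k)) :
    Cn L Φ (rv x1 y1 z1) (rv x2 y2 z2) (rv x3 y3 z3) ∧ ∃ S', Ok M1 BA (k S') := by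
  have ha' : (0 : ℝ) < α := by exact_mod_cast ha
  have hb' : (0 : ℝ) < β := by exact_mod_cast hb
  have vm := v3.comb v1 α β
  obtain ⟨c1, S', h⟩ := hN.out v1 v2 vm h
  obtain ⟨c2, h⟩ := hN.out vm v2 v3 h
  rw [rv_comb] at c1 c2
  exact ⟨(cn_split1 ha' hb' rfl c2.rot c1.rot).rot.rot, h⟩

lemma sw_sound {Y : DT} (hY : Snd hs L Φ T M1 BA Y) : Snd hs L Φ T M1 BA (sw Y N) := by
  refine ⟨?_⟩
  intro E1 E2 E3 S k x1 y1 z1 x2 y2 z2 x3 y3 z3 v1 v2 v3 h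
  rcases nrn (P := Ok M1 BA) h with h | ⟨t, h⟩
  · exact qa_sound hN v1 v2 v3 (Nat.succ_pos _) (Nat.succ_pos _) h
  rcases nrn (P := Ok M1 BA) h with h | ⟨t, h⟩
  · exact qb_sound hN v1 v2 v3 (Nat.succ_pos _) (Nat.succ_pos _) h
  rcases nrn (P := Ok M1 BA) h with h | ⟨t, h⟩
  · exact qc_sound hN v1 v2 v3 (Nat.succ_pos _) (Nat.succ_pos _) h
  · exact hY.out v1 v2 v3 h

lemma sp_sound {Y : DT} (hY : Snd hs L Φ T M1 BA Y) : Snd hs L Φ T M1 BA (sp Y N) := by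
  refine ⟨?_⟩
  intro E1 E2 E3 S k x1 y1 z1 x2 y2 z2 x3 y3 z3 v1 v2 v3 h
  rcases nrn (P := Ok M1 BA) h with h | ⟨t, h⟩
  · exact qa_sound hN v1 v2 v3 (Nat.succ_pos _) (Nat.succ_pos _) h
  rcases nrn (P := Ok M1 BA) h with h | ⟨t, h⟩
  · exact qb_sound hN v1 v2 v3 (Nat.succ_pos _) (Nat.succ_pos _) h
  rcases nrn (P := Ok M1 BA) h with h | ⟨t, h⟩
  · exact qc_sound hN v1 v2 v3 (Nat.succ_pos _) (Nat.succ_pos _) h
  · exact (sw_sound hN hY).out v1 v2 v3 h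

omit hN in
lemma gc_sound {X Y : DT} (hX : Snd hs L Φ T M1 BA X) (hY : Snd hs L Φ T M1 BA Y) (m : ℕ) :
    Snd hs L Φ T M1 BA (gc X Y BA m) := by
  induction m with
  | zero =>
    refine ⟨?_⟩
    intro E1 E2 E3 S k x1 y1 z1 x2 y2 z2 x3 y3 z3 v1 v2 v3 h
    exact absurd h.2 (lt_irrefl BA)
  | succ m ih => exact sp_sound (nd_sound hX ih) hY

omit hN in
/-- one octant -/
lemma oc_sound {X Y : DT} (hX : Snd hs L Φ T M1 BA X) (hY : Snd hs L Φ T M1 BA Y)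
    {E1 E2 E3 S : ℕ} {x1 y1 z1 x2 y2 z2 x3 y3 z3 : ℤ}
    (v1 : V hs T E1 x1 y1 z1) (v2 : V hs T E2 x2 y2 z2) (v3 : V hs T E3 x3 y3 z3)
    (h : Ok M1 BA (oc X Y BA E1 E2 E3 S)) :
    Cn L Φ (rv x1 y1 z1) (rv x2 y2 z2) (rv x3 y3 z3) :=
  ((nd_sound hX (gc_sound hX hY 64)).out v1 v2 v3 h).1

end rec

/-- a unit vector -/
lemma v_unit {hs : List FD} {T E' : ℕ} {x y z : ℤ} (hE : Rp hs E' (fun h => dz h x y z))
    (hT : Rp hs T (fun _ => 0)) (hx : |x| ≤ 1) (hy : |y| ≤ 1) (hz : |z| ≤ 1) :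
    V hs T (Nat.add T E') x y z :=
  ⟨(hT.add hE).congr (fun f _ => by ring), 1, by simpa using hx, by simpa using hy,
    by simpa using hz, by rw [nadd]; omega⟩

theorem o8_sound {hs : List FD} {L : Set E} {Φ : E → Prop} {T M1 BA : ℕ} {X Y : DT}
    (hX : Snd hs L Φ T M1 BA X) (hY : Snd hs L Φ T M1 BA Y) (hT : Rp hs T (fun _ => 0))
    {BI C0 C1 C2 C3 D1 D2 D3 : ℕ} (hn : Nu hs BI C0 C1 C2 C3 D1 D2 D3)
    {S0 S1 S2 S3 S4 S5 S6 S7 : ℕ}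
    (h : Ok M1 BA (o8 (oc X Y BA) (Nat.add T C1) (Nat.add T C2) (Nat.add T C3) (Nat.add T D1)
      (Nat.add T D2) (Nat.add T D3) S0 S1 S2 S3 S4 S5 S6 S7)) :
    ∀ x ∈ L, Φ x := by
  obtain ⟨h, k7⟩ := ok_lor h
  obtain ⟨h, k6⟩ := ok_lor h
  obtain ⟨h, k5⟩ := ok_lor h
  obtain ⟨h, k4⟩ := ok_lor h
  obtain ⟨h, k3⟩ := ok_lor h
  obtain ⟨h, k2⟩ := ok_lor h
  obtain ⟨k0, k1⟩ := ok_lor h
  have p1 : V hs T (Nat.add T C1) 1 0 0 := v_unit (hn.hC1.congr (fun f _ => by simp [dz])) hT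
    (by norm_num) (by norm_num) (by norm_num)
  have p2 : V hs T (Nat.add T C2) 0 1 0 := v_unit (hn.hC2.congr (fun f _ => by simp [dz])) hT
    (by norm_num) (by norm_num) (by norm_num)
  have p3 : V hs T (Nat.add T C3) 0 0 1 := v_unit (hn.hC3.congr (fun f _ => by simp [dz])) hT
    (by norm_num) (by norm_num) (by norm_num)
  have m1 : V hs T (Nat.add T D1) (-1) 0 0 := v_unit (hn.hD1.congr (fun f _ => by simp [dz])) hT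
    (by norm_num) (by norm_num) (by norm_num)
  have m2 : V hs T (Nat.add T D2) 0 (-1) 0 := v_unit (hn.hD2.congr (fun f _ => by simp [dz])) hT
    (by norm_num) (by norm_num) (by norm_num)
  have m3 : V hs T (Nat.add T D3) 0 0 (-1) := v_unit (hn.hD3.congr (fun f _ => by simp [dz])) hT
    (by norm_num) (by norm_num) (by norm_num)
  exact TR.oct (oc_sound hX hY p1 p2 p3 k0) (oc_sound hX hY m1 p2 p3 k1)
    (oc_sound hX hY p1 m2 p3 k2) (oc_sound hX hY m1 m2 p3 k3) (oc_sound hX hY p1 p2 m3 k4)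
    (oc_sound hX hY m1 p2 m3 k5) (oc_sound hX hY p1 m2 m3 k6) (oc_sound hX hY m1 m2 m3 k7)

lemma fin_true {M1 BA U : ℕ} (h : fin M1 BA U = true) : Ok M1 BA U := by
  obtain ⟨h1, h2⟩ := br h
  exact ⟨(beq_iff _ _).1 h1, Nat.le_of_ble_eq_true h2⟩

end Pool.Agent.Lib.MP_5e7226_co.C8.TP
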