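import Pool.Agent.Lib.MP_5e7226_co.C8.TPS3

/-!
# Compact certificates: soundness, fourth part: leaves and trees
-/

set_option autoImplicit false

open Set

namespace Pool.Agent.Lib.MP_5e7226_co.C8.TP

open GB C8.TF

lemma rp_zero (hs : List FD) : Rp hs 0 (fun _ => 0) := by
  have h1 := Rp.of_pk (hs := hs) (fun _ => 0)
  have e : pk (fun _ => 0) hs = 0 := by
    rw [pk_const]
    exact Nat.zero_mul _
  rw [e] at h1
  exact h1.congr (fun _ _ => by norm_num)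

lemma rp_top {hs : List FD} {m : ℕ} (hm : m = hs.length) :
    Rp hs (Nat.shiftLeft (Nat.shiftLeft 1 (Nat.mul 96 m)) 32) (fun _ => 0) := by
  have h1 := (rp_zero hs).neg (Y := 2 ^ (96 * hs.length)) rfl (Nat.zero_le _)
  rw [Nat.sub_zero] at h1
  rw [nshl, nshl, nmul, one_mul, hm, mul_comm]
  exact (h1.mul (2 ^ 32)).congr (fun _ _ => by simp)

lemma pt_div (W a : ℕ) : Nat.land (W / 2 ^ (48 * a)) 281474976710655 = pt W a := by
  have e : pt W a = Nat.land (Nat.shiftRight W (Nat.mul 48 a)) 281474976710655 := rfl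
  rw [e, nshr, nmul]

lemma wv_out {n W a : ℕ} (h : n ≤ a) : wv (Wl n W) a = (0, 0, 0) := by
  unfold wv
  rw [dif_neg (by rw [wl_len]; omega)]

/-- soundness of a leaf -/
theorem lf_sound {C : Set (Set E)} (hC : Frm C 17179869184) {n : ℕ} {K F : List ℕ}
    (h0 : (0 : E) ∈ convexHull ℝ (KS K))
    {H W S0 S1 S2 S3 S4 S5 S6 S7 : ℕ} (h : lf n K F H W S0 S1 S2 S3 S4 S5 S6 S7 = true) :
    ∀ L ∈ C, (tsG n K F []).Holds L → ∀ x ∈ L,
      Phi (Wf n (Wl n W)) (JQ []) L x := by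
  intro L hL hst
  obtain ⟨nf, hnf⟩ : ∃ nf, nf = Nat.land H 255 := ⟨_, rfl⟩
  obtain ⟨nd, hnd⟩ : ∃ nd, nd = Nat.land (Nat.shiftRight H 8) 127 := ⟨_, rfl⟩
  obtain ⟨nu, hnu⟩ : ∃ nu, nu = Nat.land (Nat.shiftRight H 18) 127 := ⟨_, rfl⟩
  obtain ⟨FC, hFC⟩ : ∃ FC, FC = Nat.shiftRight H 25 := ⟨_, rfl⟩
  obtain ⟨DC, hDC⟩ : ∃ DC, DC = Nat.shiftRight H (Nat.add 25 (Nat.mul 45 nf)) := ⟨_, rfl⟩
  obtain ⟨UF, hUF⟩ : ∃ UF, UF = Nat.shiftRight H (Nat.add (Nat.add 25 (Nat.mul 45 nf))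
    (Nat.mul 21 nd)) := ⟨_, rfl⟩
  obtain ⟨P, hPP⟩ : ∃ P, P = TR.pw H := ⟨_, rfl⟩
  have h' : l2 n P (ln K) (ln F) nf nd nu FC DC UF (tk K) (tk F) W
      (ap (fl (tk K) 0 45 nf FC) (fl (tk K) 17179869184 21 nd DC)) S0 S1 S2 S3 S4 S5 S6 S7 =
      true := by
    rw [hUF, hDC, hFC, hnf, hnd, hnu, hPP]
    exact h
  rw [ap_eq] at h'
  have hP1 : 0 < P := hPP ▸ TR.pw_pos H
  have hP2 : P ≤ 128 := hPP ▸ TR.pw_le H
  clear h hUF hDC hFC hnf hnd hnu hPP
  set fs := fl (tk K) 0 45 nf FC with hfs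
  set ds := fl (tk K) 17179869184 21 nd DC with hds
  have lenf : fs.length = nf := fl_len _ _ _ _ _
  have lend : ds.length = nd := fl_len _ _ _ _ _
  have hlen : Nat.add nf nd = (fs ++ ds).length := by rw [List.length_append, lenf, lend]; rfl
  have hbd : ∀ h ∈ fs ++ ds, FB h := by
    intro h hh
    rcases List.mem_append.1 hh with hh | hh
    · obtain ⟨j, _, rfl⟩ := fl_mem hh
      exact mkFD_bd (by norm_num)
    · obtain ⟨j, _, rfl⟩ := fl_mem hh
      exact mkFD_bd (by norm_num)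
  have hn := nu_of hbd hlen
  obtain ⟨MM, hMM⟩ : ∃ X, X = Nat.shiftLeft 1 (Nat.mul 96 (Nat.add nf nd)) := ⟨_, rfl⟩
  obtain ⟨BI, hBI⟩ : ∃ X, X = Nat.mul 39614081257132168796771975168 (on (Nat.add nf nd)) :=
    ⟨_, rfl⟩
  obtain ⟨C0, hC0⟩ : ∃ X, X = pf FD.c (fs ++ ds) := ⟨_, rfl⟩
  rw [← hMM] at hn
  obtain ⟨C1, hC1⟩ : ∃ X, X = Nat.add (pf FD.A1 (fs ++ ds)) (Nat.sub
    MM (pf FD.B1 (fs ++ ds))) := ⟨_, rfl⟩
  obtain ⟨C2, hC2⟩ : ∃ X, X = Nat.add (pf FD.A2 (fs ++ ds)) (Nat.sub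
    MM (pf FD.B2 (fs ++ ds))) := ⟨_, rfl⟩
  obtain ⟨C3, hC3⟩ : ∃ X, X = Nat.add (pf FD.A3 (fs ++ ds)) (Nat.sub
    MM (pf FD.B3 (fs ++ ds))) := ⟨_, rfl⟩
  obtain ⟨D1, hD1⟩ : ∃ X, X = Nat.add (pf FD.B1 (fs ++ ds)) (Nat.sub
    MM (pf FD.A1 (fs ++ ds))) := ⟨_, rfl⟩
  obtain ⟨D2, hD2⟩ : ∃ X, X = Nat.add (pf FD.B2 (fs ++ ds)) (Nat.sub
    MM (pf FD.A2 (fs ++ ds))) := ⟨_, rfl⟩
  obtain ⟨D3, hD3⟩ : ∃ X, X = Nat.add (pf FD.B3 (fs ++ ds)) (Nat.sub
    MM (pf FD.A3 (fs ++ ds))) := ⟨_, rfl⟩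
  rw [← hBI, ← hC0, ← hC1, ← hC2, ← hC3, ← hD1, ← hD2, ← hD3] at hn
  have h3 : l3 n P (ln K) (ln F) nf nd nu FC DC UF (tk K) (tk F) W
      (Nat.mul 39614081257132168796771975168 (on nf)) BI MM C0 C1 C2 C3 D1 D2 D3
      S0 S1 S2 S3 S4 S5 S6 S7 = true := by
    rw [hBI, hC0, hC1, hC2, hC3, hD1, hD2, hD3, hMM]
    exact h'
  clear h' hC0 hC1 hC2 hC3 hD1 hD2 hD3
  obtain ⟨R, hR⟩ : ∃ R, R = Nat.mul 4096 P := ⟨_, rfl⟩
  obtain ⟨K0, hK0⟩ : ∃ X, X = Nat.mul 32768 (Nat.add (Nat.add C1 C2) C3) := ⟨_, rfl⟩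
  obtain ⟨MK, hMK⟩ : ∃ X, X = Nat.sub (Nat.shiftLeft 1 (Nat.mul 96 nf)) 1 := ⟨_, rfl⟩
  obtain ⟨T, hT⟩ : ∃ X, X = Nat.shiftLeft MM 32 := ⟨_, rfl⟩
  obtain ⟨WT, hWT⟩ : ∃ X, X = tb (fun p => Nat.mul P (vn D1 D2 D3 K0 p))
    (fun S => Nat.land S 281474976710655) 48 MK n W := ⟨_, rfl⟩
  obtain ⟨FT, hFT⟩ : ∃ X, X = tb (fun p => Nat.mul (Nat.mul 1024 R) (vn D1 D2 D3 K0 p))
    (fun S => pt (tk F) (Nat.land S 511)) 9 MK nu UF := ⟨_, rfl⟩
  have h4 : l4 (ln K) (ln F) nf nd nu FC DC UF (tk K)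
      (Nat.mul 39614081257132168796771975168 (on nf)) BI
      (Nat.add C0 (Nat.mul 39614081257132168796771975167 (on (Nat.add nf nd))))
      (Nat.shiftLeft T 32) (Nat.mul 96 nf)
      (Nat.sub nd 1) (Nat.mul R C0)
      (Nat.add BI (Nat.mul R (Nat.sub MM C0))) (Nat.mul R (Nat.sub MM C0))
      (Nat.add BI (Nat.mul (Nat.mul 1024 R) C0))
      (Nat.add BI (Nat.mul (Nat.mul 262144 R) C0))
      (Nat.shiftLeft (Nat.sub nu 1) 12) WT FT MK
      (Nat.add T C1) (Nat.add T C2) (Nat.add T C3) (Nat.add T D1) (Nat.add T D2)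
      (Nat.add T D3) S0 S1 S2 S3 S4 S5 S6 S7 (vn D1 D2 D3 K0) = true := by
    rw [hWT, hFT, hT, hMK, hK0, hR]
    exact h3
  clear h3
  obtain ⟨h4, k1⟩ := br h4
  obtain ⟨h4, k2⟩ := br h4
  obtain ⟨h4, k6⟩ := br h4
  obtain ⟨h4, k7⟩ := br h4
  obtain ⟨h4, k8⟩ := br h4
  obtain ⟨h4, k3⟩ := br h4
  obtain ⟨h4, k4⟩ := br h4
  obtain ⟨h4, k5⟩ := br h4
  obtain ⟨h4, k9⟩ := br h4
  have k2' : 1 ≤ nf := Nat.le_of_ble_eq_true k2
  have k6' : nf ≤ 42 := Nat.le_of_ble_eq_true k6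
  have k7' : 1 ≤ nd := Nat.le_of_ble_eq_true k7
  have k8' : 1 ≤ nu := Nat.le_of_ble_eq_true k8
  -- the offsets are positive
  have hCC := hn.CC hlen
  have hpos : ∀ h ∈ fs ++ ds, 0 < h.c := by
    have e1 : BI = pk (fun _ => 39614081257132168796771975168) (fs ++ ds) := by
      rw [pk_const, hBI, hlen]; rfl
    rw [e1] at k5
    have k5' := set_of_mask ((beq_iff _ _).1 k5)
    have hs1 := sign_set hCC (fun f hf => by
      have a2 : (f.c : ℤ) < 2 ^ 56 := by exact_mod_cast (hbd f hf).c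
      have a3 : (0 : ℤ) ≤ f.c := Nat.cast_nonneg _
      constructor
      · norm_num; linarith
      · norm_num at a2 ⊢; linarith) k5'
    intro f hf
    have := hs1 f hf
    omega
  -- the facets
  have hfc := fc_true k4
  have hdc := dc_true k3
  have hV : ∀ k, Rp (fs ++ ds) (Nat.add (Nat.add C0 (Nat.mul 39614081257132168796771975167
      (on (Nat.add nf nd)))) (vn D1 D2 D3 K0 (pt (tk K) k))) (fun h => 2 ^ 95 +
      ((h.c : ℤ) - 1 - dz h (ix (pt (tk K) k)) (iy (pt (tk K) k)) (iz (pt (tk K) k)))) := by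
    intro k
    rw [hK0]
    refine (hCC.add (hn.K0 (pt (tk K) k))).congr (fun f _ => ?_)
    ring
  have hgood : ∀ h ∈ fs, FGood fs h := by
    intro h hh
    have hp := hpos h (List.mem_append_left _ hh)
    obtain ⟨j, hj, rfl⟩ := fl_mem hh
    obtain ⟨_, n1, n2, n3⟩ := hfc j hj
    exact ⟨hp, nb_facet hfs hbd hV n1, nb_facet hfs hbd hV n2, nb_facet hfs hbd hV n3⟩
  have hok : FctOk (fs.map toF) := by
    refine fctOk_of ?_ hgood ?_
    · intro he
      rw [he] at lenf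
      simp at lenf
      omega
    · intro h hh
      obtain ⟨j, _, rfl⟩ := fl_mem hh
      exact ⟨_, _, _, rfl⟩
  have h0' : (0 : E) ∈ convexHull ℝ (KS (md K)) := by rw [KS_md]; exact h0
  have hfac : Fac (md K) fs := by
    refine ⟨hok, fun h hh => hbd h (List.mem_append_left _ hh), fun h hh => ?_, h0'⟩
    obtain ⟨p, hp, q, hq, r, hr, rfl⟩ := fl_in hh (fun j hj => (hfc j hj).1)
    exact ⟨hp, hq, hr⟩
  have hsub : KS (md K) ⊆ L := by rw [KS_md]; exact hst.pts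
  have hout : ∀ f < ln F, rp (pt (tk F) f) ∉ L := by
    intro f hf
    rw [ln_eq] at hf
    rw [pt_tk F f hf, rp_mod]
    exact hst.out _ ⟨_, List.getElem_mem hf, rfl⟩
  have hdead : ∀ h ∈ ds, Dead L {z | (h.c : ℝ) ≤ nr h ⬝ᵥ z} := by
    intro h hh
    have hp := hpos h (List.mem_append_right _ hh)
    obtain ⟨p, h1, q, h2, r, h4, rfl⟩ := fl_in hh hdc
    exact hC.dead L hL p q r (hsub ⟨p, h1, rfl⟩) (hsub ⟨q, h2, rfl⟩) (hsub ⟨r, h4, rfl⟩) hp
  have hMK' : MK = 2 ^ (96 * nf) - 1 := by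
    rw [hMK, nshl, nmul, one_mul]
    rfl
  have hm : 96 * nf ≤ 4096 := by omega
  have hMKlt : MK < 2 ^ 4096 := by
    have h1 : 2 ^ (96 * nf) ≤ 2 ^ 4096 := Nat.pow_le_pow_right (by norm_num) hm
    have h2 : 0 < 2 ^ (96 * nf) := by positivity
    rw [hMK']
    generalize 2 ^ (96 * nf) = M at *
    generalize 2 ^ 4096 = N at *
    omega
  have hMKf : MK = 2 ^ (96 * fs.length) - 1 := by rw [lenf]; exact hMK'
  have hTr : Rp (fs ++ ds) T (fun _ => 0) := by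
    rw [hT, hMM]
    exact rp_top hlen
  have hMMe : MM = 2 ^ (96 * (fs ++ ds).length) := by
    rw [hMM, nshl, nmul, one_mul, hlen]
  have hNC : Rp (fs ++ ds) (Nat.mul R (Nat.sub MM C0)) (fun h => -(R * h.c)) := by
    refine ((hn.hC0.neg hMMe (by rw [hMMe]; exact hn.hC0le)).mul R).congr (fun f _ => ?_)
    ring
  have hcd : Cd R P nf nd nu (Nat.mul 39614081257132168796771975168 (on nf))
      (Nat.shiftLeft T 32) (Nat.add BI (Nat.mul R (Nat.sub MM C0)))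
      (Nat.mul R (Nat.sub MM C0)) (Nat.add BI (Nat.mul (Nat.mul 1024 R) C0))
      (Nat.add BI (Nat.mul (Nat.mul 262144 R) C0)) (Nat.mul R C0) WT FT MK T n W (md K)
      fs ds L := by
    refine ⟨hfac, hbd, hC.conv L hL, hsub, lenf, lend, k2', k7', k8', hR, hP1, hP2, ?_, ?_, ?_,
      hNC, ?_, ?_, fun a => ?_, fun f hf => ?_, hdead⟩
    · rw [nshl, show (2 : ℕ) ^ 32 = 4294967296 by norm_num]
    · rw [pk_const, lenf, nmul]
    · rw [hMM]
      exact TR.cl_rp hn hlen R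
    · refine ((hn.hBI.add (hn.hC0.mul (1024 * R))).congr (fun f _ => ?_)).pre
      push_cast
      ring
    · refine ((hn.hBI.add (hn.hC0.mul (262144 * R))).congr (fun f _ => ?_)).pre
      push_cast
      ring
    · rcases Nat.lt_or_ge a n with ha | ha
      · rw [hWT, tb_get _ _ 48 MK (96 * nf) hMK' hm n W a ha, wv_wl ha, pt_div]
        refine rp_mask (ds := ds) hMKf ?_
        rw [hK0]
        refine ((hn.K0 (pt W a)).mul P).congr (fun f _ => ?_)
        ring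
      · rw [hWT, tb_zero _ _ 48 MK hMKlt n W a ha, wv_out ha]
        exact (rp_zero fs).congr (fun f _ => by simp [dz])
    · refine ⟨pt (tk F) (Nat.land (UF / 2 ^ (9 * f)) 511), hout _ (uc_true k9 f hf), ?_⟩
      rw [hFT, tb_get _ _ 9 MK (96 * nf) hMK' hm nu UF f hf]
      refine rp_mask (ds := ds) hMKf ?_
      rw [hK0]
      refine ((hn.K0 _).mul (1024 * R)).congr (fun g _ => ?_)
      push_cast
      ring
  exact o8_sound (te_sound (tD_sound hcd) (tN_sound hcd))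
    (tl_sound (tE_sound hcd) (tM_sound hcd)) hTr hn (fin_true h4)

/-! ### trees -/

/-- soundness of the check -/
theorem cp_sound {P : Set E → Prop} {C : Set (Set E)} {n : ℕ} (hP : ∀ L, Illum L n → P L)
    (hn : 0 < n) (hC : Frm C 17179869184) {Z : ZT}
    (hZ : ZOK P C Z) {rs : List SG} (hrs : ∀ s ∈ rs, GQ P C (tsG n s.K s.F s.G))
    (t : TU) :
    ∀ (V : ℕ) (K F : List ℕ) (G : List UG), (0 : E) ∈ convexHull ℝ (KS K) →
      (cp n Z rs t false V K F G = true → GQ P C (tsG n K F G)) ∧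
      (cp n Z rs t true V K F G = true → ∀ g ∈ t.kd,
        GQ P C (tsG n (g.y :: K) F (⟨g.m, g.C, V⟩ :: G))) := by
  induction t with
  | q y a b ia ib =>
    intro V K F G h0
    constructor
    · intro h
      obtain ⟨h1, h2⟩ := br h
      exact gq_query y ((ia 0 (y :: K) F G (zero_cons h0 y)).1 h2)
        ((ib 0 K (y :: F) G h0).1 h1)
    · intro h
      exact absurd (show false = true from h) Bool.false_ne_true
  | l H W S0 S1 S2 S3 S4 S5 S6 S7 =>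
    intro V K F G h0
    constructor
    · intro h
      refine gq_cover (W := W) (J := JQ []) hP (fun L hL hs => ?_) hn ?_
      · refine lf_sound hC h0 h L hL ⟨hs.pts, hs.out, ?_⟩
        rintro f ⟨u, hu, _⟩
        simp at hu
      · rintro _ ⟨a, ha, rfl⟩
        simp at ha
    · intro h
      exact absurd (show false = true from h) Bool.false_ne_true
  | r i =>
    intro V K F G h0
    constructor
    · intro h
      obtain ⟨s, hs, h1, h2, h3⟩ := TR.mb_mem h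
      exact TR.gq_mono (hrs s hs) h1 h2 h3
    · intro h
      exact absurd (show false = true from h) Bool.false_ne_true
  | u H W S0 S1 S2 S3 S4 S5 S6 S7 c ic =>
    intro V K F G h0
    constructor
    · intro h
      obtain ⟨h1, h2⟩ := br h
      have hk := (ic W K F G h0).2 h1
      refine gq_cover (W := W) (J := JQ c.kd) hP (TR.cu_sound hC h0 h2) hn ?_
      rintro _ ⟨g, hg, rfl⟩ L hL hs hy ⟨x, hx, hxc, hxu⟩
      have hp : KS K ⊆ L := hs.pts
      refine hk g hg L hL ⟨?_, hs.out, ?_⟩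
      · show KS (g.y :: K) ⊆ L
        rw [KS_cons]
        exact insert_subset hy hp
      · rintro f ⟨g', hg', a, ha, rfl⟩
        rcases List.mem_cons.1 hg' with rfl | hg'
        · exact ⟨x, hx, hxc, hxu a ha⟩
        · exact hs.unlit _ ⟨g', hg', a, ha, rfl⟩
    · intro h
      exact absurd (show false = true from h) Bool.false_ne_true
  | e =>
    intro V K F G h0
    constructor
    · intro h
      exact absurd (show false = true from h) Bool.false_ne_true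
    · intro _ g hg
      have : g ∈ ([] : List KG) := hg
      simp at this
  | k y m C' a b ia ib =>
    intro V K F G h0
    constructor
    · intro h
      exact absurd (show false = true from h) Bool.false_ne_true
    · intro h g hg
      obtain ⟨h1, h2⟩ := br h
      have hg' : g ∈ (⟨y, m, C'⟩ : KG) :: b.kd := hg
      rcases List.mem_cons.1 hg' with rfl | hg'
      · exact (ia 0 (y :: K) F _ (zero_cons h0 y)).1 h2
      · exact (ib V K F G h0).2 h1 g hg'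
  | z H y e1 e2 e3 S0 S1 S2 S3 S4 S5 S6 S7 =>
    intro V K F G h0
    constructor
    · intro h L hL hs
      exact hZ K F H y e1 e2 e3 S0 S1 S2 S3 S4 S5 S6 S7 h h0 L hL hs.pts hs.out
    · intro h
      exact absurd (show false = true from h) Bool.false_ne_true

/-- an accepted certificate in the frame of the simplex -/
theorem gq_of_cp {P : Set E → Prop} {n : ℕ} (hP : ∀ L, Illum L n → P L) (hn : 0 < n)
    {Z : ZT} (hZ : ZOK P (simCls 1024) Z) {rs : List SG}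
    (hrs : ∀ s ∈ rs, GQ P (simCls 1024) (tsG n s.K s.F s.G)) {t : TU} {K F : List ℕ}
    {G : List UG} (h : cp n Z rs t false 0 K F G = true) (h4 : has4 K = true) :
    GQ P (simCls 1024) (tsG n K F G) :=
  (cp_sound hP hn frm_sim1024 hZ hrs t 0 K F G (zero_of_has4 h4)).1 h

/-- an accepted certificate in the frame of the simplex, illumination -/
theorem gi_of_cp {n : ℕ} (hn : 0 < n) {rs : List SG}
    (hrs : ∀ s ∈ rs, GQ (fun L => Illum L n) (simCls 1024) (tsG n s.K s.F s.G)) {t : TU}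
    {K F : List ℕ} {G : List UG} (h : cp n zn rs t false 0 K F G = true)
    (h4 : has4 K = true) :
    GQ (fun L => Illum L n) (simCls 1024) (tsG n K F G) :=
  gq_of_cp (fun _ h => h) hn (zn_ok _ _) hrs h h4

end Pool.Agent.Lib.MP_5e7226_co.C8.TP
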