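import Pool.Agent.Lib.MP_5e7226_co.C8.TFUS3

/-!
# Fast evaluation with a scale of the radii

The radii of a cover have the denominator `R = 4096 * 2 ^ e`, where `e` is in the header.
-/

set_option autoImplicit false

namespace Pool.Agent.Lib.MP_5e7226_co.C8.TR

open TF

/-- subdivision of an edge: the bounds and the packed values of the new corner -/
noncomputable def sp (b1 b2 E1 E2 al be : ℕ) (k : ℕ → ℕ → Bool) : Bool :=
  k (Nat.add (Nat.mul al b1) (Nat.mul be b2)) (Nat.add (Nat.mul al E1) (Nat.mul be E2))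

/-- subdivision of the edge `e` (`0`, `1`, other); `ih` is the check of the parts -/
noncomputable def sq (ih : DT) (e b1 b2 b3 E1 E2 E3 al be S : ℕ) (k : ℕ → Bool) : Bool :=
  @Nat.rec (fun _ => Bool)
    (sp b1 b2 E1 E2 al be (fun b m => ih b1 b b3 E1 m E3 S (fun S' => ih b b2 b3 m E2 E3 S' k)))
    (fun t _ => @Nat.rec (fun _ => Bool)
      (sp b2 b3 E2 E3 al be (fun b m => ih b1 b2 b E1 E2 m S (fun S' => ih b1 b b3 E1 m E3 S' k)))
      (fun _ _ =>
        (sp b3 b1 E3 E1 al be (fun b m => ih b1 b2 b E1 E2 m S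
          (fun S' => ih b b2 b3 m E2 E3 S' k)))) t) e

/-- the tree of cones; `TD`, `TX`, `TN` are the checks of the terminal cones -/
noncomputable def gc (TD TX TN : DT) (n : ℕ) : DT :=
  @Nat.rec (fun _ => DT)
    (fun _ _ _ _ _ _ _ _ => false)
    (fun _ ih b1 b2 b3 E1 E2 E3 S k =>
      @Nat.rec (fun _ => Bool)
        (TD b1 b2 b3 E1 E2 E3 (Nat.shiftRight S (nat_lit 3)) k)
        (fun t _ => @Nat.rec (fun _ => Bool)
          (TN b1 b2 b3 E1 E2 E3 (Nat.shiftRight S (nat_lit 3)) k)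
          (fun t _ => @Nat.rec (fun _ => Bool)
            (@Nat.rec (fun _ => Bool)
              (TX b1 b2 b3 E1 E2 E3 (Nat.shiftRight S (nat_lit 5)) k)
              (fun e _ => sq ih e b1 b2 b3 E1 E2 E3 (cs S (nat_lit 5) (nat_lit 2047))
                (cs S (nat_lit 16) (nat_lit 2047)) (Nat.shiftRight S (nat_lit 27)) k)
              (Nat.land (Nat.shiftRight S (nat_lit 3)) (nat_lit 3)))
            (fun e _ => sq ih e b1 b2 b3 E1 E2 E3 (cs S (nat_lit 3) (nat_lit 15))
                (cs S (nat_lit 7) (nat_lit 15)) (Nat.shiftRight S (nat_lit 11)) k)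
            t) t)
        (Nat.land S (nat_lit 7)))
    n

/-- one octant -/
noncomputable def oc (TD TX TN : DT) (E1 E2 E3 S : ℕ) : Bool :=
  gc TD TX TN (nat_lit 64) (nat_lit 1) (nat_lit 1) (nat_lit 1) E1 E2 E3 S (fun _ => true)

/-- eight octants -/
noncomputable def o8 (TD TX TN : DT) (C1 C2 C3 D1 D2 D3 S0 S1 S2 S3 S4 S5 S6 S7 : ℕ) : Bool :=
  (@Bool.rec (fun _ => Bool) false (@Bool.rec (fun _ => Bool) false (@Bool.rec (fun _ => Bool) false (@Bool.rec (fun _ => Bool) false (@Bool.rec (fun _ => Bool) false (@Bool.rec (fun _ => Bool) false (@Bool.rec (fun _ => Bool) false (oc TD TX TN D1 D2 D3 S7)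
    (oc TD TX TN C1 D2 D3 S6))
    (oc TD TX TN D1 C2 D3 S5))
    (oc TD TX TN C1 C2 D3 S4))
    (oc TD TX TN D1 D2 C3 S3))
    (oc TD TX TN C1 D2 C3 S2))
    (oc TD TX TN D1 C2 C3 S1))
    (oc TD TX TN C1 C2 C3 S0))

/-- the checks of a leaf with the packed numbers -/
noncomputable def l3 (n P nK nF nf nd FC DC TK TF W M1 BI C0 C1 C2 C3 D1 D2 D3 S0 S1 S2 S3 S4 S5 S6 S7 :
    ℕ) : Bool :=
  (fun K0 CC R => (fun VV CL CS =>
    (@Bool.rec (fun _ => Bool) false (@Bool.rec (fun _ => Bool) false (@Bool.rec (fun _ => Bool) false (@Bool.rec (fun _ => Bool) false (@Bool.rec (fun _ => Bool) false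
      (o8 (fun b1 b2 b3 E1 E2 E3 => tD n nf nd M1 BI R C0 CL (fun a => Nat.mul P (VV (pt W a)))
          (nat_lit 32767) (nat_lit 25) (nat_lit 40) (nat_lit 55) b1 b2 b3 E1 E2 E3)
        (fun b1 b2 b3 E1 E2 E3 => tD n nf nd M1 BI R C0 CL (fun a => Nat.mul P (VV (pt W a)))
          (nat_lit 262143) (nat_lit 28) (nat_lit 46) (nat_lit 64) b1 b2 b3 E1 E2 E3)
        (fun b1 b2 b3 E1 E2 E3 => tN n nF M1 CL CS (fun a => Nat.mul P (VV (pt W a)))
          (fun f => Nat.mul R (VV (pt TF f))) b1 b2 b3 E1 E2 E3)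
        C1 C2 C3 D1 D2 D3 S0 S1 S2 S3 S4 S5 S6 S7)
      (Nat.beq (Nat.land CC BI) BI))
      (fc FC nf nK (fun i => Nat.add CC (VV (pt TK i))) nf FC))
      (dc nK nd DC))
      (Nat.ble (nat_lit 1) nf))
      (Nat.ble (nat_lit 1) nK)))
    (fun p => vn D1 D2 D3 K0 p)
    (Nat.add BI (Nat.mul R
      (Nat.sub (Nat.shiftLeft (nat_lit 1) (Nat.mul (nat_lit 96) (Nat.add nf nd))) C0)))
    (Nat.add BI (Nat.mul (Nat.mul (nat_lit 4096) R) C0)))
    (Nat.mul (nat_lit 32768) (Nat.add (Nat.add C1 C2) C3))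
    (Nat.add C0 (Nat.mul (nat_lit 39614081257132168796771975167) (on (Nat.add nf nd))))
    (Nat.mul (nat_lit 4096) P)

/-- the packed numbers of a list of functionals -/
noncomputable def l2 (n P nK nF nf nd FC DC TK TF W : ℕ) (hs : List FD)
    (S0 S1 S2 S3 S4 S5 S6 S7 : ℕ) : Bool :=
  (fun MM A1 A2 A3 B1 B2 B3 =>
    l3 n P nK nF nf nd FC DC TK TF W
      (Nat.mul (nat_lit 39614081257132168796771975168) (on nf))
      (Nat.mul (nat_lit 39614081257132168796771975168) (on (Nat.add nf nd))) (pf FD.c hs)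
      (Nat.add A1 (Nat.sub MM B1)) (Nat.add A2 (Nat.sub MM B2)) (Nat.add A3 (Nat.sub MM B3))
      (Nat.add B1 (Nat.sub MM A1)) (Nat.add B2 (Nat.sub MM A2)) (Nat.add B3 (Nat.sub MM A3))
      S0 S1 S2 S3 S4 S5 S6 S7)
    (Nat.shiftLeft (nat_lit 1) (Nat.mul (nat_lit 96) (Nat.add nf nd)))
    (pf FD.A1 hs) (pf FD.A2 hs) (pf FD.A3 hs) (pf FD.B1 hs) (pf FD.B2 hs) (pf FD.B3 hs)

/-- a leaf: `H` has the number of facets (8 bits), the number of triples (7 bits), the scale
(3 bits), the facets and the triples -/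
noncomputable def lf (n : ℕ) (K F : List ℕ) (H W S0 S1 S2 S3 S4 S5 S6 S7 : ℕ) : Bool :=
  (fun nf nd TK => (fun FC DC =>
    l2 n (pw H) (ln K) (ln F) nf nd FC DC TK (tk F) W
      (ap (fl TK (nat_lit 0) (nat_lit 45) nf FC)
        (fl TK (nat_lit 17179869184) (nat_lit 21) nd DC)) S0 S1 S2 S3 S4 S5 S6 S7)
    (Nat.shiftRight H (nat_lit 18))
    (Nat.shiftRight H (Nat.add (nat_lit 18) (Nat.mul (nat_lit 45) nf))))
    (Nat.land H (nat_lit 255)) (Nat.land (Nat.shiftRight H (nat_lit 8)) (nat_lit 127)) (tk K)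

/-! ### facts and children -/

/-- the second list is a sublist of the first list, facts -/
noncomputable def sbG (m : List UG) : List UG → Bool :=
  @List.rec UG (fun _ => List UG → Bool)
    (fun l => @List.rec UG (fun _ => Bool) true (fun _ _ _ => false) l)
    (fun b _ ih l => @List.rec UG (fun _ => Bool) true
      (fun a l' _ => @Bool.rec (fun _ => Bool) (ih l) (ih l')
        (@Bool.rec (fun _ => Bool) false (@Bool.rec (fun _ => Bool) false (Nat.beq a.m b.m) (Nat.beq a.W b.W)) (Nat.beq a.C b.C))) l) m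

/-- the state with an index is weaker -/
noncomputable def mb (K F : List ℕ) (G : List UG) (l : List SG) : ℕ → Bool :=
  @List.rec SG (fun _ => ℕ → Bool) (fun _ => false)
    (fun s _ ih i => @Nat.rec (fun _ => Bool)
      (@Bool.rec (fun _ => Bool) false (@Bool.rec (fun _ => Bool) false (sbG G s.G) (sb F s.F)) (sb K s.K))
      (fun j _ => ih j) i) l

/-- the check of a tree; the second argument is `true` for lists of children, `V` are then the
directions of the cover -/
noncomputable def cw (n : ℕ) (Z : ZT) (rs : List SG) (t : TU) :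
    Bool → ℕ → List ℕ → List ℕ → List UG → Bool :=
  @TU.rec (fun _ => Bool → ℕ → List ℕ → List ℕ → List UG → Bool)
    (fun y _ _ ia ib md _ K F G => @Bool.rec (fun _ => Bool)
      (@Bool.rec (fun _ => Bool) false (ib false (nat_lit 0) K (y :: F) G) (ia false (nat_lit 0) (y :: K) F G)) false md)
    (fun H W S0 S1 S2 S3 S4 S5 S6 S7 md _ K F _ => @Bool.rec (fun _ => Bool)
      (lf n K F H W S0 S1 S2 S3 S4 S5 S6 S7) false md)
    (fun i md _ K F G => @Bool.rec (fun _ => Bool) (mb K F G rs i) false md)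
    (fun H W S0 S1 S2 S3 S4 S5 S6 S7 c ic md _ K F G => @Bool.rec (fun _ => Bool)
      (@Bool.rec (fun _ => Bool) false (ic true W K F G) (cu n K F G c.kd H W S0 S1 S2 S3 S4 S5 S6 S7)) false md)
    (fun md _ _ _ _ => md)
    (fun y m C _ _ ia ib md V K F G => @Bool.rec (fun _ => Bool) false
      (@Bool.rec (fun _ => Bool) false (ib true V K F G) (ia false (nat_lit 0) (y :: K) F (⟨m, C, V⟩ :: G))) md)
    (fun H y e1 e2 e3 S0 S1 S2 S3 S4 S5 S6 S7 md _ K F _ => @Bool.rec (fun _ => Bool)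
      (Z K F H y e1 e2 e3 S0 S1 S2 S3 S4 S5 S6 S7) false md)
    t

end Pool.Agent.Lib.MP_5e7226_co.C8.TR
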