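import Pool.Agent.Lib.MP_5e7226_co.C8.TR

/-!
# Soundness of the fast evaluation with a scale of the radii, first part: corners
-/

set_option autoImplicit false

open Set

namespace Pool.Agent.Lib.MP_5e7226_co.C8.TR

open GB C8.TF

/-- the value at a corner which is not too far away -/
lemma rdz_bd {f : FD} (hf : FB f) {r b : ℕ} {x y z : ℤ} (hx : |x| ≤ b) (hy : |y| ≤ b)
    (hz : |z| ≤ b) (hr : r * b ≤ 4294967295) :
    -(3 * 2 ^ 66) ≤ (r : ℤ) * dz f x y z ∧ (r : ℤ) * dz f x y z ≤ 3 * 2 ^ 66 := by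
  have h1 := dz_bd hf hx hy hz
  have h2 : |(r : ℤ) * dz f x y z| ≤ r * (3 * 2 ^ 34 * b) := by
    rw [abs_mul, Nat.abs_cast]
    exact mul_le_mul_of_nonneg_left h1 (by positivity)
  have h3 : (r : ℤ) * b ≤ 4294967295 := by exact_mod_cast hr
  rw [abs_le] at h2
  constructor
  · norm_num at h3 h2 ⊢; nlinarith [h2.1]
  · norm_num at h3 h2 ⊢; nlinarith [h2.2]

/-- one lit corner -/
lemma lit_sound {K : List ℕ} {fs : List FD} {ds : List FD} (hF : Fac K fs)
    {R P CL W r s b E' : ℕ} (hR : R = 4096 * P) (hP : 0 < P) (hP' : P ≤ 128)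
    {x y z a' b' c' : ℤ} (hCL : Rp (fs ++ ds) CL (fun h => 2 ^ 95 - R * h.c))
    (hW : Rp (fs ++ ds) W (fun h => -(P * dz h a' b' c')))
    (hE : Rp (fs ++ ds) E' (fun h => dz h x y z))
    (hr : r * b ≤ 4294967295) (hs : s < 2 ^ 18) (hx : |x| ≤ b) (hy : |y| ≤ b) (hz : |z| ≤ b)
    (ha : |a'| ≤ 65536) (hb : |b'| ≤ 65536) (hc : |c'| ≤ 65536)
    (hm : ∀ g, g < fs.length → (litX CL W r s E').testBit (96 * g + 95) = false) :
    Lit (KS K) (rv a' b' c') (((r : ℝ) / R) • rv x y z) := by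
  have hR' : R ≤ 524288 := by omega
  have hX : Rp fs (litX CL W r s E')
      (fun h => 2 ^ 95 + ((r : ℤ) * dz h x y z - s * P * dz h a' b' c' - R * h.c)) := by
    have h1 := ((hCL.add (hE.mul r)).add (hW.mul s)).pre
    exact h1.congr (fun f _ => by ring)
  have hbd : ∀ f ∈ fs, -2 ^ 95 ≤ (r : ℤ) * dz f x y z - s * P * dz f a' b' c' - R * f.c ∧
      (r : ℤ) * dz f x y z - s * P * dz f a' b' c' - R * f.c < 2 ^ 95 := by
    intro f hf
    have h3 := rdz_bd (hF.bd f hf) hx hy hz hr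
    have h2 := dz_bd (hF.bd f hf) ha hb hc
    have h4 : |(s : ℤ) * P * dz f a' b' c'| ≤ 2 ^ 18 * 128 * (3 * 2 ^ 34 * 65536) := by
      rw [abs_mul]
      refine mul_le_mul ?_ h2 (abs_nonneg _) (by norm_num)
      rw [abs_of_nonneg (by positivity)]
      exact mul_le_mul (by exact_mod_cast hs.le) (by exact_mod_cast hP') (by positivity)
        (by norm_num)
    have h5 : (R : ℤ) * f.c ≤ 524288 * 2 ^ 56 :=
      mul_le_mul (by exact_mod_cast hR') (by exact_mod_cast (hF.bd f hf).c.le) (by positivity)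
        (by norm_num)
    have h6 : 0 ≤ (R : ℤ) * f.c := by positivity
    rw [abs_le] at h4
    constructor
    · norm_num at h3 h4 h5 ⊢; linarith [h3.1, h4.2]
    · norm_num at h3 h4 h5 ⊢; linarith [h3.2, h4.1]
  have hsg := sign_clear hX hbd hm
  have hR0 : (0 : ℝ) < R := by
    have : 0 < R := by omega
    exact_mod_cast this
  refine ⟨((s * P : ℕ) : ℝ) / R, by positivity, hF.mem_int ?_⟩
  intro f hf
  have h1 : ((r : ℤ) * dz f x y z - s * P * dz f a' b' c' - R * f.c : ℤ) < 0 := hsg f hf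
  have h2 : ((r : ℝ) * dz f x y z - s * P * dz f a' b' c' - R * f.c : ℝ) < 0 := by
    exact_mod_cast h1
  rw [dotProduct_sub, dot_smul_rv, dot_smul_rv]
  have h3 : (r : ℝ) / R * (dz f x y z) - ((s * P : ℕ) : ℝ) / R * (dz f a' b' c') - f.c =
      ((r : ℝ) * dz f x y z - s * P * dz f a' b' c' - R * f.c) / R := by
    push_cast
    field_simp
  have h4 : ((r : ℝ) * dz f x y z - s * P * dz f a' b' c' - R * f.c) / R < 0 :=
    div_neg_of_neg_of_pos h2 hR0
  linarith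

/-- one corner beyond a functional -/
lemma dt_sound {hs : List FD} (hbd : ∀ h ∈ hs, FB h) {R CL r b E' g : ℕ} (hg : g < hs.length)
    (hR : 0 < R) (hR' : R ≤ 524288) {x y z : ℤ}
    (hCL : Rp hs CL (fun h => 2 ^ 95 - R * h.c)) (hE : Rp hs E' (fun h => dz h x y z))
    (hr : r * b ≤ 4294967295) (hx : |x| ≤ b) (hy : |y| ≤ b) (hz : |z| ≤ b)
    (hm : (CL + r * E').testBit (96 * g + 95) = true) :
    ((hs[g]).c : ℝ) ≤ nr hs[g] ⬝ᵥ (((r : ℝ) / R) • rv x y z) := by
  have hX : Rp hs (CL + r * E') (fun h => 2 ^ 95 + ((r : ℤ) * dz h x y z - R * h.c)) := by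
    have h1 := hCL.add (hE.mul r)
    exact h1.congr (fun f _ => by ring)
  have hbd' : ∀ f ∈ hs, -2 ^ 95 ≤ (r : ℤ) * dz f x y z - R * f.c ∧
      (r : ℤ) * dz f x y z - R * f.c < 2 ^ 95 := by
    intro f hf
    have h3 := rdz_bd (hbd f hf) hx hy hz hr
    have h5 : (R : ℤ) * f.c ≤ 524288 * 2 ^ 56 :=
      mul_le_mul (by exact_mod_cast hR') (by exact_mod_cast (hbd f hf).c.le) (by positivity)
        (by norm_num)
    have h6 : 0 ≤ (R : ℤ) * f.c := by positivity
    constructor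
    · norm_num at h3 h5 ⊢; linarith [h3.1]
    · norm_num at h3 h5 ⊢; linarith [h3.2]
  have h := bit_of_rp hs _ _ hX hbd' g hg
  rw [hm] at h
  have h1 : (0 : ℤ) ≤ (r : ℤ) * dz hs[g] x y z - R * (hs[g]).c := by simpa using h.symm
  have h2 : (0 : ℝ) ≤ (r : ℝ) * dz hs[g] x y z - R * (hs[g]).c := by exact_mod_cast h1
  have hR0 : (0 : ℝ) < R := by exact_mod_cast hR
  rw [dot_smul_rv]
  have h3 : (r : ℝ) / R * (dz hs[g] x y z) - (hs[g]).c =
      ((r : ℝ) * dz hs[g] x y z - R * (hs[g]).c) / R := by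
    field_simp
  have h4 : 0 ≤ ((r : ℝ) * dz hs[g] x y z - R * (hs[g]).c) / R := div_nonneg h2 hR0.le
  linarith

/-- one shadow corner -/
lemma sh_sound {K : List ℕ} {fs : List FD} {ds : List FD} (hF : Fac K fs)
    {R CS N r s b E' : ℕ} (hR : 0 < R) (hR' : R ≤ 524288) {x y z a' b' c' : ℤ}
    (hCS : Rp (fs ++ ds) CS (fun h => 2 ^ 95 + 4096 * R * h.c))
    (hN : Rp (fs ++ ds) N (fun h => -(R * dz h a' b' c')))
    (hE : Rp (fs ++ ds) E' (fun h => dz h x y z))
    (hs : s < 2 ^ 20) (hr : r * b ≤ 4294967295)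
    (hx : |x| ≤ b) (hy : |y| ≤ b) (hz : |z| ≤ b)
    (ha : |a'| ≤ 65536) (hb : |b'| ≤ 65536) (hc : |c'| ≤ 65536)
    (hm : ∀ g, g < fs.length → (xh 4096 CS N r s E').testBit (96 * g + 95) = true) :
    Shd (KS K) (rv a' b' c') (((r : ℝ) / R) • rv x y z) := by
  have hX : Rp fs (xh 4096 CS N r s E')
      (fun h => 2 ^ 95 + (4096 * R * h.c - (4096 + s) * (R * dz h a' b' c') +
        s * (r * dz h x y z))) := by
    have h1 := ((hCS.add (hN.mul (4096 + s))).add (hE.mul (s * r))).pre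
    exact h1.congr (fun f _ => by push_cast; ring)
  have hbd : ∀ f ∈ fs, -2 ^ 95 ≤ (4096 * R * f.c - (4096 + s) * (R * dz f a' b' c') +
        s * (r * dz f x y z) : ℤ) ∧ (4096 * R * f.c - (4096 + s) * (R * dz f a' b' c') +
        s * (r * dz f x y z) : ℤ) < 2 ^ 95 := by
    intro f hf
    have h1 := rdz_bd (hF.bd f hf) hx hy hz hr
    have h2 := dz_bd (hF.bd f hf) ha hb hc
    have h3 : |(s : ℤ) * (r * dz f x y z)| ≤ 2 ^ 20 * (3 * 2 ^ 66) := by
      rw [abs_mul]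
      refine mul_le_mul ?_ (abs_le.2 h1) (abs_nonneg _) (by norm_num)
      rw [Nat.abs_cast]; exact_mod_cast hs.le
    have h4 : |(4096 + (s : ℤ)) * (R * dz f a' b' c')| ≤
        2 ^ 21 * (524288 * (3 * 2 ^ 34 * 65536)) := by
      rw [abs_mul, abs_mul]
      refine mul_le_mul ?_ ?_ (by positivity) (by norm_num)
      · rw [abs_of_nonneg (by positivity)]
        have : (s : ℤ) < 2 ^ 20 := by exact_mod_cast hs
        norm_num at this ⊢; linarith
      · exact mul_le_mul (by rw [Nat.abs_cast]; exact_mod_cast hR') h2 (abs_nonneg _) (by norm_num)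
    have h5' : (4096 : ℤ) * R ≤ 4096 * 524288 := by
      have : (R : ℤ) ≤ 524288 := by exact_mod_cast hR'
      linarith
    have h5 : (4096 : ℤ) * R * f.c ≤ 4096 * 524288 * 2 ^ 56 :=
      mul_le_mul h5' (by exact_mod_cast (hF.bd f hf).c.le) (by positivity) (by norm_num)
    have h6 : 0 ≤ (4096 : ℤ) * R * f.c := by positivity
    rw [abs_le] at h3 h4
    constructor
    · norm_num at h3 h4 h5 ⊢; linarith [h3.1, h4.2]
    · norm_num at h3 h4 h5 ⊢; linarith [h3.2, h4.1]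
  have hsg := sign_set hX hbd hm
  have hR0 : (0 : ℝ) < R := by exact_mod_cast hR
  -- the point beyond
  set σ : ℝ := (s : ℝ) / 4096 with hσ
  have hσ0 : 0 ≤ σ := by positivity
  set P : E := ((r : ℝ) / R) • rv x y z with hP
  have hz' : (1 + σ) • rv a' b' c' - σ • P ∈ convexHull ℝ (KS K) := by
    apply hF.mem
    intro f hf
    have h1 : (0 : ℤ) ≤ 4096 * R * f.c - (4096 + s) * (R * dz f a' b' c') +
        s * (r * dz f x y z) := hsg f hf
    have h2 : (0 : ℝ) ≤ 4096 * R * f.c - (4096 + s) * (R * dz f a' b' c') +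
        s * (r * dz f x y z) := by
      have := h1
      exact_mod_cast this
    rw [dotProduct_sub, dotProduct_smul, dotProduct_smul, hP, dot_smul_rv, nr_dot, smul_eq_mul,
      smul_eq_mul]
    have h3 : (1 + σ) * (dz f a' b' c' : ℝ) - σ * ((r : ℝ) / R * dz f x y z) - f.c =
        -((4096 * R * f.c - (4096 + s) * (R * dz f a' b' c') + s * (r * dz f x y z)) /
          (4096 * R)) := by
      rw [hσ]
      field_simp
      ring
    have h4 : (0 : ℝ) ≤ (4096 * R * f.c - (4096 + s) * (R * dz f a' b' c') +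
        s * (r * dz f x y z)) / (4096 * R) := div_nonneg h2 (by positivity)
    linarith
  -- the conclusion
  have h5 : (1 + σ) • rv a' b' c' - σ • P ∈ convexHull ℝ (insert P (KS K)) :=
    convexHull_mono (subset_insert _ _) hz'
  have h6 : P ∈ convexHull ℝ (insert P (KS K)) := subset_convexHull ℝ _ (mem_insert _ _)
  have h7 := convex_convexHull ℝ (insert P (KS K)) h5 h6 (a := 1 / (1 + σ)) (b := σ / (1 + σ))
    (by positivity) (by positivity) (by field_simp)
  have h8 : (1 / (1 + σ)) • ((1 + σ) • rv a' b' c' - σ • P) + (σ / (1 + σ)) • P =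
      rv a' b' c' := by
    have : (1 + σ) ≠ 0 := by positivity
    rw [smul_sub, smul_smul, smul_smul, one_div, inv_mul_cancel₀ this, one_smul]
    rw [show (1 + σ)⁻¹ * σ = σ / (1 + σ) by field_simp]
    abel
  rw [h8] at h7
  exact h7

/-- one corner lifts a point of a cell -/
lemma uX_sound {K : List ℕ} {fs : List FD} {ds : List FD} (hF : Fac K fs)
    {R C0 CB Cc W r s t b E' : ℕ} (hR : 0 < R) (hR' : R ≤ 524288)
    {x y z a₁ b₁ c₁ a' b' c' : ℤ}
    (hC0 : Rp (fs ++ ds) C0 (fun h => (h.c : ℤ)))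
    (hCB : Rp (fs ++ ds) CB (fun _ => 2 ^ 95 - 1))
    (hCc : Rp (fs ++ ds) Cc (fun h => -dz h a' b' c'))
    (hW : Rp (fs ++ ds) W (fun h => dz h a₁ b₁ c₁)) (hE : Rp (fs ++ ds) E' (fun h => dz h x y z))
    (hr : r * b ≤ 4294967295) (hs : s < 2 ^ 24) (ht : t < 2 ^ 12)
    (hx : |x| ≤ b) (hy : |y| ≤ b) (hz : |z| ≤ b)
    (ha : |a₁| ≤ 65536) (hb : |b₁| ≤ 65536) (hc : |c₁| ≤ 65536)
    (ha' : |a'| ≤ 2 ^ 25) (hb' : |b'| ≤ 2 ^ 25) (hc' : |c'| ≤ 2 ^ 25)
    (hm : ∀ g, g < fs.length → (uX R CB C0 Cc W r s t E').testBit (96 * g + 95) = true) :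
    Lifts (KS K) (rv a₁ b₁ c₁) ((1 / ((4096 : ℕ) : ℝ)) • rv a' b' c')
      (((r : ℝ) / R) • rv x y z) := by
  have ht' : t ≤ 4096 := by omega
  have hX : Rp fs (uX R CB C0 Cc W r s t E')
      (fun h => 2 ^ 95 + (-1 + (R * (4096 - t) : ℤ) * h.c - R * dz h a' b' c' +
        R * s * dz h a₁ b₁ c₁ + t * (r * dz h x y z))) := by
    have h1 := (((hCB.add (hC0.mul (R * (4096 - t)))).add ((hCc.add (hW.mul s)).mul R)).add
      (hE.mul (t * r))).pre
    refine h1.congr (fun f _ => ?_)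
    push_cast [Nat.cast_sub ht']
    ring
  have hbd : ∀ f ∈ fs, -2 ^ 95 ≤ (-1 + (R * (4096 - t) : ℤ) * f.c - R * dz f a' b' c' +
        R * s * dz f a₁ b₁ c₁ + t * (r * dz f x y z)) ∧
      (-1 + (R * (4096 - t) : ℤ) * f.c - R * dz f a' b' c' +
        R * s * dz f a₁ b₁ c₁ + t * (r * dz f x y z)) < 2 ^ 95 := by
    intro f hf
    have h1 := rdz_bd (hF.bd f hf) hx hy hz hr
    have h2 := dz_bd (hF.bd f hf) ha hb hc
    have h2' := dz_bd (hF.bd f hf) ha' hb' hc'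
    have hRz : (R : ℤ) ≤ 524288 := by exact_mod_cast hR'
    have h3 : |(t : ℤ) * (r * dz f x y z)| ≤ 2 ^ 12 * (3 * 2 ^ 66) := by
      rw [abs_mul]
      refine mul_le_mul ?_ (abs_le.2 h1) (abs_nonneg _) (by norm_num)
      rw [Nat.abs_cast]; exact_mod_cast ht.le
    have h4 : |(R : ℤ) * (s : ℤ) * dz f a₁ b₁ c₁| ≤ 524288 * 2 ^ 24 * (3 * 2 ^ 34 * 65536) := by
      rw [abs_mul]
      refine mul_le_mul ?_ h2 (abs_nonneg _) (by norm_num)
      rw [abs_of_nonneg (by positivity)]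
      exact mul_le_mul hRz (by exact_mod_cast hs.le) (by positivity) (by norm_num)
    have h4' : |(R : ℤ) * dz f a' b' c'| ≤ 524288 * (3 * 2 ^ 34 * 2 ^ 25) := by
      rw [abs_mul]
      exact mul_le_mul (by rw [Nat.abs_cast]; exact hRz) h2' (abs_nonneg _) (by norm_num)
    have h7 : (0 : ℤ) ≤ 4096 - t := by
      have : (t : ℤ) ≤ 4096 := by exact_mod_cast ht'
      linarith
    have h5 : (R * (4096 - t) : ℤ) * f.c ≤ (524288 * 4096) * 2 ^ 56 := by
      refine mul_le_mul ?_ (by exact_mod_cast (hF.bd f hf).c.le) (by positivity)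
        (by norm_num)
      refine mul_le_mul hRz ?_ h7 (by norm_num)
      have : (0 : ℤ) ≤ t := by positivity
      linarith
    have h6 : 0 ≤ (R * (4096 - t) : ℤ) * f.c := by positivity
    rw [abs_le] at h3 h4 h4'
    constructor
    · norm_num at h3 h4 h4' h5 ⊢; linarith [h3.1, h4.1, h4'.2]
    · norm_num at h3 h4 h4' h5 ⊢; linarith [h3.2, h4.2, h4'.1]
  have hsg := sign_set hX hbd hm
  set θ : ℝ := (t : ℝ) / 4096 with hθ
  have ht1 : (t : ℝ) < 4096 := by
    have : t < 4096 := by omega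
    exact_mod_cast this
  have hθ1 : θ < 1 := by rw [hθ, div_lt_one (by norm_num)]; exact ht1
  have h1θ : 0 < 1 - θ := by linarith
  have hR4 : ((4096 : ℕ) : ℝ) = 4096 := by norm_num
  have hR0 : (0 : ℝ) < R := by exact_mod_cast hR
  rw [hR4]
  set P : E := ((r : ℝ) / R) • rv x y z with hP
  set q : E := (1 / (4096 : ℝ)) • rv a' b' c' with hq
  refine ⟨(s : ℝ) / 4096, θ, by positivity, by positivity, hθ1,
    (1 / (1 - θ)) • (q - ((s : ℝ) / 4096) • rv a₁ b₁ c₁ - θ • P), hF.mem_int ?_, ?_⟩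
  · intro f hf
    have h1 : (0 : ℤ) ≤ (-1 + (R * (4096 - t) : ℤ) * f.c - R * dz f a' b' c' +
        R * s * dz f a₁ b₁ c₁ + t * (r * dz f x y z)) := hsg f hf
    have h2 : (0 : ℝ) ≤ (-1 + (R * (4096 - t)) * f.c - R * dz f a' b' c' +
        R * s * dz f a₁ b₁ c₁ + t * (r * dz f x y z)) := by
      have := h1
      exact_mod_cast this
    have e0 : nr f ⬝ᵥ ((1 / (1 - θ)) • (q - ((s : ℝ) / 4096) • rv a₁ b₁ c₁ - θ • P)) =
        1 / (1 - θ) * (1 / (4096 : ℝ) * (dz f a' b' c') - (s : ℝ) / 4096 * (dz f a₁ b₁ c₁) -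
        θ * ((r : ℝ) / R * (dz f x y z))) := by
      simp only [hq, hP, dotProduct_smul, dotProduct_sub, nr_dot, smul_eq_mul]
    rw [e0, one_div (1 - θ), inv_mul_lt_iff₀ h1θ]
    have h3 : 1 / (4096 : ℝ) * (dz f a' b' c') - (s : ℝ) / 4096 * (dz f a₁ b₁ c₁) -
        θ * ((r : ℝ) / R * (dz f x y z)) - (1 - θ) * f.c =
        -((R * (4096 - t) * f.c - R * dz f a' b' c' + R * s * dz f a₁ b₁ c₁ +
          t * (r * dz f x y z)) / (4096 * R)) := by
      rw [hθ]
      field_simp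
      ring
    have h4 : 0 < (R * (4096 - t) * f.c - R * dz f a' b' c' + R * s * dz f a₁ b₁ c₁ +
          t * (r * dz f x y z) : ℝ) / (4096 * R) := div_pos (by linarith) (by positivity)
    linarith
  · have e1 : ∀ v : E, (1 - θ) • ((1 / (1 - θ)) • v) = v := by
      intro v
      rw [smul_smul, mul_one_div_cancel h1θ.ne', one_smul]
    rw [e1]
    abel

end Pool.Agent.Lib.MP_5e7226_co.C8.TR
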