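import Pool.Agent.Lib.MP_5e7226_co.C8.TRS

/-!
# Soundness of the fast evaluation with a scale of the radii, second part: cones
-/

set_option autoImplicit false

open Set

namespace Pool.Agent.Lib.MP_5e7226_co.C8.TR

open GB C8.TF

lemma V3.bn {hs : List FD} {b E' : ℕ} {x y z : ℤ} (h : V3 hs b E' x y z) :
    |x| ≤ b ∧ |y| ≤ b ∧ |z| ≤ b := ⟨h.bx, h.by', h.bz⟩

/-- the data of a leaf are correct -/
structure Cd (R P nf nd nF M1 CL CS : ℕ) (WV FV : ℕ → ℕ) (W TF : ℕ) (K : List ℕ)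
    (fs ds : List FD) (L : Set E) : Prop where
  fac : Fac K fs
  bd : ∀ h ∈ fs ++ ds, FB h
  conv : Convex ℝ L
  sub : KS K ⊆ L
  lenf : fs.length = nf
  lend : ds.length = nd
  hR : R = 4096 * P
  P1 : 0 < P
  P2 : P ≤ 128
  hM1 : M1 = pk (fun _ => 39614081257132168796771975168) fs
  hCL : Rp (fs ++ ds) CL (fun h => 2 ^ 95 - R * h.c)
  hCS : Rp (fs ++ ds) CS (fun h => 2 ^ 95 + 4096 * R * h.c)
  hW : ∀ a, Rp (fs ++ ds) (WV a)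
    (fun h => -(P * dz h (ix (pt W a)) (iy (pt W a)) (iz (pt W a))))
  hF : ∀ f, Rp (fs ++ ds) (FV f)
    (fun h => -(R * dz h (ix (pt TF f)) (iy (pt TF f)) (iz (pt TF f))))
  out : ∀ f < nF, rp (pt TF f) ∉ L
  dead : ∀ h ∈ ds, Dead L {z | (h.c : ℝ) ≤ nr h ⬝ᵥ z}

lemma rb_true {b1 b2 b3 r1 r2 r3 : ℕ} (h : rb b1 b2 b3 r1 r2 r3 = true) :
    r1 * b1 ≤ 4294967295 ∧ r2 * b2 ≤ 4294967295 ∧ r3 * b3 ≤ 4294967295 := by
  have h' := Nat.le_of_ble_eq_true h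
  obtain ⟨q1, q2, q3⟩ := le_lor3 (Nat.mul r1 b1) (Nat.mul r2 b2) (Nat.mul r3 b3)
  exact ⟨q1.trans h', q2.trans h', q3.trans h'⟩

section cones

variable {n R P nf nd nF M1 CL CS : ℕ} {WV FV : ℕ → ℕ} {W TF : ℕ} {K : List ℕ}
    {fs ds : List FD} {L : Set E} {J : Set (E × Set E)}

lemma Cd.R1 (h : Cd R P nf nd nF M1 CL CS WV FV W TF K fs ds L) : 0 < R := by
  have := h.hR
  have := h.P1
  omega

lemma Cd.R2 (h : Cd R P nf nd nF M1 CL CS WV FV W TF K fs ds L) : R ≤ 524288 := by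
  have := h.hR
  have := h.P2
  omega

lemma Cd.zeroL (h : Cd R P nf nd nF M1 CL CS WV FV W TF K fs ds L) : (0 : E) ∈ L :=
  convexHull_min h.sub h.conv h.fac.zero

lemma Cd.ne (h : Cd R P nf nd nF M1 CL CS WV FV W TF K fs ds L) : (KS K).Nonempty := by
  have hint := h.fac.zero_int
  rw [nonempty_iff_ne_empty]
  intro he
  rw [he] at hint
  simp at hint

lemma Cd.pos (h : Cd R P nf nd nF M1 CL CS WV FV W TF K fs ds L) {r : ℕ} (hr : 0 < r) :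
    (0 : ℝ) < (r : ℝ) / R := by
  have h1 : (0 : ℝ) < r := by exact_mod_cast hr
  have h2 : (0 : ℝ) < R := by exact_mod_cast h.R1
  positivity

lemma lit_core (h : Cd R P nf nd nF M1 CL CS WV FV W TF K fs ds L) {b1 b2 b3 E1 E2 E3 : ℕ}
    {x1 y1 z1 x2 y2 z2 x3 y3 z3 : ℤ} (v1 : V3 (fs ++ ds) b1 E1 x1 y1 z1)
    (v2 : V3 (fs ++ ds) b2 E2 x2 y2 z2) (v3 : V3 (fs ++ ds) b3 E3 x3 y3 z3)
    {a r1 r2 r3 s1 s2 s3 : ℕ} (ha : a < n)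
    (hr1 : r1 * b1 ≤ 4294967295) (hr2 : r2 * b2 ≤ 4294967295) (hr3 : r3 * b3 ≤ 4294967295)
    (hs1 : s1 < 2 ^ 18) (hs2 : s2 < 2 ^ 18) (hs3 : s3 < 2 ^ 18)
    (ht : Nat.beq (Nat.land (Nat.lor (Nat.lor (litX CL (WV a) r1 s1 E1)
      (litX CL (WV a) r2 s2 E2)) (litX CL (WV a) r3 s3 E3)) M1) 0 = true) :
    ∀ x ∈ L, x ∈ convexHull ℝ {0, ((r1 : ℝ) / R) • rv x1 y1 z1,
      ((r2 : ℝ) / R) • rv x2 y2 z2, ((r3 : ℝ) / R) • rv x3 y3 z3} →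
      Phi (Wf n (Wl n W)) J L x := by
  rw [beq_iff, nland, nlor, nlor, h.hM1] at ht
  have hc := clear_of_mask ht
  have b1 : |ix (pt W a)| ≤ 65536 := (ix_bd _).trans (by norm_num)
  have b2 : |iy (pt W a)| ≤ 65536 := (iy_bd _).trans (by norm_num)
  have b3 : |iz (pt W a)| ≤ 65536 := (iz_bd _).trans (by norm_num)
  obtain ⟨p1, p2, p3⟩ := V3.bn v1
  obtain ⟨q1, q2, q3⟩ := V3.bn v2
  obtain ⟨o1, o2, o3⟩ := V3.bn v3
  have l1 := lit_sound h.fac h.hR h.P1 h.P2 h.hCL (h.hW a) v1.rep hr1 hs1 p1 p2 p3 b1 b2 b3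
    (fun g hg => by
      have := hc g hg
      simp only [Nat.testBit_or, Bool.or_eq_false_iff] at this
      exact this.1.1)
  have l2 := lit_sound h.fac h.hR h.P1 h.P2 h.hCL (h.hW a) v2.rep hr2 hs2 q1 q2 q3 b1 b2 b3
    (fun g hg => by
      have := hc g hg
      simp only [Nat.testBit_or, Bool.or_eq_false_iff] at this
      exact this.1.2)
  have l3 := lit_sound h.fac h.hR h.P1 h.P2 h.hCL (h.hW a) v3.rep hr3 hs3 o1 o2 o3 b1 b2 b3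
    (fun g hg => by
      have := hc g hg
      simp only [Nat.testBit_or, Bool.or_eq_false_iff] at this
      exact this.2)
  intro x _ hx
  have e : rvt (wv (Wl n W) a) = rv (ix (pt W a)) (iy (pt W a)) (iz (pt W a)) := by
    rw [wv_wl ha]
    rfl
  rw [← e] at l1 l2 l3
  have h5 := hull4 (lit_convex (KS K) (rvt (wv (Wl n W) a))) (lit_zero h.fac.zero_int _) l1 l2 l3
    hx
  exact Or.inl (phi_lit h.conv h.sub (wl_len n W).le h5)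

/-- everything beyond the corners is dead -/
def Wt (L : Set E) (R r1 r2 r3 : ℕ) (x1 y1 z1 x2 y2 z2 x3 y3 z3 : ℤ) : Prop :=
  ∃ S, Dead L S ∧ ((r1 : ℝ) / R) • rv x1 y1 z1 ∈ S ∧
    ((r2 : ℝ) / R) • rv x2 y2 z2 ∈ S ∧ ((r3 : ℝ) / R) • rv x3 y3 z3 ∈ S

lemma dd_core (h : Cd R P nf nd nF M1 CL CS WV FV W TF K fs ds L) {b1 b2 b3 E1 E2 E3 : ℕ}
    {x1 y1 z1 x2 y2 z2 x3 y3 z3 : ℤ} (v1 : V3 (fs ++ ds) b1 E1 x1 y1 z1)
    (v2 : V3 (fs ++ ds) b2 E2 x2 y2 z2) (v3 : V3 (fs ++ ds) b3 E3 x3 y3 z3)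
    {g r1 r2 r3 : ℕ} (hg : g < nd)
    (hr1 : r1 * b1 ≤ 4294967295) (hr2 : r2 * b2 ≤ 4294967295) (hr3 : r3 * b3 ≤ 4294967295)
    (hd : (fun q => Nat.beq (Nat.land (Nat.land (Nat.land (Nat.add CL (Nat.mul r1 E1))
      (Nat.add CL (Nat.mul r2 E2))) (Nat.add CL (Nat.mul r3 E3))) q) q)
      (Nat.shiftLeft 39614081257132168796771975168 (Nat.mul 96 (Nat.add nf g))) = true) :
    Wt L R r1 r2 r3 x1 y1 z1 x2 y2 z2 x3 y3 z3 := by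
  have hg' : nf + g < (fs ++ ds).length := by
    rw [List.length_append, h.lenf, h.lend]
    omega
  have hgd : (fs ++ ds)[nf + g] ∈ ds := by
    rw [List.getElem_append_right (by rw [h.lenf]; omega)]
    exact List.getElem_mem _
  have hm : (39614081257132168796771975168 * 2 ^ (96 * (nf + g))).testBit
      (96 * (nf + g) + 95) = true := by
    have e : 39614081257132168796771975168 * 2 ^ (96 * (nf + g)) = 2 ^ (96 * (nf + g) + 95) := by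
      rw [pow_add]
      norm_num [mul_comm]
    rw [e]
    exact Nat.testBit_two_pow_self
  have hd' := (beq_iff _ _).1 hd
  rw [nland, nland, nland, nshl, nmul, nadd, nadd, nadd, nadd, nmul, nmul, nmul] at hd'
  have hc := land_mask hd' hm
  simp only [Nat.testBit_and, Bool.and_eq_true] at hc
  obtain ⟨a1, a2, a3⟩ := V3.bn v1
  obtain ⟨q1, q2, q3⟩ := V3.bn v2
  obtain ⟨o1, o2, o3⟩ := V3.bn v3
  exact ⟨_, h.dead _ hgd,
    dt_sound h.bd hg' h.R1 h.R2 h.hCL v1.rep hr1 a1 a2 a3 hc.1.1,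
    dt_sound h.bd hg' h.R1 h.R2 h.hCL v2.rep hr2 q1 q2 q3 hc.1.2,
    dt_sound h.bd hg' h.R1 h.R2 h.hCL v3.rep hr3 o1 o2 o3 hc.2⟩

lemma sh_core (h : Cd R P nf nd nF M1 CL CS WV FV W TF K fs ds L) {b1 b2 b3 E1 E2 E3 : ℕ}
    {x1 y1 z1 x2 y2 z2 x3 y3 z3 : ℤ} (v1 : V3 (fs ++ ds) b1 E1 x1 y1 z1)
    (v2 : V3 (fs ++ ds) b2 E2 x2 y2 z2) (v3 : V3 (fs ++ ds) b3 E3 x3 y3 z3)
    {N p r1 r2 r3 t1 t2 t3 : ℕ}
    (hN : Rp (fs ++ ds) N (fun h => -(R * dz h (ix p) (iy p) (iz p))))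
    (hr1 : r1 * b1 ≤ 4294967295) (hr2 : r2 * b2 ≤ 4294967295) (hr3 : r3 * b3 ≤ 4294967295)
    (ht1 : t1 < 2 ^ 20) (ht2 : t2 < 2 ^ 20) (ht3 : t3 < 2 ^ 20)
    (hd : Nat.beq (Nat.land (Nat.land (Nat.land (xh 4096 CS N r1 t1 E1)
      (xh 4096 CS N r2 t2 E2)) (xh 4096 CS N r3 t3 E3)) M1) M1 = true) :
    Shd (KS K) (rp p) (((r1 : ℝ) / R) • rv x1 y1 z1) ∧
    Shd (KS K) (rp p) (((r2 : ℝ) / R) • rv x2 y2 z2) ∧
    Shd (KS K) (rp p) (((r3 : ℝ) / R) • rv x3 y3 z3) := by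
  have hd' := (beq_iff _ _).1 hd
  rw [nland, nland, nland, h.hM1] at hd'
  have hc := set_of_mask hd'
  have b1 : |ix p| ≤ 65536 := (ix_bd _).trans (by norm_num)
  have b2 : |iy p| ≤ 65536 := (iy_bd _).trans (by norm_num)
  have b3 : |iz p| ≤ 65536 := (iz_bd _).trans (by norm_num)
  obtain ⟨a1, a2, a3⟩ := V3.bn v1
  obtain ⟨q1, q2, q3⟩ := V3.bn v2
  obtain ⟨o1, o2, o3⟩ := V3.bn v3
  refine ⟨?_, ?_, ?_⟩
  · refine sh_sound h.fac h.R1 h.R2 h.hCS hN v1.rep ht1 hr1 a1 a2 a3 b1 b2 b3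
      (fun g hg => ?_)
    have := hc g hg
    simp only [Nat.testBit_and, Bool.and_eq_true] at this
    exact this.1.1
  · refine sh_sound h.fac h.R1 h.R2 h.hCS hN v2.rep ht2 hr2 q1 q2 q3 b1 b2 b3
      (fun g hg => ?_)
    have := hc g hg
    simp only [Nat.testBit_and, Bool.and_eq_true] at this
    exact this.1.2
  · refine sh_sound h.fac h.R1 h.R2 h.hCS hN v3.rep ht3 hr3 o1 o2 o3 b1 b2 b3
      (fun g hg => ?_)
    have := hc g hg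
    simp only [Nat.testBit_and, Bool.and_eq_true] at this
    exact this.2

/-- the check of a cone is correct -/
structure SndD (hs : List FD) (L : Set E) (Φ : E → Prop) (T : DT) : Prop where
  out : ∀ {b1 b2 b3 E1 E2 E3 S : ℕ} {k : ℕ → Bool} {x1 y1 z1 x2 y2 z2 x3 y3 z3 : ℤ},
    V3 hs b1 E1 x1 y1 z1 → V3 hs b2 E2 x2 y2 z2 → V3 hs b3 E3 x3 y3 z3 →
    T b1 b2 b3 E1 E2 E3 S k = true →
    Cn L Φ (rv x1 y1 z1) (rv x2 y2 z2) (rv x3 y3 z3) ∧ ∃ S', k S' = true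

lemma k18 (s : ℕ) : Nat.land s 262143 < 2 ^ 18 := lt_of_le_of_lt (land_le s _) (by norm_num)

lemma k20 (s : ℕ) : Nat.land s 1048575 < 2 ^ 20 := lt_of_le_of_lt (land_le s _) (by norm_num)

lemma tD_sound (h : Cd R P nf nd nF M1 CL CS WV FV W TF K fs ds L) {BI C0 m o2 o3 oe : ℕ}
    (hm : m < 2 ^ 18) : SndD (fs ++ ds) L (Phi (Wf n (Wl n W)) J L)
    (fun b1 b2 b3 E1 E2 E3 => tD n nf nd M1 BI R C0 CL WV m o2 o3 oe b1 b2 b3 E1 E2 E3) := by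
  refine ⟨?_⟩
  intro b1 b2 b3 E1 E2 E3 S k x1 y1 z1 x2 y2 z2 x3 y3 z3 v1 v2 v3 ht
  obtain ⟨ht, h1⟩ := br ht
  obtain ⟨ht, h2⟩ := br ht
  obtain ⟨ht, h3⟩ := br ht
  obtain ⟨ht, h4⟩ := br ht
  obtain ⟨ht, h5⟩ := br ht
  obtain ⟨r1, r2, r3⟩ := rb_true h3
  have keym : ∀ {s : ℕ}, Nat.land s m < 2 ^ 18 := fun {s} => lt_of_le_of_lt (land_le s m) hm
  obtain ⟨T, hT, t1, t2, t3⟩ := dd_core h v1 v2 v3 (Nat.le_of_ble_eq_true h2) r1 r2 r3 h4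
  exact ⟨cn_base (h.pos (rd_pos _ _ _ _)) (h.pos (rd_pos _ _ _ _)) (h.pos (rd_pos _ _ _ _))
    (lit_core h v1 v2 v3 (Nat.le_of_ble_eq_true h1) r1 r2 r3 keym keym keym h5)
    (out_dead (h.pos (rd_pos _ _ _ _)) (h.pos (rd_pos _ _ _ _)) (h.pos (rd_pos _ _ _ _))
      hT t1 t2 t3), _, ht⟩

lemma tN_sound (h : Cd R P nf nd nF M1 CL CS WV FV W TF K fs ds L) :
    SndD (fs ++ ds) L (Phi (Wf n (Wl n W)) J L)
    (fun b1 b2 b3 E1 E2 E3 => tN n nF M1 CL CS WV FV b1 b2 b3 E1 E2 E3) := by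
  refine ⟨?_⟩
  intro b1 b2 b3 E1 E2 E3 S k x1 y1 z1 x2 y2 z2 x3 y3 z3 v1 v2 v3 ht
  obtain ⟨ht, h1⟩ := br ht
  obtain ⟨ht, h2⟩ := br ht
  obtain ⟨ht, h3⟩ := br ht
  obtain ⟨ht, h4⟩ := br ht
  obtain ⟨ht, h5⟩ := br ht
  obtain ⟨ht, h6⟩ := br ht
  obtain ⟨ht, h7⟩ := br ht
  obtain ⟨ht, h8⟩ := br ht
  obtain ⟨r1, r2, r3⟩ := rb_true h6
  obtain ⟨s1, s2, s3⟩ := sh_core h v1 v2 v3 (h.hF _) r1 r2 r3 (k20 _) (k20 _) (k20 _) h7
  have p1 := h.pos (Nat.le_of_ble_eq_true h5)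
  have p2 := h.pos (Nat.le_of_ble_eq_true h4)
  have p3 := h.pos (Nat.le_of_ble_eq_true h3)
  exact ⟨cn_base p1 p2 p3
    (lit_core h v1 v2 v3 (Nat.le_of_ble_eq_true h1) r1 r2 r3 (k18 _) (k18 _) (k18 _) h8)
    (out_dead p1 p2 p3
      (dead_shd h.conv h.sub h.ne h.zeroL (h.out _ (Nat.le_of_ble_eq_true h2))) s1 s2 s3), _, ht⟩

lemma sq_sound {hs : List FD} {Φ : E → Prop} {ih : DT} (hi : SndD hs L Φ ih) {e : ℕ}
    {b1 b2 b3 E1 E2 E3 al be S : ℕ} {k : ℕ → Bool} {x1 y1 z1 x2 y2 z2 x3 y3 z3 : ℤ}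
    (v1 : V3 hs b1 E1 x1 y1 z1) (v2 : V3 hs b2 E2 x2 y2 z2) (v3 : V3 hs b3 E3 x3 y3 z3)
    (ha : 0 < al) (hb : 0 < be)
    (h : sq ih e b1 b2 b3 E1 E2 E3 al be S k = true) :
    Cn L Φ (rv x1 y1 z1) (rv x2 y2 z2) (rv x3 y3 z3) ∧ ∃ S', k S' = true := by
  have ha' : (0 : ℝ) < al := by exact_mod_cast ha
  have hb' : (0 : ℝ) < be := by exact_mod_cast hb
  rcases nrc h with h | ⟨t, h⟩
  · have vm := v1.comb v2 al be
    obtain ⟨c1, S', h⟩ := hi.out v1 vm v3 h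
    obtain ⟨c2, h⟩ := hi.out vm v2 v3 h
    rw [rv_comb] at c1 c2
    exact ⟨cn_split1 ha' hb' rfl c1 c2, h⟩
  · rcases nrc h with h | ⟨t, h⟩
    · have vm := v2.comb v3 al be
      obtain ⟨c1, S', h⟩ := hi.out v1 v2 vm h
      obtain ⟨c2, h⟩ := hi.out v1 vm v3 h
      rw [rv_comb] at c1 c2
      exact ⟨(cn_split1 ha' hb' rfl c1.rot.rot c2.rot.rot).rot, h⟩
    · have vm := v3.comb v1 al be
      obtain ⟨c1, S', h⟩ := hi.out v1 v2 vm h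
      obtain ⟨c2, h⟩ := hi.out vm v2 v3 h
      rw [rv_comb] at c1 c2
      exact ⟨(cn_split1 ha' hb' rfl c2.rot c1.rot).rot.rot, h⟩

lemma gc_sound {hs : List FD} {Φ : E → Prop} {TD TX TN : DT} (hD : SndD hs L Φ TD)
    (hX : SndD hs L Φ TX) (hN : SndD hs L Φ TN) (m : ℕ) : SndD hs L Φ (gc TD TX TN m) := by
  induction m with
  | zero =>
    refine ⟨?_⟩
    intro b1 b2 b3 E1 E2 E3 S k x1 y1 z1 x2 y2 z2 x3 y3 z3 v1 v2 v3 h
    exact absurd (show false = true from h) Bool.false_ne_true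
  | succ m ih =>
    refine ⟨?_⟩
    intro b1 b2 b3 E1 E2 E3 S k x1 y1 z1 x2 y2 z2 x3 y3 z3 v1 v2 v3 h
    rcases nrc h with h | ⟨t, h⟩
    · exact hD.out v1 v2 v3 h
    rcases nrc h with h | ⟨t, h⟩
    · exact hN.out v1 v2 v3 h
    rcases nrc h with h | ⟨t, h⟩
    · rcases nrc h with h | ⟨t, h⟩
      · exact hX.out v1 v2 v3 h
      · exact sq_sound ih v1 v2 v3 (Nat.succ_pos _) (Nat.succ_pos _) h
    · exact sq_sound ih v1 v2 v3 (Nat.succ_pos _) (Nat.succ_pos _) h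

end cones

/-- the eight octants -/
lemma oct {L : Set E} {Φ : E → Prop}
    (c0 : Cn L Φ (rv 1 0 0) (rv 0 1 0) (rv 0 0 1)) (c1 : Cn L Φ (rv (-1) 0 0) (rv 0 1 0) (rv 0 0 1))
    (c2 : Cn L Φ (rv 1 0 0) (rv 0 (-1) 0) (rv 0 0 1))
    (c3 : Cn L Φ (rv (-1) 0 0) (rv 0 (-1) 0) (rv 0 0 1))
    (c4 : Cn L Φ (rv 1 0 0) (rv 0 1 0) (rv 0 0 (-1)))
    (c5 : Cn L Φ (rv (-1) 0 0) (rv 0 1 0) (rv 0 0 (-1)))
    (c6 : Cn L Φ (rv 1 0 0) (rv 0 (-1) 0) (rv 0 0 (-1)))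
    (c7 : Cn L Φ (rv (-1) 0 0) (rv 0 (-1) 0) (rv 0 0 (-1))) : ∀ x ∈ L, Φ x := by
  intro x hx
  have dec : ∀ a b c : ℝ, ∀ e1 e2 e3 : ℤ, x 0 = a * e1 → x 1 = b * e2 → x 2 = c * e3 →
      x = a • rv e1 0 0 + b • rv 0 e2 0 + c • rv 0 0 e3 := by
    intro a b c e1 e2 e3 h1 h2 h3
    funext i
    fin_cases i
    · simpa [rv] using h1
    · simpa [rv] using h2
    · simpa [rv] using h3
  have use : ∀ e1 e2 e3 : ℤ, ∀ a b c : ℝ, 0 ≤ a → 0 ≤ b → 0 ≤ c → x 0 = a * e1 → x 1 = b * e2 →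
      x 2 = c * e3 → Cn L Φ (rv e1 0 0) (rv 0 e2 0) (rv 0 0 e3) → Φ x := by
    intro e1 e2 e3 a b c ha hb hc h1 h2 h3 hcn
    have e := dec a b c e1 e2 e3 h1 h2 h3
    have hx' := hx
    rw [e] at hx' ⊢
    exact hcn a b c ha hb hc hx'
  rcases le_total 0 (x 0) with hx0 | hx0 <;> rcases le_total 0 (x 1) with hx1 | hx1 <;>
    rcases le_total 0 (x 2) with hx2 | hx2
  · exact use 1 1 1 (x 0) (x 1) (x 2) hx0 hx1 hx2 (by simp) (by simp) (by simp) c0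
  · exact use 1 1 (-1) (x 0) (x 1) (-x 2) hx0 hx1 (by linarith) (by simp) (by simp) (by simp) c4
  · exact use 1 (-1) 1 (x 0) (-x 1) (x 2) hx0 (by linarith) hx2 (by simp) (by simp) (by simp) c2
  · exact use 1 (-1) (-1) (x 0) (-x 1) (-x 2) hx0 (by linarith) (by linarith) (by simp) (by simp)
      (by simp) c6
  · exact use (-1) 1 1 (-x 0) (x 1) (x 2) (by linarith) hx1 hx2 (by simp) (by simp) (by simp) c1
  · exact use (-1) 1 (-1) (-x 0) (x 1) (-x 2) (by linarith) hx1 (by linarith) (by simp) (by simp)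
      (by simp) c5
  · exact use (-1) (-1) 1 (-x 0) (-x 1) (x 2) (by linarith) (by linarith) hx2 (by simp) (by simp)
      (by simp) c3
  · exact use (-1) (-1) (-1) (-x 0) (-x 1) (-x 2) (by linarith) (by linarith) (by linarith)
      (by simp) (by simp) (by simp) c7

theorem o8_sound {hs : List FD} {L : Set E} {Φ : E → Prop} {TD TX TN : DT}
    (hD : SndD hs L Φ TD) (hX : SndD hs L Φ TX) (hN : SndD hs L Φ TN)
    {BI C0 C1 C2 C3 D1 D2 D3 : ℕ} (hn : Nu hs BI C0 C1 C2 C3 D1 D2 D3)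
    {S0 S1 S2 S3 S4 S5 S6 S7 : ℕ}
    (h : o8 TD TX TN C1 C2 C3 D1 D2 D3 S0 S1 S2 S3 S4 S5 S6 S7 = true) :
    ∀ x ∈ L, Φ x := by
  obtain ⟨h, k0⟩ := br h
  obtain ⟨h, k1⟩ := br h
  obtain ⟨h, k2⟩ := br h
  obtain ⟨h, k3⟩ := br h
  obtain ⟨h, k4⟩ := br h
  obtain ⟨h, k5⟩ := br h
  obtain ⟨k7, k6⟩ := br h
  have p1 : V3 hs 1 C1 1 0 0 := v3_unit (hn.hC1.congr (fun f _ => by simp [dz]))
    (by norm_num) (by norm_num) (by norm_num)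
  have p2 : V3 hs 1 C2 0 1 0 := v3_unit (hn.hC2.congr (fun f _ => by simp [dz]))
    (by norm_num) (by norm_num) (by norm_num)
  have p3 : V3 hs 1 C3 0 0 1 := v3_unit (hn.hC3.congr (fun f _ => by simp [dz]))
    (by norm_num) (by norm_num) (by norm_num)
  have m1 : V3 hs 1 D1 (-1) 0 0 := v3_unit (hn.hD1.congr (fun f _ => by simp [dz]))
    (by norm_num) (by norm_num) (by norm_num)
  have m2 : V3 hs 1 D2 0 (-1) 0 := v3_unit (hn.hD2.congr (fun f _ => by simp [dz]))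
    (by norm_num) (by norm_num) (by norm_num)
  have m3 : V3 hs 1 D3 0 0 (-1) := v3_unit (hn.hD3.congr (fun f _ => by simp [dz]))
    (by norm_num) (by norm_num) (by norm_num)
  have g := gc_sound hD hX hN 64
  exact oct (g.out p1 p2 p3 k0).1 (g.out m1 p2 p3 k1).1 (g.out p1 m2 p3 k2).1
    (g.out m1 m2 p3 k3).1 (g.out p1 p2 m3 k4).1 (g.out m1 p2 m3 k5).1 (g.out p1 m2 m3 k6).1
    (g.out m1 m2 m3 k7).1

end Pool.Agent.Lib.MP_5e7226_co.C8.TR
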