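import Pool.Agent.Lib.MP_5e7226_co.C8.TRS2

/-!
# Soundness of the fast evaluation with a scale of the radii, third part: facts and children
-/

set_option autoImplicit false

open Set

namespace Pool.Agent.Lib.MP_5e7226_co.C8.TR

open GB C8.TF

/-- the data of a cover are correct -/
structure Cu (n R P nf nd nF M1 CL CS : ℕ) (WV FV : ℕ → ℕ) (W TF : ℕ) (K : List ℕ)
    (fs ds : List FD) (L : Set E) (CB C0 : ℕ) (VV VC VP : ℕ → ℕ) (G : List UG) : Prop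
    extends Cd R P nf nd nF M1 CL CS WV FV W TF K fs ds L where
  hC0 : Rp (fs ++ ds) C0 (fun h => (h.c : ℤ))
  hCB : Rp (fs ++ ds) CB (fun _ => 2 ^ 95 - 1)
  hVV : ∀ p, Rp (fs ++ ds) (VV p) (fun h => -dz h (ix p) (iy p) (iz p))
  hVC : ∀ p, Rp (fs ++ ds) (VC p) (fun h => -dz h (gx p) (gy p) (gz p))
  hVP : ∀ p, Rp (fs ++ ds) (VP p) (fun h => dz h (ix p) (iy p) (iz p))
  unl : ∀ g ∈ G, ∀ a < n, ∃ x ∈ L, x ∈ convexHull ℝ (cg g.m g.C) ∧ ¬Serve L x (-(rp (pt g.W a)))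

lemma f24_lt (s o : ℕ) : f24 s o < 2 ^ 24 := lt_of_le_of_lt (land_le _ _) (by norm_num)

lemma f20_lt (s o : ℕ) : f20 s o < 2 ^ 20 := lt_of_le_of_lt (land_le _ _) (by norm_num)

lemma f12_lt (s o : ℕ) : f12 s o < 2 ^ 12 := lt_of_le_of_lt (land_le _ _) (by norm_num)

section cones

variable {n R P nf nd nF M1 CL CS : ℕ} {WV FV : ℕ → ℕ} {W TF : ℕ} {K : List ℕ}
    {fs ds : List FD} {L : Set E} {CB C0 : ℕ} {VV VC VP : ℕ → ℕ} {G : List UG}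
    {J : Set (E × Set E)}

lemma uL_sound (h : Cu n R P nf nd nF M1 CL CS WV FV W TF K fs ds L CB C0 VV VC VP G)
    {b1 b2 b3 E1 E2 E3 : ℕ} {x1 y1 z1 x2 y2 z2 x3 y3 z3 : ℤ} (v1 : V3 (fs ++ ds) b1 E1 x1 y1 z1)
    (v2 : V3 (fs ++ ds) b2 E2 x2 y2 z2) (v3 : V3 (fs ++ ds) b3 E3 x3 y3 z3)
    {r1 r2 r3 p : ℕ}
    (hr1 : r1 * b1 ≤ 4294967295) (hr2 : r2 * b2 ≤ 4294967295) (hr3 : r3 * b3 ≤ 4294967295)
    {k : ℕ → Bool} : ∀ (m C S : ℕ), uL M1 R CB C0 VC (VP p) r1 r2 r3 E1 E2 E3 k m C S = true →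
    (∀ i < m, Lifts (KS K) (rp p) (gp (C / 2 ^ (78 * i))) (((r1 : ℝ) / R) • rv x1 y1 z1) ∧
      Lifts (KS K) (rp p) (gp (C / 2 ^ (78 * i))) (((r2 : ℝ) / R) • rv x2 y2 z2) ∧
      Lifts (KS K) (rp p) (gp (C / 2 ^ (78 * i))) (((r3 : ℝ) / R) • rv x3 y3 z3)) ∧
    ∃ S', k S' = true := by
  intro m
  induction m with
  | zero =>
    intro C S ht
    exact ⟨fun i hi => absurd hi (Nat.not_lt_zero i), S, ht⟩
  | succ m ih =>
    intro C S ht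
    obtain ⟨ht, h1⟩ := br ht
    obtain ⟨h2, h3⟩ := ih _ _ ht
    refine ⟨?_, h3⟩
    intro i hi
    cases i with
    | succ i =>
      have h4 := h2 i (by omega)
      have e : Nat.shiftRight C 78 / 2 ^ (78 * i) = C / 2 ^ (78 * (i + 1)) := by
        rw [nshr, Nat.div_div_eq_div_mul, ← pow_add, show 78 + 78 * i = 78 * (i + 1) by ring]
      rw [e] at h4
      exact h4
    | zero =>
      rw [mul_zero, pow_zero, Nat.div_one]
      have h1' := (beq_iff _ _).1 h1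
      rw [nland, nland, nland, h.hM1] at h1'
      have hc := set_of_mask h1'
      have b1 : |ix p| ≤ 65536 := (ix_bd _).trans (by norm_num)
      have b2 : |iy p| ≤ 65536 := (iy_bd _).trans (by norm_num)
      have b3 : |iz p| ≤ 65536 := (iz_bd _).trans (by norm_num)
      obtain ⟨a1, a2, a3⟩ := V3.bn v1
      obtain ⟨q1, q2, q3⟩ := V3.bn v2
      obtain ⟨o1, o2, o3⟩ := V3.bn v3
      have u1 := uX_sound (a₁ := ix p) (b₁ := iy p) (c₁ := iz p) (a' := gx C) (b' := gy C)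
        (c' := gz C) h.fac h.toCd.R1 h.toCd.R2 h.hC0 h.hCB (h.hVC C) (h.hVP p) v1.rep hr1
          (f24_lt S 0) (f12_lt S 24)
          a1 a2 a3 b1 b2 b3 (gx_bd C) (gy_bd C) (gz_bd C) (fun g hg => by
            have := hc g hg
            simp only [Nat.testBit_and, Bool.and_eq_true] at this
            exact this.1.1)
      have u2 := uX_sound (a₁ := ix p) (b₁ := iy p) (c₁ := iz p) (a' := gx C) (b' := gy C)
        (c' := gz C) h.fac h.toCd.R1 h.toCd.R2 h.hC0 h.hCB (h.hVC C) (h.hVP p) v2.rep hr2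
          (f24_lt S 36) (f12_lt S 60)
          q1 q2 q3 b1 b2 b3 (gx_bd C) (gy_bd C) (gz_bd C) (fun g hg => by
            have := hc g hg
            simp only [Nat.testBit_and, Bool.and_eq_true] at this
            exact this.1.2)
      have u3 := uX_sound (a₁ := ix p) (b₁ := iy p) (c₁ := iz p) (a' := gx C) (b' := gy C)
        (c' := gz C) h.fac h.toCd.R1 h.toCd.R2 h.hC0 h.hCB (h.hVC C) (h.hVP p) v3.rep hr3
          (f24_lt S 72) (f12_lt S 96)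
          o1 o2 o3 b1 b2 b3 (gx_bd C) (gy_bd C) (gz_bd C) (fun g hg => by
            have := hc g hg
            simp only [Nat.testBit_and, Bool.and_eq_true] at this
            exact this.2)
      exact ⟨u1, u2, u3⟩

lemma wU_sound (h : Cu n R P nf nd nF M1 CL CS WV FV W TF K fs ds L CB C0 VV VC VP G)
    {b1 b2 b3 E1 E2 E3 : ℕ} {x1 y1 z1 x2 y2 z2 x3 y3 z3 : ℤ} (v1 : V3 (fs ++ ds) b1 E1 x1 y1 z1)
    (v2 : V3 (fs ++ ds) b2 E2 x2 y2 z2) (v3 : V3 (fs ++ ds) b3 E3 x3 y3 z3)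
    {r1 r2 r3 S : ℕ}
    (hr1 : r1 * b1 ≤ 4294967295) (hr2 : r2 * b2 ≤ 4294967295) (hr3 : r3 * b3 ≤ 4294967295)
    {k : ℕ → Bool} (ht : wU n M1 R CB C0 VC VP G r1 r2 r3 E1 E2 E3 S k = true) :
    Wt L R r1 r2 r3 x1 y1 z1 x2 y2 z2 x3 y3 z3 ∧ ∃ S', k S' = true := by
  obtain ⟨g, hg, ht⟩ := gG_true ht
  obtain ⟨ht, h1⟩ := br ht
  have ha := Nat.le_of_ble_eq_true h1
  obtain ⟨h2, h3⟩ := uL_sound h v1 v2 v3 hr1 hr2 hr3 _ _ _ ht
  refine ⟨⟨_, dead_lifts h.conv h.sub h.toCd.zeroL (h.unl g hg _ ha), ?_, ?_, ?_⟩, h3⟩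
  · rintro c (rfl | ⟨i, hi, rfl⟩)
    · exact lifts_zero h.fac.zero_int _ _
    · exact (h2 i hi).1
  · rintro c (rfl | ⟨i, hi, rfl⟩)
    · exact lifts_zero h.fac.zero_int _ _
    · exact (h2 i hi).2.1
  · rintro c (rfl | ⟨i, hi, rfl⟩)
    · exact lifts_zero h.fac.zero_int _ _
    · exact (h2 i hi).2.2

lemma wD_sound (h : Cd R P nf nd nF M1 CL CS WV FV W TF K fs ds L)
    {b1 b2 b3 E1 E2 E3 : ℕ} {x1 y1 z1 x2 y2 z2 x3 y3 z3 : ℤ} (v1 : V3 (fs ++ ds) b1 E1 x1 y1 z1)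
    (v2 : V3 (fs ++ ds) b2 E2 x2 y2 z2) (v3 : V3 (fs ++ ds) b3 E3 x3 y3 z3)
    {r1 r2 r3 S : ℕ}
    (hr1 : r1 * b1 ≤ 4294967295) (hr2 : r2 * b2 ≤ 4294967295) (hr3 : r3 * b3 ≤ 4294967295)
    {k : ℕ → Bool} (ht : wD nf nd CL r1 r2 r3 E1 E2 E3 S k = true) :
    Wt L R r1 r2 r3 x1 y1 z1 x2 y2 z2 x3 y3 z3 ∧ ∃ S', k S' = true := by
  obtain ⟨ht, h1⟩ := br ht
  obtain ⟨ht, hd⟩ := br ht
  exact ⟨dd_core h v1 v2 v3 (Nat.le_of_ble_eq_true h1) hr1 hr2 hr3 hd, _, ht⟩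

lemma wN_sound (h : Cd R P nf nd nF M1 CL CS WV FV W TF K fs ds L)
    {b1 b2 b3 E1 E2 E3 : ℕ} {x1 y1 z1 x2 y2 z2 x3 y3 z3 : ℤ} (v1 : V3 (fs ++ ds) b1 E1 x1 y1 z1)
    (v2 : V3 (fs ++ ds) b2 E2 x2 y2 z2) (v3 : V3 (fs ++ ds) b3 E3 x3 y3 z3)
    {r1 r2 r3 S : ℕ}
    (hr1 : r1 * b1 ≤ 4294967295) (hr2 : r2 * b2 ≤ 4294967295) (hr3 : r3 * b3 ≤ 4294967295)
    {k : ℕ → Bool} (ht : wN nF M1 CS FV r1 r2 r3 E1 E2 E3 S k = true) :
    Wt L R r1 r2 r3 x1 y1 z1 x2 y2 z2 x3 y3 z3 ∧ ∃ S', k S' = true := by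
  obtain ⟨ht, h1⟩ := br ht
  obtain ⟨ht, h2⟩ := br ht
  obtain ⟨s1, s2, s3⟩ := sh_core h v1 v2 v3 (h.hF _) hr1 hr2 hr3 (f20_lt _ _) (f20_lt _ _)
    (f20_lt _ _) h2
  exact ⟨⟨_, dead_shd h.conv h.sub h.ne h.zeroL (h.out _ (Nat.le_of_ble_eq_true h1)), s1, s2, s3⟩,
    _, ht⟩

lemma wk_sound (h : Cu n R P nf nd nF M1 CL CS WV FV W TF K fs ds L CB C0 VV VC VP G)
    (J : List KG) {b1 b2 b3 U1 U2 U3 E1 E2 E3 : ℕ} {k : ℕ → Bool}
    {x1 y1 z1 x2 y2 z2 x3 y3 z3 : ℤ}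
    (v1 : V4 (fs ++ ds) b1 U1 E1 x1 y1 z1) (v2 : V4 (fs ++ ds) b2 U2 E2 x2 y2 z2)
    (v3 : V4 (fs ++ ds) b3 U3 E3 x3 y3 z3) : ∀ (m r1 r2 r3 S : ℕ), 0 < r1 → 0 < r2 → 0 < r3 →
    r1 * b1 ≤ 4294967295 → r2 * b2 ≤ 4294967295 → r3 * b3 ≤ 4294967295 →
    wk n nf nd nF M1 R CL CS CB C0 VV VC VP FV G J b1 b2 b3 U1 U2 U3 E1 E2 E3 k m r1 r2 r3 S =
      true →
    Out L (Phi (Wf n (Wl n W)) (JQ J) L) (rv x1 y1 z1) (rv x2 y2 z2) (rv x3 y3 z3)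
      ((r1 : ℝ) / R) ((r2 : ℝ) / R) ((r3 : ℝ) / R) ∧ ∃ S', k S' = true := by
  have w1 := v1.toV3
  have w2 := v2.toV3
  have w3 := v3.toV3
  intro m
  induction m with
  | zero =>
    intro r1 r2 r3 S _ _ _ _ _ _ ht
    exact absurd (show false = true from ht) Bool.false_ne_true
  | succ m ih =>
    intro r1 r2 r3 S q1 q2 q3 m1 m2 m3 ht
    have dn : (Wt L R r1 r2 r3 x1 y1 z1 x2 y2 z2 x3 y3 z3 ∧ ∃ S', k S' = true) →
        Out L (Phi (Wf n (Wl n W)) (JQ J) L) (rv x1 y1 z1) (rv x2 y2 z2) (rv x3 y3 z3)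
          ((r1 : ℝ) / R) ((r2 : ℝ) / R) ((r3 : ℝ) / R) ∧ ∃ S', k S' = true := by
      rintro ⟨⟨T, hT, t1, t2, t3⟩, hk⟩
      exact ⟨out_dead (h.toCd.pos q1) (h.toCd.pos q2) (h.toCd.pos q3) hT t1 t2 t3, hk⟩
    rcases nrc ht with ht | ⟨t, ht⟩
    · exact dn (wD_sound h.toCd w1 w2 w3 m1 m2 m3 ht)
    rcases nrc ht with ht | ⟨t, ht⟩
    · exact dn (wN_sound h.toCd w1 w2 w3 m1 m2 m3 ht)
    rcases nrc ht with ht | ⟨t, ht⟩
    · exact dn (wU_sound h w1 w2 w3 m1 m2 m3 ht)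
    obtain ⟨g, hg, ht⟩ := gK_true ht
    obtain ⟨ht, hR⟩ := br ht
    obtain ⟨ht, l3⟩ := br ht
    obtain ⟨ht, l2⟩ := br ht
    obtain ⟨ht, l1⟩ := br ht
    obtain ⟨ht, c3⟩ := br ht
    obtain ⟨ht, c2⟩ := br ht
    obtain ⟨ht, c1⟩ := br ht
    obtain ⟨ht, c0⟩ := br ht
    have hR' : R = 4096 := (beq_iff _ _).1 hR
    have l1' := Nat.le_of_ble_eq_true l1
    have l2' := Nat.le_of_ble_eq_true l2
    have l3' := Nat.le_of_ble_eq_true l3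
    have hN : Rp (fs ++ ds) (Nat.mul R (VV g.y))
        (fun h => -(R * dz h (ix g.y) (iy g.y) (iz g.y))) := by
      refine ((h.hVV g.y).mul R).congr (fun f _ => ?_)
      ring
    obtain ⟨s1, s2, s3⟩ := sh_core h.toCd w1 w2 w3 hN m1 m2 m3 (f20_lt _ _) (f20_lt _ _)
      (f20_lt _ _) c0
    have d1 := crn_sound v1 c1
    have d2 := crn_sound v2 c2
    have d3 := crn_sound v3 c3
    have kb : ∀ {m C b U r i : ℕ}, C8.TF.crn m C b U r i = true → r * b ≤ 4294967295 := by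
      intro m C b U r i hh
      exact (Nat.le_of_ble_eq_true (br hh).2).trans (by norm_num)
    have le' : ∀ {r s : ℕ}, r ≤ s → (r : ℝ) / R ≤ (s : ℝ) / R := by
      intro r s hrs
      have : (r : ℝ) ≤ s := by exact_mod_cast hrs
      have h0 : (0 : ℝ) < R := by exact_mod_cast h.toCd.R1
      exact div_le_div_of_nonneg_right this h0.le
    obtain ⟨ho, hk⟩ := ih _ _ _ _ (lt_of_lt_of_le q1 l1') (lt_of_lt_of_le q2 l2')
      (lt_of_lt_of_le q3 l3') (kb c1) (kb c2) (kb c3) ht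
    refine ⟨out_step (h.toCd.pos q1) (h.toCd.pos q2) (h.toCd.pos q3) (le' l1') (le' l2')
      (le' l3') ?_ ho, hk⟩
    rintro x hx ⟨z, hz, τ, hτ, hxe⟩ hxc
    have hz' := hull3 (shd_convex h.toCd.ne (rp g.y)) s1 s2 s3 hz
    have hx' := hx
    rw [hxe] at hx'
    refine Or.inr ⟨(rp g.y, cg g.m g.C), ⟨g, hg, rfl⟩,
      shd_mem h.conv h.sub h.toCd.zeroL hτ hx' hz', ?_⟩
    show x ∈ convexHull ℝ (cg g.m g.C)
    rw [hR'] at hxc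
    exact hull6 (convex_convexHull ℝ _) (cg_smul q1 l1' d1) (cg_smul q2 l2' d2)
      (cg_smul q3 l3' d3) (subset_convexHull ℝ _ d1) (subset_convexHull ℝ _ d2)
      (subset_convexHull ℝ _ d3) hxc

/-- the check of a cone is correct, with the second vectors -/
structure SndK (hs : List FD) (L : Set E) (Φ : E → Prop) (T : CT) : Prop where
  out : ∀ {b1 b2 b3 U1 U2 U3 E1 E2 E3 S : ℕ} {k : ℕ → Bool} {x1 y1 z1 x2 y2 z2 x3 y3 z3 : ℤ},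
    V4 hs b1 U1 E1 x1 y1 z1 → V4 hs b2 U2 E2 x2 y2 z2 → V4 hs b3 U3 E3 x3 y3 z3 →
    T b1 b2 b3 U1 U2 U3 E1 E2 E3 S k = true →
    Cn L Φ (rv x1 y1 z1) (rv x2 y2 z2) (rv x3 y3 z3) ∧ ∃ S', k S' = true

lemma tG_sound (h : Cu n R P nf nd nF M1 CL CS WV FV W TF K fs ds L CB C0 VV VC VP G)
    (J : List KG) :
    SndK (fs ++ ds) L (Phi (Wf n (Wl n W)) (JQ J) L)
    (fun b1 b2 b3 U1 U2 U3 E1 E2 E3 =>
      tG n nf nd nF M1 R CL CS CB C0 VV VC VP WV FV G J b1 b2 b3 U1 U2 U3 E1 E2 E3) := by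
  refine ⟨?_⟩
  intro b1 b2 b3 U1 U2 U3 E1 E2 E3 S k x1 y1 z1 x2 y2 z2 x3 y3 z3 v1 v2 v3 ht
  obtain ⟨ht, ha⟩ := br ht
  obtain ⟨ht, p3⟩ := br ht
  obtain ⟨ht, p2⟩ := br ht
  obtain ⟨ht, p1⟩ := br ht
  obtain ⟨ht, hb⟩ := br ht
  obtain ⟨ht, hl⟩ := br ht
  obtain ⟨r1, r2, r3⟩ := rb_true hb
  obtain ⟨ho, hk⟩ := wk_sound h J v1 v2 v3 _ _ _ _ _ (Nat.le_of_ble_eq_true p1)
    (Nat.le_of_ble_eq_true p2) (Nat.le_of_ble_eq_true p3) r1 r2 r3 ht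
  exact ⟨cn_base (h.toCd.pos (Nat.le_of_ble_eq_true p1)) (h.toCd.pos (Nat.le_of_ble_eq_true p2))
    (h.toCd.pos (Nat.le_of_ble_eq_true p3))
    (lit_core h.toCd v1.toV3 v2.toV3 v3.toV3 (Nat.le_of_ble_eq_true ha) r1 r2 r3
      (k18 _) (k18 _) (k18 _) hl) ho, hk⟩

lemma squ_sound {hs : List FD} {Φ : E → Prop} {ih : CT} (hi : SndK hs L Φ ih)
    {x : ℕ → Bool} {e : ℕ} {b1 b2 b3 U1 U2 U3 E1 E2 E3 al be S : ℕ} {k : ℕ → Bool}
    {x1 y1 z1 x2 y2 z2 x3 y3 z3 : ℤ}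
    (v1 : V4 hs b1 U1 E1 x1 y1 z1) (v2 : V4 hs b2 U2 E2 x2 y2 z2) (v3 : V4 hs b3 U3 E3 x3 y3 z3)
    (ha : 0 < al) (hb : 0 < be)
    (h : squ ih x e b1 b2 b3 U1 U2 U3 E1 E2 E3 al be S k = true) :
    (Cn L Φ (rv x1 y1 z1) (rv x2 y2 z2) (rv x3 y3 z3) ∧ ∃ S', k S' = true) ∨
      ∃ t, x t = true := by
  have ha' : (0 : ℝ) < al := by exact_mod_cast ha
  have hb' : (0 : ℝ) < be := by exact_mod_cast hb
  rcases nrc h with h | ⟨t, h⟩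
  · left
    have vm := v1.comb v2 al be
    obtain ⟨c1, S', h⟩ := hi.out v1 vm v3 h
    obtain ⟨c2, h⟩ := hi.out vm v2 v3 h
    rw [rv_comb] at c1 c2
    exact ⟨cn_split1 ha' hb' rfl c1 c2, h⟩
  · rcases nrc h with h | ⟨t, h⟩
    · left
      have vm := v2.comb v3 al be
      obtain ⟨c1, S', h⟩ := hi.out v1 v2 vm h
      obtain ⟨c2, h⟩ := hi.out v1 vm v3 h
      rw [rv_comb] at c1 c2
      exact ⟨(cn_split1 ha' hb' rfl c1.rot.rot c2.rot.rot).rot, h⟩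
    · rcases nrc h with h | ⟨t, h⟩
      · left
        have vm := v3.comb v1 al be
        obtain ⟨c1, S', h⟩ := hi.out v1 v2 vm h
        obtain ⟨c2, h⟩ := hi.out vm v2 v3 h
        rw [rv_comb] at c1 c2
        exact ⟨(cn_split1 ha' hb' rfl c2.rot c1.rot).rot.rot, h⟩
      · exact Or.inr ⟨t, h⟩

lemma gu_sound {hs : List FD} {Φ : E → Prop} {TD TX TN : DT} {TK : CT} (hD : SndD hs L Φ TD)
    (hX : SndD hs L Φ TX) (hN : SndD hs L Φ TN) (hK : SndK hs L Φ TK)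
    (m : ℕ) : SndK hs L Φ (gu TD TX TN TK m) := by
  induction m with
  | zero =>
    refine ⟨?_⟩
    intro b1 b2 b3 U1 U2 U3 E1 E2 E3 S k x1 y1 z1 x2 y2 z2 x3 y3 z3 v1 v2 v3 h
    exact absurd (show false = true from h) Bool.false_ne_true
  | succ m ih =>
    refine ⟨?_⟩
    intro b1 b2 b3 U1 U2 U3 E1 E2 E3 S k x1 y1 z1 x2 y2 z2 x3 y3 z3 v1 v2 v3 h
    rcases nrc h with h | ⟨t, h⟩
    · exact hD.out v1.toV3 v2.toV3 v3.toV3 h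
    rcases nrc h with h | ⟨t, h⟩
    · exact hN.out v1.toV3 v2.toV3 v3.toV3 h
    rcases nrc h with h | ⟨t, h⟩
    · rcases nrc h with h | ⟨t, h⟩
      · exact hX.out v1.toV3 v2.toV3 v3.toV3 h
      · rcases squ_sound ih v1 v2 v3 (Nat.succ_pos _) (Nat.succ_pos _) h with h | ⟨t, h⟩
        · exact h
        · exact absurd h Bool.false_ne_true
    · rcases squ_sound ih v1 v2 v3 (Nat.succ_pos _) (Nat.succ_pos _) h with h | ⟨t, h⟩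
      · exact h
      · exact hK.out v1 v2 v3 h

theorem u8_sound {hs : List FD} {Φ : E → Prop} {TD TX TN : DT} {TK : CT}
    (hD : SndD hs L Φ TD) (hX : SndD hs L Φ TX) (hN : SndD hs L Φ TN) (hK : SndK hs L Φ TK)
    {BI C0 C1 C2 C3 D1 D2 D3 : ℕ} (hn : Nu hs BI C0 C1 C2 C3 D1 D2 D3)
    {S0 S1 S2 S3 S4 S5 S6 S7 : ℕ}
    (h : u8 TD TX TN TK C1 C2 C3 D1 D2 D3 S0 S1 S2 S3 S4 S5 S6 S7 = true) :
    ∀ x ∈ L, Φ x := by
  obtain ⟨h, k0⟩ := br h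
  obtain ⟨h, k1⟩ := br h
  obtain ⟨h, k2⟩ := br h
  obtain ⟨h, k3⟩ := br h
  obtain ⟨h, k4⟩ := br h
  obtain ⟨h, k5⟩ := br h
  obtain ⟨k7, k6⟩ := br h
  have p1 : V4 hs 1 1 C1 1 0 0 := v4_unit (hn.hC1.congr (fun f _ => by simp [dz]))
    (by norm_num) (by norm_num) (by norm_num) (by norm_num)
  have p2 : V4 hs 1 67108864 C2 0 1 0 := v4_unit (hn.hC2.congr (fun f _ => by simp [dz]))
    (by norm_num) (by norm_num) (by norm_num) (by norm_num)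
  have p3 : V4 hs 1 4503599627370496 C3 0 0 1 := v4_unit (hn.hC3.congr (fun f _ => by simp [dz]))
    (by norm_num) (by norm_num) (by norm_num) (by norm_num)
  have m1 : V4 hs 1 302231454903657293676543 D1 (-1) 0 0 :=
    v4_unit (hn.hD1.congr (fun f _ => by simp [dz]))
      (by norm_num) (by norm_num) (by norm_num) (by decide)
  have m2 : V4 hs 1 302231454903657226567680 D2 0 (-1) 0 :=
    v4_unit (hn.hD2.congr (fun f _ => by simp [dz]))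
      (by norm_num) (by norm_num) (by norm_num) (by decide)
  have m3 : V4 hs 1 302231450400057666306048 D3 0 0 (-1) :=
    v4_unit (hn.hD3.congr (fun f _ => by simp [dz]))
      (by norm_num) (by norm_num) (by norm_num) (by decide)
  have g := gu_sound hD hX hN hK 64
  exact oct (g.out p1 p2 p3 k0).1 (g.out m1 p2 p3 k1).1 (g.out p1 m2 p3 k2).1
    (g.out m1 m2 p3 k3).1 (g.out p1 p2 m3 k4).1 (g.out m1 p2 m3 k5).1 (g.out p1 m2 m3 k6).1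
    (g.out m1 m2 m3 k7).1

end cones

end Pool.Agent.Lib.MP_5e7226_co.C8.TR
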