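import Pool.Agent.Lib.MP_5e7226_co.C8.TFUS3

/-!
# Trees with references to theorems for smaller states

The check of a tree of `TFU.lean`, but a reference may be a theorem for a state with fewer points
(sublists).
-/

set_option autoImplicit false

open Set

namespace Pool.Agent.Lib.MP_5e7226_co.C8.TF

open GB

/-- the second list is a sublist of the first list -/
noncomputable def sb1 (m : List ℕ) : List ℕ → Bool :=
  @List.rec ℕ (fun _ => List ℕ → Bool)
    (fun l => @List.rec ℕ (fun _ => Bool) true (fun _ _ _ => false) l)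
    (fun a _ ih l => @List.rec ℕ (fun _ => Bool) true
      (fun b l' _ => @Bool.rec (fun _ => Bool) (ih l) (ih l') (Nat.beq a b)) l) m

/-- equality of facts -/
noncomputable def eqU (a b : UG) : Bool :=
  @Bool.rec (fun _ => Bool) false (@Bool.rec (fun _ => Bool) false (Nat.beq a.m b.m)
    (Nat.beq a.C b.C)) (Nat.beq a.W b.W)

/-- the second list is a sublist of the first list, facts -/
noncomputable def sbG (m : List UG) : List UG → Bool :=
  @List.rec UG (fun _ => List UG → Bool)
    (fun l => @List.rec UG (fun _ => Bool) true (fun _ _ _ => false) l)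
    (fun a _ ih l => @List.rec UG (fun _ => Bool) true
      (fun b l' _ => @Bool.rec (fun _ => Bool) (ih l) (ih l') (eqU a b)) l) m

/-- the state is stronger than the member `i` of a list of states -/
noncomputable def sg (K F : List ℕ) (G : List UG) (l : List SG) : ℕ → Bool :=
  @List.rec SG (fun _ => ℕ → Bool) (fun _ => false)
    (fun s _ ih i => @Nat.rec (fun _ => Bool)
      (@Bool.rec (fun _ => Bool) false (@Bool.rec (fun _ => Bool) false (sbG G s.G) (sb1 F s.F))
        (sb1 K s.K))
      (fun j _ => ih j) i) l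

/-- the check of a tree with references to smaller states -/
noncomputable def ct (n Q : ℕ) (Z : ZT) (rs : List SG) (t : TU) :
    Bool → ℕ → List ℕ → List ℕ → List UG → Bool :=
  @TU.rec (fun _ => Bool → ℕ → List ℕ → List ℕ → List UG → Bool)
    (fun y _ _ ia ib md _ K F G => @Bool.rec (fun _ => Bool)
      (@Bool.rec (fun _ => Bool) false (ib false (nat_lit 0) K (y :: F) G) (ia false (nat_lit 0) (y :: K) F G)) false md)
    (fun H W S0 S1 S2 S3 S4 S5 S6 S7 md _ K F _ => @Bool.rec (fun _ => Bool)
      (lf n Q K F H W S0 S1 S2 S3 S4 S5 S6 S7) false md)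
    (fun i md _ K F G => @Bool.rec (fun _ => Bool) (sg K F G rs i) false md)
    (fun H W S0 S1 S2 S3 S4 S5 S6 S7 c ic md _ K F G => @Bool.rec (fun _ => Bool)
      (@Bool.rec (fun _ => Bool) false (ic true W K F G) (cu n Q K F G c.kd H W S0 S1 S2 S3 S4 S5 S6 S7)) false md)
    (fun md _ _ _ _ => md)
    (fun y m C _ _ ia ib md V K F G => @Bool.rec (fun _ => Bool) false
      (@Bool.rec (fun _ => Bool) false (ib true V K F G) (ia false (nat_lit 0) (y :: K) F (⟨m, C, V⟩ :: G))) md)
    (fun H y e1 e2 e3 S0 S1 S2 S3 S4 S5 S6 S7 md _ K F _ => @Bool.rec (fun _ => Bool)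
      (Z K F H y e1 e2 e3 S0 S1 S2 S3 S4 S5 S6 S7) false md)
    t

lemma brc {a b c : Bool} (h : @Bool.rec (fun _ => Bool) a b c = true) :
    (c = true ∧ b = true) ∨ (c = false ∧ a = true) := by
  cases c with
  | false => exact Or.inr ⟨rfl, h⟩
  | true => exact Or.inl ⟨rfl, h⟩

lemma sb1_true {m : List ℕ} : ∀ {l : List ℕ}, sb1 m l = true → l ⊆ m := by
  induction m with
  | nil =>
    intro l h
    cases l with
    | nil => exact List.Subset.refl _
    | cons b l => exact absurd (show false = true from h) Bool.false_ne_true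
  | cons a m ih =>
    intro l h
    cases l with
    | nil => exact List.nil_subset _
    | cons b l =>
      rcases brc h with ⟨h1, h2⟩ | ⟨_, h2⟩
      · rw [← Nat.eq_of_beq_eq_true h1]
        exact List.cons_subset_cons _ (ih h2)
      · exact List.Subset.trans (ih h2) (List.subset_cons_self _ _)

lemma eqU_true {a b : UG} (h : eqU a b = true) : a = b := by
  obtain ⟨h1, h2⟩ := br h
  obtain ⟨h1, h3⟩ := br h1
  have e1 := Nat.eq_of_beq_eq_true h1
  have e2 := Nat.eq_of_beq_eq_true h2
  have e3 := Nat.eq_of_beq_eq_true h3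
  cases a
  cases b
  simp only at e1 e2 e3
  rw [e1, e2, e3]

lemma sbG_true {m : List UG} : ∀ {l : List UG}, sbG m l = true → l ⊆ m := by
  induction m with
  | nil =>
    intro l h
    cases l with
    | nil => exact List.Subset.refl _
    | cons b l => exact absurd (show false = true from h) Bool.false_ne_true
  | cons a m ih =>
    intro l h
    cases l with
    | nil => exact List.nil_subset _
    | cons b l =>
      rcases brc h with ⟨h1, h2⟩ | ⟨_, h2⟩
      · rw [← eqU_true h1]
        exact List.cons_subset_cons _ (ih h2)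
      · exact List.Subset.trans (ih h2) (List.subset_cons_self _ _)

/-- a theorem for a smaller state -/
lemma gq_mono {P : Set E → Prop} {C : Set (Set E)} {n : ℕ} {K K' F F' : List ℕ} {G G' : List UG}
    (h : GQ P C (tsG n K' F' G')) (hK : K' ⊆ K) (hF : F' ⊆ F) (hG : G' ⊆ G) :
    GQ P C (tsG n K F G) := by
  intro L hL hs
  refine h L hL ⟨?_, ?_, ?_⟩
  · rintro _ ⟨p, hp, rfl⟩
    exact hs.pts ⟨p, hK hp, rfl⟩
  · rintro _ ⟨p, hp, rfl⟩
    exact hs.out _ ⟨p, hF hp, rfl⟩
  · rintro f ⟨g, hg, a, ha, rfl⟩
    exact hs.unlit _ ⟨g, hG hg, a, ha, rfl⟩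

lemma sg_good {P : Set E → Prop} {C : Set (Set E)} {n : ℕ} {K F : List ℕ} {G : List UG} :
    ∀ {l : List SG} {i : ℕ}, (∀ s ∈ l, GQ P C (tsG n s.K s.F s.G)) → sg K F G l i = true →
    GQ P C (tsG n K F G) := by
  intro l
  induction l with
  | nil =>
    intro i _ h
    exact absurd (show false = true from h) Bool.false_ne_true
  | cons s l ih =>
    intro i hl h
    rcases nrc h with h | ⟨j, h⟩
    · obtain ⟨h, h1⟩ := br h
      obtain ⟨h, h2⟩ := br h
      exact gq_mono (hl s List.mem_cons_self) (sb1_true h1) (sb1_true h2) (sbG_true h)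
    · exact ih (fun s hs => hl s (List.mem_cons_of_mem _ hs)) h

/-- soundness of the check -/
theorem ct_sound {P : Set E → Prop} {C : Set (Set E)} {n Q : ℕ} (hP : ∀ L, Illum L n → P L)
    (hn : 0 < n) (hC : Frm C 17179869184) (hQ : 0 < Q) (hQ' : Q ≤ 4096) {Z : ZT}
    (hZ : ZOK P C Z) {rs : List SG} (hrs : ∀ s ∈ rs, GQ P C (tsG n s.K s.F s.G)) (t : TU) :
    ∀ (V : ℕ) (K F : List ℕ) (G : List UG), (0 : E) ∈ convexHull ℝ (KS K) →
      (ct n Q Z rs t false V K F G = true → GQ P C (tsG n K F G)) ∧
      (ct n Q Z rs t true V K F G = true → ∀ g ∈ t.kd,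
        GQ P C (tsG n (g.y :: K) F (⟨g.m, g.C, V⟩ :: G))) := by
  induction t with
  | q y a b ia ib =>
    intro V K F G h0
    constructor
    · intro h
      obtain ⟨h1, h2⟩ := br h
      exact gq_query y ((ia 0 (y :: K) F G (zero_cons h0 y)).1 h2)
        ((ib 0 K (y :: F) G h0).1 h1)
    · intro h
      exact absurd (show false = true from h) Bool.false_ne_true
  | l H W S0 S1 S2 S3 S4 S5 S6 S7 =>
    intro V K F G h0
    constructor
    · intro h
      refine gq_cover (W := W) (J := JS 4096 []) hP (fun L hL hs => ?_) hn ?_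
      · refine lf_sound hC hQ hQ' h0 h L hL ⟨hs.pts, hs.out, ?_⟩
        rintro f ⟨u, hu, _⟩
        simp at hu
      · rintro _ ⟨a, ha, rfl⟩
        simp at ha
    · intro h
      exact absurd (show false = true from h) Bool.false_ne_true
  | r i =>
    intro V K F G h0
    constructor
    · intro h
      exact sg_good hrs h
    · intro h
      exact absurd (show false = true from h) Bool.false_ne_true
  | u H W S0 S1 S2 S3 S4 S5 S6 S7 c ic =>
    intro V K F G h0
    constructor
    · intro h
      obtain ⟨h1, h2⟩ := br h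
      have hk := (ic W K F G h0).2 h1
      refine gq_cover (W := W) (J := JQ c.kd) hP (cu_sound hC hQ hQ' h0 h2) hn ?_
      rintro _ ⟨g, hg, rfl⟩ L hL hs hy ⟨x, hx, hxc, hxu⟩
      have hp : KS K ⊆ L := hs.pts
      refine hk g hg L hL ⟨?_, hs.out, ?_⟩
      · show KS (g.y :: K) ⊆ L
        rw [KS_cons]
        exact insert_subset hy hp
      · rintro f ⟨g', hg', a, ha, rfl⟩
        rcases List.mem_cons.1 hg' with rfl | hg'
        · exact ⟨x, hx, hxc, hxu a ha⟩
        · exact hs.unlit _ ⟨g', hg', a, ha, rfl⟩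
    · intro h
      exact absurd (show false = true from h) Bool.false_ne_true
  | e =>
    intro V K F G h0
    constructor
    · intro h
      exact absurd (show false = true from h) Bool.false_ne_true
    · intro _ g hg
      have : g ∈ ([] : List KG) := hg
      simp at this
  | k y m C' a b ia ib =>
    intro V K F G h0
    constructor
    · intro h
      exact absurd (show false = true from h) Bool.false_ne_true
    · intro h g hg
      obtain ⟨h1, h2⟩ := br h
      have hg' : g ∈ (⟨y, m, C'⟩ : KG) :: b.kd := hg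
      rcases List.mem_cons.1 hg' with rfl | hg'
      · exact (ia 0 (y :: K) F _ (zero_cons h0 y)).1 h2
      · exact (ib V K F G h0).2 h1 g hg'
  | z H y e1 e2 e3 S0 S1 S2 S3 S4 S5 S6 S7 =>
    intro V K F G h0
    constructor
    · intro h L hL hs
      exact hZ K F H y e1 e2 e3 S0 S1 S2 S3 S4 S5 S6 S7 h h0 L hL hs.pts hs.out
    · intro h
      exact absurd (show false = true from h) Bool.false_ne_true

/-- an accepted certificate in the frame of the simplex -/
theorem gq_of_ct {P : Set E → Prop} {n : ℕ} (hP : ∀ L, Illum L n → P L) (hn : 0 < n) {Z : ZT}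
    (hZ : ZOK P (simCls 1024) Z) {rs : List SG}
    (hrs : ∀ s ∈ rs, GQ P (simCls 1024) (tsG n s.K s.F s.G)) {t : TU} {K F : List ℕ}
    {G : List UG} (h : ct n 4096 Z rs t false 0 K F G = true) (h4 : has4 K = true) :
    GQ P (simCls 1024) (tsG n K F G) :=
  (ct_sound hP hn frm_sim1024 (by norm_num) le_rfl hZ hrs t 0 K F G (zero_of_has4 h4)).1 h

/-- the statement for a state, `n` directions -/
def GI (n : ℕ) (s : SG) : Prop := GQ (fun L => Illum L n) (simCls 1024) (tsG n s.K s.F s.G)

/-- an accepted certificate, `n` directions -/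
theorem gi_of_ct {n : ℕ} (hn : 0 < n) {rs : List SG} (hrs : ∀ s ∈ rs, GI n s) {t : TU}
    {K F : List ℕ} {G : List UG} (h : ct n 4096 zn rs t false 0 K F G = true)
    (h4 : has4 K = true) : GI n ⟨K, F, G⟩ :=
  gq_of_ct (fun _ h => h) hn (zn_ok _ _) hrs h h4

/-- a packed state gives a state of the root chain, `n` directions -/
theorem root_of_gi {n : ℕ} {K F : List ℕ} {K' F' : List (ℤ × ℤ × ℤ)} (h : GI n ⟨K, F, []⟩)
    (hK : subZ K K' = true) (hF : subZ F F' = true) :
    Good n (simCls 1024) ⟨ptsZ K', ptsZ F', ∅⟩ := by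
  refine (good_of_gi h).mono (subZ_sound hK) (subZ_sound hF) ?_
  rintro f ⟨u, hu, -⟩
  simp at hu

/-- the statement for a state, eight directions -/
def G8 (s : SG) : Prop := GI 8 s

/-- an accepted certificate, eight directions -/
theorem g8_of_ct {rs : List SG} (hrs : ∀ s ∈ rs, G8 s) {t : TU} {K F : List ℕ} {G : List UG}
    (h : ct 8 4096 zn rs t false 0 K F G = true) (h4 : has4 K = true) : G8 ⟨K, F, G⟩ :=
  gi_of_ct (by norm_num) hrs h h4

/-- a packed state gives a state of the root chain, eight directions -/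
theorem root_of_g8 {K F : List ℕ} {K' F' : List (ℤ × ℤ × ℤ)} (h : G8 ⟨K, F, []⟩)
    (hK : subZ K K' = true) (hF : subZ F F' = true) :
    Good 8 (simCls 1024) ⟨ptsZ K', ptsZ F', ∅⟩ := root_of_gi h hK hF

end Pool.Agent.Lib.MP_5e7226_co.C8.TF
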