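import Pool.Agent.Lib.MP_5e7226_co.C8.TMS4

/-!
# Certificates with a triangulated surface, up to sixteen directions

As `TM.lean`; the direction of a lit label has four bits.
-/

set_option autoImplicit false

namespace Pool.Agent.Lib.MP_5e7226_co.C8.TX

open TF TP TM

end Pool.Agent.Lib.MP_5e7226_co.C8.TX
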