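import Pool.Agent.Lib.MP_5e7226_co.C8.TX
import Pool.Agent.Lib.MP_5e7226_co.C8.TMTN

/-!
# Certificates with a triangulated surface, up to sixteen directions: soundness
-/

set_option autoImplicit false

open Set

namespace Pool.Agent.Lib.MP_5e7226_co.C8.TX

open GB C8.TF TP TM

/-- the dead sets of the labels -/
def Qd (K : List ℕ) (ds : List FD) (FP : ℕ → ℕ) (i : ℕ) : Set E :=
  if i < 48 then {z | Shd (KS K) (rp (FP (i - 16))) z}
  else {z | ∃ (g : ℕ) (hg : g < ds.length), i = 96 * g + 95 ∧ ((ds[g]).c : ℝ) ≤ nr ds[g] ⬝ᵥ z}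

/-- the labels are correct -/
def Lab (K : List ℕ) (ds : List FD) (DW FP : ℕ → ℕ) (n W A : ℕ) (z : E) : Prop :=
  (∀ a < 16, A.testBit a = true → Lit (KS K) (rvt (wv (Wl n W) (DW a))) z) ∧
  ∀ i, 16 ≤ i → A.testBit i = true → z ∈ Qd K ds FP i

/-- the numbers of a vertex are correct -/
def VL (K : List ℕ) (ds : List FD) (DW FP : ℕ → ℕ) (n W R A a b d : ℕ) (p : E) : Prop :=
  ∃ x y z : ℤ, p = rv x y z ∧ |x| ≤ 2 ^ 20 ∧ |y| ≤ 2 ^ 20 ∧ |z| ≤ 2 ^ 20 ∧ Fm a b d x y z ∧
    Lab K ds DW FP n W A ((2048 / (R : ℝ)) • rv x y z)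

section

variable {R P o M1 MK HF DM BI G0 G1 G2 G3 : ℕ} {WV FV DW FP : ℕ → ℕ} {n W : ℕ} {K : List ℕ}
    {fs ds : List FD} {L : Set E}

/-- a new dead label -/
lemma lab_n (h : Sd R P o M1 MK HF DM BI G0 G1 G2 G3 WV FV DW FP n W K fs ds L) {A Z j l : ℕ}
    {x y z : ℤ} (hZ : Rp fs Z (fun h => 2048 * dz h x y z - R * h.c))
    (hx : |x| ≤ 2 ^ 20) (hy : |y| ≤ 2 ^ 20) (hz : |z| ≤ 2 ^ 20) (hj : j < 32)
    (hl : l < 1024 * P)
    (hu : Nat.land (Nat.xor (Nat.land (Nat.add (FV j) (Nat.mul l Z)) M1) M1) M1 = 0)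
    (hA : Lab K ds DW FP n W A ((2048 / (R : ℝ)) • rv x y z)) :
    Lab K ds DW FP n W (Nat.lor A (Nat.shiftLeft 65536 j)) ((2048 / (R : ℝ)) • rv x y z) := by
  obtain ⟨h1, h2⟩ := hA
  have hb : ∀ i, (Nat.lor A (Nat.shiftLeft 65536 j)).testBit i = true →
      A.testBit i = true ∨ i = 16 + j := by
    intro i hi
    rw [nlor, Nat.testBit_or, Bool.or_eq_true] at hi
    rcases hi with hi | hi
    · exact Or.inl hi
    · exact Or.inr (tb_shl (a := 16) hi)
  refine ⟨fun a ha hi => ?_, fun i hi hi' => ?_⟩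
  · rcases hb a hi with hi | hi
    · exact h1 a ha hi
    · omega
  · rcases hb i hi' with hi' | hi'
    · exact h2 i hi hi'
    · subst hi'
      unfold Qd
      rw [if_pos (by omega)]
      have e : 16 + j - 16 = j := by omega
      rw [e]
      have hX := (h.hF j).2.add (hZ.mul l)
      refine sh_c h.fa h.R1 h.R2 (D := 1024 * P) (l := l) (X := FV j + l * Z)
        (by have := h.P2; omega) hl (hX.congr fun f _ => by push_cast; ring) hx hy hz
        ((ix_bd _).trans (by norm_num)) ((iy_bd _).trans (by norm_num))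
        ((iz_bd _).trans (by norm_num)) ?_
      intro g hg
      have hm : M1.testBit (96 * g + 95) = true := by rw [h.hM1]; exact mask_bit fs g hg
      have hb := congrArg (fun m => m.testBit (96 * g + 95)) hu
      simp only [nxor, Nat.zero_testBit] at hb
      rw [nland, Nat.testBit_and, Nat.testBit_xor, nland _ M1, Nat.testBit_and, hm] at hb
      simpa using hb

/-- a new lit label -/
lemma lab_l (h : Sd R P o M1 MK HF DM BI G0 G1 G2 G3 WV FV DW FP n W K fs ds L) {A X a s : ℕ}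
    {x y z : ℤ} (hX : Rp fs X (fun h => 2 ^ 95 + (2048 * dz h x y z - R * h.c)))
    (hx : |x| ≤ 2 ^ 20) (hy : |y| ≤ 2 ^ 20) (hz : |z| ≤ 2 ^ 20) (ha : a < 16)
    (hs : s < 2 ^ 19)
    (hu : Nat.land (Nat.add X (Nat.mul s (WV a))) M1 = 0)
    (hA : Lab K ds DW FP n W A ((2048 / (R : ℝ)) • rv x y z)) :
    Lab K ds DW FP n W (Nat.lor A (Nat.shiftLeft 1 a)) ((2048 / (R : ℝ)) • rv x y z) := by
  obtain ⟨h1, h2⟩ := hA
  have hb : ∀ i, (Nat.lor A (Nat.shiftLeft 1 a)).testBit i = true →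
      A.testBit i = true ∨ i = a := by
    intro i hi
    rw [nlor, Nat.testBit_or, Bool.or_eq_true] at hi
    rcases hi with hi | hi
    · exact Or.inl hi
    · right
      have := tb_shl (a := 0) hi
      omega
  refine ⟨fun a' ha' hi => ?_, fun i hi hi' => ?_⟩
  · rcases hb a' hi with hi | hi
    · exact h1 a' ha' hi
    · subst hi
      obtain ⟨w1, w2, w3⟩ := wv_bd (Wl n W) (DW a')
      refine lit_c h.fa h.R1 h.R2 (s := s) (X := X + s * WV a')
        ((hX.add ((h.hW a').mul s)).congr fun f _ => by ring) hs hx hy hz w1 w2 w3 ?_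
      rw [nland, h.hM1] at hu
      exact clear_of_mask hu
  · rcases hb i hi' with hi' | hi'
    · exact h2 i hi hi'
    · omega

/-- the dead labels -/
lemma ni_sound (h : Sd R P o M1 MK HF DM BI G0 G1 G2 G3 WV FV DW FP n W K fs ds L)
    {x y z : ℤ} {X Z Y w5 : ℕ} (hZ : Rp fs Z (fun h => 2048 * dz h x y z - R * h.c))
    (hx : |x| ≤ 2 ^ 20) (hy : |y| ≤ 2 ^ 20) (hz : |z| ≤ 2 ^ 20)
    (hY : Fm (Nat.land Y 4562440617622195218641171605700291324893228507248559930579192517899275167208677386505912811317371399778642309573594407310688704721375437998252661319722214188251994674360264950082874192246603775) (Nat.land (Nat.shiftRight Y 640) 4562440617622195218641171605700291324893228507248559930579192517899275167208677386505912811317371399778642309573594407310688704721375437998252661319722214188251994674360264950082874192246603775)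
      (Nat.shiftRight Y 1280) x y z) :
    ∀ (N A U V : ℕ) (Q : Fr) (ih : VT) (k : ℕ → Fr → Bool),
      Vs M1 (VL K ds DW FP n W R) ih →
      ni FV M1 (Nat.sub (Nat.mul 1024 P) 1) w5 N X Z Y A U V Q ih k = true →
      ∃ U' Q', k U' Q' = true ∧ (Nat.land U' M1 = 0 → Nat.land U M1 = 0 ∧
        (Lab K ds DW FP n W A ((2048 / (R : ℝ)) • rv x y z) →
          (∃ l, AV (VL K ds DW FP n W R) Q l) → ∃ l, AV (VL K ds DW FP n W R) Q' l)) := by
  intro N
  induction N with
  | zero =>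
    intro A U V Q ih k hi hh
    obtain ⟨U', Q', h1, h2⟩ := hi _ _ _ _ hh
    refine ⟨U', Q', h1, fun h3 => ?_⟩
    obtain ⟨h4, h5⟩ := h2 h3
    refine ⟨h4, fun hA hQ => h5 ?_⟩
    obtain ⟨l, hl⟩ := hQ
    exact ⟨rv x y z :: l, ⟨x, y, z, rfl, hx, hy, hz, hY, hA⟩, hl⟩
  | succ N ihN =>
    intro A U V Q ih k hi hh
    obtain ⟨U', Q', h1, h2⟩ := ihN _ _ _ _ _ _ hi hh
    refine ⟨U', Q', h1, fun h3 => ?_⟩
    obtain ⟨h4, h5⟩ := h2 h3
    obtain ⟨h6, h7⟩ := lor_zero h4
    refine ⟨h6, fun hA hQ => h5 ?_ hQ⟩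
    refine lab_n h hZ hx hy hz ?_ ?_ h7 hA
    · exact lt_of_le_of_lt (land_le _ _) (by norm_num)
    · exact land_mask_lt _ _ (by have := h.P1; rw [nmul]; omega)

/-- the lit labels -/
lemma li_sound (h : Sd R P o M1 MK HF DM BI G0 G1 G2 G3 WV FV DW FP n W K fs ds L)
    {x y z : ℤ} {X Z Y w3 w5 : ℕ} (hX : Rp fs X (fun h => 2 ^ 95 + (2048 * dz h x y z - R * h.c)))
    (hZ : Rp fs Z (fun h => 2048 * dz h x y z - R * h.c))
    (hx : |x| ≤ 2 ^ 20) (hy : |y| ≤ 2 ^ 20) (hz : |z| ≤ 2 ^ 20)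
    (hY : Fm (Nat.land Y 4562440617622195218641171605700291324893228507248559930579192517899275167208677386505912811317371399778642309573594407310688704721375437998252661319722214188251994674360264950082874192246603775) (Nat.land (Nat.shiftRight Y 640) 4562440617622195218641171605700291324893228507248559930579192517899275167208677386505912811317371399778642309573594407310688704721375437998252661319722214188251994674360264950082874192246603775)
      (Nat.shiftRight Y 1280) x y z) :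
    ∀ (N A U V : ℕ) (Q : Fr) (ih : VT) (k : ℕ → Fr → Bool),
      Vs M1 (VL K ds DW FP n W R) ih →
      li (ni FV M1 (Nat.sub (Nat.mul 1024 P) 1) w5) WV (Nat.sub (Nat.mul 4096 P) 1) w3 N
        X Z Y A U V Q ih k = true →
      ∃ U' Q', k U' Q' = true ∧ (Nat.land U' M1 = 0 → Nat.land U M1 = 0 ∧
        (Lab K ds DW FP n W A ((2048 / (R : ℝ)) • rv x y z) →
          (∃ l, AV (VL K ds DW FP n W R) Q l) → ∃ l, AV (VL K ds DW FP n W R) Q' l)) := by
  intro N
  induction N with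
  | zero =>
    intro A U V Q ih k hi hh
    exact ni_sound h hZ hx hy hz hY _ _ _ _ _ _ _ hi hh
  | succ N ihN =>
    intro A U V Q ih k hi hh
    obtain ⟨U', Q', h1, h2⟩ := ihN _ _ _ _ _ _ hi hh
    refine ⟨U', Q', h1, fun h3 => ?_⟩
    obtain ⟨h4, h5⟩ := h2 h3
    obtain ⟨h6, h7⟩ := lor_zero h4
    refine ⟨h6, fun hA hQ => h5 ?_ hQ⟩
    refine lab_l h hX hx hy hz ?_ ?_ h7 hA
    · exact lt_of_le_of_lt (land_le _ _) (by norm_num)
    · refine lt_of_lt_of_le (land_mask_lt _ _ (by have := h.P1; rw [nmul]; omega)) ?_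
      have := h.P2
      rw [nmul]
      omega

/-- the first labels -/
lemma lab_0 (h : Sd R P o M1 MK HF DM BI G0 G1 G2 G3 WV FV DW FP n W K fs ds L) {X : ℕ}
    {x y z : ℤ} (hX : Rp (fs ++ ds) X (fun h => 2 ^ 95 + (2048 * dz h x y z - R * h.c)))
    (hx : |x| ≤ 2 ^ 20) (hy : |y| ≤ 2 ^ 20) (hz : |z| ≤ 2 ^ 20) :
    Lab K ds DW FP n W (Nat.land (Nat.shiftRight X HF) DM) ((2048 / (R : ℝ)) • rv x y z) := by
  have hb : ∀ i, (Nat.land (Nat.shiftRight X HF) DM).testBit i = true →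
      ∃ (g : ℕ) (hg : g < ds.length), i = 96 * g + 95 ∧
        ((ds[g]).c : ℝ) ≤ nr ds[g] ⬝ᵥ ((2048 / (R : ℝ)) • rv x y z) := by
    intro i hi
    rw [nland, Nat.testBit_and, Bool.and_eq_true, h.hDM] at hi
    obtain ⟨g, hg, rfl⟩ := mask_of_bit ds i hi.2
    have h1 := hi.1
    rw [nshr, Nat.testBit_div_two_pow, h.hHF] at h1
    have e : 96 * g + 95 + 96 * fs.length = 96 * (fs.length + g) + 95 := by ring
    rw [e] at h1
    have hg' : fs.length + g < (fs ++ ds).length := by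
      rw [List.length_append]
      omega
    have h2 := dt_c h.bd hg' h.R1 h.R2 hX hx hy hz h1
    have e2 : (fs ++ ds)[fs.length + g] = ds[g] := by
      rw [List.getElem_append_right (by omega)]
      congr 1
      omega
    rw [e2] at h2
    exact ⟨g, hg, rfl, h2⟩
  refine ⟨fun a ha hi => ?_, fun i hi hi' => ?_⟩
  · obtain ⟨g, _, he, _⟩ := hb a hi
    omega
  · obtain ⟨g, hg, he, h2⟩ := hb i hi'
    unfold Qd
    rw [if_neg (by omega)]
    exact ⟨g, hg, he, h2⟩

/-- a vertex -/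
lemma v1_sound (h : Sd R P o M1 MK HF DM BI G0 G1 G2 G3 WV FV DW FP n W K fs ds L) {F0 : ℕ}
    (hL : Lan o F0) {x y z w3 w5 N U V : ℕ} (hx : x < 16384 * P) (hy : y < 16384 * P)
    (hz : z < 16384 * P) {Q : Fr} {ih : VT} {k : ℕ → Fr → Bool}
    (hi : Vs M1 (VL K ds DW FP n W R) ih)
    (hh : v1 (li (ni FV M1 (Nat.sub (Nat.mul 1024 P) 1) w5) WV (Nat.sub (Nat.mul 4096 P) 1) w3)
      MK HF DM BI G0 G1 G2 G3 F0 x y z N U V Q ih k = true) :
    ∃ U' Q', k U' Q' = true ∧ (Nat.land U' M1 = 0 → Nat.land U M1 = 0 ∧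
      ((∃ l, AV (VL K ds DW FP n W R) Q l) → ∃ l, AV (VL K ds DW FP n W R) Q' l)) := by
  have hP2 := h.P2
  have hoo := h.ho
  obtain ⟨Y, hY⟩ : ∃ Y, Y = cb G0 G1 G2 G3 x y z := ⟨_, rfl⟩
  obtain ⟨F, hF⟩ : ∃ F, F = cb F0 5148396096422391593693210985222689424575005282213296071655104164476572739631099228161281473378140200867014462091313623896471647770169205880543939042148696815209998759548209600514344487499673960289996350615186526947049573136915791280795360098101364005756748117893319615217446321397464085278907326797546027183637928885300216316649720914764708707449009493819953272390506624046949177083590099150297907997837536438233600846912049605431713435082926603157893751207164978964306795707521391103163764149247422696512731453327789280313596247298850157395987457858634514433 820186817651640487320479808367534510238779540102526006236474836166734016865198916599229854163595010108025318803836632852754125866544858043735096856439846006454978819598259642397085528696701555051856161739182647743468597210005966331382729356402325458150733960459981729036345322414555007628320445039838977906965768055963000486016154784451344531074019670008413478294798457380255788072360537234482565722954324227241174588951987799234916129852384378862113423942597907121465468838877256506330981731267510272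 5148396096422391593693210985222689424559875505895445975835011653087223472640850971847942935436341680327200515892108411609132047835397240711177878418048171027201063756236028647658420595634788935851417141860331706828497501488611626096979764216414760364613191715595435562615258056288069018893568176829707091226798639370854331474173195405993561317487119046614061242892273782562645046090020037377663408515543935277064621009614679375749011635899914139032468415271071888014891040838580767580573198805233096445544864581683568157641574597210216157268178745242343702528 x y z := ⟨_, rfl⟩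
  have hh' : li (ni FV M1 (Nat.sub (Nat.mul 1024 P) 1) w5) WV (Nat.sub (Nat.mul 4096 P) 1) w3 N
      (Nat.land (Nat.add BI Y) MK) (Nat.land Y MK) F
      (Nat.land (Nat.shiftRight (Nat.add BI Y) HF) DM) U V Q ih k = true := by
    rw [hY, hF]
    exact hh
  clear hh
  have bd : ∀ x : ℕ, x < 16384 * P → |(x : ℤ) - o| ≤ 2 ^ 20 := by
    intro x hx
    have h1 : (x : ℤ) < 16384 * P := by exact_mod_cast hx
    have h2 : (P : ℤ) ≤ 128 := by exact_mod_cast hP2
    have h3 : (o : ℤ) = 8192 * P := by exact_mod_cast hoo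
    rw [abs_le]
    constructor
    · have : (0 : ℤ) ≤ x := Nat.cast_nonneg _
      norm_num
      linarith
    · norm_num
      linarith
  have hYr : Rp (fs ++ ds) Y (fun h => 2048 * dz h ((x : ℤ) - o) ((y : ℤ) - o) ((z : ℤ) - o) -
      R * h.c) := by
    have h1 := ((h.hG0.add (h.hG1.mul x)).add (h.hG2.mul y)).add (h.hG3.mul z)
    rw [hY]
    refine Rp.congr h1 (fun f _ => ?_)
    simp only [dz]
    ring
  have hX : Rp (fs ++ ds) (Nat.add BI Y) (fun h => 2 ^ 95 + (2048 * dz h ((x : ℤ) - o)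
      ((y : ℤ) - o) ((z : ℤ) - o) - R * h.c)) := h.hBI.add hYr
  have hFm := hL x y z (by omega) (by omega) (by omega)
  rw [← hF] at hFm
  obtain ⟨U', Q', h1, h2⟩ := li_sound h (rp_mask h.hMK hX) (rp_mask h.hMK hYr) (bd x hx) (bd y hy)
    (bd z hz) hFm N _ U V Q ih k hi hh'
  refine ⟨U', Q', h1, fun h3 => ?_⟩
  obtain ⟨h4, h5⟩ := h2 h3
  exact ⟨h4, h5 (lab_0 h hX (bd x hx) (bd y hy) (bd z hz))⟩

/-- the vertices -/
lemma vs_sound (h : Sd R P o M1 MK HF DM BI G0 G1 G2 G3 WV FV DW FP n W K fs ds L) {F0 : ℕ}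
    (hL : Lan o F0) {w3' w5 w w2 w3 w6 : ℕ} (N : ℕ) :
    Vs M1 (VL K ds DW FP n W R) (vs (li (ni FV M1 (Nat.sub (Nat.mul 1024 P) 1) w5) WV
      (Nat.sub (Nat.mul 4096 P) 1) w3') w w2 w3 w6 (Nat.sub (Nat.mul 16384 P) 1)
      MK HF DM BI G0 G1 G2 G3 F0 N) := by
  have hP := h.P1
  have hm : ∀ V, Nat.land V (Nat.sub (Nat.mul 16384 P) 1) < 16384 * P := fun V =>
    land_mask_lt V (Nat.mul 16384 P) (by rw [nmul]; omega)
  induction N with
  | zero =>
    intro U V Q k hh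
    exact ⟨U, Q, hh, fun h3 => ⟨h3, id⟩⟩
  | succ N ih =>
    intro U V Q k hh
    exact v1_sound h hL (hm _) (hm _) (hm _) ih hh

/-- common labels -/
lemma lb_pos {A : ℕ} (h : lb A ≠ 0) :
    (∃ a < 16, A.testBit a = true) ∧ ∃ i, 16 ≤ i ∧ A.testBit i = true := by
  have e : lb A = (A % 2 ^ 16) * (A / 2 ^ 16) := by
    have e1 : lb A = Nat.mul (Nat.land A (2 ^ 16 - 1)) (Nat.shiftRight A 16) := rfl
    rw [e1, land_full, nshr, nmul]
  rw [e] at h
  have h1 : A % 2 ^ 16 ≠ 0 := fun h1 => h (by rw [h1, Nat.zero_mul])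
  have h2 : A / 2 ^ 16 ≠ 0 := fun h2 => h (by rw [h2, Nat.mul_zero])
  obtain ⟨a, ha⟩ := Nat.exists_testBit_of_ne_zero h1
  obtain ⟨i, hi⟩ := Nat.exists_testBit_of_ne_zero h2
  rw [Nat.testBit_mod_two_pow, Bool.and_eq_true, decide_eq_true_eq] at ha
  rw [Nat.testBit_div_two_pow] at hi
  exact ⟨⟨a, ha.1, ha.2⟩, ⟨i + 16, by omega, hi⟩⟩

/-- a triangle with common labels -/
lemma cn_tri (h : Sd R P o M1 MK HF DM BI G0 G1 G2 G3 WV FV DW FP n W K fs ds L)
    {J : Set (E × Set E)} {A1 A2 A3 : ℕ} {P1 P2 P3 : E}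
    (h1 : Lab K ds DW FP n W A1 ((2048 / (R : ℝ)) • P1))
    (h2 : Lab K ds DW FP n W A2 ((2048 / (R : ℝ)) • P2))
    (h3 : Lab K ds DW FP n W A3 ((2048 / (R : ℝ)) • P3))
    (hb : lb (Nat.land (Nat.land A1 A2) A3) ≠ 0) :
    Cn L (Phi (Wf n (Wl n W)) J L) P1 P2 P3 := by
  obtain ⟨⟨a, ha, hab⟩, i, hi, hib⟩ := lb_pos hb
  rw [nland, nland, Nat.testBit_and, Nat.testBit_and, Bool.and_eq_true, Bool.and_eq_true]
    at hab hib
  have hR0 : (0 : ℝ) < R := by exact_mod_cast h.R1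
  have hr : (0 : ℝ) < 2048 / R := by positivity
  have hne : (KS K).Nonempty := by
    have := interior_subset h.fa.zero
    exact convexHull_nonempty_iff.1 ⟨_, this⟩
  have h0L : (0 : E) ∈ L := convexHull_min h.sub h.conv (interior_subset h.fa.zero)
  refine cn_base hr hr hr ?_ ?_
  · intro x _ hx
    have h5 := hull4 (lit_convex (KS K) (rvt (wv (Wl n W) (DW a)))) (lit_zero h.fa.zero _)
      (h1.1 a ha hab.1.1) (h2.1 a ha hab.1.2) (h3.1 a ha hab.2) hx
    exact Or.inl (phi_lit h.conv h.sub (wl_len n W).le h5)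
  · have s1 := h1.2 i hi hib.1.1
    have s2 := h2.2 i hi hib.1.2
    have s3 := h3.2 i hi hib.2
    unfold Qd at s1 s2 s3
    by_cases hi40 : i < 48
    · rw [if_pos hi40] at s1 s2 s3
      exact out_dead hr hr hr (dead_shd h.conv h.sub hne h0L (h.hF (i - 16)).1) s1 s2 s3
    · rw [if_neg hi40] at s1 s2 s3
      obtain ⟨g, hg, e1, c1⟩ := s1
      obtain ⟨g2, hg2, e2, c2⟩ := s2
      obtain ⟨g3, hg3, e3, c3⟩ := s3
      have e4 : g2 = g := by omega
      have e5 : g3 = g := by omega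
      subst e4
      subst e5
      exact out_dead hr hr hr (h.dead _ (List.getElem_mem hg)) c1 c2 c3

/-- the test of a triangle -/
lemma mt_sound (h : Sd R P o M1 MK HF DM BI G0 G1 G2 G3 WV FV DW FP n W K fs ds L)
    {J : Set (E × Set E)} (R1 A1 B1 D1 : ℕ) (P1 : E) (R2 A2 B2 D2 : ℕ) (P2 : E)
    (R3 A3 B3 D3 : ℕ) (P3 : E) (u : ℕ) (k : ℕ → Bool)
    (v1 : VL K ds DW FP n W R R1 A1 B1 D1 P1) (v2 : VL K ds DW FP n W R R2 A2 B2 D2 P2)
    (v3 : VL K ds DW FP n W R R3 A3 B3 D3 P3)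
    (hh : mt R1 A1 B1 D1 R2 A2 B2 D2 R3 A3 B3 D3 u k = true) :
    ∃ v, k v = true ∧ Jm L (Phi (Wf n (Wl n W)) J L) u v (P1, P2, P3) := by
  obtain ⟨b, hb⟩ : ∃ b, b = lb (Nat.land (Nat.land R1 R2) R3) := ⟨_, rfl⟩
  have hh' : @Nat.rec (fun _ => Bool) false
      (fun _ _ => k (Nat.lor u (Nat.add (Nat.mul (Nat.mul A1 B2) D3) BC))) b = true := by
    rw [hb]
    exact hh
  clear hh
  cases b with
  | zero => exact absurd hh' Bool.false_ne_true
  | succ b =>
    refine ⟨_, hh', fun hv => ?_⟩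
    rw [nlor, Nat.testBit_or, Bool.or_eq_false_iff] at hv
    obtain ⟨x1, y1, z1, rfl, bx1, by1, bz1, ⟨f1, _, _⟩, l1⟩ := v1
    obtain ⟨x2, y2, z2, rfl, bx2, by2, bz2, ⟨_, f2, _⟩, l2⟩ := v2
    obtain ⟨x3, y3, z3, rfl, bx3, by3, bz3, ⟨_, _, f3⟩, l3⟩ := v3
    refine ⟨hv.1, ?_, cn_tri h l1 l2 l3 (by rw [← hb]; exact Nat.succ_ne_zero b)⟩
    have hp := orient bx1 by1 bz1 bx2 by2 bz2 bx3 by3 bz3 f1 f2 f3 hv.2
    have hp' : (0 : ℝ) < ((x1 * (y2 * z3 - z2 * y3) - y1 * (x2 * z3 - z2 * x3) +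
        z1 * (x2 * y3 - y2 * x3) : ℤ) : ℝ) := by exact_mod_cast hp
    simp only [TM.dt3, rv]
    push_cast at hp'
    simpa using hp'

/-- the surface -/
theorem sf_sound (h : Sd R P o M1 MK HF DM BI G0 G1 G2 G3 WV FV DW FP n W K fs ds L) {F0 : ℕ}
    (hL : Lan o F0) {J : Set (E × Set E)} {w3 w5 w V S : ℕ}
    (hh : sf (li (ni FV M1 (Nat.sub (Nat.mul 1024 P) 1) w5) WV (Nat.sub (Nat.mul 4096 P) 1) w3)
      w (Nat.sub (Nat.mul 16384 P) 1) MK HF DM BI G0 G1 G2 G3 F0 M1 V S = true) :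
    ∀ x ∈ L, Phi (Wf n (Wl n W)) J L x := by
  obtain ⟨U', Q', h1, h2⟩ := vs_sound h hL _ _ _ _ _ hh
  obtain ⟨h3, h4⟩ := br h1
  obtain ⟨_, h5⟩ := h2 (Nat.eq_of_beq_eq_true h4)
  obtain ⟨l, hl⟩ := h5 ⟨[], AV_e _⟩
  obtain ⟨T, v, hc, hv, hne, hcl⟩ := f0_sound (J := Jm L (Phi (Wf n (Wl n W)) J L))
    (fun R1 A1 B1 D1 P1 R2 A2 B2 D2 P2 R3 A3 B3 D3 P3 u k v1 v2 v3 ht =>
      mt_sound h R1 A1 B1 D1 P1 R2 A2 B2 D2 P2 R3 A3 B3 D3 P3 u k v1 v2 v3 ht) hl h3
  have hv' : v.testBit 575 = false := by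
    have h6 := Nat.eq_of_beq_eq_true hv
    have h7 := land_zero h6 (i := 575) (by decide +kernel)
    exact h7
  exact closed_phi hne (ch_good T 0 v hc hv').2 hcl

end

/-- the checks with the packed numbers -/
theorem m3_sound {n P e nf nd' nu UF W V S BI MM C0 C1 C2 C3 D1 D2 D3 : ℕ} {K F : List ℕ}
    {fs ds : List FD} {L : Set E} {J : Set (E × Set E)} (hn : 0 < n) (hP1 : 0 < P)
    (hP2 : P ≤ 128) (hf : nf = fs.length) (hd : nd' = ds.length)
    (hMM : MM = 2 ^ (96 * (fs ++ ds).length)) (hfa : Fa K fs) (hbd : ∀ h ∈ fs ++ ds, FB h)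
    (hconv : Convex ℝ L) (hsub : KS K ⊆ L)
    (hdead : ∀ h ∈ ds, Dead L {z | (h.c : ℝ) ≤ nr h ⬝ᵥ z})
    (hnu : Nu (fs ++ ds) BI C0 C1 C2 C3 D1 D2 D3)
    (hout : ∀ f < F.length, rp (pt (tk F) f) ∉ L)
    (hh : m3 n P e nf nd' nu UF (tk F) W V S
      (Nat.mul 39614081257132168796771975168 (on nf)) BI MM C0 C1 C2 C3 D1 D2 D3 = true) :
    ∀ x ∈ L, Phi (Wf n (Wl n W)) J L x := by
  obtain ⟨R, hR⟩ : ∃ R, R = Nat.mul 4096 P := ⟨_, rfl⟩
  obtain ⟨DR, hDR⟩ : ∃ DR, DR = Nat.mul 4194304 (Nat.mul P P) := ⟨_, rfl⟩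
  obtain ⟨o, ho⟩ : ∃ o, o = Nat.mul 8192 P := ⟨_, rfl⟩
  obtain ⟨K0, hK0⟩ : ∃ X, X = Nat.mul 32768 (Nat.add (Nat.add C1 C2) C3) := ⟨_, rfl⟩
  obtain ⟨MK, hMK⟩ : ∃ X, X = Nat.sub (Nat.shiftLeft 1 (Nat.mul 96 nf)) 1 := ⟨_, rfl⟩
  obtain ⟨NC, hNC⟩ : ∃ X, X = Nat.mul R (Nat.sub MM C0) := ⟨_, rfl⟩
  obtain ⟨M1, hM1⟩ : ∃ X, X = Nat.mul 39614081257132168796771975168 (on nf) := ⟨_, rfl⟩
  obtain ⟨G0, hG0⟩ : ∃ X, X = Nat.add NC (Nat.mul (Nat.mul 2048 o) (Nat.add (Nat.add D1 D2) D3)) :=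
    ⟨_, rfl⟩
  obtain ⟨F0, hF0⟩ : ∃ X, X = Nat.mul o 15129776317850095819272324571697626502927776504971003431559740999711420192968998777769829577124329729835674319858990410296955095807970386681061193967927281452375648075600104164278909904329953814850599592770590980758069220374690637827807629662352672380846434752022160216314530570959875962014528226386163127205385323615395223498354252437284493313818396117421013705448505016828976188883743734392145285326261049574016963451835089164893014262154169181289151113656914990275436268339144943845594405340739440328626546546743181311 := ⟨_, rfl⟩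
  have h1 : @Bool.rec (fun _ => Bool) false
      (ch (fun S => Nat.land (vn D1 D2 D3 K0 (Nat.land S 281474976710655)) MK)
        48 (Nat.sub n 1) W (fun WV =>
        ch (fun S => Nat.land (Nat.add (Nat.add BI (Nat.mul DR C0)) (Nat.mul DR (vn D1 D2 D3 K0
            (pt (tk F) (Nat.land S 511))))) MK) 9 nu UF (fun FV =>
          sf (li (ni FV M1 (Nat.sub (Nat.mul 1024 P) 1) (Nat.add e 15)) WV
            (Nat.sub (Nat.mul 4096 P) 1) (Nat.add e 16))
            (Nat.add 14 e) (Nat.sub (Nat.mul 16384 P) 1) MK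
            (Nat.mul 96 nf) (Nat.mul 39614081257132168796771975168 (on nd')) BI
            G0 (Nat.mul 2048 C1) (Nat.mul 2048 C2) (Nat.mul 2048 C3) F0 M1 V S)))
      (ux (tk F) (Nat.succ nu) UF) = true := by
    rw [hG0, hF0, hM1, hNC, hMK, hK0, ho, hDR, hR]
    exact hh
  clear hh
  obtain ⟨h2, hu⟩ := br h1
  clear h1
  rw [ch_eq, ch_eq] at h2
  have hR' : R = 4096 * P := hR
  have ho' : o = 8192 * P := ho
  have hDR' : DR = 1024 * P * R := by
    rw [hDR, hR', nmul, nmul]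
    ring
  have hMK' : MK = 2 ^ (96 * fs.length) - 1 := by
    rw [hMK, nshl, nmul, one_mul, hf]
    rfl
  have hK := hnu.K0
  rw [← hK0] at hK
  have hNCr : Rp (fs ++ ds) NC (fun h => -(R * h.c)) := by
    rw [hNC]
    refine ((hnu.hC0.neg hMM (by rw [hMM]; exact hnu.hC0le)).mul R).congr (fun f _ => ?_)
    ring
  refine sf_sound (K := K) (fs := fs) (ds := ds) (R := R) (P := P) (o := o)
    (DW := fun a => min a (n - 1))
    (FP := fun j => pt (tk F) (Nat.land (UF / 2 ^ (9 * min j nu)) 511)) ?_ ?_ h2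
  · refine ⟨hfa, hbd, hconv, hsub, hP1, hP2, hR', ho', ?_, hMK', ?_, ?_, hnu.hBI, ?_, ?_, ?_, ?_,
      fun a => ?_, fun j => ⟨?_, ?_⟩, hdead⟩
    · rw [hM1, pk_const, hf]
      rfl
    · rw [nmul, hf]
    · rw [pk_const, hd]
      rfl
    · rw [hG0]
      refine (hNCr.add (((hnu.hD1.add hnu.hD2).add hnu.hD3).mul (2048 * o))).congr
        (fun f _ => ?_)
      simp only [dz]
      push_cast
      ring
    · refine (hnu.hC1.mul 2048).congr (fun f _ => ?_)
      simp only [dz]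
      push_cast
      ring
    · refine (hnu.hC2.mul 2048).congr (fun f _ => ?_)
      simp only [dz]
      push_cast
      ring
    · refine (hnu.hC3.mul 2048).congr (fun f _ => ?_)
      simp only [dz]
      push_cast
      ring
    · have ha : min a (n - 1) < n := by omega
      show Rp fs (Nat.land (vn D1 D2 D3 K0 (Nat.land (W / 2 ^ (48 * min a (n - 1)))
        281474976710655)) MK) _
      rw [wv_wl ha, pt_div]
      exact rp_mask (ds := ds) hMK' (hK _)
    · have := ux_sound (F := F) (Nat.succ nu) UF hu (min j nu) (by rw [Nat.succ_eq_add_one]; omega)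
      rw [nshr] at this
      exact hout _ this
    · refine rp_mask (ds := ds) hMK' ?_
      refine ((hnu.hBI.add (hnu.hC0.mul DR)).add ((hK _).mul DR)).congr (fun f _ => ?_)
      rw [hDR']
      push_cast
      ring
  · rw [hF0]
    exact lan_of (by omega)

/-- soundness of a leaf -/
theorem lm_sound {C : Set (Set E)} (hC : Frm C 17179869184) {n : ℕ} (hn : 0 < n) {K F : List ℕ}
    {H W V S : ℕ} (h : lm n K F H W V S = true) :
    ∀ L ∈ C, KS K ⊆ L → (∀ x ∈ KS F, x ∉ L) → ∀ x ∈ L, Phi (Wf n (Wl n W)) (JQ []) L x := by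
  intro L hL hKL hFL
  obtain ⟨nd, hnd⟩ : ∃ nd, nd = Nat.land (Nat.shiftRight H 3) 63 := ⟨_, rfl⟩
  obtain ⟨nh, hnh⟩ : ∃ nh, nh = Nat.land (Nat.shiftRight H 15) 255 := ⟨_, rfl⟩
  obtain ⟨no, hno⟩ : ∃ no, no = Nat.land (Nat.shiftRight H 23) 511 := ⟨_, rfl⟩
  obtain ⟨e, he⟩ : ∃ e, e = Nat.land H 7 := ⟨_, rfl⟩
  obtain ⟨nu, hnu⟩ : ∃ nu, nu = Nat.land (Nat.shiftRight H 9) 63 := ⟨_, rfl⟩
  obtain ⟨SO, hSO⟩ : ∃ SO, SO = Nat.shiftRight H 32 := ⟨_, rfl⟩
  obtain ⟨SH, hSH⟩ : ∃ SH, SH = Nat.shiftRight H (Nat.add 32 (Nat.mul 2 no)) := ⟨_, rfl⟩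
  obtain ⟨SD, hSD⟩ : ∃ SD, SD = Nat.shiftRight SH (Nat.mul 7 nh) := ⟨_, rfl⟩
  obtain ⟨SU, hSU⟩ : ∃ SU, SU = Nat.shiftRight SD (Nat.mul 21 nd) := ⟨_, rfl⟩
  have h1 : m1 n e nd nu nh no (tk K) (tk F) SO SH SD SU W V S = true := by
    rw [hSU, hSD, hSH, hSO, hnu, he, hno, hnh, hnd]
    exact h
  have he7 : e ≤ 7 := by
    rw [he]
    exact land_le _ _
  clear h hnd hnh hno hnu hSO hSH hSD hSU he
  obtain ⟨ds, u1, h2, hdl, hd1, hd2⟩ := dl_sound nd SD _ _ h1
  obtain ⟨Q', h3, hq⟩ := hv_sound nh SH Fr.e _ h2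
  obtain ⟨l, hl⟩ := hq ⟨[], AV_e _⟩
  obtain ⟨fs, u2, h4, hfne, hf1, hf2, hmem, hint, hzero⟩ := hull_sound hl h3
  have hr : Rs (fs ++ (ds ++ [])) u2 := hf1 _ (hd1 [] rfl)
  rw [List.append_nil] at hr
  have hbd : ∀ h ∈ fs ++ ds, FB h := by
    intro h hh
    rcases List.mem_append.1 hh with hh | hh
    · exact (hf2 h hh).2
    · exact (hd2 h hh).2.1
  have hsub : KS (md K) ⊆ L := by rw [KS_md]; exact hKL
  have hfa : Fa (md K) fs := ⟨fun h hh => (hf2 h hh).2, hmem, hint, hzero⟩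
  have hdead : ∀ h ∈ ds, Dead L {z | (h.c : ℝ) ≤ nr h ⬝ᵥ z} := by
    intro h hh
    obtain ⟨hp, _, p, h1, q, h2, r, h4, rfl⟩ := hd2 h hh
    exact hC.dead L hL p q r (hsub ⟨p, h1, rfl⟩) (hsub ⟨q, h2, rfl⟩) (hsub ⟨r, h4, rfl⟩) hp
  have hout : ∀ f < F.length, rp (pt (tk F) f) ∉ L := by
    intro f hf
    rw [pt_tk F f hf, rp_mod]
    exact hFL _ ⟨_, List.getElem_mem hf, rfl⟩
  have hP1 : 0 < Nat.shiftLeft 1 e := by rw [nshl]; positivity
  have hP2 : Nat.shiftLeft 1 e ≤ 128 := by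
    rw [nshl, one_mul]
    calc 2 ^ e ≤ 2 ^ 7 := Nat.pow_le_pow_right (by norm_num) he7
      _ = 128 := by norm_num
  have hnl : Nat.sub (fs ++ ds).length nd = fs.length := by
    rw [List.length_append, hdl, nsub, Nat.add_sub_cancel]
  have hMM : Nat.shiftLeft 1 (Nat.mul 96 (fs ++ ds).length) = 2 ^ (96 * (fs ++ ds).length) := by
    rw [nshl, nmul, one_mul]
  rw [hr] at h4
  have h5 : m3 n (Nat.shiftLeft 1 e) e (Nat.sub (fs ++ ds).length nd) nd nu SU (tk F) W V S
      (Nat.mul 39614081257132168796771975168 (on (Nat.sub (fs ++ ds).length nd)))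
      (Nat.mul 39614081257132168796771975168 (on (fs ++ ds).length))
      (Nat.shiftLeft 1 (Nat.mul 96 (fs ++ ds).length)) (pk FD.c (fs ++ ds))
      (Nat.add (pk (fun h => h.A1 + 2 ^ 63 - h.B1) (fs ++ ds)) (Nat.sub
        (Nat.shiftLeft 1 (Nat.mul 96 (fs ++ ds).length))
        (Nat.mul 9223372036854775808 (on (fs ++ ds).length))))
      (Nat.add (pk (fun h => h.A2 + 2 ^ 63 - h.B2) (fs ++ ds)) (Nat.sub
        (Nat.shiftLeft 1 (Nat.mul 96 (fs ++ ds).length))
        (Nat.mul 9223372036854775808 (on (fs ++ ds).length))))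
      (Nat.add (pk (fun h => h.A3 + 2 ^ 63 - h.B3) (fs ++ ds)) (Nat.sub
        (Nat.shiftLeft 1 (Nat.mul 96 (fs ++ ds).length))
        (Nat.mul 9223372036854775808 (on (fs ++ ds).length))))
      (Nat.add (Nat.mul 9223372036854775808 (on (fs ++ ds).length)) (Nat.sub
        (Nat.shiftLeft 1 (Nat.mul 96 (fs ++ ds).length))
        (pk (fun h => h.A1 + 2 ^ 63 - h.B1) (fs ++ ds))))
      (Nat.add (Nat.mul 9223372036854775808 (on (fs ++ ds).length)) (Nat.sub
        (Nat.shiftLeft 1 (Nat.mul 96 (fs ++ ds).length))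
        (pk (fun h => h.A2 + 2 ^ 63 - h.B2) (fs ++ ds))))
      (Nat.add (Nat.mul 9223372036854775808 (on (fs ++ ds).length)) (Nat.sub
        (Nat.shiftLeft 1 (Nat.mul 96 (fs ++ ds).length))
        (pk (fun h => h.A3 + 2 ^ 63 - h.B3) (fs ++ ds)))) = true := h4
  rw [hnl, hMM] at h5
  exact m3_sound hn hP1 hP2 rfl hdl.symm rfl hfa hbd (hC.conv L hL) hsub hdead (nu_rs hbd) hout h5

/-- a leaf with a surface -/
theorem lv {n : ℕ} [NeZero n] {K F : List ℕ} (H W V S : ℕ) (h : lm n K F H W V S = true) :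
    Qn n K F := by
  intro _ L hL hs
  have h1 := lm_sound frm_sim1024 (Nat.pos_of_neZero n) h
  refine gq_cover (P := fun L => Illum L n) (n := n) (fun _ h => h) (C := simCls 1024)
    (σ := tsG n K F []) (W := W) (J := JQ []) (fun L hL hst => h1 L hL hst.pts hst.out)
    (Nat.pos_of_neZero n) ?_ L hL hs
  intro k hk
  obtain ⟨g, hg, _⟩ := hk
  exact absurd hg (by simp)

end Pool.Agent.Lib.MP_5e7226_co.C8.TX
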