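import Pool.Agent.Lib.MP_5e7226_co.C8.DQ0

/-!
# Certificates with a triangulated surface, short form

As `TM.lean` and `TX.lean`. The triangles are read along a path, the positions have classes, the
labels of a vertex are given relative to the vertex before, the shifts and weights of the labels are
found by bisection.
-/

set_option autoImplicit false

namespace Pool.Agent.Lib.MP_5e7226_co.C8.TY

open TF TP TM

/-! ### the front -/

/-- a new vertex, which becomes the focus -/
noncomputable def s1 (U : Type) (tr : RT U) (ih : FT U) (l : Fr) (R A B D : Nat) (r Q : Fr) (S : Nat)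
    (u : U) : Bool :=
  @Fr.rec (fun _ => Bool) false
    (fun R2 A2 B2 D2 _ _ => @Fr.rec (fun _ => Bool) false
      (fun R3 A3 B3 D3 Q' _ => tr R A B D R2 A2 B2 D2 R3 A3 B3 D3 u
        (ih (Fr.c R A B D l) R3 A3 B3 D3 r Q' S)) Q) r

/-- the triangle of the focus and two vertices on the right -/
noncomputable def s2 (U : Type) (tr : RT U) (ih : FT U) (l : Fr) (R A B D : Nat) (r Q : Fr) (S : Nat)
    (u : U) : Bool :=
  @Fr.rec (fun _ => Bool) false
    (fun R1 A1 B1 D1 t _ => @Fr.rec (fun _ => Bool) false
      (fun R2 A2 B2 D2 _ _ => tr R A B D R1 A1 B1 D1 R2 A2 B2 D2 u (ih l R A B D t Q S)) t) r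

/-- the choice of the step -/
noncomputable def ds (U : Type) (tr : RT U) (x : Nat) : FT U → FT U :=
  @Nat.rec (fun _ => FT U → FT U) (o1 U tr) (fun x _ => @Nat.rec (fun _ => FT U → FT U) (s1 U tr)
    (fun x _ => @Nat.rec (fun _ => FT U → FT U) (s2 U tr) (fun _ _ => o0 U tr) x) x) x

/-- the steps of the front, 2 bits each; `k` is the rest -/
noncomputable def fr (U : Type) (tr : RT U) (k : U → Bool) (n : Nat) : FT U :=
  @Nat.rec (fun _ => FT U) (oe U k) (fun _ ih l R A B D r Q S u =>
    ds U tr (Nat.land S (nat_lit 3)) ih l R A B D r Q (Nat.shiftRight S (nat_lit 2)) u) n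

/-- the first triangle and the front, `n` steps -/
noncomputable def f0 (U : Type) (tr : RT U) (k : U → Bool) (n S : Nat) (Q : Fr) (u : U) : Bool :=
  @Fr.rec (fun _ => Bool) false (fun R1 A1 B1 D1 Q _ =>
    @Fr.rec (fun _ => Bool) false (fun R2 A2 B2 D2 Q _ =>
      @Fr.rec (fun _ => Bool) false (fun R3 A3 B3 D3 Q _ =>
        tr R1 A1 B1 D1 R2 A2 B2 D2 R3 A3 B3 D3 u
          (fr U tr k n Fr.e R3 A3 B3 D3 (Fr.c R2 A2 B2 D2 (Fr.c R1 A1 B1 D1 Fr.e)) Q S)) Q) Q) Q

/-! ### the header -/

/-- the triples; an index has `w` bits, the mask is `m` -/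
noncomputable def dl (TK w m n : Nat) : Nat → Ac → (Ac → Bool) → Bool :=
  @Nat.rec (fun _ => Nat → Ac → (Ac → Bool) → Bool) (fun _ u K => K u)
    (fun _ ih S u K => d3 (pt TK (Nat.land S m)) (pt TK (Nat.land (Nat.shiftRight S w) m))
      (pt TK (Nat.land (Nat.shiftRight S (Nat.mul (nat_lit 2) w)) m)) u
        (fun u => ih (Nat.shiftRight S (Nat.mul (nat_lit 3) w)) u K)) n

/-- the vertices of the hull -/
noncomputable def hv (TK w m n : Nat) : Nat → Fr → (Fr → Bool) → Bool :=
  @Nat.rec (fun _ => Nat → Fr → (Fr → Bool) → Bool) (fun _ Q K => K Q)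
    (fun _ ih S Q K => (fun p => @Nat.rec (fun _ => Bool) false
      (fun _ _ => ih (Nat.shiftRight S w) (Fr.c p (fA p) (fB p) (fD p) Q) K) p)
      (pt TK (Nat.land S m))) n

/-- the indices of the outer points belong to points -/
noncomputable def ux (TF w m n : Nat) : Nat → Bool :=
  @Nat.rec (fun _ => Nat → Bool) (fun _ => true)
    (fun _ ih S => @Nat.rec (fun _ => Bool) false (fun _ _ => ih (Nat.shiftRight S w))
      (pt TF (Nat.land S m))) n

/-- the direction with three numbers of the width `w` and the mask `m`, shifted by `g` -/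
noncomputable def pw (g w m S : Nat) : Nat :=
  Nat.land (Nat.shiftLeft (Nat.add (Nat.land S m) (Nat.add
    (Nat.shiftLeft (Nat.land (Nat.shiftRight S w) m) (nat_lit 16))
    (Nat.shiftLeft (Nat.land (Nat.shiftRight S (Nat.mul (nat_lit 2) w)) m) (nat_lit 32)))) g)
    (nat_lit 281474976710655)

/-! ### the labels -/

/-- bisection: `f t` is the test of `t`, the mask `g` shows the direction, the steps are `2 ^ k`;
the result is zero if a test is passed -/
noncomputable def bs (f : Nat → Nat) (g n : Nat) : Nat → Nat :=
  @Nat.rec (fun _ => Nat → Nat) (fun t => f t)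
    (fun k ih t => (fun A => @Bool.rec (fun _ => Nat)
      (@Bool.rec (fun _ => Nat) (ih (Nat.add t (Nat.shiftLeft (nat_lit 1) k)))
        (ih (Nat.sub t (Nat.shiftLeft (nat_lit 1) k))) (Nat.beq (Nat.land A g) (nat_lit 0)))
      (nat_lit 0) (Nat.beq A (nat_lit 0))) (f t)) n

/-- a list of labels: bit, number of the label, mask for the bisection -/
inductive Ix
  | e
  | c (b w m : Nat) (t : Ix)

/-- labels, union, stream, new list -/
abbrev KT : Type := Nat → Nat → Nat → Ix → Bool

/-- the labels of the vertex before, one bit each; `T` is the test -/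
noncomputable def kl (T : Nat → Nat → Nat) (p : Ix) : KT → KT :=
  @Ix.rec (fun _ => KT → KT) (fun K R U V N => K R U V N)
    (fun b w m _ ih K R U V N => @Nat.rec (fun _ => Bool)
      (ih K R U (Nat.shiftRight V (nat_lit 1)) N)
      (fun _ _ => ih K (Nat.lor R b) (Nat.lor U (T w m)) (Nat.shiftRight V (nat_lit 1))
        (Ix.c b w m N)) (Nat.land V (nat_lit 1))) p

/-- new labels: a bit 1 and the index (mask `m`, width with the bit `w`), a bit 0 at the end -/
noncomputable def kn (T : Nat → Nat → Nat) (G M : Nat → Nat) (B m w n : Nat) : KT → KT :=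
  @Nat.rec (fun _ => KT → KT) (fun _ _ _ _ _ => false)
    (fun _ ih K R U V N => @Nat.rec (fun _ => Bool) (K R U (Nat.shiftRight V (nat_lit 1)) N)
      (fun _ _ => (fun a => (fun b x => (fun y => ih K (Nat.lor R b) (Nat.lor U (T x y))
          (Nat.shiftRight V w) (Ix.c b x y N)) (M x)) (Nat.shiftLeft B a) (G a))
        (Nat.land (Nat.shiftRight V (nat_lit 1)) m)) (Nat.land V (nat_lit 1))) n

/-! ### the vertices -/

/-- union, stream, lit labels and dead labels of the vertex before, vertices -/
abbrev VT : Type := Nat → Nat → Ix → Ix → Fr → Bool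

/-- a vertex with the values `Y` and the forms `F`; `LL` reads lit labels, `LD` dead labels -/
noncomputable def v2 (LL : Nat → Ix → KT → KT) (LD : Nat → Nat → Ix → KT → KT) (MK HF DM BI Y F : Nat)
    (ih : VT) (U V : Nat) (p q : Ix) (Q : Fr) : Bool :=
  LL (Nat.land (Nat.add BI Y) MK) p (fun R U V p =>
    LD (Nat.land (Nat.add BI Y) MK) (Nat.land Y MK) q (fun R U V q => ih U V p q (Fr.c R
      (Nat.land F (nat_lit 4562440617622195218641171605700291324893228507248559930579192517899275167208677386505912811317371399778642309573594407310688704721375437998252661319722214188251994674360264950082874192246603775))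
      (Nat.land (Nat.shiftRight F (nat_lit 640)) (nat_lit 4562440617622195218641171605700291324893228507248559930579192517899275167208677386505912811317371399778642309573594407310688704721375437998252661319722214188251994674360264950082874192246603775))
      (Nat.shiftRight F (nat_lit 1280)) Q)) R U V Ix.e)
    (Nat.land (Nat.shiftRight (Nat.add BI Y) HF) DM) U V Ix.e

/-- the lit labels of a vertex with the values `X` -/
noncomputable def ll (WV : Nat → Nat) (M1 m w n t X : Nat) (p : Ix) (K : KT) : KT :=
  (fun T => kl T p (kn T WV (fun x => Nat.xor (Nat.land (Nat.add x M1) M1) M1) (nat_lit 1) m w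
    (nat_lit 16) K))
    (fun x y => bs (fun t => Nat.land (Nat.add X (Nat.mul t x)) M1) y n t)

/-- the dead labels of a vertex with the values `X` and `Z` -/
noncomputable def ld (FV : Nat → Nat) (M1 m w n t X Z : Nat) (p : Ix) (K : KT) : KT :=
  (fun T => kl T p (kn T FV (fun _ => nat_lit 0) (nat_lit 65536) m w (nat_lit 16) K))
    (fun x _ => bs (fun t => Nat.xor (Nat.land (Nat.add x (Nat.mul t Z)) M1) M1)
      (Nat.land X M1) n t)

/-- a vertex with the coordinates `x`, `y`, `z` -/
noncomputable def v1 (LL : Nat → Ix → KT → KT) (LD : Nat → Nat → Ix → KT → KT)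
    (MK HF DM BI G0 G1 G2 G3 F0 x y z : Nat) (ih : VT) : VT :=
  v2 LL LD MK HF DM BI (cb G0 G1 G2 G3 x y z)
    (cb F0 (nat_lit 5148396096422391593693210985222689424575005282213296071655104164476572739631099228161281473378140200867014462091313623896471647770169205880543939042148696815209998759548209600514344487499673960289996350615186526947049573136915791280795360098101364005756748117893319615217446321397464085278907326797546027183637928885300216316649720914764708707449009493819953272390506624046949177083590099150297907997837536438233600846912049605431713435082926603157893751207164978964306795707521391103163764149247422696512731453327789280313596247298850157395987457858634514433)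
      (nat_lit 820186817651640487320479808367534510238779540102526006236474836166734016865198916599229854163595010108025318803836632852754125866544858043735096856439846006454978819598259642397085528696701555051856161739182647743468597210005966331382729356402325458150733960459981729036345322414555007628320445039838977906965768055963000486016154784451344531074019670008413478294798457380255788072360537234482565722954324227241174588951987799234916129852384378862113423942597907121465468838877256506330981731267510272)
      (nat_lit 5148396096422391593693210985222689424559875505895445975835011653087223472640850971847942935436341680327200515892108411609132047835397240711177878418048171027201063756236028647658420595634788935851417141860331706828497501488611626096979764216414760364613191715595435562615258056288069018893568176829707091226798639370854331474173195405993561317487119046614061242892273782562645046090020037377663408515543935277064621009614679375749011635899914139032468415271071888014891040838580767580573198805233096445544864581683568157641574597210216157268178745242343702528)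 x y z) ih

/-- a vertex: the coordinates have the mask `m` after a shift by `g`; their positions are `0`,
`w`, `w2`, the rest is at `w3` -/
noncomputable def vc (v : Nat → Nat → Nat → VT → VT) (g m w w2 w3 : Nat) (ih : VT) : VT :=
  fun U V p q Q => v (Nat.land (Nat.shiftLeft V g) m)
    (Nat.land (Nat.shiftLeft (Nat.shiftRight V w) g) m)
    (Nat.land (Nat.shiftLeft (Nat.shiftRight V w2) g) m) ih U (Nat.shiftRight V w3) p q Q

/-- the choice of the class -/
noncomputable def cs (c0 c1 c2 c3 : VT → VT) (x : Nat) : VT → VT :=
  @Nat.rec (fun _ => VT → VT) c0 (fun x _ => @Nat.rec (fun _ => VT → VT) c1 (fun x _ =>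
    @Nat.rec (fun _ => VT → VT) c2 (fun _ _ => c3) x) x) x

/-- the vertices -/
noncomputable def vs (c0 c1 c2 c3 : VT → VT) (k : VT) (n : Nat) : VT :=
  @Nat.rec (fun _ => VT) k
    (fun _ ih U V p q Q => cs c0 c1 c2 c3 (Nat.land V (nat_lit 3)) ih U
      (Nat.shiftRight V (nat_lit 2)) p q Q) n

/-- the end: the test of the labels, the front -/
noncomputable def ve (M1 n : Nat) : VT := fun U V _ _ Q => @Bool.rec (fun _ => Bool) false
  (f0 Nat TX.mt (fun u => Nat.beq (Nat.land u (nat_lit 123665200736552267030251260509823595017565674550605919957031528046448612553265933585158200530621522494798835713008069669675682517153375604983773077550946583958303386074349568)) (nat_lit 0))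
    n V Q (nat_lit 0))
  (Nat.beq (Nat.land U M1) (nat_lit 0))

/-- the four classes; `v` is the vertex with given coordinates -/
noncomputable def sf (v : Nat → Nat → Nat → VT → VT) (e P M1 nv V : Nat) : Bool :=
  vs (vc v (Nat.add e (nat_lit 8)) (Nat.sub (Nat.mul (nat_lit 16384) P) (Nat.mul (nat_lit 256) P))
      (nat_lit 6) (nat_lit 12) (nat_lit 18))
    (vc v (Nat.add e (nat_lit 6)) (Nat.sub (Nat.mul (nat_lit 16384) P) (Nat.mul (nat_lit 64) P))
      (nat_lit 8) (nat_lit 16) (nat_lit 24))
    (vc v (Nat.add e (nat_lit 4)) (Nat.sub (Nat.mul (nat_lit 16384) P) (Nat.mul (nat_lit 16) P))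
      (nat_lit 10) (nat_lit 20) (nat_lit 30))
    (vc v (nat_lit 0) (Nat.sub (Nat.mul (nat_lit 16384) P) (nat_lit 1)) (Nat.add e (nat_lit 14))
      (Nat.add (Nat.mul (nat_lit 2) e) (nat_lit 28)) (Nat.add (Nat.mul (nat_lit 3) e) (nat_lit 42)))
    (ve M1 (Nat.sub (Nat.add nv nv) (nat_lit 5))) nv (nat_lit 0) V Ix.e Ix.e Fr.e

/-- the checks of a leaf with the packed numbers; `P` is the power of two of the scale; `nf` is the
number of facets, `nd'` of the triples -/
noncomputable def m3 (n a P e nf nd' nu UF TF fw mf ku gw ww SW SV nv M1 BI MM C0 C1 C2 C3 D1 D2 D3 :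
    Nat) : Bool :=
  (fun DS K0 DR NC MK =>
    (@Bool.rec (fun _ => Bool) false
      (ch (fun S => Nat.land (vn D1 D2 D3 K0 (pw gw ww (Nat.sub (Nat.shiftLeft (nat_lit 1) ww)
          (nat_lit 1)) S)) MK) (Nat.mul (nat_lit 3) ww) (Nat.sub n (nat_lit 1)) SW (fun WV =>
        ch (fun S => Nat.land (Nat.add (Nat.add BI (Nat.mul DR C0)) (Nat.mul DR (vn D1 D2 D3 K0
            (pt TF (Nat.land S mf))))) MK) fw nu UF (fun FV =>
          sf (v1 (ll WV M1 (Nat.land (Nat.sub (Nat.shiftLeft (nat_lit 1) a) (nat_lit 1))
                (nat_lit 15)) (Nat.succ a) (Nat.add e (nat_lit 11))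
                (Nat.sub (Nat.mul (nat_lit 2048) P) (nat_lit 1)))
              (ld FV M1 (Nat.land (Nat.sub (Nat.shiftLeft (nat_lit 1) ku) (nat_lit 1))
                (nat_lit 31)) (Nat.succ ku) (Nat.add e (nat_lit 9))
                (Nat.sub (Nat.mul (nat_lit 512) P) (nat_lit 1)))
              MK (Nat.mul (nat_lit 96) nf)
              (Nat.mul (nat_lit 39614081257132168796771975168) (on nd')) BI
              (Nat.add NC (Nat.mul (Nat.mul (nat_lit 2048) DS) (Nat.add (Nat.add D1 D2) D3)))
              (Nat.mul (nat_lit 2048) C1) (Nat.mul (nat_lit 2048) C2) (Nat.mul (nat_lit 2048) C3)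
              (Nat.mul DS (nat_lit 15129776317850095819272324571697626502927776504971003431559740999711420192968998777769829577124329729835674319858990410296955095807970386681061193967927281452375648075600104164278909904329953814850599592770590980758069220374690637827807629662352672380846434752022160216314530570959875962014528226386163127205385323615395223498354252437284493313818396117421013705448505016828976188883743734392145285326261049574016963451835089164893014262154169181289151113656914990275436268339144943845594405340739440328626546546743181311)))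
            e P M1 nv SV)))
      (ux TF fw mf (Nat.succ nu) UF)))
    (Nat.mul (nat_lit 8192) P)
    (Nat.mul (nat_lit 32768) (Nat.add (Nat.add C1 C2) C3))
    (Nat.mul (nat_lit 4194304) (Nat.mul P P))
    (Nat.mul (Nat.mul (nat_lit 4096) P) (Nat.sub MM C0))
    (Nat.sub (Nat.shiftLeft (nat_lit 1) (Nat.mul (nat_lit 96) nf)) (nat_lit 1))

/-- the checks after the functionals -/
noncomputable def m2 (n a e nd' nu UF TF fw mf ku gw ww SW SV nv : Nat) (u : Ac) : Bool :=
  @Ac.rec (fun _ => Bool) (fun N C0 X1 X2 X3 => (fun nf MM ON =>
      m3 n a (Nat.shiftLeft (nat_lit 1) e) e nf nd' nu UF TF fw mf ku gw ww SW SV nv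
        (Nat.mul (nat_lit 39614081257132168796771975168) (on nf))
        (Nat.mul (nat_lit 39614081257132168796771975168) (on N)) MM C0
        (Nat.add X1 (Nat.sub MM ON)) (Nat.add X2 (Nat.sub MM ON)) (Nat.add X3 (Nat.sub MM ON))
        (Nat.add ON (Nat.sub MM X1)) (Nat.add ON (Nat.sub MM X2)) (Nat.add ON (Nat.sub MM X3)))
    (Nat.sub N nd') (Nat.shiftLeft (nat_lit 1) (Nat.mul (nat_lit 96) N))
    (Nat.mul (nat_lit 9223372036854775808) (on N))) u

/-- the triples, the vertices of the hull, the facets -/
noncomputable def m1 (n a e nd' nu nh nv kw mk fw mf ku gw ww TK TF SO SH SD SU : Nat) : Bool :=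
  (fun SW => dl TK kw mk nd' SD (Ac.mk (nat_lit 0) (nat_lit 0) (nat_lit 0) (nat_lit 0) (nat_lit 0))
    (fun u => hv TK kw mk nh SH Fr.e (fun Q => f0 Ac ht
      (m2 n a e nd' nu SU TF fw mf ku gw ww SW
        (Nat.shiftRight SW (Nat.mul (Nat.mul (nat_lit 3) n) ww)) nv)
      (Nat.sub (Nat.add nh nh) (nat_lit 5)) SO Q u)))
    (Nat.shiftRight SU (Nat.mul fw (Nat.succ nu)))

/-- a leaf: the scale (3 bits), the number of triples (6 bits), the number of outer points minus
one (5 bits), the numbers of vertices of the hull (6 bits) and of the surface (8 bits), the widths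
of the indices of points (3 bits), of outer points (4 bits), of the numbers of outer points (3 bits),
the exponent of the directions (3 bits); steps of the hull (2 bits each), its vertices, triples,
outer points, directions, vertices and steps of the surface; `a` is the width of the numbers of
directions -/
noncomputable def lm (n a : Nat) (K F : List Nat) (H : Nat) : Bool :=
  (fun nd' nu nh kw fw gw => (fun SO => (fun SH => (fun SD =>
      m1 n a (Nat.land H (nat_lit 7)) nd' nu nh (Nat.land (Nat.shiftRight H (nat_lit 20)) (nat_lit 255))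
        kw (Nat.sub (Nat.shiftLeft (nat_lit 1) kw) (nat_lit 1))
        fw (Nat.sub (Nat.shiftLeft (nat_lit 1) fw) (nat_lit 1))
        (Nat.land (Nat.shiftRight H (nat_lit 35)) (nat_lit 7)) gw (Nat.sub (nat_lit 16) gw)
        (tk K) (tk F) SO SH SD (Nat.shiftRight SD (Nat.mul (Nat.mul (nat_lit 3) kw) nd')))
    (Nat.shiftRight SH (Nat.mul kw nh)))
    (Nat.shiftRight SO (Nat.sub (Nat.mul (nat_lit 4) nh) (nat_lit 10))))
    (Nat.shiftRight H (nat_lit 41)))
    (Nat.land (Nat.shiftRight H (nat_lit 3)) (nat_lit 63))
    (Nat.land (Nat.shiftRight H (nat_lit 9)) (nat_lit 31))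
    (Nat.land (Nat.shiftRight H (nat_lit 14)) (nat_lit 63))
    (Nat.land (Nat.shiftRight H (nat_lit 28)) (nat_lit 7))
    (Nat.land (Nat.shiftRight H (nat_lit 31)) (nat_lit 15))
    (Nat.land (Nat.shiftRight H (nat_lit 38)) (nat_lit 7))

end Pool.Agent.Lib.MP_5e7226_co.C8.TY
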