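import Pool.Agent.Lib.MP_5e7226_co.C8.TY
import Pool.Agent.Lib.MP_5e7226_co.C8.TMH

/-!
# Certificates with a triangulated surface, short form: the front and the hull

As `TMF.lean` and `TMH.lean`, for the steps of `TY.lean`.
-/

set_option autoImplicit false

open Set

namespace Pool.Agent.Lib.MP_5e7226_co.C8.TY

open GB C8.TF TP TM

/-- a triangle with the focus and both neighbours -/
lemma cl_fill (l : List (Fin 3 → ℝ)) (p f q : Fin 3 → ℝ) (r : List (Fin 3 → ℝ))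
    (T : List ((Fin 3 → ℝ) × (Fin 3 → ℝ) × (Fin 3 → ℝ))) (h : Fill (Need l p (q :: r)) T) :
    Fill (Need (p :: l) f (q :: r)) ((p, f, q) :: T) := by
  refine fill_close (insert (lsp q r, lsp p l) (EL p l ∪ ER q r)) _ _ p f q T ?_ ?_ h
  · intro e
    simp only [Need, EL, ER, lsp, Set.mem_insert_iff, Set.mem_union]
    tauto
  · intro e
    simp only [Need, ER, lsp, Set.mem_insert_iff, Set.mem_union]
    tauto

/-- a triangle with the focus, its right neighbour and a new point -/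
lemma nw_fill (l : List (Fin 3 → ℝ)) (f b v : Fin 3 → ℝ) (r : List (Fin 3 → ℝ))
    (T : List ((Fin 3 → ℝ) × (Fin 3 → ℝ) × (Fin 3 → ℝ))) (h : Fill (Need l f (v :: b :: r)) T) :
    Fill (Need l f (b :: r)) ((f, b, v) :: T) := by
  refine fill_new (insert (lsp b r, lsp f l) (EL f l ∪ ER b r)) _ _ f b v T ?_ ?_ h
  · intro e
    simp only [Need, ER, lsp, Set.mem_insert_iff, Set.mem_union]
    tauto
  · intro e
    simp only [Need, ER, lsp, Set.mem_insert_iff, Set.mem_union]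
    tauto

/-- soundness of the steps of the front -/
lemma fr_sound {U : Type} {tr : RT U} {VL : ℕ → ℕ → ℕ → ℕ → (Fin 3 → ℝ) → Prop}
    {J : U → U → (Fin 3 → ℝ) × (Fin 3 → ℝ) × (Fin 3 → ℝ) → Prop}
    (hT : ∀ R1 A1 B1 D1 P1 R2 A2 B2 D2 P2 R3 A3 B3 D3 P3 u k,
      VL R1 A1 B1 D1 P1 → VL R2 A2 B2 D2 P2 → VL R3 A3 B3 D3 P3 →
      tr R1 A1 B1 D1 R2 A2 B2 D2 R3 A3 B3 D3 u k = true →
      ∃ v, k v = true ∧ J u v (P1, P2, P3))
    {k : U → Bool} (n : ℕ) : ∀ (L : Fr) (R A B D : ℕ) (r Q : Fr) (S : ℕ) (u : U)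
      (l' : List (Fin 3 → ℝ)) (f' : Fin 3 → ℝ) (r' q' : List (Fin 3 → ℝ)),
      AV VL L l' → VL R A B D f' → AV VL r r' → AV VL Q q' →
      TY.fr U tr k n L R A B D r Q S u = true →
      ∃ (T : List ((Fin 3 → ℝ) × (Fin 3 → ℝ) × (Fin 3 → ℝ))) (v : U),
        Ch J u T v ∧ k v = true ∧ Fill (Need l' f' r') T := by
  induction n with
  | zero =>
    intro L R A B D r Q S u l' f' r' q' hL hf hr hQ h
    cases L with
    | c R1 A1 B1 D1 L1 => exact absurd h Bool.false_ne_true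
    | e =>
      cases r with
      | e => exact absurd h Bool.false_ne_true
      | c R2 A2 B2 D2 r2 =>
        cases r2 with
        | c R3 A3 B3 D3 r3 => exact absurd h Bool.false_ne_true
        | e =>
          rw [AV_e_iff] at hL
          rw [AV_c_iff] at hr
          obtain ⟨P, r'', rfl, _, hr2⟩ := hr
          rw [AV_e_iff] at hr2
          subst hL hr2
          exact ⟨[], u, rfl, h, fill_end _ _⟩
  | succ n ih =>
    intro L R A B D r Q S u l' f' r' q' hL hf hr hQ h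
    change TY.ds U tr (Nat.land S 3) (TY.fr U tr k n) L R A B D r Q (Nat.shiftRight S 2) u = true
      at h
    generalize Nat.land S 3 = x at h
    generalize Nat.shiftRight S 2 = S' at h
    rcases x with _ | _ | _ | x
    · change o1 U tr (TY.fr U tr k n) L R A B D r Q S' u = true at h
      cases r with
      | e => exact absurd h Bool.false_ne_true
      | c R2 A2 B2 D2 r2 =>
        cases Q with
        | e => exact absurd h Bool.false_ne_true
        | c R3 A3 B3 D3 Q2 =>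
          obtain ⟨b, r3, rfl, hb, hr2⟩ := (AV_c_iff _ _ _ _ _ _ _).1 hr
          obtain ⟨v', q2, rfl, hv, hQ2⟩ := (AV_c_iff _ _ _ _ _ _ _).1 hQ
          obtain ⟨w, h1, h2⟩ := hT R A B D f' R2 A2 B2 D2 b R3 A3 B3 D3 v' u _ hf hb hv h
          obtain ⟨T, v, h3, h4, h5⟩ := ih L R A B D (Fr.c R3 A3 B3 D3 (Fr.c R2 A2 B2 D2 r2)) Q2 S' w
            l' f' (v' :: b :: r3) q2 hL hf ⟨hv, hr⟩ hQ2 h1
          exact ⟨(f', b, v') :: T, v, ⟨w, h2, h3⟩, h4, nw_fill l' f' b v' r3 T h5⟩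
    · change s1 U tr (TY.fr U tr k n) L R A B D r Q S' u = true at h
      cases r with
      | e => exact absurd h Bool.false_ne_true
      | c R2 A2 B2 D2 r2 =>
        cases Q with
        | e => exact absurd h Bool.false_ne_true
        | c R3 A3 B3 D3 Q2 =>
          obtain ⟨b, r3, rfl, hb, hr2⟩ := (AV_c_iff _ _ _ _ _ _ _).1 hr
          obtain ⟨v', q2, rfl, hv, hQ2⟩ := (AV_c_iff _ _ _ _ _ _ _).1 hQ
          obtain ⟨w, h1, h2⟩ := hT R A B D f' R2 A2 B2 D2 b R3 A3 B3 D3 v' u _ hf hb hv h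
          obtain ⟨T, v, h3, h4, h5⟩ := ih (Fr.c R A B D L) R3 A3 B3 D3 (Fr.c R2 A2 B2 D2 r2) Q2 S' w
            (f' :: l') v' (b :: r3) q2 ⟨hf, hL⟩ hv hr hQ2 h1
          rw [need_right] at h5
          exact ⟨(f', b, v') :: T, v, ⟨w, h2, h3⟩, h4, nw_fill l' f' b v' r3 T h5⟩
    · change s2 U tr (TY.fr U tr k n) L R A B D r Q S' u = true at h
      cases r with
      | e => exact absurd h Bool.false_ne_true
      | c R1 A1 B1 D1 r1 =>
        cases r1 with
        | e => exact absurd h Bool.false_ne_true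
        | c R2 A2 B2 D2 r2 =>
          obtain ⟨b, r3, rfl, hb, hr1⟩ := (AV_c_iff _ _ _ _ _ _ _).1 hr
          obtain ⟨c, r4, rfl, hc, hr2⟩ := (AV_c_iff _ _ _ _ _ _ _).1 hr1
          obtain ⟨w, h1, h2⟩ := hT R A B D f' R1 A1 B1 D1 b R2 A2 B2 D2 c u _ hf hb hc h
          obtain ⟨T, v, h3, h4, h5⟩ := ih L R A B D (Fr.c R2 A2 B2 D2 r2) Q S' w l' f' (c :: r4) q'
            hL hf hr1 hQ h1
          refine ⟨(f', b, c) :: T, v, ⟨w, h2, h3⟩, h4, ?_⟩
          rw [← need_right]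
          exact cl_fill l' f' b c r4 T h5
    · change o0 U tr (TY.fr U tr k n) L R A B D r Q S' u = true at h
      cases L with
      | e => exact absurd h Bool.false_ne_true
      | c R1 A1 B1 D1 L1 =>
        cases r with
        | e => exact absurd h Bool.false_ne_true
        | c R2 A2 B2 D2 r2 =>
          obtain ⟨p, l2, rfl, hp, hL1⟩ := (AV_c_iff _ _ _ _ _ _ _).1 hL
          obtain ⟨q, r3, rfl, hq, hr2⟩ := (AV_c_iff _ _ _ _ _ _ _).1 hr
          obtain ⟨w, h1, h2⟩ := hT R1 A1 B1 D1 p R A B D f' R2 A2 B2 D2 q u _ hp hf hq h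
          obtain ⟨T, v, h3, h4, h5⟩ := ih L1 R1 A1 B1 D1 (Fr.c R2 A2 B2 D2 r2) Q S' w l2 p
            (q :: r3) q' hL1 hp hr hQ h1
          exact ⟨(p, f', q) :: T, v, ⟨w, h2, h3⟩, h4, cl_fill l2 p f' q r3 T h5⟩

/-- soundness of the front machine: the triangles form a closed surface -/
theorem f0_sound {U : Type} {tr : RT U} {VL : ℕ → ℕ → ℕ → ℕ → (Fin 3 → ℝ) → Prop}
    {J : U → U → (Fin 3 → ℝ) × (Fin 3 → ℝ) × (Fin 3 → ℝ) → Prop}
    (hT : ∀ R1 A1 B1 D1 P1 R2 A2 B2 D2 P2 R3 A3 B3 D3 P3 u k,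
      VL R1 A1 B1 D1 P1 → VL R2 A2 B2 D2 P2 → VL R3 A3 B3 D3 P3 →
      tr R1 A1 B1 D1 R2 A2 B2 D2 R3 A3 B3 D3 u k = true →
      ∃ v, k v = true ∧ J u v (P1, P2, P3))
    {k : U → Bool} {n S : ℕ} {Q : Fr} {l : List (Fin 3 → ℝ)} (hQ : AV VL Q l) {u : U}
    (h : TY.f0 U tr k n S Q u = true) :
    ∃ (T : List ((Fin 3 → ℝ) × (Fin 3 → ℝ) × (Fin 3 → ℝ))) (v : U),
      Ch J u T v ∧ k v = true ∧ T ≠ [] ∧ ∀ e ∈ ES T, e.swap ∈ ES T := by
  cases Q with
  | e => exact absurd h Bool.false_ne_true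
  | c R1 A1 B1 D1 Q1 =>
    cases Q1 with
    | e => exact absurd h Bool.false_ne_true
    | c R2 A2 B2 D2 Q2 =>
      cases Q2 with
      | e => exact absurd h Bool.false_ne_true
      | c R3 A3 B3 D3 Q3 =>
        obtain ⟨P1, l1, rfl, h1, hQ1⟩ := (AV_c_iff _ _ _ _ _ _ _).1 hQ
        obtain ⟨P2, l2, rfl, h2, hQ2⟩ := (AV_c_iff _ _ _ _ _ _ _).1 hQ1
        obtain ⟨P3, l3, rfl, h3, hQ3⟩ := (AV_c_iff _ _ _ _ _ _ _).1 hQ2
        obtain ⟨w, h4, h5⟩ := hT R1 A1 B1 D1 P1 R2 A2 B2 D2 P2 R3 A3 B3 D3 P3 u _ h1 h2 h3 h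
        obtain ⟨T, v, h6, h7, h8⟩ := fr_sound hT n Fr.e R3 A3 B3 D3
          (Fr.c R2 A2 B2 D2 (Fr.c R1 A1 B1 D1 Fr.e)) Q3 S w [] P3 [P2, P1] l3 trivial h3
          ⟨h2, h1, trivial⟩ hQ3 h4
        rw [← need_right] at h8
        exact ⟨(P1, P2, P3) :: T, v, ⟨w, h5, h6⟩, h7, by simp, fill_start P1 P2 P3 T h8⟩

/-- the surface of the hull -/
theorem hull_sound {K : List ℕ} {k : Ac → Bool} {n S : ℕ} {Q : Fr} {l : List (Fin 3 → ℝ)}
    (hQ : AV (VH {p | p ∈ K}) Q l) {u : Ac} (h : TY.f0 Ac ht k n S Q u = true) :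
    ∃ (fs : List FD) (v : Ac), k v = true ∧ fs ≠ [] ∧ (∀ hs, Rs hs u → Rs (fs ++ hs) v) ∧
      (∀ f ∈ fs, 0 < f.c ∧ FB f) ∧
      (∀ z : E, (∀ f ∈ fs, nr f ⬝ᵥ z ≤ f.c) → z ∈ convexHull ℝ (KS K)) ∧
      (∀ z : E, (∀ f ∈ fs, nr f ⬝ᵥ z < f.c) → z ∈ interior (convexHull ℝ (KS K))) ∧
      (0 : E) ∈ interior (convexHull ℝ (KS K)) := by
  obtain ⟨T, v, hc, hv, hne, hcl⟩ := TY.f0_sound (J := Jh {p | p ∈ K}) ht_sound hQ h
  obtain ⟨fs, h1, h2, h3⟩ := ch_fs T u v hc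
  obtain ⟨h4, h5, h6⟩ := hull_core hne hcl h2 h3
  refine ⟨fs, v, hv, ?_, h1, fun f hf => ?_, h4, h5, h6⟩
  · rintro rfl
    obtain ⟨t0, ht0⟩ := List.exists_mem_of_ne_nil T hne
    obtain ⟨f, hf, _⟩ := h3 t0 ht0
    simp at hf
  · obtain ⟨t, _, p, _, q, _, r, _, _, rfl, hc⟩ := h2 f hf
    exact ⟨hc, mkFD_bd (by norm_num)⟩

/-- the vertices of the hull -/
theorem hv_sound {K : List ℕ} {w m : ℕ} : ∀ (n S : ℕ) (Q : Fr) (k : Fr → Bool),
    TY.hv (tk K) w m n S Q k = true → ∃ Q', k Q' = true ∧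
      ((∃ l, AV (VH {p | p ∈ md K}) Q l) → ∃ l, AV (VH {p | p ∈ md K}) Q' l) := by
  intro n
  induction n with
  | zero =>
    intro S Q k h
    exact ⟨Q, h, id⟩
  | succ n ih =>
    intro S Q k h
    obtain ⟨p, hp⟩ : ∃ p, p = pt (tk K) (Nat.land S m) := ⟨_, rfl⟩
    have h1 : @Nat.rec (fun _ => Bool) false (fun _ _ => TY.hv (tk K) w m n (Nat.shiftRight S w)
        (Fr.c p (fA p) (fB p) (fD p) Q) k) p = true := by
      rw [hp]
      exact h
    cases p with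
    | zero => exact absurd h1 Bool.false_ne_true
    | succ p =>
      obtain ⟨Q', h2, h3⟩ := ih _ _ _ h1
      refine ⟨Q', h2, fun hq => h3 ?_⟩
      obtain ⟨l, hl⟩ := hq
      have h4 := pt_ne (K := K) (i := Nat.land S m) (by rw [← hp]; exact Nat.succ_ne_zero p)
      rw [← hp] at h4
      exact ⟨rp (p + 1) :: l, ⟨h4.1, rfl, rfl, rfl, rfl⟩, hl⟩

/-- the triples -/
theorem dl_sound {K : List ℕ} {w m : ℕ} : ∀ (n S : ℕ) (u : Ac) (k : Ac → Bool),
    TY.dl (tk K) w m n S u k = true → ∃ (ds : List FD) (v : Ac), k v = true ∧ ds.length = n ∧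
      (∀ hs, Rs hs u → Rs (ds ++ hs) v) ∧ ∀ h ∈ ds, 0 < h.c ∧ FB h ∧
        ∃ p ∈ md K, ∃ q ∈ md K, ∃ r ∈ md K, h = mkFD 17179869184 p q r := by
  intro n
  induction n with
  | zero =>
    intro S u k h
    exact ⟨[], u, h, rfl, fun hs h => h, by simp⟩
  | succ n ih =>
    intro S u k h
    obtain ⟨i, hi⟩ : ∃ i, i = Nat.land S m := ⟨_, rfl⟩
    obtain ⟨j, hj⟩ : ∃ j, j = Nat.land (Nat.shiftRight S w) m := ⟨_, rfl⟩
    obtain ⟨l, hl⟩ : ∃ l, l = Nat.land (Nat.shiftRight S (Nat.mul 2 w)) m := ⟨_, rfl⟩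
    obtain ⟨p, hp⟩ : ∃ p, p = pt (tk K) i := ⟨_, rfl⟩
    obtain ⟨q, hq⟩ : ∃ q, q = pt (tk K) j := ⟨_, rfl⟩
    obtain ⟨r, hr⟩ : ∃ r, r = pt (tk K) l := ⟨_, rfl⟩
    obtain ⟨x, hx⟩ : ∃ x, x = Nat.mul (Nat.mul p q) r := ⟨_, rfl⟩
    have h1 : @Nat.rec (fun _ => Bool) false
        (fun _ _ => fn 17179869184 (fA p) (fB p) (fD p) (fA q) (fB r) u
          (fun u => TY.dl (tk K) w m n (Nat.shiftRight S (Nat.mul 3 w)) u k)) x = true := by
      rw [hx, hp, hq, hr, hi, hj, hl]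
      exact h
    cases x with
    | zero => exact absurd h1 Bool.false_ne_true
    | succ x =>
      have hne : p * q * r ≠ 0 := by
        have : p * q * r = x + 1 := hx.symm
        omega
      have hr0 : r ≠ 0 := fun h => hne (by rw [h, Nat.mul_zero])
      have hq0 : q ≠ 0 := fun h => hne (by rw [h, Nat.mul_zero, Nat.zero_mul])
      have hp0 : p ≠ 0 := fun h => hne (by rw [h, Nat.zero_mul, Nat.zero_mul])
      have hp2 := fun h => (pt_ne (K := K) (i := i) h).1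
      have hq2 := fun h => (pt_ne (K := K) (i := j) h).1
      have hr2 := fun h => (pt_ne (K := K) (i := l) h).1
      rw [← hp] at hp2
      rw [← hq] at hq2
      rw [← hr] at hr2
      obtain ⟨hc, w', h2, h3⟩ := fn_sound h1
      obtain ⟨ds, v, h4, h5, h6, h7⟩ := ih _ _ _ h2
      refine ⟨ds ++ [mkFD 17179869184 p q r], v, h4, by rw [List.length_append, h5]; rfl,
        fun hs hh => ?_, fun f hf => ?_⟩
      · rw [List.append_assoc]
        exact h6 _ (h3 _ hh)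
      · rcases List.mem_append.1 hf with hf | hf
        · exact h7 f hf
        · rw [List.mem_singleton] at hf
          subst hf
          exact ⟨hc, mkFD_bd (by norm_num), p, hp2 hp0, q, hq2 hq0, r, hr2 hr0, rfl⟩

/-- the indices of the outer points -/
theorem ux_sound {F : List ℕ} {w m : ℕ} : ∀ (n S : ℕ), TY.ux (tk F) w m n S = true → ∀ j < n,
    Nat.land (Nat.shiftRight S (w * j)) m < F.length := by
  intro n
  induction n with
  | zero =>
    intro S _ j hj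
    exact absurd hj (Nat.not_lt_zero j)
  | succ n ih =>
    intro S h j hj
    obtain ⟨p, hp⟩ : ∃ p, p = pt (tk F) (Nat.land S m) := ⟨_, rfl⟩
    have h1 : @Nat.rec (fun _ => Bool) false (fun _ _ => TY.ux (tk F) w m n (Nat.shiftRight S w))
        p = true := by
      rw [hp]
      exact h
    cases p with
    | zero => exact absurd h1 Bool.false_ne_true
    | succ p =>
      cases j with
      | zero =>
        have := (pt_ne (K := F) (i := Nat.land S m) (by rw [← hp]; exact Nat.succ_ne_zero p)).2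
        simpa using this
      | succ j =>
        have := ih _ h1 j (by omega)
        rw [nshr, nshr, Nat.div_div_eq_div_mul, ← pow_add, show w + w * j = w * (j + 1) by ring]
          at this
        rw [nshr]
        exact this

end Pool.Agent.Lib.MP_5e7226_co.C8.TY
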