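import Pool.Agent.Lib.MP_5e7226_co.C8.TXS
import Pool.Agent.Lib.MP_5e7226_co.C8.TYF

/-!
# Certificates with a triangulated surface, short form: the vertices
-/

set_option autoImplicit false

open Set

namespace Pool.Agent.Lib.MP_5e7226_co.C8.TY

open GB C8.TF TP TM

/-- bisection: if the result has no bits in the mask, a test is passed -/
lemma bs_sound {f : ℕ → ℕ} {g M : ℕ} {B : ℕ} : ∀ (n t : ℕ), t + 2 ^ n ≤ B →
    Nat.land (bs f g n t) M = 0 → ∃ s < B, Nat.land (f s) M = 0 := by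
  intro n
  induction n with
  | zero =>
    intro t ht h
    exact ⟨t, by rw [pow_zero] at ht; omega, h⟩
  | succ k ih =>
    intro t ht h
    have e2 : (2 : ℕ) ^ (k + 1) = 2 ^ k + 2 ^ k := by ring
    have hs : Nat.shiftLeft 1 k = 2 ^ k := by rw [nshl, one_mul]
    have hp : 0 < 2 ^ k := by positivity
    obtain ⟨A, hA⟩ : ∃ A, A = f t := ⟨_, rfl⟩
    obtain ⟨b, hb⟩ : ∃ b, b = Nat.beq A 0 := ⟨_, rfl⟩
    obtain ⟨c, hc⟩ : ∃ c, c = Nat.beq (Nat.land A g) 0 := ⟨_, rfl⟩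
    have h1 : Nat.land (@Bool.rec (fun _ => ℕ)
        (@Bool.rec (fun _ => ℕ) (bs f g k (Nat.add t (Nat.shiftLeft 1 k)))
          (bs f g k (Nat.sub t (Nat.shiftLeft 1 k))) c) 0 b) M = 0 := by
      rw [hb, hc, hA]
      exact h
    rw [hs] at h1
    cases b with
    | true =>
      refine ⟨t, by omega, ?_⟩
      have : A = 0 := Nat.eq_of_beq_eq_true hb.symm
      rw [← hA, this, nland]
      exact Nat.zero_and M
    | false =>
      cases c with
      | false => exact ih (t + 2 ^ k) (by omega) h1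
      | true =>
        refine ih (t - 2 ^ k) ?_ h1
        omega

/-- the cells of a list of labels -/
def CI (C : ℕ → ℕ → Prop) : Ix → Prop
  | .e => True
  | .c b w _ t => C b w ∧ CI C t

/-- the reader of kept labels -/
lemma kl_sound {T : ℕ → ℕ → ℕ} {M1 : ℕ} {C : ℕ → ℕ → Prop} {Lb : ℕ → Prop}
    (hst : ∀ A b w m, C b w → Nat.land (T w m) M1 = 0 → Lb A → Lb (Nat.lor A b)) :
    ∀ (p : Ix), CI C p → ∀ (K : KT) (A U V : ℕ) (N : Ix), CI C N → kl T p K A U V N = true →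
      ∃ A' U' V' N', K A' U' V' N' = true ∧ CI C N' ∧
        (Nat.land U' M1 = 0 → Nat.land U M1 = 0 ∧ (Lb A → Lb A')) := by
  intro p
  induction p with
  | e =>
    intro _ K A U V N hN hh
    exact ⟨A, U, V, N, hh, hN, fun h => ⟨h, id⟩⟩
  | c b w m t ih =>
    intro hp K A U V N hN hh
    obtain ⟨x, hx⟩ : ∃ x, x = Nat.land V 1 := ⟨_, rfl⟩
    have h1 : @Nat.rec (fun _ => Bool) (kl T t K A U (Nat.shiftRight V 1) N)
        (fun _ _ => kl T t K (Nat.lor A b) (Nat.lor U (T w m)) (Nat.shiftRight V 1)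
          (Ix.c b w m N)) x = true := by
      rw [hx]
      exact hh
    cases x with
    | zero => exact ih hp.2 K _ _ _ _ hN h1
    | succ x =>
      obtain ⟨A', U', V', N', h2, h3, h4⟩ := ih hp.2 K _ _ _ (Ix.c b w m N)
        ⟨hp.1, hN⟩ h1
      refine ⟨A', U', V', N', h2, h3, fun h5 => ?_⟩
      obtain ⟨h6, h7⟩ := h4 h5
      obtain ⟨h8, h9⟩ := lor_zero h6
      exact ⟨h8, fun h10 => h7 (hst _ _ _ _ hp.1 h9 h10)⟩

/-- the reader of new labels -/
lemma kn_sound {T : ℕ → ℕ → ℕ} {G M : ℕ → ℕ} {B m w M1 : ℕ} {C : ℕ → ℕ → Prop}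
    {Lb : ℕ → Prop}
    (hst : ∀ A b w m, C b w → Nat.land (T w m) M1 = 0 → Lb A → Lb (Nat.lor A b))
    (hC : ∀ V, C (Nat.shiftLeft B (Nat.land V m)) (G (Nat.land V m))) :
    ∀ (n : ℕ) (K : KT) (A U V : ℕ) (N : Ix), CI C N → kn T G M B m w n K A U V N = true →
      ∃ A' U' V' N', K A' U' V' N' = true ∧ CI C N' ∧
        (Nat.land U' M1 = 0 → Nat.land U M1 = 0 ∧ (Lb A → Lb A')) := by
  intro n
  induction n with
  | zero =>
    intro K A U V N _ hh
    exact absurd hh Bool.false_ne_true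
  | succ n ih =>
    intro K A U V N hN hh
    obtain ⟨x, hx⟩ : ∃ x, x = Nat.land V 1 := ⟨_, rfl⟩
    obtain ⟨a, ha⟩ : ∃ a, a = Nat.land (Nat.shiftRight V 1) m := ⟨_, rfl⟩
    have h1 : @Nat.rec (fun _ => Bool) (K A U (Nat.shiftRight V 1) N)
        (fun _ _ => kn T G M B m w n K (Nat.lor A (Nat.shiftLeft B a))
          (Nat.lor U (T (G a) (M (G a)))) (Nat.shiftRight V w)
          (Ix.c (Nat.shiftLeft B a) (G a) (M (G a)) N)) x = true := by
      rw [hx, ha]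
      exact hh
    have hCa : C (Nat.shiftLeft B a) (G a) := by
      rw [ha]
      exact hC _
    cases x with
    | zero => exact ⟨A, U, _, N, h1, hN, fun h => ⟨h, id⟩⟩
    | succ x =>
      obtain ⟨A', U', V', N', h2, h3, h4⟩ := ih K _ _ _
        (Ix.c (Nat.shiftLeft B a) (G a) (M (G a)) N) ⟨hCa, hN⟩ h1
      refine ⟨A', U', V', N', h2, h3, fun h5 => ?_⟩
      obtain ⟨h6, h7⟩ := h4 h5
      obtain ⟨h8, h9⟩ := lor_zero h6
      exact ⟨h8, fun h10 => h7 (hst _ _ _ _ hCa h9 h10)⟩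

lemma land_idem {a m : ℕ} (h : Nat.land (Nat.land a m) m = 0) : Nat.land a m = 0 := by
  rw [nland, nland, Nat.and_assoc, Nat.and_self] at h
  exact h

section

variable {R P o M1 MK HF DM BI G0 G1 G2 G3 : ℕ} {WV FV DW FP : ℕ → ℕ} {n W : ℕ} {K : List ℕ}
    {fs ds : List FD} {L : Set E}

/-- the cells of lit labels -/
def Cl (WV : ℕ → ℕ) (b w : ℕ) : Prop := ∃ a < 16, b = Nat.shiftLeft 1 a ∧ w = WV a

/-- the cells of dead labels -/
def Cd (FV : ℕ → ℕ) (b w : ℕ) : Prop := ∃ j < 32, b = Nat.shiftLeft 65536 j ∧ w = FV j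

/-- the lit labels -/
lemma ll_sound (h : Sd R P o M1 MK HF DM BI G0 G1 G2 G3 WV FV DW FP n W K fs ds L)
    {x y z : ℤ} {X e ma wa : ℕ} (hPe : P = 2 ^ e) (hma : ma ≤ 15)
    (hX : Rp fs X (fun h => 2 ^ 95 + (2048 * dz h x y z - R * h.c)))
    (hx : |x| ≤ 2 ^ 20) (hy : |y| ≤ 2 ^ 20) (hz : |z| ≤ 2 ^ 20) {p : Ix} (hp : CI (Cl WV) p)
    {k : KT} {A U V : ℕ}
    (hh : ll WV M1 ma wa (Nat.add e 11) (Nat.sub (Nat.mul 2048 P) 1) X p k A U V Ix.e = true) :
    ∃ A' U' V' N', k A' U' V' N' = true ∧ CI (Cl WV) N' ∧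
      (Nat.land U' M1 = 0 → Nat.land U M1 = 0 ∧
        (TX.Lab K ds DW FP n W A ((2048 / (R : ℝ)) • rv x y z) →
          TX.Lab K ds DW FP n W A' ((2048 / (R : ℝ)) • rv x y z))) := by
  obtain ⟨T, hT⟩ : ∃ T : ℕ → ℕ → ℕ, T = fun x y =>
    bs (fun t => Nat.land (Nat.add X (Nat.mul t x)) M1) y (Nat.add e 11)
      (Nat.sub (Nat.mul 2048 P) 1) := ⟨_, rfl⟩
  have h1 : kl T p (kn T WV (fun x => Nat.xor (Nat.land (Nat.add x M1) M1) M1) 1 ma wa 16 k)
      A U V Ix.e = true := by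
    rw [hT]
    exact hh
  clear hh
  have hB : Nat.sub (Nat.mul 2048 P) 1 + 2 ^ (Nat.add e 11) ≤ 4096 * P := by
    have e1 : 2 ^ (Nat.add e 11) = 2048 * P := by
      rw [nadd, hPe, pow_add]
      ring
    rw [e1, nsub, nmul]
    omega
  have hst : ∀ A b w m, Cl WV b w → Nat.land (T w m) M1 = 0 →
      TX.Lab K ds DW FP n W A ((2048 / (R : ℝ)) • rv x y z) →
      TX.Lab K ds DW FP n W (Nat.lor A b) ((2048 / (R : ℝ)) • rv x y z) := by
    rintro A b w m ⟨a, ha, rfl, rfl⟩ ht hA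
    rw [hT] at ht
    obtain ⟨s, hs, hs'⟩ := bs_sound (B := 4096 * P) _ _ hB ht
    refine TX.lab_l h hX hx hy hz ha (s := s) ?_ (land_idem hs') hA
    have := h.P2
    omega
  obtain ⟨A1, U1, V1, N1, h2, h3, h4⟩ := kl_sound (M1 := M1)
    (Lb := fun A => TX.Lab K ds DW FP n W A ((2048 / (R : ℝ)) • rv x y z)) hst p hp _ _ _ _
    Ix.e trivial h1
  obtain ⟨A2, U2, V2, N2, h5, h6, h7⟩ := kn_sound (M1 := M1)
    (Lb := fun A => TX.Lab K ds DW FP n W A ((2048 / (R : ℝ)) • rv x y z)) hst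
    (fun V => ⟨Nat.land V ma, by have := land_le V ma; omega, rfl, rfl⟩) 16 _ _ _ _ _ h3 h2
  refine ⟨A2, U2, V2, N2, h5, h6, fun h8 => ?_⟩
  obtain ⟨h9, h10⟩ := h7 h8
  obtain ⟨h11, h12⟩ := h4 h9
  exact ⟨h11, fun h13 => h10 (h12 h13)⟩

/-- the dead labels -/
lemma ld_sound (h : Sd R P o M1 MK HF DM BI G0 G1 G2 G3 WV FV DW FP n W K fs ds L)
    {x y z : ℤ} {X Z e mu wu : ℕ} (hPe : P = 2 ^ e) (hmu : mu ≤ 31)
    (hZ : Rp fs Z (fun h => 2048 * dz h x y z - R * h.c))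
    (hx : |x| ≤ 2 ^ 20) (hy : |y| ≤ 2 ^ 20) (hz : |z| ≤ 2 ^ 20) {p : Ix} (hp : CI (Cd FV) p)
    {k : KT} {A U V : ℕ}
    (hh : ld FV M1 mu wu (Nat.add e 9) (Nat.sub (Nat.mul 512 P) 1) X Z p k A U V Ix.e = true) :
    ∃ A' U' V' N', k A' U' V' N' = true ∧ CI (Cd FV) N' ∧
      (Nat.land U' M1 = 0 → Nat.land U M1 = 0 ∧
        (TX.Lab K ds DW FP n W A ((2048 / (R : ℝ)) • rv x y z) →
          TX.Lab K ds DW FP n W A' ((2048 / (R : ℝ)) • rv x y z))) := by
  obtain ⟨T, hT⟩ : ∃ T : ℕ → ℕ → ℕ, T = fun x _ =>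
    bs (fun t => Nat.xor (Nat.land (Nat.add x (Nat.mul t Z)) M1) M1) (Nat.land X M1) (Nat.add e 9)
      (Nat.sub (Nat.mul 512 P) 1) := ⟨_, rfl⟩
  have h1 : kl T p (kn T FV (fun _ => 0) 65536 mu wu 16 k) A U V Ix.e = true := by
    rw [hT]
    exact hh
  clear hh
  have hB : Nat.sub (Nat.mul 512 P) 1 + 2 ^ (Nat.add e 9) ≤ 1024 * P := by
    have e1 : 2 ^ (Nat.add e 9) = 512 * P := by
      rw [nadd, hPe, pow_add]
      ring
    rw [e1, nsub, nmul]
    omega
  have hst : ∀ A b w m, Cd FV b w → Nat.land (T w m) M1 = 0 →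
      TX.Lab K ds DW FP n W A ((2048 / (R : ℝ)) • rv x y z) →
      TX.Lab K ds DW FP n W (Nat.lor A b) ((2048 / (R : ℝ)) • rv x y z) := by
    rintro A b w m ⟨j, hj, rfl, rfl⟩ ht hA
    rw [hT] at ht
    obtain ⟨s, hs, hs'⟩ := bs_sound (B := 1024 * P) _ _ hB ht
    exact TX.lab_n h hZ hx hy hz hj hs hs' hA
  obtain ⟨A1, U1, V1, N1, h2, h3, h4⟩ := kl_sound (M1 := M1)
    (Lb := fun A => TX.Lab K ds DW FP n W A ((2048 / (R : ℝ)) • rv x y z)) hst p hp _ _ _ _
    Ix.e trivial h1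
  obtain ⟨A2, U2, V2, N2, h5, h6, h7⟩ := kn_sound (M1 := M1)
    (Lb := fun A => TX.Lab K ds DW FP n W A ((2048 / (R : ℝ)) • rv x y z)) hst
    (fun V => ⟨Nat.land V mu, by have := land_le V mu; omega, rfl, rfl⟩) 16 _ _ _ _ _ h3 h2
  refine ⟨A2, U2, V2, N2, h5, h6, fun h8 => ?_⟩
  obtain ⟨h9, h10⟩ := h7 h8
  obtain ⟨h11, h12⟩ := h4 h9
  exact ⟨h11, fun h13 => h10 (h12 h13)⟩

/-- a reader of vertices is correct; `G` is the end -/
def Vr (M1 : ℕ) (Q0 : ℕ → ℕ → ℕ → ℕ → E → Prop) (WV FV : ℕ → ℕ) (G : ℕ → Fr → Prop)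
    (ih : VT) : Prop :=
  ∀ (U V : ℕ) (p q : Ix) (Q : Fr), CI (Cl WV) p → CI (Cd FV) q → ih U V p q Q = true →
    ∃ U' Q', G U' Q' ∧ (Nat.land U' M1 = 0 → Nat.land U M1 = 0 ∧
      ((∃ l, AV Q0 Q l) → ∃ l, AV Q0 Q' l))

/-- a vertex -/
lemma v1_sound (h : Sd R P o M1 MK HF DM BI G0 G1 G2 G3 WV FV DW FP n W K fs ds L) {F0 : ℕ}
    (hL : Lan o F0) {x y z e ma wa mu wu : ℕ} (hPe : P = 2 ^ e) (hma : ma ≤ 15) (hmu : mu ≤ 31)
    (hx : x < 16384 * P) (hy : y < 16384 * P) (hz : z < 16384 * P) {G : ℕ → Fr → Prop} {ih : VT}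
    (hi : Vr M1 (TX.VL K ds DW FP n W R) WV FV G ih) :
    Vr M1 (TX.VL K ds DW FP n W R) WV FV G
      (v1 (ll WV M1 ma wa (Nat.add e 11) (Nat.sub (Nat.mul 2048 P) 1))
        (ld FV M1 mu wu (Nat.add e 9) (Nat.sub (Nat.mul 512 P) 1))
        MK HF DM BI G0 G1 G2 G3 F0 x y z ih) := by
  intro U V p q Q hp hq hh
  have hP2 := h.P2
  have hoo := h.ho
  obtain ⟨Y, hY⟩ : ∃ Y, Y = cb G0 G1 G2 G3 x y z := ⟨_, rfl⟩
  obtain ⟨F, hF⟩ : ∃ F, F = cb F0 5148396096422391593693210985222689424575005282213296071655104164476572739631099228161281473378140200867014462091313623896471647770169205880543939042148696815209998759548209600514344487499673960289996350615186526947049573136915791280795360098101364005756748117893319615217446321397464085278907326797546027183637928885300216316649720914764708707449009493819953272390506624046949177083590099150297907997837536438233600846912049605431713435082926603157893751207164978964306795707521391103163764149247422696512731453327789280313596247298850157395987457858634514433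 820186817651640487320479808367534510238779540102526006236474836166734016865198916599229854163595010108025318803836632852754125866544858043735096856439846006454978819598259642397085528696701555051856161739182647743468597210005966331382729356402325458150733960459981729036345322414555007628320445039838977906965768055963000486016154784451344531074019670008413478294798457380255788072360537234482565722954324227241174588951987799234916129852384378862113423942597907121465468838877256506330981731267510272 5148396096422391593693210985222689424559875505895445975835011653087223472640850971847942935436341680327200515892108411609132047835397240711177878418048171027201063756236028647658420595634788935851417141860331706828497501488611626096979764216414760364613191715595435562615258056288069018893568176829707091226798639370854331474173195405993561317487119046614061242892273782562645046090020037377663408515543935277064621009614679375749011635899914139032468415271071888014891040838580767580573198805233096445544864581683568157641574597210216157268178745242343702528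 x y z := ⟨_, rfl⟩
  have hh' : ll WV M1 ma wa (Nat.add e 11) (Nat.sub (Nat.mul 2048 P) 1)
      (Nat.land (Nat.add BI Y) MK) p (fun A U V p =>
        ld FV M1 mu wu (Nat.add e 9) (Nat.sub (Nat.mul 512 P) 1)
          (Nat.land (Nat.add BI Y) MK) (Nat.land Y MK) q (fun A U V q => ih U V p q (Fr.c A
            (Nat.land F 4562440617622195218641171605700291324893228507248559930579192517899275167208677386505912811317371399778642309573594407310688704721375437998252661319722214188251994674360264950082874192246603775)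
            (Nat.land (Nat.shiftRight F 640) 4562440617622195218641171605700291324893228507248559930579192517899275167208677386505912811317371399778642309573594407310688704721375437998252661319722214188251994674360264950082874192246603775)
            (Nat.shiftRight F 1280) Q)) A U V Ix.e)
      (Nat.land (Nat.shiftRight (Nat.add BI Y) HF) DM) U V Ix.e = true := by
    rw [hY, hF]
    exact hh
  clear hh
  have bd : ∀ x : ℕ, x < 16384 * P → |(x : ℤ) - o| ≤ 2 ^ 20 := by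
    intro x hx
    have h1 : (x : ℤ) < 16384 * P := by exact_mod_cast hx
    have h2 : (P : ℤ) ≤ 128 := by exact_mod_cast hP2
    have h3 : (o : ℤ) = 8192 * P := by exact_mod_cast hoo
    rw [abs_le]
    constructor
    · have : (0 : ℤ) ≤ x := Nat.cast_nonneg _
      norm_num
      linarith
    · norm_num
      linarith
  have hYr : Rp (fs ++ ds) Y (fun h => 2048 * dz h ((x : ℤ) - o) ((y : ℤ) - o) ((z : ℤ) - o) -
      R * h.c) := by
    have h1 := ((h.hG0.add (h.hG1.mul x)).add (h.hG2.mul y)).add (h.hG3.mul z)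
    rw [hY]
    refine Rp.congr h1 (fun f _ => ?_)
    simp only [dz]
    ring
  have hX : Rp (fs ++ ds) (Nat.add BI Y) (fun h => 2 ^ 95 + (2048 * dz h ((x : ℤ) - o)
      ((y : ℤ) - o) ((z : ℤ) - o) - R * h.c)) := h.hBI.add hYr
  have hFm := hL x y z (by omega) (by omega) (by omega)
  rw [← hF] at hFm
  obtain ⟨A1, U1, V1, N1, h1, h2, h3⟩ := ll_sound h hPe hma (rp_mask h.hMK hX) (bd x hx)
    (bd y hy) (bd z hz) hp hh'
  obtain ⟨A2, U2, V2, N2, h4, h5, h6⟩ := ld_sound h hPe hmu (rp_mask h.hMK hYr) (bd x hx)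
    (bd y hy) (bd z hz) hq h1
  obtain ⟨U', Q', h7, h8⟩ := hi _ _ _ _ _ h2 h5 h4
  refine ⟨U', Q', h7, fun h9 => ?_⟩
  obtain ⟨h10, h11⟩ := h8 h9
  obtain ⟨h12, h13⟩ := h6 h10
  obtain ⟨h14, h15⟩ := h3 h12
  refine ⟨h14, fun ⟨l, hl⟩ => h11 ⟨rv ((x : ℤ) - o) ((y : ℤ) - o) ((z : ℤ) - o) :: l, ?_, hl⟩⟩
  exact ⟨_, _, _, rfl, bd x hx, bd y hy, bd z hz, hFm,
    h13 (h15 (TX.lab_0 h hX (bd x hx) (bd y hy) (bd z hz)))⟩

/-- the vertices -/
lemma vs_sound {Q0 : ℕ → ℕ → ℕ → ℕ → E → Prop} {G : ℕ → Fr → Prop} {c0 c1 c2 c3 : VT → VT}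
    {k : VT} (hk : Vr M1 Q0 WV FV G k)
    (h0 : ∀ ih, Vr M1 Q0 WV FV G ih → Vr M1 Q0 WV FV G (c0 ih))
    (h1 : ∀ ih, Vr M1 Q0 WV FV G ih → Vr M1 Q0 WV FV G (c1 ih))
    (h2 : ∀ ih, Vr M1 Q0 WV FV G ih → Vr M1 Q0 WV FV G (c2 ih))
    (h3 : ∀ ih, Vr M1 Q0 WV FV G ih → Vr M1 Q0 WV FV G (c3 ih)) :
    ∀ N, Vr M1 Q0 WV FV G (vs c0 c1 c2 c3 k N) := by
  intro N
  induction N with
  | zero => exact hk
  | succ N ih =>
    intro U V p q Q hp hq hh
    obtain ⟨x, hx⟩ : ∃ x, x = Nat.land V 3 := ⟨_, rfl⟩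
    have h4 : cs c0 c1 c2 c3 x (vs c0 c1 c2 c3 k N) U (Nat.shiftRight V 2) p q Q = true := by
      rw [hx]
      exact hh
    rcases x with _ | _ | _ | x
    · exact h0 _ ih _ _ _ _ _ hp hq h4
    · exact h1 _ ih _ _ _ _ _ hp hq h4
    · exact h2 _ ih _ _ _ _ _ hp hq h4
    · exact h3 _ ih _ _ _ _ _ hp hq h4

/-- the surface -/
theorem sf_sound (h : Sd R P o M1 MK HF DM BI G0 G1 G2 G3 WV FV DW FP n W K fs ds L) {F0 : ℕ}
    (hL : Lan o F0) {J : Set (E × Set E)} {e ma wa mu wu nv V : ℕ} (hPe : P = 2 ^ e)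
    (hma : ma ≤ 15) (hmu : mu ≤ 31)
    (hh : sf (v1 (ll WV M1 ma wa (Nat.add e 11) (Nat.sub (Nat.mul 2048 P) 1))
        (ld FV M1 mu wu (Nat.add e 9) (Nat.sub (Nat.mul 512 P) 1))
        MK HF DM BI G0 G1 G2 G3 F0) e P M1 nv V = true) :
    ∀ x ∈ L, Phi (Wf n (Wl n W)) J L x := by
  have hP := h.P1
  obtain ⟨v, hv⟩ : ∃ v : ℕ → ℕ → ℕ → VT → VT, v =
    v1 (ll WV M1 ma wa (Nat.add e 11) (Nat.sub (Nat.mul 2048 P) 1))
      (ld FV M1 mu wu (Nat.add e 9) (Nat.sub (Nat.mul 512 P) 1)) MK HF DM BI G0 G1 G2 G3 F0 :=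
    ⟨_, rfl⟩
  rw [← hv] at hh
  obtain ⟨G, hG⟩ : ∃ G : ℕ → Fr → Prop, G = fun U Q => ∃ V p q,
    ve M1 (Nat.sub (Nat.add nv nv) 5) U V p q Q = true := ⟨_, rfl⟩
  have hc : ∀ (g m w w2 w3 : ℕ), m < 16384 * P → ∀ ih,
      Vr M1 (TX.VL K ds DW FP n W R) WV FV G ih →
      Vr M1 (TX.VL K ds DW FP n W R) WV FV G (vc v g m w w2 w3 ih) := by
    intro g m w w2 w3 hm ih hi U V p q Q hp hq ht
    have hl : ∀ a, Nat.land a m < 16384 * P := fun a => lt_of_le_of_lt (land_le a m) hm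
    refine v1_sound (wa := wa) (wu := wu) h hL hPe hma hmu (hl (Nat.shiftLeft V g))
      (hl (Nat.shiftLeft (Nat.shiftRight V w) g)) (hl (Nat.shiftLeft (Nat.shiftRight V w2) g)) hi
      U (Nat.shiftRight V w3) p q Q hp hq ?_
    rw [hv] at ht
    exact ht
  have hm : ∀ c, 0 < c → Nat.sub (Nat.mul 16384 P) c < 16384 * P := by
    intro c hc
    rw [nsub, nmul]
    omega
  have hk : Vr M1 (TX.VL K ds DW FP n W R) WV FV G (ve M1 (Nat.sub (Nat.add nv nv) 5)) := by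
    intro U V p q Q _ _ ht
    refine ⟨U, Q, ?_, fun h => ⟨h, id⟩⟩
    rw [hG]
    exact ⟨V, p, q, ht⟩
  obtain ⟨U', Q', h1, h2⟩ := vs_sound hk
    (hc _ _ _ _ _ (hm (Nat.mul 256 P) (by rw [nmul]; omega)))
    (hc _ _ _ _ _ (hm (Nat.mul 64 P) (by rw [nmul]; omega)))
    (hc _ _ _ _ _ (hm (Nat.mul 16 P) (by rw [nmul]; omega)))
    (hc _ _ _ _ _ (hm 1 (by omega))) nv 0 V Ix.e Ix.e Fr.e trivial trivial hh
  rw [hG] at h1
  obtain ⟨V', p', q', h1⟩ := h1
  obtain ⟨h3, h4⟩ := br h1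
  obtain ⟨_, h5⟩ := h2 (Nat.eq_of_beq_eq_true h4)
  obtain ⟨l, hl⟩ := h5 ⟨[], AV_e _⟩
  obtain ⟨T, v, hc, hv, hne, hcl⟩ := TY.f0_sound (J := Jm L (Phi (Wf n (Wl n W)) J L))
    (fun R1 A1 B1 D1 P1 R2 A2 B2 D2 P2 R3 A3 B3 D3 P3 u k v1 v2 v3 ht =>
      TX.mt_sound h R1 A1 B1 D1 P1 R2 A2 B2 D2 P2 R3 A3 B3 D3 P3 u k v1 v2 v3 ht) hl h3
  have hv' : v.testBit 575 = false := by
    have h6 := Nat.eq_of_beq_eq_true hv
    have h7 := land_zero h6 (i := 575) (by decide +kernel)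
    exact h7
  exact closed_phi hne (ch_good T 0 v hc hv').2 hcl

end

end Pool.Agent.Lib.MP_5e7226_co.C8.TY
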