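import Pool.Agent.Lib.MP_5e7226_co.C8.Asm
import Pool.Agent.Lib.MP_5e7226_co.C8.Snd6

/-!
# From accepted certificates in the simplex frame to the theorem
-/

set_option autoImplicit false

open Set

namespace Pool.Agent.Lib.MP_5e7226_co.C8

open GB

/-- the simplex frame satisfies the requirements of the checker -/
theorem frm_sim (N : ℕ) : Frm (simCls N) (16 * N ^ 3) := by
  refine ⟨fun L hL => (simCls_facts hL).2.1, ?_⟩
  intro L hL p q r hp hq hr hc
  have hmax := (simCls_facts hL).2.2.2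
  set h := mkFD (16 * N ^ 3) p q r with hh
  have hcz := mkFD_c_eq (16 * N ^ 3) p q r hc
  rw [← hh] at hcz
  have hcr : (h.c : ℝ) = 16 * (N : ℝ) ^ 3 + (dz h (ix p) (iy p) (iz p) : ℝ) := by
    have h1 : ((h.c : ℤ) : ℝ) = (((16 * N ^ 3 : ℕ) : ℤ) : ℝ) + (dz h (ix p) (iy p) (iz p) : ℝ) := by
      exact_mod_cast hcz
    push_cast at h1
    exact h1
  have key : ∀ z ∈ L, nr h ⬝ᵥ z ≤ (h.c : ℝ) := by
    intro z hz
    have h1 := hmax ![rp p, rp q, rp r, z] (by
      intro j
      fin_cases j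
      · exact hp
      · exact hq
      · exact hr
      · exact hz)
    have h2 : (Matrix.of fun i : Fin 3 => (![rp p, rp q, rp r, z] : Fin 4 → E) i.succ -
        (![rp p, rp q, rp r, z] : Fin 4 → E) 0).det = nr h ⬝ᵥ z - (dz h (ix p) (iy p) (iz p) : ℝ) := by
      have e1 := mkFD_n (16 * N ^ 3) p q r (ix p) (iy p) (iz p)
      have n1 : ((h.A1 : ℤ) : ℝ) - ((h.B1 : ℤ) : ℝ) = ((((iy q * iz r - iz q * iy r) +
          (iy r * iz p - iz r * iy p) + (iy p * iz q - iz p * iy q)) : ℤ) : ℝ) := by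
        have := mkFD_n (16 * N ^ 3) p q r 1 0 0
        simp only [dz, mul_one, mul_zero, add_zero] at this
        rw [← hh] at this
        exact_mod_cast this
      have n2 : ((h.A2 : ℤ) : ℝ) - ((h.B2 : ℤ) : ℝ) = ((((iz q * ix r - ix q * iz r) +
          (iz r * ix p - ix r * iz p) + (iz p * ix q - ix p * iz q)) : ℤ) : ℝ) := by
        have := mkFD_n (16 * N ^ 3) p q r 0 1 0
        simp only [dz, mul_one, mul_zero, add_zero, zero_add] at this
        rw [← hh] at this
        exact_mod_cast this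
      have n3 : ((h.A3 : ℤ) : ℝ) - ((h.B3 : ℤ) : ℝ) = ((((ix q * iy r - iy q * ix r) +
          (ix r * iy p - iy r * ix p) + (ix p * iy q - iy p * ix q)) : ℤ) : ℝ) := by
        have := mkFD_n (16 * N ^ 3) p q r 0 0 1
        simp only [dz, mul_one, mul_zero, zero_add] at this
        rw [← hh] at this
        exact_mod_cast this
      have hn : nr h = ![((h.A1 : ℤ) : ℝ) - ((h.B1 : ℤ) : ℝ), ((h.A2 : ℤ) : ℝ) - ((h.B2 : ℤ) : ℝ),
          ((h.A3 : ℤ) : ℝ) - ((h.B3 : ℤ) : ℝ)] := by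
        simp [nr, rv]
      rw [← hh] at e1
      rw [hn, n1, n2, n3, e1]
      rw [Matrix.det_fin_three]
      simp only [rp, rv, Matrix.of_apply, Fin.succ_zero_eq_one, Fin.succ_one_eq_two, Pi.sub_apply,
        Matrix.cons_val_zero, Matrix.cons_val_one, Matrix.cons_val, dotProduct,
        Fin.sum_univ_three]
      have s2 : (Fin.succ (2 : Fin 3)) = (3 : Fin 4) := rfl
      simp only [s2, Matrix.cons_val]
      push_cast
      ring
    rw [h2] at h1
    have h3 := (abs_le.1 h1).2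
    rw [hcr]
    linarith
  refine ⟨?_, ?_⟩
  · exact convex_halfSpace_ge (f := fun z : E => nr h ⬝ᵥ z)
      ⟨fun x y => by rw [dotProduct_add], fun c x => by rw [dotProduct_smul]⟩ _
  · intro z hz s hs hsz
    have h1 := key _ hsz
    rw [dotProduct_smul, smul_eq_mul] at h1
    have h2 : (h.c : ℝ) ≤ nr h ⬝ᵥ z := hz
    have h3 : (0 : ℝ) < h.c := by exact_mod_cast hc
    nlinarith

theorem frm_sim1024 : Frm (simCls 1024) 17179869184 := by
  have h := frm_sim 1024
  norm_num at h
  exact h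

/-- membership of all packed points in a list of triples -/
def subZ (l : List ℕ) (m : List (ℤ × ℤ × ℤ)) : Bool :=
  l.all fun p => m.any fun t => (ix p == t.1 && iy p == t.2.1) && iz p == t.2.2

lemma subZ_sound {l : List ℕ} {m : List (ℤ × ℤ × ℤ)} (h : subZ l m = true) : KS l ⊆ ptsZ m := by
  rintro _ ⟨p, hp, rfl⟩
  rw [subZ, List.all_eq_true] at h
  have h1 := h p hp
  rw [List.any_eq_true] at h1
  obtain ⟨t, ht, h2⟩ := h1
  simp only [Bool.and_eq_true, beq_iff_eq] at h2
  refine ⟨t, ht, ?_⟩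
  show rv (ix p) (iy p) (iz p) = rl t.1 t.2.1 t.2.2
  rw [h2.1.1, h2.1.2, h2.2]
  rfl

lemma zero_of_has4 {K : List ℕ} (h : has4 K = true) : (0 : E) ∈ convexHull ℝ (KS K) := by
  have hm : ∀ p ∈ rt4, rp p ∈ KS K := by
    intro p hp
    rw [has4, List.all_eq_true] at h
    have h1 := h p hp
    rw [List.any_eq_true] at h1
    obtain ⟨q, hq, h2⟩ := h1
    have h3 : p = q := Nat.eq_of_beq_eq_true h2
    subst h3
    exact ⟨p, hq, rfl⟩
  have m0 := subset_convexHull ℝ _ (hm 145137749492736 (by simp [rt4]))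
  have m1 := subset_convexHull ℝ _ (hm 136341522252800 (by simp [rt4]))
  have m2 := subset_convexHull ℝ _ (hm 136341656468480 (by simp [rt4]))
  have m3 := subset_convexHull ℝ _ (hm 145137615272960 (by simp [rt4]))
  have hc := convex_convexHull ℝ (KS K)
  have a1 := hc m0 m1 (by norm_num : (0 : ℝ) ≤ 1 / 2) (by norm_num : (0 : ℝ) ≤ 1 / 2) (by norm_num)
  have a2 := hc m2 m3 (by norm_num : (0 : ℝ) ≤ 1 / 2) (by norm_num : (0 : ℝ) ≤ 1 / 2) (by norm_num)
  have a3 := hc a1 a2 (by norm_num : (0 : ℝ) ≤ 1 / 2) (by norm_num : (0 : ℝ) ≤ 1 / 2) (by norm_num)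
  have e : (1 / 2 : ℝ) • ((1 / 2 : ℝ) • rp 145137749492736 + (1 / 2 : ℝ) • rp 136341522252800) +
      (1 / 2 : ℝ) • ((1 / 2 : ℝ) • rp 136341656468480 + (1 / 2 : ℝ) • rp 145137615272960) = 0 := by
    have x0 : rp 145137749492736 = rv 1024 1024 1024 := by
      unfold rp; congr 1
    have x1 : rp 136341522252800 = rv 1024 (-1024) (-1024) := by
      unfold rp; congr 1
    have x2 : rp 136341656468480 = rv (-1024) 1024 (-1024) := by
      unfold rp; congr 1
    have x3 : rp 145137615272960 = rv (-1024) (-1024) 1024 := by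
      unfold rp; congr 1
    rw [x0, x1, x2, x3]
    funext i
    fin_cases i <;> simp [rv] <;> norm_num
  rwa [e] at a3

/-- an accepted certificate without facts about unlit points -/
theorem good_of_chk {n : ℕ} (hn : 0 < n) {rs : List SN}
    (hrs : ∀ s ∈ rs, Good n (simCls 1024) (toSt 4096 s)) {t : Tr} {s : SN}
    (h : chk n 4096 17179869184 rs t none s = true) (h4 : has4 s.K = true) :
    Good n (simCls 1024) (toSt 4096 s) :=
  (chk_sound hn frm_sim1024 (by norm_num) le_rfl (by norm_num) hrs t none s h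
    (zero_of_has4 h4)).1 rfl

/-- a packed state gives a state of the root chain -/
theorem good_root {n : ℕ} {K F : List ℕ} {K' F' : List (ℤ × ℤ × ℤ)}
    (h : Good n (simCls 1024) (toSt 4096 ⟨K, F, []⟩)) (hK : subZ K K' = true)
    (hF : subZ F F' = true) : Good n (simCls 1024) ⟨ptsZ K', ptsZ F', ∅⟩ := by
  refine h.mono (subZ_sound hK) (subZ_sound hF) ?_
  rintro f ⟨u, hu, -⟩
  simp at hu

end Pool.Agent.Lib.MP_5e7226_co.C8
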